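import Mathlib

/-!
# Measure preserving maps between compact groups
-/

open MeasureTheory

namespace Pool.Agent.N989.MK

set_option linter.unusedSectionVars false

section

variable {H H' : Type*} [Group H] [TopologicalSpace H] [IsTopologicalGroup H] [CompactSpace H]
  [MeasurableSpace H] [BorelSpace H] [Group H'] [TopologicalSpace H'] [IsTopologicalGroup H']
  [CompactSpace H'] [MeasurableSpace H'] [BorelSpace H']
  (ν : Measure H) [IsProbabilityMeasure ν] [ν.IsMulLeftInvariant]
  (ν' : Measure H') [IsProbabilityMeasure ν'] [ν'.IsHaarMeasure]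

/-- a left invariant probability measure is the Haar measure -/
lemma eq_haar (κ : Measure H') [IsProbabilityMeasure κ] [κ.IsMulLeftInvariant] : κ = ν' := by
  have h3 : κ.IsHaarMeasure :=
    Measure.isHaarMeasure_of_isCompact_nonempty_interior κ Set.univ isCompact_univ
      (by simp) (by simp) (by simp)
  exact Measure.isHaarMeasure_eq_of_isProbabilityMeasure _ _

/-- maps with enough symmetry preserve the Haar measures -/
lemma mp_of_equivariant (φ : H → H') (hφ : Continuous φ)
    (h : ∀ g : H', ∃ T : H → H, MeasurePreserving T ν ν ∧ ∀ x, φ (T x) = g * φ x) :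
    MeasurePreserving φ ν ν' := by
  refine ⟨hφ.measurable, ?_⟩
  have h1 : IsProbabilityMeasure (Measure.map φ ν) :=
    Measure.isProbabilityMeasure_map hφ.measurable.aemeasurable
  have h2 : (Measure.map φ ν).IsMulLeftInvariant := by
    refine ⟨fun g => ?_⟩
    obtain ⟨T, hT, hTe⟩ := h g
    have hg : Continuous fun x : H' => g * x := continuous_const.mul continuous_id
    rw [Measure.map_map hg.measurable hφ.measurable]
    have e : (fun x => g * x) ∘ φ = φ ∘ T := by
      funext x
      exact (hTe x).symm
    rw [e, ← Measure.map_map hφ.measurable hT.measurable, hT.map_eq]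
  exact eq_haar ν' _

/-- continuous surjective homomorphisms preserve the Haar measures -/
lemma mp_hom (φ : H →* H') (hφ : Continuous φ) (hs : Function.Surjective φ) :
    MeasurePreserving φ ν ν' := by
  refine mp_of_equivariant ν ν' φ hφ fun g => ?_
  obtain ⟨g0, rfl⟩ := hs g
  exact ⟨fun x => g0 * x, measurePreserving_mul_left ν g0, fun x => by simp⟩

variable {ν ν'}

lemma int_mp [SecondCountableTopology H'] {φ : H → H'} (h : MeasurePreserving φ ν ν')
    {F : H' → ℝ} (hF : Continuous F) : ∫ x, F x ∂ν' = ∫ x, F (φ x) ∂ν := by
  rw [← h.map_eq, integral_map h.measurable.aemeasurable]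
  exact hF.aestronglyMeasurable

end

end Pool.Agent.N989.MK
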