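import Mathlib

/-!
# The four dimensional hierarchical lattice gauge theory

The hierarchical square of level `n` is a complex made of oriented edges and of plaquettes. The
square of level `0` is a single plaquette with four edges. The square of level `n + 1` consists of
four sheets glued along their common boundary; every sheet is a `2 × 2` array of four squares of
level `n`, its quarters. So the square of level `n` has four sides of length `2 ^ n`, common to all
its sheets, it has `16 ^ n` plaquettes, and the plaquettes spanning its boundary in one choice of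
sheets number `4 ^ n`: this is the geometry of the bond moving with scale `2` in dimension four,
where `2 ^ (4 - 2) = 4` parallel surfaces are put together.
-/

open MeasureTheory Matrix

namespace Pool.Agent.N989.MK

noncomputable section

/-- The inner edges of the hierarchical square of level `n`. For the level `n + 1` these are the
edges `(s, j, k)`, the `k`-th edge of the `j`-th of the four middle paths (of `2 ^ n` edges each) of
the sheet `s`, and the inner edges of the sixteen quarters. -/
def IE : ℕ → Type
  | 0 => Empty
  | n + 1 => (Fin 4 × Fin 4 × Fin (2 ^ n)) ⊕ (Fin 4 × Fin 4 × IE n)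

instance instFintypeIE : ∀ n, Fintype (IE n)
  | 0 => inferInstanceAs (Fintype Empty)
  | n + 1 => by
    have := instFintypeIE n
    exact inferInstanceAs (Fintype ((Fin 4 × Fin 4 × Fin (2 ^ n)) ⊕ (Fin 4 × Fin 4 × IE n)))

/-- The edges of the boundary of the hierarchical square of level `n`: `(i, k)` is the `k`-th edge
of the side `i`, where the sides are `0` (bottom, to the right), `1` (right, upwards), `2` (top, to
the right), `3` (left, upwards). -/
abbrev BE (n : ℕ) := Fin 4 × Fin (2 ^ n)

/-- The edges of the hierarchical square of level `n`. -/
abbrev Ed (n : ℕ) := BE n ⊕ IE n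

/-- The plaquettes of the hierarchical square of level `n`. For the level `n + 1` the plaquette
`(s, q, p)` is the plaquette `p` of the quarter `q` of the sheet `s`. -/
def Pq : ℕ → Type
  | 0 => Unit
  | n + 1 => Fin 4 × Fin 4 × Pq n

instance instFintypePq : ∀ n, Fintype (Pq n)
  | 0 => inferInstanceAs (Fintype Unit)
  | n + 1 => by
    have := instFintypePq n
    exact inferInstanceAs (Fintype (Fin 4 × Fin 4 × Pq n))

/-- The sides of the four quarters of a sheet: `side q i` is the side `i` of the quarter `q`
(`0` bottom left, `1` bottom right, `2` top left, `3` top right), where `.inl (j, h)` is the half `h`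
of the side `j` of the sheet and `.inr j` is the middle path `j` of the sheet: `0` from the left to
the centre, `1` from the centre to the right, `2` from the bottom to the centre, `3` from the
centre to the top. -/
def side : Fin 4 → Fin 4 → (Fin 4 × Fin 2) ⊕ Fin 4 :=
  ![![.inl (0, 0), .inr 2, .inr 0, .inl (3, 0)],
    ![.inl (0, 1), .inl (1, 0), .inr 1, .inr 2],
    ![.inr 0, .inr 3, .inl (2, 0), .inl (3, 1)],
    ![.inr 1, .inl (1, 1), .inl (2, 1), .inr 3]]

/-- The position in a side of length `2 ^ (n + 1)` of the edge `k` of its half `h`. -/
def pos {n : ℕ} (h : Fin 2) (k : Fin (2 ^ n)) : Fin (2 ^ (n + 1)) :=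
  ⟨h * 2 ^ n + k, by
    have h1 := h.2
    have h2 := k.2
    have h3 : (h : ℕ) * 2 ^ n ≤ 1 * 2 ^ n := Nat.mul_le_mul_right _ (by omega)
    rw [pow_succ]
    omega⟩

/-- The edge of the square of level `n + 1` which is the edge `e` of the quarter `q` of the sheet
`s`. -/
def emb {n : ℕ} (s q : Fin 4) : Ed n → Ed (n + 1)
  | .inl (i, k) => match side q i with
    | .inl (j, h) => .inl (j, pos h k)
    | .inr j => .inr (.inl (s, j, k))
  | .inr e => .inr (.inr (s, q, e))

/-- The four edges of a plaquette. -/
def bd : ∀ n : ℕ, Pq n → Fin 4 → Ed n
  | 0, _, i => .inl (i, 0)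
  | n + 1, (s, q, p), i => emb s q (bd n p i)

/-- The level of the smallest hierarchical square which contains the two plaquettes: the distance of
the plaquettes is `2 ^ anc`. -/
def anc : ∀ n : ℕ, Pq n → Pq n → ℕ
  | 0, _, _ => 0
  | n + 1, (s, r, p), (s', r', p') => if s = s' ∧ r = r' then anc n p p' else n + 1

section

variable {G : Type*} [Group G]

/-- The product of the variables around the plaquette `p`. -/
def hol {n : ℕ} (U : Ed n → G) (p : Pq n) : G :=
  U (bd n p 0) * U (bd n p 1) * (U (bd n p 2))⁻¹ * (U (bd n p 3))⁻¹

/-- The product of the variables along a side. -/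
def sd {n : ℕ} (V : BE n → G) (i : Fin 4) : G := (List.ofFn fun k => V (i, k)).prod

/-- The product of the variables around the square. -/
def lp {n : ℕ} (V : BE n → G) : G := sd V 0 * sd V 1 * (sd V 2)⁻¹ * (sd V 3)⁻¹

/-- The weight of a field: the product of the weights of the plaquettes. -/
def wt (w : G → ℝ) {n : ℕ} (U : Ed n → G) : ℝ := ∏ p : Pq n, w (hol U p)

variable [MeasurableSpace G] (μ : Measure G)

/-- The partition function of the square of level `n`, with plaquette weight `w`, with the values
`V` of the field on the boundary. -/
def Zb (w : G → ℝ) (n : ℕ) (V : BE n → G) : ℝ :=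
  ∫ I : IE n → G, wt w (Sum.elim V I) ∂(Measure.pi fun _ => μ)

/-- The partition function of the square of level `n` with plaquette weight `w`. -/
def Zt (w : G → ℝ) (n : ℕ) : ℝ := ∫ U : Ed n → G, wt w U ∂(Measure.pi fun _ => μ)

/-- The expectation of the observable `O` in the gauge theory with plaquette weight `w` on the
square of level `n`. -/
def Ex (w : G → ℝ) (n : ℕ) (O : (Ed n → G) → ℝ) : ℝ :=
  (∫ U : Ed n → G, O U * wt w U ∂(Measure.pi fun _ => μ)) /
    ∫ U : Ed n → G, wt w U ∂(Measure.pi fun _ => μ)

/-- The covariance of the functions `f` and `g` of the plaquettes `p` and `q`. -/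
def Cv (w : G → ℝ) (n : ℕ) (p q : Pq n) (f g : G → ℝ) : ℝ :=
  Ex μ w n (fun U => f (hol U p) * g (hol U q)) -
    Ex μ w n (fun U => f (hol U p)) * Ex μ w n (fun U => g (hol U q))

end

end

end Pool.Agent.N989.MK
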