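import Mathlib
import Pool.Agent.N989.MK.Defs

/-!
# The hierarchical lattice: partition functions of the squares
-/

open MeasureTheory

namespace Pool.Agent.N989.MK

set_option linter.unusedSectionVars false

noncomputable section

section

variable {G : Type*} [Group G]

/-- the boundary variables of a quarter -/
def sub {n : ℕ} (V : BE (n + 1) → G) (M : Fin 4 × Fin 4 × Fin (2 ^ n) → G) (s q : Fin 4) :
    BE n → G := fun x => match side q x.1 with
    | .inl (j, h) => V (j, pos h x.2)
    | .inr j => M (s, j, x.2)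

lemma emb_elim {n : ℕ} (V : BE (n + 1) → G) (M : Fin 4 × Fin 4 × Fin (2 ^ n) → G)
    (J : Fin 4 × Fin 4 × IE n → G) (s q : Fin 4) :
    (fun e => (Sum.elim V (Sum.elim M J : IE (n + 1) → G) : Ed (n + 1) → G) (emb s q e)) =
      Sum.elim (sub V M s q) (fun e => J (s, q, e)) := by
  funext e
  rcases e with ⟨i, k⟩ | e
  · simp only [emb, sub, Sum.elim_inl]
    rcases side q i with ⟨j, h⟩ | j
    · rfl
    · rfl
  · rfl

lemma hol_succ {n : ℕ} (V : BE (n + 1) → G) (M : Fin 4 × Fin 4 × Fin (2 ^ n) → G)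
    (J : Fin 4 × Fin 4 × IE n → G) (s q : Fin 4) (p : Pq n) :
    hol (Sum.elim V (Sum.elim M J : IE (n + 1) → G) : Ed (n + 1) → G) ((s, q, p) : Pq (n + 1)) =
      hol (Sum.elim (sub V M s q) (fun e => J (s, q, e)) : Ed n → G) p := by
  rw [← emb_elim V M J s q]
  rfl

lemma ofFn_pos {n : ℕ} (a : Fin (2 ^ (n + 1)) → G) : (List.ofFn a).prod =
    (List.ofFn fun k : Fin (2 ^ n) => a (pos 0 k)).prod *
      (List.ofFn fun k : Fin (2 ^ n) => a (pos 1 k)).prod := by
  have h1 : 2 ^ (n + 1) = 2 ^ n + 2 ^ n := by rw [pow_succ]; omega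
  have h2 : List.ofFn a = List.ofFn (fun k : Fin (2 ^ n + 2 ^ n) => a (Fin.cast h1.symm k)) := by
    rw [List.ofFn_congr h1]
  rw [h2, List.ofFn_add, List.prod_append]
  congr 2
  · refine congrArg List.ofFn (funext fun k => congrArg a (Fin.ext ?_))
    simp [pos]
  · refine congrArg List.ofFn (funext fun k => congrArg a (Fin.ext ?_))
    simp [pos, add_comm]

end

end

end Pool.Agent.N989.MK
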