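import Mathlib
import Pool.Agent.N989.MK.Cplx
import Pool.Agent.N989.MK.Push
import Pool.Agent.N991.MK.Conv

/-!
# The recursion of the partition functions of the hierarchical squares
-/

open MeasureTheory Pool.Agent.N991.MK

namespace Pool.Agent.N989.MK

set_option linter.unusedSectionVars false

noncomputable section

variable {G : Type*} [Group G] [TopologicalSpace G] [IsTopologicalGroup G] [CompactSpace G]
  [MeasurableSpace G] [BorelSpace G] [SecondCountableTopology G]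
  (μ : Measure G) [IsProbabilityMeasure μ] [μ.IsHaarMeasure] [μ.IsMulRightInvariant]
  [μ.IsInvInvariant]

/-- The partition functions of the squares. -/
def Zr (w : G → ℝ) : ℕ → G → ℝ
  | 0 => w
  | n + 1 => fun x =>
      (conv μ (conv μ (Zr w n) (Zr w n)) (conv μ (Zr w n) (Zr w n)) x) ^ 4

variable {μ} {w : G → ℝ}

lemma hol_cont {n : ℕ} (p : Pq n) : Continuous fun U : Ed n → G => hol U p := by
  unfold hol
  fun_prop

lemma wt_cont (hw : Continuous w) {n : ℕ} : Continuous fun U : Ed n → G => wt w U := by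
  unfold wt
  exact continuous_finset_prod _ fun p _ => hw.comp (hol_cont p)

lemma wt_succ {n : ℕ} (V : BE (n + 1) → G) (M : Fin 4 × Fin 4 × Fin (2 ^ n) → G)
    (J : Fin 4 × Fin 4 × IE n → G) :
    wt w (Sum.elim V (Sum.elim M J : IE (n + 1) → G) : Ed (n + 1) → G) =
      ∏ s : Fin 4 × Fin 4, wt w (Sum.elim (sub V M s.1 s.2) (fun e => J (s.1, s.2, e)) :
        Ed n → G) := by
  unfold wt
  rw [Fintype.prod_prod_type]
  change ∏ p : Fin 4 × Fin 4 × Pq n, w (hol (Sum.elim V (Sum.elim M J : IE (n + 1) → G) :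
    Ed (n + 1) → G) (p : Pq (n + 1))) = _
  rw [Fintype.prod_prod_type]
  refine Finset.prod_congr rfl fun s _ => ?_
  rw [Fintype.prod_prod_type]
  refine Finset.prod_congr rfl fun q _ => ?_
  refine Finset.prod_congr rfl fun p _ => ?_
  rw [hol_succ]

section cont

lemma conv_cont2 {f k : G → ℝ} (hf : Continuous f) (hk : Continuous k) :
    Continuous (conv μ f k) := cont_conv hf hk

lemma Zr_cont (hw : Continuous w) : ∀ n, Continuous (Zr μ w n)
  | 0 => hw
  | n + 1 => by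
    have h := Zr_cont hw n
    exact (cont_conv (cont_conv h h) (cont_conv h h)).pow 4

lemma Zr_cls (hw : Cls w) : ∀ n, Cls (Zr μ w n)
  | 0 => hw
  | n + 1 => by
    have h := Zr_cls hw n
    intro g x
    have h2 := conv_cls (μ := μ) (conv_cls (μ := μ) h h) (conv_cls (μ := μ) h h) g x
    change (conv μ _ _ _) ^ 4 = (conv μ _ _ _) ^ 4
    rw [h2]

end cont

/-- the integral over the variables of the four middle paths of a sheet -/
lemma sheet {Z : G → ℝ} (hZ : Continuous Z)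
    (hc : Cls Z) (b1 b2 r1 r2 t1 t2 l1 l2 : G) :
    ∫ m : Fin 4 → G, Z (b1 * m 2 * (m 0)⁻¹ * l1⁻¹) * Z (b2 * r1 * (m 1)⁻¹ * (m 2)⁻¹) *
      Z (m 0 * m 3 * t1⁻¹ * l2⁻¹) * Z (m 1 * r2 * t2⁻¹ * (m 3)⁻¹)
        ∂(Measure.pi fun _ => μ) =
    conv μ (conv μ Z Z) (conv μ Z Z) ((b1 * b2) * (r1 * r2) * (t1 * t2)⁻¹ * (l1 * l2)⁻¹) := by
  set F : (Fin 4 → G) → ℝ := fun m => Z (b1 * m 2 * (m 0)⁻¹ * l1⁻¹) *
      Z (b2 * r1 * (m 1)⁻¹ * (m 2)⁻¹) *
      Z (m 0 * m 3 * t1⁻¹ * l2⁻¹) * Z (m 1 * r2 * t2⁻¹ * (m 3)⁻¹) with hF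
  have hFc : Continuous F := by
    rw [hF]
    fun_prop
  -- the coordinates
  let φ : G × (G × (G × G)) →* (Fin 4 → G) :=
    { toFun := fun p => ![p.1, p.2.1, p.2.2.1, p.2.2.2]
      map_one' := by
        funext i
        fin_cases i <;> rfl
      map_mul' := fun p q => by
        funext i
        fin_cases i <;> rfl }
  have hφ : Continuous φ := by
    refine continuous_pi fun i => ?_
    fin_cases i
    · exact continuous_fst
    · exact continuous_fst.comp continuous_snd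
    · exact (continuous_fst.comp continuous_snd).comp continuous_snd
    · exact (continuous_snd.comp continuous_snd).comp continuous_snd
  have hs : Function.Surjective φ := fun m => ⟨(m 0, m 1, m 2, m 3), by
    funext i
    fin_cases i <;> rfl⟩
  have i3 : (μ.prod (μ.prod μ)).IsMulLeftInvariant := inferInstance
  have i4 : (μ.prod (μ.prod (μ.prod μ))).IsMulLeftInvariant :=
    Measure.prod.instIsMulLeftInvariant
  have hmp := mp_hom (μ.prod (μ.prod (μ.prod μ))) (Measure.pi fun _ : Fin 4 => μ) φ hφ hs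
  rw [int_mp hmp hFc]
  have hG : Continuous fun p : G × (G × (G × G)) => F (φ p) := hFc.comp hφ
  have hcs : HasCompactSupport fun p : G × (G × (G × G)) => F (φ p) :=
    HasCompactSupport.of_compactSpace _
  rw [integral_prod _ (hG.integrable_of_hasCompactSupport hcs)]
  have h2 : ∀ a b : G, ∫ p : G × G, F (φ (a, (b, p))) ∂(μ.prod μ) =
      conv μ Z Z (l1⁻¹ * b1 * b2 * r1 * (a * b)⁻¹) *
        conv μ Z Z (l2⁻¹ * (a * b) * r2 * t2⁻¹ * t1⁻¹) := by
    intro a b
    have hc1 : Continuous fun p : G × G => F (φ (a, (b, p))) := by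
      exact hG.comp (continuous_const.prodMk (continuous_const.prodMk continuous_id))
    rw [integral_prod _ (hc1.integrable_of_hasCompactSupport
      (HasCompactSupport.of_compactSpace _))]
    have e : ∀ c d : G, F (φ (a, (b, (c, d)))) =
        (Z (b1 * c * a⁻¹ * l1⁻¹) * Z (b2 * r1 * b⁻¹ * c⁻¹)) *
          (Z (a * d * t1⁻¹ * l2⁻¹) * Z (b * r2 * t2⁻¹ * d⁻¹)) := by
      intro c d
      change Z (b1 * c * a⁻¹ * l1⁻¹) * Z (b2 * r1 * b⁻¹ * c⁻¹) *
        Z (a * d * t1⁻¹ * l2⁻¹) * Z (b * r2 * t2⁻¹ * d⁻¹) = _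
      ring
    simp only [e]
    simp only [integral_const_mul, integral_mul_const]
    congr 1
    · unfold conv
      rw [← integral_mul_left_eq_self (μ := μ)
        (fun c => Z (b1 * c * a⁻¹ * l1⁻¹) * Z (b2 * r1 * b⁻¹ * c⁻¹)) (b1⁻¹ * l1),
        ← integral_mul_right_eq_self (μ := μ) _ a]
      refine integral_congr_ae (Filter.Eventually.of_forall fun y => ?_)
      beta_reduce
      have e1 : b1 * (b1⁻¹ * l1 * (y * a)) * a⁻¹ * l1⁻¹ = l1 * y * l1⁻¹ := by group
      have e2 : b2 * r1 * b⁻¹ * (b1⁻¹ * l1 * (y * a))⁻¹ =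
          (b1⁻¹ * l1 * y) * (y⁻¹ * (l1⁻¹ * b1 * b2 * r1 * (a * b)⁻¹)) * (b1⁻¹ * l1 * y)⁻¹ := by
        group
      rw [e1, e2, hc, hc]
    · unfold conv
      rw [← integral_mul_left_eq_self (μ := μ)
        (fun d => Z (a * d * t1⁻¹ * l2⁻¹) * Z (b * r2 * t2⁻¹ * d⁻¹)) (a⁻¹ * l2),
        ← integral_mul_right_eq_self (μ := μ) _ t1]
      refine integral_congr_ae (Filter.Eventually.of_forall fun y => ?_)
      beta_reduce
      have e1 : a * (a⁻¹ * l2 * (y * t1)) * t1⁻¹ * l2⁻¹ = l2 * y * l2⁻¹ := by group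
      have e2 : b * r2 * t2⁻¹ * (a⁻¹ * l2 * (y * t1))⁻¹ =
          (a⁻¹ * l2 * y) * (y⁻¹ * (l2⁻¹ * (a * b) * r2 * t2⁻¹ * t1⁻¹)) * (a⁻¹ * l2 * y)⁻¹ := by
        group
      rw [e1, e2, hc, hc]
  have h3 : ∀ a : G, ∫ q : G × (G × G), F (φ (a, q)) ∂(μ.prod (μ.prod μ)) =
      conv μ (conv μ Z Z) (conv μ Z Z)
        ((b1 * b2) * (r1 * r2) * (t1 * t2)⁻¹ * (l1 * l2)⁻¹) := by
    intro a
    have hc1 : Continuous fun q : G × (G × G) => F (φ (a, q)) :=
      hG.comp (continuous_const.prodMk continuous_id)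
    rw [integral_prod _ (hc1.integrable_of_hasCompactSupport
      (HasCompactSupport.of_compactSpace _))]
    simp only [h2]
    have hcc := conv_cls (μ := μ) hc hc
    have hccc := conv_cls (μ := μ) hcc hcc
    have e0 : (b1 * b2) * (r1 * r2) * (t1 * t2)⁻¹ * (l1 * l2)⁻¹ =
        l1 * (l1⁻¹ * b1 * b2 * r1 * r2 * t2⁻¹ * t1⁻¹ * l2⁻¹) * l1⁻¹ := by group
    rw [e0, hccc]
    conv_rhs => unfold conv
    rw [← integral_mul_left_eq_self (μ := μ)
      (fun y => conv μ Z Z (l1⁻¹ * b1 * b2 * r1 * (a * y)⁻¹) *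
        conv μ Z Z (l2⁻¹ * (a * y) * r2 * t2⁻¹ * t1⁻¹)) a⁻¹,
      ← integral_mul_right_eq_self (μ := μ) _ (l1⁻¹ * b1 * b2 * r1),
      ← integral_inv_eq_self (μ := μ)]
    refine integral_congr_ae (Filter.Eventually.of_forall fun y => ?_)
    beta_reduce
    have e1 : l1⁻¹ * b1 * b2 * r1 * (a * (a⁻¹ * (y⁻¹ * (l1⁻¹ * b1 * b2 * r1))))⁻¹ = y := by
      group
    have e2 : l2⁻¹ * (a * (a⁻¹ * (y⁻¹ * (l1⁻¹ * b1 * b2 * r1)))) * r2 * t2⁻¹ * t1⁻¹ =
        l2⁻¹ * (y⁻¹ * (l1⁻¹ * b1 * b2 * r1 * r2 * t2⁻¹ * t1⁻¹ * l2⁻¹)) * l2⁻¹⁻¹ := by group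
    rw [e1, e2, hcc]
    rfl
  simp only [h3]
  simp

/-- the ordered product of independent Haar variables is a Haar variable -/
lemma mp_prod (k : ℕ) (hk : 0 < k) : MeasurePreserving
    (fun a : Fin k → G => (List.ofFn a).prod) (Measure.pi fun _ => μ) μ := by
  obtain ⟨k, rfl⟩ : ∃ j, k = j + 1 := ⟨k - 1, by omega⟩
  refine mp_of_equivariant _ _ _ ?_ fun g => ?_
  · simp only [List.ofFn_succ, List.prod_cons]
    refine (continuous_apply _).mul ?_
    have h : ∀ j : ℕ, ∀ f : Fin j → (Fin (k + 1) → G) → G, (∀ i, Continuous (f i)) →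
        Continuous fun a => (List.ofFn fun i => f i a).prod := by
      intro j
      induction j with
      | zero => intro f _; simpa using continuous_const
      | succ j ih =>
        intro f hf
        simp only [List.ofFn_succ, List.prod_cons]
        exact (hf 0).mul (ih _ fun i => hf _)
    exact h k (fun i a => a i.succ) fun i => continuous_apply _
  · refine ⟨fun a => Pi.mulSingle 0 g * a, measurePreserving_mul_left _ _, fun a => ?_⟩
    simp only [List.ofFn_succ, List.prod_cons, Pi.mul_apply, Pi.mulSingle_eq_same]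
    have : ∀ i : Fin k, (Pi.mulSingle (M := fun _ : Fin (k + 1) => G) 0 g) i.succ = 1 := fun i =>
      Pi.mulSingle_eq_of_ne (Fin.succ_ne_zero i) _
    simp only [this, one_mul, mul_assoc]

/-- the products of the variables along the four middle paths -/
def mids {n : ℕ} (m : Fin 4 → Fin (2 ^ n) → G) : Fin 4 → G := fun j => (List.ofFn (m j)).prod

lemma mp_mids (n : ℕ) : MeasurePreserving (mids : (Fin 4 → Fin (2 ^ n) → G) → Fin 4 → G)
    (Measure.pi fun _ => Measure.pi fun _ => μ) (Measure.pi fun _ => μ) :=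
  measurePreserving_pi _ _ fun _ => mp_prod (2 ^ n) (by positivity)

/-- halves of a side -/
def hf {n : ℕ} (V : BE (n + 1) → G) (i : Fin 4) (h : Fin 2) : G :=
  (List.ofFn fun k : Fin (2 ^ n) => V (i, pos h k)).prod

lemma sd_eq {n : ℕ} (V : BE (n + 1) → G) (i : Fin 4) : sd V i = hf V i 0 * hf V i 1 :=
  ofFn_pos fun k => V (i, k)

lemma lp_sub {n : ℕ} (V : BE (n + 1) → G) (M : Fin 4 × Fin 4 × Fin (2 ^ n) → G) (s : Fin 4) :
    lp (sub V M s 0) = hf V 0 0 * mids (fun j k => M (s, j, k)) 2 *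
      (mids (fun j k => M (s, j, k)) 0)⁻¹ * (hf V 3 0)⁻¹ ∧
    lp (sub V M s 1) = hf V 0 1 * hf V 1 0 *
      (mids (fun j k => M (s, j, k)) 1)⁻¹ * (mids (fun j k => M (s, j, k)) 2)⁻¹ ∧
    lp (sub V M s 2) = mids (fun j k => M (s, j, k)) 0 * mids (fun j k => M (s, j, k)) 3 *
      (hf V 2 0)⁻¹ * (hf V 3 1)⁻¹ ∧
    lp (sub V M s 3) = mids (fun j k => M (s, j, k)) 1 * hf V 1 1 *
      (hf V 2 1)⁻¹ * (mids (fun j k => M (s, j, k)) 3)⁻¹ := ⟨rfl, rfl, rfl, rfl⟩

/-- the product of the four quarters of a sheet -/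
def FF (Z : G → ℝ) {n : ℕ} (V : BE (n + 1) → G) (m : Fin 4 → G) : ℝ :=
  Z (hf V 0 0 * m 2 * (m 0)⁻¹ * (hf V 3 0)⁻¹) *
    Z (hf V 0 1 * hf V 1 0 * (m 1)⁻¹ * (m 2)⁻¹) *
    Z (m 0 * m 3 * (hf V 2 0)⁻¹ * (hf V 3 1)⁻¹) *
    Z (m 1 * hf V 1 1 * (hf V 2 1)⁻¹ * (m 3)⁻¹)

lemma FF_cont {Z : G → ℝ} (hZ : Continuous Z) {n : ℕ} (V : BE (n + 1) → G) :
    Continuous (FF Z V) := by
  unfold FF
  fun_prop

lemma int_FF {Z : G → ℝ} (hZ : Continuous Z) (hc : Cls Z) {n : ℕ} (V : BE (n + 1) → G) :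
    ∫ a : Fin 4 → Fin (2 ^ n) → G, FF Z V (mids a)
      ∂(Measure.pi fun _ => Measure.pi fun _ => μ) =
    conv μ (conv μ Z Z) (conv μ Z Z) (lp V) := by
  rw [← int_mp (mp_mids (μ := μ) n) (FF_cont hZ V)]
  unfold FF
  rw [sheet hZ hc]
  unfold lp
  rw [sd_eq, sd_eq, sd_eq, sd_eq]

theorem Zb_eq (hw : Continuous w) (hc : Cls w) : ∀ (n : ℕ) (V : BE n → G),
    Zb μ w n V = Zr μ w n (lp V)
  | 0, V => by
    unfold Zb
    have hI : IsEmpty (IE 0) := inferInstanceAs (IsEmpty Empty)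
    have h1 : ∀ I : IE 0 → G, wt w (Sum.elim V I : Ed 0 → G) = w (lp V) := by
      intro I
      have h2 : lp V = hol (Sum.elim V I : Ed 0 → G) (() : Pq 0) := by
        change _ = V (0, 0) * V (1, 0) * (V (2, 0))⁻¹ * (V (3, 0))⁻¹
        have h3 : ∀ i : Fin 4, sd V i = V (i, 0) := by
          intro i
          change (List.ofFn fun k : Fin 1 => V (i, k)).prod = _
          simp
        unfold lp
        rw [h3, h3, h3, h3]
      rw [h2]
      unfold wt
      exact Fintype.prod_unique (ι := Unit) fun p => w (hol (Sum.elim V I : Ed 0 → G) (p : Pq 0))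
    simp only [h1]
    simp [Zr]
  | n + 1, V => by
    have ih := Zb_eq hw hc n
    unfold Zb
    -- splitting of the inner edges
    let φ : ((Fin 4 → Fin 4 → Fin (2 ^ n) → G) × ((Fin 4 × Fin 4) → IE n → G)) →*
        (IE (n + 1) → G) :=
      { toFun := fun p => (Sum.elim (fun x => p.1 x.1 x.2.1 x.2.2)
          (fun x => p.2 (x.1, x.2.1) x.2.2) :
          (Fin 4 × Fin 4 × Fin (2 ^ n)) ⊕ (Fin 4 × Fin 4 × IE n) → G)
        map_one' := by
          funext e
          rcases e with e | e <;> rfl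
        map_mul' := fun p q => by
          funext e
          rcases e with e | e <;> rfl }
    have hφ : Continuous φ := by
      refine continuous_pi fun e => ?_
      rcases e with ⟨a, b, c⟩ | ⟨a, b, c⟩
      · change Continuous fun p : (Fin 4 → Fin 4 → Fin (2 ^ n) → G) ×
          ((Fin 4 × Fin 4) → IE n → G) => p.1 a b c
        fun_prop
      · change Continuous fun p : (Fin 4 → Fin 4 → Fin (2 ^ n) → G) ×
          ((Fin 4 × Fin 4) → IE n → G) => p.2 (a, b) c
        fun_prop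
    have hs : Function.Surjective φ := fun I => ⟨(fun a b c => I (.inl (a, b, c)),
      fun x e => I (.inr (x.1, x.2, e))), by
        funext e
        rcases e with e | e <;> rfl⟩
    have i1 : (Measure.pi fun _ : Fin (2 ^ n) => μ).IsMulLeftInvariant := inferInstance
    have i2 : (Measure.pi fun _ : Fin 4 => Measure.pi fun _ : Fin (2 ^ n) =>
      μ).IsMulLeftInvariant := inferInstance
    have i3 : (Measure.pi fun _ : Fin 4 => Measure.pi fun _ : Fin 4 =>
      Measure.pi fun _ : Fin (2 ^ n) => μ).IsMulLeftInvariant := inferInstance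
    have i4 : (Measure.pi fun _ : IE n => μ).IsMulLeftInvariant := inferInstance
    have i5 : (Measure.pi fun _ : Fin 4 × Fin 4 =>
      Measure.pi fun _ : IE n => μ).IsMulLeftInvariant := inferInstance
    have i6 := Measure.prod.instIsMulLeftInvariant
      (μ := Measure.pi fun _ : Fin 4 => Measure.pi fun _ : Fin 4 =>
        Measure.pi fun _ : Fin (2 ^ n) => μ)
      (ν := Measure.pi fun _ : Fin 4 × Fin 4 => Measure.pi fun _ : IE n => μ)
    have hmp := mp_hom ((Measure.pi fun _ : Fin 4 => Measure.pi fun _ : Fin 4 =>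
      Measure.pi fun _ : Fin (2 ^ n) => μ).prod (Measure.pi fun _ : Fin 4 × Fin 4 =>
        Measure.pi fun _ : IE n => μ)) (Measure.pi fun _ : IE (n + 1) => μ) φ hφ hs
    have hwc : Continuous fun I : IE (n + 1) → G => wt w (Sum.elim V I : Ed (n + 1) → G) := by
      refine (wt_cont hw).comp (continuous_pi fun e => ?_)
      rcases e with e | e
      · exact continuous_const
      · exact continuous_apply e
    rw [int_mp hmp hwc]
    have hcs : Continuous fun p => wt w (Sum.elim V (φ p) : Ed (n + 1) → G) := hwc.comp hφ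
    rw [integral_prod _ (hcs.integrable_of_hasCompactSupport
      (HasCompactSupport.of_compactSpace _))]
    have h1 : ∀ M : Fin 4 → Fin 4 → Fin (2 ^ n) → G,
        ∫ J : (Fin 4 × Fin 4) → IE n → G, wt w (Sum.elim V (φ (M, J)) : Ed (n + 1) → G)
          ∂(Measure.pi fun _ => Measure.pi fun _ => μ) =
        ∏ s : Fin 4, FF (Zr μ w n) V (mids (M s)) := by
      intro M
      have h2 : ∀ J : (Fin 4 × Fin 4) → IE n → G,
          wt w (Sum.elim V (φ (M, J)) : Ed (n + 1) → G) =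
          ∏ x : Fin 4 × Fin 4, wt w (Sum.elim (sub V (fun y => M y.1 y.2.1 y.2.2) x.1 x.2)
            (J x) : Ed n → G) := fun J =>
        wt_succ V (fun y => M y.1 y.2.1 y.2.2) (fun y => J (y.1, y.2.1) y.2.2)
      simp only [h2]
      rw [integral_fintype_prod_eq_prod (fun (x : Fin 4 × Fin 4) (I : IE n → G) =>
        wt w (Sum.elim (sub V (fun y => M y.1 y.2.1 y.2.2) x.1 x.2) I : Ed n → G))]
      have h3 : ∀ x : Fin 4 × Fin 4, ∫ I : IE n → G,
          wt w (Sum.elim (sub V (fun y => M y.1 y.2.1 y.2.2) x.1 x.2) I : Ed n → G)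
            ∂(Measure.pi fun _ => μ) =
          Zr μ w n (lp (sub V (fun y => M y.1 y.2.1 y.2.2) x.1 x.2)) := fun x => ih _
      simp only [h3]
      rw [Fintype.prod_prod_type]
      refine Finset.prod_congr rfl fun s _ => ?_
      obtain ⟨e0, e1, e2, e3⟩ := lp_sub V (fun y => M y.1 y.2.1 y.2.2) s
      rw [Fin.prod_univ_four]
      unfold FF
      dsimp only
      rw [e0, e1, e2, e3]
    simp only [h1]
    rw [integral_fintype_prod_eq_prod (fun (s : Fin 4) (a : Fin 4 → Fin (2 ^ n) → G) =>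
      FF (Zr μ w n) V (mids a))]
    simp only [int_FF (Zr_cont (μ := μ) hw n) (Zr_cls (μ := μ) hc n) V]
    simp [Zr]

end

end Pool.Agent.N989.MK
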