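import Mathlib
import Pool.Agent.N989.MK.Part

/-!
# The expectation of the boundary loop of the hierarchical squares
-/

open MeasureTheory Pool.Agent.N991.MK

namespace Pool.Agent.N989.MK

set_option linter.unusedSectionVars false

noncomputable section

variable {G : Type*} [Group G] [TopologicalSpace G] [IsTopologicalGroup G] [CompactSpace G]
  [MeasurableSpace G] [BorelSpace G] [SecondCountableTopology G]
  {μ : Measure G} [IsProbabilityMeasure μ] [μ.IsHaarMeasure] [μ.IsMulRightInvariant]
  [μ.IsInvInvariant] {w : G → ℝ}

lemma list_cont {X : Type*} [TopologicalSpace X] : ∀ j : ℕ, ∀ f : Fin j → X → G,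
    (∀ i, Continuous (f i)) → Continuous fun a => (List.ofFn fun i => f i a).prod := by
  intro j
  induction j with
  | zero => intro f _; simpa using continuous_const
  | succ j ih =>
    intro f hf
    simp only [List.ofFn_succ, List.prod_cons]
    exact (hf 0).mul (ih _ fun i => hf _)

lemma sd_cont {n : ℕ} (i : Fin 4) : Continuous fun V : BE n → G => sd V i :=
  list_cont (X := BE n → G) _ (fun k V => V (i, k)) fun k => continuous_apply (i, k)

lemma lp_cont {n : ℕ} : Continuous fun V : BE n → G => lp V := by
  unfold lp
  exact (((sd_cont 0).mul (sd_cont 1)).mul (sd_cont 2).inv).mul (sd_cont 3).inv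

lemma sd_single {n : ℕ} (g : G) (V : BE n → G) (i : Fin 4) :
    sd (Pi.mulSingle (0, 0) g * V) i = if i = 0 then g * sd V i else sd V i := by
  have hpos : 0 < 2 ^ n := by positivity
  obtain ⟨k, hk⟩ : ∃ k, 2 ^ n = k + 1 := ⟨2 ^ n - 1, by omega⟩
  split_ifs with h
  · subst h
    unfold sd
    rw [List.ofFn_congr hk, List.ofFn_congr hk]
    simp only [List.ofFn_succ, List.prod_cons]
    have e0 : (Fin.cast hk.symm 0 : Fin (2 ^ n)) = 0 := Fin.ext (by simp)
    rw [e0]
    have e1 : (Pi.mulSingle (M := fun _ : BE n => G) (0, 0) g * V) (0, 0) = g * V (0, 0) := by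
      simp
    rw [e1, mul_assoc]
    congr 2
    refine congrArg List.prod (congrArg List.ofFn (funext fun j => ?_))
    have hne : ((0, Fin.cast hk.symm j.succ) : BE n) ≠ (0, 0) := by
      intro hh
      have := congrArg (fun x : BE n => (x.2 : ℕ)) hh
      simp at this
    simp [Pi.mulSingle_eq_of_ne hne]
  · unfold sd
    refine congrArg List.prod (congrArg List.ofFn (funext fun j => ?_))
    have hne : ((i, j) : BE n) ≠ (0, 0) := by
      intro hh
      exact h (congrArg Prod.fst hh)
    simp [Pi.mulSingle_eq_of_ne hne]

lemma mp_lp (n : ℕ) : MeasurePreserving (fun V : BE n → G => lp V)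
    (Measure.pi fun _ => μ) μ := by
  refine mp_of_equivariant _ _ _ lp_cont fun g => ?_
  refine ⟨fun a => Pi.mulSingle (0, 0) g * a, measurePreserving_mul_left _ _, fun a => ?_⟩
  unfold lp
  rw [sd_single, sd_single, sd_single, sd_single]
  simp [mul_assoc]

theorem int_lp (hw : Continuous w) (hc : Cls w) (n : ℕ) {O : G → ℝ} (hO : Continuous O) :
    ∫ U : Ed n → G, O (lp fun e => U (.inl e)) * wt w U ∂(Measure.pi fun _ => μ) =
      ∫ x, O x * Zr μ w n x ∂μ := by
  let φ : ((BE n → G) × (IE n → G)) →* (Ed n → G) :=
    { toFun := fun p => Sum.elim p.1 p.2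
      map_one' := by
        funext e
        rcases e with e | e <;> rfl
      map_mul' := fun p q => by
        funext e
        rcases e with e | e <;> rfl }
  have hφ : Continuous φ := by
    refine continuous_pi fun e => ?_
    rcases e with e | e
    · exact (continuous_apply e).comp continuous_fst
    · exact (continuous_apply e).comp continuous_snd
  have hs : Function.Surjective φ := fun I => ⟨(fun e => I (.inl e), fun e => I (.inr e)), by
    funext e
    rcases e with e | e <;> rfl⟩
  have i1 : (Measure.pi fun _ : BE n => μ).IsMulLeftInvariant := inferInstance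
  have i2 : (Measure.pi fun _ : IE n => μ).IsMulLeftInvariant := inferInstance
  have i3 := Measure.prod.instIsMulLeftInvariant (μ := Measure.pi fun _ : BE n => μ)
    (ν := Measure.pi fun _ : IE n => μ)
  have hmp := mp_hom ((Measure.pi fun _ : BE n => μ).prod (Measure.pi fun _ : IE n => μ))
    (Measure.pi fun _ : Ed n => μ) φ hφ hs
  have hF : Continuous fun U : Ed n → G => O (lp fun e => U (.inl e)) * wt w U := by
    refine (hO.comp (lp_cont.comp (continuous_pi fun e => ?_))).mul (wt_cont hw)
    exact continuous_apply _
  rw [int_mp hmp hF]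
  have hcs : Continuous fun p => O (lp fun e => φ p (.inl e)) * wt w (φ p) := hF.comp hφ
  rw [integral_prod _ (hcs.integrable_of_hasCompactSupport
    (HasCompactSupport.of_compactSpace _))]
  have h1 : ∀ V : BE n → G, ∫ I : IE n → G, O (lp fun e => φ (V, I) (.inl e)) * wt w (φ (V, I))
      ∂(Measure.pi fun _ => μ) = O (lp V) * Zr μ w n (lp V) := by
    intro V
    have h2 : ∀ I : IE n → G, O (lp fun e => φ (V, I) (.inl e)) * wt w (φ (V, I)) =
        O (lp V) * wt w (Sum.elim V I : Ed n → G) := fun I => rfl
    simp only [h2]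
    rw [integral_const_mul]
    congr 1
    exact Zb_eq hw hc n V
  simp only [h1]
  exact (int_mp (mp_lp (μ := μ) n) (F := fun x => O x * Zr μ w n x)
    (hO.mul (Zr_cont hw n))).symm

end

end Pool.Agent.N989.MK
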