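import Mathlib
import Pool.Agent.N989.MK.Part

/-!
# The hierarchical squares with arbitrary weights of the plaquettes
-/

open MeasureTheory Pool.Agent.N991.MK

namespace Pool.Agent.N989.MK

set_option linter.unusedSectionVars false

noncomputable section

variable {G : Type*} [Group G] [TopologicalSpace G] [IsTopologicalGroup G] [CompactSpace G]
  [MeasurableSpace G] [BorelSpace G] [SecondCountableTopology G]
  (μ : Measure G) [IsProbabilityMeasure μ] [μ.IsHaarMeasure] [μ.IsMulRightInvariant]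
  [μ.IsInvInvariant]

/-- the fourfold convolution -/
def c4 (A : Fin 4 → G → ℝ) : G → ℝ := conv μ (conv μ (A 0) (A 1)) (conv μ (A 2) (A 3))

/-- The partition functions of the squares with the weights `w`. -/
def ZZ : ∀ n, (Pq n → G → ℝ) → G → ℝ
  | 0, w => w ()
  | n + 1, w => fun x => ∏ s : Fin 4, c4 μ (fun r => ZZ n (fun p => w (s, r, p))) x

/-- the weight of a field -/
def wtt {n : ℕ} (w : Pq n → G → ℝ) (U : Ed n → G) : ℝ := ∏ p : Pq n, w p (hol U p)

variable {μ}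

lemma wtt_cont {n : ℕ} {w : Pq n → G → ℝ} (hw : ∀ p, Continuous (w p)) :
    Continuous fun U : Ed n → G => wtt w U := by
  unfold wtt
  exact continuous_finsetProd _ fun p _ => (hw p).comp (hol_cont p)

lemma wtt_succ {n : ℕ} (w : Pq (n + 1) → G → ℝ) (V : BE (n + 1) → G)
    (M : Fin 4 × Fin 4 × Fin (2 ^ n) → G) (J : Fin 4 × Fin 4 × IE n → G) :
    wtt w (Sum.elim V (Sum.elim M J : IE (n + 1) → G) : Ed (n + 1) → G) =
      ∏ s : Fin 4 × Fin 4, wtt (fun p => w (s.1, s.2, p))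
        (Sum.elim (sub V M s.1 s.2) (fun e => J (s.1, s.2, e)) : Ed n → G) := by
  unfold wtt
  rw [Fintype.prod_prod_type]
  change ∏ p : Fin 4 × Fin 4 × Pq n, w p (hol (Sum.elim V (Sum.elim M J : IE (n + 1) → G) :
    Ed (n + 1) → G) (p : Pq (n + 1))) = _
  rw [Fintype.prod_prod_type]
  refine Finset.prod_congr rfl fun s _ => ?_
  rw [Fintype.prod_prod_type]
  refine Finset.prod_congr rfl fun q _ => ?_
  refine Finset.prod_congr rfl fun p _ => ?_
  rw [hol_succ]

lemma c4_cont {A : Fin 4 → G → ℝ} (hA : ∀ i, Continuous (A i)) : Continuous (c4 μ A) :=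
  cont_conv (cont_conv (hA 0) (hA 1)) (cont_conv (hA 2) (hA 3))

lemma c4_cls {A : Fin 4 → G → ℝ} (hA : ∀ i, Cls (A i)) : Cls (c4 μ A) :=
  conv_cls (conv_cls (hA 0) (hA 1)) (conv_cls (hA 2) (hA 3))

lemma ZZ_cont : ∀ n {w : Pq n → G → ℝ}, (∀ p, Continuous (w p)) → Continuous (ZZ μ n w)
  | 0, w, hw => hw ()
  | n + 1, w, hw => continuous_finsetProd _ fun s _ =>
      c4_cont fun r => ZZ_cont n fun p => hw (s, r, p)

lemma ZZ_cls : ∀ n {w : Pq n → G → ℝ}, (∀ p, Cls (w p)) → Cls (ZZ μ n w)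
  | 0, w, hw => hw ()
  | n + 1, w, hw => fun g x => by
    change ∏ s : Fin 4, _ = ∏ s : Fin 4, _
    refine Finset.prod_congr rfl fun s _ => ?_
    exact c4_cls (fun r => ZZ_cls n fun p => hw (s, r, p)) g x

/-- the integral over the variables of the four middle paths of a sheet -/
lemma sheet4 {A : Fin 4 → G → ℝ} (hA : ∀ i, Continuous (A i))
    (hc : ∀ i, Cls (A i)) (b1 b2 r1 r2 t1 t2 l1 l2 : G) :
    ∫ m : Fin 4 → G, A 0 (b1 * m 2 * (m 0)⁻¹ * l1⁻¹) * A 1 (b2 * r1 * (m 1)⁻¹ * (m 2)⁻¹) *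
      A 2 (m 0 * m 3 * t1⁻¹ * l2⁻¹) * A 3 (m 1 * r2 * t2⁻¹ * (m 3)⁻¹)
        ∂(Measure.pi fun _ => μ) =
    c4 μ A ((b1 * b2) * (r1 * r2) * (t1 * t2)⁻¹ * (l1 * l2)⁻¹) := by
  have hA0 := hA 0
  have hA1 := hA 1
  have hA2 := hA 2
  have hA3 := hA 3
  set F : (Fin 4 → G) → ℝ := fun m => A 0 (b1 * m 2 * (m 0)⁻¹ * l1⁻¹) *
      A 1 (b2 * r1 * (m 1)⁻¹ * (m 2)⁻¹) *
      A 2 (m 0 * m 3 * t1⁻¹ * l2⁻¹) * A 3 (m 1 * r2 * t2⁻¹ * (m 3)⁻¹) with hF
  have hFc : Continuous F := by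
    rw [hF]
    fun_prop
  -- the coordinates
  let φ : G × (G × (G × G)) →* (Fin 4 → G) :=
    { toFun := fun p => ![p.1, p.2.1, p.2.2.1, p.2.2.2]
      map_one' := by
        funext i
        fin_cases i <;> rfl
      map_mul' := fun p q => by
        funext i
        fin_cases i <;> rfl }
  have hφ : Continuous φ := by
    refine continuous_pi fun i => ?_
    fin_cases i
    · exact continuous_fst
    · exact continuous_fst.comp continuous_snd
    · exact (continuous_fst.comp continuous_snd).comp continuous_snd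
    · exact (continuous_snd.comp continuous_snd).comp continuous_snd
  have hs : Function.Surjective φ := fun m => ⟨(m 0, m 1, m 2, m 3), by
    funext i
    fin_cases i <;> rfl⟩
  have i3 : (μ.prod (μ.prod μ)).IsMulLeftInvariant := inferInstance
  have i4 : (μ.prod (μ.prod (μ.prod μ))).IsMulLeftInvariant :=
    Measure.prod.instIsMulLeftInvariant
  have hmp := mp_hom (μ.prod (μ.prod (μ.prod μ))) (Measure.pi fun _ : Fin 4 => μ) φ hφ hs
  rw [int_mp hmp hFc]
  have hG : Continuous fun p : G × (G × (G × G)) => F (φ p) := hFc.comp hφ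
  have hcs : HasCompactSupport fun p : G × (G × (G × G)) => F (φ p) :=
    HasCompactSupport.of_compactSpace _
  rw [integral_prod _ (hG.integrable_of_hasCompactSupport hcs)]
  have h2 : ∀ a b : G, ∫ p : G × G, F (φ (a, (b, p))) ∂(μ.prod μ) =
      conv μ (A 0) (A 1) (l1⁻¹ * b1 * b2 * r1 * (a * b)⁻¹) *
        conv μ (A 2) (A 3) (l2⁻¹ * (a * b) * r2 * t2⁻¹ * t1⁻¹) := by
    intro a b
    have hc1 : Continuous fun p : G × G => F (φ (a, (b, p))) := by
      exact hG.comp (continuous_const.prodMk (continuous_const.prodMk continuous_id))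
    rw [integral_prod _ (hc1.integrable_of_hasCompactSupport
      (HasCompactSupport.of_compactSpace _))]
    have e : ∀ c d : G, F (φ (a, (b, (c, d)))) =
        (A 0 (b1 * c * a⁻¹ * l1⁻¹) * A 1 (b2 * r1 * b⁻¹ * c⁻¹)) *
          (A 2 (a * d * t1⁻¹ * l2⁻¹) * A 3 (b * r2 * t2⁻¹ * d⁻¹)) := by
      intro c d
      change A 0 (b1 * c * a⁻¹ * l1⁻¹) * A 1 (b2 * r1 * b⁻¹ * c⁻¹) *
        A 2 (a * d * t1⁻¹ * l2⁻¹) * A 3 (b * r2 * t2⁻¹ * d⁻¹) = _
      ring
    simp only [e]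
    simp only [integral_const_mul, integral_mul_const]
    congr 1
    · unfold conv
      rw [← integral_mul_left_eq_self (μ := μ)
        (fun c => A 0 (b1 * c * a⁻¹ * l1⁻¹) * A 1 (b2 * r1 * b⁻¹ * c⁻¹)) (b1⁻¹ * l1),
        ← integral_mul_right_eq_self (μ := μ) _ a]
      refine integral_congr_ae (Filter.Eventually.of_forall fun y => ?_)
      beta_reduce
      have e1 : b1 * (b1⁻¹ * l1 * (y * a)) * a⁻¹ * l1⁻¹ = l1 * y * l1⁻¹ := by group
      have e2 : b2 * r1 * b⁻¹ * (b1⁻¹ * l1 * (y * a))⁻¹ =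
          (b1⁻¹ * l1 * y) * (y⁻¹ * (l1⁻¹ * b1 * b2 * r1 * (a * b)⁻¹)) * (b1⁻¹ * l1 * y)⁻¹ := by
        group
      rw [e1, e2, hc 0, hc 1]
    · unfold conv
      rw [← integral_mul_left_eq_self (μ := μ)
        (fun d => A 2 (a * d * t1⁻¹ * l2⁻¹) * A 3 (b * r2 * t2⁻¹ * d⁻¹)) (a⁻¹ * l2),
        ← integral_mul_right_eq_self (μ := μ) _ t1]
      refine integral_congr_ae (Filter.Eventually.of_forall fun y => ?_)
      beta_reduce
      have e1 : a * (a⁻¹ * l2 * (y * t1)) * t1⁻¹ * l2⁻¹ = l2 * y * l2⁻¹ := by group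
      have e2 : b * r2 * t2⁻¹ * (a⁻¹ * l2 * (y * t1))⁻¹ =
          (a⁻¹ * l2 * y) * (y⁻¹ * (l2⁻¹ * (a * b) * r2 * t2⁻¹ * t1⁻¹)) * (a⁻¹ * l2 * y)⁻¹ := by
        group
      rw [e1, e2, hc 2, hc 3]
  have h3 : ∀ a : G, ∫ q : G × (G × G), F (φ (a, q)) ∂(μ.prod (μ.prod μ)) =
      c4 μ A ((b1 * b2) * (r1 * r2) * (t1 * t2)⁻¹ * (l1 * l2)⁻¹) := by
    intro a
    have hc1 : Continuous fun q : G × (G × G) => F (φ (a, q)) :=
      hG.comp (continuous_const.prodMk continuous_id)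
    rw [integral_prod _ (hc1.integrable_of_hasCompactSupport
      (HasCompactSupport.of_compactSpace _))]
    simp only [h2]
    have hcc := conv_cls (μ := μ) (hc 2) (hc 3)
    have hccc := c4_cls (μ := μ) hc
    have e0 : (b1 * b2) * (r1 * r2) * (t1 * t2)⁻¹ * (l1 * l2)⁻¹ =
        l1 * (l1⁻¹ * b1 * b2 * r1 * r2 * t2⁻¹ * t1⁻¹ * l2⁻¹) * l1⁻¹ := by group
    rw [e0, hccc]
    conv_rhs => unfold c4 conv
    rw [← integral_mul_left_eq_self (μ := μ)
      (fun y => conv μ (A 0) (A 1) (l1⁻¹ * b1 * b2 * r1 * (a * y)⁻¹) *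
        conv μ (A 2) (A 3) (l2⁻¹ * (a * y) * r2 * t2⁻¹ * t1⁻¹)) a⁻¹,
      ← integral_mul_right_eq_self (μ := μ) _ (l1⁻¹ * b1 * b2 * r1),
      ← integral_inv_eq_self (μ := μ)]
    refine integral_congr_ae (Filter.Eventually.of_forall fun y => ?_)
    beta_reduce
    have e1 : l1⁻¹ * b1 * b2 * r1 * (a * (a⁻¹ * (y⁻¹ * (l1⁻¹ * b1 * b2 * r1))))⁻¹ = y := by
      group
    have e2 : l2⁻¹ * (a * (a⁻¹ * (y⁻¹ * (l1⁻¹ * b1 * b2 * r1)))) * r2 * t2⁻¹ * t1⁻¹ =
        l2⁻¹ * (y⁻¹ * (l1⁻¹ * b1 * b2 * r1 * r2 * t2⁻¹ * t1⁻¹ * l2⁻¹)) * l2⁻¹⁻¹ := by group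
    rw [e1, e2, hcc]
    rfl
  simp only [h3]
  simp

/-- the product of the four quarters of a sheet -/
def FG (A : Fin 4 → G → ℝ) {n : ℕ} (V : BE (n + 1) → G) (m : Fin 4 → G) : ℝ :=
  A 0 (hf V 0 0 * m 2 * (m 0)⁻¹ * (hf V 3 0)⁻¹) *
    A 1 (hf V 0 1 * hf V 1 0 * (m 1)⁻¹ * (m 2)⁻¹) *
    A 2 (m 0 * m 3 * (hf V 2 0)⁻¹ * (hf V 3 1)⁻¹) *
    A 3 (m 1 * hf V 1 1 * (hf V 2 1)⁻¹ * (m 3)⁻¹)

lemma FG_cont {A : Fin 4 → G → ℝ} (hA : ∀ i, Continuous (A i)) {n : ℕ} (V : BE (n + 1) → G) :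
    Continuous (FG A V) := by
  have hA0 := hA 0
  have hA1 := hA 1
  have hA2 := hA 2
  have hA3 := hA 3
  unfold FG
  fun_prop

lemma int_FG {A : Fin 4 → G → ℝ} (hA : ∀ i, Continuous (A i)) (hc : ∀ i, Cls (A i)) {n : ℕ}
    (V : BE (n + 1) → G) :
    ∫ a : Fin 4 → Fin (2 ^ n) → G, FG A V (mids a)
      ∂(Measure.pi fun _ => Measure.pi fun _ => μ) = c4 μ A (lp V) := by
  rw [← int_mp (mp_mids (μ := μ) n) (FG_cont hA V)]
  unfold FG
  rw [sheet4 hA hc]
  unfold lp
  rw [sd_eq, sd_eq, sd_eq, sd_eq]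

/-- the partition function with boundary condition -/
def Zbw (μ : Measure G) {n : ℕ} (w : Pq n → G → ℝ) (V : BE n → G) : ℝ :=
  ∫ I : IE n → G, wtt w (Sum.elim V I) ∂(Measure.pi fun _ => μ)

theorem Zbw_eq : ∀ (n : ℕ) {w : Pq n → G → ℝ}, (∀ p, Continuous (w p)) → (∀ p, Cls (w p)) →
    ∀ (V : BE n → G), Zbw μ w V = ZZ μ n w (lp V)
  | 0, w, hw, hc, V => by
    unfold Zbw
    have hI : IsEmpty (IE 0) := inferInstanceAs (IsEmpty Empty)
    have h1 : ∀ I : IE 0 → G, wtt w (Sum.elim V I : Ed 0 → G) = w () (lp V) := by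
      intro I
      have h2 : lp V = hol (Sum.elim V I : Ed 0 → G) (() : Pq 0) := by
        change _ = V (0, 0) * V (1, 0) * (V (2, 0))⁻¹ * (V (3, 0))⁻¹
        have h3 : ∀ i : Fin 4, sd V i = V (i, 0) := by
          intro i
          change (List.ofFn fun k : Fin 1 => V (i, k)).prod = _
          simp
        unfold lp
        rw [h3, h3, h3, h3]
      rw [h2]
      unfold wtt
      exact Fintype.prod_unique (ι := Unit) fun p =>
        w (p : Pq 0) (hol (Sum.elim V I : Ed 0 → G) (p : Pq 0))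
    simp only [h1]
    simp [ZZ]
  | n + 1, w, hw, hc, V => by
    have ih := fun (s r : Fin 4) => Zbw_eq n (fun p => hw (s, r, p)) (fun p => hc (s, r, p))
    unfold Zbw
    -- splitting of the inner edges
    let φ : ((Fin 4 → Fin 4 → Fin (2 ^ n) → G) × ((Fin 4 × Fin 4) → IE n → G)) →*
        (IE (n + 1) → G) :=
      { toFun := fun p => (Sum.elim (fun x => p.1 x.1 x.2.1 x.2.2)
          (fun x => p.2 (x.1, x.2.1) x.2.2) :
          (Fin 4 × Fin 4 × Fin (2 ^ n)) ⊕ (Fin 4 × Fin 4 × IE n) → G)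
        map_one' := by
          funext e
          rcases e with e | e <;> rfl
        map_mul' := fun p q => by
          funext e
          rcases e with e | e <;> rfl }
    have hφ : Continuous φ := by
      refine continuous_pi fun e => ?_
      rcases e with ⟨a, b, c⟩ | ⟨a, b, c⟩
      · change Continuous fun p : (Fin 4 → Fin 4 → Fin (2 ^ n) → G) ×
          ((Fin 4 × Fin 4) → IE n → G) => p.1 a b c
        fun_prop
      · change Continuous fun p : (Fin 4 → Fin 4 → Fin (2 ^ n) → G) ×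
          ((Fin 4 × Fin 4) → IE n → G) => p.2 (a, b) c
        fun_prop
    have hs : Function.Surjective φ := fun I => ⟨(fun a b c => I (.inl (a, b, c)),
      fun x e => I (.inr (x.1, x.2, e))), by
        funext e
        rcases e with e | e <;> rfl⟩
    have i1 : (Measure.pi fun _ : Fin (2 ^ n) => μ).IsMulLeftInvariant := inferInstance
    have i2 : (Measure.pi fun _ : Fin 4 => Measure.pi fun _ : Fin (2 ^ n) =>
      μ).IsMulLeftInvariant := inferInstance
    have i3 : (Measure.pi fun _ : Fin 4 => Measure.pi fun _ : Fin 4 =>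
      Measure.pi fun _ : Fin (2 ^ n) => μ).IsMulLeftInvariant := inferInstance
    have i4 : (Measure.pi fun _ : IE n => μ).IsMulLeftInvariant := inferInstance
    have i5 : (Measure.pi fun _ : Fin 4 × Fin 4 =>
      Measure.pi fun _ : IE n => μ).IsMulLeftInvariant := inferInstance
    have i6 := Measure.prod.instIsMulLeftInvariant
      (μ := Measure.pi fun _ : Fin 4 => Measure.pi fun _ : Fin 4 =>
        Measure.pi fun _ : Fin (2 ^ n) => μ)
      (ν := Measure.pi fun _ : Fin 4 × Fin 4 => Measure.pi fun _ : IE n => μ)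
    have hmp := mp_hom ((Measure.pi fun _ : Fin 4 => Measure.pi fun _ : Fin 4 =>
      Measure.pi fun _ : Fin (2 ^ n) => μ).prod (Measure.pi fun _ : Fin 4 × Fin 4 =>
        Measure.pi fun _ : IE n => μ)) (Measure.pi fun _ : IE (n + 1) => μ) φ hφ hs
    have hwc : Continuous fun I : IE (n + 1) → G => wtt w (Sum.elim V I : Ed (n + 1) → G) := by
      refine (wtt_cont hw).comp (continuous_pi fun e => ?_)
      rcases e with e | e
      · exact continuous_const
      · exact continuous_apply e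
    rw [int_mp hmp hwc]
    have hcs : Continuous fun p => wtt w (Sum.elim V (φ p) : Ed (n + 1) → G) := hwc.comp hφ
    rw [integral_prod _ (hcs.integrable_of_hasCompactSupport
      (HasCompactSupport.of_compactSpace _))]
    have h1 : ∀ M : Fin 4 → Fin 4 → Fin (2 ^ n) → G,
        ∫ J : (Fin 4 × Fin 4) → IE n → G, wtt w (Sum.elim V (φ (M, J)) : Ed (n + 1) → G)
          ∂(Measure.pi fun _ => Measure.pi fun _ => μ) =
        ∏ s : Fin 4, FG (fun r => ZZ μ n (fun p => w (s, r, p))) V (mids (M s)) := by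
      intro M
      have h2 : ∀ J : (Fin 4 × Fin 4) → IE n → G,
          wtt w (Sum.elim V (φ (M, J)) : Ed (n + 1) → G) =
          ∏ x : Fin 4 × Fin 4, wtt (fun p => w (x.1, x.2, p))
            (Sum.elim (sub V (fun y => M y.1 y.2.1 y.2.2) x.1 x.2)
            (J x) : Ed n → G) := fun J =>
        wtt_succ w V (fun y => M y.1 y.2.1 y.2.2) (fun y => J (y.1, y.2.1) y.2.2)
      simp only [h2]
      rw [integral_fintype_prod_eq_prod (fun (x : Fin 4 × Fin 4) (I : IE n → G) =>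
        wtt (fun p => w (x.1, x.2, p)) (Sum.elim (sub V (fun y => M y.1 y.2.1 y.2.2) x.1 x.2) I : Ed n → G))]
      have h3 : ∀ x : Fin 4 × Fin 4, ∫ I : IE n → G,
          wtt (fun p => w (x.1, x.2, p))
            (Sum.elim (sub V (fun y => M y.1 y.2.1 y.2.2) x.1 x.2) I : Ed n → G)
            ∂(Measure.pi fun _ => μ) =
          ZZ μ n (fun p => w (x.1, x.2, p))
            (lp (sub V (fun y => M y.1 y.2.1 y.2.2) x.1 x.2)) := fun x => ih x.1 x.2 _
      simp only [h3]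
      rw [Fintype.prod_prod_type]
      refine Finset.prod_congr rfl fun s _ => ?_
      obtain ⟨e0, e1, e2, e3⟩ := lp_sub V (fun y => M y.1 y.2.1 y.2.2) s
      rw [Fin.prod_univ_four]
      unfold FG
      dsimp only
      rw [e0, e1, e2, e3]
    simp only [h1]
    rw [integral_fintype_prod_eq_prod (fun (s : Fin 4) (a : Fin 4 → Fin (2 ^ n) → G) =>
      FG (fun r => ZZ μ n (fun p => w (s, r, p))) V (mids a))]
    refine Finset.prod_congr rfl fun s _ => ?_
    exact int_FG (fun r => ZZ_cont n fun p => hw (s, r, p))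
      (fun r => ZZ_cls n fun p => hc (s, r, p)) V

end

end Pool.Agent.N989.MK
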