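import Mathlib
import Pool.Agent.N991.MK.Conv

/-!
# Semiconcavity of the logarithm of the densities
-/

open MeasureTheory Pool.Agent.N991.MK

namespace Pool.Agent.N989.MK

set_option linter.unusedSectionVars false

noncomputable section

/-- squared length -/
def qf {n : ℕ} (X : Fin n → ℝ) : ℝ := ∑ a, X a ^ 2

lemma qf_nonneg {n : ℕ} (X : Fin n → ℝ) : 0 ≤ qf X := Finset.sum_nonneg fun _ _ => sq_nonneg _

lemma qf_smul {n : ℕ} (c : ℝ) (X : Fin n → ℝ) : qf (c • X) = c ^ 2 * qf X := by
  unfold qf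
  simp [mul_pow, Finset.mul_sum]

/-- an exponential map -/
structure ED (G : Type*) [Group G] (n : ℕ) where
  E : (Fin n → ℝ) → G
  neg : ∀ X, E (-X) = (E X)⁻¹
  dbl : ∀ X, E ((2 : ℝ) • X) = E X * E X
  ad : ∀ y X, ∃ X', y⁻¹ * E X * y = E X' ∧ y⁻¹ * E (-X) * y = E (-X') ∧ qf X' = qf X

variable {G : Type*} [Group G] {n : ℕ} (D : ED G n)

/-- semiconcavity of the logarithm with the constant `K` -/
def SC (K : ℝ) (f : G → ℝ) : Prop := ∀ (X : Fin n → ℝ) (x : G),
  -(K * qf X) ≤ Real.log (f (D.E X * x)) + Real.log (f (D.E (-X) * x)) - 2 * Real.log (f x)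

variable {D}

lemma SC.mono {K K' : ℝ} (h : K ≤ K') {f : G → ℝ} (hf : SC D K f) : SC D K' f := fun X x => by
  have h1 := hf X x
  have h2 := mul_le_mul_of_nonneg_right h (qf_nonneg X)
  linarith

lemma SC.pow {K : ℝ} {f : G → ℝ} (hf : SC D K f) (m : ℕ) :
    SC D (m * K) (fun x => f x ^ m) := fun X x => by
  have h1 := hf X x
  simp only [Real.log_pow]
  have h2 : (0 : ℝ) ≤ m := Nat.cast_nonneg m
  nlinarith

lemma SC.smul {K c : ℝ} (hc : 0 < c) {f : G → ℝ} (h0 : ∀ x, 0 < f x) (hf : SC D K f) :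
    SC D K (fun x => c * f x) := fun X x => by
  have h1 := hf X x
  rw [Real.log_mul hc.ne' (h0 _).ne', Real.log_mul hc.ne' (h0 _).ne',
    Real.log_mul hc.ne' (h0 _).ne']
  linarith

/-- the group is generated by exponentials -/
def Gen (D : ED G n) (m : ℕ) (r : ℝ) : Prop := ∀ x : G, ∃ l : List (Fin n → ℝ), l.length ≤ m ∧
  (∀ X ∈ l, qf X ≤ r) ∧ x = (l.map D.E).prod

lemma SC.step {K : ℝ} {f : G → ℝ} (hf : SC D K f) {M : ℝ} (hM : ∀ x, Real.log (f x) ≤ M)
    (X : Fin n → ℝ) (x : G) :
    M - Real.log (f (D.E X * x)) ≤ 2 * (M - Real.log (f x)) + K * qf X := by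
  have h1 := hf X x
  have h2 := hM (D.E (-X) * x)
  linarith

lemma SC.list {K : ℝ} (hK : 0 ≤ K) {f : G → ℝ} (hf : SC D K f) {M r : ℝ} (hr : 0 ≤ r)
    (hM : ∀ x, Real.log (f x) ≤ M) (y : G) (hy : Real.log (f y) = M) (l : List (Fin n → ℝ))
    (hl : ∀ X ∈ l, qf X ≤ r) :
    M - Real.log (f ((l.map D.E).prod * y)) ≤ (2 ^ l.length - 1) * (K * r) := by
  induction l with
  | nil => simp [hy]
  | cons X l ih =>
    have h1 := ih fun Z hZ => hl Z (List.mem_cons_of_mem _ hZ)
    have h2 := hf.step hM X ((l.map D.E).prod * y)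
    have h3 := mul_le_mul_of_nonneg_left (hl X List.mem_cons_self) hK
    simp only [List.map_cons, List.prod_cons, List.length_cons, pow_succ]
    rw [mul_assoc]
    linarith

variable [TopologicalSpace G] [IsTopologicalGroup G] [CompactSpace G]
  [MeasurableSpace G] [BorelSpace G] [SecondCountableTopology G]

/-- bound of the oscillation -/
theorem SC.osc {m : ℕ} {r : ℝ} (hr : 0 ≤ r) (hg : Gen D m r) {K : ℝ} (hK : 0 ≤ K) {f : G → ℝ}
    (hfc : Continuous f) (h0 : ∀ x, 0 < f x) (hf : SC D K f) (x y : G) :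
    Real.log (f x) - Real.log (f y) ≤ 2 ^ m * r * K := by
  have hc : Continuous fun x => Real.log (f x) := hfc.log fun x => (h0 x).ne'
  obtain ⟨z, -, hz⟩ := isCompact_univ.exists_isMaxOn (Set.univ_nonempty (α := G)) hc.continuousOn
  have hM : ∀ x, Real.log (f x) ≤ Real.log (f z) := fun x => hz (Set.mem_univ x)
  obtain ⟨l, hl1, hl2, hl3⟩ := hg (y * z⁻¹)
  have h1 := hf.list hK hr hM z rfl l hl2
  rw [← hl3, inv_mul_cancel_right] at h1
  have h2 : (2 : ℝ) ^ l.length ≤ 2 ^ m := pow_le_pow_right₀ (by norm_num) hl1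
  have h3 : 0 ≤ K * r := mul_nonneg hK hr
  have h4 := hM x
  nlinarith [mul_le_mul_of_nonneg_right h2 h3]

variable {μ : Measure G} [IsProbabilityMeasure μ] [μ.IsHaarMeasure] [μ.IsMulRightInvariant]
  [μ.IsInvInvariant]

/-- the convolution with itself halves the constant, and a bit more -/
theorem SC.conv {K Λ : ℝ} (hK : 0 ≤ K) {f : G → ℝ}
    (hfc : Continuous f) (h0 : ∀ x, 0 < f x) (hf : SC D K f)
    (hΛ : ∀ x y, Real.log (f x) - Real.log (f y) ≤ Λ) :
    SC D (K / 2 * (1 - Real.exp (-(2 * Λ)))) (conv μ f f) := by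
  intro X x
  set Y : Fin n → ℝ := (1 / 2 : ℝ) • X with hY
  have hXY : X = (2 : ℝ) • Y := by rw [hY, smul_smul]; norm_num
  have hqX : qf X = 4 * qf Y := by rw [hXY, qf_smul]; norm_num
  have hq0 := qf_nonneg Y
  have hnX : -X = (2 : ℝ) • (-Y) := by rw [smul_neg, ← hXY]
  have hlc : Continuous fun x => Real.log (f x) := hfc.log fun x => (h0 x).ne'
  have hi : ∀ {g : G → ℝ}, Continuous g → Integrable g μ := fun hg => integrable_of_cont hg
  -- shifted convolutions
  have hsh : ∀ Z : Fin n → ℝ, Pool.Agent.N991.MK.conv μ f f (D.E ((2 : ℝ) • Z) * x) =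
      ∫ y, f (D.E Z * y) * f (y⁻¹ * D.E Z * x) ∂μ := by
    intro Z
    unfold Pool.Agent.N991.MK.conv
    rw [← integral_mul_left_eq_self (μ := μ)
      (fun y => f y * f (y⁻¹ * (D.E ((2 : ℝ) • Z) * x))) (D.E Z)]
    refine integral_congr_ae (Filter.Eventually.of_forall fun y => ?_)
    beta_reduce
    rw [D.dbl]
    congr 2
    group
  set Fp : G → ℝ := fun y => f (D.E Y * y) * f (y⁻¹ * D.E Y * x) with hFp
  set Fm : G → ℝ := fun y => f (D.E (-Y) * y) * f (y⁻¹ * D.E (-Y) * x) with hFm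
  set F0 : G → ℝ := fun y => f y * f (y⁻¹ * x) with hF0
  set S : G → ℝ := fun y => (Real.log (f (D.E Y * y)) + Real.log (f (D.E (-Y) * y)) -
    2 * Real.log (f y)) + (Real.log (f (y⁻¹ * D.E Y * x)) +
      Real.log (f (y⁻¹ * D.E (-Y) * x)) - 2 * Real.log (f (y⁻¹ * x))) with hS
  have cp : Continuous Fp := by rw [hFp]; fun_prop
  have cm : Continuous Fm := by rw [hFm]; fun_prop
  have c0 : Continuous F0 := by rw [hF0]; fun_prop
  have cS : Continuous S := by
    rw [hS]
    have a1 : Continuous fun y : G => D.E Y * y := by fun_prop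
    have a2 : Continuous fun y : G => D.E (-Y) * y := by fun_prop
    have a3 : Continuous fun y : G => y⁻¹ * D.E Y * x := by fun_prop
    have a4 : Continuous fun y : G => y⁻¹ * D.E (-Y) * x := by fun_prop
    have a5 : Continuous fun y : G => y⁻¹ * x := by fun_prop
    exact (((hlc.comp a1).add (hlc.comp a2)).sub (continuous_const.mul hlc)).add
      (((hlc.comp a3).add (hlc.comp a4)).sub (continuous_const.mul (hlc.comp a5)))
  have pp : ∀ y, 0 < Fp y := fun y => mul_pos (h0 _) (h0 _)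
  have pm : ∀ y, 0 < Fm y := fun y => mul_pos (h0 _) (h0 _)
  have p0 : ∀ y, 0 < F0 y := fun y => mul_pos (h0 _) (h0 _)
  have hpos : ∀ {F : G → ℝ}, Continuous F → (∀ y, 0 < F y) → 0 < ∫ y, F y ∂μ := by
    intro F hF hF0
    rw [integral_pos_iff_support_of_nonneg (fun y => (hF0 y).le) (hi hF)]
    have : Function.support F = Set.univ := by
      ext y
      simp [(hF0 y).ne']
    rw [this]
    simp
  set hp := ∫ y, Fp y ∂μ with hhp
  set hm := ∫ y, Fm y ∂μ with hhm
  set hz := ∫ y, F0 y ∂μ with hhz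
  have hp0 : 0 < hp := hpos cp pp
  have hm0 : 0 < hm := hpos cm pm
  have hz0 : 0 < hz := hpos c0 p0
  -- the product of the shifted functions
  have hlogS : ∀ y, S y = Real.log (Fp y) + Real.log (Fm y) - 2 * Real.log (F0 y) := by
    intro y
    simp only [hS, hFp, hFm, hF0]
    rw [Real.log_mul (h0 _).ne' (h0 _).ne', Real.log_mul (h0 _).ne' (h0 _).ne',
      Real.log_mul (h0 _).ne' (h0 _).ne']
    ring
  have hprod : ∀ y, (F0 y * Real.exp (S y / 2)) ^ 2 = Fp y * Fm y := by
    intro y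
    have e1 : Real.exp (S y / 2) ^ 2 = Real.exp (S y) := by
      rw [← Real.exp_nat_mul]; congr 1; push_cast; ring
    rw [mul_pow, e1, hlogS, Real.exp_sub, Real.exp_add, Real.exp_log (pp y), Real.exp_log (pm y)]
    have e2 : Real.exp (2 * Real.log (F0 y)) = F0 y ^ 2 := by
      rw [mul_comm, Real.exp_mul, Real.exp_log (p0 y)]
      norm_cast
    rw [e2]
    field_simp [(p0 y).ne']
  -- lower bound of S
  have hSl : ∀ y, -(2 * K * qf Y) ≤ S y := by
    intro y
    have h1 := hf Y y
    obtain ⟨Y', e1, e2, e3⟩ := D.ad y Y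
    have h2 := hf Y' (y⁻¹ * x)
    rw [e3, ← e1, ← e2] at h2
    have e4 : y⁻¹ * D.E Y * y * (y⁻¹ * x) = y⁻¹ * D.E Y * x := by group
    have e5 : y⁻¹ * D.E (-Y) * y * (y⁻¹ * x) = y⁻¹ * D.E (-Y) * x := by group
    rw [e4, e5] at h2
    simp only [hS]
    linarith
  -- the mean of S vanishes
  have hS0 : ∫ y, S y ∂μ = 0 := by
    have j1 : ∀ a : G, ∫ y, Real.log (f (a * y)) ∂μ = ∫ y, Real.log (f y) ∂μ := fun a =>
      integral_mul_left_eq_self (μ := μ) (fun y => Real.log (f y)) a
    have j2 : ∀ a : G, ∫ y, Real.log (f (y⁻¹ * a)) ∂μ = ∫ y, Real.log (f y) ∂μ := fun a => by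
      rw [integral_inv_eq_self (μ := μ) (fun y => Real.log (f (y * a)))]
      exact integral_mul_right_eq_self (μ := μ) (fun y => Real.log (f y)) a
    have k1 : ∀ a : G, Integrable (fun y => Real.log (f (a * y))) μ := fun a =>
      hi (hlc.comp (continuous_const.mul continuous_id))
    have k2 : ∀ a : G, Integrable (fun y => Real.log (f (y⁻¹ * a))) μ := fun a =>
      hi (hlc.comp (continuous_inv.mul continuous_const))
    have k0 : Integrable (fun y => Real.log (f y)) μ := hi hlc
    have e : ∀ y, S y = (Real.log (f (D.E Y * y)) + Real.log (f (D.E (-Y) * y)) -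
      2 * Real.log (f y)) + (Real.log (f (y⁻¹ * (D.E Y * x))) +
        Real.log (f (y⁻¹ * (D.E (-Y) * x))) - 2 * Real.log (f (y⁻¹ * x))) := by
      intro y
      simp only [hS, mul_assoc]
    simp only [e]
    rw [integral_add, integral_sub, integral_add, integral_sub, integral_add,
      integral_const_mul, integral_const_mul, j1, j1, j2, j2, j2]
    · ring
    · exact k2 _
    · exact k2 _
    · exact (k2 _).add (k2 _)
    · exact (k2 _).const_mul 2
    · exact k1 _
    · exact k1 _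
    · exact (k1 _).add (k1 _)
    · exact k0.const_mul 2
    · exact ((k1 _).add (k1 _)).sub (k0.const_mul 2)
    · exact ((k2 _).add (k2 _)).sub ((k2 _).const_mul 2)
  -- lower bound of the density
  have hF0l : ∀ y, Real.exp (-(2 * Λ)) * hz ≤ F0 y := by
    intro y
    have h1 : ∀ z, Real.exp (-(2 * Λ)) * F0 z ≤ F0 y := by
      intro z
      have h2 : Real.log (F0 z) - Real.log (F0 y) ≤ 2 * Λ := by
        simp only [hF0]
        rw [Real.log_mul (h0 _).ne' (h0 _).ne', Real.log_mul (h0 _).ne' (h0 _).ne']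
        have := hΛ z y
        have := hΛ (z⁻¹ * x) (y⁻¹ * x)
        linarith
      calc Real.exp (-(2 * Λ)) * F0 z ≤
          Real.exp (Real.log (F0 y) - Real.log (F0 z)) * F0 z := by
            refine mul_le_mul_of_nonneg_right (Real.exp_le_exp.2 (by linarith)) (p0 z).le
        _ = F0 y := by
            rw [Real.exp_sub, Real.exp_log (p0 y), Real.exp_log (p0 z)]
            field_simp [(p0 z).ne']
    calc Real.exp (-(2 * Λ)) * hz = ∫ z, Real.exp (-(2 * Λ)) * F0 z ∂μ := by
          rw [integral_const_mul]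
      _ ≤ ∫ _, F0 y ∂μ := integral_mono (hi (continuous_const.mul c0))
          (integrable_const _) fun z => h1 z
      _ = F0 y := by simp
  -- the mean of S with respect to the density
  set c : ℝ := (∫ y, F0 y * S y ∂μ) / hz with hc
  have hcl : -(2 * K * qf Y) * (1 - Real.exp (-(2 * Λ))) ≤ c := by
    have h1 : ∫ y, Real.exp (-(2 * Λ)) * hz * (S y + 2 * K * qf Y) ∂μ ≤
        ∫ y, F0 y * (S y + 2 * K * qf Y) ∂μ := by
      refine integral_mono (hi (continuous_const.mul (cS.add continuous_const)))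
        (hi (c0.mul (cS.add continuous_const))) fun y => ?_
      exact mul_le_mul_of_nonneg_right (hF0l y) (by linarith [hSl y])
    rw [integral_const_mul, integral_add (hi cS) (integrable_const _), hS0] at h1
    have h2 : ∫ y, F0 y * (S y + 2 * K * qf Y) ∂μ = ∫ y, F0 y * S y ∂μ +
        hz * (2 * K * qf Y) := by
      have e : ∀ y, F0 y * (S y + 2 * K * qf Y) = F0 y * S y + F0 y * (2 * K * qf Y) :=
        fun y => by ring
      simp only [e]
      have I1 : Integrable (fun y => F0 y * S y) μ := hi (c0.mul cS)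
      have I2 : Integrable (fun y => F0 y * (2 * K * qf Y)) μ := hi (c0.mul continuous_const)
      rw [integral_add I1 I2, integral_mul_const]
    rw [h2] at h1
    simp only [integral_const, probReal_univ, smul_eq_mul, one_mul, zero_add] at h1
    rw [hc, le_div_iff₀ hz0]
    nlinarith
  -- Jensen
  set U := ∫ y, F0 y * Real.exp (S y / 2) ∂μ with hU
  have cU : Continuous fun y => F0 y * Real.exp (S y / 2) :=
    c0.mul (Real.continuous_exp.comp (cS.div_const 2))
  have hJ : Real.exp (c / 2) * hz ≤ U := by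
    have h1 : ∫ y, F0 y * (Real.exp (c / 2) * (1 + (S y / 2 - c / 2))) ∂μ ≤ U := by
      refine integral_mono (hi (c0.mul (continuous_const.mul (continuous_const.add
        ((cS.div_const 2).sub continuous_const))))) (hi cU) fun y => ?_
      refine mul_le_mul_of_nonneg_left ?_ (p0 y).le
      have h3 := Real.add_one_le_exp (S y / 2 - c / 2)
      calc Real.exp (c / 2) * (1 + (S y / 2 - c / 2)) ≤
          Real.exp (c / 2) * Real.exp (S y / 2 - c / 2) :=
            mul_le_mul_of_nonneg_left (by linarith) (Real.exp_pos _).le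
        _ = Real.exp (S y / 2) := by rw [← Real.exp_add]; congr 1; ring
    have h2 : ∫ y, F0 y * (Real.exp (c / 2) * (1 + (S y / 2 - c / 2))) ∂μ =
        Real.exp (c / 2) * hz := by
      have e : ∀ y, F0 y * (Real.exp (c / 2) * (1 + (S y / 2 - c / 2))) =
          Real.exp (c / 2) * (1 - c / 2) * F0 y + Real.exp (c / 2) / 2 * (F0 y * S y) :=
        fun y => by ring
      simp only [e]
      have I1 : Integrable (fun y => Real.exp (c / 2) * (1 - c / 2) * F0 y) μ :=
        hi (continuous_const.mul c0)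
      have I2 : Integrable (fun y => Real.exp (c / 2) / 2 * (F0 y * S y)) μ :=
        hi (continuous_const.mul (c0.mul cS))
      rw [integral_add I1 I2, integral_const_mul, integral_const_mul]
      have h4 : ∫ y, F0 y * S y ∂μ = c * hz := by rw [hc]; field_simp
      rw [h4]
      ring
    rw [h2] at h1
    exact h1
  -- Cauchy-Schwarz
  have hCS : U ^ 2 ≤ hp * hm := by
    set lam := Real.sqrt (hm / hp) with hlam
    have hl0 : 0 < lam := Real.sqrt_pos.2 (div_pos hm0 hp0)
    have hl2 : lam ^ 2 = hm / hp := Real.sq_sqrt (div_pos hm0 hp0).le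
    have h1 : ∀ y, 2 * (F0 y * Real.exp (S y / 2)) ≤ lam * Fp y + lam⁻¹ * Fm y := by
      intro y
      have h2 := hprod y
      have h3 : 0 < F0 y * Real.exp (S y / 2) := mul_pos (p0 y) (Real.exp_pos _)
      have h5 : (2 * (F0 y * Real.exp (S y / 2))) ^ 2 ≤ (lam * Fp y + lam⁻¹ * Fm y) ^ 2 := by
        have e : (lam * Fp y) * (lam⁻¹ * Fm y) = Fp y * Fm y := by
          field_simp [hl0.ne']
        have : (lam * Fp y + lam⁻¹ * Fm y) ^ 2 = (lam * Fp y - lam⁻¹ * Fm y) ^ 2 +
            4 * ((lam * Fp y) * (lam⁻¹ * Fm y)) := by ring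
        rw [this, e, ← h2]
        nlinarith [sq_nonneg (lam * Fp y - lam⁻¹ * Fm y)]
      have h6 : 0 ≤ lam * Fp y + lam⁻¹ * Fm y :=
        add_nonneg (mul_pos hl0 (pp y)).le (mul_pos (inv_pos.2 hl0) (pm y)).le
      exact le_of_sq_le_sq h5 h6 |>.trans le_rfl
    have h2 : 2 * U ≤ lam * hp + lam⁻¹ * hm := by
      have I1 : Integrable (fun y => 2 * (F0 y * Real.exp (S y / 2))) μ :=
        hi (continuous_const.mul cU)
      have I2 : Integrable (fun y => lam * Fp y) μ := hi (continuous_const.mul cp)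
      have I3 : Integrable (fun y => lam⁻¹ * Fm y) μ := hi (continuous_const.mul cm)
      have h3 : ∫ y, 2 * (F0 y * Real.exp (S y / 2)) ∂μ ≤ ∫ y, lam * Fp y + lam⁻¹ * Fm y ∂μ :=
        integral_mono I1 (I2.add I3) h1
      rw [integral_const_mul, integral_add I2 I3, integral_const_mul, integral_const_mul] at h3
      exact h3
    have h3 : lam * hp + lam⁻¹ * hm = 2 * (lam * hp) := by
      have e : lam⁻¹ * hm = lam * hp := by
        have : hm = lam ^ 2 * hp := by rw [hl2]; field_simp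
        rw [this]
        field_simp
      rw [e]; ring
    have h4 : U ≤ lam * hp := by linarith
    have hU0 : 0 ≤ U := (mul_pos (Real.exp_pos _) hz0).le.trans hJ
    calc U ^ 2 ≤ (lam * hp) ^ 2 := pow_le_pow_left₀ hU0 h4 2
      _ = hp * hm := by rw [mul_pow, hl2]; field_simp
  -- conclusion
  have e1 : Pool.Agent.N991.MK.conv μ f f (D.E X * x) = hp := by
    rw [hXY]; exact hsh Y
  have e2 : Pool.Agent.N991.MK.conv μ f f (D.E (-X) * x) = hm := by
    rw [hnX]; exact hsh (-Y)
  have e3 : Pool.Agent.N991.MK.conv μ f f x = hz := rfl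
  rw [e1, e2, e3, hqX]
  have h5 : (Real.exp (c / 2) * hz) ^ 2 ≤ hp * hm :=
    (pow_le_pow_left₀ (mul_pos (Real.exp_pos _) hz0).le hJ 2).trans hCS
  have h6 := Real.log_le_log (pow_pos (mul_pos (Real.exp_pos _) hz0) 2) h5
  rw [Real.log_pow, Real.log_mul (Real.exp_pos _).ne' hz0.ne', Real.log_exp,
    Real.log_mul hp0.ne' hm0.ne'] at h6
  push_cast at h6
  nlinarith

end

end Pool.Agent.N989.MK
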