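import Mathlib
import Pool.Agent.N989.MK.Part
import Pool.Agent.N989.MK.SC

/-!
# Strong coupling: the area law of the hierarchical model
-/

open MeasureTheory Pool.Agent.N991.MK Filter
open scoped Topology

namespace Pool.Agent.N989.MK

set_option linter.unusedSectionVars false

noncomputable section

variable {G : Type*} [Group G] [TopologicalSpace G] [IsTopologicalGroup G] [CompactSpace G]
  [MeasurableSpace G] [BorelSpace G] [SecondCountableTopology G]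
  (μ : Measure G) [IsProbabilityMeasure μ] [μ.IsHaarMeasure] [μ.IsMulRightInvariant]
  [μ.IsInvInvariant]

/-- the fourfold convolution -/
def H4 (Z : G → ℝ) : G → ℝ := conv μ (conv μ Z Z) (conv μ Z Z)

/-- the renormalisation map -/
def TT (Z : G → ℝ) : G → ℝ := fun x => H4 μ Z x ^ 4

/-- iterations -/
def TTn (Z : G → ℝ) : ℕ → G → ℝ
  | 0 => Z
  | k + 1 => TT μ (TTn Z k)

variable {μ}

lemma Zr_eq (w : G → ℝ) : ∀ n, Zr μ w n = TTn μ w n
  | 0 => rfl
  | n + 1 => by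
    change TT μ (Zr μ w n) = TT μ (TTn μ w n)
    rw [Zr_eq w n]

lemma TTn_add (Z : G → ℝ) (a : ℕ) : ∀ b, TTn μ Z (a + b) = TTn μ (TTn μ Z a) b
  | 0 => rfl
  | b + 1 => by
    change TT μ (TTn μ Z (a + b)) = TT μ _
    rw [TTn_add Z a b]

/-- admissible functions -/
structure Adm (Z : G → ℝ) : Prop where
  cont : Continuous Z
  pos : ∀ x, 0 < Z x
  cls : Cls Z
  sy : Sy Z

lemma Adm.conv {Z : G → ℝ} (h : Adm Z) : Adm (conv μ Z Z) :=
  ⟨cont_conv h.cont h.cont, conv_pos h.cont h.cont h.pos h.pos, conv_cls h.cls h.cls,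
    conv_sy h.cls h.cls h.sy h.sy⟩

lemma Adm.H4 {Z : G → ℝ} (h : Adm Z) : Adm (H4 μ Z) := h.conv.conv

lemma Adm.pow {Z : G → ℝ} (h : Adm Z) (m : ℕ) : Adm (fun x => Z x ^ m) :=
  ⟨h.cont.pow m, fun x => pow_pos (h.pos x) m, fun g x => by rw [h.cls], fun x => by rw [h.sy]⟩

lemma Adm.TT {Z : G → ℝ} (h : Adm Z) : Adm (TT μ Z) := (h.H4 (μ := μ)).pow 4

lemma Adm.TTn {Z : G → ℝ} (h : Adm Z) : ∀ k, Adm (TTn μ Z k)
  | 0 => h
  | k + 1 => (Adm.TTn h k).TT

lemma Adm.integrable {Z : G → ℝ} (h : Adm Z) : Integrable Z μ := integrable_of_cont h.cont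

lemma int_pos {Z : G → ℝ} (hc : Continuous Z) (hp : ∀ x, 0 < Z x) : 0 < ∫ x, Z x ∂μ := by
  rw [integral_pos_iff_support_of_nonneg (fun y => (hp y).le) (integrable_of_cont hc)]
  have : Function.support Z = Set.univ := by
    ext y
    simp [(hp y).ne']
  rw [this]
  simp

lemma Adm.ipos {Z : G → ℝ} (h : Adm Z) : 0 < ∫ x, Z x ∂μ := int_pos h.cont h.pos

/-- the integral of a convolution -/
lemma int_conv {f g : G → ℝ} (hf : Continuous f) (hg : Continuous g) :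
    ∫ x, conv μ f g x ∂μ = (∫ x, f x ∂μ) * ∫ x, g x ∂μ := by
  unfold Pool.Agent.N991.MK.conv
  have hc : Continuous fun p : G × G => f p.2 * g (p.2⁻¹ * p.1) := by fun_prop
  rw [integral_integral_swap (f := fun x y => f y * g (y⁻¹ * x))
    (hc.integrable_of_hasCompactSupport (HasCompactSupport.of_compactSpace _))]
  have h1 : ∀ y, ∫ x, f y * g (y⁻¹ * x) ∂μ = f y * ∫ x, g x ∂μ := by
    intro y
    rw [integral_const_mul, integral_mul_left_eq_self (μ := μ) g y⁻¹]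
  simp only [h1]
  rw [integral_mul_const]

variable (μ)

/-- small deviations from a constant -/
def Sm (a : ℝ) (Z : G → ℝ) : Prop := ∀ x, |Z x - ∫ y, Z y ∂μ| ≤ a * ∫ y, Z y ∂μ

variable {μ}

lemma conv_dev {Z : G → ℝ} (hZ : Continuous Z) (x : G) :
    conv μ Z Z x - (∫ y, Z y ∂μ) * ∫ y, Z y ∂μ =
      ∫ y, (Z y - ∫ z, Z z ∂μ) * (Z (y⁻¹ * x) - ∫ z, Z z ∂μ) ∂μ := by
  set I := ∫ z, Z z ∂μ with hI
  have c2 : Continuous fun y => Z (y⁻¹ * x) := by fun_prop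
  have e : ∀ y, (Z y - I) * (Z (y⁻¹ * x) - I) =
      Z y * Z (y⁻¹ * x) - I * Z y - I * Z (y⁻¹ * x) + I * I := fun y => by ring
  simp only [e]
  have i1 : Integrable (fun y => Z y * Z (y⁻¹ * x)) μ := integrable_of_cont (hZ.mul c2)
  have i2 : Integrable (fun y => I * Z y) μ := integrable_of_cont (continuous_const.mul hZ)
  have i3 : Integrable (fun y => I * Z (y⁻¹ * x)) μ := integrable_of_cont (continuous_const.mul c2)
  have i12 : Integrable (fun y => Z y * Z (y⁻¹ * x) - I * Z y) μ := i1.sub i2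
  have i123 : Integrable (fun y => Z y * Z (y⁻¹ * x) - I * Z y - I * Z (y⁻¹ * x)) μ := i12.sub i3
  rw [integral_add i123 (integrable_const _), integral_sub i12 i3, integral_sub i1 i2,
    integral_const_mul, integral_const_mul]
  have h1 : ∫ y, Z (y⁻¹ * x) ∂μ = I := by
    rw [integral_inv_eq_self (μ := μ) (fun y => Z (y * x))]
    exact integral_mul_right_eq_self (μ := μ) Z x
  rw [h1]
  change (∫ y, Z y * Z (y⁻¹ * x) ∂μ) - I * I = (∫ y, Z y * Z (y⁻¹ * x) ∂μ) - I * I - I * I +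
    ∫ _, I * I ∂μ
  rw [integral_const]
  simp

lemma Sm.conv {a : ℝ} {Z : G → ℝ} (h : Adm Z) (hs : Sm μ a Z) : Sm μ (a ^ 2) (conv μ Z Z) := by
  intro x
  rw [int_conv h.cont h.cont, conv_dev h.cont x]
  set I := ∫ z, Z z ∂μ with hI
  have h1 : ∀ y, ‖(Z y - I) * (Z (y⁻¹ * x) - I)‖ ≤ (a * I) * (a * I) := by
    intro y
    rw [norm_mul]
    exact mul_le_mul (hs y) (hs _) (norm_nonneg _) ((abs_nonneg _).trans (hs y))
  have h2 := norm_integral_le_of_norm_le_const (μ := μ) (Eventually.of_forall h1)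
  simp only [probReal_univ, mul_one] at h2
  calc |∫ y, (Z y - I) * (Z (y⁻¹ * x) - I) ∂μ| ≤ (a * I) * (a * I) := h2
    _ = a ^ 2 * (I * I) := by ring

lemma Sm.pow4 {b : ℝ} (hb0 : 0 ≤ b) (hb : b ≤ 1 / 100) {Z : G → ℝ} (h : Adm Z) (hs : Sm μ b Z) :
    Sm μ (9 * b) (fun x => Z x ^ 4) := by
  set I := ∫ z, Z z ∂μ with hI
  have hI0 : 0 < I := h.ipos
  have hlo : ∀ x, ((1 - b) * I) ^ 4 ≤ Z x ^ 4 := fun x => by
    have := (abs_le.1 (hs x)).1
    refine pow_le_pow_left₀ (mul_nonneg (by linarith) hI0.le) (by linarith) 4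
  have hup : ∀ x, Z x ^ 4 ≤ ((1 + b) * I) ^ 4 := fun x => by
    have := (abs_le.1 (hs x)).2
    exact pow_le_pow_left₀ (h.pos x).le (by linarith) 4
  have hint : Integrable (fun x => Z x ^ 4) μ := integrable_of_cont (h.cont.pow 4)
  have hJ1 : ((1 - b) * I) ^ 4 ≤ ∫ x, Z x ^ 4 ∂μ := by
    have := integral_mono (μ := μ) (integrable_const _) hint hlo
    simpa using this
  have hJ2 : ∫ x, Z x ^ 4 ∂μ ≤ ((1 + b) * I) ^ 4 := by
    have := integral_mono (μ := μ) hint (integrable_const _) hup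
    simpa using this
  intro x
  have h1 := hlo x
  have h2 := hup x
  have h3 : ((1 + b) * I) ^ 4 - ((1 - b) * I) ^ 4 ≤ 9 * b * ((1 - b) * I) ^ 4 := by
    have e1 : ((1 + b) * I) ^ 4 - ((1 - b) * I) ^ 4 = (8 * b + 8 * b ^ 3) * I ^ 4 := by ring
    have e2 : 9 * b * ((1 - b) * I) ^ 4 = 9 * b * (1 - b) ^ 4 * I ^ 4 := by ring
    rw [e1, e2]
    refine mul_le_mul_of_nonneg_right ?_ (by positivity)
    have h4 : (0.96 : ℝ) ≤ (1 - b) ^ 4 := by
      have h5 : (0.99 : ℝ) ^ 4 ≤ (1 - b) ^ 4 := pow_le_pow_left₀ (by norm_num) (by linarith) 4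
      norm_num at h5 ⊢
      linarith
    nlinarith [mul_nonneg hb0 hb0, mul_le_mul_of_nonneg_left h4 hb0]
  rw [abs_le]
  have h6 : 9 * b * ((1 - b) * I) ^ 4 ≤ 9 * b * ∫ x, Z x ^ 4 ∂μ :=
    mul_le_mul_of_nonneg_left hJ1 (by linarith)
  constructor <;> linarith

lemma Sm.TT {a : ℝ} (ha : 0 ≤ a) (ha1 : a ≤ 1 / 10) {Z : G → ℝ} (h : Adm Z) (hs : Sm μ a Z) :
    Sm μ (9 * a ^ 4) (TT μ Z) := by
  have h1 := (hs.conv h).conv h.conv
  have e : (a ^ 2) ^ 2 = a ^ 4 := by ring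
  rw [e] at h1
  have h2 : a ^ 4 ≤ 1 / 100 := by
    have h5 : a ^ 4 ≤ (1 / 10) ^ 4 := pow_le_pow_left₀ ha ha1 4
    norm_num at h5 ⊢
    linarith
  exact h1.pow4 (by positivity) h2 h.H4

lemma Sm.of_osc {δ : ℝ} (hδ1 : δ ≤ 1) {Z : G → ℝ} (h : Adm Z)
    (ho : ∀ x y, Real.log (Z x) - Real.log (Z y) ≤ δ) : Sm μ (2 * δ) Z := by
  have hδ : 0 ≤ δ := by simpa using ho 1 1
  set I := ∫ z, Z z ∂μ with hI
  have hI0 : 0 < I := h.ipos
  have h1 : ∀ x y, Z x ≤ Real.exp δ * Z y := fun x y => by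
    calc Z x = Real.exp (Real.log (Z x)) := (Real.exp_log (h.pos x)).symm
      _ ≤ Real.exp (δ + Real.log (Z y)) := Real.exp_le_exp.2 (by linarith [ho x y])
      _ = _ := by rw [Real.exp_add, Real.exp_log (h.pos y)]
  have h2 : ∀ x, Z x ≤ Real.exp δ * I := fun x => by
    have := integral_mono (μ := μ) (integrable_const _) (h.integrable.const_mul (Real.exp δ))
      (fun y => h1 x y)
    rw [integral_const_mul] at this
    simpa using this
  have h3 : ∀ x, I ≤ Real.exp δ * Z x := fun x => by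
    have := integral_mono (μ := μ) h.integrable (integrable_const _) (fun y => h1 y x)
    simpa using this
  have h4 : Real.exp δ - 1 ≤ 2 * δ := by
    have := Real.abs_exp_sub_one_le (x := δ) (by rw [abs_of_nonneg hδ]; exact hδ1)
    rw [abs_of_nonneg hδ] at this
    exact (le_abs_self _).trans this
  intro x
  rw [abs_le]
  have h5 := h2 x
  have h6 := h3 x
  have h7 : 1 ≤ Real.exp δ := Real.one_le_exp hδ
  have h8 : Real.exp δ * Real.exp (-δ) = 1 := by rw [← Real.exp_add]; simp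
  constructor
  · have h9 : (1 - δ) ≤ Real.exp (-δ) := by linarith [Real.add_one_le_exp (-δ)]
    have h10 : Real.exp (-δ) * I ≤ Z x := by
      have h11 := mul_le_mul_of_nonneg_left h6 (Real.exp_pos (-δ)).le
      have h12 : Real.exp (-δ) * (Real.exp δ * Z x) = Z x := by
        rw [← mul_assoc, mul_comm (Real.exp (-δ)), h8, one_mul]
      rw [h12] at h11
      exact h11
    nlinarith
  · nlinarith

/-! ### The constants of semiconcavity along the iteration -/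

variable {n : ℕ} {D : ED G n}

lemma SC.H4 {K Λ : ℝ} (hK : 0 ≤ K) {Z : G → ℝ} (h : Adm Z) (hs : SC D K Z)
    (hΛ : ∀ x y, Real.log (Z x) - Real.log (Z y) ≤ Λ) {m : ℕ} (hg : Gen D m 1)
    (hΛ2 : 2 ^ m * K ≤ Λ) :
    SC D (K / 4 * (1 - Real.exp (-(2 * Λ))) ^ 2) (H4 μ Z) := by
  have h1 := hs.conv (μ := μ) hK h.cont h.pos hΛ
  have he : 0 ≤ 1 - Real.exp (-(2 * Λ)) := by
    have h0 : 0 ≤ Λ := by simpa using hΛ 1 1
    have : Real.exp (-(2 * Λ)) ≤ 1 := Real.exp_le_one_iff.2 (by linarith)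
    linarith
  have he1 : 1 - Real.exp (-(2 * Λ)) ≤ 1 := by linarith [Real.exp_pos (-(2 * Λ))]
  have hK1 : 0 ≤ K / 2 * (1 - Real.exp (-(2 * Λ))) := mul_nonneg (by linarith) he
  have hK2 : K / 2 * (1 - Real.exp (-(2 * Λ))) ≤ K := by nlinarith
  have h2 : ∀ x y, Real.log (Pool.Agent.N991.MK.conv μ Z Z x) -
      Real.log (Pool.Agent.N991.MK.conv μ Z Z y) ≤ Λ := by
    intro x y
    have h3 := h1.osc zero_le_one hg hK1 (h.conv (μ := μ)).cont (h.conv (μ := μ)).pos x y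
    have h4 : (2 : ℝ) ^ m * 1 * (K / 2 * (1 - Real.exp (-(2 * Λ)))) ≤ 2 ^ m * K := by
      rw [mul_one]
      exact mul_le_mul_of_nonneg_left hK2 (by positivity)
    linarith
  have h5 := h1.conv (μ := μ) hK1 (h.conv (μ := μ)).cont (h.conv (μ := μ)).pos h2
  refine SC.mono (le_of_eq ?_) h5
  ring

/-- one step of the iteration -/
theorem SC.TT {K : ℝ} (hK : 0 ≤ K) {Z : G → ℝ} (h : Adm Z) (hs : SC D K Z) {m : ℕ}
    (hg : Gen D m 1) :
    SC D (K * (1 - Real.exp (-(2 * (2 ^ m * K)))) ^ 2) (TT μ Z) := by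
  have h1 := hs.H4 (μ := μ) hK h (Λ := 2 ^ m * K)
    (fun x y => by simpa using hs.osc zero_le_one hg hK h.cont h.pos x y) hg le_rfl
  have h2 := h1.pow 4
  refine SC.mono (le_of_eq ?_) h2
  push_cast
  ring

/-- the rate of the decay of the constants -/
def rate (m : ℕ) (K : ℝ) : ℝ := (1 - Real.exp (-(2 * (2 ^ m * K)))) ^ 2

lemma rate_nonneg (m : ℕ) (K : ℝ) : 0 ≤ rate m K := sq_nonneg _

lemma rate_lt (m : ℕ) {K : ℝ} (hK : 0 ≤ K) : rate m K < 1 := by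
  unfold rate
  have h1 := Real.exp_pos (-(2 * (2 ^ m * K)))
  have h2 : Real.exp (-(2 * (2 ^ m * K))) ≤ 1 := Real.exp_le_one_iff.2 (by
    have : 0 ≤ 2 ^ m * K := by positivity
    linarith)
  nlinarith

lemma rate_mono (m : ℕ) {K K' : ℝ} (hK : 0 ≤ K) (h : K ≤ K') : rate m K ≤ rate m K' := by
  unfold rate
  have h1 : Real.exp (-(2 * (2 ^ m * K'))) ≤ Real.exp (-(2 * (2 ^ m * K))) :=
    Real.exp_le_exp.2 (by
      have : (2 : ℝ) ^ m * K ≤ 2 ^ m * K' := mul_le_mul_of_nonneg_left h (by positivity)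
      linarith)
  have h2 : Real.exp (-(2 * (2 ^ m * K))) ≤ 1 := Real.exp_le_one_iff.2 (by
    have : 0 ≤ 2 ^ m * K := by positivity
    linarith)
  exact pow_le_pow_left₀ (by linarith) (by linarith) 2

theorem SC.TTn {K : ℝ} (hK : 0 ≤ K) {Z : G → ℝ} (h : Adm Z) (hs : SC D K Z) {m : ℕ}
    (hg : Gen D m 1) : ∀ k, SC D (K * rate m K ^ k) (TTn μ Z k)
  | 0 => by simpa [Pool.Agent.N989.MK.TTn] using hs
  | k + 1 => by
    have h1 := SC.TTn hK h hs hg k
    have h0 := rate_nonneg m K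
    have h2 : 0 ≤ K * rate m K ^ k := mul_nonneg hK (pow_nonneg h0 k)
    have h3 : K * rate m K ^ k ≤ K := by
      have : rate m K ^ k ≤ 1 := pow_le_one₀ h0 (rate_lt m hK).le
      nlinarith
    have h4 := SC.TT (μ := μ) h2 (h.TTn k) h1 hg
    refine SC.mono ?_ h4
    have h5 : rate m (K * rate m K ^ k) ≤ rate m K := rate_mono m h2 h3
    calc _ = (K * rate m K ^ k) * rate m (K * rate m K ^ k) := rfl
      _ ≤ (K * rate m K ^ k) * rate m K := mul_le_mul_of_nonneg_left h5 h2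
      _ = _ := by rw [pow_succ]; ring

/-- after finitely many steps the deviations are small -/
theorem exists_small {m : ℕ} (hg : Gen D m 1) {K : ℝ} (hK : 0 ≤ K) : ∃ k0 : ℕ,
    ∀ Z : G → ℝ, Adm Z → SC D K Z → Sm μ (1 / 10) (TTn μ Z k0) := by
  have h0 := rate_nonneg m K
  have h1 : Tendsto (fun k : ℕ => 2 ^ m * (K * rate m K ^ k)) atTop (𝓝 (2 ^ m * (K * 0))) :=
    ((tendsto_pow_atTop_nhds_zero_of_lt_one h0 (rate_lt m hK)).const_mul K).const_mul _
  rw [mul_zero, mul_zero] at h1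
  obtain ⟨k0, hk0⟩ := (h1.eventually (gt_mem_nhds (show (0 : ℝ) < 1 / 20 by norm_num))).exists
  refine ⟨k0, fun Z hZ hs => ?_⟩
  have h2 := hs.TTn (μ := μ) hK hZ hg k0
  have h3 := hZ.TTn (μ := μ) k0
  have h4 : ∀ x y, Real.log (TTn μ Z k0 x) - Real.log (TTn μ Z k0 y) ≤ 1 / 20 := by
    intro x y
    have h5 := h2.osc zero_le_one hg (mul_nonneg hK (pow_nonneg h0 _)) h3.cont h3.pos x y
    rw [mul_one] at h5
    linarith
  have h6 := Sm.of_osc (μ := μ) (by norm_num) h3 h4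
  have e : (2 : ℝ) * (1 / 20) = 1 / 10 := by norm_num
  rwa [e] at h6

/-- superexponential convergence -/
theorem Sm.TTn {Z : G → ℝ} (h : Adm Z) (hs : Sm μ (1 / 10) Z) : ∀ k,
    Sm μ (10 / 21 * (21 / 100) ^ 4 ^ k) (TTn μ Z k)
  | 0 => by
    have e : (10 / 21 * (21 / 100) ^ 4 ^ 0 : ℝ) = 1 / 10 := by norm_num
    rw [e]; exact hs
  | k + 1 => by
    have h1 := Sm.TTn h hs k
    have h2 : (0 : ℝ) ≤ 10 / 21 * (21 / 100) ^ 4 ^ k := by positivity
    have h3 : (10 / 21 * (21 / 100) ^ 4 ^ k : ℝ) ≤ 1 / 10 := by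
      have h4 : ((21 / 100 : ℝ)) ^ 4 ^ k ≤ (21 / 100) ^ 1 :=
        pow_le_pow_of_le_one (by norm_num) (by norm_num) (Nat.one_le_pow _ _ (by norm_num))
      linarith
    have h5 := h1.TT h2 h3 (h.TTn k)
    have h6 : 9 * (10 / 21 * (21 / 100) ^ 4 ^ k : ℝ) ^ 4 ≤ 10 / 21 * (21 / 100) ^ 4 ^ (k + 1) := by
      have e : ((21 / 100 : ℝ)) ^ 4 ^ (k + 1) = ((21 / 100) ^ 4 ^ k) ^ 4 := by
        rw [← pow_mul, pow_succ]
      rw [e, mul_pow]
      have h7 : (0 : ℝ) ≤ ((21 / 100) ^ 4 ^ k) ^ 4 := by positivity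
      nlinarith
    intro x
    have h7 := h5 x
    refine h7.trans (mul_le_mul_of_nonneg_right h6 ?_)
    exact (h.TTn (μ := μ) (k + 1)).ipos.le

end

end Pool.Agent.N989.MK
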