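import Mathlib
import Pool.Agent.N989.MK.Loop
import Pool.Agent.N989.MK.Part2
import Pool.Agent.N989.MK.Strong

/-!
# Exponential clustering: the correlations of the plaquettes
-/

open MeasureTheory Pool.Agent.N991.MK

namespace Pool.Agent.N989.MK

set_option linter.unusedSectionVars false

noncomputable section

variable {G : Type*} [Group G] [TopologicalSpace G] [IsTopologicalGroup G] [CompactSpace G]
  [MeasurableSpace G] [BorelSpace G] [SecondCountableTopology G]
  {μ : Measure G} [IsProbabilityMeasure μ] [μ.IsHaarMeasure] [μ.IsMulRightInvariant]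
  [μ.IsInvInvariant]

theorem int_ZZ {n : ℕ} {w : Pq n → G → ℝ} (hw : ∀ p, Continuous (w p)) (hc : ∀ p, Cls (w p)) :
    ∫ U : Ed n → G, wtt w U ∂(Measure.pi fun _ => μ) = ∫ x, ZZ μ n w x ∂μ := by
  let φ : ((BE n → G) × (IE n → G)) →* (Ed n → G) :=
    { toFun := fun p => Sum.elim p.1 p.2
      map_one' := by
        funext e
        rcases e with e | e <;> rfl
      map_mul' := fun p q => by
        funext e
        rcases e with e | e <;> rfl }
  have hφ : Continuous φ := by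
    refine continuous_pi fun e => ?_
    rcases e with e | e
    · exact (continuous_apply e).comp continuous_fst
    · exact (continuous_apply e).comp continuous_snd
  have hs : Function.Surjective φ := fun I => ⟨(fun e => I (.inl e), fun e => I (.inr e)), by
    funext e
    rcases e with e | e <;> rfl⟩
  have i1 : (Measure.pi fun _ : BE n => μ).IsMulLeftInvariant := inferInstance
  have i2 : (Measure.pi fun _ : IE n => μ).IsMulLeftInvariant := inferInstance
  have i3 := Measure.prod.instIsMulLeftInvariant (μ := Measure.pi fun _ : BE n => μ)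
    (ν := Measure.pi fun _ : IE n => μ)
  have hmp := mp_hom ((Measure.pi fun _ : BE n => μ).prod (Measure.pi fun _ : IE n => μ))
    (Measure.pi fun _ : Ed n => μ) φ hφ hs
  rw [int_mp hmp (wtt_cont hw)]
  have hcs : Continuous fun p => wtt w (φ p) := (wtt_cont hw).comp hφ
  rw [integral_prod _ (hcs.integrable_of_hasCompactSupport
    (HasCompactSupport.of_compactSpace _))]
  have h1 : ∀ V : BE n → G, ∫ I : IE n → G, wtt w (φ (V, I))
      ∂(Measure.pi fun _ => μ) = ZZ μ n w (lp V) := fun V => Zbw_eq n hw hc V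
  simp only [h1]
  exact (int_mp (mp_lp (μ := μ) n) (F := fun x => ZZ μ n w x) (ZZ_cont n hw)).symm

/-! ### Estimates of convolutions -/

lemma conv_le {f g F H : G → ℝ} (hf : Continuous f) (hg : Continuous g) (hF : Continuous F)
    (hH : Continuous H) (h1 : ∀ x, |f x| ≤ F x) (h2 : ∀ x, |g x| ≤ H x) (x : G) :
    |conv μ f g x| ≤ conv μ F H x := by
  unfold conv
  have c1 : Continuous fun y => f y * g (y⁻¹ * x) := by fun_prop
  have c2 : Continuous fun y => F y * H (y⁻¹ * x) := by fun_prop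
  refine (abs_integral_le_integral_abs).trans ?_
  refine integral_mono (integrable_of_cont c1.abs) (integrable_of_cont c2) fun y => ?_
  show |f y * g (y⁻¹ * x)| ≤ F y * H (y⁻¹ * x)
  rw [abs_mul]
  exact mul_le_mul (h1 y) (h2 _) (abs_nonneg _) ((abs_nonneg _).trans (h1 y))

lemma conv_smul_left (a : ℝ) (f g : G → ℝ) (x : G) :
    conv μ (fun y => a * f y) g x = a * conv μ f g x := by
  unfold conv
  rw [← integral_const_mul]
  refine integral_congr_ae (Filter.Eventually.of_forall fun y => ?_)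
  beta_reduce
  ring

lemma conv_smul_right (a : ℝ) (f g : G → ℝ) (x : G) :
    conv μ f (fun y => a * g y) x = a * conv μ f g x := by
  unfold conv
  rw [← integral_const_mul]
  refine integral_congr_ae (Filter.Eventually.of_forall fun y => ?_)
  beta_reduce
  ring

lemma conv_sub_left {f f' g : G → ℝ} (hf : Continuous f) (hf' : Continuous f')
    (hg : Continuous g) (x : G) :
    conv μ (fun y => f y - f' y) g x = conv μ f g x - conv μ f' g x := by
  unfold conv
  have c1 : Continuous fun y => f y * g (y⁻¹ * x) := by fun_prop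
  have c2 : Continuous fun y => f' y * g (y⁻¹ * x) := by fun_prop
  rw [← integral_sub (integrable_of_cont c1) (integrable_of_cont c2)]
  refine integral_congr_ae (Filter.Eventually.of_forall fun y => ?_)
  beta_reduce
  ring

lemma conv_sub_right {f g g' : G → ℝ} (hf : Continuous f) (hg : Continuous g)
    (hg' : Continuous g') (x : G) :
    conv μ f (fun y => g y - g' y) x = conv μ f g x - conv μ f g' x := by
  unfold conv
  have c1 : Continuous fun y => f y * g (y⁻¹ * x) := by fun_prop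
  have c2 : Continuous fun y => f y * g' (y⁻¹ * x) := by fun_prop
  rw [← integral_sub (integrable_of_cont c1) (integrable_of_cont c2)]
  refine integral_congr_ae (Filter.Eventually.of_forall fun y => ?_)
  beta_reduce
  ring

/-- the telescoping estimate -/
lemma conv_tel {f g F H : G → ℝ} {k l e e' : ℝ} (hf : Continuous f) (hg : Continuous g)
    (hF : Continuous F) (hH : Continuous H) (h1 : ∀ x, |f x| ≤ F x) (hl : |l| ≤ 1)
    (h2 : ∀ x, |f x - k * F x| ≤ e * F x) (h3 : ∀ x, |g x - l * H x| ≤ e' * H x)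
    (hH0 : ∀ x, 0 ≤ H x) (x : G) :
    |conv μ f g x - k * l * conv μ F H x| ≤ (e + e') * conv μ F H x := by
  have c1 : Continuous fun x => k * F x := continuous_const.mul hF
  have c2 : Continuous fun x => l * H x := continuous_const.mul hH
  have e1 : conv μ f g x - k * l * conv μ F H x =
      conv μ f (fun y => g y - l * H y) x + l * conv μ (fun y => f y - k * F y) H x := by
    rw [conv_sub_right hf hg c2, conv_sub_left hf c1 hH, conv_smul_right, conv_smul_left]
    ring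
  rw [e1]
  refine (abs_add_le _ _).trans ?_
  have h4 : |conv μ f (fun y => g y - l * H y) x| ≤ e' * conv μ F H x := by
    have := conv_le (μ := μ) (f := f) (g := fun y => g y - l * H y) (F := F)
      (H := fun y => e' * H y) hf (hg.sub c2) hF (continuous_const.mul hH) h1 h3 x
    rwa [conv_smul_right] at this
  have h5 : |l * conv μ (fun y => f y - k * F y) H x| ≤ e * conv μ F H x := by
    rw [abs_mul]
    have h6 := conv_le (μ := μ) (f := fun y => f y - k * F y) (g := H)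
      (F := fun y => e * F y) (H := H) (hf.sub c1) hH (continuous_const.mul hF) hH h2
      (fun y => (abs_of_nonneg (hH0 y)).le) x
    rw [conv_smul_left] at h6
    calc |l| * |conv μ (fun y => f y - k * F y) H x| ≤ 1 * |conv μ (fun y => f y - k * F y) H x| :=
          mul_le_mul_of_nonneg_right hl (abs_nonneg _)
      _ ≤ _ := by rw [one_mul]; exact h6
  linarith

/-- telescoping of products of numbers -/
lemma mul_tel {X Y X' Y' k l e e' : ℝ} (h1 : |X| ≤ Y) (hl : |l| ≤ 1)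
    (h2 : |X - k * Y| ≤ e * Y) (h3 : |X' - l * Y'| ≤ e' * Y') (hY' : 0 ≤ Y') :
    |X * X' - k * l * (Y * Y')| ≤ (e + e') * (Y * Y') := by
  have e1 : X * X' - k * l * (Y * Y') = X * (X' - l * Y') + l * (X - k * Y) * Y' := by ring
  rw [e1]
  refine (abs_add_le _ _).trans ?_
  have hY : 0 ≤ Y := (abs_nonneg _).trans h1
  have h4 : |X * (X' - l * Y')| ≤ Y * (e' * Y') := by
    rw [abs_mul]
    exact mul_le_mul h1 h3 (abs_nonneg _) hY
  have h5 : |l * (X - k * Y) * Y'| ≤ 1 * (e * Y) * Y' := by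
    rw [abs_mul, abs_mul, abs_of_nonneg hY']
    refine mul_le_mul_of_nonneg_right ?_ hY'
    exact mul_le_mul hl h2 (abs_nonneg _) zero_le_one
  nlinarith

lemma c4_le {A B : Fin 4 → G → ℝ} (hA : ∀ i, Continuous (A i)) (hB : ∀ i, Continuous (B i))
    (h : ∀ i x, |A i x| ≤ B i x) (x : G) : |c4 μ A x| ≤ c4 μ B x :=
  conv_le (cont_conv (hA 0) (hA 1)) (cont_conv (hA 2) (hA 3)) (cont_conv (hB 0) (hB 1))
    (cont_conv (hB 2) (hB 3)) (conv_le (hA 0) (hA 1) (hB 0) (hB 1) (h 0) (h 1))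
    (conv_le (hA 2) (hA 3) (hB 2) (hB 3) (h 2) (h 3)) x

lemma conv_nonneg' {f g : G → ℝ} (hf : ∀ x, 0 ≤ f x) (hg : ∀ x, 0 ≤ g x) (x : G) :
    0 ≤ conv μ f g x := integral_nonneg fun y => mul_nonneg (hf y) (hg _)

/-- telescoping for the fourfold convolution -/
lemma c4_tel {A : Fin 4 → G → ℝ} {Z : G → ℝ} (hA : ∀ i, Continuous (A i)) (hZ : Continuous Z)
    (hZ0 : ∀ x, 0 ≤ Z x) (h : ∀ i x, |A i x| ≤ Z x) {k e : Fin 4 → ℝ} (hk : ∀ i, |k i| ≤ 1)
    (h2 : ∀ i x, |A i x - k i * Z x| ≤ e i * Z x) (x : G) :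
    |c4 μ A x - (∏ i, k i) * c4 μ (fun _ => Z) x| ≤ (∑ i, e i) * c4 μ (fun _ => Z) x := by
  have h3 := conv_tel (μ := μ) (hA 0) (hA 1) hZ hZ (h 0) (hk 1) (h2 0) (h2 1) hZ0
  have h4 := conv_tel (μ := μ) (hA 2) (hA 3) hZ hZ (h 2) (hk 3) (h2 2) (h2 3) hZ0
  have h5 := conv_tel (μ := μ) (cont_conv (hA 0) (hA 1)) (cont_conv (hA 2) (hA 3))
    (cont_conv hZ hZ) (cont_conv hZ hZ) (conv_le (hA 0) (hA 1) hZ hZ (h 0) (h 1))
    (by rw [abs_mul]; exact mul_le_one₀ (hk 2) (abs_nonneg _) (hk 3)) h3 h4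
    (conv_nonneg' hZ0 hZ0) x
  rw [Fin.prod_univ_four, Fin.sum_univ_four]
  have e1 : k 0 * k 1 * k 2 * k 3 = k 0 * k 1 * (k 2 * k 3) := by ring
  have e2 : e 0 + e 1 + e 2 + e 3 = e 0 + e 1 + (e 2 + e 3) := by ring
  rw [e1, e2]
  exact h5

/-- telescoping for the products over the sheets -/
lemma prod_tel {X Y k e : Fin 4 → ℝ} (h1 : ∀ i, |X i| ≤ Y i) (hk : ∀ i, |k i| ≤ 1)
    (h2 : ∀ i, |X i - k i * Y i| ≤ e i * Y i) :
    |(∏ i, X i) - (∏ i, k i) * ∏ i, Y i| ≤ (∑ i, e i) * ∏ i, Y i := by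
  have hY : ∀ i, 0 ≤ Y i := fun i => (abs_nonneg _).trans (h1 i)
  have h3 := mul_tel (h1 0) (hk 1) (h2 0) (h2 1) (hY 1)
  have h4 := mul_tel (h1 2) (hk 3) (h2 2) (h2 3) (hY 3)
  have h5 := mul_tel (X := X 0 * X 1) (Y := Y 0 * Y 1)
    (by rw [abs_mul]; exact mul_le_mul (h1 0) (h1 1) (abs_nonneg _) (hY 0))
    (by rw [abs_mul]; exact mul_le_one₀ (hk 2) (abs_nonneg _) (hk 3)) h3 h4
    (mul_nonneg (hY 2) (hY 3))
  rw [Fin.prod_univ_four, Fin.prod_univ_four, Fin.prod_univ_four, Fin.sum_univ_four]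
  have e1 : X 0 * X 1 * X 2 * X 3 = X 0 * X 1 * (X 2 * X 3) := by ring
  have e2 : e 0 + e 1 + e 2 + e 3 = e 0 + e 1 + (e 2 + e 3) := by ring
  have e3 : k 0 * k 1 * k 2 * k 3 = k 0 * k 1 * (k 2 * k 3) := by ring
  have e4 : Y 0 * Y 1 * Y 2 * Y 3 = Y 0 * Y 1 * (Y 2 * Y 3) := by ring
  rw [e1, e2, e3, e4]
  exact h5

/-- a convolution with an almost constant function -/
lemma conv_near {f g : G → ℝ} {m e M : ℝ} (hf : Continuous f) (hg : Continuous g)
    (h1 : ∀ x, |f x - m| ≤ e) (hM : ∫ x, |g x| ∂μ ≤ M) (x : G) :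
    |conv μ f g x - m * ∫ y, g y ∂μ| ≤ e * M := by
  have he : 0 ≤ e := (abs_nonneg _).trans (h1 1)
  have h2 : conv μ f g x - m * ∫ y, g y ∂μ = conv μ (fun y => f y - m) g x := by
    have c1 : Continuous fun _ : G => m := continuous_const
    rw [conv_sub_left hf c1 hg]
    congr 1
    unfold conv
    rw [integral_const_mul]
    congr 1
    rw [integral_inv_eq_self (μ := μ) (fun y => g (y * x))]
    exact (integral_mul_right_eq_self (μ := μ) g x).symm
  rw [h2]
  have h3 := conv_le (μ := μ) (hf.sub continuous_const) hg (continuous_const : Continuous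
    fun _ : G => e) hg.abs h1 (fun y => le_rfl) x
  refine h3.trans ?_
  unfold conv
  rw [integral_const_mul]
  have h4 : ∫ y, |g (y⁻¹ * x)| ∂μ = ∫ y, |g y| ∂μ := by
    rw [integral_inv_eq_self (μ := μ) (fun y => |g (y * x)|)]
    exact integral_mul_right_eq_self (μ := μ) (fun y => |g y|) x
  rw [h4]
  exact mul_le_mul_of_nonneg_left hM he

/-- the basic decoupling estimate -/
lemma c4_base {A : Fin 4 → G → ℝ} {Z : G → ℝ} (hA : ∀ i, Continuous (A i))
    (hAc : ∀ i, Cls (A i)) (hZ : Adm Z) (h : ∀ i x, |A i x| ≤ Z x) {a : ℝ} (hs : Sm μ a Z)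
    (i0 : Fin 4) (hi0 : A i0 = Z) (x : G) :
    |c4 μ A x - ∏ i, ∫ y, A i y ∂μ| ≤ a * (∫ y, Z y ∂μ) ^ 4 := by
  set I := ∫ y, Z y ∂μ with hI
  have hI0 : 0 < I := hZ.ipos
  have hM : ∀ i, ∫ y, |A i y| ∂μ ≤ I := fun i =>
    integral_mono (integrable_of_cont (hA i).abs) hZ.integrable (h i)
  have hMI : ∀ i, |∫ y, A i y ∂μ| ≤ I := fun i =>
    (abs_integral_le_integral_abs).trans (hM i)
  have hs' : ∀ x, |Z x - I| ≤ a * I := hs
  have ha : 0 ≤ a * I := (abs_nonneg _).trans (hs' 1)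
  -- a convolution of two functions of the family
  have hM2 : ∀ i j, ∫ y, |conv μ (A i) (A j) y| ∂μ ≤ I * I := by
    intro i j
    have h1 : ∫ y, |conv μ (A i) (A j) y| ∂μ ≤ ∫ y, conv μ Z Z y ∂μ :=
      integral_mono (integrable_of_cont (cont_conv (hA i) (hA j)).abs)
        (integrable_of_cont (cont_conv hZ.cont hZ.cont))
        (conv_le (hA i) (hA j) hZ.cont hZ.cont (h i) (h j))
    rwa [int_conv hZ.cont hZ.cont] at h1
  -- the main case
  have main : ∀ i j k l : Fin 4, A i = Z →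
      |conv μ (conv μ (A i) (A j)) (conv μ (A k) (A l)) x -
        (∫ y, A i y ∂μ) * (∫ y, A j y ∂μ) * ((∫ y, A k y ∂μ) * ∫ y, A l y ∂μ)| ≤
        a * I ^ 4 := by
    intro i j k l hi
    have h1 : ∀ x, |conv μ (A i) (A j) x - I * ∫ y, A j y ∂μ| ≤ a * I * I := by
      intro x
      rw [hi]
      exact conv_near hZ.cont (hA j) hs' (hM j) x
    have h2 := conv_near (cont_conv (hA i) (hA j)) (cont_conv (hA k) (hA l)) h1 (hM2 k l) x
    rw [int_conv (hA k) (hA l)] at h2
    have h3 : ∫ y, A i y ∂μ = I := by rw [hi]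
    rw [h3]
    refine h2.trans (le_of_eq ?_)
    ring
  have hcomm : ∀ i j, conv μ (A i) (A j) = conv μ (A j) (A i) := fun i j =>
    conv_comm (hAc i) (hAc j)
  have hcomm2 : ∀ i j k l, conv μ (conv μ (A i) (A j)) (conv μ (A k) (A l)) =
      conv μ (conv μ (A k) (A l)) (conv μ (A i) (A j)) := fun i j k l =>
    conv_comm (conv_cls (hAc i) (hAc j)) (conv_cls (hAc k) (hAc l))
  unfold c4
  rw [Fin.prod_univ_four]
  fin_cases i0
  · have := main 0 1 2 3 hi0
    refine (le_of_eq ?_).trans this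
    congr 1
    ring
  · have := main 1 0 2 3 hi0
    rw [hcomm 1 0] at this
    refine (le_of_eq ?_).trans this
    congr 1
    ring
  · have := main 2 3 0 1 hi0
    rw [hcomm2 2 3 0 1] at this
    refine (le_of_eq ?_).trans this
    congr 1
    ring
  · have := main 3 2 0 1 hi0
    rw [hcomm 3 2, hcomm2 2 3 0 1] at this
    refine (le_of_eq ?_).trans this
    congr 1
    ring

/-- the decoupling of a sheet -/
lemma c4_dec {A : Fin 4 → G → ℝ} {Z : G → ℝ} (hA : ∀ i, Continuous (A i))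
    (hAc : ∀ i, Cls (A i)) (hZ : Adm Z) (h : ∀ i x, |A i x| ≤ Z x) {a : ℝ} (ha1 : a ≤ 1 / 10)
    (hs : Sm μ a Z) (i0 : Fin 4) (hi0 : A i0 = Z) (x : G) :
    |c4 μ A x - (∏ i, (∫ y, A i y ∂μ) / ∫ y, Z y ∂μ) * c4 μ (fun _ => Z) x| ≤
      3 * a * c4 μ (fun _ => Z) x := by
  set I := ∫ y, Z y ∂μ with hI
  have hI0 : 0 < I := hZ.ipos
  have hs' : ∀ x, |Z x - I| ≤ a * I := hs
  have ha : 0 ≤ a := by
    have h1 := (abs_nonneg _).trans (hs' 1)
    exact nonneg_of_mul_nonneg_left h1 hI0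
  have h1 := c4_base hA hAc hZ h hs i0 hi0 x
  have h2 := c4_base (μ := μ) (A := fun _ => Z) (fun _ => hZ.cont) (fun _ => hZ.cls) hZ
    (fun _ y => (abs_of_pos (hZ.pos y)).le) hs 0 rfl x
  rw [Finset.prod_const, Finset.card_univ, Fintype.card_fin] at h2
  rw [← hI] at h1 h2
  set κ := ∏ i, (∫ y, A i y ∂μ) / I with hκ
  have e1 : ∏ i, ∫ y, A i y ∂μ = κ * I ^ 4 := by
    rw [hκ, Finset.prod_div_distrib, Finset.prod_const, Finset.card_univ, Fintype.card_fin]
    field_simp
  rw [e1] at h1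
  have hκ1 : |κ| ≤ 1 := by
    rw [hκ, Finset.abs_prod]
    refine Finset.prod_le_one (fun i _ => abs_nonneg _) fun i _ => ?_
    rw [abs_div, abs_of_pos hI0, div_le_one hI0]
    refine (abs_integral_le_integral_abs).trans ?_
    exact integral_mono (integrable_of_cont (hA i).abs) hZ.integrable (h i)
  have h3 : |c4 μ A x - κ * c4 μ (fun _ => Z) x| ≤ 2 * (a * I ^ 4) := by
    have e2 : c4 μ A x - κ * c4 μ (fun _ => Z) x =
        (c4 μ A x - κ * I ^ 4) - κ * (c4 μ (fun _ => Z) x - I ^ 4) := by ring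
    rw [e2]
    refine (abs_sub _ _).trans ?_
    rw [abs_mul]
    have h4 : |κ| * |c4 μ (fun _ => Z) x - I ^ 4| ≤ 1 * (a * I ^ 4) :=
      mul_le_mul hκ1 h2 (abs_nonneg _) zero_le_one
    linarith
  refine h3.trans ?_
  have h4 := (abs_le.1 h2).1
  have h5 : 9 / 10 * I ^ 4 ≤ c4 μ (fun _ => Z) x := by
    have : a * I ^ 4 ≤ 1 / 10 * I ^ 4 := mul_le_mul_of_nonneg_right ha1 (by positivity)
    linarith
  have h6 := mul_le_mul_of_nonneg_left h5 ha
  nlinarith [mul_nonneg ha (pow_nonneg hI0.le 4)]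

/-! ### Insertions -/

/-- the partition function with the insertion `F` -/
def WF (μ : Measure G) (Z : G → ℝ) (n : ℕ) (F : Pq n → G → ℝ) : G → ℝ :=
  ZZ μ n fun p x => Z x * F p x

/-- admissible insertions -/
structure Ins {n : ℕ} (F : Pq n → G → ℝ) : Prop where
  c : ∀ p, Continuous (F p)
  l : ∀ p, Cls (F p)
  b : ∀ p x, |F p x| ≤ 1

lemma Ins.sub {n : ℕ} {F : Pq (n + 1) → G → ℝ} (h : Ins F) (s r : Fin 4) :
    Ins (fun p : Pq n => F (s, r, p)) :=
  ⟨fun p => h.c (s, r, p), fun p => h.l (s, r, p), fun p => h.b (s, r, p)⟩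

lemma Ins.mul {n : ℕ} {F F' : Pq n → G → ℝ} (h : Ins F) (h' : Ins F') :
    Ins (fun p x => F p x * F' p x) :=
  ⟨fun p => (h.c p).mul (h'.c p), fun p g x => by
    beta_reduce; rw [h.l p g x, h'.l p g x], fun p x => by
    rw [abs_mul]
    exact mul_le_one₀ (h.b p x) (abs_nonneg _) (h'.b p x)⟩

variable {Z : G → ℝ}

lemma WF_cont (hZ : Adm Z) {n : ℕ} {F : Pq n → G → ℝ} (h : Ins F) : Continuous (WF μ Z n F) :=
  ZZ_cont n fun p => hZ.cont.mul (h.c p)

lemma WF_cls (hZ : Adm Z) {n : ℕ} {F : Pq n → G → ℝ} (h : Ins F) : Cls (WF μ Z n F) :=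
  ZZ_cls n fun p g x => by beta_reduce; rw [hZ.cls, h.l p]

lemma WF_one : ∀ n : ℕ, ∀ F : Pq n → G → ℝ, (∀ p x, F p x = 1) → WF μ Z n F = TTn μ Z n
  | 0, F, hF => by
    funext x
    change Z x * F () x = Z x
    rw [hF () x, mul_one]
  | n + 1, F, hF => by
    funext x
    have h1 : ∀ s r : Fin 4, WF μ Z n (fun p => F (s, r, p)) = TTn μ Z n := fun s r =>
      WF_one n _ fun p x => hF (s, r, p) x
    change ∏ s : Fin 4, c4 μ (fun r => WF μ Z n (fun p => F (s, r, p))) x = _
    simp only [h1]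
    rw [Finset.prod_const, Finset.card_univ, Fintype.card_fin]
    rfl

lemma WF_le (hZ : Adm Z) : ∀ n : ℕ, ∀ F : Pq n → G → ℝ, Ins F → ∀ x,
    |WF μ Z n F x| ≤ TTn μ Z n x
  | 0, F, hF, x => by
    change |Z x * F () x| ≤ Z x
    rw [abs_mul, abs_of_pos (hZ.pos x)]
    have := mul_le_mul_of_nonneg_left (hF.b () x) (hZ.pos x).le
    linarith
  | n + 1, F, hF, x => by
    change |∏ s : Fin 4, c4 μ (fun r => WF μ Z n (fun p => F (s, r, p))) x| ≤
      (c4 μ (fun _ => TTn μ Z n) x) ^ 4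
    rw [Finset.abs_prod]
    have h1 : ∀ s : Fin 4, |c4 μ (fun r => WF μ Z n (fun p => F (s, r, p))) x| ≤
        c4 μ (fun _ => TTn μ Z n) x := fun s =>
      c4_le (fun r => WF_cont hZ (hF.sub s r)) (fun r => (hZ.TTn n).cont)
        (fun r y => WF_le hZ n _ (hF.sub s r) y) x
    refine (Finset.prod_le_prod (fun s _ => abs_nonneg _) fun s _ => h1 s).trans ?_
    rw [Finset.prod_const, Finset.card_univ, Fintype.card_fin]

lemma prod_single {f : Fin 4 → Fin 4 → ℝ} (s0 r0 : Fin 4)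
    (h : ∀ s r, ¬(s = s0 ∧ r = r0) → f s r = 1) : ∏ s, ∏ r, f s r = f s0 r0 := by
  rw [Finset.prod_eq_single s0 (fun s _ hs => Finset.prod_eq_one fun r _ => h s r fun hh =>
    hs hh.1) (fun hh => absurd (Finset.mem_univ _) hh),
    Finset.prod_eq_single r0 (fun r _ hr => h s0 r fun hh => hr hh.2)
    (fun hh => absurd (Finset.mem_univ _) hh)]

lemma sum_single' {f : Fin 4 → Fin 4 → ℝ} (s0 r0 : Fin 4)
    (h : ∀ s r, ¬(s = s0 ∧ r = r0) → f s r = 0) : ∑ s, ∑ r, f s r = f s0 r0 := by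
  rw [Finset.sum_eq_single s0 (fun s _ hs => Finset.sum_eq_zero fun r _ => h s r fun hh =>
    hs hh.1) (fun hh => absurd (Finset.mem_univ _) hh),
    Finset.sum_eq_single r0 (fun r _ hr => h s0 r fun hh => hr hh.2)
    (fun hh => absurd (Finset.mem_univ _) hh)]

/-- the step of the induction: all insertions in one block -/
lemma block_step (hZ : Adm Z) {n : ℕ} {F : Pq (n + 1) → G → ℝ} (hF : Ins F) (s0 r0 : Fin 4)
    (h1 : ∀ s r, ¬(s = s0 ∧ r = r0) → ∀ p x, F (s, r, p) x = 1) {κ e : ℝ} (hκ : |κ| ≤ 1)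
    (h2 : ∀ x, |WF μ Z n (fun p => F (s0, r0, p)) x - κ * TTn μ Z n x| ≤ e * TTn μ Z n x)
    (x : G) : |WF μ Z (n + 1) F x - κ * TTn μ Z (n + 1) x| ≤ e * TTn μ Z (n + 1) x := by
  have hA := hZ.TTn (μ := μ) n
  set k : Fin 4 → Fin 4 → ℝ := fun s r => if s = s0 ∧ r = r0 then κ else 1 with hk
  set ε : Fin 4 → Fin 4 → ℝ := fun s r => if s = s0 ∧ r = r0 then e else 0 with hε
  have hk1 : ∀ s r, |k s r| ≤ 1 := by
    intro s r
    rw [hk]
    beta_reduce
    split_ifs
    · exact hκ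
    · simp
  have hb : ∀ s r y, |WF μ Z n (fun p => F (s, r, p)) y - k s r * TTn μ Z n y| ≤
      ε s r * TTn μ Z n y := by
    intro s r y
    rw [hk, hε]
    beta_reduce
    split_ifs with h
    · rw [h.1, h.2]
      exact h2 y
    · rw [WF_one n _ (h1 s r h)]
      simp
  have h3 : ∀ s, |c4 μ (fun r => WF μ Z n (fun p => F (s, r, p))) x -
      (∏ r, k s r) * c4 μ (fun _ => TTn μ Z n) x| ≤
      (∑ r, ε s r) * c4 μ (fun _ => TTn μ Z n) x := fun s =>
    c4_tel (fun r => WF_cont hZ (hF.sub s r)) hA.cont (fun y => (hA.pos y).le)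
      (fun r y => WF_le hZ n _ (hF.sub s r) y) (hk1 s) (hb s) x
  have h4 : ∀ s : Fin 4, |c4 μ (fun r => WF μ Z n (fun p => F (s, r, p))) x| ≤
      c4 μ (fun _ => TTn μ Z n) x := fun s =>
    c4_le (fun r => WF_cont hZ (hF.sub s r)) (fun r => hA.cont)
      (fun r y => WF_le hZ n _ (hF.sub s r) y) x
  have h5 := prod_tel (X := fun s => c4 μ (fun r => WF μ Z n (fun p => F (s, r, p))) x)
    (Y := fun _ => c4 μ (fun _ => TTn μ Z n) x) (k := fun s => ∏ r, k s r)
    (e := fun s => ∑ r, ε s r) h4 (fun s => by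
      rw [Finset.abs_prod]
      exact Finset.prod_le_one (fun r _ => abs_nonneg _) fun r _ => hk1 s r) h3
  rw [prod_single (f := k) s0 r0 (fun s r h => by rw [hk]; beta_reduce; rw [if_neg h]),
    sum_single' (f := ε) s0 r0 (fun s r h => by rw [hε]; beta_reduce; rw [if_neg h]),
    Finset.prod_const, Finset.card_univ, Fintype.card_fin] at h5
  have e1 : k s0 r0 = κ := by rw [hk]; simp
  have e2 : ε s0 r0 = e := by rw [hε]; simp
  rw [e1, e2] at h5
  exact h5

/-- the decoupling of the blocks -/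
lemma block_dec (hZ : Adm Z) {n : ℕ} {F : Pq (n + 1) → G → ℝ} (hF : Ins F) {a : ℝ}
    (ha1 : a ≤ 1 / 10) (hs : Sm μ a (TTn μ Z n))
    (h1 : ∀ s, ∃ r, ∀ p x, F (s, r, p) x = 1) (x : G) :
    |WF μ Z (n + 1) F x - (∏ s, ∏ r, (∫ y, WF μ Z n (fun p => F (s, r, p)) y ∂μ) /
      ∫ y, TTn μ Z n y ∂μ) * TTn μ Z (n + 1) x| ≤ 12 * a * TTn μ Z (n + 1) x := by
  have hA := hZ.TTn (μ := μ) n
  set I := ∫ y, TTn μ Z n y ∂μ with hI
  have hI0 : 0 < I := hA.ipos
  have h3 : ∀ s, |c4 μ (fun r => WF μ Z n (fun p => F (s, r, p))) x -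
      (∏ r, (∫ y, WF μ Z n (fun p => F (s, r, p)) y ∂μ) / I) * c4 μ (fun _ => TTn μ Z n) x| ≤
      3 * a * c4 μ (fun _ => TTn μ Z n) x := fun s => by
    obtain ⟨r, hr⟩ := h1 s
    exact c4_dec (fun r => WF_cont hZ (hF.sub s r)) (fun r => WF_cls hZ (hF.sub s r)) hA
      (fun r y => WF_le hZ n _ (hF.sub s r) y) ha1 hs r (WF_one n _ hr) x
  have h4 : ∀ s : Fin 4, |c4 μ (fun r => WF μ Z n (fun p => F (s, r, p))) x| ≤
      c4 μ (fun _ => TTn μ Z n) x := fun s =>
    c4_le (fun r => WF_cont hZ (hF.sub s r)) (fun r => hA.cont)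
      (fun r y => WF_le hZ n _ (hF.sub s r) y) x
  have hk1 : ∀ s r, |(∫ y, WF μ Z n (fun p => F (s, r, p)) y ∂μ) / I| ≤ 1 := by
    intro s r
    rw [abs_div, abs_of_pos hI0, div_le_one hI0]
    refine (abs_integral_le_integral_abs).trans ?_
    exact integral_mono (integrable_of_cont (WF_cont hZ (hF.sub s r)).abs) hA.integrable
      (fun y => WF_le hZ n _ (hF.sub s r) y)
  have h5 := prod_tel (X := fun s => c4 μ (fun r => WF μ Z n (fun p => F (s, r, p))) x)
    (Y := fun _ => c4 μ (fun _ => TTn μ Z n) x)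
    (k := fun s => ∏ r, (∫ y, WF μ Z n (fun p => F (s, r, p)) y ∂μ) / I)
    (e := fun _ => 3 * a) h4 (fun s => by
      rw [Finset.abs_prod]
      exact Finset.prod_le_one (fun r _ => abs_nonneg _) fun r _ => hk1 s r) h3
  rw [Finset.prod_const, Finset.card_univ, Fintype.card_fin, Finset.sum_const,
    Finset.card_univ, Fintype.card_fin] at h5
  have e1 : (4 : ℕ) • (3 * a) = 12 * a := by
    rw [nsmul_eq_mul]; push_cast; ring
  rw [e1] at h5
  exact h5

lemma third : ∀ r0 r1 : Fin 4, ∃ r : Fin 4, r ≠ r0 ∧ r ≠ r1 := by decide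

/-- **Decoupling of two insertions** -/
theorem clus (hZ : Adm Z) {a : ℝ} (ha1 : a ≤ 1 / 10) {j : ℕ} (hs : Sm μ a (TTn μ Z j)) :
    ∀ (n : ℕ) (p q : Pq n) (F F' : Pq n → G → ℝ), Ins F → Ins F' →
      (∀ p', p' ≠ p → ∀ x, F p' x = 1) → (∀ q', q' ≠ q → ∀ x, F' q' x = 1) →
      anc n p q = j + 1 →
      ∃ κ l : ℝ, |κ| ≤ 1 ∧ |l| ≤ 1 ∧
        (∀ x, |WF μ Z n (fun p x => F p x * F' p x) x - κ * l * TTn μ Z n x| ≤
          12 * a * TTn μ Z n x) ∧
        (∀ x, |WF μ Z n F x - κ * TTn μ Z n x| ≤ 12 * a * TTn μ Z n x) ∧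
        (∀ x, |WF μ Z n F' x - l * TTn μ Z n x| ≤ 12 * a * TTn μ Z n x)
  | 0, p, q, F, F', hF, hF', h1, h2, hj => by
    simp [anc] at hj
  | n + 1, (s0, r0, p), (s1, r1, q), F, F', hF, hF', h1, h2, hj => by
    have g1 : ∀ s r, ¬(s = s0 ∧ r = r0) → ∀ p' x, F (s, r, p') x = 1 := by
      intro s r h p' x
      refine h1 (s, r, p') ?_ x
      rintro hh
      have e1 := congrArg (fun y : Fin 4 × Fin 4 × Pq n => y.1) hh
      have e2 := congrArg (fun y : Fin 4 × Fin 4 × Pq n => y.2.1) hh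
      exact h ⟨e1, e2⟩
    have g2 : ∀ s r, ¬(s = s1 ∧ r = r1) → ∀ p' x, F' (s, r, p') x = 1 := by
      intro s r h p' x
      refine h2 (s, r, p') ?_ x
      rintro hh
      have e1 := congrArg (fun y : Fin 4 × Fin 4 × Pq n => y.1) hh
      have e2 := congrArg (fun y : Fin 4 × Fin 4 × Pq n => y.2.1) hh
      exact h ⟨e1, e2⟩
    by_cases hsame : s0 = s1 ∧ r0 = r1
    · obtain ⟨rfl, rfl⟩ := hsame
      have hj' : anc n p q = j + 1 := by
        simpa [anc] using hj
      obtain ⟨κ, l, k1, k2, k3, k4, k5⟩ := clus hZ ha1 hs n p q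
        (fun p' => F (s0, r0, p')) (fun p' => F' (s0, r0, p')) (hF.sub s0 r0) (hF'.sub s0 r0)
        (fun p' hp' x => h1 (s0, r0, p') (fun hh => hp' (by
          have := congrArg (fun y : Fin 4 × Fin 4 × Pq n => y.2.2) hh
          exact this)) x)
        (fun p' hp' x => h2 (s0, r0, p') (fun hh => hp' (by
          have := congrArg (fun y : Fin 4 × Fin 4 × Pq n => y.2.2) hh
          exact this)) x) hj'
      refine ⟨κ, l, k1, k2, fun x => ?_, fun x => ?_, fun x => ?_⟩
      · refine block_step hZ (hF.mul hF') s0 r0 (fun s r h p' x => ?_)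
          (by rw [abs_mul]; exact mul_le_one₀ k1 (abs_nonneg _) k2) k3 x
        beta_reduce
        rw [g1 s r h, g2 s r h, mul_one]
      · exact block_step hZ hF s0 r0 g1 k1 k4 x
      · exact block_step hZ hF' s0 r0 g2 k2 k5 x
    · have hj' : j = n := by
        simp only [anc, if_neg hsame] at hj
        omega
      subst hj'
      have hA := hZ.TTn (μ := μ) j
      set I := ∫ y, TTn μ Z j y ∂μ with hI
      have hI0 : 0 < I := hA.ipos
      have hk1 : ∀ (F : Pq (j + 1) → G → ℝ), Ins F → ∀ s r,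
          |(∫ y, WF μ Z j (fun p => F (s, r, p)) y ∂μ) / I| ≤ 1 := by
        intro F hF s r
        rw [abs_div, abs_of_pos hI0, div_le_one hI0]
        refine (abs_integral_le_integral_abs).trans ?_
        exact integral_mono (integrable_of_cont (WF_cont hZ (hF.sub s r)).abs) hA.integrable
          (fun y => WF_le hZ j _ (hF.sub s r) y)
      have hone : ∀ (F : Pq (j + 1) → G → ℝ) s r, (∀ p x, F (s, r, p) x = 1) →
          (∫ y, WF μ Z j (fun p => F (s, r, p)) y ∂μ) / I = 1 := by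
        intro F s r h
        rw [WF_one j _ h]
        exact div_self hI0.ne'
      -- every sheet has an empty block
      have hex : ∀ s, ∃ r, (∀ p x, F (s, r, p) x = 1) ∧ (∀ p x, F' (s, r, p) x = 1) := by
        intro s
        obtain ⟨r, hr0, hr1⟩ := third r0 r1
        exact ⟨r, g1 s r fun h => hr0 h.2, g2 s r fun h => hr1 h.2⟩
      refine ⟨(∫ y, WF μ Z j (fun p => F (s0, r0, p)) y ∂μ) / I,
        (∫ y, WF μ Z j (fun p => F' (s1, r1, p)) y ∂μ) / I, hk1 F hF s0 r0, hk1 F' hF' s1 r1,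
        fun x => ?_, fun x => ?_, fun x => ?_⟩
      · have h3 := block_dec hZ (hF.mul hF') ha1 hs (fun s => by
          obtain ⟨r, hr, hr'⟩ := hex s
          exact ⟨r, fun p x => by beta_reduce; rw [hr, hr', mul_one]⟩) x
        have h4 : ∀ s r, (∫ y, WF μ Z j (fun p x => F (s, r, p) x * F' (s, r, p) x) y ∂μ) / I =
            ((∫ y, WF μ Z j (fun p => F (s, r, p)) y ∂μ) / I) *
              ((∫ y, WF μ Z j (fun p => F' (s, r, p)) y ∂μ) / I) := by
          intro s r
          by_cases hc0 : s = s0 ∧ r = r0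
          · have hc1 : ¬(s = s1 ∧ r = r1) := by
              rintro ⟨e1, e2⟩
              exact hsame ⟨hc0.1.symm.trans e1, hc0.2.symm.trans e2⟩
            rw [hone F' s r (g2 s r hc1), mul_one]
            congr 2
            have : (fun (p : Pq j) x => F (s, r, p) x * F' (s, r, p) x) =
                fun p => F (s, r, p) := by
              funext p x
              rw [g2 s r hc1, mul_one]
            rw [this]
          · rw [hone F s r (g1 s r hc0), one_mul]
            congr 2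
            have : (fun (p : Pq j) x => F (s, r, p) x * F' (s, r, p) x) =
                fun p => F' (s, r, p) := by
              funext p x
              rw [g1 s r hc0, one_mul]
            rw [this]
        have h5 : (∏ s, ∏ r, (∫ y, WF μ Z j (fun p x => F (s, r, p) x * F' (s, r, p) x) y ∂μ) /
            I) = ((∫ y, WF μ Z j (fun p => F (s0, r0, p)) y ∂μ) / I) *
              ((∫ y, WF μ Z j (fun p => F' (s1, r1, p)) y ∂μ) / I) := by
          simp only [h4, Finset.prod_mul_distrib]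
          rw [prod_single s0 r0 (fun s r h => hone F s r (g1 s r h)),
            prod_single s1 r1 (fun s r h => hone F' s r (g2 s r h))]
        rw [← hI, h5] at h3
        exact h3
      · have h3 := block_dec hZ hF ha1 hs (fun s => by
          obtain ⟨r, hr, -⟩ := hex s
          exact ⟨r, hr⟩) x
        rw [← hI, prod_single s0 r0 (fun s r h => hone F s r (g1 s r h))] at h3
        exact h3
      · have h3 := block_dec hZ hF' ha1 hs (fun s => by
          obtain ⟨r, -, hr⟩ := hex s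
          exact ⟨r, hr⟩) x
        rw [← hI, prod_single s1 r1 (fun s r h => hone F' s r (g2 s r h))] at h3
        exact h3

end

end Pool.Agent.N989.MK
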