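import Mathlib
import Pool.Agent.N989.MK.Push
import Pool.Agent.N991.MK.Conv

/-!
# Positive definite functions on a compact group
-/

open MeasureTheory Pool.Agent.N991.MK

namespace Pool.Agent.N989.MK

set_option linter.unusedSectionVars false

noncomputable section

/-- positive definite functions -/
def PDf {G : Type*} [Group G] (f : G → ℝ) : Prop :=
  ∀ (k : ℕ) (x : Fin k → G), (Matrix.of fun i j => f ((x i)⁻¹ * x j)).PosSemidef

section

variable {G : Type*} [Group G]

lemma PDf.mul {f g : G → ℝ} (hf : PDf f) (hg : PDf g) : PDf (fun x => f x * g x) := fun k x => by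
  have h := (hf k x).hadamard (hg k x)
  exact h

lemma PDf.one : PDf (fun _ : G => (1 : ℝ)) := fun k x => by
  rw [Matrix.posSemidef_iff_dotProduct_mulVec]
  refine ⟨?_, fun v => ?_⟩
  · ext i j
    simp
  · simp only [dotProduct, Matrix.mulVec, Matrix.of_apply, star_trivial, one_mul]
    rw [← Finset.sum_mul]
    exact mul_self_nonneg _

lemma PDf.pow {f : G → ℝ} (hf : PDf f) (m : ℕ) : PDf (fun x => f x ^ m) := by
  induction m with
  | zero => simpa using (PDf.one (G := G))
  | succ m ih =>
    have h := ih.mul hf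
    simpa [pow_succ] using h

end

variable {G : Type*} [Group G] [TopologicalSpace G] [IsTopologicalGroup G] [CompactSpace G]
  [MeasurableSpace G] [BorelSpace G] [SecondCountableTopology G]
  {μ : Measure G} [IsProbabilityMeasure μ] [μ.IsHaarMeasure] [μ.IsMulRightInvariant]
  [μ.IsInvInvariant]

lemma PDf.conv {u : G → ℝ} (hu : Continuous u) (hs : Sy u) : PDf (conv μ u u) := fun k x => by
  have h1 : ∀ a b : G, Pool.Agent.N991.MK.conv μ u u (a⁻¹ * b) =
      ∫ z, u (z⁻¹ * a) * u (z⁻¹ * b) ∂μ := by
    intro a b
    unfold Pool.Agent.N991.MK.conv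
    rw [← integral_mul_left_eq_self (μ := μ) (fun y => u y * u (y⁻¹ * (a⁻¹ * b))) a⁻¹]
    refine integral_congr_ae (Filter.Eventually.of_forall fun z => ?_)
    beta_reduce
    have e1 : (a⁻¹ * z)⁻¹ * (a⁻¹ * b) = z⁻¹ * b := by group
    have e2 : u (a⁻¹ * z) = u (z⁻¹ * a) := by
      rw [← hs (a⁻¹ * z)]
      congr 1
      group
    rw [e1, e2]
  have hc : ∀ a : G, Continuous fun z => u (z⁻¹ * a) := fun a => by fun_prop
  rw [Matrix.posSemidef_iff_dotProduct_mulVec]
  refine ⟨?_, fun v => ?_⟩
  · ext i j
    simp only [Matrix.conjTranspose_apply, Matrix.of_apply, star_trivial]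
    rw [h1, h1]
    refine integral_congr_ae (Filter.Eventually.of_forall fun z => ?_)
    exact mul_comm _ _
  · simp only [dotProduct, Matrix.mulVec, Matrix.of_apply, star_trivial]
    have h2 : ∑ i, v i * ∑ j, Pool.Agent.N991.MK.conv μ u u ((x i)⁻¹ * x j) * v j =
        ∫ z, (∑ i, v i * u (z⁻¹ * x i)) ^ 2 ∂μ := by
      have h3 : ∀ z, (∑ i, v i * u (z⁻¹ * x i)) ^ 2 =
          ∑ i, ∑ j, v i * (u (z⁻¹ * x i) * u (z⁻¹ * x j)) * v j := by
        intro z
        rw [sq, Finset.sum_mul_sum]
        refine Finset.sum_congr rfl fun i _ => Finset.sum_congr rfl fun j _ => ?_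
        ring
      simp only [h3]
      have hint : ∀ i j, Integrable (fun z => v i * (u (z⁻¹ * x i) * u (z⁻¹ * x j)) * v j) μ :=
        fun i j => integrable_of_cont
          ((continuous_const.mul ((hc _).mul (hc _))).mul continuous_const)
      rw [integral_finset_sum _ fun i _ => integrable_finset_sum _ fun j _ => hint i j]
      refine Finset.sum_congr rfl fun i _ => ?_
      rw [integral_finset_sum _ fun j _ => hint i j, Finset.mul_sum]
      refine Finset.sum_congr rfl fun j _ => ?_
      rw [integral_mul_const, integral_const_mul, h1]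
      ring
    rw [h2]
    exact integral_nonneg fun z => sq_nonneg _

/-- the difference of two independent variables is a Haar variable -/
lemma int_pair {F : G → ℝ} (hF : Continuous F) (k : ℕ) (i j : Fin k) (hij : i ≠ j) :
    ∫ x : Fin k → G, F ((x i)⁻¹ * x j) ∂(Measure.pi fun _ => μ) = ∫ x, F x ∂μ := by
  have hmp : MeasurePreserving (fun x : Fin k → G => (x i)⁻¹ * x j)
      (Measure.pi fun _ => μ) μ := by
    have h0 : MeasurePreserving (fun x : Fin k → G => x j * (x i)⁻¹)
        (Measure.pi fun _ => μ) μ := by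
      refine mp_of_equivariant _ _ _ (by fun_prop) fun g => ?_
      refine ⟨fun a => Pi.mulSingle j g * a, measurePreserving_mul_left _ _, fun a => ?_⟩
      simp [Pi.mulSingle_eq_of_ne hij, mul_assoc]
    have hi : (Measure.pi fun _ : Fin k => μ).IsInvInvariant := by
      refine ⟨?_⟩
      have h1 : IsProbabilityMeasure (Measure.pi fun _ : Fin k => μ).inv :=
        Measure.isProbabilityMeasure_map measurable_inv.aemeasurable
      have hr : (Measure.pi fun _ : Fin k => μ).IsMulRightInvariant := by
        refine ⟨fun g => ?_⟩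
        have h1 : IsProbabilityMeasure (Measure.map (fun x => x * g)
            (Measure.pi fun _ : Fin k => μ)) :=
          Measure.isProbabilityMeasure_map (measurable_mul_const g).aemeasurable
        exact Measure.isHaarMeasure_eq_of_isProbabilityMeasure _ _
      have h2 : (Measure.pi fun _ : Fin k => μ).inv.IsMulLeftInvariant := inferInstance
      exact eq_haar _ _
    have h2 : MeasurePreserving (fun x : Fin k → G => x⁻¹) (Measure.pi fun _ => μ)
        (Measure.pi fun _ => μ) := ⟨measurable_inv, Measure.inv_eq_self _⟩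
    have h3 : MeasurePreserving (fun x : G => x⁻¹) μ μ := ⟨measurable_inv, Measure.inv_eq_self _⟩
    have h4 : MeasurePreserving (fun x : Fin k → G => x i * (x j)⁻¹)
        (Measure.pi fun _ => μ) μ := by
      have h5 := h3.comp h0
      have e : ((fun x : G => x⁻¹) ∘ fun x : Fin k → G => x j * (x i)⁻¹) =
          fun x : Fin k → G => x i * (x j)⁻¹ := by
        funext x
        simp
      rwa [e] at h5
    have h6 := h4.comp h2
    have e : ((fun x : Fin k → G => x i * (x j)⁻¹) ∘ fun x : Fin k → G => x⁻¹) =
        fun x : Fin k → G => (x i)⁻¹ * x j := by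
      funext x
      simp
    rwa [e] at h6
  exact (int_mp hmp hF).symm

/-- the mean of a positive definite function is nonnegative -/
theorem PDf.int_nonneg {F : G → ℝ} (hF : Continuous F) (h : PDf F) : 0 ≤ ∫ x, F x ∂μ := by
  by_contra hneg
  push Not at hneg
  set I := ∫ x, F x ∂μ with hI
  obtain ⟨k, hk⟩ := exists_nat_gt (F 1 / (-I))
  have hk1 : F 1 < k * (-I) := by
    rwa [div_lt_iff₀ (by linarith)] at hk
  have h1 : ∀ x : Fin (k + 1) → G, 0 ≤ ∑ i, ∑ j, F ((x i)⁻¹ * x j) := by
    intro x
    have h2 := (Matrix.posSemidef_iff_dotProduct_mulVec.1 (h (k + 1) x)).2 (fun _ => 1)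
    simpa [dotProduct, Matrix.mulVec] using h2
  have h2 : 0 ≤ ∫ x : Fin (k + 1) → G, ∑ i, ∑ j, F ((x i)⁻¹ * x j)
      ∂(Measure.pi fun _ => μ) := integral_nonneg h1
  have hint : ∀ i j : Fin (k + 1), Integrable (fun x : Fin (k + 1) → G => F ((x i)⁻¹ * x j))
      (Measure.pi fun _ => μ) := fun i j => by
    have hc : Continuous fun x : Fin (k + 1) → G => F ((x i)⁻¹ * x j) := by fun_prop
    exact hc.integrable_of_hasCompactSupport (HasCompactSupport.of_compactSpace _)
  rw [integral_finset_sum _ fun i _ => integrable_finset_sum _ fun j _ => hint i j] at h2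
  have h3 : ∀ i : Fin (k + 1), ∫ x : Fin (k + 1) → G, ∑ j, F ((x i)⁻¹ * x j)
      ∂(Measure.pi fun _ => μ) = F 1 + k * I := by
    intro i
    rw [integral_finset_sum _ fun j _ => hint i j]
    have h4 : ∀ j : Fin (k + 1), ∫ x : Fin (k + 1) → G, F ((x i)⁻¹ * x j)
        ∂(Measure.pi fun _ => μ) = if j = i then F 1 else I := by
      intro j
      split_ifs with hji
      · subst hji
        simp
      · exact int_pair hF (k + 1) i j (Ne.symm hji)
    simp only [h4]
    rw [Finset.sum_ite, Finset.filter_eq', if_pos (Finset.mem_univ _), Finset.sum_const,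
      Finset.card_singleton, Finset.sum_const, Finset.filter_ne', Finset.card_erase_of_mem
      (Finset.mem_univ _), Finset.card_univ, Fintype.card_fin]
    simp
  simp only [h3] at h2
  rw [Finset.sum_const, Finset.card_univ, Fintype.card_fin, nsmul_eq_mul] at h2
  push_cast at h2
  have h5 : (0 : ℝ) < k + 1 := by positivity
  have h6 : 0 ≤ F 1 + k * I := nonneg_of_mul_nonneg_right h2 h5
  linarith

end

end Pool.Agent.N989.MK
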