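import Mathlib
import Pool.Agent.N989.MK.PD
import Pool.Agent.N989.MK.Strong

/-!
# The Wilson loop along the renormalisation flow
-/

open MeasureTheory Pool.Agent.N991.MK Filter
open scoped Topology

namespace Pool.Agent.N989.MK

set_option linter.unusedSectionVars false

noncomputable section

variable {G : Type*} [Group G] [TopologicalSpace G] [IsTopologicalGroup G] [CompactSpace G]
  [MeasurableSpace G] [BorelSpace G] [SecondCountableTopology G]
  (μ : Measure G) [IsProbabilityMeasure μ] [μ.IsHaarMeasure] [μ.IsMulRightInvariant]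
  [μ.IsInvInvariant]

/-- the properties of the normalised character -/
structure Obs (χ : G → ℝ) : Prop where
  cont : Continuous χ
  le : ∀ x, |χ x| ≤ 1
  one : χ 1 = 1
  mean : ∫ x, χ x ∂μ = 0
  pd : PDf χ
  cls : Cls χ
  sy : Sy χ
  mul : ∀ f g : G → ℝ, Continuous f → Continuous g → Cls f → Cls g → Sy f → Sy g →
    ∫ x, conv μ f g x * χ x ∂μ = (∫ x, f x * χ x ∂μ) * ∫ x, g x * χ x ∂μ

/-- the mean of the observable -/
def WW (χ Z : G → ℝ) : ℝ := (∫ x, Z x * χ x ∂μ) / ∫ x, Z x ∂μ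

variable {μ} {χ : G → ℝ}

lemma Obs.int (h : Obs μ χ) {Z : G → ℝ} (hZ : Continuous Z) : Integrable (fun x => Z x * χ x) μ :=
  integrable_of_cont (hZ.mul h.cont)

lemma WW_le_one (h : Obs μ χ) {Z : G → ℝ} (hZ : Adm Z) : WW μ χ Z ≤ 1 := by
  unfold WW
  rw [div_le_one hZ.ipos]
  refine integral_mono (h.int hZ.cont) hZ.integrable fun x => ?_
  have := (abs_le.1 (h.le x)).2
  have h2 := hZ.pos x
  show Z x * χ x ≤ Z x
  nlinarith

/-- a quantitative upper bound -/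
lemma WW_le_osc (h : Obs μ χ) {Z : G → ℝ} (hZ : Adm Z) {Λ : ℝ}
    (ho : ∀ x y, Real.log (Z x) - Real.log (Z y) ≤ Λ) : WW μ χ Z ≤ 1 - Real.exp (-Λ) := by
  have hI := hZ.ipos (μ := μ)
  unfold WW
  rw [div_le_iff₀ hI]
  have h1 : ∀ x y, Z x ≤ Real.exp Λ * Z y := fun x y => by
    calc Z x = Real.exp (Real.log (Z x)) := (Real.exp_log (hZ.pos x)).symm
      _ ≤ Real.exp (Λ + Real.log (Z y)) := Real.exp_le_exp.2 (by linarith [ho x y])
      _ = _ := by rw [Real.exp_add, Real.exp_log (hZ.pos y)]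
  have h3 : ∀ x, Real.exp (-Λ) * (∫ y, Z y ∂μ) ≤ Z x := fun x => by
    have := integral_mono (μ := μ) hZ.integrable (integrable_const _) (fun y => h1 y x)
    simp only [integral_const, probReal_univ, one_smul] at this
    have h4 := mul_le_mul_of_nonneg_left this (Real.exp_pos (-Λ)).le
    have h5 : Real.exp (-Λ) * (Real.exp Λ * Z x) = Z x := by
      rw [← mul_assoc, ← Real.exp_add]; simp
    linarith
  have h4 : ∫ x, Z x * χ x ∂μ = (∫ x, Z x ∂μ) - ∫ x, Z x * (1 - χ x) ∂μ := by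
    rw [← integral_sub hZ.integrable]
    · refine integral_congr_ae (Eventually.of_forall fun x => ?_)
      beta_reduce
      ring
    · exact integrable_of_cont (hZ.cont.mul (continuous_const.sub h.cont))
  have h5 : ∫ x, (Real.exp (-Λ) * (∫ y, Z y ∂μ)) * (1 - χ x) ∂μ ≤ ∫ x, Z x * (1 - χ x) ∂μ := by
    refine integral_mono (integrable_of_cont (continuous_const.mul (continuous_const.sub h.cont)))
      (integrable_of_cont (hZ.cont.mul (continuous_const.sub h.cont))) fun x => ?_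
    exact mul_le_mul_of_nonneg_right (h3 x) (by linarith [(abs_le.1 (h.le x)).2])
  rw [integral_const_mul, integral_sub (integrable_const _) (integrable_of_cont h.cont),
    h.mean] at h5
  simp only [integral_const, probReal_univ, one_smul, sub_zero, mul_one] at h5
  rw [h4]
  linarith

lemma WW_le_Sm (h : Obs μ χ) {Z : G → ℝ} (hZ : Adm Z) {a : ℝ} (hs : Sm μ a Z) :
    WW μ χ Z ≤ a := by
  have hI := hZ.ipos (μ := μ)
  unfold WW
  rw [div_le_iff₀ hI]
  have h1 : ∫ x, Z x * χ x ∂μ = ∫ x, (Z x - ∫ y, Z y ∂μ) * χ x ∂μ := by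
    have e : ∀ x, (Z x - ∫ y, Z y ∂μ) * χ x = Z x * χ x - (∫ y, Z y ∂μ) * χ x := fun x => by ring
    have i2 : Integrable (fun x => (∫ y, Z y ∂μ) * χ x) μ :=
      integrable_of_cont (continuous_const.mul h.cont)
    simp only [e]
    rw [integral_sub (h.int hZ.cont) i2, integral_const_mul, h.mean]
    ring
  have h2 : ∀ x, ‖(Z x - ∫ y, Z y ∂μ) * χ x‖ ≤ a * ∫ y, Z y ∂μ := fun x => by
    rw [norm_mul]
    have h3 := hs x
    have h4 := h.le x
    calc ‖Z x - ∫ y, Z y ∂μ‖ * ‖χ x‖ ≤ (a * ∫ y, Z y ∂μ) * 1 :=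
          mul_le_mul h3 h4 (norm_nonneg _) ((abs_nonneg _).trans h3)
      _ = _ := mul_one _
  have h3 := norm_integral_le_of_norm_le_const (μ := μ) (Eventually.of_forall h2)
  simp only [probReal_univ, mul_one] at h3
  rw [h1]
  exact (le_abs_self _).trans h3

lemma int_H4 {Z : G → ℝ} (hZ : Adm Z) : ∫ x, H4 μ Z x ∂μ = (∫ x, Z x ∂μ) ^ 4 := by
  unfold H4
  rw [int_conv hZ.conv.cont hZ.conv.cont, int_conv hZ.cont hZ.cont]
  ring

lemma Obs.int_H4 (h : Obs μ χ) {Z : G → ℝ} (hZ : Adm Z) :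
    ∫ x, H4 μ Z x * χ x ∂μ = (∫ x, Z x * χ x ∂μ) ^ 4 := by
  unfold H4
  rw [h.mul _ _ hZ.conv.cont hZ.conv.cont hZ.conv.cls hZ.conv.cls hZ.conv.sy hZ.conv.sy,
    h.mul _ _ hZ.cont hZ.cont hZ.cls hZ.cls hZ.sy hZ.sy]
  ring

/-- the basic lower bound for the observable -/
theorem Obs.key (h : Obs μ χ) {Z : G → ℝ} (hZ : Adm Z) :
    4 * (∫ x, Z x ∂μ) ^ 12 * (∫ x, Z x * χ x ∂μ) ^ 4 ≤ ∫ x, TT μ Z x * χ x ∂μ := by
  set u : G → ℝ := conv μ Z Z with hu
  have hu1 : Adm u := hZ.conv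
  set I := ∫ x, u x ∂μ with hI
  set v : G → ℝ := fun x => u x - I with hv
  have hvc : Continuous v := hu1.cont.sub continuous_const
  have hvs : Sy v := fun x => by rw [hv]; beta_reduce; rw [hu1.sy x]
  set g : G → ℝ := conv μ v v with hg
  have hgc : Continuous g := cont_conv hvc hvc
  have hgp : PDf g := PDf.conv (μ := μ) hvc hvs
  set m := I * I with hm
  have hm0 : 0 ≤ m := mul_self_nonneg I
  have hH : ∀ x, H4 μ Z x = m + g x := by
    intro x
    have h1 := conv_dev (μ := μ) hu1.cont x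
    have h2 : H4 μ Z x = Pool.Agent.N991.MK.conv μ u u x := rfl
    rw [h2, ← sub_eq_iff_eq_add']
    exact h1
  have hcg : Continuous fun x => g x * χ x := hgc.mul h.cont
  have e : ∀ x, TT μ Z x * χ x = m ^ 4 * χ x + 4 * m ^ 3 * (g x * χ x) +
      (6 * m ^ 2 * (g x ^ 2 * χ x) + (4 * m * (g x ^ 3 * χ x) + g x ^ 4 * χ x)) := by
    intro x
    unfold Pool.Agent.N989.MK.TT
    rw [hH x]
    ring
  have hk : ∀ k : ℕ, Integrable (fun x => g x ^ k * χ x) μ := fun k =>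
    integrable_of_cont ((hgc.pow k).mul h.cont)
  have hk1 : Integrable (fun x => g x * χ x) μ := integrable_of_cont hcg
  have hpos : ∀ k : ℕ, 0 ≤ ∫ x, g x ^ k * χ x ∂μ := fun k =>
    PDf.int_nonneg ((hgc.pow k).mul h.cont) ((hgp.pow k).mul h.pd)
  have hχ : Integrable χ μ := integrable_of_cont h.cont
  have i1 : Integrable (fun x => m ^ 4 * χ x) μ := hχ.const_mul _
  have i2 : Integrable (fun x => 4 * m ^ 3 * (g x * χ x)) μ := hk1.const_mul _
  have i3 : Integrable (fun x => 6 * m ^ 2 * (g x ^ 2 * χ x)) μ := (hk 2).const_mul _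
  have i4 : Integrable (fun x => 4 * m * (g x ^ 3 * χ x)) μ := (hk 3).const_mul _
  have i5 : Integrable (fun x => 4 * m * (g x ^ 3 * χ x) + g x ^ 4 * χ x) μ := i4.add (hk 4)
  have i6 : Integrable (fun x => m ^ 4 * χ x + 4 * m ^ 3 * (g x * χ x)) μ := i1.add i2
  have i7 : Integrable (fun x => 6 * m ^ 2 * (g x ^ 2 * χ x) +
      (4 * m * (g x ^ 3 * χ x) + g x ^ 4 * χ x)) μ := i3.add i5
  simp only [e]
  rw [integral_add i6 i7, integral_add i1 i2, integral_add i3 i5, integral_add i4 (hk 4)]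
  simp only [integral_const_mul]
  rw [h.mean]
  have h1 : ∫ x, g x * χ x ∂μ = (∫ x, Z x * χ x ∂μ) ^ 4 := by
    rw [← h.int_H4 hZ]
    have e2 : ∀ x, H4 μ Z x * χ x = m * χ x + g x * χ x := fun x => by rw [hH x]; ring
    simp only [e2]
    rw [integral_add (hχ.const_mul _) hk1, integral_const_mul, h.mean]
    ring
  have h2 : m = (∫ x, Z x ∂μ) ^ 4 := by
    rw [hm, hI, hu, int_conv hZ.cont hZ.cont]
    ring
  rw [h1]
  have h3 : 4 * (∫ x, Z x ∂μ) ^ 12 = 4 * m ^ 3 := by rw [h2]; ring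
  rw [h3]
  have := hpos 2
  have := hpos 3
  have := hpos 4
  nlinarith [mul_nonneg (sq_nonneg m) (hpos 2), mul_nonneg hm0 (hpos 3)]

/-- the lower bound for one step of the flow -/
theorem Obs.step (h : Obs μ χ) {Z : G → ℝ} (hZ : Adm Z) {M : ℝ}
    (hM : ∀ x, H4 μ Z x ≤ M * ∫ y, H4 μ Z y ∂μ) :
    4 * WW μ χ Z ^ 4 ≤ M ^ 4 * WW μ χ (TT μ Z) := by
  have hk := h.key hZ
  have hI := hZ.ipos (μ := μ)
  have hJ := (hZ.TT (μ := μ)).ipos (μ := μ)
  set I := ∫ x, Z x ∂μ with hIdef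
  set J := ∫ x, TT μ Z x ∂μ with hJdef
  have hJle : J ≤ M ^ 4 * I ^ 16 := by
    have h1 : ∀ x, TT μ Z x ≤ (M * I ^ 4) ^ 4 := by
      intro x
      have h2 := hM x
      rw [Pool.Agent.N989.MK.int_H4 hZ] at h2
      exact pow_le_pow_left₀ (hZ.H4.pos x).le h2 4
    have h2 := integral_mono (μ := μ) (hZ.TT (μ := μ)).integrable (integrable_const _) h1
    simp only [integral_const, probReal_univ, one_smul] at h2
    calc J ≤ (M * I ^ 4) ^ 4 := h2
      _ = _ := by ring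
  have hw0 : 0 ≤ ∫ x, TT μ Z x * χ x ∂μ := le_trans (by positivity) hk
  have e1 : WW μ χ Z ^ 4 = (∫ x, Z x * χ x ∂μ) ^ 4 / I ^ 4 := by
    unfold WW
    rw [div_pow]
  have e2 : WW μ χ (TT μ Z) = (∫ x, TT μ Z x * χ x ∂μ) / J := rfl
  rw [e1, e2, ← mul_div_assoc, ← mul_div_assoc, div_le_div_iff₀ (by positivity) hJ]
  calc 4 * (∫ x, Z x * χ x ∂μ) ^ 4 * J ≤ 4 * (∫ x, Z x * χ x ∂μ) ^ 4 * (M ^ 4 * I ^ 16) :=
        mul_le_mul_of_nonneg_left hJle (by positivity)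
    _ = M ^ 4 * (4 * I ^ 12 * (∫ x, Z x * χ x ∂μ) ^ 4) * I ^ 4 := by ring
    _ ≤ M ^ 4 * (∫ x, TT μ Z x * χ x ∂μ) * I ^ 4 := by
        refine mul_le_mul_of_nonneg_right ?_ (by positivity)
        exact mul_le_mul_of_nonneg_left hk (by positivity)

theorem Obs.step_pos (h : Obs μ χ) {Z : G → ℝ} (hZ : Adm Z) (hW : 0 < WW μ χ Z) :
    0 < WW μ χ (TT μ Z) := by
  have hk := h.key hZ
  have hI := hZ.ipos (μ := μ)
  have hJ := (hZ.TT (μ := μ)).ipos (μ := μ)
  have h1 : 0 < ∫ x, Z x * χ x ∂μ := by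
    unfold WW at hW
    exact (div_pos_iff_of_pos_right hI).1 hW
  exact div_pos (lt_of_lt_of_le (by positivity) hk) hJ

theorem Obs.pos (h : Obs μ χ) {Z : G → ℝ} (hZ : Adm Z) (hW : 0 < WW μ χ Z) :
    ∀ k, 0 < WW μ χ (TTn μ Z k)
  | 0 => hW
  | k + 1 => h.step_pos (hZ.TTn k) (Obs.pos h hZ hW k)

/-- for small deviations the observable does not drop faster than its fourth power -/
theorem Obs.step_small (h : Obs μ χ) {Z : G → ℝ} (hZ : Adm Z) (hs : Sm μ (1 / 10) Z)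
    (hW : 0 < WW μ χ Z) : WW μ χ Z ^ 4 ≤ WW μ χ (TT μ Z) := by
  have h1 : Sm μ (((1 / 10 : ℝ) ^ 2) ^ 2) (H4 μ Z) := (hs.conv hZ).conv hZ.conv
  have h2 : ∀ x, H4 μ Z x ≤ (1 + 1 / 10000) * ∫ y, H4 μ Z y ∂μ := by
    intro x
    have := (abs_le.1 (h1 x)).2
    norm_num at this ⊢
    linarith
  have h3 := h.step hZ h2
  have h4 := h.step_pos hZ hW
  have h5 : ((1 + 1 / 10000 : ℝ)) ^ 4 ≤ 4 := by norm_num
  have h6 : (1 + 1 / 10000 : ℝ) ^ 4 * WW μ χ (TT μ Z) ≤ 4 * WW μ χ (TT μ Z) :=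
    mul_le_mul_of_nonneg_right h5 h4.le
  linarith

/-- the Wilson loop of the trajectory -/
def wl (μ : Measure G) (χ Z : G → ℝ) (k : ℕ) : ℝ := WW μ χ (TTn μ Z k)

/-- minus the logarithm per area -/
def al (μ : Measure G) (χ Z : G → ℝ) (k : ℕ) : ℝ := -Real.log (wl μ χ Z k) / 4 ^ k

theorem Obs.al_anti (h : Obs μ χ) {Z : G → ℝ} (hZ : Adm Z) (hW : 0 < WW μ χ Z) {k : ℕ}
    (hs : Sm μ (1 / 10) (TTn μ Z k)) : al μ χ Z (k + 1) ≤ al μ χ Z k := by
  have h1 := h.pos hZ hW k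
  have h2 := h.step_small (hZ.TTn k) hs h1
  have h3 := Real.log_le_log (by positivity) h2
  rw [Real.log_pow] at h3
  push_cast at h3
  unfold al wl
  rw [pow_succ, div_le_div_iff₀ (by positivity) (by positivity)]
  have e : WW μ χ (TTn μ Z (k + 1)) = WW μ χ (TT μ (TTn μ Z k)) := rfl
  rw [e]
  have h4 : (0 : ℝ) < 4 ^ k := by positivity
  nlinarith

lemma sm_small {Z : G → ℝ} (h : Adm Z) (hs : Sm μ (1 / 10) Z) (k : ℕ) :
    Sm μ (1 / 10) (TTn μ Z k) := by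
  have h1 := hs.TTn h k
  intro x
  refine (h1 x).trans (mul_le_mul_of_nonneg_right ?_ (h.TTn (μ := μ) k).ipos.le)
  have h4 : ((21 / 100 : ℝ)) ^ 4 ^ k ≤ (21 / 100) ^ 1 :=
    pow_le_pow_of_le_one (by norm_num) (by norm_num) (Nat.one_le_pow _ _ (by norm_num))
  linarith

theorem Obs.al_lower (h : Obs μ χ) {Z : G → ℝ} (hZ : Adm Z) (hW : 0 < WW μ χ Z) {k0 : ℕ}
    (hs : Sm μ (1 / 10) (TTn μ Z k0)) (k : ℕ) : 1 / 4 ^ k0 ≤ al μ χ Z (k0 + k) := by
  have h1 := (hZ.TTn (μ := μ) k0)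
  have h2 := hs.TTn h1 k
  have h3 := WW_le_Sm h (h1.TTn k) h2
  have h4 := h.pos hZ hW (k0 + k)
  rw [← TTn_add] at h3
  have h5 : WW μ χ (TTn μ Z (k0 + k)) ≤ Real.exp (-(4 ^ k)) := by
    refine h3.trans ?_
    have h6 : (21 / 100 : ℝ) ≤ Real.exp (-1) := by
      have := Real.exp_one_lt_d9
      rw [Real.exp_neg, le_inv_comm₀ (by norm_num) (Real.exp_pos 1)]
      norm_num at this ⊢
      linarith
    have h7 : (21 / 100 : ℝ) ^ 4 ^ k ≤ Real.exp (-1) ^ 4 ^ k :=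
      pow_le_pow_left₀ (by norm_num) h6 _
    have h8 : Real.exp (-1) ^ 4 ^ k = Real.exp (-(4 ^ k)) := by
      rw [← Real.exp_nat_mul]
      push_cast
      ring_nf
    rw [h8] at h7
    have h9 : (0 : ℝ) ≤ (21 / 100) ^ 4 ^ k := by positivity
    linarith
  have h6 := Real.log_le_log h4 h5
  rw [Real.log_exp] at h6
  unfold al wl
  rw [pow_add, div_le_div_iff₀ (by positivity) (by positivity)]
  have : (0 : ℝ) < 4 ^ k0 := by positivity
  nlinarith

/-- the upper bound -/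
theorem Obs.al_upper (h : Obs μ χ) {n m : ℕ} {D : ED G n} (hg : Gen D m 1) {K : ℝ} (hK : 0 ≤ K)
    {Z : G → ℝ} (hZ : Adm Z) (hs : SC D K Z) (hW : 0 < WW μ χ Z) (k : ℕ) :
    al μ χ Z k ≤ -Real.log (WW μ χ Z) + 2 * (2 ^ m * K) := by
  have hstep : ∀ k, al μ χ Z (k + 1) ≤ al μ χ Z k + 2 ^ m * K / 4 ^ k := by
    intro k
    have h0 := rate_nonneg m K
    have h1 := hs.TTn (μ := μ) hK hZ hg k
    have hK1 : 0 ≤ K * rate m K ^ k := mul_nonneg hK (pow_nonneg h0 k)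
    have hK2 : K * rate m K ^ k ≤ K := by
      have : rate m K ^ k ≤ 1 := pow_le_one₀ h0 (rate_lt m hK).le
      nlinarith
    have hA := hZ.TTn (μ := μ) k
    have h2 := h1.H4 (μ := μ) hK1 hA (Λ := 2 ^ m * (K * rate m K ^ k))
      (fun x y => by simpa using h1.osc zero_le_one hg hK1 hA.cont hA.pos x y) hg le_rfl
    have h3 : SC D K (H4 μ (TTn μ Z k)) := by
      refine SC.mono ?_ h2
      have he1 : 0 ≤ 1 - Real.exp (-(2 * (2 ^ m * (K * rate m K ^ k)))) := by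
        have : Real.exp (-(2 * (2 ^ m * (K * rate m K ^ k)))) ≤ 1 := Real.exp_le_one_iff.2 (by
          have : 0 ≤ 2 ^ m * (K * rate m K ^ k) := by positivity
          linarith)
        linarith
      have he2 : 1 - Real.exp (-(2 * (2 ^ m * (K * rate m K ^ k)))) ≤ 1 := by
        linarith [Real.exp_pos (-(2 * (2 ^ m * (K * rate m K ^ k))))]
      have he3 : (1 - Real.exp (-(2 * (2 ^ m * (K * rate m K ^ k))))) ^ 2 ≤ 1 :=
        pow_le_one₀ he1 he2
      have : K * rate m K ^ k / 4 * (1 - Real.exp (-(2 * (2 ^ m * (K * rate m K ^ k))))) ^ 2 ≤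
          K * rate m K ^ k / 4 * 1 := mul_le_mul_of_nonneg_left he3 (by linarith)
      linarith
    have hHA := hA.H4 (μ := μ)
    have h4 : ∀ x y, H4 μ (TTn μ Z k) x ≤ Real.exp (2 ^ m * K) * H4 μ (TTn μ Z k) y := by
      intro x y
      have h5 := h3.osc zero_le_one hg hK hHA.cont hHA.pos x y
      rw [mul_one] at h5
      calc H4 μ (TTn μ Z k) x = Real.exp (Real.log (H4 μ (TTn μ Z k) x)) :=
            (Real.exp_log (hHA.pos x)).symm
        _ ≤ Real.exp (2 ^ m * K + Real.log (H4 μ (TTn μ Z k) y)) :=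
            Real.exp_le_exp.2 (by linarith)
        _ = _ := by rw [Real.exp_add, Real.exp_log (hHA.pos y)]
    have h5 : ∀ x, H4 μ (TTn μ Z k) x ≤ Real.exp (2 ^ m * K) * ∫ y, H4 μ (TTn μ Z k) y ∂μ := by
      intro x
      have := integral_mono (μ := μ) (integrable_const _)
        (hHA.integrable.const_mul (Real.exp (2 ^ m * K))) (fun y => h4 x y)
      rw [integral_const_mul] at this
      simpa using this
    have h6 := h.step hA h5
    have h7 := h.pos hZ hW k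
    have h8 := h.pos hZ hW (k + 1)
    have e : WW μ χ (TTn μ Z (k + 1)) = WW μ χ (TT μ (TTn μ Z k)) := rfl
    rw [← e] at h6
    have h9 : WW μ χ (TTn μ Z k) ^ 4 ≤
        Real.exp (2 ^ m * K) ^ 4 * WW μ χ (TTn μ Z (k + 1)) := by
      have : 0 ≤ WW μ χ (TTn μ Z k) ^ 4 := by positivity
      linarith
    have h10 := Real.log_le_log (by positivity) h9
    rw [Real.log_mul (by positivity) h8.ne', Real.log_pow, Real.log_pow, Real.log_exp] at h10
    push_cast at h10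
    unfold al wl
    have h11 : (0 : ℝ) < 4 ^ k := by positivity
    rw [← add_div, pow_succ, div_le_div_iff₀ (by positivity) (by positivity)]
    nlinarith
  have hind : ∀ k, al μ χ Z k ≤ -Real.log (WW μ χ Z) + 2 * (2 ^ m * K) * (1 - (1 / 4) ^ k) := by
    intro k
    induction k with
    | zero => simp [al, wl, Pool.Agent.N989.MK.TTn]
    | succ k ih =>
      have h1 := hstep k
      have h2 : 0 ≤ 2 ^ m * K := by positivity
      have h3 : 2 ^ m * K / 4 ^ k = 2 ^ m * K * (1 / 4) ^ k := by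
        rw [one_div, inv_pow]; rfl
      rw [h3] at h1
      rw [pow_succ]
      have h4 : (0 : ℝ) ≤ (1 / 4) ^ k := by positivity
      nlinarith [mul_nonneg h2 h4]
  have h1 := hind k
  have h2 : 0 ≤ 2 ^ m * K := by positivity
  have h4 : (0 : ℝ) ≤ (1 / 4) ^ k := by positivity
  nlinarith [mul_nonneg h2 h4]

/-- **The area law with uniform constants** -/
theorem Obs.area (h : Obs μ χ) {n m : ℕ} {D : ED G n} (hg : Gen D m 1) {K : ℝ} (hK : 0 ≤ K) :
    ∃ k0 : ℕ, ∀ Z : G → ℝ, Adm Z → SC D K Z → 0 < WW μ χ Z →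
      (∀ k, 0 < wl μ χ Z k) ∧ (∀ k, wl μ χ Z k ≤ 1 - Real.exp (-(2 ^ m * K))) ∧
      (∀ k, al μ χ Z k ≤ -Real.log (WW μ χ Z) + 2 * (2 ^ m * K)) ∧
      (∀ k, k0 ≤ k → 1 / 4 ^ k0 ≤ al μ χ Z k) ∧
      (∀ k, k0 ≤ k → al μ χ Z (k + 1) ≤ al μ χ Z k) := by
  obtain ⟨k0, hk0⟩ := exists_small (μ := μ) hg hK
  refine ⟨k0, fun Z hZ hs hW => ⟨fun k => h.pos hZ hW k, fun k => ?_, fun k =>
    h.al_upper hg hK hZ hs hW k, fun k hk => ?_, fun k hk => ?_⟩⟩
  · have h0 := rate_nonneg m K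
    have h1 := hs.TTn (μ := μ) hK hZ hg k
    have hK2 : K * rate m K ^ k ≤ K := by
      have : rate m K ^ k ≤ 1 := pow_le_one₀ h0 (rate_lt m hK).le
      nlinarith
    have h2 := SC.mono hK2 h1
    have hA := hZ.TTn (μ := μ) k
    exact WW_le_osc h hA fun x y => by simpa using h2.osc zero_le_one hg hK hA.cont hA.pos x y
  · obtain ⟨j, rfl⟩ := Nat.exists_eq_add_of_le hk
    exact h.al_lower hZ hW (hk0 Z hZ hs) j
  · obtain ⟨j, rfl⟩ := Nat.exists_eq_add_of_le hk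
    refine h.al_anti hZ hW ?_
    rw [TTn_add]
    exact sm_small (hZ.TTn k0) (hk0 Z hZ hs) j

/-- existence of the string tension -/
theorem Obs.tension (h : Obs μ χ) {n m : ℕ} {D : ED G n} (hg : Gen D m 1) {K : ℝ} (hK : 0 ≤ K)
    {Z : G → ℝ} (hZ : Adm Z) (hs : SC D K Z) (hW : 0 < WW μ χ Z) :
    ∃ σ : ℝ, 0 < σ ∧ Tendsto (fun k => al μ χ Z k) atTop (𝓝 σ) := by
  obtain ⟨k0, hk0⟩ := h.area hg hK
  obtain ⟨-, -, -, h3, h4⟩ := hk0 Z hZ hs hW
  have hanti : Antitone fun j => al μ χ Z (j + k0) := by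
    refine antitone_nat_of_succ_le fun j => ?_
    have := h4 (j + k0) (by omega)
    rwa [show j + k0 + 1 = j + 1 + k0 by ring] at this
  have hb : BddBelow (Set.range fun j => al μ χ Z (j + k0)) :=
    ⟨1 / 4 ^ k0, by rintro _ ⟨j, rfl⟩; exact h3 _ (by omega)⟩
  have h5 := tendsto_atTop_ciInf hanti hb
  refine ⟨_, ?_, (tendsto_add_atTop_iff_nat k0).1 h5⟩
  exact lt_of_lt_of_le (by positivity) (le_ciInf fun j => h3 (j + k0) (by omega))

end

end Pool.Agent.N989.MK
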