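import Mathlib

/-!
# Real sequences following the one-loop recursion
-/

namespace Pool.Agent.N989.MK

noncomputable section

/-- the recursion inequalities of the running coupling up to the index `J` -/
structure TR (c C H : ℝ) (h ρ : ℕ → ℝ) (J : ℕ) : Prop where
  big : ∀ j < J, H ≤ h j
  st : ∀ j < J, |h (j + 1) - h j + c| ≤ C * (ρ j + 1 / h j)
  nn : ∀ j < J, 0 ≤ ρ (j + 1)
  rr : ∀ j < J, ρ (j + 1) ≤ ρ j / 4 + C / h j

variable {c C H R : ℝ} {h ρ : ℕ → ℝ} {J : ℕ}

lemma TR.mono {J' : ℕ} (hJ : J' ≤ J) (t : TR c C H h ρ J) : TR c C H h ρ J' :=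
  ⟨fun j hj => t.big j (by omega), fun j hj => t.st j (by omega), fun j hj => t.nn j (by omega),
    fun j hj => t.rr j (by omega)⟩

lemma TR.nonneg (t : TR c C H h ρ J) (h0 : 0 ≤ ρ 0) : ∀ j ≤ J, 0 ≤ ρ j
  | 0, _ => h0
  | j + 1, hj => t.nn j (by omega)

/-- the errors stay bounded -/
lemma TR.bd (t : TR c C H h ρ J) (hH : 0 < H) (hC : 0 ≤ C) (hCH : C ≤ H) (h0 : 0 ≤ ρ 0)
    (hR : ρ 0 ≤ R) : ∀ j ≤ J, ρ j ≤ R + 2
  | 0, _ => by linarith
  | j + 1, hj => by
    have h1 := TR.bd t hH hC hCH h0 hR j (by omega)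
    have h2 := t.rr j (by omega)
    have h3 := t.big j (by omega)
    have h4 : C / h j ≤ 1 := by
      rw [div_le_one (by linarith)]
      linarith
    have h5 : 0 ≤ R := h0.trans hR
    linarith

/-- the sum of the errors -/
lemma TR.sum (t : TR c C H h ρ J) (j : ℕ) : ∀ m, j + m ≤ J →
    ∑ i ∈ Finset.range m, ρ (j + i) ≤
      4 / 3 * (ρ j - ρ (j + m)) + 4 / 3 * C * ∑ i ∈ Finset.range m, 1 / h (j + i)
  | 0, _ => by simp
  | m + 1, hm => by
    have h1 := TR.sum t j m (by omega)
    have h2 := t.rr (j + m) (by omega)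
    rw [Finset.sum_range_succ, Finset.sum_range_succ]
    have h3 : C / h (j + m) = C * (1 / h (j + m)) := by ring
    rw [h3] at h2
    have e : j + (m + 1) = j + m + 1 := by ring
    rw [e]
    linarith

/-- telescoping -/
lemma TR.tele (t : TR c C H h ρ J) (j : ℕ) : ∀ m, j + m ≤ J →
    |h (j + m) - h j + c * m| ≤
      C * ∑ i ∈ Finset.range m, (ρ (j + i) + 1 / h (j + i))
  | 0, _ => by simp
  | m + 1, hm => by
    have h1 := TR.tele t j m (by omega)
    have h2 := t.st (j + m) (by omega)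
    rw [Finset.sum_range_succ, mul_add]
    push_cast
    have e : h (j + (m + 1)) - h j + c * (m + 1) =
        (h (j + m) - h j + c * m) + (h (j + m + 1) - h (j + m) + c) := by
      rw [show j + (m + 1) = j + m + 1 by ring]; ring
    rw [e]
    exact (abs_add_le _ _).trans (add_le_add h1 h2)

/-- the combined estimate -/
lemma TR.tele' (t : TR c C H h ρ J) (hH : 0 < H) (hC : 0 ≤ C) (hCH : C ≤ H) (h0 : 0 ≤ ρ 0)
    (hR : ρ 0 ≤ R) (j m : ℕ) (hm : j + m ≤ J) :
    |h (j + m) - h j + c * m| ≤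
      4 / 3 * C * (R + 2) + (C + 4 / 3 * C ^ 2) * ∑ i ∈ Finset.range m, 1 / h (j + i) := by
  have h1 := t.tele j m hm
  have h2 := t.sum j m hm
  have h3 := t.bd hH hC hCH h0 hR j (by omega)
  have h4 := t.nonneg h0 (j + m) hm
  rw [Finset.sum_add_distrib] at h1
  refine h1.trans ?_
  have h5 : ∑ i ∈ Finset.range m, ρ (j + i) ≤
      4 / 3 * (R + 2) + 4 / 3 * C * ∑ i ∈ Finset.range m, 1 / h (j + i) := by linarith
  have h6 := mul_le_mul_of_nonneg_left h5 hC
  nlinarith

/-- crude linear decay -/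
lemma TR.crude (t : TR c C H h ρ J) (hH : 0 < H) (hC : 0 ≤ C) (hCH : C ≤ H)
    (hcH : 2 * (C + 4 / 3 * C ^ 2) ≤ c * H) (h0 : 0 ≤ ρ 0)
    (hR : ρ 0 ≤ R) (j m : ℕ) (hm : j + m ≤ J) :
    h (j + m) + c / 2 * m ≤ h j + 4 / 3 * C * (R + 2) := by
  have h1 := t.tele' hH hC hCH h0 hR j m hm
  have h2 : ∑ i ∈ Finset.range m, 1 / h (j + i) ≤ m * (1 / H) := by
    have h3 : ∀ i ∈ Finset.range m, 1 / h (j + i) ≤ 1 / H := by
      intro i hi
      have h4 := t.big (j + i) (by have := Finset.mem_range.1 hi; omega)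
      exact one_div_le_one_div_of_le hH h4
    refine (Finset.sum_le_sum h3).trans ?_
    simp
  have h3 : 0 ≤ C + 4 / 3 * C ^ 2 := by positivity
  have h4 := mul_le_mul_of_nonneg_left h2 h3
  have h5 : (C + 4 / 3 * C ^ 2) * (m * (1 / H)) ≤ c / 2 * m := by
    have h6 : (C + 4 / 3 * C ^ 2) * (1 / H) ≤ c / 2 := by
      rw [mul_one_div, div_le_iff₀ hH]
      linarith
    have h7 : (0 : ℝ) ≤ m := Nat.cast_nonneg m
    nlinarith
  have h6 := (abs_le.1 h1).2
  linarith

/-- sums of reciprocals -/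
lemma sum_recip (m : ℕ) : ∑ i ∈ Finset.range m, (1 : ℝ) / (i + 2) ≤ Real.log (m + 1) := by
  induction m with
  | zero => simp
  | succ m ih =>
    rw [Finset.sum_range_succ]
    have h1 : (0 : ℝ) ≤ m := Nat.cast_nonneg m
    have h2 : (1 : ℝ) / (m + 2) ≤ Real.log (m + 2) - Real.log (m + 1) := by
      have h3 := Real.one_sub_inv_le_log_of_pos (x := ((m : ℝ) + 2) / (m + 1)) (by positivity)
      rw [Real.log_div (by positivity) (by positivity), inv_div] at h3
      have h4 : 1 - ((m : ℝ) + 1) / (m + 2) = 1 / (m + 2) := by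
        field_simp
        ring
      linarith
    push_cast
    have e : (m : ℝ) + 1 + 1 = m + 2 := by ring
    rw [e]
    linarith

/-- **The trajectories of the running coupling** -/
theorem traj_real (hc : 0 < c) (hC : 0 ≤ C) (hR0 : 0 ≤ R) : ∃ Hm C4 : ℝ, 0 < Hm ∧ 0 ≤ C4 ∧
    ∀ H, Hm ≤ H → ∀ (h ρ : ℕ → ℝ) (J : ℕ), TR c C H h ρ J → 0 ≤ ρ 0 → ρ 0 ≤ R →
      (∀ j ≤ J, ρ j ≤ R + 2) ∧
      (∀ j m, j + m ≤ J → h (j + m) + c / 2 * m ≤ h j + C4) ∧
      (h J ≤ H → h J ≥ 0 → ∀ j m, j + m = J → |h j - c * m| ≤ H + C4 * (1 + Real.log (m + 1))) ∧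
      (h J ≥ 0 → ∀ j m, j + m = J → ρ j ≤ (1 / 4) ^ j * R + C4 / (m + 1)) := by
  set b := 4 / 3 * C * (R + 2) with hb
  have hb0 : 0 ≤ b := by positivity
  set Q := C + 4 / 3 * C ^ 2 with hQ
  have hQ0 : 0 ≤ Q := by positivity
  set Hm := max (C + 1) (max (2 * Q / c) (b + c)) with hHm
  have e1 : C + 1 ≤ Hm := le_max_left _ _
  have e2 : 2 * Q / c ≤ Hm := (le_max_left _ _).trans (le_max_right _ _)
  have e3 : b + c ≤ Hm := (le_max_right _ _).trans (le_max_right _ _)
  refine ⟨Hm, b + Q * (8 / c) + C * (16 / c) * 2, by linarith, by positivity,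
    fun H hHmH h ρ J t h0 hR => ?_⟩
  have hH : 0 < H := by linarith
  have hCH : C ≤ H := by linarith
  have hcH : 2 * Q ≤ c * H := by
    rw [div_le_iff₀ hc] at e2
    nlinarith
  have hcr := t.crude hH hC hCH hcH h0 hR
  have hlow : h J ≥ 0 → ∀ j m, j + (m + 1) = J → c / 8 * (m + 2) ≤ h j := by
    intro hJ0 j m hj
    have h1 := hcr j (m + 1) hj.le
    rw [hj] at h1
    have h2 := t.big j (by omega)
    push_cast at h1
    have h3 : (0 : ℝ) ≤ m := Nat.cast_nonneg m
    have h4 : b + c ≤ h j := by linarith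
    nlinarith
  refine ⟨t.bd hH hC hCH h0 hR, fun j m hm => ?_, fun hJH hJ0 j m hj => ?_, fun hJ0 j m hj => ?_⟩
  · have h1 := hcr j m hm
    have : 0 ≤ Q * (8 / c) + C * (16 / c) * 2 := by positivity
    linarith
  · have h1 := t.tele' hH hC hCH h0 hR j m hj.le
    have h2 : ∑ i ∈ Finset.range m, 1 / h (j + i) ≤ 8 / c * Real.log (m + 1) := by
      have h3 : ∀ i ∈ Finset.range m, 1 / h (j + (m - 1 - i)) ≤ 8 / c * (1 / ((i : ℝ) + 2)) := by
        intro i hi
        have hi' := Finset.mem_range.1 hi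
        have h4 := hlow hJ0 (j + (m - 1 - i)) i (by omega)
        have h5 : (0 : ℝ) < c / 8 * (i + 2) := by positivity
        have h6 := one_div_le_one_div_of_le h5 h4
        refine h6.trans (le_of_eq ?_)
        field_simp
      rw [← Finset.sum_range_reflect]
      refine (Finset.sum_le_sum h3).trans ?_
      rw [← Finset.mul_sum]
      exact mul_le_mul_of_nonneg_left (sum_recip m) (by positivity)
    rw [hj] at h1
    have h3 : |h j - c * m| ≤ |h J| + |h J - h j + c * m| := by
      have : h j - c * m = h J - (h J - h j + c * m) := by ring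
      rw [this]
      exact abs_sub _ _
    rw [abs_of_nonneg hJ0] at h3
    have h4 := mul_le_mul_of_nonneg_left h2 hQ0
    have h5 : 0 ≤ Real.log ((m : ℝ) + 1) := Real.log_nonneg (by
      have : (0 : ℝ) ≤ m := Nat.cast_nonneg m
      linarith)
    have h6 : 0 ≤ C * (16 / c) * 2 := by positivity
    have h7 : 0 ≤ Q * (8 / c) := by positivity
    have e4 : Q * (8 / c * Real.log (m + 1)) = Q * (8 / c) * Real.log (m + 1) := by ring
    rw [e4] at h4
    have e7 : (b + Q * (8 / c) + C * (16 / c) * 2) * (1 + Real.log (m + 1)) =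
        b + Q * (8 / c) * Real.log (m + 1) + (b * Real.log (m + 1) + Q * (8 / c) +
          C * (16 / c) * 2 * (1 + Real.log (m + 1))) := by ring
    rw [e7]
    have h8 := mul_nonneg hb0 h5
    have h9 : 0 ≤ C * (16 / c) * 2 * (1 + Real.log ((m : ℝ) + 1)) :=
      mul_nonneg h6 (by linarith)
    rw [← hb, ← hQ] at h1
    linarith
  · -- the errors
    have hmain : ∀ j, j ≤ J → ρ j ≤ (1 / 4) ^ j * R + C * (16 / c) * 2 / ((J - j : ℕ) + 1) := by
      intro j
      induction j with
      | zero =>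
        intro _
        have : 0 ≤ C * (16 / c) * 2 / (((J - 0 : ℕ) : ℝ) + 1) := by positivity
        simp only [pow_zero, one_mul]
        linarith
      | succ j ih =>
        intro hj'
        have h1 := ih (by omega)
        have h2 := t.rr j (by omega)
        obtain ⟨m, hm⟩ : ∃ m, j + (m + 1) = J := ⟨J - j - 1, by omega⟩
        have h3 := hlow hJ0 j m hm
        have e4 : J - j = m + 1 := by omega
        have e5 : J - (j + 1) = m := by omega
        rw [e4] at h1
        rw [e5]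
        have h5 : (0 : ℝ) < c / 8 * (m + 2) := by positivity
        have h6 : C / h j ≤ C / (c / 8 * (m + 2)) := div_le_div_of_nonneg_left hC h5 h3
        have h7 : C / (c / 8 * (m + 2)) ≤ C * (16 / c) * 2 / (m + 1) * (1 / 4) := by
          have e6 : C / (c / 8 * (m + 2)) = C * (8 / c) / (m + 2) := by
            field_simp
          have e7 : C * (16 / c) * 2 / ((m : ℝ) + 1) * (1 / 4) = C * (8 / c) / (m + 1) := by
            field_simp
            ring
          rw [e6, e7]
          exact div_le_div_of_nonneg_left (by positivity) (by positivity) (by linarith)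
        have h8 : C * (16 / c) * 2 / (((m + 1 : ℕ) : ℝ) + 1) ≤ C * (16 / c) * 2 / (m + 1) := by
          refine div_le_div_of_nonneg_left (by positivity) (by positivity) ?_
          push_cast
          linarith
        have h9 : 0 ≤ C * (16 / c) * 2 / ((m : ℝ) + 1) := by positivity
        rw [pow_succ]
        linarith
    have h1 := hmain j (by omega)
    have e4 : J - j = m := by omega
    rw [e4] at h1
    refine h1.trans ?_
    have h2 : C * (16 / c) * 2 / ((m : ℝ) + 1) ≤
        (b + Q * (8 / c) + C * (16 / c) * 2) / (m + 1) := by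
      refine div_le_div_of_nonneg_right ?_ (by positivity)
      have : 0 ≤ b + Q * (8 / c) := by positivity
      linarith
    linarith

end

end Pool.Agent.N989.MK
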