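import Mathlib
import Pool.Agent.N989.MK.Obs
import Pool.Agent.N989.MK.Traj

/-!
# From the weak coupling to the strong coupling: the string tension
-/

open MeasureTheory Pool.Agent.N991.MK Filter
open scoped Topology

namespace Pool.Agent.N989.MK

set_option linter.unusedSectionVars false

noncomputable section

variable {G : Type*} [Group G] [TopologicalSpace G] [IsTopologicalGroup G] [CompactSpace G]
  [MeasurableSpace G] [BorelSpace G] [SecondCountableTopology G]
  {μ : Measure G} [IsProbabilityMeasure μ] [μ.IsHaarMeasure] [μ.IsMulRightInvariant]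
  [μ.IsInvInvariant] {χ : G → ℝ} {n : ℕ} {D : ED G n}

/-- the properties of the weak coupling flow -/
structure Flow (μ : Measure G) (χ : G → ℝ) (D : ED G n) (Zb : ℝ → G → ℝ)
    (P : (G → ℝ) → ℝ → ℝ → Prop) (c h0 C A R : ℝ) : Prop where
  c_pos : 0 < c
  h0_pos : 0 < h0
  C_nn : 0 ≤ C
  A_nn : 0 ≤ A
  R_nn : 0 ≤ R
  nn : ∀ f h ρ, P f h ρ → 0 ≤ ρ
  start : ∀ β, h0 ≤ β → ∃ ρ, ρ ≤ R ∧ P (Zb β) β ρ
  step : ∀ f h ρ, P f h ρ → h0 ≤ h → ∃ h' ρ', P (TT μ f) h' ρ' ∧
    |h' - h + c| ≤ C * (ρ + 1 / h) ∧ ρ' ≤ ρ / 4 + C / h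
  wil : ∀ f h ρ, P f h ρ → h0 ≤ h → |1 - WW μ χ f - A / h| ≤ C * (ρ + 1 / h) / h
  ent : ∀ H, ∃ K, 0 ≤ K ∧ ∀ f h ρ, P f h ρ → h0 ≤ h → h ≤ H → SC D K f

variable {Zb : ℝ → G → ℝ} {P : (G → ℝ) → ℝ → ℝ → Prop} {c h0 C A R : ℝ}

/-- a stopped trajectory -/
structure Stop (μ : Measure G) (Zb : ℝ → G → ℝ) (P : (G → ℝ) → ℝ → ℝ → Prop)
    (c C hq H C4 R : ℝ) (β : ℝ) (J : ℕ) (h ρ : ℕ → ℝ) : Prop where
  t : TR c C H h ρ J
  r0 : ρ 0 ≤ R
  z : h 0 = β
  p : ∀ j ≤ J, P (TTn μ (Zb β) j) (h j) (ρ j)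
  lo : ∀ j ≤ J, hq ≤ h j
  fin : h J ≤ H
  rb : ∀ j ≤ J, ρ j ≤ R + 2
  as : ∀ j m, j + m = J → |h j - c * m| ≤ H + C4 * (1 + Real.log (m + 1))
  ra : ∀ j m, j + m = J → ρ j ≤ (1 / 4) ^ j * R + C4 / (m + 1)

theorem Flow.traj (F : Flow μ χ D Zb P c h0 C A R) (hq : ℝ) (hhq : h0 ≤ hq) :
    ∃ H C4 : ℝ, hq ≤ H ∧ 0 ≤ C4 ∧ ∀ β, H ≤ β → ∃ J h ρ, Stop μ Zb P c C hq H C4 R β J h ρ := by
  obtain ⟨Hm, C4, hHm, hC4, hT⟩ := traj_real (c := c) (C := C) (R := R) F.c_pos F.C_nn F.R_nn
  set H := max (max Hm 1) (hq + c + C * (R + 3)) with hH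
  have hR := F.R_nn
  have hC := F.C_nn
  have hc := F.c_pos
  have e1 : Hm ≤ H := (le_max_left _ _).trans (le_max_left _ _)
  have e2 : 1 ≤ H := (le_max_right _ _).trans (le_max_left _ _)
  have e3 : hq + c + C * (R + 3) ≤ H := le_max_right _ _
  have e4 : 0 ≤ C * (R + 3) := by positivity
  have hqH : hq ≤ H := by linarith
  refine ⟨H, C4, hqH, hC4, fun β hβ => ?_⟩
  obtain ⟨ρ0, hρ0, hP0⟩ := F.start β (by linarith)
  have key : ∃ (J : ℕ) (h ρ : ℕ → ℝ), h 0 = β ∧ ρ 0 ≤ R ∧ 0 ≤ ρ 0 ∧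
      (∀ j ≤ J, P (TTn μ (Zb β) j) (h j) (ρ j)) ∧ TR c C H h ρ J ∧ h J < H := by
    by_contra hcon
    push Not at hcon
    have hind : ∀ J : ℕ, ∃ h ρ : ℕ → ℝ, h 0 = β ∧ ρ 0 ≤ R ∧ 0 ≤ ρ 0 ∧
        (∀ j ≤ J, P (TTn μ (Zb β) j) (h j) (ρ j)) ∧ TR c C H h ρ J := by
      intro J
      induction J with
      | zero =>
        refine ⟨fun _ => β, fun _ => ρ0, rfl, hρ0, F.nn _ _ _ hP0, fun j hj => ?_, ?_⟩
        · obtain rfl : j = 0 := by omega
          exact hP0
        · exact ⟨fun j hj => absurd hj (by omega), fun j hj => absurd hj (by omega),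
            fun j hj => absurd hj (by omega), fun j hj => absurd hj (by omega)⟩
      | succ J ih =>
        obtain ⟨h, ρ, a1, a2, a3, a4, a5⟩ := ih
        have hbig := hcon J h ρ a1 a2 a3 a4 a5
        obtain ⟨h', ρ', b1, b2, b3⟩ := F.step _ _ _ (a4 J le_rfl) (by linarith)
        refine ⟨fun j => if j ≤ J then h j else h', fun j => if j ≤ J then ρ j else ρ', ?_, ?_, ?_,
          fun j hj => ?_, ?_⟩
        · simp [a1]
        · simp [a2]
        · simp [a3]
        · by_cases hj' : j ≤ J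
          · simp only [hj', if_true]
            exact a4 j hj'
          · obtain rfl : j = J + 1 := by omega
            simp only [show ¬ J + 1 ≤ J by omega, if_false]
            exact b1
        · have hsplit : ∀ j < J + 1, (j < J) ∨ j = J := fun j hj => by omega
          refine ⟨fun j hj => ?_, fun j hj => ?_, fun j hj => ?_, fun j hj => ?_⟩
          · simp only [show j ≤ J by omega, if_true]
            rcases hsplit j hj with h1 | rfl
            · exact a5.big j h1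
            · exact hbig
          · rcases hsplit j hj with h1 | rfl
            · simp only [show j ≤ J by omega, show j + 1 ≤ J by omega, if_true]
              exact a5.st j h1
            · simp only [le_refl, show ¬ j + 1 ≤ j by omega, if_true, if_false]
              exact b2
          · rcases hsplit j hj with h1 | rfl
            · simp only [show j + 1 ≤ J by omega, if_true]
              exact a5.nn j h1
            · simp only [show ¬ j + 1 ≤ j by omega, if_false]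
              exact F.nn _ _ _ b1
          · rcases hsplit j hj with h1 | rfl
            · simp only [show j ≤ J by omega, show j + 1 ≤ J by omega, if_true]
              exact a5.rr j h1
            · simp only [le_refl, show ¬ j + 1 ≤ j by omega, if_true, if_false]
              exact b3
    obtain ⟨m, hm⟩ := exists_nat_gt ((β + C4) / (c / 2))
    obtain ⟨h, ρ, a1, a2, a3, a4, a5⟩ := hind m
    have h1 := (hT H e1 h ρ m a5 a3 a2).2.1 0 m (by omega)
    have h2 := hcon m h ρ a1 a2 a3 a4 a5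
    rw [div_lt_iff₀ (by linarith)] at hm
    rw [zero_add, a1] at h1
    nlinarith
  obtain ⟨J, h, ρ, a1, a2, a3, a4, a5, a6⟩ := key
  have t := hT H e1 h ρ J a5 a3 a2
  have hlo : ∀ j ≤ J, hq ≤ h j := by
    intro j hj
    rcases Nat.lt_or_ge j J with h1 | h1
    · exact hqH.trans (a5.big j h1)
    · obtain rfl : j = J := by omega
      rcases j with _ | i
      · rw [a1] at a6; linarith
      · have h2 := a5.big i (by omega)
        have h3 := (abs_le.1 (a5.st i (by omega))).1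
        have h4 := t.1 i (by omega)
        have h5 : 1 / h i ≤ 1 := by
          rw [div_le_one (by linarith)]
          linarith
        have h6 : C * (ρ i + 1 / h i) ≤ C * (R + 3) := mul_le_mul_of_nonneg_left (by linarith) hC
        linarith
  have hJ0 : h J ≥ 0 := by
    have := hlo J le_rfl
    have := F.h0_pos
    linarith
  exact ⟨J, h, ρ, a5, a2, a1, a4, hlo, a6.le, t.1, t.2.2.1 a6.le hJ0, t.2.2.2 hJ0⟩

/-- the combined constants -/
theorem Flow.consts (F : Flow μ χ D Zb P c h0 C A R) :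
    ∃ H C4 K : ℝ, 0 < H ∧ 0 ≤ C4 ∧ 0 ≤ K ∧ ∃ hq : ℝ, 0 < hq ∧ h0 ≤ hq ∧ ∀ β, H ≤ β →
      ∃ J h ρ, Stop μ Zb P c C hq H C4 R β J h ρ ∧ SC D K (TTn μ (Zb β) J) ∧
        ∀ j ≤ J, 1 / 2 ≤ WW μ χ (TTn μ (Zb β) j) ∧
          |1 - WW μ χ (TTn μ (Zb β) j) - A / h j| ≤ C * (ρ j + 1 / h j) / h j ∧
          1 - WW μ χ (TTn μ (Zb β) j) ≤ (A + C * (R + 3)) / h j := by
  set hq := max (max h0 1) (2 * (A + C * (R + 3))) with hhq
  have hR := F.R_nn
  have hC := F.C_nn
  have hA := F.A_nn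
  have e1 : h0 ≤ hq := (le_max_left _ _).trans (le_max_left _ _)
  have e2 : 1 ≤ hq := (le_max_right _ _).trans (le_max_left _ _)
  have e3 : 2 * (A + C * (R + 3)) ≤ hq := le_max_right _ _
  obtain ⟨H, C4, h1, h2, h3⟩ := F.traj hq e1
  obtain ⟨K, hK, hK2⟩ := F.ent H
  refine ⟨H, C4, K, by linarith, h2, hK, hq, by linarith, e1, fun β hβ => ?_⟩
  obtain ⟨J, h, ρ, s⟩ := h3 β hβ
  refine ⟨J, h, ρ, s, hK2 _ _ _ (s.p J le_rfl) (e1.trans (s.lo J le_rfl)) s.fin, fun j hj => ?_⟩
  have hj1 := s.lo j hj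
  have hj2 : 0 < h j := by linarith
  have hw := F.wil _ _ _ (s.p j hj) (e1.trans hj1)
  have h4 : 1 / h j ≤ 1 := by
    rw [div_le_one hj2]
    linarith
  have h5 : C * (ρ j + 1 / h j) ≤ C * (R + 3) :=
    mul_le_mul_of_nonneg_left (by linarith [s.rb j hj]) hC
  have h6 : 1 - WW μ χ (TTn μ (Zb β) j) ≤ (A + C * (R + 3)) / h j := by
    have h7 := (abs_le.1 hw).2
    have h8 : C * (ρ j + 1 / h j) / h j ≤ C * (R + 3) / h j :=
      div_le_div_of_nonneg_right h5 hj2.le
    rw [add_div]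
    linarith
  refine ⟨?_, hw, h6⟩
  have h7 : (A + C * (R + 3)) / h j ≤ 1 / 2 := by
    rw [div_le_iff₀ hj2]
    linarith
  linarith

lemma al_TTn (Z : G → ℝ) (J k : ℕ) : al μ χ Z (J + k) = al μ χ (TTn μ Z J) k / 4 ^ J := by
  unfold al wl
  rw [TTn_add, pow_add, div_div]
  congr 1
  ring

/-- **The asymptotic scaling of the string tension** -/
theorem Flow.scaling (F : Flow μ χ D Zb P c h0 C A R) (ho : Obs μ χ) {m : ℕ} (hg : Gen D m 1)
    (hadm : ∀ β, Adm (Zb β)) :
    ∃ β1 C5 : ℝ, 1 ≤ β1 ∧ 0 ≤ C5 ∧ ∀ β, β1 ≤ β → ∃ σ : ℝ, 0 < σ ∧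
      Tendsto (fun k => al μ χ (Zb β) k) atTop (𝓝 σ) ∧
      |Real.log σ + Real.log 4 / c * β| ≤ C5 * (1 + Real.log β) := by
  obtain ⟨H, C4, K, hH, hC4, hK, hq, hhq, hhq0, hB⟩ := F.consts
  obtain ⟨k0, hk0⟩ := ho.area hg hK
  have hc := F.c_pos
  set S : ℝ := Real.log 2 + 2 * (2 ^ m * K) with hS
  have hS0 : 0 < S := by
    have : 0 < Real.log 2 := Real.log_pos (by norm_num)
    positivity
  -- J is at most linear in β
  set M : ℝ := |Real.log (1 / 4 ^ k0)| + |Real.log S| with hM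
  have hM0 : 0 ≤ M := by positivity
  have hlog4 : 0 < Real.log 4 := Real.log_pos (by norm_num)
  -- the log of J is bounded by a multiple of 1 + log β
  obtain ⟨Cl, hCl0, hCl⟩ : ∃ Cl : ℝ, 0 ≤ Cl ∧ ∀ (β : ℝ) (J : ℕ), 1 ≤ β →
      c * J ≤ β + (H + C4 * (1 + Real.log (J + 1))) → Real.log (J + 1) ≤ Cl * (1 + Real.log β) := by
    -- log x ≤ ε x + const
    set ε : ℝ := c / (2 * (C4 + 1)) with hε
    have hε0 : 0 < ε := by positivity
    have hlin : ∀ x : ℝ, 0 < x → Real.log x ≤ ε * x - 1 - Real.log ε := by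
      intro x hx
      have h1 := Real.log_le_sub_one_of_pos (mul_pos hε0 hx)
      rw [Real.log_mul hε0.ne' hx.ne'] at h1
      linarith
    set W : ℝ := H + C4 * (ε + |Real.log ε|) with hW
    have hW0 : 0 ≤ W := by positivity
    set V : ℝ := 2 / c * (1 + W) + 1 with hV
    have hV1 : 1 ≤ V := by
      have : 0 ≤ 2 / c * (1 + W) := by positivity
      linarith
    refine ⟨1 + Real.log V, by linarith [Real.log_nonneg hV1], fun β J hβ hJ => ?_⟩
    have hJ0 : (0 : ℝ) ≤ J := Nat.cast_nonneg J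
    have h1 := hlin (J + 1) (by linarith)
    have h2 : C4 * (1 + Real.log (J + 1)) ≤ C4 * (ε * (J + 1) + |Real.log ε|) :=
      mul_le_mul_of_nonneg_left (by linarith [neg_abs_le (Real.log ε)]) hC4
    have h3 : C4 * ε ≤ c / 2 := by
      rw [hε, mul_div_assoc', div_le_div_iff₀ (by positivity) (by norm_num)]
      nlinarith
    have h4 : c / 2 * J ≤ β + W := by
      have e : C4 * (ε * (J + 1) + |Real.log ε|) = C4 * ε * J + C4 * (ε + |Real.log ε|) := by ring
      rw [e] at h2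
      have h5 := mul_le_mul_of_nonneg_right h3 hJ0
      rw [hW]
      linarith
    have h5 : (J : ℝ) + 1 ≤ V * β := by
      have h6 : (J : ℝ) ≤ 2 / c * (β + W) := by
        rw [div_mul_eq_mul_div, le_div_iff₀ hc]
        linarith
      have h7 : β + W ≤ (1 + W) * β := by nlinarith
      have h8 : 2 / c * (β + W) ≤ 2 / c * ((1 + W) * β) :=
        mul_le_mul_of_nonneg_left h7 (by positivity)
      rw [hV]
      nlinarith
    have h6 := Real.log_le_log (by linarith) h5
    rw [Real.log_mul (by linarith) (by linarith)] at h6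
    have h7 : 0 ≤ Real.log V := Real.log_nonneg hV1
    have h8 : 0 ≤ Real.log β := Real.log_nonneg hβ
    nlinarith [mul_nonneg h7 h8]
  refine ⟨max H 1, M + Real.log 4 / c * (H + C4 * (1 + Cl)), le_max_right _ _, by positivity,
    fun β hβ => ?_⟩
  have hβH : H ≤ β := (le_max_left _ _).trans hβ
  have hβ1 : 1 ≤ β := (le_max_right _ _).trans hβ
  obtain ⟨J, h, ρ, s, hsc, hw⟩ := hB β hβH
  have hw1 := (hw J le_rfl).1
  have hw0 : 0 < WW μ χ (TTn μ (Zb β) J) := by linarith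
  have hAJ := (hadm β).TTn (μ := μ) J
  obtain ⟨σ, hσ, hσt⟩ := ho.tension hg hK hAJ hsc hw0
  obtain ⟨g1, g2, g3, g4, g5⟩ := hk0 _ hAJ hsc hw0
  have hσlo : 1 / 4 ^ k0 ≤ σ :=
    ge_of_tendsto hσt ((eventually_ge_atTop k0).mono fun k hk => g4 k hk)
  have hσhi : σ ≤ S := by
    refine le_of_tendsto hσt (Eventually.of_forall fun k => (g3 k).trans ?_)
    have h1 := Real.log_le_log (by norm_num) hw1
    rw [Real.log_div (by norm_num) (by norm_num), Real.log_one] at h1
    linarith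
  refine ⟨σ / 4 ^ J, by positivity, ?_, ?_⟩
  · have h1 : Tendsto (fun k => al μ χ (Zb β) (k + J)) atTop (𝓝 (σ / 4 ^ J)) := by
      have h2 := hσt.div_const (4 ^ J)
      refine h2.congr fun k => ?_
      rw [add_comm k J, al_TTn]
    exact (tendsto_add_atTop_iff_nat J).1 h1
  · rw [Real.log_div hσ.ne' (by positivity), Real.log_pow]
    have h1 : |Real.log σ| ≤ M := by
      have a1 := Real.log_le_log (by positivity) hσlo
      have a2 := Real.log_le_log hσ hσhi
      rw [abs_le]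
      have b1 := neg_abs_le (Real.log (1 / 4 ^ k0))
      have b2 := le_abs_self (Real.log S)
      have b3 := abs_nonneg (Real.log (1 / 4 ^ k0))
      have b4 := abs_nonneg (Real.log S)
      constructor <;> linarith
    have h2 := s.as 0 J (by omega)
    rw [s.z] at h2
    have h3 := hCl β J hβ1 (by linarith [(abs_le.1 h2).1])
    have hb : 0 ≤ Real.log β := Real.log_nonneg hβ1
    have h4 : |β - c * J| ≤ (H + C4 * (1 + Cl)) * (1 + Real.log β) := by
      refine h2.trans ?_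
      have h5 := mul_le_mul_of_nonneg_left h3 hC4
      nlinarith [mul_nonneg hH.le hb, mul_nonneg hC4 hb]
    have e : Real.log σ - J * Real.log 4 + Real.log 4 / c * β =
        Real.log σ + Real.log 4 / c * (β - c * J) := by
      field_simp
      ring
    rw [e]
    refine (abs_add_le _ _).trans ?_
    rw [abs_mul, abs_of_nonneg (by positivity : 0 ≤ Real.log 4 / c)]
    have h5 := mul_le_mul_of_nonneg_left h4 (by positivity : 0 ≤ Real.log 4 / c)
    nlinarith [mul_nonneg hM0 hb]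

end

end Pool.Agent.N989.MK
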