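import Mathlib
import Pool.Agent.N989.MK.Flow

/-!
# The continuum limit
-/

open MeasureTheory Pool.Agent.N991.MK Filter BoundedContinuousFunction
open scoped Topology

namespace Pool.Agent.N989.MK

set_option linter.unusedSectionVars false

noncomputable section

variable {G : Type*} [Group G] [TopologicalSpace G] [IsTopologicalGroup G] [CompactSpace G]
  [MeasurableSpace G] [BorelSpace G] [SecondCountableTopology G]
  {μ : Measure G} [IsProbabilityMeasure μ] [μ.IsHaarMeasure] [μ.IsMulRightInvariant]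
  [μ.IsInvInvariant] {χ : G → ℝ} {n : ℕ} {D : ED G n}

/-! ### Scaling -/

lemma conv_scale (a : ℝ) (f : G → ℝ) :
    conv μ (fun x => a * f x) (fun x => a * f x) = fun x => a ^ 2 * conv μ f f x := by
  funext x
  unfold Pool.Agent.N991.MK.conv
  rw [← integral_const_mul]
  refine integral_congr_ae (Eventually.of_forall fun y => ?_)
  beta_reduce
  ring

lemma TT_scale (a : ℝ) (f : G → ℝ) :
    TT μ (fun x => a * f x) = fun x => a ^ 16 * TT μ f x := by
  unfold TT H4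
  rw [conv_scale, conv_scale]
  funext x
  ring

lemma WW_scale {a : ℝ} (ha : a ≠ 0) (f : G → ℝ) :
    WW μ χ (fun x => a * f x) = WW μ χ f := by
  unfold WW
  have e : ∀ x, a * f x * χ x = a * (f x * χ x) := fun x => by ring
  simp only [e, integral_const_mul]
  rw [mul_div_mul_left _ _ ha]

lemma Adm.scale {a : ℝ} (ha : 0 < a) {f : G → ℝ} (h : Adm f) : Adm (fun x => a * f x) :=
  ⟨continuous_const.mul h.cont, fun x => mul_pos ha (h.pos x), fun g x => by
    beta_reduce; rw [h.cls], fun x => by beta_reduce; rw [h.sy]⟩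

/-- normalisation -/
def nrm (μ : Measure G) (f : G → ℝ) : G → ℝ := fun x => (∫ y, f y ∂μ)⁻¹ * f x

lemma Adm.nrm {f : G → ℝ} (h : Adm f) : Adm (nrm μ f) := h.scale (inv_pos.2 h.ipos)

lemma int_nrm {f : G → ℝ} (h : Adm f) : ∫ x, nrm μ f x ∂μ = 1 := by
  unfold Pool.Agent.N989.MK.nrm
  rw [integral_const_mul]
  exact inv_mul_cancel₀ h.ipos.ne'

lemma WW_nrm {f : G → ℝ} (h : Adm f) : WW μ χ (nrm μ f) = WW μ χ f :=
  WW_scale (inv_pos.2 h.ipos).ne' f

lemma nrm_scale {a : ℝ} (ha : 0 < a) (f : G → ℝ) :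
    nrm μ (fun x => a * f x) = nrm μ f := by
  unfold Pool.Agent.N989.MK.nrm
  funext x
  rw [integral_const_mul, mul_inv]
  field_simp

lemma nrm_TT_nrm {f : G → ℝ} (h : Adm f) : nrm μ (TT μ (nrm μ f)) = nrm μ (TT μ f) := by
  have h1 : TT μ (nrm μ f) = fun x => ((∫ y, f y ∂μ)⁻¹) ^ 16 * TT μ f x := TT_scale _ f
  have hp := inv_pos.2 (h.ipos (μ := μ))
  rw [h1, nrm_scale (by positivity)]

/-! ### Continuity in the coupling -/

lemma cont_conv2 {F : ℝ × G → ℝ} (hF : Continuous F) :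
    Continuous fun p : ℝ × G => conv μ (fun x => F (p.1, x)) (fun x => F (p.1, x)) p.2 := by
  unfold Pool.Agent.N991.MK.conv
  have h := continuous_parametric_integral_of_continuous (μ := μ)
    (f := fun (p : ℝ × G) (y : G) => F (p.1, y) * F (p.1, y⁻¹ * p.2)) (s := Set.univ) (by
      show Continuous fun q : (ℝ × G) × G => F (q.1.1, q.2) * F (q.1.1, q.2⁻¹ * q.1.2)
      fun_prop) isCompact_univ
  simpa using h

lemma cont_TTn {Zb : ℝ → G → ℝ} (hZ : Continuous fun p : ℝ × G => Zb p.1 p.2) :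
    ∀ k, Continuous fun p : ℝ × G => TTn μ (Zb p.1) k p.2
  | 0 => hZ
  | k + 1 => by
    have h1 := cont_TTn hZ k
    have h2 := cont_conv2 (μ := μ) h1
    exact (cont_conv2 (μ := μ) h2).pow 4

lemma cont_int {F : ℝ × G → ℝ} (hF : Continuous F) : Continuous fun b : ℝ => ∫ x, F (b, x) ∂μ := by
  have h := continuous_parametric_integral_of_continuous (μ := μ)
    (f := fun (p : ℝ) (y : G) => F (p, y)) (s := Set.univ) (by
      show Continuous fun q : ℝ × G => F (q.1, q.2)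
      exact hF) isCompact_univ
  simpa using h

/-- the assumptions on the family of the plaquette weights -/
structure Fam (μ : Measure G) (χ : G → ℝ) (D : ED G n) (Zb : ℝ → G → ℝ) : Prop where
  adm : ∀ β, Adm (Zb β)
  ctn : Continuous fun p : ℝ × G => Zb p.1 p.2
  scb : ∀ β, 0 ≤ β → SC D β (Zb β)
  wp : ∀ β, 0 < β → 0 < WW μ χ (Zb β)

/-- the assumptions on the family of the plaquette weights, without the positivity of the mean -/
structure FamG (D : ED G n) (Zb : ℝ → G → ℝ) : Prop where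
  adm : ∀ β, Adm (Zb β)
  ctn : Continuous fun p : ℝ × G => Zb p.1 p.2
  scb : ∃ K : ℝ, 0 ≤ K ∧ ∀ β, 0 ≤ β → SC D (K * β) (Zb β)

variable {Zb : ℝ → G → ℝ}

omit [IsTopologicalGroup G] [CompactSpace G] [BorelSpace G] [SecondCountableTopology G]
  [IsProbabilityMeasure μ] [μ.IsHaarMeasure] [μ.IsMulRightInvariant] [μ.IsInvInvariant] in
lemma Fam.g (Fm : Fam μ χ D Zb) : FamG D Zb :=
  ⟨Fm.adm, Fm.ctn, 1, zero_le_one, fun β hβ => by rw [one_mul]; exact Fm.scb β hβ⟩

lemma FamG.cont (Fm : FamG D Zb) (ho : Obs μ χ) (k : ℕ) :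
    Continuous fun β => WW μ χ (TTn μ (Zb β) k) := by
  unfold WW
  have h1 := cont_TTn (μ := μ) Fm.ctn k
  have h2 : Continuous fun p : ℝ × G => TTn μ (Zb p.1) k p.2 * χ p.2 :=
    h1.mul (ho.cont.comp continuous_snd)
  refine (cont_int (μ := μ) h2).div (cont_int (μ := μ) h1) fun β => ?_
  exact ((Fm.adm β).TTn k).ipos.ne'

lemma FamG.zero (Fm : FamG D Zb) (ho : Obs μ χ) {m : ℕ} (hg : Gen D m 1) (k : ℕ) :
    WW μ χ (TTn μ (Zb 0) k) ≤ 0 := by
  have hA := (Fm.adm 0).TTn (μ := μ) k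
  obtain ⟨Kc, hKc, hscb⟩ := Fm.scb
  have h0 := hscb 0 le_rfl
  rw [mul_zero] at h0
  have h1 := h0.TTn (μ := μ) le_rfl (Fm.adm 0) hg k
  rw [zero_mul] at h1
  have h2 : ∀ x y, Real.log (TTn μ (Zb 0) k x) - Real.log (TTn μ (Zb 0) k y) ≤ 0 := fun x y => by
    simpa using h1.osc zero_le_one hg le_rfl hA.cont hA.pos x y
  have h3 := WW_le_osc ho hA h2
  simpa using h3

/-- the Wilson loop is uniformly small for large areas at bounded inverse coupling -/
lemma FamG.far (Fm : FamG D Zb) (ho : Obs μ χ) {m : ℕ} (hg : Gen D m 1) {u : ℝ} (hu : 0 < u)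
    (B : ℝ) : ∃ n0 : ℕ, ∀ k ≥ n0, ∀ β, 0 ≤ β → β ≤ B → WW μ χ (TTn μ (Zb β) k) < u := by
  obtain ⟨Kc, hKc, hscb⟩ := Fm.scb
  obtain ⟨k0, hk0⟩ := exists_small (μ := μ) hg (mul_nonneg hKc (abs_nonneg B))
  have h1 : Tendsto (fun l : ℕ => (21 / 100 : ℝ) ^ 4 ^ l) atTop (𝓝 0) :=
    (tendsto_pow_atTop_nhds_zero_of_lt_one (by norm_num) (by norm_num)).comp
      (tendsto_pow_atTop_atTop_of_one_lt (by norm_num))
  obtain ⟨l0, hl0⟩ := eventually_atTop.1 (h1.eventually (gt_mem_nhds hu))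
  refine ⟨k0 + l0, fun k hk β hβ hβB => ?_⟩
  obtain ⟨l, rfl⟩ := Nat.exists_eq_add_of_le hk
  have hA := (Fm.adm β).TTn (μ := μ) k0
  have h2 := hk0 (Zb β) (Fm.adm β) (SC.mono (mul_le_mul_of_nonneg_left
    (hβB.trans (le_abs_self B)) hKc) (hscb β hβ))
  have h3 := h2.TTn hA (l0 + l)
  have h4 := WW_le_Sm ho (hA.TTn (l0 + l)) h3
  rw [← TTn_add, ← add_assoc] at h4
  have h5 := hl0 (l0 + l) (by omega)
  have h6 : (0 : ℝ) ≤ (21 / 100) ^ 4 ^ (l0 + l) := by positivity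
  linarith

/-- growth of the running coupling -/
lemma grow {c C4 : ℝ} (hc : 0 < c) (hC4 : 0 ≤ C4) (H : ℝ) :
    Tendsto (fun m : ℕ => c * m - (H + C4 * (1 + Real.log (m + 1)))) atTop atTop := by
  set ε : ℝ := c / (2 * (C4 + 1)) with hε
  have hε0 : 0 < ε := by positivity
  have h3 : C4 * ε ≤ c / 2 := by
    rw [hε, mul_div_assoc', div_le_div_iff₀ (by positivity) (by norm_num)]
    nlinarith
  have h1 : Tendsto (fun m : ℕ => c / 2 * (m : ℝ) - (H + C4 * (ε + |Real.log ε|))) atTop atTop := by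
    refine tendsto_atTop_add_const_right _ _ ?_
    exact Tendsto.const_mul_atTop (by positivity) tendsto_natCast_atTop_atTop
  refine tendsto_atTop_mono (fun m => ?_) h1
  have hm : (0 : ℝ) ≤ m := Nat.cast_nonneg m
  have h4 : Real.log ((m : ℝ) + 1) ≤ ε * (m + 1) - 1 - Real.log ε := by
    have h5 := Real.log_le_sub_one_of_pos (mul_pos hε0 (by linarith : (0 : ℝ) < m + 1))
    rw [Real.log_mul hε0.ne' (by positivity)] at h5
    linarith
  have h5 : C4 * (1 + Real.log (m + 1)) ≤ C4 * (ε * (m + 1) + |Real.log ε|) :=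
    mul_le_mul_of_nonneg_left (by linarith [neg_abs_le (Real.log ε)]) hC4
  have e : C4 * (ε * (m + 1) + |Real.log ε|) = C4 * ε * m + C4 * (ε + |Real.log ε|) := by ring
  rw [e] at h5
  have h6 := mul_le_mul_of_nonneg_right h3 hm
  linarith

variable {P : (G → ℝ) → ℝ → ℝ → Prop} {c h0 C A R : ℝ}

/-- the package of the constants of the stopped trajectories -/
structure Pk (μ : Measure G) (χ : G → ℝ) (D : ED G n) (Zb : ℝ → G → ℝ)
    (P : (G → ℝ) → ℝ → ℝ → Prop) (c C A R H C4 K hq β : ℝ) (J : ℕ) (h ρ : ℕ → ℝ) : Prop where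
  s : Stop μ Zb P c C hq H C4 R β J h ρ
  sc : SC D K (TTn μ (Zb β) J)
  half : ∀ j ≤ J, 1 / 2 ≤ WW μ χ (TTn μ (Zb β) j)
  w1 : ∀ j ≤ J, |1 - WW μ χ (TTn μ (Zb β) j) - A / h j| ≤ C * (ρ j + 1 / h j) / h j
  w2 : ∀ j ≤ J, 1 - WW μ χ (TTn μ (Zb β) j) ≤ (A + C * (R + 3)) / h j

variable {H C4 K hq : ℝ}

/-- for fixed scale the mean tends to one at weak coupling -/
lemma hi_W (F : Flow μ χ D Zb P c h0 C A R) (hC4 : 0 ≤ C4) (hq0 : 0 < hq)
    (hB : ∀ β, H ≤ β → ∃ J h ρ, Pk μ χ D Zb P c C A R H C4 K hq β J h ρ)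
    {u : ℝ} (hu : u < 1) (k : ℕ) : ∃ β, H ≤ β ∧ 0 < β ∧ u < WW μ χ (TTn μ (Zb β) k) := by
  have hgr := grow F.c_pos hC4 H
  have hR := F.R_nn
  have hC := F.C_nn
  have hA := F.A_nn
  have hc := F.c_pos
  set Bu : ℝ := (A + C * (R + 3)) / (1 - u) with hBu
  have hu1 : 0 < 1 - u := by linarith
  have hBu0 : 0 ≤ Bu := by positivity
  obtain ⟨m0, hm0⟩ := eventually_atTop.1 (hgr.eventually (eventually_gt_atTop Bu))
  set β : ℝ := max (max H 1) (c * (k + m0) + |H| + C4 * (1 + Real.log (k + m0 + 1)) + 1) with hβ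
  have e1 : H ≤ β := (le_max_left _ _).trans (le_max_left _ _)
  have e2 : 1 ≤ β := (le_max_right _ _).trans (le_max_left _ _)
  have e3 : c * (k + m0) + |H| + C4 * (1 + Real.log (k + m0 + 1)) + 1 ≤ β := le_max_right _ _
  refine ⟨β, e1, by linarith, ?_⟩
  obtain ⟨J, h, ρ, pk⟩ := hB β e1
  have hJ : k + m0 ≤ J := by
    by_contra hcon
    push Not at hcon
    have h1 := pk.s.as 0 J (by omega)
    rw [pk.s.z] at h1
    have h2 := (abs_le.1 h1).2
    have h3 : (J : ℝ) ≤ k + m0 := by exact_mod_cast hcon.le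
    have h4 : Real.log (J + 1) ≤ Real.log (k + m0 + 1) :=
      Real.log_le_log (by positivity) (by linarith)
    have h5 := mul_le_mul_of_nonneg_left h3 hc.le
    have h6 := mul_le_mul_of_nonneg_left h4 hC4
    have h7 := le_abs_self H
    linarith
  obtain ⟨m, hm⟩ := Nat.exists_eq_add_of_le (show k ≤ J by omega)
  have h1 := pk.s.as k m hm.symm
  have h2 := hm0 m (by omega)
  have h3 : Bu < h k := by linarith [(abs_le.1 h1).1]
  have h4 := pk.w2 k (by omega)
  have hk0 : 0 < h k := hq0.trans_le (pk.s.lo k (by omega))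
  have h5 : (A + C * (R + 3)) / h k < 1 - u := by
    rw [div_lt_iff₀ hk0]
    rw [hBu, div_lt_iff₀ hu1] at h3
    linarith
  linarith

/-- the window of the scales with a given value of the Wilson loop -/
lemma window (F : Flow μ χ D Zb P c h0 C A R) (ho : Obs μ χ) {m : ℕ} (hg : Gen D m 1)
    (hadm : ∀ β, Adm (Zb β)) (hC4 : 0 ≤ C4) (hK : 0 ≤ K) (hq0 : 0 < hq) {u : ℝ} (hu0 : 0 < u)
    (hu1 : u < 1) :
    ∃ L : ℕ, ∀ β J h ρ, Pk μ χ D Zb P c C A R H C4 K hq β J h ρ → ∀ k : ℕ,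
      WW μ χ (TTn μ (Zb β) k) = u → k ≤ J + L ∧ J ≤ k + L := by
  have hgr := grow F.c_pos hC4 H
  have hR := F.R_nn
  have hC := F.C_nn
  have hA := F.A_nn
  have hc := F.c_pos
  set Bu : ℝ := (A + C * (R + 3)) / (1 - u) with hBu
  have hu1' : 0 < 1 - u := by linarith
  obtain ⟨m0, hm0⟩ := eventually_atTop.1 (hgr.eventually (eventually_gt_atTop Bu))
  obtain ⟨k0, hk0⟩ := ho.area hg hK
  obtain ⟨l0, hl0⟩ := exists_nat_gt (-Real.log u)
  refine ⟨max m0 (k0 + l0), fun β J h ρ pk k hk => ?_⟩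
  rcases Nat.lt_or_ge k J with hkJ | hkJ
  · refine ⟨by omega, ?_⟩
    by_contra hcon
    push Not at hcon
    obtain ⟨i, hi⟩ := Nat.exists_eq_add_of_le hkJ.le
    have h1 := pk.s.as k i hi.symm
    have h2 := hm0 i (by have := le_max_left m0 (k0 + l0); omega)
    have h3 : Bu < h k := by linarith [(abs_le.1 h1).1]
    have h4 := pk.w2 k (by omega)
    have hk0' : 0 < h k := hq0.trans_le (pk.s.lo k (by omega))
    have h5 : (A + C * (R + 3)) / h k < 1 - u := by
      rw [div_lt_iff₀ hk0']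
      rw [hBu, div_lt_iff₀ hu1'] at h3
      linarith
    rw [hk] at h4
    linarith
  · refine ⟨?_, by omega⟩
    by_contra hcon
    push Not at hcon
    obtain ⟨i, rfl⟩ := Nat.exists_eq_add_of_le hkJ
    have hi : k0 + l0 < i := by have := le_max_right m0 (k0 + l0); omega
    obtain ⟨l, rfl⟩ := Nat.exists_eq_add_of_le (show k0 ≤ i by omega)
    have hAJ := (hadm β).TTn (μ := μ) J
    have hw := pk.half J le_rfl
    obtain ⟨g1, g2, g3, g4, g5⟩ := hk0 _ hAJ pk.sc (by linarith)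
    have h1 := g4 (k0 + l) (by omega)
    unfold al wl at h1
    rw [← TTn_add, hk] at h1
    rw [pow_add, div_le_div_iff₀ (by positivity) (by positivity)] at h1
    have h2 : (0 : ℝ) < 4 ^ k0 := by positivity
    have h3 : (4 : ℝ) ^ l ≤ -Real.log u := by
      have h4 : (4 : ℝ) ^ k0 * 4 ^ l ≤ 4 ^ k0 * -Real.log u := by linarith
      exact le_of_mul_le_mul_left h4 h2
    have h4 : (l : ℝ) ≤ 4 ^ l := by
      have := (Nat.lt_pow_self (n := l) (by norm_num : 1 < 4)).le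
      exact_mod_cast this
    have h5 : (l0 : ℝ) < l := by
      exact_mod_cast (by omega : l0 < l)
    linarith

/-- uniform semiconcavity constants at bounded distance from the strong coupling scale -/
lemma unif_SC (F : Flow μ χ D Zb P c h0 C A R) {m : ℕ} (hg : Gen D m 1)
    (hadm : ∀ β, Adm (Zb β)) (hC4 : 0 ≤ C4) (hK : 0 ≤ K) (hq0 : h0 ≤ hq) (i : ℕ) :
    ∃ K' : ℝ, 0 ≤ K' ∧ ∀ β J h ρ, Pk μ χ D Zb P c C A R H C4 K hq β J h ρ →
      ∀ j, J ≤ j + i → SC D K' (TTn μ (Zb β) j) := by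
  obtain ⟨K1, hK1, hK2⟩ := F.ent (c * i + (H + C4 * (1 + Real.log (i + 1))))
  refine ⟨max K1 K, hK1.trans (le_max_left _ _), fun β J h ρ pk j hj => ?_⟩
  rcases Nat.lt_or_ge J j with hJ | hJ
  · obtain ⟨l, rfl⟩ := Nat.exists_eq_add_of_le hJ.le
    have hAJ := (hadm β).TTn (μ := μ) J
    rw [TTn_add]
    refine SC.mono ?_ (pk.sc.TTn (μ := μ) hK hAJ hg l)
    have h0 := rate_nonneg m K
    have : rate m K ^ l ≤ 1 := pow_le_one₀ h0 (rate_lt m hK).le
    have h1 := le_max_right K1 K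
    nlinarith
  · obtain ⟨l, hl⟩ := Nat.exists_eq_add_of_le hJ
    have hli : (l : ℝ) ≤ i := by exact_mod_cast (by omega : l ≤ i)
    have h1 := pk.s.as j l hl.symm
    refine SC.mono (le_max_left _ _) (hK2 _ _ _ (pk.s.p j hJ) (hq0.trans (pk.s.lo j hJ)) ?_)
    have h4 : Real.log ((l : ℝ) + 1) ≤ Real.log (i + 1) :=
      Real.log_le_log (by positivity) (by linarith)
    have h5 := mul_le_mul_of_nonneg_left hli F.c_pos.le
    have h6 := mul_le_mul_of_nonneg_left h4 hC4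
    linarith [(abs_le.1 h1).2]

/-- uniform lower bounds of the Wilson loop -/
lemma unif_W (ho : Obs μ χ) {m : ℕ} (hg : Gen D m 1)
    (hadm : ∀ β, Adm (Zb β)) (hK : 0 ≤ K) (i : ℕ) :
    ∃ δ : ℝ, 0 < δ ∧ ∀ β J h ρ, Pk μ χ D Zb P c C A R H C4 K hq β J h ρ →
      ∀ j, j ≤ J + i → δ ≤ WW μ χ (TTn μ (Zb β) j) := by
  set S : ℝ := Real.log 2 + 2 * (2 ^ m * K) with hS
  have hl2 : 0 < Real.log 2 := Real.log_pos (by norm_num)
  have hS0 : 0 < S := by positivity
  have hS1 : Real.log 2 ≤ S := by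
    have : 0 ≤ 2 * (2 ^ m * K) := by positivity
    linarith
  refine ⟨Real.exp (-(S * 4 ^ i)), Real.exp_pos _, fun β J h ρ pk j hj => ?_⟩
  have h4 : (1 : ℝ) ≤ 4 ^ i := one_le_pow₀ (by norm_num)
  rcases Nat.lt_or_ge J j with hJ | hJ
  · obtain ⟨l, rfl⟩ := Nat.exists_eq_add_of_le hJ.le
    have hAJ := (hadm β).TTn (μ := μ) J
    have hw := pk.half J le_rfl
    have hw0 : 0 < WW μ χ (TTn μ (Zb β) J) := by linarith
    have h1 := ho.al_upper hg hK hAJ pk.sc hw0 l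
    have h2 := Real.log_le_log (by norm_num) hw
    rw [Real.log_div (by norm_num) (by norm_num), Real.log_one] at h2
    have h3 : al μ χ (TTn μ (Zb β) J) l ≤ S := by linarith
    unfold al wl at h3
    rw [div_le_iff₀ (by positivity), ← TTn_add] at h3
    have hpos := ho.pos hAJ hw0 l
    rw [← TTn_add] at hpos
    have hli : (4 : ℝ) ^ l ≤ 4 ^ i := pow_le_pow_right₀ (by norm_num) (by omega)
    have h5 : -(S * 4 ^ i) ≤ Real.log (WW μ χ (TTn μ (Zb β) (J + l))) := by nlinarith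
    have h6 := Real.exp_le_exp.2 h5
    rwa [Real.exp_log hpos] at h6
  · have h1 := pk.half j hJ
    refine le_trans ?_ h1
    have h2 : Real.exp (-(S * 4 ^ i)) ≤ Real.exp (-Real.log 2) :=
      Real.exp_le_exp.2 (by nlinarith)
    have h3 : Real.exp (-Real.log 2) = 1 / 2 := by
      rw [Real.exp_neg, Real.exp_log (by norm_num)]
      norm_num
    linarith

end

end Pool.Agent.N989.MK
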