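import Mathlib
import Pool.Agent.N989.MK.Clus
import Pool.Agent.N989.MK.Lim

/-!
# The covariance of two plaquettes
-/

open MeasureTheory Pool.Agent.N991.MK

namespace Pool.Agent.N989.MK

set_option linter.unusedSectionVars false

noncomputable section

variable {G : Type*} [Group G] [TopologicalSpace G] [IsTopologicalGroup G] [CompactSpace G]
  [MeasurableSpace G] [BorelSpace G] [SecondCountableTopology G]
  (μ : Measure G) [IsProbabilityMeasure μ] [μ.IsHaarMeasure] [μ.IsMulRightInvariant]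
  [μ.IsInvInvariant]

variable {μ} {Z : G → ℝ}

open Classical in
/-- a single insertion -/
def ins1 {n : ℕ} (p : Pq n) (f : G → ℝ) : Pq n → G → ℝ := fun p' x => if p' = p then f x else 1

lemma ins1_ins {n : ℕ} (p : Pq n) {f : G → ℝ} (hf : Continuous f) (hc : Cls f)
    (hb : ∀ x, |f x| ≤ 1) : Ins (ins1 p f) := by
  refine ⟨fun p' => ?_, fun p' g x => ?_, fun p' x => ?_⟩
  · unfold ins1
    by_cases h : p' = p
    · simpa [h] using hf
    · simpa [h] using continuous_const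
  · unfold ins1
    by_cases h : p' = p
    · simp only [h, if_true]; exact hc g x
    · simp [h]
  · unfold ins1
    by_cases h : p' = p
    · simp only [h, if_true]; exact hb x
    · simp [h]

lemma prod_ins1 {n : ℕ} (p : Pq n) (f : G → ℝ) (U : Ed n → G) :
    ∏ p' : Pq n, ins1 p f p' (hol U p') = f (hol U p) := by
  rw [Finset.prod_eq_single p]
  · simp [ins1]
  · intro b _ hb
    simp [ins1, hb]
  · intro h
    exact absurd (Finset.mem_univ _) h

lemma part_eq (hZ : Adm Z) (n : ℕ) :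
    ∫ U : Ed n → G, wt Z U ∂(Measure.pi fun _ => μ) = ∫ x, TTn μ Z n x ∂μ := by
  have h1 := int_ZZ (μ := μ) (n := n) (w := fun _ => Z) (fun _ => hZ.cont) (fun _ => hZ.cls)
  have h2 : ZZ μ n (fun _ => Z) = TTn μ Z n := by
    have h3 := WF_one (μ := μ) (Z := Z) n (fun _ _ => 1) (fun _ _ => rfl)
    unfold WF at h3
    simpa using h3
  rw [h2] at h1
  exact h1

lemma Ex_one (hZ : Adm Z) {n : ℕ} (p : Pq n) {f : G → ℝ} (hf : Continuous f) (hc : Cls f)
    (hb : ∀ x, |f x| ≤ 1) :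
    Ex μ Z n (fun U => f (hol U p)) = (∫ x, WF μ Z n (ins1 p f) x ∂μ) / ∫ x, TTn μ Z n x ∂μ := by
  unfold Ex
  rw [part_eq hZ]
  congr 1
  have hI := ins1_ins p hf hc hb
  have h1 := int_ZZ (μ := μ) (n := n) (w := fun p' x => Z x * ins1 p f p' x)
    (fun p' => hZ.cont.mul (hI.c p')) (fun p' g x => by beta_reduce; rw [hZ.cls, hI.l p'])
  rw [WF, ← h1]
  refine integral_congr_ae (Filter.Eventually.of_forall fun U => ?_)
  beta_reduce
  unfold wtt wt
  rw [Finset.prod_mul_distrib, prod_ins1, mul_comm]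

lemma Ex_two (hZ : Adm Z) {n : ℕ} (p q : Pq n) {f g : G → ℝ} (hf : Continuous f) (hc : Cls f)
    (hb : ∀ x, |f x| ≤ 1) (hg : Continuous g) (hgc : Cls g) (hgb : ∀ x, |g x| ≤ 1) :
    Ex μ Z n (fun U => f (hol U p) * g (hol U q)) =
      (∫ x, WF μ Z n (fun p' x => ins1 p f p' x * ins1 q g p' x) x ∂μ) /
        ∫ x, TTn μ Z n x ∂μ := by
  unfold Ex
  rw [part_eq hZ]
  congr 1
  have hI := (ins1_ins p hf hc hb).mul (ins1_ins q hg hgc hgb)
  have h1 := int_ZZ (μ := μ) (n := n)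
    (w := fun p' x => Z x * (ins1 p f p' x * ins1 q g p' x))
    (fun p' => hZ.cont.mul (hI.c p')) (fun p' g' x => by
      have := hI.l p' g' x
      beta_reduce at this
      beta_reduce
      rw [hZ.cls, this])
  rw [WF, ← h1]
  refine integral_congr_ae (Filter.Eventually.of_forall fun U => ?_)
  beta_reduce
  unfold wtt wt
  rw [Finset.prod_mul_distrib, Finset.prod_mul_distrib, prod_ins1, prod_ins1, mul_comm]

lemma ratio_bd {A M κ e : ℝ} (hM : 0 < M) (h : |A - κ * M| ≤ e * M) : |A / M - κ| ≤ e := by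
  have e1 : A / M - κ = (A - κ * M) / M := by field_simp
  rw [e1, abs_div, abs_of_pos hM, div_le_iff₀ hM]
  exact h

lemma int_bd {A M : G → ℝ} {κ e : ℝ} (hA : Continuous A) (hM : Continuous M)
    (h : ∀ x, |A x - κ * M x| ≤ e * M x) :
    |(∫ x, A x ∂μ) - κ * ∫ x, M x ∂μ| ≤ e * ∫ x, M x ∂μ := by
  have c1 : Continuous fun x => κ * M x := continuous_const.mul hM
  rw [← integral_const_mul, ← integral_const_mul, ← integral_sub (integrable_of_cont hA)
    (integrable_of_cont c1)]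
  refine (abs_integral_le_integral_abs).trans ?_
  exact integral_mono (integrable_of_cont (hA.sub c1).abs)
    (integrable_of_cont (continuous_const.mul hM)) h

theorem Cv_trivial (hZ : Adm Z) {n : ℕ} (p q : Pq n) {f g : G → ℝ} (hf : Continuous f)
    (hc : Cls f) (hb : ∀ x, |f x| ≤ 1) (hg : Continuous g) (hgc : Cls g)
    (hgb : ∀ x, |g x| ≤ 1) : |Cv μ Z n p q f g| ≤ 2 := by
  have hA := hZ.TTn (μ := μ) n
  have hM := hA.ipos (μ := μ)
  have key : ∀ F : Pq n → G → ℝ, Ins F →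
      |(∫ x, WF μ Z n F x ∂μ) / ∫ x, TTn μ Z n x ∂μ| ≤ 1 := by
    intro F hF
    rw [abs_div, abs_of_pos hM, div_le_one hM]
    refine (abs_integral_le_integral_abs).trans ?_
    exact integral_mono (integrable_of_cont (WF_cont hZ hF).abs) hA.integrable
      (fun y => WF_le hZ n _ hF y)
  unfold Cv
  rw [Ex_two hZ p q hf hc hb hg hgc hgb, Ex_one hZ p hf hc hb, Ex_one hZ q hg hgc hgb]
  have h1 := key _ ((ins1_ins p hf hc hb).mul (ins1_ins q hg hgc hgb))
  have h2 := key _ (ins1_ins p hf hc hb)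
  have h3 := key _ (ins1_ins q hg hgc hgb)
  refine (abs_sub _ _).trans ?_
  rw [abs_mul]
  have h4 := mul_le_mul h2 h3 (abs_nonneg _) zero_le_one
  linarith

theorem Cv_bound (hZ : Adm Z) {a : ℝ} (ha1 : a ≤ 1 / 10) {j : ℕ} (hs : Sm μ a (TTn μ Z j))
    {n : ℕ} (p q : Pq n) (hj : anc n p q = j + 1) {f g : G → ℝ} (hf : Continuous f)
    (hc : Cls f) (hb : ∀ x, |f x| ≤ 1) (hg : Continuous g) (hgc : Cls g)
    (hgb : ∀ x, |g x| ≤ 1) : |Cv μ Z n p q f g| ≤ 36 * a := by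
  have hA := hZ.TTn (μ := μ) n
  have hM := hA.ipos (μ := μ)
  have i1 := ins1_ins p hf hc hb
  have i2 := ins1_ins q hg hgc hgb
  obtain ⟨κ, l, k1, k2, k3, k4, k5⟩ := clus hZ ha1 hs n p q (ins1 p f) (ins1 q g) i1 i2
    (fun p' hp' x => by simp [ins1, hp']) (fun p' hp' x => by simp [ins1, hp']) hj
  have h3 := ratio_bd hM (int_bd (μ := μ) (WF_cont hZ (i1.mul i2)) hA.cont k3)
  have h4 := ratio_bd hM (int_bd (μ := μ) (WF_cont hZ i1) hA.cont k4)
  have h5 := ratio_bd hM (int_bd (μ := μ) (WF_cont hZ i2) hA.cont k5)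
  unfold Cv
  rw [Ex_two hZ p q hf hc hb hg hgc hgb, Ex_one hZ p hf hc hb, Ex_one hZ q hg hgc hgb]
  set E12 := (∫ x, WF μ Z n (fun p' x => ins1 p f p' x * ins1 q g p' x) x ∂μ) /
    ∫ x, TTn μ Z n x ∂μ
  set E1 := (∫ x, WF μ Z n (ins1 p f) x ∂μ) / ∫ x, TTn μ Z n x ∂μ with hE1
  set E2 := (∫ x, WF μ Z n (ins1 q g) x ∂μ) / ∫ x, TTn μ Z n x ∂μ
  have h6 : |E1| ≤ 1 := by
    rw [hE1, abs_div, abs_of_pos hM, div_le_one hM]
    refine (abs_integral_le_integral_abs).trans ?_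
    exact integral_mono (integrable_of_cont (WF_cont hZ i1).abs) hA.integrable
      (fun y => WF_le hZ n _ i1 y)
  have e1 : E12 - E1 * E2 = (E12 - κ * l) - (E1 * (E2 - l) + l * (E1 - κ)) := by ring
  rw [e1]
  refine (abs_sub _ _).trans ?_
  have h7 : |E1 * (E2 - l) + l * (E1 - κ)| ≤ 12 * a + 12 * a := by
    refine (abs_add_le _ _).trans ?_
    rw [abs_mul, abs_mul]
    have h8 := mul_le_mul h6 h5 (abs_nonneg _) zero_le_one
    have h9 := mul_le_mul k2 h4 (abs_nonneg _) zero_le_one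
    linarith
  linarith

/-- a numerical estimate of the rate -/
lemma rate_le (i : ℕ) : 10 / 21 * (21 / 100 : ℝ) ^ 4 ^ i ≤ 1 / 2 * Real.exp (-(4 : ℝ) ^ i) := by
  have h6 : (21 / 100 : ℝ) ≤ Real.exp (-1) := by
    have := Real.exp_one_lt_d9
    rw [Real.exp_neg, le_inv_comm₀ (by norm_num) (Real.exp_pos 1)]
    norm_num at this ⊢
    linarith
  have h7 : (21 / 100 : ℝ) ^ 4 ^ i ≤ Real.exp (-1) ^ 4 ^ i :=
    pow_le_pow_left₀ (by norm_num) h6 _
  have h8 : Real.exp (-1) ^ 4 ^ i = Real.exp (-(4 : ℝ) ^ i) := by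
    rw [← Real.exp_nat_mul]
    push_cast
    ring_nf
  rw [h8] at h7
  have := Real.exp_pos (-(4 : ℝ) ^ i)
  linarith

lemma Sm.mono {a b : ℝ} (hab : a ≤ b) (hZ : Adm Z) (h : Sm μ a Z) : Sm μ b Z := fun x =>
  (h x).trans (mul_le_mul_of_nonneg_right hab hZ.ipos.le)

lemma Sm.scale {a b : ℝ} (hb : 0 < b) (h : Sm μ a Z) : Sm μ a (fun x => b * Z x) := fun x => by
  rw [integral_const_mul, ← mul_sub, abs_mul, abs_of_pos hb]
  have := mul_le_mul_of_nonneg_left (h x) hb.le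
  linarith

/-- **Exponential clustering for a fixed weight** -/
theorem clustering {n : ℕ} {D : ED G n} {m : ℕ} (hg : Gen D m 1) {K : ℝ} (hK : 0 ≤ K) :
    ∃ c : ℝ, 0 < c ∧ ∀ Z : G → ℝ, Adm Z → SC D K Z → ∀ (i : ℕ) (p q : Pq i) (f g : G → ℝ),
      Continuous f → Cls f → (∀ x, |f x| ≤ 1) → Continuous g → Cls g → (∀ x, |g x| ≤ 1) →
      |Cv μ Z i p q f g| ≤ 18 * Real.exp (-(c * 4 ^ anc i p q)) := by
  obtain ⟨k0, hk0⟩ := exists_small (μ := μ) hg hK
  refine ⟨1 / 4 ^ (k0 + 1), by positivity, fun Z hZ hs i p q f g hf hc hb hg' hgc hgb => ?_⟩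
  rcases Nat.lt_or_ge k0 (anc i p q) with h | h
  · obtain ⟨l, hl⟩ := Nat.exists_eq_add_of_lt h
    have hA := hZ.TTn (μ := μ) k0
    have h1 := (hk0 Z hZ hs).TTn hA l
    rw [← TTn_add] at h1
    have h2 := Sm.mono (rate_le l) (hZ.TTn (μ := μ) (k0 + l)) h1
    have h3 : 1 / 2 * Real.exp (-(4 : ℝ) ^ l) ≤ 1 / 10 ∨ l = 0 := by
      rcases Nat.eq_zero_or_pos l with h0 | h0
      · exact Or.inr h0
      · left
        have h4 : (4 : ℝ) ^ 1 ≤ 4 ^ l := pow_le_pow_right₀ (by norm_num) h0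
        have h5 : Real.exp (-(4 : ℝ) ^ l) ≤ Real.exp (-4) :=
          Real.exp_le_exp.2 (by norm_num at h4 ⊢; linarith)
        have h6 : Real.exp (-4) ≤ 1 / 5 := by
          rw [Real.exp_neg, inv_le_comm₀ (Real.exp_pos 4) (by norm_num)]
          have := Real.add_one_le_exp (4 : ℝ)
          norm_num at this ⊢
          linarith
        linarith
    have e1 : (1 : ℝ) / 4 ^ (k0 + 1) * 4 ^ anc i p q = 4 ^ l := by
      rw [hl, show k0 + l + 1 = (k0 + 1) + l by ring, pow_add _ (k0 + 1) l]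
      field_simp
    rw [e1]
    rcases h3 with h3 | h3
    · have h4 := Cv_bound hZ h3 h2 p q hl hf hc hb hg' hgc hgb
      linarith
    · subst h3
      have h5 : Sm μ (1 / 10) (TTn μ Z (k0 + 0)) := by
        have := hk0 Z hZ hs
        simpa using this
      have h4 := Cv_bound hZ le_rfl h5 p q hl hf hc hb hg' hgc hgb
      have h6 : (1 / 5 : ℝ) ≤ Real.exp (-1) := by
        have := Real.exp_one_lt_d9
        rw [Real.exp_neg, le_inv_comm₀ (by norm_num) (Real.exp_pos 1)]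
        norm_num at this ⊢
        linarith
      rw [pow_zero]
      linarith
  · have h1 := Cv_trivial (μ := μ) hZ p q hf hc hb hg' hgc hgb
    refine h1.trans ?_
    have h2 : (1 : ℝ) / 4 ^ (k0 + 1) * 4 ^ anc i p q ≤ 1 := by
      rw [div_mul_eq_mul_div, one_mul, div_le_one (by positivity)]
      exact pow_le_pow_right₀ (by norm_num) (by omega)
    have h3 : Real.exp (-1) ≤ Real.exp (-((1 : ℝ) / 4 ^ (k0 + 1) * 4 ^ anc i p q)) :=
      Real.exp_le_exp.2 (by linarith)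
    have h4 : (1 / 5 : ℝ) ≤ Real.exp (-1) := by
      have := Real.exp_one_lt_d9
      rw [Real.exp_neg, le_inv_comm₀ (by norm_num) (Real.exp_pos 1)]
      norm_num at this ⊢
      linarith
    linarith

lemma anc_pos : ∀ {n : ℕ} {p q : Pq n}, p ≠ q → 0 < anc n p q
  | 0, p, q, h => absurd rfl h
  | n + 1, (s, r, p), (s', r', q), h => by
    by_cases hs : s = s' ∧ r = r'
    · have h1 : p ≠ q := by
        rintro rfl
        apply h
        rw [hs.1, hs.2]
      simp only [anc, if_pos hs]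
      exact anc_pos h1
    · simp only [anc, if_neg hs]
      omega

/-- **Exponential clustering along a two-sided trajectory** -/
theorem clustering_traj {n : ℕ} {D : ED G n} {m : ℕ} (hg : Gen D m 1) {Fk : ℤ → G → ℝ}
    (hA : ∀ k, Adm (Fk k)) (h1 : ∀ k, ∫ x, Fk k x ∂μ = 1)
    (hr : ∀ k, Fk (k + 1) = nrm μ (TT μ (Fk k))) {K : ℝ} (hK : 0 ≤ K) (hs : SC D K (Fk 0)) :
    ∃ c : ℝ, 0 < c ∧ ∀ (k : ℤ) (i : ℕ) (p q : Pq i) (f g : G → ℝ), p ≠ q →
      Continuous f → Cls f → (∀ x, |f x| ≤ 1) → Continuous g → Cls g → (∀ x, |g x| ≤ 1) →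
      |Cv μ (Fk k) i p q f g| ≤ 18 * Real.exp (-(c * (4 : ℝ) ^ (k + anc i p q))) := by
  -- the iteration
  have hit : ∀ (k : ℤ) (j : ℕ), ∃ b : ℝ, 0 < b ∧ TTn μ (Fk k) j = fun x => b * Fk (k + j) x := by
    intro k j
    induction j with
    | zero =>
      refine ⟨1, one_pos, ?_⟩
      funext x
      simp [Pool.Agent.N989.MK.TTn]
    | succ j ih =>
      obtain ⟨b, hb, hb2⟩ := ih
      have h2 : TTn μ (Fk k) (j + 1) = TT μ (TTn μ (Fk k) j) := rfl
      have hI := ((hA (k + j)).TT (μ := μ)).ipos (μ := μ)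
      refine ⟨b ^ 16 * ∫ x, TT μ (Fk (k + j)) x ∂μ, by positivity, ?_⟩
      rw [h2, hb2, TT_scale]
      funext x
      have h3 : Fk (k + ((j + 1 : ℕ) : ℤ)) = nrm μ (TT μ (Fk (k + j))) := by
        rw [← hr]
        congr 1
        push_cast
        ring
      rw [h3]
      unfold Pool.Agent.N989.MK.nrm
      field_simp
  obtain ⟨k0, hk0⟩ := exists_small (μ := μ) hg hK
  -- the deviations of the functions
  have hSm : ∀ l : ℕ, Sm μ (10 / 21 * (21 / 100 : ℝ) ^ 4 ^ l) (Fk ((k0 + l : ℕ) : ℤ)) := by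
    intro l
    have h2 := (hk0 _ (hA 0) hs).TTn ((hA 0).TTn k0) l
    rw [← TTn_add] at h2
    obtain ⟨b, hb, hb2⟩ := hit 0 (k0 + l)
    rw [hb2, zero_add] at h2
    have h3 := Sm.scale (inv_pos.2 hb) h2
    have e : (fun x => b⁻¹ * (b * Fk ((k0 + l : ℕ) : ℤ) x)) = Fk ((k0 + l : ℕ) : ℤ) := by
      funext x
      rw [inv_mul_cancel_left₀ hb.ne']
    rwa [e] at h3
  refine ⟨(4 : ℝ) ^ (-((k0 : ℤ) + 1)), by positivity,
    fun k i p q f g hpq hf hc hb hg' hgc hgb => ?_⟩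
  have e0 : (4 : ℝ) ^ (-((k0 : ℤ) + 1)) * (4 : ℝ) ^ (k + anc i p q) =
      (4 : ℝ) ^ (k + anc i p q - (k0 + 1)) := by
    rw [← zpow_add₀ (by norm_num)]
    congr 1
    ring
  rw [e0]
  rcases le_or_gt (k + anc i p q - (k0 + 1)) 0 with h | h
  · have h2 := Cv_trivial (μ := μ) (hA k) p q hf hc hb hg' hgc hgb
    refine h2.trans ?_
    have h3 : (4 : ℝ) ^ (k + anc i p q - (k0 + 1)) ≤ 1 := zpow_le_one_of_nonpos₀ (by norm_num) h
    have h4 : Real.exp (-1) ≤ Real.exp (-(4 : ℝ) ^ (k + anc i p q - (k0 + 1))) :=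
      Real.exp_le_exp.2 (by linarith)
    have h5 : (1 / 5 : ℝ) ≤ Real.exp (-1) := by
      have := Real.exp_one_lt_d9
      rw [Real.exp_neg, le_inv_comm₀ (by norm_num) (Real.exp_pos 1)]
      norm_num at this ⊢
      linarith
    linarith
  · have h0 := anc_pos hpq
    · obtain ⟨j, hj⟩ : ∃ j, anc i p q = j + 1 := ⟨anc i p q - 1, by omega⟩
      obtain ⟨l, hl⟩ : ∃ l : ℕ, k + j = ((k0 + (l + 1) : ℕ) : ℤ) := by
        refine ⟨(k + j - k0 - 1).toNat, ?_⟩
        rw [hj] at h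
        push_cast at h ⊢
        omega
      have h2 := hSm (l + 1)
      rw [← hl] at h2
      obtain ⟨b, hb0, hb2⟩ := hit k j
      have h3 : Sm μ (1 / 2 * Real.exp (-(4 : ℝ) ^ (l + 1))) (TTn μ (Fk k) j) := by
        rw [hb2]
        exact Sm.scale hb0 (Sm.mono (rate_le (l + 1)) (hA _) h2)
      have h4 : 1 / 2 * Real.exp (-(4 : ℝ) ^ (l + 1)) ≤ 1 / 10 := by
        have h4 : (4 : ℝ) ^ 1 ≤ 4 ^ (l + 1) := pow_le_pow_right₀ (by norm_num) (by omega)
        have h5 : Real.exp (-(4 : ℝ) ^ (l + 1)) ≤ Real.exp (-4) :=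
          Real.exp_le_exp.2 (by norm_num at h4 ⊢; linarith)
        have h6 : Real.exp (-4) ≤ 1 / 5 := by
          rw [Real.exp_neg, inv_le_comm₀ (Real.exp_pos 4) (by norm_num)]
          have := Real.add_one_le_exp (4 : ℝ)
          norm_num at this ⊢
          linarith
        linarith
      have h5 := Cv_bound (hA k) h4 h3 p q hj hf hc hb hg' hgc hgb
      have e1 : (4 : ℝ) ^ (k + anc i p q - (k0 + 1)) = 4 ^ (l + 1) := by
        have : k + (anc i p q : ℤ) - (k0 + 1) = ((l + 1 : ℕ) : ℤ) := by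
          rw [hj]
          push_cast at hl ⊢
          omega
        rw [this, zpow_natCast]
      rw [e1]
      linarith

end

end Pool.Agent.N989.MK
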