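import Mathlib
import Pool.Agent.N989.MK.Defs

/-!
# The gauge group, the action and the limit theory
-/

open MeasureTheory Matrix Filter
open scoped Topology

namespace Pool.Agent.N989.MK

noncomputable section

variable {N n : ℕ}

/-- The matrix of an element of a group of unitary matrices. -/
def mx {G : Subgroup (unitaryGroup (Fin N) ℂ)} (g : G) : Matrix (Fin N) (Fin N) ℂ :=
  ((g : unitaryGroup (Fin N) ℂ) : Matrix (Fin N) (Fin N) ℂ)

/-- `G` is a compact connected simple Lie group (realised by unitary matrices): it is closed,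
connected, not commutative, and its closed normal subgroups other than `G` are finite. -/
structure SimpleGroup (G : Subgroup (unitaryGroup (Fin N) ℂ)) : Prop where
  closed : IsClosed (G : Set (unitaryGroup (Fin N) ℂ))
  connected : IsConnected (G : Set (unitaryGroup (Fin N) ℂ))
  nonabelian : ∃ g h : G, g * h ≠ h * g
  simple : ∀ K : Subgroup G, K.Normal → IsClosed (K : Set G) → Finite K ∨ K = ⊤

/-- `X` is an orthonormal basis of the Lie algebra of `G`, for the scalar product
`Re tr (A⁎ B) = -Re tr (A B)`. -/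
structure LieBasis (G : Subgroup (unitaryGroup (Fin N) ℂ))
    (X : Fin n → Matrix (Fin N) (Fin N) ℂ) : Prop where
  mem : ∀ a (t : ℝ), ∃ g : G, mx g = NormedSpace.exp (t • X a)
  orth : ∀ a b, (trace ((X a)ᴴ * X b)).re = if a = b then 1 else 0
  full : ∀ Y : Matrix (Fin N) (Fin N) ℂ, (∀ t : ℝ, ∃ g : G, mx g = NormedSpace.exp (t • Y)) →
    Y ∈ Submodule.span ℝ (Set.range X)

/-- `P` is the orthogonal projection on a subspace of `ℂ ^ N` on which `G` acts by a non-trivial
irreducible representation. -/
structure Constituent (G : Subgroup (unitaryGroup (Fin N) ℂ)) (P : Matrix (Fin N) (Fin N) ℂ) :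
    Prop where
  herm : Pᴴ = P
  idem : P * P = P
  ne : P ≠ 0
  comm : ∀ g : G, P * mx g = mx g * P
  irr : ∀ A : Matrix (Fin N) (Fin N) ℂ, (∀ g : G, A * mx g = mx g * A) →
    ∃ c : ℂ, P * A * P = c • P
  nontriv : ∃ g : G, P * mx g ≠ P

/-- Wilson's weight of a plaquette at the inverse coupling `β`. -/
def act (G : Subgroup (unitaryGroup (Fin N) ℂ)) (β : ℝ) (g : G) : ℝ :=
  Real.exp (β * (trace (mx g)).re)

/-- The normalised real character of the constituent `P`. -/
def chr {G : Subgroup (unitaryGroup (Fin N) ℂ)} (P : Matrix (Fin N) (Fin N) ℂ) (g : G) : ℝ :=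
  (trace (P * mx g)).re / (trace P).re

variable {G : Subgroup (unitaryGroup (Fin N) ℂ)} [MeasurableSpace G]

/-- The expectation of the Wilson loop, in the constituent `P`, around the hierarchical square of
level `k` in the gauge theory with plaquette weight `w`. -/
def wloop (μ : Measure G) (P : Matrix (Fin N) (Fin N) ℂ) (w : G → ℝ) (k : ℕ) : ℝ :=
  Ex μ w k (fun U => chr P (lp fun e => U (.inl e)))

/-- The lattice theories with Wilson's action at the inverse couplings `β i`, with `2 ^ l i`
lattice units as unit of length, converge to the family `F`: for every scale `2 ^ k`, the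
normalised partition functions of the square with this side, as functions of the field on the
boundary, converge uniformly to `F k`. -/
def ConvTo (μ : Measure G) (β : ℕ → ℝ) (l : ℕ → ℕ) (F : ℤ → G → ℝ) : Prop :=
  ∀ (k : ℤ) (ε : ℝ), 0 < ε → ∀ᶠ i in atTop, ∀ V : BE (((l i : ℤ) + k).toNat) → G,
    |Zb μ (act G (β i)) (((l i : ℤ) + k).toNat) V / Zt μ (act G (β i)) (((l i : ℤ) + k).toNat) -
      F k (lp V)| < ε

/-- The properties of the limit theory `F`: `F k` is the effective weight of the plaquettes with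
side `2 ^ k`, for all integers `k`, in a unit of length in which the Wilson loop around the unit
square has the expectation `u`. -/
structure LimitTheory (μ : Measure G) (X : Fin n → Matrix (Fin N) (Fin N) ℂ)
    (P : Matrix (Fin N) (Fin N) ℂ) (cA u : ℝ) (F : ℤ → G → ℝ) : Prop where
  cont : ∀ k, Continuous (F k)
  pos : ∀ k x, 0 < F k x
  cls : ∀ k g x, F k (g * x * g⁻¹) = F k x
  sym : ∀ k x, F k x⁻¹ = F k x
  int_one : ∀ k, ∫ x, F k x ∂μ = 1
  /-- The theory with the cutoff `2 ^ k` has the effective weights `F (k + j)`. -/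
  consistent : ∀ (k : ℤ) (j : ℕ) (V : BE j → G),
    Zb μ (F k) j V / Zt μ (F k) j = F (k + j) (lp V)
  wilson : ∀ k, 0 < ∫ x, chr P x * F k x ∂μ ∧ ∫ x, chr P x * F k x ∂μ < 1
  unit : ∫ x, chr P x * F 0 x ∂μ = u
  /-- Asymptotic freedom: the coupling read off from small Wilson loops vanishes like the inverse
  of the logarithm of the size, with the perturbative coefficient. -/
  free : ∃ C : ℝ, ∀ j : ℕ, 1 ≤ j → |1 - (∫ x, chr P x * F (-j) x ∂μ) -
    4 * ((∑ a, (trace ((P * X a)ᴴ * (P * X a))).re) / (trace P).re) / (cA * j)| ≤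
      C * (1 + Real.log j) / j ^ 2
  /-- Confinement: the area law. -/
  area : ∃ σ : ℝ, 0 < σ ∧
    Tendsto (fun k : ℕ => -Real.log (∫ x, chr P x * F k x ∂μ) / 4 ^ k) atTop (𝓝 σ)
  /-- Mass gap: correlations of class functions of the plaquettes decay exponentially, with the
  same rate at all cutoffs `2 ^ k`. -/
  gap : ∃ C c : ℝ, 0 < c ∧ ∀ (k : ℤ) (i : ℕ) (p q : Pq i) (f g : G → ℝ), p ≠ q →
    Continuous f → (∀ h x, f (h * x * h⁻¹) = f x) → (∀ x, |f x| ≤ 1) →
    Continuous g → (∀ h x, g (h * x * h⁻¹) = g x) → (∀ x, |g x| ≤ 1) →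
    |Cv μ (F k) i p q f g| ≤ C * Real.exp (-(c * (4 : ℝ) ^ (k + anc i p q)))

end

end Pool.Agent.N989.MK
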