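import Mathlib
import Pool.Agent.N989.MK.Model

/-!
# Bare actions
-/

open MeasureTheory Matrix Filter
open scoped Topology

namespace Pool.Agent.N989.MK

noncomputable section

variable {N : ℕ}

/-- The real and the imaginary parts of the entries of the matrix of `g`. -/
def entries {G : Subgroup (unitaryGroup (Fin N) ℂ)} (g : G) :
    (Fin N × Fin N) ⊕ (Fin N × Fin N) → ℝ :=
  Sum.elim (fun i => (mx g i.1 i.2).re) (fun i => (mx g i.1 i.2).im)

/-- `S` is an admissible plaquette action: a class function on `G`, invariant under the inversion,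
which is a polynomial in the real and imaginary parts of the matrix entries (that is, a finite real
linear combination of characters) and whose maximum is attained at the identity only and is not
degenerate. The plaquette weight with the inverse coupling `β` is `exp (β * S)`; Wilson's action
is `S g = Re (trace g)`. -/
structure BareAction (G : Subgroup (unitaryGroup (Fin N) ℂ)) (S : G → ℝ) : Prop where
  poly : ∃ p : MvPolynomial ((Fin N × Fin N) ⊕ (Fin N × Fin N)) ℝ,
    ∀ g, S g = MvPolynomial.eval (entries g) p
  cls : ∀ h g, S (h * g * h⁻¹) = S g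
  sym : ∀ g, S g⁻¹ = S g
  max : ∃ c : ℝ, 0 < c ∧ ∀ g, c * (N - (trace (mx g)).re) ≤ S 1 - S g

/-- The weight of a plaquette with the action `S` at the inverse coupling `β`. -/
def bw {G : Type*} (S : G → ℝ) (β : ℝ) (g : G) : ℝ := Real.exp (β * S g)

/-- `κ` is the curvature of the action `S` at the identity: `S 1 - S (exp Y)` is
`κ / 2 * |Y| ^ 2` up to higher order. -/
def Curv {n : ℕ} {G : Subgroup (unitaryGroup (Fin N) ℂ)}
    (X : Fin n → Matrix (Fin N) (Fin N) ℂ) (S : G → ℝ) (κ : ℝ) : Prop :=
  ∀ (a : Fin n) (γ : ℝ → G), (∀ t, mx (γ t) = NormedSpace.exp (t • X a)) →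
    Tendsto (fun t => (S 1 - S (γ t)) / t ^ 2) (𝓝[≠] 0) (𝓝 (κ / 2))

end

end Pool.Agent.N989.MK
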