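import Mathlib
import Pool.Agent.N989.MK.Obs

/-!
# Compactness of the families of normalised densities
-/

open MeasureTheory Pool.Agent.N991.MK Filter BoundedContinuousFunction
open scoped Topology

namespace Pool.Agent.N989.MK

set_option linter.unusedSectionVars false

noncomputable section

section basic

variable {G : Type*} [Group G] {n : ℕ} {D : ED G n}

/-- iterated doubling -/
lemma SC.dbl_iter {K : ℝ} {f : G → ℝ} (hf : SC D K f) (X : Fin n → ℝ) (x : G) (j : ℕ) :
    2 ^ j * (Real.log (f (D.E X * x)) - Real.log (f x)) - K * qf X * 4 ^ j / 2 ≤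
      Real.log (f (D.E ((2 : ℝ) ^ j • X) * x)) - Real.log (f x) - K * qf X * 2 ^ j / 2 := by
  induction j with
  | zero => simp
  | succ j ih =>
    have h1 := hf ((2 : ℝ) ^ j • X) (D.E ((2 : ℝ) ^ j • X) * x)
    have e1 : D.E ((2 : ℝ) ^ j • X) * (D.E ((2 : ℝ) ^ j • X) * x) =
        D.E ((2 : ℝ) ^ (j + 1) • X) * x := by
      rw [← mul_assoc, ← D.dbl, smul_smul, pow_succ, mul_comm (2 : ℝ)]
    have e2 : D.E (-((2 : ℝ) ^ j • X)) * (D.E ((2 : ℝ) ^ j • X) * x) = x := by
      rw [D.neg, inv_mul_cancel_left]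
    rw [e1, e2, qf_smul] at h1
    have e3 : ((2 : ℝ) ^ j) ^ 2 = 4 ^ j := by
      rw [← pow_mul, mul_comm, pow_mul]; norm_num
    rw [e3] at h1
    rw [pow_succ, pow_succ] at *
    nlinarith

/-- the modulus of continuity of semiconcave functions -/
lemma SC.modulus {K Λ : ℝ} {f : G → ℝ} (hf : SC D K f)
    (ho : ∀ x y, Real.log (f x) - Real.log (f y) ≤ Λ) (hK : 0 ≤ K) (X : Fin n → ℝ) (x : G)
    (j : ℕ) : Real.log (f (D.E X * x)) - Real.log (f x) ≤ Λ / 2 ^ j + K * qf X * 2 ^ j / 2 := by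
  have h1 := hf.dbl_iter X x j
  have h2 := ho (D.E ((2 : ℝ) ^ j • X) * x) x
  have h3 : 0 ≤ K * qf X * 2 ^ j / 2 := by
    have := qf_nonneg X
    positivity
  have h4 : 2 ^ j * (Real.log (f (D.E X * x)) - Real.log (f x)) ≤
      Λ + K * qf X * 4 ^ j / 2 := by linarith
  have e3 : ((4 : ℝ)) ^ j = 2 ^ j * 2 ^ j := by
    rw [← mul_pow]; norm_num
  have h5 : (0 : ℝ) < 2 ^ j := by positivity
  rw [e3] at h4
  have h6 : Λ / 2 ^ j + K * qf X * 2 ^ j / 2 =
      (Λ + K * qf X * (2 ^ j * 2 ^ j) / 2) / 2 ^ j := by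
    field_simp
  rw [h6, le_div_iff₀ h5]
  linarith

lemma SC.modulus_abs {K Λ : ℝ} {f : G → ℝ} (hf : SC D K f)
    (ho : ∀ x y, Real.log (f x) - Real.log (f y) ≤ Λ) (hK : 0 ≤ K) (X : Fin n → ℝ) (x : G)
    (j : ℕ) : |Real.log (f (D.E X * x)) - Real.log (f x)| ≤
      Λ / 2 ^ j + K * qf X * 2 ^ j / 2 := by
  rw [abs_le]
  refine ⟨?_, hf.modulus ho hK X x j⟩
  have h1 := hf.modulus ho hK (-X) (D.E X * x) j
  have e2 : D.E (-X) * (D.E X * x) = x := by
    rw [D.neg, inv_mul_cancel_left]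
  have e : qf (-X) = qf X := by
    rw [← neg_one_smul ℝ X, qf_smul]; norm_num
  rw [e2, e] at h1
  linarith

end basic

variable {G : Type*} [Group G] [TopologicalSpace G] [IsTopologicalGroup G] [CompactSpace G]
  [MeasurableSpace G] [BorelSpace G] [SecondCountableTopology G]
  {μ : Measure G} [IsProbabilityMeasure μ] [μ.IsHaarMeasure] [μ.IsMulRightInvariant]
  [μ.IsInvInvariant] {χ : G → ℝ} {n : ℕ} {D : ED G n}

variable (μ D)

/-- normalised densities -/
def SS (K : ℝ) : Set (G →ᵇ ℝ) := {f | Adm (f : G → ℝ) ∧ SC D K f ∧ ∫ x, f x ∂μ = 1}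

variable {μ D}

lemma SS_bounds {m : ℕ} (hg : Gen D m 1) {K : ℝ} (hK : 0 ≤ K) {f : G → ℝ} (h1 : Adm f)
    (h2 : SC D K f) (h3 : ∫ x, f x ∂μ = 1) (x : G) :
    Real.exp (-(2 ^ m * K)) ≤ f x ∧ f x ≤ Real.exp (2 ^ m * K) := by
  have ho : ∀ x y, Real.log (f x) - Real.log (f y) ≤ 2 ^ m * K := fun x y => by
    simpa using h2.osc zero_le_one hg hK h1.cont h1.pos x y
  have hh : ∀ x y, f x ≤ Real.exp (2 ^ m * K) * f y := fun x y => by
    calc f x = Real.exp (Real.log (f x)) := (Real.exp_log (h1.pos x)).symm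
      _ ≤ Real.exp (2 ^ m * K + Real.log (f y)) := Real.exp_le_exp.2 (by linarith [ho x y])
      _ = _ := by rw [Real.exp_add, Real.exp_log (h1.pos y)]
  constructor
  · have h4 := integral_mono (μ := μ) h1.integrable (integrable_const _) (fun y => hh y x)
    rw [h3] at h4
    simp only [integral_const, probReal_univ, one_smul] at h4
    have h5 : Real.exp (-(2 ^ m * K)) * Real.exp (2 ^ m * K) = 1 := by
      rw [← Real.exp_add]; simp
    have h6 := mul_le_mul_of_nonneg_left h4 (Real.exp_pos (-(2 ^ m * K))).le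
    rw [← mul_assoc, h5] at h6
    linarith
  · have h4 := integral_mono (μ := μ) (integrable_const _)
      (h1.integrable.const_mul (Real.exp (2 ^ m * K))) (fun y => hh x y)
    rw [integral_const_mul, h3] at h4
    simpa using h4

/-- **Compactness** -/
theorem SS_compact {m : ℕ} (hg : Gen D m 1)
    (hnb : ∀ δ : ℝ, 0 < δ → {g : G | ∃ X, qf X ≤ δ ∧ g = D.E X} ∈ 𝓝 (1 : G)) {K : ℝ}
    (hK : 0 ≤ K) : IsCompact (closure (SS μ D K)) := by
  refine BoundedContinuousFunction.arzela_ascoli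
    (Set.Icc (Real.exp (-(2 ^ m * K))) (Real.exp (2 ^ m * K))) isCompact_Icc _ ?_ ?_
  · rintro f x ⟨h1, h2, h3⟩
    exact SS_bounds hg hK h1 h2 h3 x
  · intro x0
    rw [Metric.equicontinuousAt_iff_right]
    intro ε hε
    set Λ : ℝ := 2 ^ m * K with hΛ
    have hΛ0 : 0 ≤ Λ := by positivity
    set M := Real.exp Λ with hM
    have hM0 : 0 < M := Real.exp_pos _
    -- choose the scales
    set η : ℝ := min 1 (ε / (4 * M)) with hη
    have hη0 : 0 < η := lt_min one_pos (by positivity)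
    obtain ⟨j, hj⟩ : ∃ j : ℕ, Λ / 2 ^ j < η / 2 := by
      have h1 : Tendsto (fun j : ℕ => Λ * (1 / 2) ^ j) atTop (𝓝 (Λ * 0)) :=
        (tendsto_pow_atTop_nhds_zero_of_lt_one (by norm_num) (by norm_num)).const_mul Λ
      rw [mul_zero] at h1
      obtain ⟨j, hj⟩ := (h1.eventually (gt_mem_nhds (show 0 < η / 2 by linarith))).exists
      refine ⟨j, ?_⟩
      rwa [one_div, inv_pow, ← div_eq_mul_inv] at hj
    set δ : ℝ := η / (2 * (K + 1) * 2 ^ j) with hδ
    have hδ0 : 0 < δ := by positivity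
    have hU : (fun y => y * x0⁻¹) ⁻¹' {g : G | ∃ X, qf X ≤ δ ∧ g = D.E X} ∈ 𝓝 x0 := by
      have hc1 : ContinuousAt (fun y : G => y * x0⁻¹) x0 :=
        (continuous_id.mul continuous_const).continuousAt
      apply hc1
      simpa using hnb δ hδ0
    filter_upwards [hU] with y hy
    obtain ⟨X, hX, hy⟩ := hy
    rintro ⟨f, h1, h2, h3⟩
    have ho : ∀ x y, Real.log (f x) - Real.log (f y) ≤ Λ := fun x y => by
      simpa using h2.osc zero_le_one hg hK h1.cont h1.pos x y
    have hyx : y = D.E X * x0 := by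
      rw [← hy]; simp
    have h4 := h2.modulus_abs ho hK X x0 j
    rw [← hyx] at h4
    have h5 : K * qf X * 2 ^ j / 2 ≤ η / 4 := by
      have h6 : K * qf X ≤ (K + 1) * δ := by
        have := qf_nonneg X
        nlinarith
      have h7 : (K + 1) * δ * 2 ^ j / 2 = η / 4 := by
        rw [hδ]
        have : K + 1 ≠ 0 := by positivity
        field_simp
        ring
      rw [← h7]
      have : (0 : ℝ) < 2 ^ j := by positivity
      nlinarith
    have h6 : |Real.log (f y) - Real.log (f x0)| ≤ η := by linarith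
    have hη1 : η ≤ 1 := min_le_left _ _
    have h7 : |Real.exp (Real.log (f y) - Real.log (f x0)) - 1| ≤
        2 * |Real.log (f y) - Real.log (f x0)| := Real.abs_exp_sub_one_le (h6.trans hη1)
    have h8 : Real.exp (Real.log (f y) - Real.log (f x0)) = f y / f x0 := by
      rw [Real.exp_sub, Real.exp_log (h1.pos y), Real.exp_log (h1.pos x0)]
    rw [h8] at h7
    have h9 := SS_bounds (μ := μ) hg hK h1 h2 h3 x0
    have h10 := h1.pos x0
    have h11 : f y - f x0 = f x0 * (f y / f x0 - 1) := by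
      field_simp
    show dist (f x0) (f y) < ε
    rw [dist_comm, Real.dist_eq, h11, abs_mul, abs_of_pos h10]
    calc f x0 * |f y / f x0 - 1| ≤ M * (2 * η) := by
          refine mul_le_mul h9.2 (h7.trans ?_) (abs_nonneg _) hM0.le
          linarith
      _ ≤ M * (2 * (ε / (4 * M))) := by
          refine mul_le_mul_of_nonneg_left ?_ hM0.le
          linarith [min_le_right 1 (ε / (4 * M))]
      _ = ε / 2 := by field_simp; ring
      _ < ε := by linarith

/-! ### Limits of densities -/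

/-- bounded pointwise convergence -/
structure Lm (B : ℝ) (f : ℕ → G → ℝ) (F : G → ℝ) : Prop where
  c : ∀ i, Continuous (f i)
  b : ∀ i x, |f i x| ≤ B
  C : Continuous F
  l : ∀ x, Tendsto (fun i => f i x) atTop (𝓝 (F x))

lemma Lm.int {B : ℝ} {f : ℕ → G → ℝ} {F : G → ℝ} (h : Lm B f F) :
    Tendsto (fun i => ∫ x, f i x ∂μ) atTop (𝓝 (∫ x, F x ∂μ)) :=
  tendsto_integral_of_dominated_convergence (fun _ => B)
    (fun i => (integrable_of_cont (h.c i)).aestronglyMeasurable) (integrable_const _)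
    (fun i => Eventually.of_forall fun x => h.b i x) (Eventually.of_forall h.l)

lemma Lm.conv {B : ℝ} {f : ℕ → G → ℝ} {F : G → ℝ} (h : Lm B f F) :
    Lm (B * B) (fun i => conv μ (f i) (f i)) (conv μ F F) := by
  have hb : ∀ i x y, |f i y * f i (y⁻¹ * x)| ≤ B * B := fun i x y => by
    rw [abs_mul]
    exact mul_le_mul (h.b i y) (h.b i _) (abs_nonneg _) ((abs_nonneg _).trans (h.b i y))
  have hcc : ∀ i x, Continuous fun y => f i y * f i (y⁻¹ * x) := fun i x => by
    have := h.c i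
    fun_prop
  refine ⟨fun i => cont_conv (h.c i) (h.c i), fun i x => ?_, cont_conv h.C h.C, fun x => ?_⟩
  · have h1 : ∀ y, ‖f i y * f i (y⁻¹ * x)‖ ≤ B * B := fun y => hb i x y
    have := norm_integral_le_of_norm_le_const (μ := μ) (Eventually.of_forall h1)
    simp only [probReal_univ, mul_one] at this
    exact this
  · exact tendsto_integral_of_dominated_convergence (fun _ => B * B)
      (fun i => (integrable_of_cont (hcc i x)).aestronglyMeasurable) (integrable_const _)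
      (fun i => Eventually.of_forall fun y => hb i x y)
      (Eventually.of_forall fun y => (h.l y).mul (h.l _))

lemma Lm.mulr {B : ℝ} {f : ℕ → G → ℝ} {F : G → ℝ} (h : Lm B f F) {χ : G → ℝ}
    (hχ : Continuous χ) (hb : ∀ x, |χ x| ≤ 1) :
    Lm B (fun i x => f i x * χ x) (fun x => F x * χ x) :=
  ⟨fun i => (h.c i).mul hχ, fun i x => by
    rw [abs_mul]
    calc |f i x| * |χ x| ≤ B * 1 :=
          mul_le_mul (h.b i x) (hb x) (abs_nonneg _) ((abs_nonneg _).trans (h.b i x))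
      _ = B := mul_one B, h.C.mul hχ, fun x => (h.l x).mul_const _⟩

lemma Lm.pow {B : ℝ} {f : ℕ → G → ℝ} {F : G → ℝ} (h : Lm B f F) (m : ℕ) :
    Lm (B ^ m) (fun i x => f i x ^ m) (fun x => F x ^ m) :=
  ⟨fun i => (h.c i).pow m, fun i x => by
    rw [abs_pow]
    exact pow_le_pow_left₀ (abs_nonneg _) (h.b i x) m, h.C.pow m, fun x => (h.l x).pow m⟩

lemma Lm.TT {B : ℝ} {f : ℕ → G → ℝ} {F : G → ℝ} (h : Lm B f F) :
    Lm ((B * B * (B * B)) ^ 4) (fun i => TT μ (f i)) (TT μ F) := h.conv.conv.pow 4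

lemma Lm.WW {B : ℝ} {f : ℕ → G → ℝ} {F : G → ℝ} (h : Lm B f F) (ho : Obs μ χ)
    (hF : ∫ x, F x ∂μ ≠ 0) :
    Tendsto (fun i => WW μ χ (f i)) atTop (𝓝 (WW μ χ F)) :=
  (h.mulr ho.cont ho.le).int.div h.int hF

/-- limits of elements of `SS` -/
lemma SS_limit {m : ℕ} (hg : Gen D m 1) {K : ℝ} (hK : 0 ≤ K) {f : ℕ → (G →ᵇ ℝ)}
    {F : G →ᵇ ℝ} (hf : ∀ᶠ i in atTop, f i ∈ SS μ D K) (hl : Tendsto f atTop (𝓝 F)) :
    F ∈ SS μ D K := by
  have hpt : ∀ x, Tendsto (fun i => f i x) atTop (𝓝 (F x)) := fun x =>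
    (BoundedContinuousFunction.tendsto_iff_tendstoUniformly.1 hl).tendsto_at x
  have hpos : ∀ x, Real.exp (-(2 ^ m * K)) ≤ F x := fun x =>
    ge_of_tendsto (hpt x) (hf.mono fun i hi => (SS_bounds (μ := μ) hg hK hi.1 hi.2.1 hi.2.2 x).1)
  have hpos' : ∀ x, 0 < F x := fun x => (Real.exp_pos _).trans_le (hpos x)
  refine ⟨⟨F.continuous, hpos', fun g x => ?_, fun x => ?_⟩, fun X x => ?_, ?_⟩
  · refine tendsto_nhds_unique (hpt _) ((hpt x).congr' (hf.mono fun i hi => ?_))
    exact (hi.1.cls g x).symm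
  · refine tendsto_nhds_unique (hpt _) ((hpt x).congr' (hf.mono fun i hi => ?_))
    exact (hi.1.sy x).symm
  · have hlog : ∀ y, Tendsto (fun i => Real.log (f i y)) atTop (𝓝 (Real.log (F y))) := fun y =>
      (hpt y).log (hpos' y).ne'
    refine ge_of_tendsto (((hlog (D.E X * x)).add (hlog (D.E (-X) * x))).sub
      ((hlog x).const_mul 2)) (hf.mono fun i hi => hi.2.1 X x)
  · obtain ⟨i0, hi0⟩ := eventually_atTop.1 hf
    have hLm : Lm (Real.exp (2 ^ m * K)) (fun i => (f (i + i0) : G → ℝ)) F := by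
      refine ⟨fun i => (f _).continuous, fun i x => ?_, F.continuous, fun x => ?_⟩
      · have h1 := hi0 (i + i0) (by omega)
        rw [abs_of_pos (h1.1.pos x)]
        exact (SS_bounds (μ := μ) hg hK h1.1 h1.2.1 h1.2.2 x).2
      · exact (tendsto_add_atTop_iff_nat (f := fun i => f i x) i0).2 (hpt x)
    refine tendsto_nhds_unique hLm.int ?_
    have : ∀ i, ∫ x, f (i + i0) x ∂μ = 1 := fun i => (hi0 (i + i0) (by omega)).2.2
    simp only [this]
    exact tendsto_const_nhds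

end

end Pool.Agent.N989.MK
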