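import Mathlib
import Pool.Agent.N989.MK.Cpt
import Pool.Agent.N989.MK.Lim

/-!
# The continuum limit: the two-sided trajectory
-/

open MeasureTheory Pool.Agent.N991.MK Filter BoundedContinuousFunction
open scoped Topology

namespace Pool.Agent.N989.MK

set_option linter.unusedSectionVars false

noncomputable section

variable {G : Type*} [Group G] [TopologicalSpace G] [IsTopologicalGroup G] [CompactSpace G]
  [MeasurableSpace G] [BorelSpace G] [SecondCountableTopology G]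
  {μ : Measure G} [IsProbabilityMeasure μ] [μ.IsHaarMeasure] [μ.IsMulRightInvariant]
  [μ.IsInvInvariant] {χ : G → ℝ} {n : ℕ} {D : ED G n}

variable {Zb : ℝ → G → ℝ} {P : (G → ℝ) → ℝ → ℝ → Prop} {c h0 C A R : ℝ}
variable {H C4 K hq : ℝ}

/-- asymptotic freedom at a fixed distance from the given scale -/
lemma af_bound (F : Flow μ χ D Zb P c h0 C A R) (hC4 : 0 ≤ C4) (hH : 0 < H) (hq0 : 0 < hq)
    (L : ℕ) : ∃ (j0 : ℕ) (C6 : ℝ), L ≤ j0 ∧ 1 ≤ j0 ∧ 0 ≤ C6 ∧
      ∀ β J h ρ, Pk μ χ D Zb P c C A R H C4 K hq β J h ρ → ∀ i j : ℕ, j0 ≤ j → i + j ≤ J + L →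
        J ≤ i + j + L → |1 - WW μ χ (TTn μ (Zb β) i) - A / (c * j)| ≤
          C6 * (1 + Real.log j) / j ^ 2 + C6 * (1 / 4) ^ i := by
  have hgr := grow F.c_pos hC4 H
  have hR := F.R_nn
  have hC := F.C_nn
  have hA := F.A_nn
  have hc := F.c_pos
  -- growth with a shift
  obtain ⟨j1, hj1⟩ : ∃ j1 : ℕ, ∀ j ≥ j1, c / 4 * j + c * L + (H + C4 * (1 + Real.log (j + L + 1)))
      ≤ c * j := by
    have h1 := grow (c := c / 2) (by positivity) hC4 (H + 2 * c * L + c * L)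
    obtain ⟨m1, hm1⟩ := eventually_atTop.1 (h1.eventually (eventually_ge_atTop 0))
    refine ⟨m1, fun j hj => ?_⟩
    have h2 := hm1 (j + L) (by omega)
    push_cast at h2
    have hj0 : (0 : ℝ) ≤ j := Nat.cast_nonneg j
    have hL0 : (0 : ℝ) ≤ L := Nat.cast_nonneg L
    nlinarith [mul_nonneg hc.le hj0, mul_nonneg hc.le hL0]
  have hB : 0 ≤ H + C4 * 2 + C4 * Real.log (L + 2) + c * L := by
    have : 0 ≤ Real.log ((L : ℝ) + 2) := Real.log_nonneg (by
      have : (0 : ℝ) ≤ L := Nat.cast_nonneg L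
      linarith)
    positivity
  set B : ℝ := H + C4 * 2 + C4 * Real.log (L + 2) + c * L with hBdef
  set C6 : ℝ := A * B * (4 / c) / c + C * (C4 + 4 / c) * (4 / c) * (L + 1) + C * R * (4 / c) with hC6
  have hC60 : 0 ≤ C6 := by positivity
  refine ⟨max j1 (L + 1), C6, by have := le_max_right j1 (L + 1); omega,
    by have := le_max_right j1 (L + 1); omega, hC60,
    fun β J h ρ pk i j hj hij hJi => ?_⟩
  have hj1' : j1 ≤ j := (le_max_left _ _).trans hj
  have hjL : L + 1 ≤ j := (le_max_right _ _).trans hj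
  have hiJ : i ≤ J := by omega
  obtain ⟨q, hqJ⟩ := Nat.exists_eq_add_of_le hiJ
  have hqj : q ≤ j + L := by omega
  have hjq : j ≤ q + L := by omega
  have hj0 : (0 : ℝ) < j := by exact_mod_cast (by omega : 0 < j)
  have hj1r : (1 : ℝ) ≤ j := by exact_mod_cast (by omega : 1 ≤ j)
  have hq1 : (q : ℝ) ≤ j + L := by exact_mod_cast hqj
  have hq2 : (j : ℝ) ≤ q + L := by exact_mod_cast hjq
  have hL0 : (0 : ℝ) ≤ L := Nat.cast_nonneg L
  have hq0' : (0 : ℝ) ≤ q := Nat.cast_nonneg q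
  have hlj : 0 ≤ Real.log j := Real.log_nonneg hj1r
  have h1 := pk.s.as i q hqJ.symm
  have hlogq : Real.log ((q : ℝ) + 1) ≤ Real.log (j + L + 1) :=
    Real.log_le_log (by positivity) (by linarith)
  have hlogj : Real.log ((j : ℝ) + L + 1) ≤ Real.log j + Real.log (L + 2) := by
    rw [← Real.log_mul hj0.ne' (by positivity)]
    refine Real.log_le_log (by positivity) ?_
    nlinarith [mul_le_mul_of_nonneg_right hj1r hL0]
  -- the coupling at the index i
  have hdev : |h i - c * j| ≤ B * (1 + Real.log j) := by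
    have h2 : |h i - c * j| ≤ |h i - c * q| + |c * q - c * j| := abs_sub_le _ _ _
    have h3 : |c * q - c * j| ≤ c * L := by
      rw [← mul_sub, abs_mul, abs_of_pos hc]
      refine mul_le_mul_of_nonneg_left ?_ hc.le
      rw [abs_le]
      constructor <;> linarith
    have h4 : C4 * (1 + Real.log (q + 1)) ≤ C4 * (1 + (Real.log j + Real.log (L + 2))) :=
      mul_le_mul_of_nonneg_left (by linarith) hC4
    have h5 : 0 ≤ Real.log ((L : ℝ) + 2) := Real.log_nonneg (by linarith)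
    rw [hBdef]
    nlinarith [mul_nonneg hH.le hlj, mul_nonneg hC4 hlj, mul_nonneg (mul_nonneg hC4 h5) hlj,
      mul_nonneg (mul_nonneg hc.le hL0) hlj]
  have hlow : c / 4 * j ≤ h i := by
    have h2 := hj1 j hj1'
    have h3 : C4 * (1 + Real.log (q + 1)) ≤ C4 * (1 + Real.log (j + L + 1)) :=
      mul_le_mul_of_nonneg_left (by linarith) hC4
    have h4 := (abs_le.1 h1).1
    have h5 := mul_le_mul_of_nonneg_left hq2 hc.le
    linarith
  have hhi : 0 < h i := hq0.trans_le (pk.s.lo i hiJ)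
  have hinv : 1 / h i ≤ 4 / c * (1 / j) := by
    have h2 : (0 : ℝ) < c / 4 * j := by positivity
    refine (one_div_le_one_div_of_le h2 hlow).trans (le_of_eq ?_)
    field_simp
  have hinv0 : 0 ≤ 1 / h i := by positivity
  have hw := pk.w1 i hiJ
  have hra := pk.s.ra i q hqJ.symm
  -- combine
  have e1 : 1 - WW μ χ (TTn μ (Zb β) i) - A / (c * j) =
      (1 - WW μ χ (TTn μ (Zb β) i) - A / h i) + A * (c * j - h i) * (1 / h i) * (1 / (c * j)) := by
    field_simp
    ring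
  rw [e1]
  refine (abs_add_le _ _).trans ?_
  have t1 : |A * (c * j - h i) * (1 / h i) * (1 / (c * j))| ≤
      A * B * (4 / c) / c * ((1 + Real.log j) / j ^ 2) := by
    rw [abs_mul, abs_mul, abs_mul, abs_of_nonneg hA, abs_of_nonneg hinv0,
      abs_of_nonneg (by positivity : 0 ≤ 1 / (c * (j : ℝ))), abs_sub_comm]
    have h2 : A * |h i - c * j| * (1 / h i) ≤ A * (B * (1 + Real.log j)) * (4 / c * (1 / j)) := by
      refine mul_le_mul (mul_le_mul_of_nonneg_left hdev hA) hinv hinv0 (by positivity)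
    have h3 := mul_le_mul_of_nonneg_right h2 (by positivity : 0 ≤ 1 / (c * (j : ℝ)))
    refine h3.trans (le_of_eq ?_)
    field_simp
  have t2 : C * (ρ i + 1 / h i) / h i ≤
      C * (C4 + 4 / c) * (4 / c) * (L + 1) * ((1 + Real.log j) / j ^ 2) +
        C * R * (4 / c) * (1 / 4) ^ i := by
    have h2 : 1 / ((q : ℝ) + 1) ≤ (L + 1) * (1 / j) := by
      rw [mul_one_div, div_le_div_iff₀ (by positivity) hj0]
      nlinarith [mul_nonneg hL0 hq0']
    have h3 : ρ i + 1 / h i ≤ (1 / 4) ^ i * R + (C4 + 4 / c) * ((L + 1) * (1 / j)) := by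
      have h4 : C4 / (q + 1) ≤ C4 * ((L + 1) * (1 / j)) := by
        rw [← mul_one_div]
        exact mul_le_mul_of_nonneg_left h2 hC4
      have h5 : 4 / c * (1 / j) ≤ 4 / c * ((L + 1) * (1 / j)) := by
        refine mul_le_mul_of_nonneg_left ?_ (by positivity)
        have : (0 : ℝ) ≤ 1 / j := by positivity
        nlinarith
      nlinarith
    have h4 : 0 ≤ ρ i := F.nn _ _ _ (pk.s.p i hiJ)
    have h5 : C * (ρ i + 1 / h i) / h i = C * (ρ i + 1 / h i) * (1 / h i) := by ring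
    rw [h5]
    have h6 : C * (ρ i + 1 / h i) * (1 / h i) ≤
        C * ((1 / 4) ^ i * R + (C4 + 4 / c) * ((L + 1) * (1 / j))) * (4 / c * (1 / j)) :=
      mul_le_mul (mul_le_mul_of_nonneg_left h3 hC) hinv hinv0 (by positivity)
    refine h6.trans ?_
    have h7 : C * ((1 / 4) ^ i * R + (C4 + 4 / c) * ((L + 1) * (1 / j))) * (4 / c * (1 / j)) =
        C * (C4 + 4 / c) * (4 / c) * (L + 1) * (1 / (j : ℝ) ^ 2) +
          C * R * (4 / c) * (1 / 4) ^ i * (1 / j) := by
      field_simp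
      ring
    rw [h7]
    refine add_le_add ?_ ?_
    · refine mul_le_mul_of_nonneg_left ?_ (by positivity)
      exact div_le_div_of_nonneg_right (by linarith) (by positivity)
    · have h8 : (1 : ℝ) / j ≤ 1 := by
        rw [div_le_one hj0]; exact hj1r
      have h9 : 0 ≤ C * R * (4 / c) * (1 / 4 : ℝ) ^ i := by positivity
      nlinarith
  have t3 : C * (ρ i + 1 / h i) / h i + A * B * (4 / c) / c * ((1 + Real.log j) / j ^ 2) ≤
      C6 * (1 + Real.log j) / j ^ 2 + C6 * (1 / 4) ^ i := by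
    have h2 : 0 ≤ (1 + Real.log (j : ℝ)) / j ^ 2 := by positivity
    have h3 : (0 : ℝ) ≤ (1 / 4) ^ i := by positivity
    have h4 : 0 ≤ A * B * (4 / c) / c := by positivity
    have h5 : 0 ≤ C * (C4 + 4 / c) * (4 / c) * (L + 1) := by positivity
    have h6 : 0 ≤ C * R * (4 / c) := by positivity
    have e2 : C6 * (1 + Real.log j) / j ^ 2 + C6 * (1 / 4) ^ i =
        A * B * (4 / c) / c * ((1 + Real.log j) / j ^ 2) +
        C * (C4 + 4 / c) * (4 / c) * (L + 1) * ((1 + Real.log j) / j ^ 2) +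
        C * R * (4 / c) * (1 / 4) ^ i + (C * R * (4 / c) * ((1 + Real.log j) / j ^ 2) +
          (A * B * (4 / c) / c + C * (C4 + 4 / c) * (4 / c) * (L + 1)) * (1 / 4) ^ i) := by
      rw [hC6]; ring
    rw [e2]
    have h7 := mul_nonneg h6 h2
    have h8 := mul_nonneg (add_nonneg h4 h5) h3
    linarith
  linarith

/-- **The continuum limit** -/
theorem Flow.continuum (F : Flow μ χ D Zb P c h0 C A R) (ho : Obs μ χ) (Fm : FamG D Zb)
    {m : ℕ} (hg : Gen D m 1)
    (hnb : ∀ δ : ℝ, 0 < δ → {g : G | ∃ X, qf X ≤ δ ∧ g = D.E X} ∈ 𝓝 (1 : G)) {u : ℝ}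
    (hu0 : 0 < u) (hu1 : u < 1) :
    ∃ (β : ℕ → ℝ) (φ : ℕ → ℕ) (Fk : ℤ → G → ℝ),
      (∀ i, 0 < β i ∧ WW μ χ (TTn μ (Zb (β i)) i) = u) ∧ Tendsto β atTop atTop ∧
      StrictMono φ ∧
      (∀ k : ℤ, Adm (Fk k) ∧ ∫ x, Fk k x ∂μ = 1 ∧ Fk (k + 1) = nrm μ (TT μ (Fk k)) ∧
        ∃ K, 0 ≤ K ∧ SC D K (Fk k)) ∧
      (∀ k : ℤ, TendstoUniformly
        (fun i x => nrm μ (TTn μ (Zb (β (φ i))) ((φ i : ℤ) + k).toNat) x) (Fk k) atTop) ∧
      (∀ k, 0 < WW μ χ (Fk k) ∧ WW μ χ (Fk k) < 1) ∧ WW μ χ (Fk 0) = u ∧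
      ∃ C5 : ℝ, 0 ≤ C5 ∧ ∀ j : ℕ, 1 ≤ j →
        |1 - WW μ χ (Fk (-j)) - A / (c * j)| ≤ C5 * (1 + Real.log j) / j ^ 2 := by
  obtain ⟨H, C4, K, hH, hC4, hK, hq, hq0, hhq, hB0⟩ := F.consts
  have hB : ∀ β, H ≤ β → ∃ J h ρ, Pk μ χ D Zb P c C A R H C4 K hq β J h ρ := by
    intro β hβ
    obtain ⟨J, h, ρ, s, s1, s2⟩ := hB0 β hβ
    exact ⟨J, h, ρ, s, s1, fun j hj => (s2 j hj).1, fun j hj => (s2 j hj).2.1,
      fun j hj => (s2 j hj).2.2⟩
  have hR := F.R_nn
  have hC := F.C_nn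
  have hA := F.A_nn
  have hc := F.c_pos
  -- the bare couplings
  have hex : ∀ i, ∃ b, 0 < b ∧ WW μ χ (TTn μ (Zb b) i) = u := by
    intro i
    obtain ⟨b1, -, hb1, hub⟩ := hi_W F hC4 hq0 hB hu1 i
    have h1 := intermediate_value_Icc hb1.le (Fm.cont ho i).continuousOn
    have h2 := Fm.zero ho hg i
    obtain ⟨b, hb, hbu⟩ := h1 ⟨h2.trans hu0.le, hub.le⟩
    refine ⟨b, lt_of_le_of_ne hb.1 ?_, hbu⟩
    rintro rfl
    beta_reduce at hbu
    linarith
  choose β hβ0 hβu using hex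
  have hβt : Tendsto β atTop atTop := by
    rw [tendsto_atTop]
    intro B
    obtain ⟨n0, hn0⟩ := Fm.far ho hg hu0 B
    filter_upwards [eventually_ge_atTop n0] with i hi
    by_contra hcon
    push Not at hcon
    have := hn0 i hi (β i) (hβ0 i).le hcon.le
    rw [hβu i] at this
    exact lt_irrefl _ this
  obtain ⟨N0, hN0⟩ := eventually_atTop.1 (hβt.eventually (eventually_ge_atTop H))
  have hpk : ∀ i, ∃ J h ρ, Pk μ χ D Zb P c C A R H C4 K hq (β (N0 + i)) J h ρ := fun i =>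
    hB _ (hN0 _ (by omega))
  choose J h ρ pk using hpk
  obtain ⟨L, hL⟩ := window (H := H) (C4 := C4) (K := K) F ho hg Fm.adm hC4 hK hq0 hu0 hu1
  have hLi : ∀ i, N0 + i ≤ J i + L ∧ J i ≤ N0 + i + L := fun i =>
    hL _ _ _ _ (pk i) _ (hβu (N0 + i))
  choose Kf hKf0 hKf using fun i => unif_SC (H := H) (C4 := C4) (K := K) (hq := hq) F hg Fm.adm
    hC4 hK hhq i
  -- the sequence of the functions
  set idx : ℕ → ℤ → ℕ := fun i k => (((N0 + i : ℕ) : ℤ) + k).toNat with hidx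
  set Z : ℕ → ℤ → G → ℝ := fun i k => TTn μ (Zb (β (N0 + i))) (idx i k) with hZ
  have hZA : ∀ i k, Adm (Z i k) := fun i k => (Fm.adm _).TTn _
  set Fn : ℕ → ℤ → (G →ᵇ ℝ) := fun i k =>
    if 0 ≤ ((N0 + i : ℕ) : ℤ) + k then mkOfCompact ⟨nrm μ (Z i k), (hZA i k).nrm.cont⟩
    else BoundedContinuousFunction.const G 1 with hFn
  have hFn1 : ∀ i k, 0 ≤ ((N0 + i : ℕ) : ℤ) + k → ((Fn i k : G →ᵇ ℝ) : G → ℝ) = nrm μ (Z i k) := by
    intro i k hik
    rw [hFn]
    simp only [hik, if_true]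
    rfl
  have hSCZ : ∀ i k, 0 ≤ ((N0 + i : ℕ) : ℤ) + k → SC D (Kf (L + k.natAbs)) (Z i k) := by
    intro i k hik
    refine hKf (L + k.natAbs) _ _ _ _ (pk i) _ ?_
    have h1 := (hLi i).2
    have h2 : (idx i k : ℤ) = ((N0 + i : ℕ) : ℤ) + k := Int.toNat_of_nonneg hik
    omega
  have hmem : ∀ i k, Fn i k ∈ SS μ D (Kf (L + k.natAbs)) := by
    intro i k
    by_cases hik : 0 ≤ ((N0 + i : ℕ) : ℤ) + k
    · have h1 := hFn1 i k hik
      refine ⟨?_, ?_, ?_⟩
      · rw [h1]; exact (hZA i k).nrm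
      · rw [h1]
        exact SC.smul (inv_pos.2 (hZA i k).ipos) (hZA i k).pos (hSCZ i k hik)
      · rw [h1]; exact int_nrm (hZA i k)
    · have h1 : ((Fn i k : G →ᵇ ℝ) : G → ℝ) = fun _ => 1 := by
        rw [hFn]
        simp only [hik, if_false]
        rfl
      refine ⟨?_, ?_, ?_⟩
      · rw [h1]
        exact ⟨continuous_const, fun _ => one_pos, fun _ _ => rfl, fun _ => rfl⟩
      · rw [h1]
        intro X x
        have := mul_nonneg (hKf0 (L + k.natAbs)) (qf_nonneg X)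
        simp only [Real.log_one]
        linarith
      · rw [h1]; simp
  -- compactness
  have hcomp : IsCompact (Set.pi Set.univ fun k : ℤ => closure (SS μ D (Kf (L + k.natAbs)))) :=
    isCompact_univ_pi fun k => SS_compact hg hnb (hKf0 _)
  obtain ⟨x, -, φ0, hφ0, hlim⟩ := hcomp.tendsto_subseq (x := Fn)
    (fun i k _ => subset_closure (hmem i k))
  have hlimk : ∀ k, Tendsto (fun i => Fn (φ0 i) k) atTop (𝓝 (x k)) := fun k =>
    (tendsto_pi_nhds.1 hlim) k
  have hxS : ∀ k, x k ∈ SS μ D (Kf (L + k.natAbs)) := fun k =>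
    SS_limit hg (hKf0 _) (Eventually.of_forall fun i => hmem _ k) (hlimk k)
  have hevk : ∀ k : ℤ, ∀ᶠ i in atTop, 0 ≤ ((N0 + φ0 i : ℕ) : ℤ) + k := by
    intro k
    filter_upwards [eventually_ge_atTop k.natAbs] with i hi
    have := hφ0.id_le i
    have h2 : i ≤ φ0 i := this
    omega
  have hLm : ∀ k, Lm (Real.exp (2 ^ m * Kf (L + k.natAbs))) (fun i => (Fn (φ0 i) k : G → ℝ))
      (x k) := by
    intro k
    refine ⟨fun i => (Fn _ k).continuous, fun i y => ?_, (x k).continuous, fun y => ?_⟩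
    · have h1 := hmem (φ0 i) k
      rw [abs_of_pos (h1.1.pos y)]
      exact (SS_bounds (μ := μ) hg (hKf0 _) h1.1 h1.2.1 h1.2.2 y).2
    · exact (BoundedContinuousFunction.tendsto_iff_tendstoUniformly.1 (hlimk k)).tendsto_at y
  have hWlim : ∀ k, Tendsto (fun i => WW μ χ (Fn (φ0 i) k)) atTop (𝓝 (WW μ χ (x k))) := fun k =>
    (hLm k).WW ho (by rw [(hxS k).2.2]; norm_num)
  have hWZ : ∀ k, ∀ᶠ i in atTop, WW μ χ (Fn (φ0 i) k) = WW μ χ (Z (φ0 i) k) := by
    intro k
    filter_upwards [hevk k] with i hi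
    rw [hFn1 _ _ hi, WW_nrm (hZA _ _)]
  have hWlimZ : ∀ k, Tendsto (fun i => WW μ χ (Z (φ0 i) k)) atTop (𝓝 (WW μ χ (x k))) := fun k =>
    (hWlim k).congr' (hWZ k)
  refine ⟨β, fun i => N0 + φ0 i, fun k => x k, fun i => ⟨hβ0 i, hβu i⟩, hβt, ?_, fun k => ?_,
    fun k => ?_, fun k => ?_, ?_, ?_⟩
  · intro a b hab
    have := hφ0 hab
    show N0 + φ0 a < N0 + φ0 b
    omega
  · refine ⟨(hxS k).1, (hxS k).2.2, ?_, Kf (L + k.natAbs), hKf0 _, (hxS k).2.1⟩
    funext y
    have h1 : Tendsto (fun i => nrm μ (TT μ (Fn (φ0 i) k)) y) atTop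
        (𝓝 (nrm μ (TT μ (x k)) y)) := by
      have h2 := (hLm k).TT (μ := μ)
      have h3 := h2.int (μ := μ)
      have h4 : ∫ z, TT μ (x k) z ∂μ ≠ 0 := ((hxS k).1.TT (μ := μ)).ipos.ne'
      exact (h3.inv₀ h4).mul (h2.l y)
    have h2 : Tendsto (fun i => (Fn (φ0 i) (k + 1) : G → ℝ) y) atTop (𝓝 (x (k + 1) y)) :=
      (hLm (k + 1)).l y
    refine tendsto_nhds_unique h2 (h1.congr' ?_)
    filter_upwards [hevk k, hevk (k + 1)] with i hi hi'
    rw [hFn1 _ _ hi, hFn1 _ _ hi', nrm_TT_nrm (hZA _ _)]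
    have e : idx (φ0 i) (k + 1) = idx (φ0 i) k + 1 := by
      rw [hidx]
      beta_reduce
      omega
    have e2 : Z (φ0 i) (k + 1) = TT μ (Z (φ0 i) k) := by
      rw [hZ]
      beta_reduce
      rw [e]
      rfl
    rw [e2]
  · have h1 := BoundedContinuousFunction.tendsto_iff_tendstoUniformly.1 (hlimk k)
    intro U hU
    filter_upwards [hevk k, h1 U hU] with i hi h2 y
    have h3 := h2 y
    beta_reduce at h3
    rw [hFn1 _ _ hi] at h3
    exact h3
  · constructor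
    · obtain ⟨δ, hδ, hδ2⟩ := unif_W (P := P) (c := c) (C := C) (A := A) (R := R) (H := H)
        (C4 := C4) (K := K) (hq := hq) ho hg Fm.adm hK (L + k.natAbs)
      refine hδ.trans_le (ge_of_tendsto (hWlimZ k) ?_)
      filter_upwards [hevk k] with i hi
      refine hδ2 _ _ _ _ (pk (φ0 i)) _ ?_
      have h1 := (hLi (φ0 i)).1
      have h2 : (idx (φ0 i) k : ℤ) = ((N0 + φ0 i : ℕ) : ℤ) + k := Int.toNat_of_nonneg hi
      omega
    · have h1 := (hxS k).1
      have h2 := (hxS k).2.1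
      have h3 := WW_le_osc ho h1 (Λ := 2 ^ m * Kf (L + k.natAbs)) fun y z => by
        simpa using h2.osc zero_le_one hg (hKf0 _) h1.cont h1.pos y z
      have := Real.exp_pos (-(2 ^ m * Kf (L + k.natAbs)))
      linarith
  · refine tendsto_nhds_unique (hWlimZ 0) ?_
    have : ∀ i, WW μ χ (Z (φ0 i) 0) = u := by
      intro i
      have e : idx (φ0 i) 0 = N0 + φ0 i := by
        rw [hidx]
        beta_reduce
        omega
      rw [hZ]
      beta_reduce
      rw [e]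
      exact hβu _
    simp only [this]
    exact tendsto_const_nhds
  · obtain ⟨j0, C6, hj0L, hj01, hC6, haf⟩ := af_bound (H := H) (C4 := C4) (K := K) (hq := hq) F
      hC4 hH hq0 L
    have hlim1 : ∀ j : ℕ, j0 ≤ j →
        |1 - WW μ χ (x (-j)) - A / (c * j)| ≤ C6 * (1 + Real.log j) / j ^ 2 := by
      intro j hj
      have h1 : Tendsto (fun i => |1 - WW μ χ (Z (φ0 i) (-j)) - A / (c * j)|) atTop
          (𝓝 |1 - WW μ χ (x (-j)) - A / (c * j)|) :=
        ((hWlimZ (-j)).const_sub 1 |>.sub_const _).abs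
      have h2 : Tendsto (fun i => C6 * (1 + Real.log j) / j ^ 2 +
          C6 * (1 / 4 : ℝ) ^ (idx (φ0 i) (-j))) atTop
          (𝓝 (C6 * (1 + Real.log j) / j ^ 2 + C6 * 0)) := by
        refine Tendsto.const_add _ (Tendsto.const_mul _ ?_)
        refine (tendsto_pow_atTop_nhds_zero_of_lt_one (by norm_num) (by norm_num)).comp ?_
        rw [tendsto_atTop]
        intro B
        filter_upwards [eventually_ge_atTop (B + j)] with i hi
        have h3 : i ≤ φ0 i := hφ0.id_le i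
        rw [hidx]
        beta_reduce
        omega
      rw [mul_zero, add_zero] at h2
      refine le_of_tendsto_of_tendsto h1 h2 ?_
      filter_upwards [hevk (-j)] with i hi
      have h3 : (idx (φ0 i) (-j) : ℤ) = ((N0 + φ0 i : ℕ) : ℤ) + (-j) := Int.toNat_of_nonneg hi
      have h4 := hLi (φ0 i)
      exact haf _ _ _ _ (pk (φ0 i)) _ j hj (by omega) (by omega)
    refine ⟨C6 + (2 + A / c) * j0 ^ 2, by positivity, fun j hj => ?_⟩
    have hj1 : (1 : ℝ) ≤ j := by exact_mod_cast hj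
    have hlj : 0 ≤ Real.log j := Real.log_nonneg hj1
    have hj2 : (0 : ℝ) < j ^ 2 := by positivity
    rcases le_or_gt j0 j with h1 | h1
    · refine (hlim1 j h1).trans ?_
      refine div_le_div_of_nonneg_right ?_ hj2.le
      have : 0 ≤ (2 + A / c) * (j0 : ℝ) ^ 2 * (1 + Real.log j) := by positivity
      nlinarith
    · have hW1 := WW_le_one ho (hxS (-j)).1
      have hW0 : 0 ≤ WW μ χ (x (-j)) := by
        obtain ⟨δ, hδ, hδ2⟩ := unif_W (P := P) (c := c) (C := C) (A := A) (R := R) (H := H)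
          (C4 := C4) (K := K) (hq := hq) ho hg Fm.adm hK (L + (-(j : ℤ)).natAbs)
        refine hδ.le.trans (ge_of_tendsto (hWlimZ (-j)) ?_)
        filter_upwards [hevk (-j)] with i hi
        refine hδ2 _ _ _ _ (pk (φ0 i)) _ ?_
        have h1 := (hLi (φ0 i)).1
        have h2 : (idx (φ0 i) (-j) : ℤ) = ((N0 + φ0 i : ℕ) : ℤ) + (-j) := Int.toNat_of_nonneg hi
        omega
      have h2 : |1 - WW μ χ (x (-j)) - A / (c * j)| ≤ 2 + A / c := by
        have h3 : 0 ≤ A / (c * j) := by positivity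
        have h4 : A / (c * j) ≤ A / c := by
          refine div_le_div_of_nonneg_left hA hc ?_
          nlinarith
        rw [abs_le]
        constructor <;> linarith
      refine h2.trans ?_
      rw [le_div_iff₀ hj2]
      have h3 : (j : ℝ) ^ 2 ≤ (j0 : ℝ) ^ 2 := by
        refine pow_le_pow_left₀ (by positivity) ?_ 2
        exact_mod_cast h1.le
      have h4 : 0 ≤ 2 + A / c := by positivity
      have h5 := mul_le_mul_of_nonneg_left h3 h4
      have h6 : 0 ≤ (2 + A / c) * (j0 : ℝ) ^ 2 := by positivity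
      nlinarith [mul_nonneg h6 hlj, mul_nonneg hC6 hlj]

end

end Pool.Agent.N989.MK
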