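import Mathlib
import Pool.Agent.N989.MK.Traj

/-!
# Two sequences following the one-loop recursion
-/

namespace Pool.Agent.N989.MK

noncomputable section

lemma geo_le {x : ℝ} (hx0 : 0 ≤ x) (hx : x < 1) (m : ℕ) :
    ∑ i ∈ Finset.range m, x ^ i ≤ 1 / (1 - x) := by
  have h1 := geom_sum_mul x m
  have h2 : (0 : ℝ) < 1 - x := by linarith
  rw [le_div_iff₀ h2]
  have h3 : 0 ≤ x ^ m := pow_nonneg hx0 m
  nlinarith

/-- **the comparison of two trajectories**: the difference is controlled by the difference at the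
end and by the initial error, up to geometric factors -/
theorem pair_real {C H Λ : ℝ} (hC : 0 ≤ C) (hH : 0 < H) (hCH : 8 * C * (1 + 4 * C) ≤ H)
    (hΛ : 0 < Λ) (J : ℕ) (a l h : ℕ → ℝ) (ha : ∀ i ≤ J, 0 ≤ a i) (hl : ∀ i ≤ J, 0 ≤ l i)
    (hh : ∀ i < J, H ≤ h i) (hl0 : l 0 ≤ Λ)
    (h1 : ∀ i < J, a i ≤ a (i + 1) + C * (a i + l i) / h i)
    (h2 : ∀ i < J, l (i + 1) ≤ l i / 4 + C * a i) :
    ∀ i j, i + j = J → a i ≤ 2 * (Λ * (1 / 2) ^ i + a J * 2 ^ j) ∧
      l i ≤ (1 + 8 * C) * (Λ * (1 / 2) ^ i + a J * 2 ^ j) := by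
  set U : ℕ → ℝ := fun i => Λ * (1 / 2) ^ i + a J * 2 ^ (J - i) with hU
  have haJ : 0 ≤ a J := ha J le_rfl
  have hUpos : ∀ i, 0 < U i := fun i => by
    have : 0 < Λ * (1 / 2 : ℝ) ^ i := by positivity
    have : 0 ≤ a J * 2 ^ (J - i) := by positivity
    rw [hU]
    linarith
  -- the maximum of the ratios
  obtain ⟨s, hs, hmax⟩ := Finset.exists_max_image (Finset.range (J + 1)) (fun i => a i / U i)
    ⟨0, Finset.mem_range.2 (by omega)⟩
  set S := a s / U s with hS
  have hsJ : s ≤ J := by have := Finset.mem_range.1 hs; omega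
  have hS0 : 0 ≤ S := div_nonneg (ha s hsJ) (hUpos s).le
  have haS : ∀ i ≤ J, a i ≤ S * U i := by
    intro i hi
    have h3 := hmax i (Finset.mem_range.2 (by omega))
    rwa [div_le_iff₀ (hUpos i)] at h3
  -- the errors
  have hlS : ∀ i ≤ J, l i ≤ (1 + 4 * C * S) * U i := by
    intro i
    induction i with
    | zero =>
      intro _
      have h3 : Λ ≤ U 0 := by
        rw [hU]
        have : 0 ≤ a J * 2 ^ (J - 0) := by positivity
        simp only [pow_zero, mul_one]
        linarith
      have h4 : 0 ≤ 4 * C * S * U 0 := by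
        have := hUpos 0
        positivity
      linarith
    | succ i ih =>
      intro hi
      have h3 := ih (by omega)
      have h4 := h2 i (by omega)
      have h5 := haS i (by omega)
      have h6 : U i ≤ 2 * U (i + 1) := by
        rw [hU]
        beta_reduce
        have e1 : J - i = (J - (i + 1)) + 1 := by omega
        rw [e1, pow_succ, pow_succ]
        have : 0 ≤ a J * 2 ^ (J - (i + 1)) := by positivity
        nlinarith
      have h7 : 0 < U (i + 1) := hUpos _
      have h8 : 0 ≤ 1 + 4 * C * S := by positivity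
      calc l (i + 1) ≤ l i / 4 + C * a i := h4
        _ ≤ (1 + 4 * C * S) * U i / 4 + C * (S * U i) := by
            have := mul_le_mul_of_nonneg_left h5 hC
            linarith
        _ = (1 / 4 + 2 * (C * S)) * U i := by ring
        _ ≤ (1 / 4 + 2 * (C * S)) * (2 * U (i + 1)) :=
            mul_le_mul_of_nonneg_left h6 (by positivity)
        _ = (1 / 2 + 4 * C * S) * U (i + 1) := by ring
        _ ≤ (1 + 4 * C * S) * U (i + 1) := mul_le_mul_of_nonneg_right (by linarith) h7.le
  -- the backward sum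
  set κ := C / H * (1 + S * (1 + 4 * C)) with hκ
  have hκ0 : 0 ≤ κ := by positivity
  have hstep : ∀ i < J, a i ≤ a (i + 1) + κ * U i := by
    intro i hi
    have h3 := h1 i hi
    have h4 := haS i hi.le
    have h5 := hlS i hi.le
    have h6 := hh i hi
    have h7 : C * (a i + l i) / h i ≤ C * (a i + l i) / H :=
      div_le_div_of_nonneg_left (mul_nonneg hC (add_nonneg (ha i hi.le) (hl i hi.le))) hH h6
    have h8 : C * (a i + l i) / H ≤ κ * U i := by
      have h9 : a i + l i ≤ (1 + S * (1 + 4 * C)) * U i := by nlinarith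
      have h10 := mul_le_mul_of_nonneg_left h9 (by positivity : 0 ≤ C / H)
      calc C * (a i + l i) / H = C / H * (a i + l i) := by ring
        _ ≤ C / H * ((1 + S * (1 + 4 * C)) * U i) := h10
        _ = κ * U i := by rw [hκ]; ring
    linarith
  have hback : ∀ j ≤ J, a (J - j) ≤ a J + κ * (2 * U (J - j)) := by
    intro j
    induction j with
    | zero =>
      intro _
      have : 0 ≤ κ * (2 * U (J - 0)) := by
        have := hUpos (J - 0)
        positivity
      simp only [Nat.sub_zero] at this ⊢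
      linarith
    | succ j ih =>
      intro hj
      have h3 := ih (by omega)
      have h4 := hstep (J - (j + 1)) (by omega)
      have e1 : J - (j + 1) + 1 = J - j := by omega
      rw [e1] at h4
      have h5 : U (J - j) ≤ 1 / 2 * U (J - (j + 1)) := by
        rw [hU]
        beta_reduce
        have e2 : J - j = J - (j + 1) + 1 := by omega
        have e3 : J - (J - j) = j := by omega
        have e4 : J - (J - (j + 1)) = j + 1 := by omega
        rw [e3, e4, e2, pow_succ, pow_succ]
        have : 0 ≤ a J * 2 ^ j := by positivity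
        nlinarith
      nlinarith [mul_le_mul_of_nonneg_left h5 hκ0]
  -- the bound of S
  have hSle : S ≤ 1 + 2 * κ := by
    have h3 := hback (J - s) (by omega)
    have e1 : J - (J - s) = s := by omega
    rw [e1] at h3
    rw [hS, div_le_iff₀ (hUpos s)]
    have h4 : a J ≤ U s := by
      rw [hU]
      beta_reduce
      have h5 : (1 : ℝ) ≤ 2 ^ (J - s) := one_le_pow₀ (by norm_num)
      have h6 : 0 ≤ Λ * (1 / 2 : ℝ) ^ s := by positivity
      nlinarith
    nlinarith
  have hS2 : S ≤ 2 := by
    have h3 : C / H * (1 + 4 * C) ≤ 1 / 8 := by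
      rw [div_mul_eq_mul_div, div_le_iff₀ hH]
      linarith
    have h4 : C / H ≤ C / H * (1 + 4 * C) := by
      have : 0 ≤ C / H := by positivity
      nlinarith
    have h5 : κ ≤ 1 / 8 + 1 / 8 * S := by
      rw [hκ]
      nlinarith
    linarith
  intro i j hij
  have hiJ : i ≤ J := by omega
  have e1 : J - i = j := by omega
  have h3 := haS i hiJ
  have h4 := hlS i hiJ
  have hUi := hUpos i
  have eU : U i = Λ * (1 / 2) ^ i + a J * 2 ^ j := by rw [hU]; beta_reduce; rw [e1]
  rw [← eU]
  constructor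
  · nlinarith
  · have : 4 * C * S ≤ 8 * C := by nlinarith
    nlinarith

variable {c C H R : ℝ} {h ρ : ℕ → ℝ} {J : ℕ}

/-- the errors are of the order of the inverse of the coupling -/
lemma TR.ra2 (t : TR c C H h ρ J) (hc : 0 ≤ c) (hC : 0 ≤ C) (hH : 0 < H) (hCH : C ≤ H)
    (hCH2 : C * (R + 3) ≤ H) (hH1 : 1 ≤ H)
    (h0 : 0 ≤ ρ 0) (hR : ρ 0 ≤ R) (hJ : 0 < h J) :
    ∀ j ≤ J, ρ j ≤ (1 / 4) ^ j * R + 4 * C / h j
  | 0, hj => by
    have h1 : 0 ≤ 4 * C / h 0 := by
      rcases Nat.eq_zero_or_pos J with h2 | h2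
      · subst h2
        positivity
      · have := t.big 0 h2
        have : 0 < h 0 := by linarith
        positivity
    simp only [pow_zero, one_mul]
    linarith
  | j + 1, hj => by
    have ih := TR.ra2 t hc hC hH hCH hCH2 hH1 h0 hR hJ j (by omega)
    have h1 := t.rr j (by omega)
    have h2 := t.st j (by omega)
    have h3 := t.big j (by omega)
    have h4 := t.bd hH hC hCH h0 hR j (by omega)
    have hj0 : 0 < h j := by linarith
    have hj1 : 0 < h (j + 1) := by
      rcases Nat.lt_or_ge (j + 1) J with h5 | h5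
      · exact hH.trans_le (t.big _ h5)
      · have : j + 1 = J := by omega
        rw [this]; exact hJ
    have h5 : 1 / h j ≤ 1 := by
      rw [div_le_one hj0]
      linarith
    have h6 : h (j + 1) ≤ 2 * h j := by
      have h7 := (abs_le.1 h2).2
      have h8 : C * (ρ j + 1 / h j) ≤ C * (R + 3) := mul_le_mul_of_nonneg_left (by linarith) hC
      linarith
    have h7 : 1 / h j ≤ 2 / h (j + 1) := by
      rw [div_le_div_iff₀ hj0 hj1]
      linarith
    have h8 : 4 * C / h j / 4 + C / h j ≤ 4 * C / h (j + 1) := by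
      have e1 : 4 * C / h j / 4 + C / h j = 2 * C * (1 / h j) := by ring
      have e2 : 4 * C / h (j + 1) = 2 * C * (2 / h (j + 1)) := by ring
      rw [e1, e2]
      exact mul_le_mul_of_nonneg_left h7 (by positivity)
    rw [pow_succ]
    linarith

/-- the sum of reciprocals bounded crudely -/
lemma TR.tele2 (t : TR c C H h ρ J) (hH : 0 < H) (hC : 0 ≤ C) (hCH : C ≤ H) (h0 : 0 ≤ ρ 0)
    (hR : ρ 0 ≤ R) (j m : ℕ) (hm : j + m ≤ J) :
    |h (j + m) - h j + c * m| ≤
      4 / 3 * C * (R + 2) + (C + 4 / 3 * C ^ 2) / H * m := by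
  refine (t.tele' hH hC hCH h0 hR j m hm).trans ?_
  have h1 : ∑ i ∈ Finset.range m, 1 / h (j + i) ≤ m * (1 / H) := by
    have h2 : ∀ i ∈ Finset.range m, 1 / h (j + i) ≤ 1 / H := by
      intro i hi
      have h3 := Finset.mem_range.1 hi
      exact one_div_le_one_div_of_le hH (t.big _ (by omega))
    refine (Finset.sum_le_sum h2).trans ?_
    simp
  have h2 := mul_le_mul_of_nonneg_left h1 (by positivity : 0 ≤ C + 4 / 3 * C ^ 2)
  have e : (C + 4 / 3 * C ^ 2) * (m * (1 / H)) = (C + 4 / 3 * C ^ 2) / H * m := by ring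
  rw [e] at h2
  linarith

end

end Pool.Agent.N989.MK
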