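import Mathlib
import Pool.Agent.N989.MK.PairR
import Pool.Agent.N989.MK.Lim

/-!
# Uniqueness of the continuum limit
-/

open MeasureTheory Pool.Agent.N991.MK Filter
open scoped Topology

namespace Pool.Agent.N989.MK

set_option linter.unusedSectionVars false

noncomputable section

variable {c C H R : ℝ} {h ρ : ℕ → ℝ} {J : ℕ}

lemma TR.shift (t : TR c C H h ρ J) {s J' : ℕ} (hs : s + J' ≤ J) :
    TR c C H (fun i => h (s + i)) (fun i => ρ (s + i)) J' :=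
  ⟨fun j hj => t.big (s + j) (by omega), fun j hj => t.st (s + j) (by omega),
    fun j hj => t.nn (s + j) (by omega), fun j hj => t.rr (s + j) (by omega)⟩

lemma TR.weaken {H' : ℝ} (hH : H' ≤ H) (t : TR c C H h ρ J) : TR c C H' h ρ J :=
  ⟨fun j hj => hH.trans (t.big j hj), t.st, t.nn, t.rr⟩

variable {G : Type*} [Group G] [TopologicalSpace G] [IsTopologicalGroup G] [CompactSpace G]
  [MeasurableSpace G] [BorelSpace G] [SecondCountableTopology G]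
  {μ : Measure G} [IsProbabilityMeasure μ] [μ.IsHaarMeasure] [μ.IsMulRightInvariant]
  [μ.IsInvInvariant] {χ : G → ℝ} {n : ℕ} {D : ED G n}

/-- the comparison of pairs of states of the weak coupling flow -/
structure PairFlow (μ : Measure G) (χ : G → ℝ) (P : (G → ℝ) → ℝ → ℝ → Prop)
    (Q : (G → ℝ) → (G → ℝ) → ℝ → ℝ → ℝ → Prop) (h1 ε C' c0 : ℝ) (Dm : ℕ) : Prop where
  e_pos : 0 < ε
  C_nn : 0 ≤ C'
  c0_pos : 0 < c0
  nn : ∀ f g h k l, Q f g h k l → 0 ≤ l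
  init : ∀ f h ρ g k σ, P f h ρ → P g k σ → h1 ≤ h → h1 ≤ k → |h - k| ≤ ε * h →
    ∃ l, l ≤ C' * (1 + ρ * h + σ * k) ∧ Q f g h k l
  step : ∀ f h ρ g k σ h' ρ' k' σ' l, P f h ρ → P g k σ → P (TT μ f) h' ρ' →
    P (TT μ g) k' σ' → Q f g h k l → h1 ≤ h → h1 ≤ k → |h - k| ≤ ε * h →
    ∃ l', Q (TT μ f) (TT μ g) h' k' l' ∧ l' ≤ l / 4 + C' * |h - k| ∧
      |(h' - k') - (h - k)| ≤ C' * (|h - k| + l) / h
  close : ∀ f h ρ g k σ l, P f h ρ → P g k σ → Q f g h k l → h1 ≤ h → h1 ≤ k →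
    |h - k| ≤ ε * h → ∀ x, |nrm μ f x - nrm μ g x| ≤ C' * h ^ Dm * (|h - k| + l)
  wil : ∀ f h ρ g k σ l, P f h ρ → P g k σ → Q f g h k l → h1 ≤ h → h1 ≤ k →
    |h - k| ≤ ε * h → c0 * |h - k| / h ^ 2 ≤ |WW μ χ f - WW μ χ g| + C' * l / h ^ 3

variable {Zb : ℝ → G → ℝ} {P : (G → ℝ) → ℝ → ℝ → Prop} {h0 A : ℝ}
variable {Q : (G → ℝ) → (G → ℝ) → ℝ → ℝ → ℝ → Prop} {h1 ε C' c0 : ℝ} {Dm : ℕ}

/-- a trajectory of states up to the index `J` -/
structure TP (μ : Measure G) (P : (G → ℝ) → ℝ → ℝ → Prop) (c C hq R : ℝ) (f : G → ℝ) (J : ℕ)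
    (h ρ : ℕ → ℝ) : Prop where
  p : ∀ i ≤ J, P (TTn μ f i) (h i) (ρ i)
  lo : ∀ i ≤ J, hq ≤ h i
  t : TR c C hq h ρ J
  r : ρ 0 ≤ R
  r0 : 0 ≤ ρ 0

/-- the a priori bound of the difference -/
lemma apriori {hq ε : ℝ} (hc : 0 < c) (hC : 0 ≤ C) (hR : 0 ≤ R) (hε : 0 < ε) (hq0 : 0 < hq)
    (hCq : C ≤ hq) {E0 : ℝ}
    (c1 : E0 + 2 * (4 / 3 * C * (R + 2)) ≤ ε * (hq - 4 / 3 * C * (R + 2)))
    (c2 : 2 * ((C + 4 / 3 * C ^ 2) / hq) ≤ ε * (c - (C + 4 / 3 * C ^ 2) / hq))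
    {f g : G → ℝ} {J : ℕ} {h ρ k σ : ℕ → ℝ} (tf : TP μ P c C hq R f J h ρ)
    (tg : TP μ P c C hq R g J k σ) (hJ : |h J - k J| ≤ E0) :
    ∀ i ≤ J, |h i - k i| ≤ ε * h i := by
  intro i hi
  obtain ⟨m, hm⟩ := Nat.exists_eq_add_of_le hi
  have a1 := tf.t.tele2 hq0 hC hCq tf.r0 tf.r i m hm.ge
  have a2 := tg.t.tele2 hq0 hC hCq tg.r0 tg.r i m hm.ge
  rw [← hm] at a1 a2
  have a3 := tf.lo J le_rfl
  set B1 := 4 / 3 * C * (R + 2) with hB1
  set q := (C + 4 / 3 * C ^ 2) / hq with hq'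
  have hm0 : (0 : ℝ) ≤ m := Nat.cast_nonneg m
  have a4 : |h i - k i| ≤ E0 + 2 * B1 + 2 * q * m := by
    have b1 := abs_le.1 a1
    have b2 := abs_le.1 a2
    have b3 := abs_le.1 hJ
    rw [abs_le]
    constructor <;> linarith
  have a5 : hq - B1 + (c - q) * m ≤ h i := by
    have b1 := abs_le.1 a1
    linarith
  have a6 := mul_le_mul_of_nonneg_left a5 hε.le
  have a7 := mul_le_mul_of_nonneg_right c2 hm0
  have e1 : ε * (hq - B1 + (c - q) * m) = ε * (hq - B1) + ε * (c - q) * m := by ring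
  rw [e1] at a6
  linarith

/-- the sequence of the errors of a pair of trajectories -/
lemma pair_seq (PF : PairFlow μ χ P Q h1 ε C' c0 Dm) {hq : ℝ} (hh1 : h1 ≤ hq)
    {f g : G → ℝ} {J : ℕ} {h ρ k σ : ℕ → ℝ} (tf : TP μ P c C hq R f J h ρ)
    (tg : TP μ P c C hq R g J k σ) (hap : ∀ i ≤ J, |h i - k i| ≤ ε * h i) :
    ∃ l : ℕ → ℝ, l 0 ≤ C' * (1 + ρ 0 * h 0 + σ 0 * k 0) ∧
      (∀ i ≤ J, Q (TTn μ f i) (TTn μ g i) (h i) (k i) (l i)) ∧
      (∀ i < J, l (i + 1) ≤ l i / 4 + C' * |h i - k i|) ∧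
      (∀ i < J, |(h (i + 1) - k (i + 1)) - (h i - k i)| ≤ C' * (|h i - k i| + l i) / h i) := by
  have key : ∀ m ≤ J, ∃ l : ℕ → ℝ, l 0 ≤ C' * (1 + ρ 0 * h 0 + σ 0 * k 0) ∧
      (∀ i ≤ m, Q (TTn μ f i) (TTn μ g i) (h i) (k i) (l i)) ∧
      (∀ i < m, l (i + 1) ≤ l i / 4 + C' * |h i - k i|) ∧
      (∀ i < m, |(h (i + 1) - k (i + 1)) - (h i - k i)| ≤
        C' * (|h i - k i| + l i) / h i) := by
    intro m
    induction m with
    | zero =>
      intro _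
      obtain ⟨l, hl1, hl2⟩ := PF.init _ _ _ _ _ _ (tf.p 0 (by omega)) (tg.p 0 (by omega))
        (hh1.trans (tf.lo 0 (by omega))) (hh1.trans (tg.lo 0 (by omega))) (hap 0 (by omega))
      refine ⟨fun _ => l, hl1, fun i hi => ?_,
        fun i hi => absurd hi (by omega), fun i hi => absurd hi (by omega)⟩
      obtain rfl : i = 0 := by omega
      exact hl2
    | succ m ih =>
      intro hm
      obtain ⟨l, l1, l2, l3, l4⟩ := ih (by omega)
      obtain ⟨l', b1, b2, b3⟩ := PF.step _ _ _ _ _ _ _ _ _ _ _ (tf.p m (by omega))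
        (tg.p m (by omega)) (tf.p (m + 1) hm) (tg.p (m + 1) hm) (l2 m le_rfl)
        (hh1.trans (tf.lo m (by omega))) (hh1.trans (tg.lo m (by omega))) (hap m (by omega))
      refine ⟨fun i => if i ≤ m then l i else l', by simp [l1], fun i hi => ?_, fun i hi => ?_,
        fun i hi => ?_⟩
      · by_cases h3 : i ≤ m
        · simp only [h3, if_true]; exact l2 i h3
        · obtain rfl : i = m + 1 := by omega
          simp only [h3, if_false]; exact b1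
      · rcases (show i < m ∨ i = m by omega) with h3 | rfl
        · simp only [show i ≤ m by omega, show i + 1 ≤ m by omega, if_true]
          exact l3 i h3
        · simp only [le_refl, show ¬ i + 1 ≤ i by omega, if_true, if_false]
          exact b2
      · rcases (show i < m ∨ i = m by omega) with h3 | rfl
        · simp only [show i ≤ m by omega, if_true]
          exact l4 i h3
        · simp only [le_refl, if_true]
          exact b3
  exact key J le_rfl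

lemma num1 {a6R x c J : ℝ} (h1 : 0 ≤ a6R) (h2 : 0 ≤ x) (h3 : 0 ≤ c) (hJ : 0 ≤ J) :
    1 + 2 * a6R * (x + c * J) ≤ (1 + 2 * (a6R + 0) * (x + c)) * (1 + J) := by
  have b1 : 0 ≤ a6R * x * J := by positivity
  have b2 : 0 ≤ a6R * c := by positivity
  nlinarith

lemma num2 {C' a b J : ℝ} (h : a ≤ C' * (b * (1 + J))) (hJ : 0 ≤ J) :
    a ≤ (C' * b + 1) * (1 + J) := by
  nlinarith

lemma num3 {x y δ ω : ℝ} (hx : 0 ≤ x) (hy : 0 ≤ y) (hδ : 0 ≤ δ) (hω : 0 ≤ ω) :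
    x * δ + y * ω ≤ (x + y) * (δ + ω) := by
  have b1 : 0 ≤ x * ω := by positivity
  have b2 : 0 ≤ y * δ := by positivity
  nlinarith

lemma num4 {L T p δ ω a : ℝ} (hL : 0 ≤ L) (hp : 0 ≤ p) (hδ : 0 ≤ δ) (h : a ≤ T * (δ + ω)) :
    L * p * ω + a * p ≤ (L * p + T * p) * (δ + ω) := by
  have b1 := mul_le_mul_of_nonneg_right h hp
  have b2 : 0 ≤ L * p * δ := by positivity
  nlinarith

/-- the estimate of the difference of two trajectories -/
lemma pair_est (PF : PairFlow μ χ P Q h1 ε C' c0 Dm) (hc : 0 < c) (hC : 0 ≤ C) (hR : 0 ≤ R)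
    {hq E0 : ℝ} (hh1 : h1 ≤ hq) (hq1 : 1 ≤ hq) (hCq : C ≤ hq)
    (hc1 : 8 * C' * (1 + 4 * C') ≤ hq) (hc2 : 2 * C' * (1 + 8 * C') ≤ c0 * hq)
    (c1 : E0 + 2 * (4 / 3 * C * (R + 2)) ≤ ε * (hq - 4 / 3 * C * (R + 2)))
    (c2 : 2 * ((C + 4 / 3 * C ^ 2) / hq) ≤ ε * (c - (C + 4 / 3 * C ^ 2) / hq))
    {Hu : ℝ} (hHu : 0 ≤ Hu) (m : ℕ) :
    ∃ E : ℝ, 0 ≤ E ∧ ∀ (f g : G → ℝ) (J : ℕ) (h ρ k σ : ℕ → ℝ), TP μ P c C hq R f J h ρ →
      TP μ P c C hq R g J k σ → |h J - k J| ≤ E0 → h J ≤ Hu → k J ≤ Hu → m ≤ J →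
      ∀ x, |nrm μ (TTn μ f (J - m)) x - nrm μ (TTn μ g (J - m)) x| ≤
        E * (|WW μ χ (TTn μ f J) - WW μ χ (TTn μ g J)| + (1 + J) * (1 / 2) ^ J) := by
  have hε := PF.e_pos
  have hC' := PF.C_nn
  have hc0 := PF.c0_pos
  have hq0 : 0 < hq := by linarith
  set B1 := 4 / 3 * C * (R + 2) with hB1
  set q := (C + 4 / 3 * C ^ 2) / hq with hqd
  have hq'0 : 0 ≤ q := by positivity
  have hB10 : 0 ≤ B1 := by positivity
  -- the coupling at distance m from the end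
  set Hm : ℝ := Hu + B1 + (c + q) * m with hHm
  have hHm0 : 0 ≤ Hm := by positivity
  -- the initial error
  set L1 : ℝ := C' * (1 + 2 * (R + 0) * (Hu + B1 + (c + q))) + 1 with hL1
  have hL10 : 0 < L1 := by positivity
  set S : ℝ := 2 + (1 + 8 * C') with hS
  have hS0 : 0 ≤ S := by positivity
  set T : ℝ := 2 / c0 * (Hu ^ 2 + C' * (1 + 8 * C') * L1) with hT
  have hT0 : 0 ≤ T := by positivity
  refine ⟨C' * Hm ^ Dm * (S * (L1 * 2 ^ m + T * 2 ^ m)), by positivity,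
    fun f g J h ρ k σ tf tg hJ hJu kJu hmJ x => ?_⟩
  have hap := apriori hc hC hR hε hq0 hCq c1 c2 tf tg hJ
  obtain ⟨l, l1, l2, l3, l4⟩ := pair_seq PF hh1 tf tg hap
  -- the bound of the initial error
  have up : ∀ (k : ℕ → ℝ) (g : G → ℝ) (σ : ℕ → ℝ), TP μ P c C hq R g J k σ → k J ≤ Hu →
      ∀ i j, i + j = J → k i ≤ Hu + B1 + (c + q) * j := by
    intro k g σ tg kJu i j hij
    have a1 := tg.t.tele2 hq0 hC hCq tg.r0 tg.r i j hij.le
    rw [hij] at a1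
    have := (abs_le.1 a1).1
    linarith
  have hJ0 : (0 : ℝ) ≤ J := Nat.cast_nonneg J
  have hΛ : l 0 ≤ L1 * (1 + J) := by
    refine l1.trans ?_
    have a1 := up h f ρ tf hJu 0 J (by omega)
    have a2 := up k g σ tg kJu 0 J (by omega)
    have a3 : ρ 0 * h 0 ≤ R * (Hu + B1 + (c + q) * J) :=
      mul_le_mul tf.r a1 (hq0.le.trans (tf.lo 0 (by omega))) hR
    have a4 : σ 0 * k 0 ≤ R * (Hu + B1 + (c + q) * J) :=
      mul_le_mul tg.r a2 (hq0.le.trans (tg.lo 0 (by omega))) hR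
    have a5 : C' * (1 + ρ 0 * h 0 + σ 0 * k 0) ≤
        C' * (1 + 2 * R * (Hu + B1 + (c + q) * J)) :=
      mul_le_mul_of_nonneg_left (by linarith) hC'
    refine a5.trans ?_
    have a6 : (1 + 2 * R * (Hu + B1 + (c + q) * J)) ≤
        (1 + 2 * (R + 0) * (Hu + B1 + (c + q))) * (1 + J) :=
      num1 hR (by positivity) (by positivity) hJ0
    exact num2 (mul_le_mul_of_nonneg_left a6 hC') hJ0
  have hLpos : 0 < L1 * (1 + (J : ℝ)) := by positivity
  have hpr := pair_real hC' hq0 hc1 hLpos J (fun i => |h i - k i|) l h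
    (fun i _ => abs_nonneg _) (fun i hi => PF.nn _ _ _ _ _ (l2 i hi)) tf.t.big hΛ
    (fun i hi => by
      have a1 := l4 i hi
      have a2 : |h i - k i| ≤ |h (i + 1) - k (i + 1)| +
          |(h (i + 1) - k (i + 1)) - (h i - k i)| := by
        have e : h i - k i = (h (i + 1) - k (i + 1)) -
          ((h (i + 1) - k (i + 1)) - (h i - k i)) := by ring
        calc |h i - k i| = |(h (i + 1) - k (i + 1)) -
              ((h (i + 1) - k (i + 1)) - (h i - k i))| := by rw [← e]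
          _ ≤ _ := abs_sub _ _
      linarith) l3
  beta_reduce at hpr
  -- the bound at the end
  set aJ := |h J - k J| with haJ
  have haJ0 : 0 ≤ aJ := abs_nonneg _
  set δ := |WW μ χ (TTn μ f J) - WW μ χ (TTn μ g J)| with hδ
  have hδ0 : 0 ≤ δ := abs_nonneg _
  set ω : ℝ := (1 + (J : ℝ)) * (1 / 2) ^ J with hω
  have hω0 : 0 ≤ ω := by positivity
  have hhJ1 : 1 ≤ h J := hq1.trans (tf.lo J le_rfl)
  have hhJ0 : 0 < h J := by linarith
  have hend : aJ ≤ T * (δ + ω) := by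
    have a1 := PF.wil _ _ _ _ _ _ _ (tf.p J le_rfl) (tg.p J le_rfl) (l2 J le_rfl)
      (hh1.trans (tf.lo J le_rfl)) (hh1.trans (tg.lo J le_rfl)) (hap J le_rfl)
    have a2 := (hpr J 0 (by omega)).2
    rw [pow_zero, mul_one] at a2
    have a3 : L1 * (1 + (J : ℝ)) * (1 / 2) ^ J = L1 * ω := by rw [hω]; ring
    rw [a3] at a2
    have a4 : c0 * aJ ≤ h J ^ 2 * δ + C' * l J / h J := by
      have b1 : c0 * aJ / h J ^ 2 * h J ^ 2 ≤ (δ + C' * l J / h J ^ 3) * h J ^ 2 :=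
        mul_le_mul_of_nonneg_right a1 (by positivity)
      have b2 : c0 * aJ / h J ^ 2 * h J ^ 2 = c0 * aJ := by field_simp
      have b3 : (δ + C' * l J / h J ^ 3) * h J ^ 2 = h J ^ 2 * δ + C' * l J / h J := by
        field_simp
      rw [b2, b3] at b1
      exact b1
    have a5 : C' * l J / h J ≤ C' * (1 + 8 * C') * L1 * ω + c0 / 2 * aJ := by
      have b1 : C' * l J ≤ C' * ((1 + 8 * C') * (L1 * ω + aJ)) :=
        mul_le_mul_of_nonneg_left a2 hC'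
      have b2 : C' * l J / h J ≤ C' * ((1 + 8 * C') * (L1 * ω + aJ)) / h J :=
        div_le_div_of_nonneg_right b1 hhJ0.le
      have b3 : C' * ((1 + 8 * C') * (L1 * ω + aJ)) / h J =
          C' * (1 + 8 * C') * L1 * ω / h J + C' * (1 + 8 * C') * aJ / h J := by ring
      have b4 : C' * (1 + 8 * C') * L1 * ω / h J ≤ C' * (1 + 8 * C') * L1 * ω := by
        have b7 : 0 ≤ C' * (1 + 8 * C') * L1 * ω := by positivity
        exact div_le_self b7 hhJ1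
      have b5 : C' * (1 + 8 * C') * aJ / h J ≤ c0 / 2 * aJ := by
        rw [div_le_iff₀ hhJ0]
        have b6 : C' * (1 + 8 * C') ≤ c0 / 2 * h J := by
          have := mul_le_mul_of_nonneg_left (tf.lo J le_rfl) hc0.le
          linarith
        have := mul_le_mul_of_nonneg_right b6 haJ0
        linarith
      linarith
    have a6 : h J ^ 2 * δ ≤ Hu ^ 2 * δ :=
      mul_le_mul_of_nonneg_right (pow_le_pow_left₀ hhJ0.le hJu 2) hδ0
    have a7 : c0 / 2 * aJ ≤ Hu ^ 2 * δ + C' * (1 + 8 * C') * L1 * ω := by linarith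
    have a8 : aJ ≤ 2 / c0 * (Hu ^ 2 * δ + C' * (1 + 8 * C') * L1 * ω) := by
      rw [div_mul_eq_mul_div, le_div_iff₀ hc0]
      linarith
    refine a8.trans ?_
    have e9 : T * (δ + ω) =
        2 / c0 * ((Hu ^ 2 + C' * (1 + 8 * C') * L1) * (δ + ω)) := by
      rw [hT]; ring
    rw [e9]
    have b9 : 0 ≤ 2 / c0 := by positivity
    have b10 : 0 ≤ C' * (1 + 8 * C') * L1 := by positivity
    exact mul_le_mul_of_nonneg_left (num3 (sq_nonneg Hu) b10 hδ0 hω0) b9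
  -- the bound at the distance m
  have hi : (J - m) + m = J := by omega
  have a1 := hpr (J - m) m hi
  have a2 := PF.close _ _ _ _ _ _ _ (tf.p (J - m) (by omega)) (tg.p (J - m) (by omega))
    (l2 (J - m) (by omega)) (hh1.trans (tf.lo _ (by omega))) (hh1.trans (tg.lo _ (by omega)))
    (hap _ (by omega)) x
  have a3 := up h f ρ tf hJu (J - m) m hi
  have a4 : h (J - m) ^ Dm ≤ Hm ^ Dm :=
    pow_le_pow_left₀ (hq0.le.trans (tf.lo _ (by omega))) a3 Dm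
  have e1 : L1 * (1 + (J : ℝ)) * (1 / 2) ^ (J - m) = L1 * 2 ^ m * ω := by
    have e2 : (1 / 2 : ℝ) ^ J = (1 / 2) ^ (J - m) * (1 / 2) ^ m := by
      rw [← pow_add, hi]
    rw [hω, e2]
    have e3 : (1 / 2 : ℝ) ^ m * 2 ^ m = 1 := by
      rw [← mul_pow]; norm_num
    calc L1 * (1 + (J : ℝ)) * (1 / 2) ^ (J - m) =
          L1 * (1 + (J : ℝ)) * (1 / 2) ^ (J - m) * ((1 / 2 : ℝ) ^ m * 2 ^ m) := by
            rw [e3, mul_one]
      _ = _ := by ring
  rw [e1] at a1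
  have a5 : |h (J - m) - k (J - m)| + l (J - m) ≤
      S * (L1 * 2 ^ m * ω + aJ * 2 ^ m) := by
    rw [hS]
    linarith [a1.1, a1.2]
  have a6 : L1 * 2 ^ m * ω + aJ * 2 ^ m ≤ (L1 * 2 ^ m + T * 2 ^ m) * (δ + ω) :=
    num4 hL10.le (by positivity) hδ0 hend
  have a7 : 0 ≤ |h (J - m) - k (J - m)| + l (J - m) :=
    add_nonneg (abs_nonneg _) (PF.nn _ _ _ _ _ (l2 (J - m) (by omega)))
  calc _ ≤ C' * h (J - m) ^ Dm * (|h (J - m) - k (J - m)| + l (J - m)) := a2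
    _ ≤ C' * Hm ^ Dm * (S * ((L1 * 2 ^ m + T * 2 ^ m) * (δ + ω))) := by
        refine mul_le_mul (mul_le_mul_of_nonneg_left a4 hC')
          (a5.trans (mul_le_mul_of_nonneg_left a6 hS0)) a7 (by positivity)
    _ = _ := by ring

end

end Pool.Agent.N989.MK
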