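import Mathlib
import Pool.Agent.N989.MK.Uniq

/-!
# Uniqueness of the continuum limit: the convergence of the whole sequence
-/

open MeasureTheory Pool.Agent.N991.MK Filter
open scoped Topology

namespace Pool.Agent.N989.MK

set_option linter.unusedSectionVars false

noncomputable section

/-- the couplings with almost the same mean -/
lemma num5 {A C8 h k x y v δ : ℝ} (hA : 0 < A) (hC8 : 0 ≤ C8) (h1 : 1 ≤ h) (k1 : 1 ≤ k)
    (h2 : 2 * C8 / A ≤ h) (k2 : 2 * C8 / A ≤ k) (hx : |x - A / h| ≤ C8 / h ^ 2)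
    (hy : |y - A / k| ≤ C8 / k ^ 2) (hv : 0 < v) (x1 : v / 2 ≤ x) (x2 : x ≤ 2 * v)
    (y1 : v / 2 ≤ y) (y2 : y ≤ 2 * v) (hδ : |x - y| ≤ δ) (hδ1 : δ * (16 * A / v ^ 2) ≤ 1) :
    |h - k| ≤ 32 * C8 / A + 1 := by
  have key : ∀ h x : ℝ, 1 ≤ h → 2 * C8 / A ≤ h → |x - A / h| ≤ C8 / h ^ 2 → v / 2 ≤ x →
      x ≤ 2 * v → A / (4 * v) ≤ h ∧ h ≤ 4 * A / v := by
    intro h x h1 h2 hx x1 x2
    have hh : 0 < h := by linarith
    rw [div_le_iff₀ hA] at h2
    have e1 : C8 / h ^ 2 ≤ A / (2 * h) := by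
      rw [div_le_div_iff₀ (by positivity) (by positivity)]
      nlinarith
    have e2 : A / (2 * h) = A / h / 2 := by field_simp
    have e3 := abs_le.1 hx
    have e4 : A / h / 2 ≤ x := by linarith [e3.1]
    have e5 : x ≤ 2 * (A / h) := by
      have : 0 < A / h := by positivity
      linarith [e3.2]
    constructor
    · rw [div_le_iff₀ (by positivity)]
      have e6 : A / h ≤ 4 * v := by linarith
      rw [div_le_iff₀ hh] at e6
      linarith
    · rw [le_div_iff₀ hv]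
      have e6 : v ≤ 4 * (A / h) := by linarith
      have e7 : 4 * (A / h) = 4 * A / h := by ring
      rw [e7, le_div_iff₀ hh] at e6
      linarith
  obtain ⟨a1, a2⟩ := key h x h1 h2 hx x1 x2
  obtain ⟨b1, b2⟩ := key k y k1 k2 hy y1 y2
  have hh : 0 < h := by linarith
  have hk : 0 < k := by linarith
  have hδ0 : 0 ≤ δ := (abs_nonneg _).trans hδ
  have c1 : |A / k - A / h| ≤ C8 / h ^ 2 + C8 / k ^ 2 + δ := by
    have e : A / k - A / h = (x - A / h) - (y - A / k) - (x - y) := by ring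
    rw [e]
    refine (abs_sub _ _).trans ?_
    have := abs_sub (x - A / h) (y - A / k)
    linarith
  have c2 : |h - k| = h * k / A * |A / k - A / h| := by
    have e : A / k - A / h = A / (h * k) * (h - k) := by
      field_simp
    rw [e, abs_mul, abs_of_pos (by positivity : 0 < A / (h * k)), ← mul_assoc]
    have e2 : h * k / A * (A / (h * k)) = 1 := by field_simp
    rw [e2, one_mul]
  rw [c2]
  have c3 := mul_le_mul_of_nonneg_left c1 (by positivity : 0 ≤ h * k / A)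
  refine c3.trans ?_
  have c4 : h * k / A * (C8 / h ^ 2 + C8 / k ^ 2 + δ) =
      C8 / A * (k / h + h / k) + δ * (h * k / A) := by
    field_simp
  rw [c4]
  have d1 : 4 * A / v = 16 * (A / (4 * v)) := by field_simp; ring
  have c5 : k / h ≤ 16 := by
    rw [div_le_iff₀ hh]
    linarith
  have c6 : h / k ≤ 16 := by
    rw [div_le_iff₀ hk]
    linarith
  have c7 : C8 / A * (k / h + h / k) ≤ C8 / A * 32 :=
    mul_le_mul_of_nonneg_left (by linarith) (by positivity)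
  have c8 : h * k / A ≤ 16 * A / v ^ 2 := by
    have e : h * k ≤ 4 * A / v * (4 * A / v) := mul_le_mul a2 b2 hk.le (by positivity)
    rw [div_le_iff₀ hA]
    refine e.trans (le_of_eq ?_)
    field_simp
    ring
  have c9 := mul_le_mul_of_nonneg_left c8 hδ0
  have c10 : C8 / A * 32 = 32 * C8 / A := by ring
  linarith

variable {G : Type*} [Group G] [TopologicalSpace G] [IsTopologicalGroup G] [CompactSpace G]
  [MeasurableSpace G] [BorelSpace G] [SecondCountableTopology G]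
  {μ : Measure G} [IsProbabilityMeasure μ] [μ.IsHaarMeasure] [μ.IsMulRightInvariant]
  [μ.IsInvInvariant] {χ : G → ℝ} {n : ℕ} {D : ED G n}

variable {Zb : ℝ → G → ℝ} {P : (G → ℝ) → ℝ → ℝ → Prop} {c h0 C A R : ℝ}
variable {Q : (G → ℝ) → (G → ℝ) → ℝ → ℝ → ℝ → Prop} {h1 ε C' c0 : ℝ} {Dm : ℕ}

/-- the scales with a large mean are in the weak coupling region -/
lemma extract (F : Flow μ χ D Zb P c h0 C A R) (ho : Obs μ χ) {m : ℕ} (hg : Gen D m 1)
    (hadm : ∀ β, Adm (Zb β)) {hq : ℝ} (hhq : h0 ≤ hq) :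
    ∃ H u1 : ℝ, u1 < 1 ∧ hq ≤ H ∧ ∀ β, H ≤ β → ∀ k, u1 < WW μ χ (TTn μ (Zb β) k) →
      ∃ h ρ, TP μ P c C hq R (Zb β) k h ρ := by
  obtain ⟨H, C4, hqH, hC4, hB⟩ := F.traj hq hhq
  obtain ⟨K, hK, hKs⟩ := F.ent H
  refine ⟨H, 1 - Real.exp (-(2 ^ m * K)), by
    have := Real.exp_pos (-(2 ^ m * K)); linarith, hqH, fun β hβ k hk => ?_⟩
  obtain ⟨J, h, ρ, s⟩ := hB β hβ
  have hkJ : k ≤ J := by
    by_contra hcon
    push Not at hcon
    obtain ⟨l, rfl⟩ := Nat.exists_eq_add_of_le hcon.le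
    have hAJ := (hadm β).TTn (μ := μ) J
    have hsc : SC D K (TTn μ (Zb β) J) :=
      hKs _ _ _ (s.p J le_rfl) (hhq.trans (s.lo J le_rfl)) s.fin
    have h2 := hsc.TTn (μ := μ) hK hAJ hg l
    have h3 : SC D K (TTn μ (TTn μ (Zb β) J) l) := by
      refine SC.mono ?_ h2
      have h0 := rate_nonneg m K
      have : rate m K ^ l ≤ 1 := pow_le_one₀ h0 (rate_lt m hK).le
      nlinarith
    have hA2 := hAJ.TTn (μ := μ) l
    have h4 := WW_le_osc ho hA2 fun x y => by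
      simpa using h3.osc zero_le_one hg hK hA2.cont hA2.pos x y
    rw [← TTn_add] at h4
    linarith
  have h00 : 0 ≤ ρ 0 := F.nn _ _ _ (s.p 0 (by omega))
  exact ⟨h, ρ, fun i hi => s.p i (by omega), fun i hi => s.lo i (by omega),
    (s.t.mono hkJ).weaken hqH, s.r0, h00⟩

/-- the law of the mean at the end of a trajectory -/
lemma coup (F : Flow μ χ D Zb P c h0 C A R) {hq : ℝ} (hhq : h0 ≤ hq) (hq1 : 1 ≤ hq)
    (hCq : C ≤ hq) (hCq2 : C * (R + 3) ≤ hq) {f : G → ℝ} {J : ℕ} {h ρ : ℕ → ℝ}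
    (tf : TP μ P c C hq R f J h ρ) {Hu : ℝ}
    (hHu : A + C * (R + 3) ≤ Hu * (1 - WW μ χ (TTn μ f J)))
    (hW : 0 < 1 - WW μ χ (TTn μ f J)) (hsm : (1 / 4) ^ J * R * Hu ≤ 1) :
    h J ≤ Hu ∧ |1 - WW μ χ (TTn μ f J) - A / h J| ≤ C * (2 + 4 * C) / h J ^ 2 := by
  have hC := F.C_nn
  have hR := F.R_nn
  have hq0 : 0 < hq := by linarith
  have hJ := tf.lo J le_rfl
  have hJ0 : 0 < h J := by linarith
  have hw := F.wil _ _ _ (tf.p J le_rfl) (hhq.trans hJ)
  have hbd := tf.t.bd hq0 hC hCq tf.r0 tf.r J le_rfl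
  have h5 : 1 / h J ≤ 1 := by
    rw [div_le_one hJ0]
    linarith
  have hle : h J ≤ Hu := by
    have h6 : C * (ρ J + 1 / h J) ≤ C * (R + 3) := mul_le_mul_of_nonneg_left (by linarith) hC
    have h7 : 1 - WW μ χ (TTn μ f J) ≤ (A + C * (R + 3)) / h J := by
      have h8 := (abs_le.1 hw).2
      have h9 : C * (ρ J + 1 / h J) / h J ≤ C * (R + 3) / h J :=
        div_le_div_of_nonneg_right h6 hJ0.le
      rw [add_div]
      linarith
    rw [le_div_iff₀ hJ0] at h7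
    have h8 : (1 - WW μ χ (TTn μ f J)) * h J ≤ (1 - WW μ χ (TTn μ f J)) * Hu := by linarith
    exact le_of_mul_le_mul_left h8 hW
  refine ⟨hle, hw.trans ?_⟩
  have h6 := tf.t.ra2 F.c_pos.le hC hq0 hCq hCq2 hq1 tf.r0 tf.r hJ0 J le_rfl
  have h7 : (1 / 4) ^ J * R ≤ 1 / h J := by
    rw [le_div_iff₀ hJ0]
    have h8 : 0 ≤ (1 / 4 : ℝ) ^ J * R := by positivity
    have := mul_le_mul_of_nonneg_left hle h8
    linarith
  have h8 : ρ J + 1 / h J ≤ (2 + 4 * C) * (1 / h J) := by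
    have e : 4 * C / h J = 4 * C * (1 / h J) := by ring
    rw [e] at h6
    linarith
  have h9 := mul_le_mul_of_nonneg_left h8 hC
  have h10 : C * (ρ J + 1 / h J) / h J ≤ C * ((2 + 4 * C) * (1 / h J)) / h J :=
    div_le_div_of_nonneg_right h9 hJ0.le
  refine h10.trans (le_of_eq ?_)
  field_simp

lemma tend_pow : Tendsto (fun J : ℕ => (1 + (J : ℝ)) * (1 / 2) ^ J) atTop (𝓝 0) := by
  have h1 : Tendsto (fun J : ℕ => (1 / 2 : ℝ) ^ J) atTop (𝓝 0) :=
    tendsto_pow_atTop_nhds_zero_of_lt_one (by norm_num) (by norm_num)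
  have h2 : Tendsto (fun J : ℕ => (J : ℝ) * (1 / 2 : ℝ) ^ J) atTop (𝓝 0) :=
    tendsto_self_mul_const_pow_of_lt_one (by norm_num) (by norm_num)
  have h3 := h1.add h2
  rw [add_zero] at h3
  refine h3.congr fun J => ?_
  ring

/-- **Uniqueness**: two sequences with the same limit of the mean approach each other -/
theorem unique_main {Zb' : ℝ → G → ℝ} (F : Flow μ χ D Zb P c h0 C A R)
    (F' : Flow μ χ D Zb' P c h0 C A R) (PF : PairFlow μ χ P Q h1 ε C' c0 Dm)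
    (ho : Obs μ χ) (Fm : FamG D Zb) (Fm' : FamG D Zb') {m0 : ℕ} (hg : Gen D m0 1) (hA : 0 < A) :
    ∃ u0 : ℝ, 0 ≤ u0 ∧ u0 < 1 ∧ ∀ u, u0 < u → u < 1 → ∀ (β β' : ℕ → ℝ) (k k' : ℕ → ℕ),
      (∀ i, 0 < β i) → (∀ i, 0 < β' i) → Tendsto k atTop atTop → Tendsto k' atTop atTop →
      Tendsto (fun i => WW μ χ (TTn μ (Zb (β i)) (k i))) atTop (𝓝 u) →
      Tendsto (fun i => WW μ χ (TTn μ (Zb' (β' i)) (k' i))) atTop (𝓝 u) →
      ∀ (m : ℕ) (η : ℝ), 0 < η → ∀ᶠ i in atTop, ∀ x,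
        |nrm μ (TTn μ (Zb (β i)) (k i - m)) x - nrm μ (TTn μ (Zb' (β' i)) (k' i - m)) x| < η := by
  have hC := F.C_nn
  have hR := F.R_nn
  have hc := F.c_pos
  have hε := PF.e_pos
  have hC' := PF.C_nn
  have hc0 := PF.c0_pos
  set C8 : ℝ := C * (2 + 4 * C) with hC8
  have hC80 : 0 ≤ C8 := by positivity
  set E0 : ℝ := 32 * C8 / A + 1 with hE0
  have hE00 : 0 ≤ E0 := by positivity
  set B1 : ℝ := 4 / 3 * C * ((R + 2) + 2) with hB1
  have hB10 : 0 ≤ B1 := by positivity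
  set Qc : ℝ := C + 4 / 3 * C ^ 2 with hQc
  have hQc0 : 0 ≤ Qc := by positivity
  set hq : ℝ := max (max (max h0 h1) (max 1 (C * (R + 3) + C)))
    (max (max (8 * C' * (1 + 4 * C')) (2 * C' * (1 + 8 * C') / c0))
      (max (B1 + (E0 + 2 * B1) / ε) (max (Qc * (2 + ε) / (ε * c)) (2 * C8 / A)))) with hhq
  have q1 : h0 ≤ hq := (le_max_left _ _).trans ((le_max_left _ _).trans (le_max_left _ _))
  have q2 : h1 ≤ hq := (le_max_right _ _).trans ((le_max_left _ _).trans (le_max_left _ _))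
  have q3 : 1 ≤ hq := (le_max_left _ _).trans ((le_max_right _ _).trans (le_max_left _ _))
  have q4 : C * (R + 3) + C ≤ hq :=
    (le_max_right _ _).trans ((le_max_right _ _).trans (le_max_left _ _))
  have q5 : 8 * C' * (1 + 4 * C') ≤ hq :=
    (le_max_left _ _).trans ((le_max_left _ _).trans (le_max_right _ _))
  have q6 : 2 * C' * (1 + 8 * C') / c0 ≤ hq :=
    (le_max_right _ _).trans ((le_max_left _ _).trans (le_max_right _ _))
  have q7 : B1 + (E0 + 2 * B1) / ε ≤ hq :=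
    (le_max_left _ _).trans ((le_max_right _ _).trans (le_max_right _ _))
  have q8 : Qc * (2 + ε) / (ε * c) ≤ hq :=
    (le_max_left _ _).trans ((le_max_right _ _).trans ((le_max_right _ _).trans
      (le_max_right _ _)))
  have q9 : 2 * C8 / A ≤ hq :=
    (le_max_right _ _).trans ((le_max_right _ _).trans ((le_max_right _ _).trans
      (le_max_right _ _)))
  have hq0 : 0 < hq := by linarith
  have hCR : 0 ≤ C * (R + 3) := by positivity
  have c1 : E0 + 2 * B1 ≤ ε * (hq - B1) := by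
    have h2 : (E0 + 2 * B1) / ε ≤ hq - B1 := by linarith
    rw [div_le_iff₀ hε] at h2
    linarith
  have c2 : 2 * (Qc / hq) ≤ ε * (c - Qc / hq) := by
    have h2 : Qc / hq * (2 + ε) ≤ ε * c := by
      rw [div_mul_eq_mul_div, div_le_iff₀ hq0]
      rw [div_le_iff₀ (by positivity)] at q8
      linarith
    linarith
  have c3 : 2 * C' * (1 + 8 * C') ≤ c0 * hq := by
    rw [div_le_iff₀ hc0] at q6
    linarith
  obtain ⟨H, u1, hu1, hqH, hex⟩ := extract F ho hg Fm.adm q1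
  obtain ⟨H', u2, hu2, hqH', hex'⟩ := extract F' ho hg Fm'.adm q1
  refine ⟨max (max u1 u2) 0, le_max_right _ _, max_lt (max_lt hu1 hu2) one_pos,
    fun u hu hu' β β' k k' hβ hβ' hk hk' hW hW' m η hη => ?_⟩
  have hu1' : u1 < u := (le_max_left _ _).trans_lt ((le_max_left _ _).trans_lt hu)
  have hu2' : u2 < u := (le_max_right _ _).trans_lt ((le_max_left _ _).trans_lt hu)
  have hu0 : 0 < u := (le_max_right _ _).trans_lt hu
  have hv : 0 < 1 - u := by linarith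
  set Hu : ℝ := 2 * (A + C * (R + 3)) / (1 - u) with hHu
  have hHu0 : 0 ≤ Hu := by positivity
  obtain ⟨E, hE, hest⟩ := pair_est (P := P) PF hc hC (by positivity : 0 ≤ R + 2) q2 q3
    (by linarith : C ≤ hq) q5 c3 (E0 := E0) c1 c2 hHu0 m
  obtain ⟨n0, hn0⟩ := Fm.far ho hg (half_pos hu0) H
  obtain ⟨n0', hn0'⟩ := Fm'.far ho hg (half_pos hu0) H'
  -- the events
  have hpow : Tendsto (fun J : ℕ => (1 / 4 : ℝ) ^ J * R * Hu) atTop (𝓝 (0 * R * Hu)) :=
    ((tendsto_pow_atTop_nhds_zero_of_lt_one (by norm_num) (by norm_num)).mul_const R).mul_const _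
  rw [zero_mul, zero_mul] at hpow
  have ev : ∀ (Zb : ℝ → G → ℝ) (H u1 : ℝ) (n0 : ℕ), (∀ k ≥ n0, ∀ β, 0 ≤ β → β ≤ H →
      WW μ χ (TTn μ (Zb β) k) < u / 2) → u1 < u →
      ∀ (β : ℕ → ℝ) (k : ℕ → ℕ), (∀ i, 0 < β i) → Tendsto k atTop atTop →
      Tendsto (fun i => WW μ χ (TTn μ (Zb (β i)) (k i))) atTop (𝓝 u) →
      ∀ᶠ i in atTop, H ≤ β i ∧ u1 < WW μ χ (TTn μ (Zb (β i)) (k i)) ∧
        (1 - u) / 2 ≤ 1 - WW μ χ (TTn μ (Zb (β i)) (k i)) ∧
        1 - WW μ χ (TTn μ (Zb (β i)) (k i)) ≤ 2 * (1 - u) ∧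
        (1 / 4 : ℝ) ^ (k i) * R * Hu ≤ 1 := by
    intro Zb H u1 n0 hn0 hu1' β k hβ hk hW
    filter_upwards [hk.eventually (eventually_ge_atTop n0),
      hW.eventually (lt_mem_nhds (show u / 2 < u by linarith)),
      hW.eventually (lt_mem_nhds hu1'),
      hW.eventually (lt_mem_nhds (show 1 - 2 * (1 - u) < u by linarith)),
      hW.eventually (gt_mem_nhds (show u < 1 - (1 - u) / 2 by linarith)),
      (hpow.comp hk).eventually (gt_mem_nhds one_pos)] with i a1 a2 a3 a4 a5 a6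
    refine ⟨?_, a3, by linarith, by linarith, le_of_lt a6⟩
    by_contra hcon
    push Not at hcon
    have := hn0 (k i) a1 (β i) (hβ i).le hcon.le
    linarith
  have hδ : Tendsto (fun i => |WW μ χ (TTn μ (Zb (β i)) (k i)) -
      WW μ χ (TTn μ (Zb' (β' i)) (k' i))|) atTop (𝓝 0) := by
    have := (hW.sub hW').abs
    simpa using this
  have hmin : Tendsto (fun i => min (k i) (k' i)) atTop atTop :=
    tendsto_atTop.2 fun b => by
      filter_upwards [hk.eventually (eventually_ge_atTop b),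
        hk'.eventually (eventually_ge_atTop b)] with i a1 a2
      exact le_min a1 a2
  have hω := tend_pow.comp hmin
  have hbound := (hδ.add hω).const_mul E
  rw [add_zero, mul_zero] at hbound
  have hδ2 : ∀ᶠ i in atTop, |WW μ χ (TTn μ (Zb (β i)) (k i)) -
      WW μ χ (TTn μ (Zb' (β' i)) (k' i))| * (16 * A / (1 - u) ^ 2) ≤ 1 := by
    have h2 := hδ.mul_const (16 * A / (1 - u) ^ 2)
    rw [zero_mul] at h2
    exact (h2.eventually (gt_mem_nhds one_pos)).mono fun i hi => le_of_lt hi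
  filter_upwards [ev Zb H u1 n0 hn0 hu1' β k hβ hk hW, ev Zb' H' u2 n0' hn0' hu2' β' k' hβ' hk' hW',
    hδ2,
    hbound.eventually (gt_mem_nhds hη), hmin.eventually (eventually_ge_atTop m)] with i a1 a2 a3 a4
    a5 x
  obtain ⟨b1, b2, b3, b4, b5⟩ := a1
  obtain ⟨d1, d2, d3, d4, d5⟩ := a2
  obtain ⟨h, ρ, tf⟩ := hex (β i) b1 (k i) b2
  obtain ⟨g, σ, tg⟩ := hex' (β' i) d1 (k' i) d2
  have hHu' : ∀ w : ℝ, (1 - u) / 2 ≤ w → A + C * (R + 3) ≤ Hu * w := by
    intro w hw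
    have h2 : Hu * ((1 - u) / 2) = A + C * (R + 3) := by
      rw [hHu]
      field_simp
    have h3 := mul_le_mul_of_nonneg_left hw hHu0
    linarith
  obtain ⟨e1, e2⟩ := coup F q1 q3 (by linarith : C ≤ hq) (by linarith) tf (hHu' _ b3)
    (by linarith) b5
  obtain ⟨f1, f2⟩ := coup F q1 q3 (by linarith : C ≤ hq) (by linarith) tg (hHu' _ d3)
    (by linarith) d5
  have hdiff : |h (k i) - g (k' i)| ≤ E0 := by
    refine num5 (v := 1 - u) hA hC80 (q3.trans (tf.lo _ le_rfl)) (q3.trans (tg.lo _ le_rfl))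
      (q9.trans (tf.lo _ le_rfl)) (q9.trans (tg.lo _ le_rfl)) e2 f2 hv b3 b4 d3 d4 ?_ a3
    rw [abs_sub_comm]
    have e : 1 - WW μ χ (TTn μ (Zb' (β' i)) (k' i)) -
        (1 - WW μ χ (TTn μ (Zb (β i)) (k i))) =
        WW μ χ (TTn μ (Zb (β i)) (k i)) - WW μ χ (TTn μ (Zb' (β' i)) (k' i)) := by ring
    rw [e]
  -- the shifted trajectories
  set J := min (k i) (k' i) with hJ
  have mk : ∀ (b : G → ℝ) (q : ℕ) (h ρ : ℕ → ℝ), TP μ P c C hq R b q h ρ → J ≤ q →
      TP μ P c C hq (R + 2) (TTn μ b (q - J)) J (fun i => h (q - J + i))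
        (fun i => ρ (q - J + i)) := by
    intro b q h ρ t hJq
    refine ⟨fun i hi => ?_, fun i hi => t.lo _ (by omega), t.t.shift (by omega), ?_, ?_⟩
    · rw [← TTn_add]
      exact t.p _ (by omega)
    · exact t.t.bd hq0 hC (by linarith) t.r0 t.r _ (by omega)
    · exact t.t.nonneg t.r0 _ (by omega)
  have t1 := mk _ _ _ _ tf (min_le_left _ _)
  have t2 := mk _ _ _ _ tg (min_le_right _ _)
  have i1 : k i - J + J = k i := Nat.sub_add_cancel (min_le_left _ _)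
  have i2 : k' i - J + J = k' i := Nat.sub_add_cancel (min_le_right _ _)
  have hfin := hest _ _ J _ _ _ _ t1 t2 (by
      show |h (k i - J + J) - g (k' i - J + J)| ≤ E0
      rw [i1, i2]; exact hdiff) (by
      show h (k i - J + J) ≤ Hu
      rw [i1]; exact e1) (by
      show g (k' i - J + J) ≤ Hu
      rw [i2]; exact f1) a5 x
  rw [← TTn_add, ← TTn_add, ← TTn_add, ← TTn_add, i1, i2] at hfin
  have i3 : k i - J + (J - m) = k i - m := by
    have : J ≤ k i := min_le_left _ _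
    have : m ≤ J := a5
    omega
  have i4 : k' i - J + (J - m) = k' i - m := by
    have : J ≤ k' i := min_le_right _ _
    have : m ≤ J := a5
    omega
  rw [i3, i4] at hfin
  exact hfin.trans_lt a4

end

end Pool.Agent.N989.MK
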