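import Mathlib
import Pool.Agent.N989.MK.Uniq2
import Pool.Agent.N989.MK.Lim2

/-!
# The continuum limit, with the convergence of all sequences
-/

open MeasureTheory Pool.Agent.N991.MK Filter
open scoped Topology

namespace Pool.Agent.N989.MK

set_option linter.unusedSectionVars false

noncomputable section

variable {G : Type*} [Group G] [TopologicalSpace G] [IsTopologicalGroup G] [CompactSpace G]
  [MeasurableSpace G] [BorelSpace G] [SecondCountableTopology G]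
  {μ : Measure G} [IsProbabilityMeasure μ] [μ.IsHaarMeasure] [μ.IsMulRightInvariant]
  [μ.IsInvInvariant]

/-- uniform convergence -/
def UT (f : ℕ → G → ℝ) (F : G → ℝ) : Prop :=
  ∀ ε : ℝ, 0 < ε → ∀ᶠ i in atTop, ∀ x, |f i x - F x| < ε

variable {f : ℕ → G → ℝ} {F : G → ℝ}

omit [Group G] [IsTopologicalGroup G] [MeasurableSpace G] [BorelSpace G]
  [SecondCountableTopology G] in
lemma exists_bd (hF : Continuous F) : ∃ B : ℝ, 1 ≤ B ∧ ∀ x, |F x| + 1 ≤ B := by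
  obtain ⟨B, hB⟩ := (isCompact_range hF.abs).bddAbove
  refine ⟨max (B + 1) 1, le_max_right _ _, fun x => ?_⟩
  have : |F x| ≤ B := hB ⟨x, rfl⟩
  exact le_trans (by linarith) (le_max_left _ _)

lemma UT.conv (hf : ∀ i, Continuous (f i)) (hF : Continuous F) (h : UT f F) :
    UT (fun i => conv μ (f i) (f i)) (conv μ F F) := by
  obtain ⟨B, hB1, hB⟩ := exists_bd hF
  intro ε hε
  have hB0 : 0 < B := by linarith
  filter_upwards [h 1 one_pos, h (ε / (4 * B)) (by positivity)] with i h1 h2 x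
  have hb : ∀ y, |f i y| ≤ B := fun y => by
    have := abs_sub_abs_le_abs_sub (f i y) (F y)
    have := hB y
    have := h1 y
    linarith
  have hb' : ∀ y, |F y| ≤ B := fun y => by have := hB y; linarith
  unfold Pool.Agent.N991.MK.conv
  have c1 : Continuous fun y => f i y * f i (y⁻¹ * x) := by
    have := hf i
    fun_prop
  have c2 : Continuous fun y => F y * F (y⁻¹ * x) := by fun_prop
  rw [← integral_sub (integrable_of_cont c1) (integrable_of_cont c2)]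
  have h3 : ∀ y, ‖f i y * f i (y⁻¹ * x) - F y * F (y⁻¹ * x)‖ ≤ ε / 2 := by
    intro y
    have e : f i y * f i (y⁻¹ * x) - F y * F (y⁻¹ * x) =
        (f i y - F y) * f i (y⁻¹ * x) + F y * (f i (y⁻¹ * x) - F (y⁻¹ * x)) := by ring
    rw [e, Real.norm_eq_abs]
    refine (abs_add_le _ _).trans ?_
    rw [abs_mul, abs_mul]
    have g1 := mul_le_mul (h2 y).le (hb (y⁻¹ * x)) (abs_nonneg _) (by positivity)
    have g2 := mul_le_mul (hb' y) (h2 (y⁻¹ * x)).le (abs_nonneg _) hB0.le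
    have e2 : ε / (4 * B) * B = ε / 4 := by field_simp
    have e3 : B * (ε / (4 * B)) = ε / 4 := by field_simp
    rw [e2] at g1
    rw [e3] at g2
    linarith
  have h4 := norm_integral_le_of_norm_le_const (μ := μ) (Eventually.of_forall h3)
  simp only [probReal_univ, mul_one] at h4
  rw [Real.norm_eq_abs] at h4
  linarith

omit [Group G] [IsTopologicalGroup G] [MeasurableSpace G] [BorelSpace G]
  [SecondCountableTopology G] in
lemma UT.pow4 (hF : Continuous F) (h : UT f F) :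
    UT (fun i x => f i x ^ 4) (fun x => F x ^ 4) := by
  obtain ⟨B, hB1, hB⟩ := exists_bd hF
  intro ε hε
  have hB0 : 0 < B := by linarith
  filter_upwards [h 1 one_pos, h (ε / (8 * B ^ 3)) (by positivity)] with i h1 h2 x
  have hb : |f i x| ≤ B := by
    have := abs_sub_abs_le_abs_sub (f i x) (F x)
    have := hB x
    have := h1 x
    linarith
  have hb' : |F x| ≤ B := by have := hB x; linarith
  have e : f i x ^ 4 - F x ^ 4 = (f i x - F x) * (f i x ^ 3 + f i x ^ 2 * F x +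
      f i x * F x ^ 2 + F x ^ 3) := by ring
  rw [e, abs_mul]
  have g : |f i x ^ 3 + f i x ^ 2 * F x + f i x * F x ^ 2 + F x ^ 3| ≤ 4 * B ^ 3 := by
    have a1 : |f i x ^ 3| ≤ B ^ 3 := by
      rw [abs_pow]
      exact pow_le_pow_left₀ (abs_nonneg _) hb 3
    have a2 : |f i x ^ 2 * F x| ≤ B ^ 3 := by
      rw [abs_mul, abs_pow]
      calc |f i x| ^ 2 * |F x| ≤ B ^ 2 * B :=
            mul_le_mul (pow_le_pow_left₀ (abs_nonneg _) hb 2) hb' (abs_nonneg _) (by positivity)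
        _ = B ^ 3 := by ring
    have a3 : |f i x * F x ^ 2| ≤ B ^ 3 := by
      rw [abs_mul, abs_pow]
      calc |f i x| * |F x| ^ 2 ≤ B * B ^ 2 :=
            mul_le_mul hb (pow_le_pow_left₀ (abs_nonneg _) hb' 2) (by positivity) hB0.le
        _ = B ^ 3 := by ring
    have a4 : |F x ^ 3| ≤ B ^ 3 := by
      rw [abs_pow]
      exact pow_le_pow_left₀ (abs_nonneg _) hb' 3
    refine (abs_add_le _ _).trans ?_
    have := abs_add_le (f i x ^ 3 + f i x ^ 2 * F x) (f i x * F x ^ 2)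
    have := abs_add_le (f i x ^ 3) (f i x ^ 2 * F x)
    linarith
  calc |f i x - F x| * |f i x ^ 3 + f i x ^ 2 * F x + f i x * F x ^ 2 + F x ^ 3|
      ≤ ε / (8 * B ^ 3) * (4 * B ^ 3) :=
        mul_le_mul (h2 x).le g (abs_nonneg _) (by positivity)
    _ = ε / 2 := by field_simp; ring
    _ < ε := by linarith

lemma UT.TT (hf : ∀ i, Continuous (f i)) (hF : Continuous F) (h : UT f F) :
    UT (fun i => TT μ (f i)) (TT μ F) := by
  have c1 : ∀ i, Continuous (Pool.Agent.N991.MK.conv μ (f i) (f i)) := fun i =>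
    cont_conv (hf i) (hf i)
  have c2 : Continuous (Pool.Agent.N991.MK.conv μ F F) := cont_conv hF hF
  exact UT.pow4 (cont_conv c2 c2) (UT.conv (μ := μ) c1 c2 (UT.conv (μ := μ) hf hF h))

lemma UT.TTn (hf : ∀ i, Adm (f i)) (hF : Adm F) (h : UT f F) :
    ∀ j : ℕ, UT (fun i => TTn μ (f i) j) (TTn μ F j)
  | 0 => h
  | j + 1 => UT.TT (fun i => ((hf i).TTn (μ := μ) j).cont) (hF.TTn j).cont (UT.TTn hf hF h j)

lemma UT.int (hf : ∀ i, Continuous (f i)) (hF : Continuous F) (h : UT f F) :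
    Tendsto (fun i => ∫ x, f i x ∂μ) atTop (𝓝 (∫ x, F x ∂μ)) := by
  rw [Metric.tendsto_atTop']
  intro ε hε
  obtain ⟨n, hn⟩ := eventually_atTop.1 (h (ε / 2) (half_pos hε))
  refine ⟨n, fun i hi => ?_⟩
  rw [Real.dist_eq, ← integral_sub (integrable_of_cont (hf i)) (integrable_of_cont hF)]
  have h3 : ∀ y, ‖f i y - F y‖ ≤ ε / 2 := fun y => (hn i hi.le y).le
  have h4 := norm_integral_le_of_norm_le_const (μ := μ) (Eventually.of_forall h3)
  simp only [probReal_univ, mul_one] at h4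
  rw [Real.norm_eq_abs] at h4
  linarith

lemma UT.nrm (hf : ∀ i, Adm (f i)) (hF : Adm F) (h : UT f F) :
    UT (fun i => nrm μ (f i)) (nrm μ F) := by
  obtain ⟨B, hB1, hB⟩ := exists_bd hF.cont
  have hB0 : 0 < B := by linarith
  have hI := hF.ipos (μ := μ)
  have h1 := UT.int (μ := μ) (fun i => (hf i).cont) hF.cont h
  have h2 := h1.inv₀ hI.ne'
  intro ε hε
  have h3 : Tendsto (fun i => |(∫ x, f i x ∂μ)⁻¹ - (∫ x, F x ∂μ)⁻¹| * B) atTop (𝓝 0) := by
    have := ((h2.sub_const (∫ x, F x ∂μ)⁻¹).abs).mul_const B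
    simpa using this
  have h4 := h2.eventually (gt_mem_nhds (show (∫ x, F x ∂μ)⁻¹ < (∫ x, F x ∂μ)⁻¹ + 1 by linarith))
  have hI' := inv_pos.2 hI
  filter_upwards [h3.eventually (gt_mem_nhds (half_pos hε)), h4,
    h (ε / (2 * ((∫ x, F x ∂μ)⁻¹ + 1))) (by positivity)] with i a1 a2 a3 x
  unfold Pool.Agent.N989.MK.nrm
  obtain ⟨p, hp⟩ : ∃ p, p = (∫ x, f i x ∂μ)⁻¹ := ⟨_, rfl⟩
  obtain ⟨q, hq⟩ : ∃ q, q = (∫ x, F x ∂μ)⁻¹ := ⟨_, rfl⟩
  rw [← hp, ← hq] at a1 ⊢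
  rw [← hp, ← hq] at a2
  rw [← hq] at a3 hI'
  have hp0 : 0 < p := by rw [hp]; exact inv_pos.2 ((hf i).ipos (μ := μ))
  have e : p * f i x - q * F x = p * (f i x - F x) + (p - q) * F x := by ring
  rw [e]
  refine (abs_add_le _ _).trans_lt ?_
  rw [abs_mul, abs_mul, abs_of_pos hp0]
  have b1 : p * |f i x - F x| ≤ (q + 1) * (ε / (2 * (q + 1))) :=
    mul_le_mul a2.le (a3 x).le (abs_nonneg _) (by positivity)
  have e1 : (q + 1) * (ε / (2 * (q + 1))) = ε / 2 := by field_simp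
  have b2 : |p - q| * |F x| ≤ |p - q| * B :=
    mul_le_mul_of_nonneg_left (by have := hB x; linarith) (abs_nonneg _)
  linarith

/-- the normalised iterations are determined by the normalised density -/
lemma nrm_TTn_nrm {f : G → ℝ} (h : Adm f) (j : ℕ) :
    nrm μ (TTn μ (nrm μ f) j) = nrm μ (TTn μ f j) := by
  induction j with
  | zero =>
    have e : TTn μ (nrm μ f) 0 = nrm μ f := rfl
    have e2 : TTn μ f 0 = f := rfl
    rw [e, e2]
    have h1 : nrm μ (nrm μ f) = nrm μ (fun x => (∫ y, f y ∂μ)⁻¹ * f x) := rfl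
    rw [h1, nrm_scale (inv_pos.2 h.ipos)]
  | succ j ih =>
    have e : TTn μ (nrm μ f) (j + 1) = TT μ (TTn μ (nrm μ f) j) := rfl
    have e2 : TTn μ f (j + 1) = TT μ (TTn μ f j) := rfl
    rw [e, e2, ← nrm_TT_nrm ((h.nrm (μ := μ)).TTn j), ih, nrm_TT_nrm (h.TTn j)]

variable {χ : G → ℝ} {n : ℕ} {D : ED G n}
variable {Zb : ℝ → G → ℝ} {P : (G → ℝ) → ℝ → ℝ → Prop} {c h0 C A R : ℝ}
variable {Q : (G → ℝ) → (G → ℝ) → ℝ → ℝ → ℝ → Prop} {h1 ε C' c0 : ℝ} {Dm : ℕ}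

/-- the convergence at the negative scales implies the convergence at all scales -/
lemma conv_all {Fk : ℤ → G → ℝ} (hadm : ∀ β, Adm (Zb β)) (hA : ∀ k, Adm (Fk k))
    (h1 : ∀ k, ∫ x, Fk k x ∂μ = 1) (hr : ∀ k, Fk (k + 1) = nrm μ (TT μ (Fk k)))
    {β : ℕ → ℝ} {l : ℕ → ℕ} (hl : Tendsto l atTop atTop)
    (hneg : ∀ m : ℕ, UT (fun i x => nrm μ (TTn μ (Zb (β i)) (l i - m)) x) (Fk (-m))) (k : ℤ) :
    UT (fun i x => nrm μ (TTn μ (Zb (β i)) ((l i : ℤ) + k).toNat) x) (Fk k) := by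
  rcases le_or_gt k 0 with hk | hk
  · obtain ⟨m, rfl⟩ : ∃ m : ℕ, k = -m := ⟨k.natAbs, by omega⟩
    intro ε hε
    filter_upwards [hneg m ε hε, hl.eventually (eventually_ge_atTop m)] with i a1 a2 x
    have e : (((l i : ℤ) + -(m : ℤ)).toNat) = l i - m := by omega
    rw [e]
    exact a1 x
  · obtain ⟨j, rfl⟩ : ∃ j : ℕ, k = j := ⟨k.toNat, by omega⟩
    have hA1 : ∀ i, Adm (nrm μ (TTn μ (Zb (β i)) (l i))) := fun i =>
      ((hadm (β i)).TTn (l i)).nrm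
    have h0 : UT (fun i => nrm μ (TTn μ (Zb (β i)) (l i))) (Fk 0) := by
      have := hneg 0
      simpa using this
    have h1' := UT.nrm (μ := μ) (fun i => (hA1 i).TTn (μ := μ) j) ((hA 0).TTn (μ := μ) j)
      (UT.TTn (μ := μ) hA1 (hA 0) h0 j)
    have h2 : nrm μ (TTn μ (Fk 0) j) = Fk j := by
      clear h1' hk
      induction j with
      | zero =>
        have e : TTn μ (Fk 0) 0 = Fk 0 := rfl
        rw [e]
        unfold Pool.Agent.N989.MK.nrm
        rw [h1 0]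
        funext x
        simp
      | succ j ih =>
        have e : TTn μ (Fk 0) (j + 1) = TT μ (TTn μ (Fk 0) j) := rfl
        rw [e, ← nrm_TT_nrm ((hA 0).TTn j), ih, ← hr j]
        congr 1
    rw [h2] at h1'
    intro ε hε
    filter_upwards [h1' ε hε] with i a1 x
    have b1 := a1 x
    rw [nrm_TTn_nrm ((hadm (β i)).TTn (l i)), ← TTn_add] at b1
    have e : (((l i : ℤ) + (j : ℤ)).toNat) = l i + j := by omega
    rw [e]
    exact b1

/-- **Universality**: for large values of the mean all sequences of both families converge to the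
same limit -/
theorem universal {Zb' : ℝ → G → ℝ} (F : Flow μ χ D Zb P c h0 C A R)
    (F' : Flow μ χ D Zb' P c h0 C A R) (PF : PairFlow μ χ P Q h1 ε C' c0 Dm)
    (ho : Obs μ χ) (Fm : FamG D Zb) (Fm' : FamG D Zb') {m : ℕ} (hg : Gen D m 1) (hA : 0 < A) :
    ∃ u0 : ℝ, u0 < 1 ∧ ∀ u, u0 < u → u < 1 → ∀ (β : ℕ → ℝ) (φ : ℕ → ℕ) (Fk : ℤ → G → ℝ),
      (∀ i, 0 < β i) → Tendsto φ atTop atTop →
      Tendsto (fun i => WW μ χ (TTn μ (Zb (β i)) (φ i))) atTop (𝓝 u) →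
      (∀ k, Adm (Fk k)) → (∀ k, ∫ x, Fk k x ∂μ = 1) →
      (∀ k, Fk (k + 1) = nrm μ (TT μ (Fk k))) →
      (∀ k : ℤ, UT (fun i x => nrm μ (TTn μ (Zb (β i)) ((φ i : ℤ) + k).toNat) x) (Fk k)) →
      ∀ (β' : ℕ → ℝ) (l : ℕ → ℕ), (∀ i, 0 < β' i) → Tendsto l atTop atTop →
        Tendsto (fun i => WW μ χ (TTn μ (Zb' (β' i)) (l i))) atTop (𝓝 u) →
        ∀ k : ℤ, UT (fun i x => nrm μ (TTn μ (Zb' (β' i)) ((l i : ℤ) + k).toNat) x) (Fk k) := by
  obtain ⟨u0, hu00, hu01, huniq⟩ := unique_main F' F PF ho Fm' Fm hg hA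
  refine ⟨u0, hu01, fun u hu hu1 β φ Fk hβ hφ hW g1 g2 g3 g5 β' l hβ' hl hW' => ?_⟩
  refine conv_all Fm'.adm g1 g2 g3 hl fun m ε hε => ?_
  have h2 := huniq u hu hu1 β' β l φ hβ' hβ hl hφ hW' hW m (ε / 2) (half_pos hε)
  filter_upwards [h2, g5 (-m) (ε / 2) (half_pos hε),
    hφ.eventually (eventually_ge_atTop m)] with i a1 a2 a3 x
  have e : (((φ i : ℤ) + -(m : ℤ)).toNat) = φ i - m := by omega
  have b1 := a1 x
  have b2 := a2 x
  rw [e] at b2
  have := abs_sub_le (nrm μ (TTn μ (Zb' (β' i)) (l i - m)) x)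
    (nrm μ (TTn μ (Zb (β i)) (φ i - m)) x) (Fk (-m) x)
  linarith

/-- **The continuum limit** -/
theorem Flow.continuum2 (F : Flow μ χ D Zb P c h0 C A R) (ho : Obs μ χ) (Fm : FamG D Zb)
    {m : ℕ} (hg : Gen D m 1)
    (hnb : ∀ δ : ℝ, 0 < δ → {g : G | ∃ X, qf X ≤ δ ∧ g = D.E X} ∈ 𝓝 (1 : G))
    {u : ℝ} (hu0 : 0 < u) (hu1 : u < 1) : ∃ (β : ℕ → ℝ) (φ : ℕ → ℕ) (Fk : ℤ → G → ℝ),
      (∀ i, 0 < β i ∧ WW μ χ (TTn μ (Zb (β i)) i) = u) ∧ Tendsto β atTop atTop ∧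
      StrictMono φ ∧
      (∀ k : ℤ, Adm (Fk k) ∧ ∫ x, Fk k x ∂μ = 1 ∧ Fk (k + 1) = nrm μ (TT μ (Fk k)) ∧
        ∃ K, 0 ≤ K ∧ SC D K (Fk k)) ∧
      (∀ k : ℤ, UT (fun i x => nrm μ (TTn μ (Zb (β (φ i))) ((φ i : ℤ) + k).toNat) x) (Fk k)) ∧
      (∀ k, 0 < WW μ χ (Fk k) ∧ WW μ χ (Fk k) < 1) ∧ WW μ χ (Fk 0) = u ∧
      ∃ C5 : ℝ, 0 ≤ C5 ∧ ∀ j : ℕ, 1 ≤ j →
        |1 - WW μ χ (Fk (-j)) - A / (c * j)| ≤ C5 * (1 + Real.log j) / j ^ 2 := by
  obtain ⟨β, φ, Fk, g1, g2, g3, g4, g5, g6, g7, g8⟩ := F.continuum ho Fm hg hnb hu0 hu1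
  refine ⟨β, φ, Fk, g1, g2, g3, g4, fun k ε hε => ?_, g6, g7, g8⟩
  have h2 := Metric.tendstoUniformly_iff.1 (g5 k) ε hε
  filter_upwards [h2] with i hi x
  have h3 := hi x
  rwa [dist_comm, Real.dist_eq] at h3

end

end Pool.Agent.N989.MK
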