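import Mathlib
import Pool.Agent.N984.TW.Chart1
import Pool.Agent.N989.MK.SC

/-!
# The exponential data of a closed subgroup of the unitary group
-/

open MeasureTheory Matrix Filter
open scoped Matrix.Norms.Frobenius ContDiff Topology
open Pool.Agent.H906R3.YM Pool.Agent.W793.YM Pool.Agent.TH618.YM Pool.Agent.N984.TW

namespace Pool.Agent.N989.MK

set_option linter.unusedSectionVars false

noncomputable section

variable {N n : ℕ} {G : Subgroup (UN N)} (B : Frame G n) (hG : IsClosed (G : Set (UN N)))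

lemma LX_pc {A : Mat N} (hA : A ∈ Submodule.span ℝ (Set.range B.X)) : LX B (pc B A) = A := by
  obtain ⟨c, hc⟩ := (Submodule.mem_span_range_iff_exists_fun ℝ).1 hA
  have h1 : A = LX B c := hc.symm
  rw [h1, pc_LX]

lemma norm_LX (x : Fin n → ℝ) : ‖LX B x‖ ^ 2 = qf x := by
  rw [norm_sq_ip]
  have h1 : ip (LX B x) (LX B x) = ∑ a, x a * pc B (LX B x) a := by
    conv_lhs => rw [ip_comm]
    unfold pc
    have : ∀ A : Mat N, ip A (LX B x) = ∑ a, x a * ip (B.X a) A := by
      intro A
      unfold LX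
      rw [map_sum]
      refine Finset.sum_congr rfl fun a _ => ?_
      rw [map_smul, smul_eq_mul, ip_comm]
    exact this _
  rw [h1, pc_LX]
  unfold qf
  exact Finset.sum_congr rfl fun a _ => by ring

lemma mt_inv (g : G) : mt g⁻¹ = (mt g)ᴴ := rfl

/-- the exponential data -/
def EDG : ED G n where
  E := Eg B hG
  neg := Eg_neg B hG
  dbl := fun X => by
    apply mt_inj
    rw [mt_mul, mt_Eg, mt_Eg]
    unfold EM
    rw [LX_smul, ← Matrix.exp_add_of_commute _ _ (Commute.refl _), two_smul]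
  ad := fun y X => by
    set A : Mat N := mt y⁻¹ * LX B X * (mt y⁻¹)ᴴ with hA
    have hmem : A ∈ Submodule.span ℝ (Set.range B.X) := by
      have h1 : ∀ x : Fin n → ℝ, mt y⁻¹ * LX B x * (mt y⁻¹)ᴴ ∈
          Submodule.span ℝ (Set.range B.X) := by
        intro x
        unfold LX
        rw [Finset.mul_sum, Finset.sum_mul]
        refine Submodule.sum_mem _ fun a _ => ?_
        rw [mul_smul_comm, smul_mul_assoc]
        exact Submodule.smul_mem _ _ (B.conj_mem y⁻¹ a)
      exact h1 X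
    refine ⟨pc B A, ?_, ?_, ?_⟩
    · apply mt_inj
      have h2 := LX_pc B hmem
      have hu : IsUnit (mt y⁻¹) := ⟨⟨mt y⁻¹, (mt y⁻¹)ᴴ, rhoG_unit y⁻¹, rhoG_unit' y⁻¹⟩, rfl⟩
      have hinv : (mt y⁻¹)⁻¹ = (mt y⁻¹)ᴴ := Matrix.inv_eq_right_inv (rhoG_unit y⁻¹)
      have h1 := Matrix.exp_conj (mt y⁻¹) (LX B X) hu
      rw [mt_mul, mt_mul, mt_Eg, mt_Eg]
      unfold EM
      rw [h2, hA, ← hinv, h1, hinv, ← mt_inv, inv_inv]
    · apply mt_inj
      have h2 := LX_pc B hmem
      have hu : IsUnit (mt y⁻¹) := ⟨⟨mt y⁻¹, (mt y⁻¹)ᴴ, rhoG_unit y⁻¹, rhoG_unit' y⁻¹⟩, rfl⟩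
      have hinv : (mt y⁻¹)⁻¹ = (mt y⁻¹)ᴴ := Matrix.inv_eq_right_inv (rhoG_unit y⁻¹)
      have h1 := Matrix.exp_conj (mt y⁻¹) (-LX B X) hu
      rw [mt_mul, mt_mul, mt_Eg, mt_Eg]
      unfold EM
      rw [LX_neg, LX_neg, h2]
      have h3 : -A = mt y⁻¹ * -LX B X * (mt y⁻¹)⁻¹ := by
        rw [hA, hinv, mul_neg, neg_mul]
      rw [h3, h1, hinv, ← mt_inv, inv_inv]
    · rw [← norm_LX B, LX_pc B hmem, ← norm_LX B, hA, ← mt_inv, inv_inv, norm_mul_unit,
        norm_mt_mul]

lemma EDG_E (X : Fin n → ℝ) : (EDG B hG).E X = Eg B hG X := rfl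

/-- a connected group is generated by exponentials -/
theorem exists_gen (hc : IsConnected (G : Set (UN N))) : ∃ m : ℕ, Gen (EDG B hG) m 1 := by
  have hcomp : CompactSpace G := isCompact_iff_compactSpace.1 hG.isCompact
  have hconn : ConnectedSpace G := isConnected_iff_connectedSpace.1 hc
  -- the exponentials are a neighbourhood of the identity
  have hU : {g : G | ∃ X, qf X ≤ 1 ∧ g = Eg B hG X} ∈ 𝓝 (1 : G) := by
    have h1 := Eg_lg B hG
    have h2 : Tendsto (fun g : G => qf (lg B g)) (𝓝 1) (𝓝 0) := by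
      have h3 : Tendsto (fun g : G => lgM B (mt g)) (𝓝 1) (𝓝 0) := by
        have := (lgM_contDiffAt B).continuousAt.tendsto.comp (mt_tendsto (G := G))
        rwa [lgM_one] at this
      have h4 : Continuous fun x : Fin n → ℝ => qf x := by
        unfold qf
        fun_prop
      have h5 := (h4.tendsto 0).comp h3
      have h6 : qf (0 : Fin n → ℝ) = 0 := by simp [qf]
      rw [h6] at h5
      exact h5
    filter_upwards [h1, h2.eventually (gt_mem_nhds (zero_lt_one))] with g hg hq
    exact ⟨lg B g, hq.le, hg.symm⟩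
  set A : ℕ → Set G := fun m => {x | ∃ l : List (Fin n → ℝ), l.length ≤ m ∧
    (∀ X ∈ l, qf X ≤ 1) ∧ x = (l.map (Eg B hG)).prod} with hA
  have hmono : Monotone A := fun a b hab x ⟨l, h1, h2, h3⟩ => ⟨l, h1.trans hab, h2, h3⟩
  -- the union is everything
  have hcl : Subgroup.closure {g : G | ∃ X, qf X ≤ 1 ∧ g = Eg B hG X} = ⊤ := by
    set S := Subgroup.closure {g : G | ∃ X, qf X ≤ 1 ∧ g = Eg B hG X} with hS
    have ho : IsOpen (S : Set G) :=
      Subgroup.isOpen_of_mem_nhds S (mem_of_superset hU Subgroup.subset_closure)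
    have hcl : IsClosed (S : Set G) := Subgroup.isClosed_of_isOpen S ho
    have h1 : (S : Set G) = Set.univ :=
      IsClopen.eq_univ ⟨hcl, ho⟩ ⟨1, S.one_mem⟩
    exact SetLike.coe_injective (by rw [h1]; rfl)
  have hun : ∀ x : G, ∃ m, x ∈ A m := by
    intro x
    have hx : x ∈ Subgroup.closure {g : G | ∃ X, qf X ≤ 1 ∧ g = Eg B hG X} := by
      rw [hcl]; trivial
    induction hx using Subgroup.closure_induction with
    | mem y hy =>
      obtain ⟨X, hX, rfl⟩ := hy
      exact ⟨1, [X], by simp, by simpa using hX, by simp⟩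
    | one => exact ⟨0, [], by simp, by simp, by simp⟩
    | mul y z _ _ hy hz =>
      obtain ⟨m1, l1, a1, a2, a3⟩ := hy
      obtain ⟨m2, l2, b1, b2, b3⟩ := hz
      refine ⟨m1 + m2, l1 ++ l2, ?_, ?_, ?_⟩
      · rw [List.length_append]; omega
      · intro X hX
        rcases List.mem_append.1 hX with h | h
        · exact a2 X h
        · exact b2 X h
      · rw [List.map_append, List.prod_append, a3, b3]
    | inv y _ hy =>
      obtain ⟨m1, l1, a1, a2, a3⟩ := hy
      refine ⟨m1, (l1.map fun X => -X).reverse, ?_, ?_, ?_⟩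
      · simpa using a1
      · intro X hX
        rw [List.mem_reverse, List.mem_map] at hX
        obtain ⟨Z, hZ, rfl⟩ := hX
        have := a2 Z hZ
        have e : qf (-Z) = qf Z := by
          rw [← neg_one_smul ℝ Z, qf_smul]; norm_num
        rwa [e]
      · rw [a3, List.prod_inv_reverse, List.map_reverse, List.map_map, List.map_map]
        congr 2
        refine List.map_congr_left fun X _ => ?_
        simp [Eg_neg]
  -- compactness
  have hint : ∀ x : G, ∃ m, x ∈ interior (A m) := by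
    intro x
    obtain ⟨m, l, a1, a2, a3⟩ := hun x
    refine ⟨m + 1, ?_⟩
    rw [mem_interior_iff_mem_nhds]
    have h1 : (fun y => x⁻¹ * y) ⁻¹' {g : G | ∃ X, qf X ≤ 1 ∧ g = Eg B hG X} ∈ 𝓝 x := by
      have hc1 : ContinuousAt (fun y : G => x⁻¹ * y) x :=
        (continuous_const.mul continuous_id).continuousAt
      apply hc1
      simpa using hU
    refine mem_of_superset h1 ?_
    rintro y ⟨X, hX, hy⟩
    refine ⟨l ++ [X], ?_, ?_, ?_⟩
    · rw [List.length_append, List.length_singleton]; omega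
    · intro Z hZ
      rcases List.mem_append.1 hZ with h | h
      · exact a2 Z h
      · rw [List.mem_singleton.1 h]; exact hX
    · rw [List.map_append, List.prod_append, ← a3]
      simp only [List.map_cons, List.map_nil, List.prod_cons, List.prod_nil, mul_one]
      rw [← hy, mul_inv_cancel_left]
  obtain ⟨m, hm⟩ := isCompact_univ.elim_directed_cover (fun m => interior (A m))
    (fun m => isOpen_interior) (fun x _ => Set.mem_iUnion.2 (hint x))
    (monotone_nat_of_le_succ fun k => interior_mono (hmono (Nat.le_succ k))).directed_le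
  refine ⟨m, fun x => ?_⟩
  obtain ⟨l, h1, h2, h3⟩ := interior_subset (hm (Set.mem_univ x))
  exact ⟨l, h1, h2, h3⟩

/-- the Wilson weight is semiconcave -/
theorem wilson_SC {β : ℝ} (hβ : 0 ≤ β) :
    SC (EDG B hG) β (fun x : G => Real.exp (β * (trace (mt x)).re)) := by
  intro X x
  rw [Real.log_exp, Real.log_exp, Real.log_exp, EDG_E, EDG_E]
  set Y : Fin n → ℝ := (1 / 2 : ℝ) • X with hY
  have hXY : X = (2 : ℝ) • Y := by rw [hY, smul_smul]; norm_num
  have hnX : -X = (2 : ℝ) • (-Y) := by rw [smul_neg, ← hXY]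
  set D : Mat N := mt (Eg B hG Y) - mt (Eg B hG (-Y)) with hD
  have e1 : mt (Eg B hG X) = mt (Eg B hG Y) * mt (Eg B hG Y) := by
    rw [← mt_mul]
    congr 1
    have := (EDG B hG).dbl Y
    rw [← hXY] at this
    exact this
  have e2 : mt (Eg B hG (-X)) = mt (Eg B hG (-Y)) * mt (Eg B hG (-Y)) := by
    rw [← mt_mul]
    congr 1
    have := (EDG B hG).dbl (-Y)
    rw [← hnX] at this
    exact this
  have e3 : mt (Eg B hG Y) * mt (Eg B hG (-Y)) = 1 := by
    rw [← mt_mul, Eg_neg, mul_inv_cancel, mt_one]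
  have e4 : mt (Eg B hG (-Y)) * mt (Eg B hG Y) = 1 := by
    rw [← mt_mul, Eg_neg, inv_mul_cancel, mt_one]
  have hsum : mt (Eg B hG X * x) + mt (Eg B hG (-X) * x) - (2 : ℝ) • mt x = D * (D * mt x) := by
    rw [mt_mul, mt_mul, e1, e2, hD]
    have : (mt (Eg B hG Y) - mt (Eg B hG (-Y))) * ((mt (Eg B hG Y) - mt (Eg B hG (-Y))) * mt x) =
        mt (Eg B hG Y) * mt (Eg B hG Y) * mt x + mt (Eg B hG (-Y)) * mt (Eg B hG (-Y)) * mt x -
          (mt (Eg B hG Y) * mt (Eg B hG (-Y))) * mt x -
          (mt (Eg B hG (-Y)) * mt (Eg B hG Y)) * mt x := by noncomm_ring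
    rw [this, e3, e4, one_mul, two_smul]
    abel
  have htr : (trace (mt (Eg B hG X * x))).re + (trace (mt (Eg B hG (-X) * x))).re -
      2 * (trace (mt x)).re = (trace (D * (D * mt x))).re := by
    rw [← hsum, trace_sub, trace_add, trace_smul, Complex.sub_re, Complex.add_re,
      Complex.smul_re, smul_eq_mul]
  have hDn : ‖D‖ ^ 2 ≤ qf X := by
    have h1 : ‖D‖ ≤ 2 * ‖LX B Y‖ := by
      have hder : ∀ s : ℝ, HasDerivAt (fun s : ℝ => (NormedSpace.exp (s • LX B Y) : Mat N) -
          NormedSpace.exp ((-s) • LX B Y))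
          (NormedSpace.exp (s • LX B Y) * LX B Y + NormedSpace.exp ((-s) • LX B Y) * LX B Y) s := by
        intro s
        have h2 := hasDerivAt_exp_smul_const (𝕂 := ℝ) (LX B Y) s
        have h3 := (hasDerivAt_exp_smul_const (𝕂 := ℝ) (LX B Y) (-s)).scomp s (hasDerivAt_neg s)
        have h4 := h2.sub h3
        refine h4.congr_deriv ?_
        rw [neg_one_smul, sub_neg_eq_add]
        rfl
      have hb : ∀ s ∈ Set.Ico (0 : ℝ) 1, ‖(NormedSpace.exp (s • LX B Y) * LX B Y +
          NormedSpace.exp ((-s) • LX B Y) * LX B Y : Mat N)‖ ≤ 2 * ‖LX B Y‖ := by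
        intro s _
        have h5 : ∀ t : ℝ, ‖(NormedSpace.exp (t • LX B Y) * LX B Y : Mat N)‖ = ‖LX B Y‖ := by
          intro t
          have h6 : (NormedSpace.exp (t • LX B Y) : Mat N) = mt (Eg B hG (t • Y)) := by
            rw [mt_Eg]; unfold EM; rw [LX_smul B t Y]
          rw [h6, norm_mt_mul]
        refine (norm_add_le _ _).trans ?_
        rw [h5, h5]
        linarith
      have h7 := norm_image_sub_le_of_norm_deriv_le_segment_01'
        (f := fun s : ℝ => (NormedSpace.exp (s • LX B Y) : Mat N) -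
          NormedSpace.exp ((-s) • LX B Y))
        (fun s _ => (hder s).hasDerivWithinAt) hb
      simp only [one_smul, neg_smul, zero_smul, neg_zero, sub_self, sub_zero] at h7
      have h8 : D = NormedSpace.exp (LX B Y) - NormedSpace.exp (-LX B Y) := by
        rw [hD, mt_Eg, mt_Eg]; unfold EM; rw [LX_neg]
      rw [h8]
      exact h7
    have h9 := norm_LX B Y
    have h10 : qf X = 4 * qf Y := by rw [hXY, qf_smul]; norm_num
    rw [h10, ← h9]
    nlinarith [norm_nonneg D, norm_nonneg (LX B Y)]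
  have hab : -(‖D‖ ^ 2) ≤ (trace (D * (D * mt x))).re := by
    have h1 : ip (Dᴴ) (D * mt x) = (trace (D * (D * mt x))).re := by
      rw [ip_apply, conjTranspose_conjTranspose]
    have h2 := abs_ip_le (Dᴴ) (D * mt x)
    rw [norm_mul_unit, Matrix.frobenius_norm_conjTranspose] at h2
    rw [h1] at h2
    have := (abs_le.1 h2).1
    nlinarith
  have : β * -(qf X) ≤ β * (trace (D * (D * mt x))).re :=
    mul_le_mul_of_nonneg_left (by linarith) hβ
  rw [← htr] at this
  linarith

end

end Pool.Agent.N989.MK
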