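import Mathlib
import Pool.Agent.N989.MK.Obs
import Pool.Agent.N989.MK.Grp

/-!
# The normalised character of an irreducible subgroup of the unitary group
-/

open MeasureTheory Matrix Filter Pool.Agent.N991.MK
open scoped Matrix.Norms.Frobenius Topology
open Pool.Agent.H906R3.YM Pool.Agent.W793.YM Pool.Agent.TH618.YM Pool.Agent.N984.TW

namespace Pool.Agent.N989.MK

set_option linter.unusedSectionVars false

noncomputable section

variable {N : ℕ} {G : Subgroup (UN N)}

/-- the normalised character -/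
def chi (G : Subgroup (UN N)) (x : G) : ℝ := (trace (mt x)).re / N

lemma chi_cont : Continuous (chi G) := by
  unfold chi
  have h1 : Continuous fun x : G => (trace (mt x)).re :=
    Complex.continuous_re.comp (Continuous.matrix_trace mt_cont)
  exact h1.div_const _

lemma mt_ctr (g x : G) : trace (mt (g * x * g⁻¹)) = trace (mt x) := by
  rw [mt_mul, mt_mul, mt_inv, trace_mul_cycle]
  have : (mt g)ᴴ * mt g = 1 := rhoG_unit' g
  rw [this, one_mul]

lemma chi_cls : Cls (chi G) := fun g x => by
  unfold chi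
  rw [mt_ctr]

lemma chi_sy : Sy (chi G) := fun x => by
  unfold chi
  rw [mt_inv, trace_conjTranspose]
  simp

lemma chi_le (hN : 0 < N) (x : G) : |chi G x| ≤ 1 := by
  unfold chi
  rw [abs_div, Nat.abs_cast, div_le_one (by exact_mod_cast hN)]
  have h1 : |(trace (mt x)).re| ≤ ‖trace (mt x)‖ := Complex.abs_re_le_norm _
  refine h1.trans ?_
  unfold trace
  refine (norm_sum_le _ _).trans ?_
  have h2 : ∀ i : Fin N, ‖(mt x).diag i‖ ≤ 1 := fun i =>
    entry_norm_bound_of_unitary (x : UN N).2 i i
  refine (Finset.sum_le_sum fun i _ => h2 i).trans ?_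
  simp

lemma chi_one (hN : 0 < N) : chi G 1 = 1 := by
  unfold chi
  rw [mt_one, trace_one]
  have : (N : ℝ) ≠ 0 := by exact_mod_cast hN.ne'
  simp [this]

lemma chi_pd : PDf (chi G) := fun k x => by
  rw [Matrix.posSemidef_iff_dotProduct_mulVec]
  refine ⟨?_, fun v => ?_⟩
  · ext i j
    simp only [Matrix.conjTranspose_apply, Matrix.of_apply, star_trivial]
    have h1 := chi_sy ((x i)⁻¹ * x j)
    rw [← h1]
    congr 1
    group
  · simp only [dotProduct, Matrix.mulVec, Matrix.of_apply, star_trivial]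
    set A : Mat N := ∑ i, v i • mt (x i) with hA
    have h1 : ∑ i, v i * ∑ j, chi G ((x i)⁻¹ * x j) * v j = (trace (Aᴴ * A)).re / N := by
      have h2 : Aᴴ * A = ∑ i, ∑ j, (v i * v j) • mt ((x i)⁻¹ * x j) := by
        rw [hA, conjTranspose_sum, Finset.sum_mul]
        refine Finset.sum_congr rfl fun i _ => ?_
        rw [Finset.mul_sum]
        refine Finset.sum_congr rfl fun j _ => ?_
        rw [conjTranspose_smul, star_trivial, smul_mul_smul_comm, mt_mul, mt_inv]
      rw [h2, trace_sum, Complex.re_sum, Finset.sum_div]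
      refine Finset.sum_congr rfl fun i _ => ?_
      rw [trace_sum, Complex.re_sum, Finset.sum_div, Finset.mul_sum]
      refine Finset.sum_congr rfl fun j _ => ?_
      unfold chi
      rw [trace_smul, Complex.smul_re, smul_eq_mul]
      ring
    rw [h1]
    refine div_nonneg ?_ (Nat.cast_nonneg _)
    have h3 : ip A A = (trace (Aᴴ * A)).re := by rw [ip_apply]
    rw [← h3, ← norm_sq_ip]
    positivity

variable [MeasurableSpace G] [BorelSpace G] [CompactSpace G] [SecondCountableTopology G]
  {μ : Measure G} [IsProbabilityMeasure μ]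
  [μ.IsHaarMeasure] [μ.IsMulRightInvariant] [μ.IsInvInvariant]

/-- the operator of a function -/
def Mf (μ : Measure G) (f : G → ℝ) : Mat N := Matrix.of fun i j => ∫ x, (f x : ℂ) * mt x i j ∂μ

lemma Mf_apply (f : G → ℝ) (i j : Fin N) : Mf μ f i j = ∫ x, (f x : ℂ) * mt x i j ∂μ := rfl

lemma ent_cont (i j : Fin N) : Continuous fun x : G => mt x i j :=
  (mt_cont (G := G)).matrix_elem i j

lemma int_ent {f : G → ℝ} (hf : Continuous f) (i j : Fin N) :
    Integrable (fun x : G => (f x : ℂ) * mt x i j) μ :=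
  ((Complex.continuous_ofReal.comp hf).mul (ent_cont i j)).integrable_of_hasCompactSupport
    (HasCompactSupport.of_compactSpace _)

lemma mul_Mf {f : G → ℝ} (hf : Continuous f) (y : G) :
    mt y * Mf μ f = Mf μ (fun x => f (y⁻¹ * x)) := by
  ext i j
  rw [mul_apply, Mf_apply,
    ← integral_mul_left_eq_self (μ := μ) (fun x => (f (y⁻¹ * x) : ℂ) * mt x i j) y]
  have h1 : ∀ x : G, (f (y⁻¹ * (y * x)) : ℂ) * mt (y * x) i j =
      ∑ k, mt y i k * ((f x : ℂ) * mt x k j) := by
    intro x
    rw [inv_mul_cancel_left, mt_mul, mul_apply, Finset.mul_sum]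
    exact Finset.sum_congr rfl fun k _ => by ring
  simp only [h1]
  rw [integral_finsetSum _ fun k _ => (int_ent hf k j).const_mul _]
  refine Finset.sum_congr rfl fun k _ => ?_
  rw [integral_const_mul, Mf_apply]

lemma Mf_mul {f : G → ℝ} (hf : Continuous f) (y : G) :
    Mf μ f * mt y = Mf μ (fun x => f (x * y⁻¹)) := by
  ext i j
  rw [mul_apply, Mf_apply,
    ← integral_mul_right_eq_self (μ := μ) (fun x => (f (x * y⁻¹) : ℂ) * mt x i j) y]
  have h1 : ∀ x : G, (f (x * y * y⁻¹) : ℂ) * mt (x * y) i j =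
      ∑ k, ((f x : ℂ) * mt x i k) * mt y k j := by
    intro x
    rw [mul_inv_cancel_right, mt_mul, mul_apply, Finset.mul_sum]
    exact Finset.sum_congr rfl fun k _ => by ring
  simp only [h1]
  rw [integral_finsetSum _ fun k _ => (int_ent hf i k).mul_const _]
  refine Finset.sum_congr rfl fun k _ => ?_
  rw [integral_mul_const, Mf_apply]

lemma trace_Mf {f : G → ℝ} (hf : Continuous f) :
    (trace (Mf μ f)).re / N = ∫ x, f x * chi G x ∂μ := by
  have h1 : trace (Mf μ f) = ∫ x, (f x : ℂ) * trace (mt x) ∂μ := by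
    unfold trace
    simp only [diag_apply, Mf_apply, Finset.mul_sum]
    rw [integral_finsetSum _ fun k _ => int_ent hf k k]
  have hint : Integrable (fun x : G => (f x : ℂ) * trace (mt x)) μ :=
    ((Complex.continuous_ofReal.comp hf).mul
      (Continuous.matrix_trace mt_cont)).integrable_of_hasCompactSupport
      (HasCompactSupport.of_compactSpace _)
  have h2 : (trace (Mf μ f)).re = ∫ x, f x * (trace (mt x)).re ∂μ := by
    rw [h1, ← RCLike.re_eq_complex_re, ← integral_re hint]
    refine integral_congr_ae (Eventually.of_forall fun x => ?_)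
    simp
  rw [h2, ← integral_div]
  refine integral_congr_ae (Eventually.of_forall fun x => ?_)
  unfold chi
  beta_reduce
  ring

lemma Mf_conv {f g : G → ℝ} (hf : Continuous f) (hg : Continuous g) :
    Mf μ (conv μ f g) = Mf μ f * Mf μ g := by
  ext i j
  have h2 : (Mf μ f * Mf μ g) i j = ∫ y, (f y : ℂ) * (mt y * Mf μ g) i j ∂μ := by
    have h3 : ∀ y : G, (f y : ℂ) * (mt y * Mf μ g) i j =
        ∑ k, ((f y : ℂ) * mt y i k) * Mf μ g k j := by
      intro y
      rw [mul_apply, Finset.mul_sum]
      exact Finset.sum_congr rfl fun k _ => by ring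
    simp only [h3]
    rw [integral_finsetSum _ fun k _ => (int_ent hf i k).mul_const _, mul_apply]
    refine Finset.sum_congr rfl fun k _ => ?_
    rw [integral_mul_const, Mf_apply]
  rw [h2]
  have h1 : ∀ y : G, (f y : ℂ) * (mt y * Mf μ g) i j =
      ∫ x, ((f y * g (y⁻¹ * x) : ℝ) : ℂ) * mt x i j ∂μ := by
    intro y
    rw [mul_Mf hg y, Mf_apply, ← integral_const_mul]
    refine integral_congr_ae (Eventually.of_forall fun x => ?_)
    beta_reduce
    push_cast
    ring
  simp only [h1]
  have hc : Continuous fun p : G × G => ((f p.1 * g (p.1⁻¹ * p.2) : ℝ) : ℂ) * mt p.2 i j := by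
    refine Continuous.mul ?_ ((ent_cont i j).comp continuous_snd)
    exact Complex.continuous_ofReal.comp ((hf.comp continuous_fst).mul
      (hg.comp ((continuous_fst.inv).mul continuous_snd)))
  rw [integral_integral_swap (f := fun y x => ((f y * g (y⁻¹ * x) : ℝ) : ℂ) * mt x i j)
    (hc.integrable_of_hasCompactSupport (HasCompactSupport.of_compactSpace _)), Mf_apply]
  refine integral_congr_ae (Eventually.of_forall fun x => ?_)
  beta_reduce
  rw [integral_mul_const]
  congr 1
  exact (integral_ofReal (𝕜 := ℂ) (μ := μ) (f := fun y => f y * g (y⁻¹ * x))).symm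

/-- Schur's lemma for the operators of the class functions -/
lemma Mf_scalar (hirr : ∀ A : Mat N, (∀ x : G, A * mt x = mt x * A) → ∃ c : ℂ, A = c • 1)
    {f : G → ℝ} (hf : Continuous f) (hc : Cls f) (hs : Sy f) :
    Mf μ f = ((∫ x, f x * chi G x ∂μ : ℝ) : ℂ) • 1 := by
  have h1 : ∀ y : G, Mf μ f * mt y = mt y * Mf μ f := by
    intro y
    rw [Mf_mul hf, mul_Mf hf]
    congr 1
    funext x
    rw [hc.swap]
  obtain ⟨c, hcc⟩ := hirr _ h1
  rcases Nat.eq_zero_or_pos N with h0 | hN
  · subst h0
    ext i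
    exact i.elim0
  have hstar : (Mf μ f)ᴴ = Mf μ f := by
    ext i j
    rw [conjTranspose_apply, Mf_apply, Mf_apply,
      ← integral_inv_eq_self (μ := μ) (fun x => (f x : ℂ) * mt x i j)]
    have h2 : star (∫ x, (f x : ℂ) * mt x j i ∂μ) = ∫ x, star ((f x : ℂ) * mt x j i) ∂μ :=
      (integral_conj (μ := μ) (f := fun x : G => (f x : ℂ) * mt x j i)).symm
    rw [h2]
    refine integral_congr_ae (Eventually.of_forall fun x => ?_)
    beta_reduce
    rw [mt_inv, conjTranspose_apply, hs]
    simp
  have hN' : (N : ℂ) ≠ 0 := by exact_mod_cast hN.ne'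
  have hN'' : (N : ℝ) ≠ 0 := by exact_mod_cast hN.ne'
  have htr : trace (Mf μ f) = c * N := by
    rw [hcc, trace_smul, trace_one, smul_eq_mul, Fintype.card_fin]
  have htr2 : star (trace (Mf μ f)) = trace (Mf μ f) := by
    rw [← trace_conjTranspose, hstar]
  have hre : ((trace (Mf μ f)).re : ℂ) = trace (Mf μ f) := by
    exact Complex.conj_eq_iff_re.1 htr2
  have h3 := trace_Mf (μ := μ) hf
  rw [hcc]
  congr 1
  rw [← h3]
  push_cast
  rw [hre, htr]
  field_simp

/-- the character of an irreducible non-commutative group has all the required properties -/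
theorem obs_chi (hirr : ∀ A : Mat N, (∀ x : G, A * mt x = mt x * A) → ∃ c : ℂ, A = c • 1)
    (hnc : ∃ a b : G, a * b ≠ b * a) : Obs μ (chi G) := by
  have hN : 0 < N := by
    rcases Nat.eq_zero_or_pos N with h0 | hN
    · subst h0
      obtain ⟨a, b, hab⟩ := hnc
      exact absurd (mt_inj (G := G) (by ext i; exact i.elim0)) hab
    · exact hN
  refine ⟨chi_cont, chi_le hN, chi_one hN, ?_, chi_pd, chi_cls, chi_sy, ?_⟩
  · -- the mean vanishes
    have h1 := Mf_scalar (μ := μ) hirr (f := fun _ => 1) continuous_const (fun _ _ => rfl)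
      (fun _ => rfl)
    simp only [one_mul] at h1
    set c := ∫ x, chi G x ∂μ with hc
    by_contra hne
    obtain ⟨a, b, hab⟩ := hnc
    have h2 : ∀ y : G, mt y = 1 := by
      intro y
      have h3 := mul_Mf (μ := μ) (f := fun _ => 1) continuous_const y
      have h4 : mt y * Mf μ (fun _ => 1) = Mf μ (fun _ => 1) := h3
      rw [h1, mul_smul_comm, mul_one] at h4
      have h5 : (c : ℂ) ≠ 0 := by exact_mod_cast hne
      exact smul_right_injective _ h5 h4
    refine hab (mt_inj ?_)
    rw [h2, h2]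
  · intro f g hf hg hfc hgc hfs hgs
    have h1 := Mf_conv (μ := μ) hf hg
    rw [Mf_scalar (μ := μ) hirr hf hfc hfs, Mf_scalar (μ := μ) hirr hg hgc hgs,
      Mf_scalar (μ := μ) hirr (cont_conv hf hg) (conv_cls hfc hgc) (conv_sy hfc hgc hfs hgs),
      smul_mul_smul_comm, mul_one] at h1
    have h2 := congrFun (congrFun h1 ⟨0, hN⟩) ⟨0, hN⟩
    simp only [Matrix.smul_apply, Matrix.one_apply_eq, smul_eq_mul, mul_one] at h2
    exact_mod_cast h2

/-- the Wilson weight -/
def wz (G : Subgroup (UN N)) (β : ℝ) (x : G) : ℝ := Real.exp (β * (trace (mt x)).re)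

lemma wz_adm (β : ℝ) : Adm (wz G β) := by
  have h1 : Continuous fun x : G => (trace (mt x)).re :=
    Complex.continuous_re.comp (Continuous.matrix_trace mt_cont)
  refine ⟨by unfold wz; fun_prop, fun x => Real.exp_pos _, fun g x => ?_, fun x => ?_⟩
  · unfold wz
    rw [mt_ctr]
  · unfold wz
    rw [mt_inv, trace_conjTranspose]
    simp

lemma wz_eq (hN : 0 < N) (β : ℝ) (x : G) : wz G β x = Real.exp (β * N * chi G x) := by
  unfold wz chi
  have : (N : ℝ) ≠ 0 := by exact_mod_cast hN.ne'
  congr 1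
  field_simp

end

section

variable {G : Type*} [Group G] [TopologicalSpace G] [IsTopologicalGroup G] [CompactSpace G]
  [MeasurableSpace G] [BorelSpace G] [SecondCountableTopology G]
  {μ : Measure G} [IsProbabilityMeasure μ] [μ.IsHaarMeasure] [μ.IsMulRightInvariant]
  [μ.IsInvInvariant] {χ : G → ℝ}

lemma exp_adm (h : Obs μ χ) (t : ℝ) : Adm (fun x => Real.exp (t * χ x)) := by
  have := h.cont
  refine ⟨by fun_prop, fun x => Real.exp_pos _, fun g x => by rw [h.cls g x], fun x => by
    rw [h.sy x]⟩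

/-- lower bound of the plaquette mean -/
lemma exp_W (h : Obs μ χ) {s t : ℝ} (hs : 0 ≤ s) (hst : s ≤ t) :
    Real.exp (-t) * ∫ x, (Real.exp (s * χ x) - 1) * χ x ∂μ ≤
      WW μ χ (fun x => Real.exp (t * χ x)) := by
  have hA := exp_adm h t
  have hI := hA.ipos (μ := μ)
  have hc := h.cont
  have ht : 0 ≤ t := hs.trans hst
  unfold WW
  rw [le_div_iff₀ hI]
  have h1 : ∫ x, Real.exp (t * χ x) * χ x ∂μ = ∫ x, (Real.exp (t * χ x) - 1) * χ x ∂μ := by
    have e : ∀ x, (Real.exp (t * χ x) - 1) * χ x = Real.exp (t * χ x) * χ x - χ x :=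
      fun x => by ring
    simp only [e]
    rw [integral_sub (h.int hA.cont) (integrable_of_cont h.cont), h.mean, sub_zero]
  have h2 : ∫ x, (Real.exp (s * χ x) - 1) * χ x ∂μ ≤ ∫ x, (Real.exp (t * χ x) - 1) * χ x ∂μ := by
    refine integral_mono (integrable_of_cont (by fun_prop)) (integrable_of_cont (by fun_prop))
      fun x => ?_
    beta_reduce
    rcases le_total 0 (χ x) with h0 | h0
    · refine mul_le_mul_of_nonneg_right ?_ h0
      have := Real.exp_le_exp.2 (mul_le_mul_of_nonneg_right hst h0)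
      linarith
    · refine mul_le_mul_of_nonpos_right ?_ h0
      have := Real.exp_le_exp.2 (mul_le_mul_of_nonpos_right hst h0)
      linarith
  have h3 : ∫ x, Real.exp (t * χ x) ∂μ ≤ Real.exp t := by
    have := integral_mono (μ := μ) hA.integrable (integrable_const (Real.exp t)) fun x => by
      refine Real.exp_le_exp.2 ?_
      nlinarith [(abs_le.1 (h.le x)).2]
    simpa using this
  have h4 : 0 ≤ ∫ x, (Real.exp (s * χ x) - 1) * χ x ∂μ := by
    refine integral_nonneg fun x => ?_
    show 0 ≤ (Real.exp (s * χ x) - 1) * χ x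
    rcases le_total 0 (χ x) with h0 | h0
    · refine mul_nonneg ?_ h0
      have := Real.one_le_exp (mul_nonneg hs h0)
      linarith
    · refine mul_nonneg_of_nonpos_of_nonpos ?_ h0
      have := Real.exp_le_one_iff.2 (mul_nonpos_of_nonneg_of_nonpos hs h0)
      linarith
  rw [h1]
  calc _ ≤ Real.exp (-t) * (∫ x, (Real.exp (s * χ x) - 1) * χ x ∂μ) * Real.exp t :=
        mul_le_mul_of_nonneg_left h3 (mul_nonneg (Real.exp_pos _).le h4)
    _ = ∫ x, (Real.exp (s * χ x) - 1) * χ x ∂μ := by
        rw [mul_comm, ← mul_assoc, ← Real.exp_add]; simp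
    _ ≤ _ := h2

lemma exp_int_pos (h : Obs μ χ) {s : ℝ} (hs : 0 < s) :
    0 < ∫ x, (Real.exp (s * χ x) - 1) * χ x ∂μ := by
  have hc := h.cont
  have hcc : Continuous fun x => (Real.exp (s * χ x) - 1) * χ x := by fun_prop
  refine hcc.integral_pos_of_hasCompactSupport_nonneg_nonzero
    (HasCompactSupport.of_compactSpace _) (fun x => ?_) (x := 1) ?_
  · show 0 ≤ (Real.exp (s * χ x) - 1) * χ x
    rcases le_total 0 (χ x) with h0 | h0
    · refine mul_nonneg ?_ h0
      have := Real.one_le_exp (mul_nonneg hs.le h0)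
      linarith
    · refine mul_nonneg_of_nonpos_of_nonpos ?_ h0
      have := Real.exp_le_one_iff.2 (mul_nonpos_of_nonneg_of_nonpos hs.le h0)
      linarith
  · rw [h.one]
    have : 1 < Real.exp (s * 1) := Real.one_lt_exp_iff.2 (by linarith)
    nlinarith

end

end Pool.Agent.N989.MK
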