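import Mathlib
import Pool.Agent.N991.MK.Low
import Pool.Agent.N991.MK.WilS
import Pool.Agent.N991.MK.WilT

/-!
# Entrances: families of bare weights which are states of the weak coupling flow
-/

open MeasureTheory Matrix Filter Asymptotics
open scoped Matrix.Norms.Frobenius ContDiff Topology
open Pool.Agent.H906R3.YM Pool.Agent.W793.YM Pool.Agent.TH618.YM Pool.Agent.N984.TW
open Pool.Agent.N988.MK (St)

namespace Pool.Agent.N991.MK

set_option linter.unusedSectionVars false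

noncomputable section

variable {N n : ℕ} {G : Subgroup (UN N)}

/-- an entrance: the weights `w β`, with entire extensions `W β` and remainders `mw β`, are states
of the weak coupling flow with the coupling `β` -/
structure Ent (B : Frame G n) (w : ℝ → G → ℝ) (W : ℝ → (Mat N)ˣ → ℂ)
    (mw : ℝ → (Fin n → ℂ) → ℂ) (r0 CW Λ : ℝ) : Prop where
  r_pos : 0 < r0
  C_nn : 0 ≤ CW
  L_nn : 0 ≤ Λ
  cf : ∀ β, 0 ≤ β → CF (w β) (W β)
  pos : ∀ β x, 0 < w β x
  st : ∀ r, 0 < r → r ≤ r0 → ∀ β, 0 ≤ β → St B r β (CW * β) (W β) (mw β)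
  tube : ∀ r, 0 < r → r ≤ r0 → ∀ β, 0 ≤ β → Tube B r β (W β)
  low : ∀ β, 0 ≤ β → LBw (w β) (Real.exp (-(Λ * β)))

/-- the Wilson action is an entrance -/
theorem ent_wil [CompactSpace G] [MeasurableSpace G] [BorelSpace G] (B : Frame G n) : ∃ r0 CW : ℝ,
    Ent B (wil G) (wilC N) (mW B) r0 CW (2 * N) := by
  obtain ⟨CW, r₂, hCW, hr₂, hws⟩ := wil_state B
  obtain ⟨r₃, hr₃, hwt⟩ := tube_wil B
  refine ⟨min r₂ r₃, CW, ⟨lt_min hr₂ hr₃, hCW, by positivity, fun β _ => CF_wil β,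
    fun β x => Real.exp_pos _, fun r hr hrr β hβ => hws r hr (hrr.trans (min_le_left _ _)) β hβ,
    fun r hr hrr β hβ => hwt r hr (hrr.trans (min_le_right _ _)) β hβ, fun β hβ => ?_⟩⟩
  exact wil_LBw hβ (le_refl β)

end

end Pool.Agent.N991.MK
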