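import Mathlib
import Pool.Agent.N988.MK.Sharp

/-!
# The error of order eight of the second difference of the quadratic form
-/

open MeasureTheory Filter Metric Asymptotics Matrix
open scoped Matrix.Norms.Frobenius Topology ContDiff
open Pool.Agent.H906R3.YM Pool.Agent.W793.YM Pool.Agent.TH618.YM Pool.Agent.N984.TW
open Pool.Agent.N991.MK

namespace Pool.Agent.N988.MK.B6

noncomputable section

variable {N n : ℕ} {G : Subgroup (UN N)} (B : Frame G n)

/-- the form of the double bracket: quartic in `x`, quadratic in `y` -/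
def brC2 (x y : Fin n → ℂ) : ℂ :=
  -trace ((LC B x * (LC B x * LC B y - LC B y * LC B x) -
    (LC B x * LC B y - LC B y * LC B x) * LC B x) *
    (LC B x * (LC B x * LC B y - LC B y * LC B x) -
    (LC B x * LC B y - LC B y * LC B x) * LC B x))

/-- the error of order eight -/
def E6 (b : (Fin n → ℂ) → (Fin n → ℂ) → (Fin n → ℂ)) (x y : Fin n → ℂ) : ℂ :=
  Tf b qC x y + 1 / 6 * brC B x y + 1 / 360 * (brC2 B x y + brC2 B y x)

end

end Pool.Agent.N988.MK.B6
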