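import Mathlib
import Pool.Agent.N991.MK.CLog

/-!
# The derivative of the matrix exponential up to order five
-/

open MeasureTheory Filter Metric Asymptotics Matrix
open scoped Matrix.Norms.Frobenius Topology ContDiff
open Pool.Agent.H906R3.YM Pool.Agent.W793.YM Pool.Agent.TH618.YM Pool.Agent.N984.TW
open Pool.Agent.N991.MK

namespace Pool.Agent.N988.MK.B6

set_option linter.unusedSectionVars false
set_option linter.unusedSimpArgs false

noncomputable section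

variable {N : ℕ}

/-- the commutator -/
def br (X Y : Mat N) : Mat N := X * Y - Y * X

/-- the truncated exponential -/
def P5 (A : Mat N) : Mat N := 1 + A + (1 / 2 : ℂ) • (A * A) + (1 / 6 : ℂ) • (A * (A * A)) +
      (1 / 24 : ℂ) • (A * (A * (A * A))) + (1 / 120 : ℂ) • (A * (A * (A * (A * A))))

/-- the homogeneous parts of the derivative of the truncated exponential -/
def L1 (A Z : Mat N) : Mat N := Z * A + A * Z
/-- the homogeneous parts of the derivative of the truncated exponential -/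
def L2 (A Z : Mat N) : Mat N := Z * (A * A) + A * L1 A Z
/-- the homogeneous parts of the derivative of the truncated exponential -/
def L3 (A Z : Mat N) : Mat N := Z * (A * (A * A)) + A * L2 A Z
/-- the homogeneous parts of the derivative of the truncated exponential -/
def L4 (A Z : Mat N) : Mat N := Z * (A * (A * (A * A))) + A * L3 A Z
/-- the derivative of the truncated exponential -/
def Lp (A Z : Mat N) : Mat N := Z + (1 / 2 : ℂ) • L1 A Z + (1 / 6 : ℂ) • L2 A Z +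
  (1 / 24 : ℂ) • L3 A Z + (1 / 120 : ℂ) • L4 A Z
/-- the truncated series of the left logarithmic derivative -/
def Ph (A Z : Mat N) : Mat N := Z - (1 / 2 : ℂ) • br A Z + (1 / 6 : ℂ) • br A (br A Z) -
  (1 / 24 : ℂ) • br A (br A (br A Z)) + (1 / 120 : ℂ) • br A (br A (br A (br A Z)))

/-- the truncated exponential of the negative -/
def Q4 (A : Mat N) : Mat N := 1 + (-A) + (1 / 2 : ℂ) • (A * A) + (-(1 / 6) : ℂ) • (A * (A * A)) +
      (1 / 24 : ℂ) • (A * (A * (A * A)))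

lemma alg0 (A Z : Mat N) :
    Q4 A * Lp A Z - Ph A Z =
    (-A) * ((1 / 120 : ℂ) • L4 A Z) +
    ((1 / 2 : ℂ) • (A * A)) * ((1 / 24 : ℂ) • L3 A Z + (1 / 120 : ℂ) • L4 A Z) +
    ((-(1 / 6) : ℂ) • (A * (A * A))) * ((1 / 6 : ℂ) • L2 A Z +
      (1 / 24 : ℂ) • L3 A Z + (1 / 120 : ℂ) • L4 A Z) +
    ((1 / 24 : ℂ) • (A * (A * (A * A)))) * ((1 / 2 : ℂ) • L1 A Z +
      (1 / 6 : ℂ) • L2 A Z + (1 / 24 : ℂ) • L3 A Z + (1 / 120 : ℂ) • L4 A Z) := by
  have e4 : (1 / 120 : ℂ) • L4 A Z + (-A) * ((1 / 24 : ℂ) • L3 A Z) +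
      ((1 / 2 : ℂ) • (A * A)) * ((1 / 6 : ℂ) • L2 A Z) +
      ((-(1 / 6) : ℂ) • (A * (A * A))) * ((1 / 2 : ℂ) • L1 A Z) +
      ((1 / 24 : ℂ) • (A * (A * (A * A)))) * Z =
      (1 / 120 : ℂ) • br A (br A (br A (br A Z))) := by
    unfold L4 L3 L2 L1 br
    simp only [mul_add, add_mul, mul_sub, sub_mul, mul_smul_comm, smul_mul_assoc,
      smul_smul, mul_assoc, neg_mul, smul_add, smul_sub]
    module
  have e3 : (1 / 24 : ℂ) • L3 A Z + (-A) * ((1 / 6 : ℂ) • L2 A Z) +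
      ((1 / 2 : ℂ) • (A * A)) * ((1 / 2 : ℂ) • L1 A Z) +
      ((-(1 / 6) : ℂ) • (A * (A * A))) * Z =
      -(1 / 24 : ℂ) • br A (br A (br A Z)) := by
    unfold L3 L2 L1 br
    simp only [mul_add, add_mul, mul_sub, sub_mul, mul_smul_comm, smul_mul_assoc,
      smul_smul, mul_assoc, neg_mul, smul_add, smul_sub]
    module
  have e2 : (1 / 6 : ℂ) • L2 A Z + (-A) * ((1 / 2 : ℂ) • L1 A Z) +
      ((1 / 2 : ℂ) • (A * A)) * Z = (1 / 6 : ℂ) • br A (br A Z) := by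
    unfold L2 L1 br
    simp only [mul_add, add_mul, mul_sub, sub_mul, mul_smul_comm, smul_mul_assoc,
      smul_smul, mul_assoc, neg_mul, smul_add, smul_sub]
    module
  have e1 : (1 / 2 : ℂ) • L1 A Z + (-A) * Z = -(1 / 2 : ℂ) • br A Z := by
    unfold L1 br
    simp only [neg_mul]
    module
  have e5 : Ph A Z = Z + (-(1 / 2 : ℂ) • br A Z) + (1 / 6 : ℂ) • br A (br A Z) +
    (-(1 / 24 : ℂ) • br A (br A (br A Z))) + (1 / 120 : ℂ) • br A (br A (br A (br A Z))) := by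
    unfold Ph
    module
  rw [e5, ← e1, ← e2, ← e3, ← e4]
  unfold Lp Q4
  simp only [mul_add, add_mul, one_mul]
  abel


/-- the exponential up to order six -/
lemma exp6 (N : ℕ) : (fun A : Mat N => NormedSpace.exp A - P5 A) =O[𝓝 0]
      fun A : Mat N => ‖A‖ ^ 6 := by
  have h := (NormedSpace.exp_hasFPowerSeriesAt_zero (𝕂 := ℂ) (𝔸 := Mat N)).isBigO_sub_partialSum_pow 6
  refine h.congr_left fun A => ?_
  unfold P5
  rw [zero_add, FormalMultilinearSeries.partialSum]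
  simp only [NormedSpace.expSeries_apply_eq]
  simp only [Finset.sum_range_succ, Finset.sum_range_zero, pow_succ, pow_zero,
    Nat.factorial, one_mul, zero_add, mul_one]
  norm_num
  simp only [mul_assoc]
  rfl

/-- the exponential up to order five -/
lemma exp5 (N : ℕ) : (fun A : Mat N => NormedSpace.exp (-A) - Q4 A) =O[𝓝 0]
      fun A : Mat N => ‖A‖ ^ 5 := by
  have h := (NormedSpace.exp_hasFPowerSeriesAt_zero (𝕂 := ℂ) (𝔸 := Mat N)).isBigO_sub_partialSum_pow 5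
  have h0 : Tendsto (fun A : Mat N => -A) (𝓝 0) (𝓝 0) := by
    have := (continuous_neg (G := Mat N)).tendsto 0
    rwa [neg_zero] at this
  refine (h.comp_tendsto h0).congr (fun A => ?_) (fun A => ?_)
  · simp only [Function.comp]
    unfold Q4
    rw [zero_add, FormalMultilinearSeries.partialSum]
    simp only [NormedSpace.expSeries_apply_eq]
    simp only [Finset.sum_range_succ, Finset.sum_range_zero, pow_succ, pow_zero,
      Nat.factorial, one_mul, zero_add, mul_one]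
    norm_num
    simp only [mul_assoc]
    rfl
  · simp only [Function.comp, norm_neg]

lemma ray_deriv (A Z : Mat N) : HasDerivAt (fun t : ℂ => A + t • Z) Z 0 := by
  have h : HasDerivAt (fun t : ℂ => t • Z) ((1 : ℂ) • Z) 0 :=
    (hasDerivAt_id (0 : ℂ)).smul_const Z
  exact (h.congr_deriv (one_smul ℂ Z)).const_add A

lemma P5_deriv (A Z : Mat N) : HasDerivAt (fun t : ℂ => P5 (A + t • Z)) (Lp A Z) 0 := by
  have e : A + (0 : ℂ) • Z = A := by rw [zero_smul, add_zero]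
  have h1 := ray_deriv A Z
  have h2 : HasDerivAt (fun t : ℂ => (A + t • Z) * (A + t • Z)) (L1 A Z) 0 := by
    have := h1.fun_mul h1
    rw [e] at this
    exact this
  have h3 : HasDerivAt (fun t : ℂ => (A + t • Z) * ((A + t • Z) * (A + t • Z))) (L2 A Z) 0 := by
    have := h1.fun_mul h2
    rw [e] at this
    exact this
  have h4 : HasDerivAt (fun t : ℂ => (A + t • Z) * ((A + t • Z) * ((A + t • Z) * (A + t • Z))))
      (L3 A Z) 0 := by
    have := h1.fun_mul h3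
    rw [e] at this
    exact this
  have h5 : HasDerivAt (fun t : ℂ => (A + t • Z) * ((A + t • Z) * ((A + t • Z) *
      ((A + t • Z) * (A + t • Z))))) (L4 A Z) 0 := by
    have := h1.fun_mul h4
    rw [e] at this
    exact this
  unfold P5 Lp
  exact ((((h1.const_add 1).fun_add (h2.fun_const_smul (1 / 2 : ℂ))).fun_add
    (h3.fun_const_smul (1 / 6 : ℂ))).fun_add (h4.fun_const_smul (1 / 24 : ℂ))).fun_add
    (h5.fun_const_smul (1 / 120 : ℂ))

lemma exp_ray (A Z : Mat N) : HasDerivAt (fun t : ℂ => NormedSpace.exp (A + t • Z))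
    (fderiv ℂ (NormedSpace.exp : Mat N → Mat N) A Z) 0 := by
  have h1 : HasFDerivAt (NormedSpace.exp : Mat N → Mat N)
      (fderiv ℂ (NormedSpace.exp : Mat N → Mat N) A) (A + (0 : ℂ) • Z) := by
    rw [zero_smul, add_zero]
    exact ((exp_contDiffC (N := N)).differentiable (by simp) A).hasFDerivAt
  exact h1.comp_hasDerivAt (0 : ℂ) (ray_deriv A Z)

lemma P5_diff : Differentiable ℂ (P5 : Mat N → Mat N) := by
  unfold P5
  fun_prop

/-- the derivative of the exponential up to order five -/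
lemma fderiv_exp (N : ℕ) : ∃ ρ c : ℝ, 0 < ρ ∧ 0 ≤ c ∧ ∀ A Z : Mat N, ‖A‖ < ρ →
    ‖fderiv ℂ (NormedSpace.exp : Mat N → Mat N) A Z - Lp A Z‖ ≤ c * ‖A‖ ^ 5 * ‖Z‖ := by
  obtain ⟨c, hc0, hc⟩ := (exp6 N).exists_nonneg
  obtain ⟨ρ, hρ, hb⟩ := Metric.eventually_nhds_iff.1 hc.bound
  refine ⟨ρ / 2, c * 2 ^ 6, by positivity, by positivity, fun A Z hA => ?_⟩
  obtain ⟨g, hg⟩ : ∃ g : ℂ → Mat N, g = fun t => NormedSpace.exp (A + t • Z) - P5 (A + t • Z) :=
    ⟨_, rfl⟩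
  have hder : HasDerivAt g (fderiv ℂ (NormedSpace.exp : Mat N → Mat N) A Z - Lp A Z) 0 := by
    rw [hg]
    exact (exp_ray A Z).fun_sub (P5_deriv A Z)
  have hbd : ∀ t : ℂ, ‖A + t • Z‖ < ρ → ‖g t‖ ≤ c * ‖A + t • Z‖ ^ 6 := by
    intro t ht
    have := hb (y := A + t • Z) (by rwa [dist_zero_right])
    rw [hg]
    refine this.trans (le_of_eq ?_)
    rw [norm_pow, norm_norm]
  by_cases hZ : Z = 0
  · rw [hZ, map_zero]
    have : Lp A (0 : Mat N) = 0 := by simp [Lp, L1, L2, L3, L4]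
    rw [this]
    simp
  by_cases hA0 : A = 0
  · have e1 : Lp (0 : Mat N) Z = Z := by simp [Lp, L1, L2, L3, L4]
    have e2 : fderiv ℂ (NormedSpace.exp : Mat N → Mat N) 0 Z = Z := by
      rw [(exp_fderivC (N := N)).fderiv]
      rfl
    rw [hA0, e1, e2, sub_self]
    simp
  have pZ := norm_pos_iff.2 hZ
  have pA := norm_pos_iff.2 hA0
  have hd : Differentiable ℂ g := by
    rw [hg]
    have h1 : Differentiable ℂ fun t : ℂ => A + t • Z := by fun_prop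
    have h2 : Differentiable ℂ fun t : ℂ => NormedSpace.exp (A + t • Z) :=
      ((exp_contDiffC (N := N)).differentiable (by simp)).comp h1
    exact h2.fun_sub (P5_diff.comp h1)
  have h1 := Complex.norm_deriv_le_of_forall_mem_sphere_norm_le (c := 0)
    (C := c * (2 * ‖A‖) ^ 6) (R := ‖A‖ / ‖Z‖) (by positivity)
    (hd.diffContOnCl (s := ball 0 (‖A‖ / ‖Z‖))) (fun t ht => by
      rw [mem_sphere_zero_iff_norm] at ht
      have h2 : ‖A + t • Z‖ ≤ 2 * ‖A‖ := by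
        refine (norm_add_le _ _).trans ?_
        rw [norm_smul, ht, div_mul_cancel₀ _ pZ.ne']
        linarith
      refine (hbd t (by linarith)).trans ?_
      gcongr)
  rw [hder.deriv] at h1
  refine h1.trans (le_of_eq ?_)
  field_simp

lemma norm_L1 (A Z : Mat N) : ‖L1 A Z‖ ≤ 2 * (‖A‖ * ‖Z‖) := by
  unfold L1
  refine (norm_add_le _ _).trans ?_
  have h1 := norm_mul_le Z A
  have h2 := norm_mul_le A Z
  linarith

lemma norm_A2 (A : Mat N) : ‖A * A‖ ≤ ‖A‖ ^ 2 := by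
  calc ‖A * A‖ ≤ ‖A‖ * ‖A‖ := norm_mul_le A A
    _ = ‖A‖ ^ 2 := by ring

lemma norm_A3 (A : Mat N) : ‖A * (A * A)‖ ≤ ‖A‖ ^ 3 := by
  refine (norm_mul_le _ _).trans ?_
  have h1 := norm_A2 A
  have h0 := norm_nonneg A
  calc ‖A‖ * ‖A * A‖ ≤ ‖A‖ * ‖A‖ ^ 2 := mul_le_mul_of_nonneg_left h1 h0
    _ = _ := by ring

lemma norm_A4 (A : Mat N) : ‖A * (A * (A * A))‖ ≤ ‖A‖ ^ 4 := by
  refine (norm_mul_le _ _).trans ?_
  have h1 := norm_A3 A
  have h0 := norm_nonneg A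
  calc ‖A‖ * ‖A * (A * A)‖ ≤ ‖A‖ * ‖A‖ ^ 3 := mul_le_mul_of_nonneg_left h1 h0
    _ = _ := by ring

lemma norm_L2 (A Z : Mat N) : ‖L2 A Z‖ ≤ 3 * (‖A‖ ^ 2 * ‖Z‖) := by
  unfold L2
  refine (norm_add_le _ _).trans ?_
  have h1 := (norm_mul_le Z (A * A)).trans (mul_le_mul_of_nonneg_left (norm_A2 A) (norm_nonneg Z))
  have h2 := (norm_mul_le A (L1 A Z)).trans
    (mul_le_mul_of_nonneg_left (norm_L1 A Z) (norm_nonneg A))
  calc _ ≤ ‖Z‖ * ‖A‖ ^ 2 + ‖A‖ * (2 * (‖A‖ * ‖Z‖)) := add_le_add h1 h2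
    _ = _ := by ring

lemma norm_L3 (A Z : Mat N) : ‖L3 A Z‖ ≤ 4 * (‖A‖ ^ 3 * ‖Z‖) := by
  unfold L3
  refine (norm_add_le _ _).trans ?_
  have h1 := (norm_mul_le Z (A * (A * A))).trans
    (mul_le_mul_of_nonneg_left (norm_A3 A) (norm_nonneg Z))
  have h2 := (norm_mul_le A (L2 A Z)).trans
    (mul_le_mul_of_nonneg_left (norm_L2 A Z) (norm_nonneg A))
  calc _ ≤ ‖Z‖ * ‖A‖ ^ 3 + ‖A‖ * (3 * (‖A‖ ^ 2 * ‖Z‖)) := add_le_add h1 h2
    _ = _ := by ring

lemma norm_L4 (A Z : Mat N) : ‖L4 A Z‖ ≤ 5 * (‖A‖ ^ 4 * ‖Z‖) := by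
  unfold L4
  refine (norm_add_le _ _).trans ?_
  have h1 := (norm_mul_le Z (A * (A * (A * A)))).trans
    (mul_le_mul_of_nonneg_left (norm_A4 A) (norm_nonneg Z))
  have h2 := (norm_mul_le A (L3 A Z)).trans
    (mul_le_mul_of_nonneg_left (norm_L3 A Z) (norm_nonneg A))
  calc _ ≤ ‖Z‖ * ‖A‖ ^ 4 + ‖A‖ * (4 * (‖A‖ ^ 3 * ‖Z‖)) := add_le_add h1 h2
    _ = _ := by ring

lemma norm_sm {c : ℂ} {k : ℝ} (hc : ‖c‖ = k) {M : Mat N} {b : ℝ} (hM : ‖M‖ ≤ b) :
    ‖c • M‖ ≤ k * b := by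
  rw [norm_smul, hc]
  exact mul_le_mul_of_nonneg_left hM (hc ▸ norm_nonneg c)

/-- the error of the algebra -/
lemma alg_bd (A Z : Mat N) (hA : ‖A‖ ≤ 1) : ‖Q4 A * Lp A Z - Ph A Z‖ ≤ 2 * ‖A‖ ^ 5 * ‖Z‖ := by
  rw [alg0]
  have n2 : ‖(1 / 2 : ℂ)‖ = 1 / 2 := by norm_num
  have n6 : ‖(1 / 6 : ℂ)‖ = 1 / 6 := by norm_num
  have n6' : ‖(-(1 / 6) : ℂ)‖ = 1 / 6 := by norm_num
  have n24 : ‖(1 / 24 : ℂ)‖ = 1 / 24 := by norm_num
  have n120 : ‖(1 / 120 : ℂ)‖ = 1 / 120 := by norm_num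
  obtain ⟨a, ha⟩ : ∃ a, a = ‖A‖ := ⟨_, rfl⟩
  obtain ⟨z, hz⟩ : ∃ z, z = ‖Z‖ := ⟨_, rfl⟩
  have ha0 : 0 ≤ a := by rw [ha]; exact norm_nonneg _
  have hz0 : 0 ≤ z := by rw [hz]; exact norm_nonneg _
  have l1 := norm_sm n2 (norm_L1 A Z)
  have l2 := norm_sm n6 (norm_L2 A Z)
  have l3 := norm_sm n24 (norm_L3 A Z)
  have l4 := norm_sm n120 (norm_L4 A Z)
  have q2 := norm_sm n2 (norm_A2 A)
  have q3 := norm_sm n6' (norm_A3 A)
  have q4 := norm_sm n24 (norm_A4 A)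
  rw [← ha, ← hz] at l1 l2 l3 l4
  rw [← ha] at q2 q3 q4 hA ⊢
  rw [← hz]
  have p : ∀ j : ℕ, a ^ (5 + j) ≤ a ^ 5 := fun j => pow_le_pow_of_le_one ha0 hA (by omega)
  have s34 := (norm_add_le ((1 / 24 : ℂ) • L3 A Z) ((1 / 120 : ℂ) • L4 A Z)).trans
    (add_le_add l3 l4)
  have s234 := (norm_add_le ((1 / 6 : ℂ) • L2 A Z + (1 / 24 : ℂ) • L3 A Z)
    ((1 / 120 : ℂ) • L4 A Z)).trans (add_le_add ((norm_add_le _ _).trans (add_le_add l2 l3)) l4)
  have s1234 := (norm_add_le ((1 / 2 : ℂ) • L1 A Z + (1 / 6 : ℂ) • L2 A Z +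
    (1 / 24 : ℂ) • L3 A Z) ((1 / 120 : ℂ) • L4 A Z)).trans
    (add_le_add ((norm_add_le _ _).trans (add_le_add ((norm_add_le _ _).trans
      (add_le_add l1 l2)) l3)) l4)
  have m1 : ‖(-A) * ((1 / 120 : ℂ) • L4 A Z)‖ ≤ a * (1 / 120 * (5 * (a ^ 4 * z))) := by
    refine (norm_mul_le _ _).trans ?_
    rw [norm_neg, ← ha]
    gcongr
  have m2 := (norm_mul_le ((1 / 2 : ℂ) • (A * A))
    ((1 / 24 : ℂ) • L3 A Z + (1 / 120 : ℂ) • L4 A Z)).trans
    (mul_le_mul q2 s34 (norm_nonneg _) (by positivity))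
  have m3 := (norm_mul_le ((-(1 / 6) : ℂ) • (A * (A * A)))
    ((1 / 6 : ℂ) • L2 A Z + (1 / 24 : ℂ) • L3 A Z + (1 / 120 : ℂ) • L4 A Z)).trans
    (mul_le_mul q3 s234 (norm_nonneg _) (by positivity))
  have m4 := (norm_mul_le ((1 / 24 : ℂ) • (A * (A * (A * A))))
    ((1 / 2 : ℂ) • L1 A Z + (1 / 6 : ℂ) • L2 A Z + (1 / 24 : ℂ) • L3 A Z +
      (1 / 120 : ℂ) • L4 A Z)).trans (mul_le_mul q4 s1234 (norm_nonneg _) (by positivity))
  refine (norm_add_le _ _).trans ((add_le_add ((norm_add_le _ _).trans (add_le_add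
    ((norm_add_le _ _).trans (add_le_add m1 m2)) m3)) m4).trans ?_)
  have p1 := mul_le_mul_of_nonneg_right (p 1) hz0
  have p2 := mul_le_mul_of_nonneg_right (p 2) hz0
  have p3 := mul_le_mul_of_nonneg_right (p 3) hz0
  have p0 : 0 ≤ a ^ 5 * z := by positivity
  ring_nf at p1 p2 p3 p0 ⊢
  linarith

/-- **the left logarithmic derivative of the exponential** up to order five -/
theorem logder (N : ℕ) : ∃ ρ c : ℝ, 0 < ρ ∧ 0 ≤ c ∧ ∀ A Z : Mat N, ‖A‖ < ρ →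
    ‖NormedSpace.exp (-A) * fderiv ℂ (NormedSpace.exp : Mat N → Mat N) A Z - Ph A Z‖ ≤
      c * ‖A‖ ^ 5 * ‖Z‖ := by
  obtain ⟨ρ₁, c₁, hρ₁, hc₁, h1⟩ := fderiv_exp N
  obtain ⟨c₂, hc₂, hO⟩ := (exp5 N).exists_nonneg
  obtain ⟨ρ₂, hρ₂, h2⟩ := Metric.eventually_nhds_iff.1 hO.bound
  obtain ⟨q, hq⟩ : ∃ q : ℝ, q = ‖(1 : Mat N)‖ + 2 := ⟨_, rfl⟩
  have hq0 : 0 ≤ q := by rw [hq]; positivity
  refine ⟨min (min ρ₁ ρ₂) 1, 2 + 4 * c₂ + (q + c₂) * c₁, by positivity, by positivity,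
    fun A Z hA => ?_⟩
  have hA1 : ‖A‖ < ρ₁ := hA.trans_le ((min_le_left _ _).trans (min_le_left _ _))
  have hA2 : ‖A‖ < ρ₂ := hA.trans_le ((min_le_left _ _).trans (min_le_right _ _))
  have hA3 : ‖A‖ ≤ 1 := (hA.trans_le (min_le_right _ _)).le
  have g1 := h1 A Z hA1
  have g2 := h2 (y := A) (by rwa [dist_zero_right])
  rw [norm_pow, norm_norm] at g2
  have g3 := alg_bd A Z hA3
  have ha0 := norm_nonneg A
  have hz0 := norm_nonneg Z
  have n2 : ‖(1 / 2 : ℂ)‖ = 1 / 2 := by norm_num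
  have n6 : ‖(1 / 6 : ℂ)‖ = 1 / 6 := by norm_num
  have n6' : ‖(-(1 / 6) : ℂ)‖ = 1 / 6 := by norm_num
  have n24 : ‖(1 / 24 : ℂ)‖ = 1 / 24 := by norm_num
  have n120 : ‖(1 / 120 : ℂ)‖ = 1 / 120 := by norm_num
  have p : ∀ j : ℕ, ‖A‖ ^ j ≤ 1 := fun j => pow_le_one₀ ha0 hA3
  have hL : ‖Lp A Z‖ ≤ 4 * ‖Z‖ := by
    have l1 := norm_sm n2 (norm_L1 A Z)
    have l2 := norm_sm n6 (norm_L2 A Z)
    have l3 := norm_sm n24 (norm_L3 A Z)
    have l4 := norm_sm n120 (norm_L4 A Z)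
    unfold Lp
    refine (norm_add_le _ _).trans ((add_le_add ((norm_add_le _ _).trans (add_le_add
      ((norm_add_le _ _).trans (add_le_add ((norm_add_le _ _).trans (add_le_add le_rfl l1)) l2))
      l3)) l4).trans ?_)
    have p1 := mul_le_mul_of_nonneg_right (p 1) hz0
    have p2 := mul_le_mul_of_nonneg_right (p 2) hz0
    have p3 := mul_le_mul_of_nonneg_right (p 3) hz0
    have p4 := mul_le_mul_of_nonneg_right (p 4) hz0
    rw [pow_one] at p1
    linarith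
  have hQ : ‖Q4 A‖ ≤ q := by
    have q2 := norm_sm n2 (norm_A2 A)
    have q3 := norm_sm n6' (norm_A3 A)
    have q4 := norm_sm n24 (norm_A4 A)
    unfold Q4
    refine (norm_add_le _ _).trans ((add_le_add ((norm_add_le _ _).trans (add_le_add
      ((norm_add_le _ _).trans (add_le_add ((norm_add_le _ _).trans (add_le_add le_rfl
        (norm_neg A).le)) q2)) q3)) q4).trans ?_)
    have p2 := p 2
    have p3 := p 3
    have p4 := p 4
    rw [hq]
    linarith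
  have p5 := p 5
  have hE : ‖NormedSpace.exp (-A)‖ ≤ q + c₂ := by
    have e : NormedSpace.exp (-A) = Q4 A + (NormedSpace.exp (-A) - Q4 A) := by abel
    rw [e]
    refine (norm_add_le _ _).trans (add_le_add hQ (g2.trans ?_))
    calc c₂ * ‖A‖ ^ 5 ≤ c₂ * 1 := mul_le_mul_of_nonneg_left p5 hc₂
      _ = c₂ := mul_one _
  have e : NormedSpace.exp (-A) * fderiv ℂ (NormedSpace.exp : Mat N → Mat N) A Z - Ph A Z =
      (Q4 A * Lp A Z - Ph A Z) + (NormedSpace.exp (-A) - Q4 A) * Lp A Z +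
      NormedSpace.exp (-A) * (fderiv ℂ (NormedSpace.exp : Mat N → Mat N) A Z - Lp A Z) := by
    rw [sub_mul, mul_sub]
    abel
  rw [e]
  refine (norm_add_le _ _).trans ((add_le_add ((norm_add_le _ _).trans (add_le_add g3
    ((norm_mul_le _ _).trans (mul_le_mul g2 hL (norm_nonneg _) (by positivity)))))
    ((norm_mul_le _ _).trans (mul_le_mul hE g1 (norm_nonneg _) (by positivity)))).trans
    (le_of_eq ?_))
  ring

end

end Pool.Agent.N988.MK.B6
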