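import Mathlib
import Pool.Agent.N989.MK.Def6
import Pool.Agent.N989.MK.Bch6a
import Pool.Agent.N991.MK.TwoA

/-!
# The bound of the second coefficient
-/

open MeasureTheory Filter Metric Asymptotics Matrix
open scoped Matrix.Norms.Frobenius Topology ContDiff
open Pool.Agent.H906R3.YM Pool.Agent.W793.YM Pool.Agent.TH618.YM Pool.Agent.N984.TW
open Pool.Agent.N991.MK

namespace Pool.Agent.N988.MK.B6

set_option linter.unusedSectionVars false
set_option linter.unusedSimpArgs false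

noncomputable section

section Alg

variable {N : ℕ}

/-- the truncated inverse series -/
def Ps (A Z : Mat N) : Mat N := Z + (1 / 2 : ℂ) • br A Z + (1 / 12 : ℂ) • br A (br A Z) -
  (1 / 720 : ℂ) • br A (br A (br A (br A Z)))

lemma br_add (A Z Z' : Mat N) : br A (Z + Z') = br A Z + br A Z' := by
  unfold br
  simp only [mul_add, add_mul]
  abel

lemma br_sub (A Z Z' : Mat N) : br A (Z - Z') = br A Z - br A Z' := by
  unfold br
  simp only [mul_sub, sub_mul]
  abel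

lemma br_smul (c : ℂ) (A Z : Mat N) : br A (c • Z) = c • br A Z := by
  unfold br
  simp only [mul_smul_comm, smul_mul_assoc, smul_sub]

lemma Ps_sub (A Z Z' : Mat N) : Ps A (Z - Z') = Ps A Z - Ps A Z' := by
  unfold Ps
  simp only [br_sub]
  module

/-- the product of the two truncated series -/
lemma Ps_Ph (A Z : Mat N) : Ps A (Ph A Z) = Z +
    (1 / 720 : ℂ) • br A (br A (br A (br A (br A Z)))) +
    (1 / 2160 : ℂ) • br A (br A (br A (br A (br A (br A Z))))) +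
    (1 / 17280 : ℂ) • br A (br A (br A (br A (br A (br A (br A Z)))))) -
    (1 / 86400 : ℂ) • br A (br A (br A (br A (br A (br A (br A (br A Z))))))) := by
  unfold Ps Ph
  simp only [br_sub, br_add, br_smul]
  module

lemma norm_br (A Z : Mat N) : ‖br A Z‖ ≤ 2 * (‖A‖ * ‖Z‖) := by
  unfold br
  refine (norm_sub_le _ _).trans ?_
  have h1 := norm_mul_le A Z
  have h2 := norm_mul_le Z A
  linarith

lemma tr_br (A Z W : Mat N) : trace (br A Z * W) = -trace (Z * br A W) := by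
  unfold br
  simp only [mul_sub, sub_mul, trace_sub, mul_assoc]
  rw [cyc3 A Z W]
  ring

lemma tr_Ps (A Z : Mat N) : trace (Ps A Z * Z) = trace (Z * Z) -
    1 / 12 * trace (br A Z * br A Z) - 1 / 720 * trace (br A (br A Z) * br A (br A Z)) := by
  have h1 : trace (br A Z * Z) = 0 := by
    have h := tr_br A Z Z
    have h2 := trace_mul_comm Z (br A Z)
    rw [h2] at h
    have h3 : 2 * trace (br A Z * Z) = 0 := by linear_combination h
    simpa using h3
  have h2 : trace (br A (br A Z) * Z) = -trace (br A Z * br A Z) := tr_br _ _ _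
  have h3 : trace (br A (br A (br A (br A Z))) * Z) = trace (br A (br A Z) * br A (br A Z)) := by
    rw [tr_br, tr_br, neg_neg]
  unfold Ps
  simp only [add_mul, sub_mul, smul_mul_assoc, trace_add, trace_sub, trace_smul, smul_eq_mul]
  rw [h1, h2, h3]
  ring

lemma norm_br2 (A Z : Mat N) : ‖br A (br A Z)‖ ≤ 4 * (‖A‖ ^ 2 * ‖Z‖) := by
  refine (norm_br A _).trans ?_
  have h1 := mul_le_mul_of_nonneg_left (norm_br A Z) (norm_nonneg A)
  linarith

lemma norm_br3 (A Z : Mat N) : ‖br A (br A (br A Z))‖ ≤ 8 * (‖A‖ ^ 3 * ‖Z‖) := by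
  refine (norm_br A _).trans ?_
  have h1 := mul_le_mul_of_nonneg_left (norm_br2 A Z) (norm_nonneg A)
  linarith

lemma norm_br4 (A Z : Mat N) : ‖br A (br A (br A (br A Z)))‖ ≤ 16 * (‖A‖ ^ 4 * ‖Z‖) := by
  refine (norm_br A _).trans ?_
  have h1 := mul_le_mul_of_nonneg_left (norm_br3 A Z) (norm_nonneg A)
  linarith

lemma norm_br5 (A Z : Mat N) : ‖br A (br A (br A (br A (br A Z))))‖ ≤ 32 * (‖A‖ ^ 5 * ‖Z‖) := by
  refine (norm_br A _).trans ?_
  have h1 := mul_le_mul_of_nonneg_left (norm_br4 A Z) (norm_nonneg A)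
  linarith

lemma norm_br6 (A Z : Mat N) : ‖br A (br A (br A (br A (br A (br A Z)))))‖ ≤
    64 * (‖A‖ ^ 6 * ‖Z‖) := by
  refine (norm_br A _).trans ?_
  have h1 := mul_le_mul_of_nonneg_left (norm_br5 A Z) (norm_nonneg A)
  linarith

lemma norm_br7 (A Z : Mat N) : ‖br A (br A (br A (br A (br A (br A (br A Z))))))‖ ≤
    128 * (‖A‖ ^ 7 * ‖Z‖) := by
  refine (norm_br A _).trans ?_
  have h1 := mul_le_mul_of_nonneg_left (norm_br6 A Z) (norm_nonneg A)
  linarith

lemma norm_br8 (A Z : Mat N) : ‖br A (br A (br A (br A (br A (br A (br A (br A Z)))))))‖ ≤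
    256 * (‖A‖ ^ 8 * ‖Z‖) := by
  refine (norm_br A _).trans ?_
  have h1 := mul_le_mul_of_nonneg_left (norm_br7 A Z) (norm_nonneg A)
  linarith

/-- the inversion of the logarithmic derivative -/
theorem inv_logder (N : ℕ) : ∃ ρ c : ℝ, 0 < ρ ∧ 0 ≤ c ∧ ∀ A V Y : Mat N, ‖A‖ < ρ →
    NormedSpace.exp (-A) * Dx A V = Y → ‖V - Ps A Y‖ ≤ c * ‖A‖ ^ 5 * ‖Y‖ := by
  obtain ⟨ρ₁, c₁, hρ₁, hc₁, h1⟩ := logder N
  refine ⟨min ρ₁ (1 / (2 * (3 + c₁))), 2 * (1 + 3 * c₁), by positivity, by positivity,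
    fun A V Y hA hY => ?_⟩
  have hA1 : ‖A‖ < ρ₁ := hA.trans_le (min_le_left _ _)
  have hA2 : ‖A‖ < 1 / (2 * (3 + c₁)) := hA.trans_le (min_le_right _ _)
  have hA3 : (3 + c₁) * ‖A‖ ≤ 1 / 2 := by
    have := mul_le_mul_of_nonneg_left hA2.le (by positivity : 0 ≤ 3 + c₁)
    refine this.trans (le_of_eq ?_)
    field_simp
  have hA4 : ‖A‖ ≤ 1 := by nlinarith [norm_nonneg A]
  have g := h1 A V hA1
  obtain ⟨D, hD⟩ : ∃ D, D = Y - Ph A V := ⟨_, rfl⟩
  have gD : ‖D‖ ≤ c₁ * ‖A‖ ^ 5 * ‖V‖ := by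
    rw [hD, ← hY]
    exact g
  have n2 : ‖(1 / 2 : ℂ)‖ = 1 / 2 := by norm_num
  have n6 : ‖(1 / 6 : ℂ)‖ = 1 / 6 := by norm_num
  have n12 : ‖(1 / 12 : ℂ)‖ = 1 / 12 := by norm_num
  have n24 : ‖(1 / 24 : ℂ)‖ = 1 / 24 := by norm_num
  have n120 : ‖(1 / 120 : ℂ)‖ = 1 / 120 := by norm_num
  have n720 : ‖(1 / 720 : ℂ)‖ = 1 / 720 := by norm_num
  have n2160 : ‖(1 / 2160 : ℂ)‖ = 1 / 2160 := by norm_num
  have n17280 : ‖(1 / 17280 : ℂ)‖ = 1 / 17280 := by norm_num
  have n86400 : ‖(1 / 86400 : ℂ)‖ = 1 / 86400 := by norm_num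
  have b1 := norm_sm n2 (norm_br A V)
  have b2 := norm_sm n6 (norm_br2 A V)
  have b3 := norm_sm n24 (norm_br3 A V)
  have b4 := norm_sm n120 (norm_br4 A V)
  have c1 := norm_sm n2 (norm_br A D)
  have c2 := norm_sm n12 (norm_br2 A D)
  have c4 := norm_sm n720 (norm_br4 A D)
  have d5 := norm_sm n720 (norm_br5 A V)
  have d6 := norm_sm n2160 (norm_br6 A V)
  have d7 := norm_sm n17280 (norm_br7 A V)
  have d8 := norm_sm n86400 (norm_br8 A V)
  obtain ⟨a, ha⟩ : ∃ a, a = ‖A‖ := ⟨_, rfl⟩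
  obtain ⟨v, hv⟩ : ∃ v, v = ‖V‖ := ⟨_, rfl⟩
  obtain ⟨d, hd⟩ : ∃ d, d = ‖D‖ := ⟨_, rfl⟩
  have ha0 : 0 ≤ a := by rw [ha]; exact norm_nonneg _
  have hv0 : 0 ≤ v := by rw [hv]; exact norm_nonneg _
  have hd0 : 0 ≤ d := by rw [hd]; exact norm_nonneg _
  rw [← ha, ← hv] at b1 b2 b3 b4 d5 d6 d7 d8 gD
  rw [← ha, ← hd] at c1 c2 c4
  rw [← hd] at gD
  rw [← ha] at hA3 hA4
  have p1 : ∀ j : ℕ, a ^ (1 + j) * v ≤ a * v := fun j => by
    have := pow_le_pow_of_le_one ha0 hA4 (show 1 ≤ 1 + j by omega)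
    rw [pow_one] at this
    exact mul_le_mul_of_nonneg_right this hv0
  have p5 : ∀ j : ℕ, a ^ (5 + j) * v ≤ a ^ 5 * v := fun j =>
    mul_le_mul_of_nonneg_right (pow_le_pow_of_le_one ha0 hA4 (by omega)) hv0
  have q : ∀ j : ℕ, a ^ j * d ≤ d := fun j => by
    have := mul_le_mul_of_nonneg_right (pow_le_one₀ (n := j) ha0 hA4) hd0
    linarith
  -- the norm of `V`
  have hV : v ≤ 2 * ‖Y‖ := by
    have e : V = Y - D + ((1 / 2 : ℂ) • br A V - (1 / 6 : ℂ) • br A (br A V) +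
        (1 / 24 : ℂ) • br A (br A (br A V)) - (1 / 120 : ℂ) • br A (br A (br A (br A V)))) := by
      rw [hD]
      unfold Ph
      abel
    have h2 : v ≤ ‖Y‖ + d + (1 / 2 * (2 * (a * v)) + 1 / 6 * (4 * (a ^ 2 * v)) +
        1 / 24 * (8 * (a ^ 3 * v)) + 1 / 120 * (16 * (a ^ 4 * v))) := by
      rw [hv, hd]
      nth_rewrite 1 [e]
      refine (norm_add_le _ _).trans (add_le_add (norm_sub_le _ _) ?_)
      rw [← hv]
      exact (norm_sub_le _ _).trans (add_le_add ((norm_add_le _ _).trans (add_le_add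
        ((norm_sub_le _ _).trans (add_le_add b1 b2)) b3)) b4)
    have r1 := p1 1
    have r2 := p1 2
    have r3 := p1 3
    have r4 := mul_le_mul_of_nonneg_left (p1 4) hc₁
    norm_num at r1 r2 r3 r4
    have h3 : c₁ * a ^ 5 * v ≤ c₁ * (a * v) := by rw [mul_assoc]; exact r4
    have h4 : (3 + c₁) * a * v ≤ 1 / 2 * v := mul_le_mul_of_nonneg_right hA3 hv0
    nlinarith [mul_nonneg ha0 hv0]
  -- the remainder
  have e : V - Ps A Y = -((1 / 720 : ℂ) • br A (br A (br A (br A (br A V)))) +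
    (1 / 2160 : ℂ) • br A (br A (br A (br A (br A (br A V))))) +
    (1 / 17280 : ℂ) • br A (br A (br A (br A (br A (br A (br A V)))))) -
    (1 / 86400 : ℂ) • br A (br A (br A (br A (br A (br A (br A (br A V)))))))) -
    (D + (1 / 2 : ℂ) • br A D + (1 / 12 : ℂ) • br A (br A D) -
      (1 / 720 : ℂ) • br A (br A (br A (br A D)))) := by
    have e1 : Ps A Y = Ps A (Ph A V) + Ps A D := by
      rw [hD, Ps_sub]
      abel
    rw [e1, Ps_Ph]
    unfold Ps
    abel
  have h2 : ‖V - Ps A Y‖ ≤ (1 / 720 * (32 * (a ^ 5 * v)) + 1 / 2160 * (64 * (a ^ 6 * v)) +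
      1 / 17280 * (128 * (a ^ 7 * v)) + 1 / 86400 * (256 * (a ^ 8 * v))) +
      (d + 1 / 2 * (2 * (a * d)) + 1 / 12 * (4 * (a ^ 2 * d)) +
        1 / 720 * (16 * (a ^ 4 * d))) := by
    rw [e]
    refine (norm_sub_le _ _).trans (add_le_add ?_ ?_)
    · rw [norm_neg]
      exact (norm_sub_le _ _).trans (add_le_add ((norm_add_le _ _).trans (add_le_add
        ((norm_add_le _ _).trans (add_le_add d5 d6)) d7)) d8)
    · exact (norm_sub_le _ _).trans (add_le_add ((norm_add_le _ _).trans (add_le_add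
        ((norm_add_le _ _).trans (add_le_add hd.symm.le c1)) c2)) c4)
  have s1 := p5 1
  have s2 := p5 2
  have s3 := p5 3
  have t1 := q 1
  have t2 := q 2
  have t4 := q 4
  norm_num at s1 s2 s3 t1
  have h3 : ‖V - Ps A Y‖ ≤ (1 + 3 * c₁) * (a ^ 5 * v) := by
    have := mul_nonneg (pow_nonneg ha0 5) hv0
    nlinarith
  refine h3.trans ?_
  rw [← ha]
  have h4 := mul_le_mul_of_nonneg_left hV (by positivity : 0 ≤ (1 + 3 * c₁) * a ^ 5)
  refine le_trans (le_of_eq ?_) (h4.trans (le_of_eq ?_)) <;> ring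

end Alg

variable {N n : ℕ} {G : Subgroup (UN N)} {B : Frame G n}
variable {r₀ C : ℝ} {b : (Fin n → ℂ) → (Fin n → ℂ) → (Fin n → ℂ)}

/-- the curve of the logarithm of the product -/
lemma curve (h : BC B r₀ C b) {x y : Fin n → ℂ} (hx : nC x ≤ r₀) {t : ℂ}
    (ht : nC (t • y) < r₀) :
    ∃ V : Mat N, HasDerivAt (fun t : ℂ => LC B (b x (t • y))) V t ∧
      NormedSpace.exp (-LC B (b x (t • y))) * Dx (LC B (b x (t • y))) V = LC B y := by
  have hd : DifferentiableAt ℂ (fun t : ℂ => LC B (b x (t • y))) t := by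
    have c1 : DifferentiableAt ℂ (fun t : ℂ => ((x, t • y) : (Fin n → ℂ) × (Fin n → ℂ))) t := by
      fun_prop
    have d1 := DifferentiableAt.comp (f := fun t : ℂ => ((x, t • y) : (Fin n → ℂ) × (Fin n → ℂ)))
      (g := fun p : (Fin n → ℂ) × (Fin n → ℂ) => b p.1 p.2) t
      (h.diff x (t • y) hx ht.le) c1
    have d2 := (LCl B).differentiable.differentiableAt (x := b x (t • y))
    exact DifferentiableAt.comp (f := fun t : ℂ => b x (t • y)) (g := fun v => LCl B v) t d2 d1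
  obtain ⟨V, hV⟩ : ∃ V, V = deriv (fun t : ℂ => LC B (b x (t • y))) t := ⟨_, rfl⟩
  have hBd : HasDerivAt (fun t : ℂ => LC B (b x (t • y))) V t := by rw [hV]; exact hd.hasDerivAt
  refine ⟨V, hBd, ?_⟩
  have h1 : HasDerivAt (fun t => NormedSpace.exp (LC B (b x (t • y))))
      (Dx (LC B (b x (t • y))) V) t := (Dx_has _).comp_hasDerivAt t hBd
  have h3 : HasDerivAt (fun t : ℂ => NormedSpace.exp (LC B x) * NormedSpace.exp (t • LC B y))
      (NormedSpace.exp (LC B x) * (NormedSpace.exp (t • LC B y) * LC B y)) t :=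
    (hasDerivAt_exp_smul_const (𝕂 := ℂ) (LC B y) t).const_mul _
  have h4 : (fun t : ℂ => NormedSpace.exp (LC B (b x (t • y)))) =ᶠ[𝓝 t]
      fun t : ℂ => NormedSpace.exp (LC B x) * NormedSpace.exp (t • LC B y) := by
    have hc : Continuous fun t : ℂ => nC (t • y) := nC_cont.comp (by fun_prop)
    filter_upwards [hc.continuousAt.eventually (gt_mem_nhds ht)] with ζ hζ
    have h5 := h.mul x (ζ • y) hx hζ.le
    rw [← LC_smul]
    exact h5
  have h5 := (h1.congr_of_eventuallyEq h4.symm).unique h3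
  have h6 : NormedSpace.exp (LC B x) * NormedSpace.exp (t • LC B y) =
      NormedSpace.exp (LC B (b x (t • y))) := by
    have := h.mul x (t • y) hx ht.le
    rw [← LC_smul]
    exact this.symm
  rw [h5, ← mul_assoc (NormedSpace.exp (LC B x)), h6, ← mul_assoc,
    ← Matrix.exp_add_of_commute _ _ (Commute.neg_left (Commute.refl (LC B (b x (t • y))))),
    neg_add_cancel, NormedSpace.exp_zero, one_mul]

/-- the derivative of the quadratic form of the product -/
lemma curve_q (h : BC B r₀ C b) {x y : Fin n → ℂ} (hx : nC x ≤ r₀) {t : ℂ}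
    (ht : nC (t • y) < r₀) :
    HasDerivAt (fun t : ℂ => qC (b x (t • y))) (-2 * trace (LC B (b x (t • y)) * LC B y)) t := by
  obtain ⟨V, hV, hE⟩ := curve h hx ht
  have h8 : (fun t : ℂ => qC (b x (t • y))) =
      fun t : ℂ => -trace (LC B (b x (t • y)) * LC B (b x (t • y))) := by
    funext t
    rw [qC_eq B]
  rw [h8]
  have h9 := hV.fun_mul hV
  have h10 := ((trC N).hasFDerivAt.comp_hasDerivAt t h9).neg
  refine h10.congr_deriv ?_
  have h6 := tr_dexp (C := LC B (b x (t • y))) (W := LC B (b x (t • y))) (Commute.refl _) V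
  rw [hE] at h6
  rw [h6]
  show -trace (V * LC B (b x (t • y)) + LC B (b x (t • y)) * V) = _
  rw [trace_add, trace_mul_comm V]
  ring

lemma brC_smul_right (x y : Fin n → ℂ) (t : ℂ) : brC B x (t • y) = t ^ 2 * brC B x y := by
  have := brC_smul (B := B) x y 1 t
  rw [one_smul, one_pow, one_mul] at this
  exact this

lemma brC2_eq (x y : Fin n → ℂ) : brC2 B x y = -trace (br (LC B x) (br (LC B x) (LC B y)) *
    br (LC B x) (br (LC B x) (LC B y))) := rfl

lemma brC2_smul_right (x y : Fin n → ℂ) (t : ℂ) : brC2 B x (t • y) = t ^ 2 * brC2 B x y := by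
  rw [brC2_eq, brC2_eq, LC_smul]
  simp only [br_smul, smul_mul_assoc, mul_smul_comm, smul_smul, trace_smul, smul_eq_mul]
  ring

lemma brC2_smul_left (x y : Fin n → ℂ) (t : ℂ) : brC2 B (t • y) x = t ^ 4 * brC2 B y x := by
  rw [brC2_eq, brC2_eq, LC_smul]
  have e : ∀ Z : Mat N, br (t • LC B y) Z = t • br (LC B y) Z := by
    intro Z
    unfold br
    simp only [mul_smul_comm, smul_mul_assoc, smul_sub]
  simp only [e, br_smul, smul_mul_assoc, mul_smul_comm, smul_smul, trace_smul, smul_eq_mul]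
  ring

/-- a holomorphic function of order four has a vanishing second derivative -/
lemma snd_zero {u v : ℂ → ℂ} {κ K ε : ℝ} {κ' : ℂ} (hε : 0 < ε)
    (hu : ∀ t : ℂ, ‖t‖ < ε → HasDerivAt u (v t) t) (hv : HasDerivAt v κ' 0)
    (hb : ∀ᶠ t in 𝓝 (0 : ℂ), ‖u t‖ ≤ K * ‖t‖ ^ 4) : κ' = 0 := by
  have h1 : deriv u =ᶠ[𝓝 0] v := by
    filter_upwards [ball_mem_nhds (0 : ℂ) hε] with t ht
    exact (hu t (mem_ball_zero_iff.1 ht)).deriv
  have h2 : iteratedDeriv 2 u 0 = κ' := by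
    rw [iteratedDeriv_succ, iteratedDeriv_one]
    rw [h1.deriv_eq]
    exact hv.deriv
  obtain ⟨δ, hδ, hb'⟩ := Metric.eventually_nhds_iff.1 hb
  have hK : ∀ r : ℝ, 0 < r → r < min ε δ → ‖κ'‖ ≤ 2 * |K| * r ^ 2 := by
    intro r hr hr2
    have hr3 : r < ε := hr2.trans_le (min_le_left _ _)
    have hr4 : r < δ := hr2.trans_le (min_le_right _ _)
    have hd : DiffContOnCl ℂ u (ball 0 r) := by
      refine DifferentiableOn.diffContOnCl ?_
      rw [closure_ball _ hr.ne']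
      intro t ht
      rw [mem_closedBall_zero_iff] at ht
      exact (hu t (ht.trans_lt hr3)).differentiableAt.differentiableWithinAt
    have h3 := Complex.norm_iteratedDeriv_le_of_forall_mem_sphere_norm_le 2 hr hd
      (C := |K| * r ^ 4) (fun t ht => by
        rw [mem_sphere_zero_iff_norm] at ht
        have := hb' (y := t) (by rw [dist_zero_right, ht]; exact hr4)
        rw [ht] at this
        exact this.trans (mul_le_mul_of_nonneg_right (le_abs_self K) (by positivity)))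
    rw [h2] at h3
    refine h3.trans (le_of_eq ?_)
    rw [Nat.factorial_two]
    push_cast
    field_simp
  by_contra hne
  have pκ := norm_pos_iff.2 hne
  have ht : Tendsto (fun r : ℝ => 2 * |K| * r ^ 2) (𝓝[>] 0) (𝓝 0) := by
    have : Tendsto (fun r : ℝ => 2 * |K| * r ^ 2) (𝓝 0) (𝓝 (2 * |K| * 0 ^ 2)) :=
      (Continuous.tendsto (by fun_prop) 0)
    rw [show 2 * |K| * (0 : ℝ) ^ 2 = 0 by ring] at this
    exact this.mono_left nhdsWithin_le_nhds
  have h4 := ht.eventually (gt_mem_nhds pκ)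
  have h5 : ∀ᶠ r : ℝ in 𝓝[>] 0, r < min ε δ :=
    (gt_mem_nhds (lt_min hε hδ)).filter_mono nhdsWithin_le_nhds
  obtain ⟨r, ⟨h6, h7⟩, h8⟩ := ((h4.and h5).and self_mem_nhdsWithin).exists
  have := hK r h8 h7
  linarith

/-- **the bound of the second coefficient** -/
theorem alpha_bound (h : BC B r₀ C b) : ∃ ρ c : ℝ, 0 < ρ ∧ 0 ≤ c ∧ ∀ x y : Fin n → ℂ,
    nC x < ρ → nC y < ρ → ∀ (α : ℂ) (K : ℝ),
      (∀ᶠ t in 𝓝 (0 : ℂ), ‖E6 B b x (t • y) - α * t ^ 2‖ ≤ K * ‖t‖ ^ 4) →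
      ‖α‖ ≤ c * nC x ^ 5 * nC y ^ 2 := by
  obtain ⟨ρ, c, hρ, hc, hV⟩ := inv_logder N
  have hr0 := h.pos
  refine ⟨min ρ r₀, 4 * c, by positivity, by positivity, fun x y hx hy α K hb => ?_⟩
  have hx1 : nC x < ρ := hx.trans_le (min_le_left _ _)
  have hx2 : nC x < r₀ := hx.trans_le (min_le_right _ _)
  have hx3 : nC x ≤ r₀ := hx2.le
  obtain ⟨X, hX⟩ : ∃ X, X = LC B x := ⟨_, rfl⟩
  obtain ⟨Y, hY⟩ : ∃ Y, Y = LC B y := ⟨_, rfl⟩
  -- the radius
  obtain ⟨ε, hε, hεy⟩ : ∃ ε : ℝ, 0 < ε ∧ ∀ t : ℂ, ‖t‖ < ε → nC (t • y) < r₀ := by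
    refine ⟨r₀ / (1 + nC y), div_pos hr0 (by linarith [nC_nonneg y]), fun t ht => ?_⟩
    rw [nC_smul]
    have h0 := nC_nonneg y
    have h1 : 0 < 1 + nC y := by linarith
    rw [lt_div_iff₀ h1] at ht
    nlinarith [norm_nonneg t]
  obtain ⟨Z, hZ⟩ : ∃ Z : ℂ → Mat N, Z = fun t => LC B (b x (t • y)) := ⟨_, rfl⟩
  have h0n : ‖(0 : ℂ)‖ < ε := by rw [norm_zero]; exact hε
  obtain ⟨V, hVd, hVE⟩ := curve h hx3 (hεy 0 h0n)
  rw [← hZ] at hVd
  have hb0 : LC B (b x ((0 : ℂ) • y)) = X := by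
    rw [zero_smul, h.zero_right hx3, hX]
  rw [hb0, ← hY] at hVE
  have hVb := hV X V Y (by rw [hX, norm_LC]; exact hx1) hVE
  -- the first derivative of the error
  obtain ⟨v, hv⟩ : ∃ v : ℂ → ℂ, v = fun t => -2 * trace (Z t * Y) + 2 * trace (Z (-t) * Y) -
      4 * t * qC y + 1 / 3 * t * brC B x y + 1 / 360 * (2 * t * brC2 B x y +
        4 * t ^ 3 * brC2 B y x) - 2 * α * t := ⟨_, rfl⟩
  have hu : ∀ t : ℂ, ‖t‖ < ε → HasDerivAt (fun t : ℂ => E6 B b x (t • y) - α * t ^ 2) (v t) t := by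
    intro t ht
    have g1 := curve_q h hx3 (hεy t ht) (y := y)
    have g2 : HasDerivAt (fun t : ℂ => qC (b x (-(t • y)))) (2 * trace (Z (-t) * Y)) t := by
      have g3 := curve_q h hx3 (hεy (-t) (by rwa [norm_neg])) (y := y)
      have g4 := g3.comp t (hasDerivAt_neg t)
      refine (g4.congr_of_eventuallyEq (Eventually.of_forall fun s => ?_)).congr_deriv ?_
      · simp only [Function.comp, neg_smul]
      · rw [hZ, hY]
        ring
    have e : (fun t : ℂ => E6 B b x (t • y) - α * t ^ 2) = fun t : ℂ =>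
        qC (b x (t • y)) + qC (b x (-(t • y))) - 2 * qC x - 2 * (t ^ 2 * qC y) +
        1 / 6 * (t ^ 2 * brC B x y) + 1 / 360 * (t ^ 2 * brC2 B x y + t ^ 4 * brC2 B y x) -
        α * t ^ 2 := by
      funext t
      unfold E6 Tf
      rw [brC_smul_right, brC2_smul_right, brC2_smul_left, qC_smul]
    rw [e]
    have p2 : HasDerivAt (fun t : ℂ => t ^ 2) (2 * t) t := by
      have := hasDerivAt_pow 2 t
      simpa using this
    have p4 : HasDerivAt (fun t : ℂ => t ^ 4) (4 * t ^ 3) t := by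
      have := hasDerivAt_pow 4 t
      simpa using this
    have g := (((((g1.fun_add g2).sub_const (2 * qC x)).fun_sub
      ((p2.mul_const (qC y)).const_mul 2)).fun_add
      ((p2.mul_const (brC B x y)).const_mul (1 / 6))).fun_add
      (((p2.mul_const (brC2 B x y)).fun_add (p4.mul_const (brC2 B y x))).const_mul
        (1 / 360))).fun_sub (p2.const_mul α)
    refine g.congr_deriv ?_
    rw [hv, hZ, hY]
    ring
  -- the second derivative at zero
  have hv' : HasDerivAt v (-4 * trace (V * Y) - 4 * qC y + 1 / 3 * brC B x y +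
      1 / 180 * brC2 B x y - 2 * α) 0 := by
    have g1 : HasDerivAt (fun t : ℂ => trace (Z t * Y)) (trace (V * Y)) 0 :=
      (trC N).hasFDerivAt.comp_hasDerivAt 0 (hVd.mul_const Y)
    have g2 : HasDerivAt (fun t : ℂ => trace (Z (-t) * Y)) (-trace (V * Y)) 0 := by
      have g3 : HasDerivAt (fun t : ℂ => trace (Z t * Y)) (trace (V * Y)) (-0) := by
        rw [neg_zero]
        exact g1
      have g4 := g3.comp (0 : ℂ) (hasDerivAt_neg (0 : ℂ))
      refine g4.congr_deriv ?_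
      ring
    have p1 : HasDerivAt (fun t : ℂ => t) 1 0 := hasDerivAt_id (0 : ℂ)
    have p3 : HasDerivAt (fun t : ℂ => t ^ 3) 0 0 := by
      have := hasDerivAt_pow 3 (0 : ℂ)
      simpa using this
    have g := (((((g1.const_mul (-2)).fun_add (g2.const_mul 2)).fun_sub
      ((p1.const_mul 4).mul_const (qC y))).fun_add
      ((p1.const_mul (1 / 3)).mul_const (brC B x y))).fun_add
      ((((p1.const_mul 2).mul_const (brC2 B x y)).fun_add
        ((p3.const_mul 4).mul_const (brC2 B y x))).const_mul (1 / 360))).fun_sub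
      (p1.const_mul (2 * α))
    rw [hv]
    refine g.congr_deriv ?_
    ring
  have hz := snd_zero (κ := 0) hε hu hv' hb
  -- the trace
  have hq : qC y = -trace (Y * Y) := by rw [qC_eq B, hY]
  have hbr : brC B x y = -trace (br X Y * br X Y) := by rw [hX, hY]; rfl
  have hbr2 : brC2 B x y = -trace (br X (br X Y) * br X (br X Y)) := by rw [hX, hY]; rfl
  have hα : α = -2 * trace ((V - Ps X Y) * Y) := by
    rw [sub_mul, trace_sub, tr_Ps]
    rw [hq, hbr, hbr2] at hz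
    linear_combination -hz / 2
  rw [hα, norm_mul]
  have n2 : ‖(-2 : ℂ)‖ = 2 := by norm_num
  rw [n2]
  have h5 := norm_trace_mul_le (V - Ps X Y) Y
  have hXn : ‖X‖ = nC x := by rw [hX, norm_LC]
  have hYn : ‖Y‖ = nC y := by rw [hY, norm_LC]
  rw [hXn, hYn] at hVb
  rw [hYn] at h5
  have h6 := mul_le_mul_of_nonneg_right hVb (nC_nonneg y)
  calc 2 * ‖trace ((V - Ps X Y) * Y)‖ ≤ 2 * (2 * (‖V - Ps X Y‖ * nC y)) := by linarith
    _ ≤ 2 * (2 * (c * nC x ^ 5 * nC y * nC y)) := by linarith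
    _ = _ := by ring

end

end Pool.Agent.N988.MK.B6
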