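import Mathlib
import Pool.Agent.N989.MK.Cov
import Pool.Agent.N989.MK.Char
import Pool.Agent.N989.MK.Lim2

/-!
# The main theorem from the weak coupling flow
-/

open MeasureTheory Matrix Filter Pool.Agent.N991.MK
open scoped Matrix.Norms.Frobenius Topology
open Pool.Agent.H906R3.YM Pool.Agent.W793.YM Pool.Agent.TH618.YM Pool.Agent.N984.TW

namespace Pool.Agent.N989.MK

set_option linter.unusedSectionVars false

noncomputable section

/-- the exponentials of small vectors form a neighbourhood of the identity -/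
lemma exp_nhds {N n : ℕ} {G : Subgroup (UN N)} (B : Frame G n) (hG : IsClosed (G : Set (UN N)))
    (δ : ℝ) (hδ : 0 < δ) :
    {g : G | ∃ X, qf X ≤ δ ∧ g = (EDG B hG).E X} ∈ 𝓝 (1 : G) := by
  have h1 := Eg_lg B hG
  have h2 : Tendsto (fun g : G => qf (lg B g)) (𝓝 1) (𝓝 0) := by
    have h3 : Tendsto (fun g : G => lgM B (mt g)) (𝓝 1) (𝓝 0) := by
      have := (lgM_contDiffAt B).continuousAt.tendsto.comp (mt_tendsto (G := G))
      rwa [lgM_one] at this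
    have h4 : Continuous fun x : Fin n → ℝ => qf x := by
      unfold qf
      fun_prop
    have h5 := (h4.tendsto 0).comp h3
    have h6 : qf (0 : Fin n → ℝ) = 0 := by simp [qf]
    rw [h6] at h5
    exact h5
  filter_upwards [h1, h2.eventually (gt_mem_nhds hδ)] with g hg hq
  exact ⟨lg B g, hq.le, hg.symm⟩

section

variable {G : Type*} [Group G] [TopologicalSpace G] [IsTopologicalGroup G] [CompactSpace G]
  [MeasurableSpace G] [BorelSpace G] [SecondCountableTopology G]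
  {μ : Measure G} [IsProbabilityMeasure μ] [μ.IsHaarMeasure] [μ.IsMulRightInvariant]
  [μ.IsInvInvariant] {Z : G → ℝ}

lemma Zb_TTn (hZ : Adm Z) (n : ℕ) (V : BE n → G) : Zb μ Z n V = TTn μ Z n (lp V) := by
  rw [Zb_eq hZ.cont hZ.cls n V, Zr_eq]

lemma Zt_TTn (hZ : Adm Z) (n : ℕ) : Zt μ Z n = ∫ x, TTn μ Z n x ∂μ := part_eq hZ n

lemma Ex_lp (hZ : Adm Z) (n : ℕ) {O : G → ℝ} (hO : Continuous O) :
    Ex μ Z n (fun U => O (lp fun e => U (.inl e))) =
      (∫ x, O x * TTn μ Z n x ∂μ) / ∫ x, TTn μ Z n x ∂μ := by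
  unfold Ex
  rw [part_eq hZ, int_lp hZ.cont hZ.cls n hO]
  simp only [Zr_eq]

lemma Ex_WW {χ : G → ℝ} (hχ : Continuous χ) (hZ : Adm Z) (n : ℕ) :
    Ex μ Z n (fun U => χ (lp fun e => U (.inl e))) = WW μ χ (TTn μ Z n) := by
  rw [Ex_lp hZ n hχ]
  unfold WW
  congr 1
  refine integral_congr_ae (Eventually.of_forall fun x => ?_)
  exact mul_comm _ _

/-- the iterations of the elements of a two-sided trajectory -/
lemma traj_iter {Fk : ℤ → G → ℝ} (hA : ∀ k, Adm (Fk k))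
    (hr : ∀ k, Fk (k + 1) = nrm μ (TT μ (Fk k))) (h1 : ∀ k, ∫ x, Fk k x ∂μ = 1) (k : ℤ) :
    ∀ j : ℕ, nrm μ (TTn μ (Fk k) j) = Fk (k + j)
  | 0 => by
    have e : TTn μ (Fk k) 0 = Fk k := rfl
    rw [e]
    unfold nrm
    rw [h1 k]
    funext x
    simp
  | j + 1 => by
    have ih := traj_iter hA hr h1 k j
    have h2 : TTn μ (Fk k) (j + 1) = TT μ (TTn μ (Fk k) j) := rfl
    rw [h2, ← nrm_TT_nrm ((hA k).TTn j), ih, ← hr]
    congr 1
    push_cast
    ring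

end

variable {N n : ℕ} {G : Subgroup (UN N)} [MeasurableSpace G] [BorelSpace G] [CompactSpace G]
  [SecondCountableTopology G] {μ : Measure G} [IsProbabilityMeasure μ] [μ.IsHaarMeasure]
  [μ.IsMulRightInvariant] [μ.IsInvInvariant]

lemma wz_cont2 : Continuous fun p : ℝ × G => wz G p.1 p.2 := by
  have h1 : Continuous fun x : G => (trace (mt x)).re :=
    Complex.continuous_re.comp (Continuous.matrix_trace mt_cont)
  unfold wz
  exact Real.continuous_exp.comp (continuous_fst.mul (h1.comp continuous_snd))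

lemma wz_wp (ho : Obs μ (chi G)) (hN : 0 < N) (β : ℝ) (hβ : 0 < β) :
    0 < WW μ (chi G) (wz G β) := by
  have hN' : (0 : ℝ) < N := by exact_mod_cast hN
  have h1 : wz G β = fun x => Real.exp (β * N * chi G x) := funext fun x => wz_eq hN β x
  rw [h1]
  have h2 : 0 < β * N := by positivity
  exact (mul_pos (Real.exp_pos _) (exp_int_pos ho h2)).trans_le (exp_W ho h2.le le_rfl)

/-- the string tension for all couplings -/
theorem sigma_all {χ : G → ℝ} {D : ED G n} (ho : Obs μ χ) (Fm : Fam μ χ D (wz G))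
    {m : ℕ} (hg : Gen D m 1) {P : (G → ℝ) → ℝ → ℝ → Prop}
    {c h0 C A R : ℝ} (F : Flow μ χ D (wz G) P c h0 C A R) :
    ∃ σ : ℝ → ℝ, (∀ β, 0 < β → 0 < σ β ∧ (∀ k, 0 < WW μ χ (TTn μ (wz G β) k)) ∧
      Tendsto (fun k => al μ χ (wz G β) k) atTop (𝓝 (σ β))) ∧
      ∃ C' : ℝ, ∀ β, 2 ≤ β → |Real.log (σ β) + Real.log 4 / c * β| ≤ C' * Real.log β := by
  have hex : ∀ β, ∃ σ : ℝ, 0 < β → 0 < σ ∧ Tendsto (fun k => al μ χ (wz G β) k) atTop
      (𝓝 σ) := by
    intro β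
    by_cases hβ : 0 < β
    · obtain ⟨σ, h1, h2⟩ := ho.tension hg hβ.le (Fm.adm β) (Fm.scb β hβ.le) (Fm.wp β hβ)
      exact ⟨σ, fun _ => ⟨h1, h2⟩⟩
    · exact ⟨0, fun h => absurd h hβ⟩
  choose σ hσ using hex
  obtain ⟨β1, C5, hβ1, hC5, hsc⟩ := F.scaling ho hg Fm.adm
  have hc := F.c_pos
  refine ⟨σ, fun β hβ => ⟨(hσ β hβ).1, fun k => ho.pos (Fm.adm β) (Fm.wp β hβ) k, (hσ β hβ).2⟩, ?_⟩
  -- uniform bounds on a bounded interval
  have hβ1' : 0 ≤ β1 := by linarith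
  obtain ⟨k0, hk0⟩ := ho.area hg hβ1'
  obtain ⟨w0, hw0p, hw0⟩ : ∃ w0 : ℝ, 0 < w0 ∧ ∀ β, 2 ≤ β → β ≤ β1 →
      w0 ≤ WW μ χ (wz G β) := by
    rcases le_or_gt 2 β1 with h2 | h2
    · have hcont : Continuous fun β => WW μ χ (wz G β) := Fm.g.cont ho 0
      obtain ⟨b, hb, hmin⟩ := isCompact_Icc.exists_isMinOn (Set.nonempty_Icc.2 h2)
        hcont.continuousOn
      exact ⟨WW μ χ (wz G b), Fm.wp b (by linarith [hb.1]), fun β h3 h4 => hmin ⟨h3, h4⟩⟩
    · exact ⟨1, one_pos, fun β h3 h4 => absurd (h3.trans h4) (not_le.2 h2)⟩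
  set M : ℝ := |Real.log (1 / 4 ^ k0)| + |Real.log (-Real.log w0 + 2 * (2 ^ m * β1))| +
    Real.log 4 / c * β1 with hM
  have hl4 : 0 < Real.log 4 := Real.log_pos (by norm_num)
  have hM0 : 0 ≤ M := by positivity
  have hl2 : 0 < Real.log 2 := Real.log_pos (by norm_num)
  have hbd : ∀ β, 2 ≤ β → β ≤ β1 → |Real.log (σ β) + Real.log 4 / c * β| ≤ M := by
    intro β hβ2 hβ
    have hβ0 : 0 < β := by linarith
    obtain ⟨s1, s2⟩ := hσ β hβ0
    obtain ⟨g1, g2, g3, g4, g5⟩ := hk0 _ (Fm.adm β) (SC.mono hβ (Fm.scb β hβ0.le)) (Fm.wp β hβ0)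
    have hlo : 1 / 4 ^ k0 ≤ σ β :=
      ge_of_tendsto s2 ((eventually_ge_atTop k0).mono fun k hk => g4 k hk)
    have hw : w0 ≤ WW μ χ (wz G β) := hw0 β hβ2 hβ
    have hhi : σ β ≤ -Real.log w0 + 2 * (2 ^ m * β1) := by
      refine le_of_tendsto s2 (Eventually.of_forall fun k => (g3 k).trans ?_)
      have := Real.log_le_log hw0p hw
      linarith
    have a1 := Real.log_le_log (by positivity) hlo
    have a2 := Real.log_le_log s1 hhi
    have b1 := neg_abs_le (Real.log (1 / 4 ^ k0))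
    have b2 := le_abs_self (Real.log (-Real.log w0 + 2 * (2 ^ m * β1)))
    have b3 := abs_nonneg (Real.log (1 / 4 ^ k0))
    have b4 := abs_nonneg (Real.log (-Real.log w0 + 2 * (2 ^ m * β1)))
    have b5 : 0 ≤ Real.log 4 / c * β := by positivity
    have b6 : Real.log 4 / c * β ≤ Real.log 4 / c * β1 :=
      mul_le_mul_of_nonneg_left hβ (by positivity)
    rw [abs_le]
    constructor <;> linarith
  refine ⟨M / Real.log 2 + C5 * (1 / Real.log 2 + 1), fun β hβ => ?_⟩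
  have hlβ : Real.log 2 ≤ Real.log β := Real.log_le_log (by norm_num) hβ
  have hlβ0 : 0 < Real.log β := by linarith
  have hone : 1 ≤ Real.log β / Real.log 2 := by
    rw [le_div_iff₀ hl2]; linarith
  rcases le_or_gt β β1 with h | h
  · refine (hbd β hβ h).trans ?_
    have h1 : M ≤ M / Real.log 2 * Real.log β := by
      have : M * 1 ≤ M * (Real.log β / Real.log 2) := mul_le_mul_of_nonneg_left hone hM0
      calc M = M * 1 := (mul_one M).symm
        _ ≤ M * (Real.log β / Real.log 2) := this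
        _ = _ := by ring
    have h2 : 0 ≤ C5 * (1 / Real.log 2 + 1) * Real.log β := by positivity
    linarith
  · obtain ⟨σ', g1, g2, g3⟩ := hsc β h.le
    have e : σ' = σ β := tendsto_nhds_unique g2 (hσ β (by linarith)).2
    rw [e] at g3
    refine g3.trans ?_
    have h1 : C5 * (1 + Real.log β) ≤ C5 * ((1 / Real.log 2 + 1) * Real.log β) := by
      refine mul_le_mul_of_nonneg_left ?_ hC5
      have : (1 / Real.log 2 + 1) * Real.log β = Real.log β / Real.log 2 + Real.log β := by ring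
      linarith
    have h2 : 0 ≤ M / Real.log 2 * Real.log β := by positivity
    linarith

/-- **The main theorem** from the weak coupling flow -/
theorem main_of_flow (B : Frame G n) (hG : IsClosed (G : Set (UN N)))
    (hconn : IsConnected (G : Set (UN N))) {χ : G → ℝ} (ho : Obs μ χ)
    (hwp : ∀ β, 0 < β → 0 < WW μ χ (wz G β))
    {P : (G → ℝ) → ℝ → ℝ → Prop} {cA h0 C A R : ℝ} (hcA : 0 < cA)
    (F : Flow μ χ (EDG B hG) (wz G) P (cA / 8) h0 C A R) :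
    (∃ σ : ℝ → ℝ, (∀ β, 0 < β → 0 < σ β ∧
        (∀ k, 0 < Ex μ (wz G β) k (fun U => χ (lp fun e => U (.inl e)))) ∧
        Tendsto (fun k : ℕ => -Real.log (Ex μ (wz G β) k
          (fun U => χ (lp fun e => U (.inl e)))) / 4 ^ k) atTop (𝓝 (σ β))) ∧
      ∃ C' : ℝ, ∀ β, 2 ≤ β →
        |Real.log (σ β) + 16 * Real.log 2 / cA * β| ≤ C' * Real.log β) ∧
    (∀ β, 0 < β → ∃ C' c : ℝ, 0 < c ∧ ∀ (k : ℕ) (p q : Pq k) (f g : G → ℝ),
      Continuous f → Cls f → (∀ x, |f x| ≤ 1) → Continuous g → Cls g → (∀ x, |g x| ≤ 1) →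
      |Cv μ (wz G β) k p q f g| ≤ C' * Real.exp (-(c * 4 ^ anc k p q))) ∧
    ∀ u : ℝ, 0 < u → u < 1 → ∃ (β : ℕ → ℝ) (φ : ℕ → ℕ) (Fk : ℤ → G → ℝ),
      (∀ i, 0 < β i ∧ Ex μ (wz G (β i)) i (fun U => χ (lp fun e => U (.inl e))) = u) ∧
      Tendsto β atTop atTop ∧ StrictMono φ ∧
      (∀ k, Continuous (Fk k) ∧ (∀ x, 0 < Fk k x) ∧ Cls (Fk k) ∧ Sy (Fk k) ∧
        ∫ x, Fk k x ∂μ = 1) ∧
      (∀ k : ℤ, ∀ ε : ℝ, 0 < ε → ∀ᶠ i in atTop, ∀ V : BE (((φ i : ℤ) + k).toNat) → G,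
        |Zb μ (wz G (β (φ i))) (((φ i : ℤ) + k).toNat) V /
          Zt μ (wz G (β (φ i))) (((φ i : ℤ) + k).toNat) - Fk k (lp V)| < ε) ∧
      (∀ (k : ℤ) (j : ℕ) (V : BE j → G), Zb μ (Fk k) j V / Zt μ (Fk k) j = Fk (k + j) (lp V)) ∧
      (∀ k, 0 < ∫ x, χ x * Fk k x ∂μ ∧ ∫ x, χ x * Fk k x ∂μ < 1) ∧
      ∫ x, χ x * Fk 0 x ∂μ = u ∧
      (∃ C5 : ℝ, ∀ j : ℕ, 1 ≤ j →
        |1 - (∫ x, χ x * Fk (-j) x ∂μ) - 8 * A / (cA * j)| ≤
          C5 * (1 + Real.log j) / j ^ 2) ∧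
      (∃ σ : ℝ, 0 < σ ∧ Tendsto (fun k : ℕ => -Real.log (∫ x, χ x * Fk k x ∂μ) / 4 ^ k)
        atTop (𝓝 σ)) ∧
      ∃ C' c : ℝ, 0 < c ∧ ∀ (k : ℤ) (i : ℕ) (p q : Pq i) (f g : G → ℝ), p ≠ q →
        Continuous f → Cls f → (∀ x, |f x| ≤ 1) → Continuous g → Cls g → (∀ x, |g x| ≤ 1) →
        |Cv μ (Fk k) i p q f g| ≤ C' * Real.exp (-(c * (4 : ℝ) ^ (k + anc i p q))) := by
  obtain ⟨m, hg⟩ := exists_gen B hG hconn
  have Fm : Fam μ χ (EDG B hG) (wz G) :=
    ⟨wz_adm, wz_cont2, fun β hβ => wilson_SC B hG hβ, hwp⟩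
  have hχc : Continuous (χ) := ho.cont
  refine ⟨?_, ?_, ?_⟩
  · obtain ⟨σ, h1, C', h2⟩ := sigma_all ho Fm hg F
    refine ⟨σ, fun β hβ => ?_, C', fun β hβ => ?_⟩
    · obtain ⟨s1, s2, s3⟩ := h1 β hβ
      refine ⟨s1, fun k => ?_, ?_⟩
      · rw [Ex_WW hχc (wz_adm β)]
        exact s2 k
      · simp only [Ex_WW hχc (wz_adm β)]
        exact s3
    · have h3 := h2 β hβ
      have e : Real.log 4 / (cA / 8) = 16 * Real.log 2 / cA := by
        rw [show (4 : ℝ) = 2 ^ 2 by norm_num, Real.log_pow]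
        push_cast
        field_simp
        ring
      rwa [e] at h3
  · intro β hβ
    obtain ⟨c, hc, h1⟩ := clustering (μ := μ) hg hβ.le
    exact ⟨18, c, hc, fun k p q f g => h1 _ (wz_adm β) (wilson_SC B hG hβ.le) k p q f g⟩
  · intro u hu0 hu1
    obtain ⟨β, φ, Fk, g1, g2, g3, g4, g5, g6, g7, C5, hC5, g8⟩ :=
      F.continuum ho Fm.g hg (exp_nhds B hG) hu0 hu1
    have hA : ∀ k, Adm (Fk k) := fun k => (g4 k).1
    have h1 : ∀ k, ∫ x, Fk k x ∂μ = 1 := fun k => (g4 k).2.1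
    have hr : ∀ k, Fk (k + 1) = nrm μ (TT μ (Fk k)) := fun k => (g4 k).2.2.1
    have hw : ∀ k, ∫ x, χ x * Fk k x ∂μ = WW μ (χ) (Fk k) := by
      intro k
      unfold WW
      rw [h1 k, div_one]
      refine integral_congr_ae (Eventually.of_forall fun x => ?_)
      exact mul_comm _ _
    obtain ⟨K, hK, hKs⟩ := (g4 0).2.2.2
    refine ⟨β, φ, Fk, fun i => ⟨(g1 i).1, ?_⟩, g2, g3, fun k => ⟨(hA k).cont, (hA k).pos,
      (hA k).cls, (hA k).sy, h1 k⟩, ?_, ?_, fun k => ?_, ?_, ?_, ?_, ?_⟩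
    · rw [Ex_WW hχc (wz_adm _)]
      exact (g1 i).2
    · intro k ε hε
      have h2 := Metric.tendstoUniformly_iff.1 (g5 k) ε hε
      filter_upwards [h2] with i hi V
      have h3 := hi (lp V)
      rw [dist_comm, Real.dist_eq] at h3
      rw [Zb_TTn (wz_adm _), Zt_TTn (wz_adm _)]
      unfold nrm at h3
      rwa [inv_mul_eq_div] at h3
    · intro k j V
      rw [Zb_TTn (hA k), Zt_TTn (hA k), ← traj_iter hA hr h1 k j]
      unfold nrm
      rw [inv_mul_eq_div]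
    · rw [hw k]
      exact g6 k
    · rw [hw 0]
      exact g7
    · refine ⟨C5, fun j hj => ?_⟩
      rw [hw]
      have hj0 : (0 : ℝ) < j := by exact_mod_cast (by omega : 0 < j)
      have e : A / (cA / 8 * j) = 8 * A / (cA * j) := by
        field_simp
      have h2 := g8 j hj
      rwa [e] at h2
    · obtain ⟨σ, s1, s2⟩ := ho.tension hg hK (hA 0) hKs (by rw [g7]; exact hu0)
      refine ⟨σ, s1, s2.congr fun k => ?_⟩
      have h2 := traj_iter hA hr h1 0 k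
      unfold al wl
      rw [hw, ← WW_nrm ((hA 0).TTn k), h2, zero_add]
    · obtain ⟨c, hc, h2⟩ := clustering_traj (μ := μ) hg hA h1 hr hK hKs
      exact ⟨18, c, hc, h2⟩

end

end Pool.Agent.N989.MK
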