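import Mathlib
import Pool.Agent.N989.MK.Main
import Pool.Agent.N989.MK.Model
import Pool.Agent.N991.MK.FmP2

/-!
# Auxiliary lemmas for the main theorem
-/

open MeasureTheory Matrix Filter Pool.Agent.N991.MK
open scoped Matrix.Norms.Frobenius Topology
open Pool.Agent.H906R3.YM Pool.Agent.W793.YM Pool.Agent.TH618.YM Pool.Agent.N984.TW

namespace Pool.Agent.N989.MK

set_option linter.unusedSectionVars false

noncomputable section

variable {N n : ℕ} {G : Subgroup (UN N)} [MeasurableSpace G] [BorelSpace G] {μ : Measure G}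
  [IsProbabilityMeasure μ] [μ.IsHaarMeasure]

lemma wz_eq_act (β : ℝ) : wz G β = act G β := rfl

lemma chiP_eq_chr (P : Matrix (Fin N) (Fin N) ℂ) : (chiP P : G → ℝ) = chr P := rfl

lemma wloop_eq [CompactSpace G] [SecondCountableTopology G] [μ.IsMulRightInvariant]
    [μ.IsInvInvariant] {P : Matrix (Fin N) (Fin N) ℂ} (ho : Obs μ (chiP P : G → ℝ)) (β : ℝ)
    (k : ℕ) : wloop μ P (act G β) k = WW μ (chiP P) (TTn μ (wz G β) k) :=
  Ex_WW ho.cont (wz_adm β) k

lemma sq_ip (A : Matrix (Fin N) (Fin N) ℂ) : ‖A‖ ^ 2 = (trace (Aᴴ * A)).re := by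
  rw [norm_sq_ip, ip_apply]

end

end Pool.Agent.N989.MK
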