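import Mathlib
import Pool.Agent.H906R3.YM.Conc
import Pool.Agent.N984.MK.Ns

/-!
# From plain hypotheses to the setting of the proof
-/

open MeasureTheory MeasureTheory.Measure Matrix Filter Pool.Agent.N991.MK Pool.Agent.N988.MK
open scoped Matrix.Norms.Frobenius Topology
open Pool.Agent.H906R3.YM Pool.Agent.W793.YM Pool.Agent.TH618.YM Pool.Agent.N984.TW

namespace Pool.Agent.N989.MK

set_option linter.unusedSectionVars false

noncomputable section

section

variable {G : Type*} [Group G] [TopologicalSpace G] [IsTopologicalGroup G] [CompactSpace G]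
  [MeasurableSpace G] [BorelSpace G] (μ : Measure G) [IsProbabilityMeasure μ] [μ.IsHaarMeasure]

/-- the normalised Haar measure of a compact group is right invariant -/
lemma haar_right : μ.IsMulRightInvariant := by
  constructor
  intro g
  have h1 : IsHaarMeasure (μ.map (· * g)) := inferInstance
  have h2 : IsProbabilityMeasure (μ.map (· * g)) :=
    isProbabilityMeasure_map (measurable_mul_const g).aemeasurable
  exact isHaarMeasure_eq_of_isProbabilityMeasure _ _

/-- the normalised Haar measure of a compact group is invariant under the inverse -/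
lemma haar_inv : μ.IsInvInvariant := by
  have := haar_right μ
  constructor
  have h2 : IsProbabilityMeasure μ.inv := by
    unfold Measure.inv
    exact isProbabilityMeasure_map measurable_inv.aemeasurable
  have h3 : IsHaarMeasure μ.inv := { }
  exact isHaarMeasure_eq_of_isProbabilityMeasure _ _

end

/-- the frame of an orthonormal basis of the Lie algebra -/
theorem exists_frame_of {N n : ℕ} {G : Subgroup (UN N)} (X : Fin n → Matrix (Fin N) (Fin N) ℂ)
    (h1 : ∀ a (t : ℝ), ∃ g : G, ((g : UN N) : Matrix (Fin N) (Fin N) ℂ) =
      NormedSpace.exp (t • X a))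
    (h2 : ∀ a b, (trace ((X a)ᴴ * X b)).re = if a = b then 1 else 0)
    (h3 : ∀ Y : Matrix (Fin N) (Fin N) ℂ, (∀ t : ℝ, ∃ g : G,
      ((g : UN N) : Matrix (Fin N) (Fin N) ℂ) = NormedSpace.exp (t • Y)) →
      Y ∈ Submodule.span ℝ (Set.range X)) : ∃ B : Frame G n, B.X = X := by
  choose ex hex using h1
  exact ⟨⟨X, ex, hex, h2, h3⟩, rfl⟩

end

end Pool.Agent.N989.MK
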