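import Mathlib
import Pool.Agent.N988.MK.CharP
import Pool.Agent.N988.MK.Pair10
import Pool.Agent.N989.MK.MainA
import Pool.Agent.N989.MK.Setup
import Pool.Agent.N989.MK.Uniq3

/-!
# The main theorem
-/

open MeasureTheory Matrix Filter Pool.Agent.N991.MK Pool.Agent.N988.MK
open scoped Matrix.Norms.Frobenius Topology
open Pool.Agent.H906R3.YM Pool.Agent.W793.YM Pool.Agent.TH618.YM Pool.Agent.N984.TW

namespace Pool.Agent.N989.MK

set_option linter.unusedSectionVars false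

noncomputable section

variable {N n : ℕ} {G : Subgroup (UN N)} [MeasurableSpace G] [BorelSpace G] {μ : Measure G}
  [IsProbabilityMeasure μ] [μ.IsHaarMeasure]

/-- **Main theorem** -/
theorem hier_main (hG : SimpleGroup G) {X : Fin n → Matrix (Fin N) (Fin N) ℂ}
    (hX : LieBasis G X) {P : Matrix (Fin N) (Fin N) ℂ} (hP : Constituent G P) :
    ∃ cA : ℝ, 0 < cA ∧
      (∀ c, ∑ a, (trace ((X c * X a - X a * X c)ᴴ * (X c * X a - X a * X c))).re = cA) ∧
      (∃ σ : ℝ → ℝ, (∀ β, 0 < β → 0 < σ β ∧ (∀ k, 0 < wloop μ P (act G β) k) ∧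
          Tendsto (fun k : ℕ => -Real.log (wloop μ P (act G β) k) / 4 ^ k) atTop (𝓝 (σ β))) ∧
        ∃ C : ℝ, ∀ β, 2 ≤ β →
          |Real.log (σ β) + 16 * Real.log 2 / cA * β| ≤ C * Real.log β) ∧
      (∀ β, 0 < β → ∃ C c : ℝ, 0 < c ∧ ∀ (k : ℕ) (p q : Pq k) (f g : G → ℝ),
        Continuous f → (∀ h x, f (h * x * h⁻¹) = f x) → (∀ x, |f x| ≤ 1) →
        Continuous g → (∀ h x, g (h * x * h⁻¹) = g x) → (∀ x, |g x| ≤ 1) →
        |Cv μ (act G β) k p q f g| ≤ C * Real.exp (-(c * 4 ^ anc k p q))) ∧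
      ∃ u₀ : ℝ, u₀ < 1 ∧ ∀ u : ℝ, 0 < u → u < 1 → ∃ F : ℤ → G → ℝ, LimitTheory μ X P cA u F ∧
        (∃ (β : ℕ → ℝ) (φ : ℕ → ℕ), (∀ i, 0 < β i ∧ wloop μ P (act G (β i)) i = u) ∧
          Tendsto β atTop atTop ∧ StrictMono φ ∧ ConvTo μ (fun i => β (φ i)) φ F) ∧
        (u₀ < u → ∀ (β : ℕ → ℝ) (l : ℕ → ℕ), (∀ i, 0 < β i) → Tendsto l atTop atTop →
          Tendsto (fun i => wloop μ P (act G (β i)) (l i)) atTop (𝓝 u) → ConvTo μ β l F) := by
  have hGc : IsClosed (G : Set (UN N)) := hG.closed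
  have : CompactSpace G := isCompact_iff_compactSpace.1 hGc.isCompact
  have : ConnectedSpace G := isConnected_iff_connectedSpace.1 hG.connected
  have := haar_right μ
  have := haar_inv μ
  obtain ⟨B, rfl⟩ := exists_frame_of X hX.mem hX.orth hX.full
  have hI : IrC G P := ⟨⟨hP.herm, hP.idem, hP.comm⟩, hP.ne, hP.irr, hP.nontriv⟩
  have hP0 : 0 < (trace P).re := hI.tr_pos
  have ho : Obs μ (chiP P : G → ℝ) := obs_chiP hI
  obtain ⟨cA, hcA, hcas, St, Q, h0, C, R, h1, ε, C', c0, Dm, Fl, PF⟩ :=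
    weak_flowP2 B hGc μ hG.nonabelian hG.simple ⟨hP.herm, hP.idem, hP.comm⟩ hP0 hP.nontriv
  obtain ⟨a0, ha0⟩ := exists_PX B hGc hP.nontriv
  have hApos : 0 < (∑ a, ‖P * B.X a‖ ^ 2) / (2 * (trace P).re) := by
    have h2 : 0 < ∑ a, ‖P * B.X a‖ ^ 2 := by
      refine Finset.sum_pos' (fun a _ => sq_nonneg _) ⟨a0, Finset.mem_univ _, ?_⟩
      have := norm_pos_iff.2 ha0
      positivity
    positivity
  obtain ⟨m, hg⟩ := exists_gen B hGc hG.connected
  have Fm : Fam μ (chiP P : G → ℝ) (EDG B hGc) (wz G) :=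
    ⟨wz_adm, wz_cont2, fun β hβ => wilson_SC B hGc hβ, fun β hβ => wz_W_P hI hβ⟩
  have hw : ∀ (F : G → ℝ), ∫ x, F x ∂μ = 1 → ∫ x, chr P x * F x ∂μ = WW μ (chiP P) F := by
    intro F h1
    unfold WW
    rw [h1, div_one]
    refine integral_congr_ae (Eventually.of_forall fun x => ?_)
    exact mul_comm _ _
  refine ⟨cA, hcA, fun c => ?_, ?_, ?_, ?_⟩
  · have h2 := hcas (Pi.single c 1)
    have e1 : LX B (Pi.single c (1 : ℝ)) = B.X c := LX_single B c
    rw [e1] at h2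
    have e2 : ∑ a, (Pi.single c (1 : ℝ) : Fin n → ℝ) a ^ 2 = 1 := by
      rw [Finset.sum_eq_single c]
      · simp
      · intro b _ hb
        simp [hb]
      · intro h
        exact absurd (Finset.mem_univ _) h
    rw [e2, mul_one] at h2
    rw [← h2]
    refine Finset.sum_congr rfl fun a _ => ?_
    rw [sq_ip]
  · obtain ⟨σ, h1, C', h2⟩ := sigma_all ho Fm hg Fl
    refine ⟨σ, fun β hβ => ?_, C', fun β hβ => ?_⟩
    · obtain ⟨s1, s2, s3⟩ := h1 β hβ
      refine ⟨s1, fun k => ?_, ?_⟩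
      · rw [wloop_eq ho]
        exact s2 k
      · simp only [wloop_eq ho]
        exact s3
    · have h3 := h2 β hβ
      have e : Real.log 4 / (cA / 8) = 16 * Real.log 2 / cA := by
        rw [show (4 : ℝ) = 2 ^ 2 by norm_num, Real.log_pow]
        push_cast
        field_simp
        ring
      rwa [e] at h3
  · intro β hβ
    obtain ⟨c, hc, h1⟩ := clustering (μ := μ) hg hβ.le
    exact ⟨18, c, hc, fun k p q f g => h1 _ (wz_adm β) (wilson_SC B hGc hβ.le) k p q f g⟩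
  · obtain ⟨u0, hu0, huniv⟩ := universal Fl Fl PF ho Fm.g Fm.g hg hApos
    refine ⟨u0, hu0, fun u hu hu1 => ?_⟩
    obtain ⟨β, φ, Fk, g1, g2, g3, g4, g5, g6, g7, C5, hC5, g8⟩ :=
      Fl.continuum2 ho Fm.g hg (exp_nhds B hGc) hu hu1
    have gu : u0 < u → ∀ (β' : ℕ → ℝ) (l : ℕ → ℕ), (∀ i, 0 < β' i) → Tendsto l atTop atTop →
        Tendsto (fun i => WW μ (chiP P) (TTn μ (wz G (β' i)) (l i))) atTop (𝓝 u) →
        ∀ k : ℤ, UT (fun i x => nrm μ (TTn μ (wz G (β' i)) ((l i : ℤ) + k).toNat) x) (Fk k) := by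
      intro huu β' l hβ' hl hW
      refine huniv u huu hu1 (fun i => β (φ i)) φ Fk (fun i => (g1 _).1) g3.tendsto_atTop ?_
        (fun k => (g4 k).1) (fun k => (g4 k).2.1) (fun k => (g4 k).2.2.1) g5 β' l hβ' hl hW
      simp only [fun i => (g1 (φ i)).2]
      exact tendsto_const_nhds
    have hA : ∀ k, Adm (Fk k) := fun k => (g4 k).1
    have h1 : ∀ k, ∫ x, Fk k x ∂μ = 1 := fun k => (g4 k).2.1
    have hr : ∀ k, Fk (k + 1) = nrm μ (TT μ (Fk k)) := fun k => (g4 k).2.2.1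
    obtain ⟨K, hK, hKs⟩ := (g4 0).2.2.2
    have hconv : ∀ (β : ℕ → ℝ) (l : ℕ → ℕ),
        (∀ k : ℤ, UT (fun i x => nrm μ (TTn μ (wz G (β i)) ((l i : ℤ) + k).toNat) x) (Fk k)) →
        ConvTo μ β l Fk := by
      intro β l h k ε hε
      filter_upwards [h k ε hε] with i hi V
      have h3 := hi (lp V)
      have h4 : Zb μ (act G (β i)) (((l i : ℤ) + k).toNat) V =
          TTn μ (wz G (β i)) (((l i : ℤ) + k).toNat) (lp V) := Zb_TTn (wz_adm _) _ V
      have h5 : Zt μ (act G (β i)) (((l i : ℤ) + k).toNat) =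
          ∫ x, TTn μ (wz G (β i)) (((l i : ℤ) + k).toNat) x ∂μ := Zt_TTn (wz_adm _) _
      rw [h4, h5]
      unfold nrm at h3
      rwa [inv_mul_eq_div] at h3
    refine ⟨Fk, ?_, ⟨β, φ, fun i => ⟨(g1 i).1, ?_⟩, g2, g3, hconv _ _ g5⟩,
      fun huu β' l hβ' hl hW => hconv _ _ (gu huu β' l hβ' hl ?_)⟩
    · refine ⟨fun k => (hA k).cont, fun k => (hA k).pos, fun k => (hA k).cls,
        fun k => (hA k).sy, h1, ?_, fun k => ?_, ?_, ?_, ?_, ?_⟩
      · intro k j V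
        rw [Zb_TTn (hA k), Zt_TTn (hA k), ← traj_iter hA hr h1 k j]
        unfold nrm
        rw [inv_mul_eq_div]
      · rw [hw _ (h1 k)]
        exact g6 k
      · rw [hw _ (h1 0)]
        exact g7
      · refine ⟨C5, fun j hj => ?_⟩
        rw [hw _ (h1 _)]
        have hj0 : (0 : ℝ) < j := by exact_mod_cast (by omega : 0 < j)
        have e : (∑ a, ‖P * B.X a‖ ^ 2) / (2 * (trace P).re) / (cA / 8 * j) =
            4 * ((∑ a, (trace ((P * B.X a)ᴴ * (P * B.X a))).re) / (trace P).re) / (cA * j) := by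
          simp only [← sq_ip]
          field_simp
          ring
        have h2 := g8 j hj
        rwa [e] at h2
      · obtain ⟨σ, s1, s2⟩ := ho.tension hg hK (hA 0) hKs (by rw [g7]; exact hu)
        refine ⟨σ, s1, s2.congr fun k => ?_⟩
        have h2 := traj_iter hA hr h1 0 k
        unfold al wl
        rw [hw _ (h1 _), ← WW_nrm ((hA 0).TTn k), h2, zero_add]
      · obtain ⟨c, hc, h2⟩ := clustering_traj (μ := μ) hg hA h1 hr hK hKs
        exact ⟨18, c, hc, h2⟩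
    · rw [wloop_eq ho]
      exact (g1 i).2
    · simp only [wloop_eq ho] at hW
      exact hW

end

end Pool.Agent.N989.MK
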