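import Mathlib
import Pool.Agent.N989.MK.MainA
import Pool.Agent.N989.MK.Bare
import Pool.Agent.N991.MK.WilS
import Pool.Agent.N988.MK.CharP
import Pool.Agent.N989.MK.Setup

/-!
# Wilson's action, curvatures and the kernels of the constituents

The first three lemmas are due to helper109 (N109/T3/Flw, N109/T3/Mod).
-/

open MeasureTheory Matrix Filter Pool.Agent.N991.MK Pool.Agent.N988.MK
open scoped Matrix.Norms.Frobenius Topology
open Pool.Agent.H906R3.YM Pool.Agent.W793.YM Pool.Agent.TH618.YM Pool.Agent.N984.TW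

namespace Pool.Agent.N989.MK

set_option linter.unusedSectionVars false

noncomputable section

lemma prod_first {G : Type*} [Group G] (x : G) : ∀ M : ℕ, 0 < M →
    (List.ofFn fun k : Fin M => if (k : ℕ) = 0 then x else 1).prod = x
  | 0, h => absurd h (lt_irrefl _)
  | M + 1, _ => by
    rw [List.ofFn_succ, List.prod_cons]
    have h2 : (List.ofFn fun i : Fin M => if ((Fin.succ i : Fin (M + 1)) : ℕ) = 0 then x else 1).prod
        = 1 := by
      refine List.prod_eq_one fun y hy => ?_
      rw [List.mem_ofFn] at hy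
      obtain ⟨i, rfl⟩ := hy
      simp
    rw [h2]
    simp

/-- the loop around the boundary takes all values -/
lemma lp_surj {G : Type*} [Group G] (n : ℕ) (x : G) : ∃ V : BE n → G, Pool.Agent.N989.MK.lp V = x := by
  refine ⟨fun e => if e.1 = 0 ∧ (e.2 : ℕ) = 0 then x else 1, ?_⟩
  have h0 : sd (fun e : BE n => if e.1 = 0 ∧ (e.2 : ℕ) = 0 then x else 1) 0 = x := by
    unfold sd
    have := prod_first x (2 ^ n) (by positivity)
    simpa using this
  have h1 : ∀ i : Fin 4, i ≠ 0 →
      sd (fun e : BE n => if e.1 = 0 ∧ (e.2 : ℕ) = 0 then x else 1) i = 1 := by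
    intro i hi
    unfold sd
    refine List.prod_eq_one fun y hy => ?_
    rw [List.mem_ofFn] at hy
    obtain ⟨k, rfl⟩ := hy
    simp [hi]
  unfold Pool.Agent.N989.MK.lp
  rw [h0, h1 1 (by decide), h1 2 (by decide), h1 3 (by decide)]
  simp

variable {N n : ℕ} {G : Subgroup (UN N)}

/-- Wilson's action has the curvature one -/
lemma curv_tr (B : Frame G n) (hG : IsClosed (G : Set (UN N))) :
    Curv B.X (fun g : G => (trace (mx g)).re) 1 := by
  obtain ⟨CW, r0, hCW, hr0, hst⟩ := wil_state B
  intro a γ hγ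
  have hγ2 : ∀ t, γ t = Eg B hG (t • Pi.single a 1) := by
    intro t
    apply mt_inj
    have h1 : mt (γ t) = NormedSpace.exp (t • B.X a) := hγ t
    rw [h1, mt_Eg]
    unfold EM
    rw [LX_smul]
    congr 2
    unfold LX
    simp [Pi.single_apply]
  have hn1 : nE (Pi.single a (1 : ℝ)) = 1 := by
    unfold nE
    rw [Finset.sum_eq_single a]
    · simp
    · intro b _ hb
      simp [hb]
    · intro h
      exact absurd (Finset.mem_univ _) h
  have hone : (trace (mx (1 : G))).re = N := by
    have : mx (1 : G) = 1 := rfl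
    rw [this, trace_one, Fintype.card_fin]
    simp
  have key : ∀ t : ℝ, |t| < r0 →
      |(trace (mx (1 : G))).re - (trace (mx (γ t))).re - 1 / 2 * t ^ 2| ≤ CW * t ^ 4 := by
    intro t ht
    obtain ⟨v, hv⟩ : ∃ v : Fin n → ℝ, v = t • Pi.single a 1 := ⟨_, rfl⟩
    have hnv : nE v = |t| := by rw [hv, Pool.Agent.N988.MK.nE_smul, hn1, mul_one]
    have h1 := (hst r0 hr0 le_rfl 1 zero_le_one).bd (rl v) (by rw [Pool.Agent.N988.MK.nC_rl, hnv]; exact ht)
    have e1 : EC B (rl v) = mt (γ t) := by
      have h2 := congrArg (fun u : (Mat N)ˣ => (u : Mat N)) (uE_rl B hG v)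
      rw [hγ2 t, ← hv]
      exact h2
    have e2 : EC B (-rl v) = mt (γ t)⁻¹ := by
      have h2 := congrArg (fun u : (Mat N)ˣ => ((u⁻¹ : (Mat N)ˣ) : Mat N)) (uE_rl B hG v)
      rw [hγ2 t, ← hv]
      exact h2
    rw [Pool.Agent.N988.MK.nC_rl, hnv, mul_one] at h1
    unfold mW at h1
    rw [e1, e2, mt_inv, trace_conjTranspose, Pool.Agent.N988.MK.qC_rl, hnv, sq_abs] at h1
    have h3 : |t| ^ 4 = t ^ 4 := by
      rw [show (4 : ℕ) = 2 * 2 by norm_num, pow_mul, pow_mul, sq_abs]
    rw [h3] at h1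
    refine le_trans (le_of_eq ?_) ((Complex.abs_re_le_norm _).trans h1)
    congr 1
    have e3 : mx (γ t) = mt (γ t) := rfl
    rw [hone, e3]
    simp only [Complex.mul_re, Complex.sub_re, Complex.sub_im, Complex.ofReal_re,
      Complex.ofReal_im, Complex.star_def, Complex.conj_re, Complex.conj_im]
    norm_num
    ring
  rw [tendsto_iff_norm_sub_tendsto_zero]
  have h2 : Tendsto (fun t : ℝ => CW * t ^ 2) (𝓝[≠] 0) (𝓝 0) := by
    have h3 : Continuous fun t : ℝ => CW * t ^ 2 := by fun_prop
    have h4 := h3.tendsto 0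
    rw [zero_pow (by norm_num), mul_zero] at h4
    exact h4.mono_left nhdsWithin_le_nhds
  refine squeeze_zero' (Eventually.of_forall fun t => norm_nonneg _) ?_ h2
  have h5 : ∀ᶠ t : ℝ in 𝓝[≠] 0, |t| < r0 := by
    have : ∀ᶠ t : ℝ in 𝓝 0, |t| < r0 := by
      have h6 := (continuous_abs (G := ℝ)).tendsto 0
      rw [abs_zero] at h6
      exact h6.eventually (gt_mem_nhds hr0)
    exact this.filter_mono nhdsWithin_le_nhds
  filter_upwards [h5, self_mem_nhdsWithin] with t ht ht0
  have ht0' : t ≠ 0 := ht0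
  have h6 := key t ht
  have h7 : ((trace (mx (1 : G))).re - (trace (mx (γ t))).re) / t ^ 2 - 1 / 2 =
      ((trace (mx (1 : G))).re - (trace (mx (γ t))).re - 1 / 2 * t ^ 2) / t ^ 2 := by
    field_simp
  rw [Real.norm_eq_abs, h7, abs_div, abs_of_pos (by positivity : 0 < t ^ 2),
    div_le_iff₀ (by positivity)]
  calc _ ≤ CW * t ^ 4 := h6
    _ = _ := by ring

/-- Wilson's action is an admissible action -/
lemma bare_tr : BareAction G (fun g : G => (trace (mx g)).re) where
  poly := by
    refine ⟨∑ i : Fin N, MvPolynomial.X (Sum.inl (i, i)), fun g => ?_⟩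
    rw [map_sum]
    simp only [MvPolynomial.eval_X]
    unfold entries trace
    simp
  cls h g := by
    have : mx (h * g * h⁻¹) = mt (h * g * h⁻¹) := rfl
    rw [this, mt_ctr]
    rfl
  sym g := by
    have : mx g⁻¹ = (mt g)ᴴ := mt_inv g
    rw [this, trace_conjTranspose]
    simp
    rfl
  max := by
    refine ⟨1, one_pos, fun g => ?_⟩
    have : mx (1 : G) = 1 := rfl
    rw [this, trace_one, Fintype.card_fin, one_mul]
    simp

/-- the curvature is determined by the action -/
lemma curv_unique {X : Fin n → Matrix (Fin N) (Fin N) ℂ} (hn : 0 < n)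
    (hX : ∀ a (t : ℝ), ∃ g : G, mx g = NormedSpace.exp (t • X a)) {S : G → ℝ} {κ κ' : ℝ}
    (h : Curv X S κ) (h' : Curv X S κ') : κ = κ' := by
  choose γ hγ using hX ⟨0, hn⟩
  have h2 := tendsto_nhds_unique (h ⟨0, hn⟩ γ hγ) (h' ⟨0, hn⟩ γ hγ)
  linarith

/-- the character is less than its maximum on a dense set -/
lemma chr_dense [ConnectedSpace G] {P : Matrix (Fin N) (Fin N) ℂ} (hP : Constituent G P)
    (U : Set G) (hU : IsOpen U) (hne : U.Nonempty) : ∃ x ∈ U, (chiP P : G → ℝ) x < 1 := by
  have hI : IrC G P := ⟨⟨hP.herm, hP.idem, hP.comm⟩, hP.ne, hP.irr, hP.nontriv⟩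
  have hP0 : 0 < (trace P).re := hI.tr_pos
  by_contra hcon
  push Not at hcon
  -- the kernel
  have hker : ∀ x ∈ U, P * mt x = P := by
    intro x hx
    have h1 : 1 ≤ (trace (P * mt x)).re / (trace P).re := hcon x hx
    rw [le_div_iff₀ hP0, one_mul] at h1
    have hu : mt x * (mt x)ᴴ = 1 := by
      have := (x : UN N).2
      exact (Matrix.mem_unitaryGroup_iff (A := mt x)).1 this
    have h2 : (trace ((P - P * mt x) * (P - P * mt x)ᴴ)).re ≤ 0 := by
      have e : (P - P * mt x) * (P - P * mt x)ᴴ = P - (P * mt x) - (P * mt x)ᴴ + P := by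
        have e1 : (P * mt x) * Pᴴ = P * mt x := by
          have hc : P * mt x = mt x * P := hP.comm x
          rw [hP.herm, hc, Matrix.mul_assoc, hP.idem]
        have e2 : P * (P * mt x)ᴴ = (P * mt x)ᴴ := by
          have := congrArg Matrix.conjTranspose e1
          rw [Matrix.conjTranspose_mul, Matrix.conjTranspose_conjTranspose] at this
          exact this
        have e3 : (P * mt x) * (P * mt x)ᴴ = P := by
          rw [Matrix.conjTranspose_mul, hP.herm, Matrix.mul_assoc, ← Matrix.mul_assoc (mt x), hu,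
            Matrix.one_mul, hP.idem]
        rw [Matrix.conjTranspose_sub, Matrix.sub_mul, Matrix.mul_sub, Matrix.mul_sub, e2, e3, e1,
          hP.herm, hP.idem]
        abel
      rw [e, Matrix.trace_add, Matrix.trace_sub, Matrix.trace_sub, trace_conjTranspose]
      simp only [Complex.add_re, Complex.sub_re, Complex.star_def, Complex.conj_re]
      linarith
    have h3 : P - P * mt x = 0 := by
      have h4 : (trace ((P - P * mt x) * (P - P * mt x)ᴴ)).re = ∑ i, ∑ j, ‖(P - P * mt x) i j‖ ^ 2 := by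
        rw [Matrix.trace, Complex.re_sum]
        refine Finset.sum_congr rfl fun i _ => ?_
        rw [Matrix.diag_apply, Matrix.mul_apply, Complex.re_sum]
        refine Finset.sum_congr rfl fun j _ => ?_
        rw [Matrix.conjTranspose_apply, Complex.star_def, Complex.mul_conj, Complex.ofReal_re,
          Complex.normSq_eq_norm_sq]
      rw [h4] at h2
      ext i j
      have h5 : ∑ i, ∑ j, ‖(P - P * mt x) i j‖ ^ 2 = 0 :=
        le_antisymm h2 (Finset.sum_nonneg fun i _ => Finset.sum_nonneg fun j _ => sq_nonneg _)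
      have h6 := (Finset.sum_eq_zero_iff_of_nonneg (fun i _ => Finset.sum_nonneg fun j _ =>
        sq_nonneg _)).1 h5 i (Finset.mem_univ _)
      have h7 := (Finset.sum_eq_zero_iff_of_nonneg (fun j _ => sq_nonneg _)).1 h6 j
        (Finset.mem_univ _)
      rw [sq_eq_zero_iff, norm_eq_zero] at h7
      exact h7
    exact (sub_eq_zero.1 h3).symm
  obtain ⟨K, hK⟩ : ∃ K : Subgroup G, ∀ x, x ∈ K ↔ P * mt x = P := by
    refine ⟨⟨⟨⟨{x | P * mt x = P}, ?_⟩, ?_⟩, ?_⟩, fun x => Iff.rfl⟩
    · intro a b ha hb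
      show P * mt (a * b) = P
      have e : mt (a * b) = mt a * mt b := rfl
      rw [e, ← Matrix.mul_assoc, show P * mt a = P from ha, show P * mt b = P from hb]
    · show P * mt (1 : G) = P
      have e : mt (1 : G) = 1 := rfl
      rw [e, Matrix.mul_one]
    · intro a ha
      show P * mt a⁻¹ = P
      have h1 : P * mt a = P := ha
      have e : mt a * mt a⁻¹ = 1 := by
        have : mt a * mt a⁻¹ = mt (a * a⁻¹) := rfl
        rw [this, mul_inv_cancel]
        rfl
      calc P * mt a⁻¹ = P * mt a * mt a⁻¹ := by rw [h1]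
        _ = P := by rw [Matrix.mul_assoc, e, Matrix.mul_one]
  obtain ⟨x0, hx0⟩ := hne
  have hopen : IsOpen (K : Set G) := by
    refine K.isOpen_of_mem_nhds (g := x0) ?_
    exact Filter.mem_of_superset (hU.mem_nhds hx0) fun x hx => (hK x).2 (hker x hx)
  have hclo : IsClosed (K : Set G) := K.isClosed_of_isOpen hopen
  have huniv : (K : Set G) = Set.univ := IsClopen.eq_univ ⟨hclo, hopen⟩ ⟨1, K.one_mem⟩
  obtain ⟨g, hg⟩ := hP.nontriv
  have : g ∈ (K : Set G) := by
    rw [huniv]
    trivial
  exact hg ((hK g).1 this)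

end

end Pool.Agent.N989.MK
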