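import Mathlib
import Pool.Agent.N989.MK.Lim

/-!
# Stopped trajectories with the time to the strong coupling
-/

open MeasureTheory Pool.Agent.N991.MK Filter
open scoped Topology

namespace Pool.Agent.N989.MK

set_option linter.unusedSectionVars false

noncomputable section

variable {G : Type*} [Group G] [TopologicalSpace G] [IsTopologicalGroup G] [CompactSpace G]
  [MeasurableSpace G] [BorelSpace G] [SecondCountableTopology G]
  {n : ℕ}

/-- the constants of the stopped trajectories -/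
structure Cst (D : ED G n) (P : (G → ℝ) → ℝ → ℝ → Prop) (c b A R H C4 K hq : ℝ) : Prop where
  c_pos : 0 < c
  b_np : b ≤ 0
  A_nn : 0 ≤ A
  R_nn : 0 ≤ R
  C_nn : 0 ≤ C4
  K_nn : 0 ≤ K
  hq1 : 1 ≤ hq
  hqH : hq ≤ H
  ent : ∀ H', ∃ K', 0 ≤ K' ∧ ∀ f h ρ, P f h ρ → hq ≤ h → h ≤ H' → SC D K' f

/-- the properties of the limit theories -/
structure LimP (μ : Measure G) (χ : G → ℝ) (D : ED G n) (c b A : ℝ) (Fk : ℤ → G → ℝ) : Prop where
  adm : ∀ k, Adm (Fk k)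
  one : ∀ k, ∫ x, Fk k x ∂μ = 1
  step : ∀ k, Fk (k + 1) = nrm μ (TT μ (Fk k))
  sc : ∀ k, ∃ K, 0 ≤ K ∧ SC D K (Fk k)
  w : ∀ k, 0 < WW μ χ (Fk k) ∧ WW μ χ (Fk k) < 1
  af : ∃ C5, 0 ≤ C5 ∧ ∀ j : ℕ, 1 ≤ j →
    |1 - WW μ χ (Fk (-j)) - A / (c * j - b / c * Real.log j)| ≤ C5 / j ^ 2

end

end Pool.Agent.N989.MK
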