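import Mathlib
import Pool.Agent.N989.MK.Obs

/-!
# The weak coupling flow to two loops
-/

open MeasureTheory Pool.Agent.N991.MK Filter
open scoped Topology

namespace Pool.Agent.N989.MK

set_option linter.unusedSectionVars false

noncomputable section

variable {G : Type*} [Group G] [TopologicalSpace G] [IsTopologicalGroup G] [CompactSpace G]
  [MeasurableSpace G] [BorelSpace G] [SecondCountableTopology G]
  {n : ℕ}

/-- the properties of the weak coupling flow, to two loops -/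
structure Flow2 (μ : Measure G) (χ : G → ℝ) (D : ED G n) (Zb : ℝ → G → ℝ)
    (P : (G → ℝ) → ℝ → ℝ → Prop) (c b h0 C A R : ℝ) : Prop where
  c_pos : 0 < c
  h0_pos : 0 < h0
  C_nn : 0 ≤ C
  A_nn : 0 ≤ A
  R_nn : 0 ≤ R
  nn : ∀ f h ρ, P f h ρ → 0 ≤ ρ
  start : ∀ β, h0 ≤ β → ∃ h ρ, |h - β| ≤ R ∧ ρ ≤ R ∧ P (Zb β) h ρ
  step : ∀ f h ρ, P f h ρ → h0 ≤ h → ∃ h' ρ', P (TT μ f) h' ρ' ∧
    |h' - h + c - b / h| ≤ C * (ρ + 1 / h) ^ 2 ∧ ρ' ≤ ρ / 4 + C / h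
  wil : ∀ f h ρ, P f h ρ → h0 ≤ h → |1 - WW μ χ f - A / h| ≤ C * (ρ + 1 / h) / h
  ent : ∀ H, ∃ K, 0 ≤ K ∧ ∀ f h ρ, P f h ρ → h0 ≤ h → h ≤ H → SC D K f

end

end Pool.Agent.N989.MK
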