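import Mathlib
import Pool.Agent.N989.MK.Tj
import Pool.Agent.N989.MK.Uniq3
import Pool.Agent.N991.MK.Stop3

/-!
# The continuum limit to two loops
-/

open MeasureTheory Pool.Agent.N991.MK Filter BoundedContinuousFunction
open scoped Topology

namespace Pool.Agent.N989.MK

set_option linter.unusedSectionVars false

noncomputable section

variable {G : Type*} [Group G] [TopologicalSpace G] [IsTopologicalGroup G] [CompactSpace G]
  [MeasurableSpace G] [BorelSpace G] [SecondCountableTopology G]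
  {μ : Measure G} [IsProbabilityMeasure μ] [μ.IsHaarMeasure] [μ.IsMulRightInvariant]
  [μ.IsInvInvariant] {χ : G → ℝ} {n : ℕ} {D : ED G n}

variable {P : (G → ℝ) → ℝ → ℝ → Prop} {c b A R H C4 K hq : ℝ}

lemma Cst.H1 (S : Cst D P c b A R H C4 K hq) : 1 ≤ H := S.hq1.trans S.hqH

/-- the time is the number of the steps, up to a constant -/
lemma TJ.time (S : Cst D P c b A R H C4 K hq) {Z : G → ℝ} {T : ℝ} {J : ℕ} {h ρ : ℕ → ℝ}
    (t : TJ μ χ D P c b A R H C4 K hq Z T J h ρ) :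
    |T - J| ≤ C4 + (H / c + |b| / c ^ 2 * Real.log H) := by
  have h1 := t.ps J 0 (by omega)
  have hc := S.c_pos
  have h2 := t.lo J le_rfl
  have hh : 1 ≤ h J := S.hq1.trans h2
  have h3 : |PsiT c b (h J)| ≤ H / c + |b| / c ^ 2 * Real.log H := by
    unfold PsiT
    refine (abs_add_le _ _).trans ?_
    have l0 : 0 ≤ Real.log (h J) := Real.log_nonneg hh
    have l1 : Real.log (h J) ≤ Real.log H := Real.log_le_log (by linarith) t.fin
    rw [abs_div, abs_of_pos hc, abs_of_pos (by linarith : 0 < h J), abs_mul, abs_div,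
      abs_of_pos (by positivity : 0 < c ^ 2), abs_of_nonneg l0]
    exact add_le_add (div_le_div_of_nonneg_right t.fin hc.le)
      (mul_le_mul_of_nonneg_left l1 (by positivity))
  have e : T - J = PsiT c b (h J) - (PsiT c b (h J) - T + J) := by ring
  rw [e]
  refine (abs_sub _ _).trans ?_
  simp only [Nat.cast_zero, zero_add, div_one] at h1
  linarith

/-- the window of the scales with a given value of the Wilson loop -/
lemma window3 (S : Cst D P c b A R H C4 K hq) (ho : Obs μ χ) {m : ℕ} (hg : Gen D m 1)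
    {u1 u2 : ℝ} (hu1 : 0 < u1) (hu2 : u2 < 1) :
    ∃ L : ℕ, ∀ Z T J h ρ, Adm Z → TJ μ χ D P c b A R H C4 K hq Z T J h ρ → ∀ k : ℕ,
      u1 ≤ WW μ χ (TTn μ Z k) → WW μ χ (TTn μ Z k) ≤ u2 → k ≤ J + L ∧ J ≤ k + L := by
  have hC := S.C_nn
  have hc := S.c_pos
  have hK := S.K_nn
  have hq0 : 0 < hq := by linarith [S.hq1]
  have hgr := grow hc hC H
  obtain ⟨Bu, hBu⟩ : ∃ B, B = C4 / (1 - u2) := ⟨_, rfl⟩
  have hu1' : 0 < 1 - u2 := by linarith
  obtain ⟨m0, hm0⟩ := eventually_atTop.1 (hgr.eventually (eventually_gt_atTop Bu))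
  obtain ⟨k0, hk0⟩ := ho.area hg hK
  obtain ⟨l0, hl0⟩ := exists_nat_gt (-Real.log u1)
  refine ⟨max m0 (k0 + l0), fun Z T J h ρ hZ t k hk1 hk2 => ?_⟩
  rcases Nat.lt_or_ge k J with hkJ | hkJ
  · refine ⟨by omega, ?_⟩
    by_contra hcon
    push Not at hcon
    obtain ⟨i, hi⟩ := Nat.exists_eq_add_of_le hkJ.le
    have h1 := t.as k i hi.symm
    have h2 := hm0 i (by have := le_max_left m0 (k0 + l0); omega)
    have h3 : Bu < h k := by linarith [(abs_le.1 h1).1]
    have h4 := t.w2 k (by omega)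
    have hk0' : 0 < h k := hq0.trans_le (t.lo k (by omega))
    have h5 : C4 / h k < 1 - u2 := by
      rw [div_lt_iff₀ hk0']
      rw [hBu, div_lt_iff₀ hu1'] at h3
      linarith
    linarith
  · refine ⟨?_, by omega⟩
    by_contra hcon
    push Not at hcon
    obtain ⟨i, rfl⟩ := Nat.exists_eq_add_of_le hkJ
    have hi : k0 + l0 < i := by have := le_max_right m0 (k0 + l0); omega
    obtain ⟨l, rfl⟩ := Nat.exists_eq_add_of_le (show k0 ≤ i by omega)
    have hAJ := hZ.TTn (μ := μ) J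
    have hw := t.half J le_rfl
    obtain ⟨g1, g2, g3, g4, g5⟩ := hk0 _ hAJ t.sc (by linarith)
    have h1 := g4 (k0 + l) (by omega)
    unfold al wl at h1
    rw [← TTn_add] at h1
    have hlog : -Real.log (WW μ χ (TTn μ Z (J + (k0 + l)))) ≤ -Real.log u1 :=
      neg_le_neg (Real.log_le_log hu1 hk1)
    have h1' : (1 : ℝ) / 4 ^ k0 ≤ -Real.log u1 / 4 ^ (k0 + l) :=
      h1.trans (div_le_div_of_nonneg_right hlog (by positivity))
    rw [pow_add, div_le_div_iff₀ (by positivity) (by positivity)] at h1'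
    have h2 : (0 : ℝ) < 4 ^ k0 := by positivity
    have h3 : (4 : ℝ) ^ l ≤ -Real.log u1 := by
      have h4 : (4 : ℝ) ^ k0 * 4 ^ l ≤ 4 ^ k0 * -Real.log u1 := by linarith
      exact le_of_mul_le_mul_left h4 h2
    have h4 : (l : ℝ) ≤ 4 ^ l := by
      have := (Nat.lt_pow_self (n := l) (by norm_num : 1 < 4)).le
      exact_mod_cast this
    have h5 : (l0 : ℝ) < l := by
      exact_mod_cast (by omega : l0 < l)
    linarith

/-- uniform semiconcavity constants at bounded distance from the strong coupling scale -/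
lemma unif_SC3 (S : Cst D P c b A R H C4 K hq) {m : ℕ} (hg : Gen D m 1) (i : ℕ) :
    ∃ K' : ℝ, 0 ≤ K' ∧ ∀ Z T J h ρ, Adm Z → TJ μ χ D P c b A R H C4 K hq Z T J h ρ →
      ∀ j, J ≤ j + i → SC D K' (TTn μ Z j) := by
  have hC := S.C_nn
  have hc := S.c_pos
  have hK := S.K_nn
  obtain ⟨K1, hK1, hK2⟩ := S.ent (c * i + (H + C4 * (1 + Real.log (i + 1))))
  refine ⟨max K1 K, hK1.trans (le_max_left _ _), fun Z T J h ρ hZ t j hj => ?_⟩
  rcases Nat.lt_or_ge J j with hJ | hJ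
  · obtain ⟨l, rfl⟩ := Nat.exists_eq_add_of_le hJ.le
    have hAJ := hZ.TTn (μ := μ) J
    rw [TTn_add]
    refine SC.mono ?_ (t.sc.TTn (μ := μ) hK hAJ hg l)
    have h0 := rate_nonneg m K
    have : rate m K ^ l ≤ 1 := pow_le_one₀ h0 (rate_lt m hK).le
    have h1 := le_max_right K1 K
    nlinarith
  · obtain ⟨l, hl⟩ := Nat.exists_eq_add_of_le hJ
    have hli : (l : ℝ) ≤ i := by exact_mod_cast (by omega : l ≤ i)
    have h1 := t.as j l hl.symm
    refine SC.mono (le_max_left _ _) (hK2 _ _ _ (t.p j hJ) (t.lo j hJ) ?_)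
    have h4 : Real.log ((l : ℝ) + 1) ≤ Real.log (i + 1) :=
      Real.log_le_log (by positivity) (by linarith)
    have h5 := mul_le_mul_of_nonneg_left hli hc.le
    have h6 := mul_le_mul_of_nonneg_left h4 hC
    linarith [(abs_le.1 h1).2]

/-- uniform lower bounds of the Wilson loop -/
lemma unif_W3 (S : Cst D P c b A R H C4 K hq) (ho : Obs μ χ) {m : ℕ} (hg : Gen D m 1) (i : ℕ) :
    ∃ δ : ℝ, 0 < δ ∧ ∀ Z T J h ρ, Adm Z → TJ μ χ D P c b A R H C4 K hq Z T J h ρ →
      ∀ j, j ≤ J + i → δ ≤ WW μ χ (TTn μ Z j) := by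
  have hK := S.K_nn
  obtain ⟨S', hS⟩ : ∃ S' : ℝ, S' = Real.log 2 + 2 * (2 ^ m * K) := ⟨_, rfl⟩
  have hl2 : 0 < Real.log 2 := Real.log_pos (by norm_num)
  have hS0 : 0 < S' := by rw [hS]; positivity
  have hS1 : Real.log 2 ≤ S' := by
    have : 0 ≤ 2 * (2 ^ m * K) := by positivity
    linarith
  refine ⟨Real.exp (-(S' * 4 ^ i)), Real.exp_pos _, fun Z T J h ρ hZ t j hj => ?_⟩
  have h4 : (1 : ℝ) ≤ 4 ^ i := one_le_pow₀ (by norm_num)
  rcases Nat.lt_or_ge J j with hJ | hJ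
  · obtain ⟨l, rfl⟩ := Nat.exists_eq_add_of_le hJ.le
    have hAJ := hZ.TTn (μ := μ) J
    have hw := t.half J le_rfl
    have hw0 : 0 < WW μ χ (TTn μ Z J) := by linarith
    have h1 := ho.al_upper hg hK hAJ t.sc hw0 l
    have h2 := Real.log_le_log (by norm_num) hw
    rw [Real.log_div (by norm_num) (by norm_num), Real.log_one] at h2
    have h3 : al μ χ (TTn μ Z J) l ≤ S' := by linarith
    unfold al wl at h3
    rw [div_le_iff₀ (by positivity), ← TTn_add] at h3
    have hpos := ho.pos hAJ hw0 l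
    rw [← TTn_add] at hpos
    have hli : (4 : ℝ) ^ l ≤ 4 ^ i := pow_le_pow_right₀ (by norm_num) (by omega)
    have h5 : -(S' * 4 ^ i) ≤ Real.log (WW μ χ (TTn μ Z (J + l))) := by nlinarith
    have h6 := Real.exp_le_exp.2 h5
    rwa [Real.exp_log hpos] at h6
  · have h1 := t.half j hJ
    refine le_trans ?_ h1
    have h2 : Real.exp (-(S' * 4 ^ i)) ≤ Real.exp (-Real.log 2) :=
      Real.exp_le_exp.2 (by nlinarith)
    have h3 : Real.exp (-Real.log 2) = 1 / 2 := by
      rw [Real.exp_neg, Real.exp_log (by norm_num)]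
      norm_num
    linarith

/-- growth with a shift -/
lemma grow_shift (S : Cst D P c b A R H C4 K hq) (L : ℕ) : ∃ j1 : ℕ, ∀ j ≥ j1,
    c / 4 * j + c * L + (H + C4 * (1 + Real.log (j + L + 1))) ≤ c * j := by
  have hC := S.C_nn
  have hc := S.c_pos
  have h1 := grow (c := c / 2) (by positivity) hC (H + 2 * c * L + c * L)
  obtain ⟨m1, hm1⟩ := eventually_atTop.1 (h1.eventually (eventually_ge_atTop 0))
  refine ⟨m1, fun j hj => ?_⟩
  have h2 := hm1 (j + L) (by omega)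
  push_cast at h2
  have hj0 : (0 : ℝ) ≤ j := Nat.cast_nonneg j
  have hL0 : (0 : ℝ) ≤ L := Nat.cast_nonneg L
  nlinarith [mul_nonneg hc.le hj0, mul_nonneg hc.le hL0]

/-- the coupling at the depth `j` -/
lemma TJ.dev (S : Cst D P c b A R H C4 K hq) (L : ℕ) : ∃ (j0 : ℕ) (B : ℝ), L + 1 ≤ j0 ∧ 0 ≤ B ∧
    ∀ Z T J h ρ, TJ μ χ D P c b A R H C4 K hq Z T J h ρ → ∀ i j : ℕ, j0 ≤ j →
      i + j ≤ J + L → J ≤ i + j + L → i ≤ J ∧ c / 4 * j ≤ h i ∧
        |h i - (c * j - b / c * Real.log j)| ≤ B := by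
  have hC := S.C_nn
  have hc := S.c_pos
  have hH1 := S.H1
  obtain ⟨j1, hj1⟩ := grow_shift S L
  have hL0 : (0 : ℝ) ≤ L := Nat.cast_nonneg L
  obtain ⟨B1, hB1⟩ : ∃ B1 : ℝ, B1 = C4 + (H / c + |b| / c ^ 2 * Real.log H) := ⟨_, rfl⟩
  have hB10 : 0 ≤ B1 := by
    have := Real.log_nonneg hH1
    rw [hB1]
    positivity
  -- bounds of the logarithm of the coupling
  obtain ⟨Cu, hCu⟩ : ∃ Cu : ℝ, Cu = c + c * L + H + C4 * (L + 2) := ⟨_, rfl⟩
  have hCu0 : 0 < Cu := by rw [hCu]; positivity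
  obtain ⟨B2, hB2⟩ : ∃ B2 : ℝ, B2 = |Real.log Cu| + |Real.log (c / 4)| := ⟨_, rfl⟩
  have hB20 : 0 ≤ B2 := by rw [hB2]; positivity
  refine ⟨max j1 (L + 1), c * (C4 + B1 + L) + |b| / c * B2, le_max_right _ _, by positivity,
    fun Z T J h ρ t i j hj hij hJi => ?_⟩
  have hj1' : j1 ≤ j := (le_max_left _ _).trans hj
  have hjL : L + 1 ≤ j := (le_max_right _ _).trans hj
  have hiJ : i ≤ J := by omega
  obtain ⟨q, hqJ⟩ := Nat.exists_eq_add_of_le hiJ
  have hqj : q ≤ j + L := by omega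
  have hjq : j ≤ q + L := by omega
  have hj0 : (0 : ℝ) < j := by exact_mod_cast (by omega : 0 < j)
  have hj1r : (1 : ℝ) ≤ j := by exact_mod_cast (by omega : 1 ≤ j)
  have hq1 : (q : ℝ) ≤ j + L := by exact_mod_cast hqj
  have hq2 : (j : ℝ) ≤ q + L := by exact_mod_cast hjq
  have hq0' : (0 : ℝ) ≤ q := Nat.cast_nonneg q
  have h1 := t.as i q hqJ.symm
  have hlogq : Real.log ((q : ℝ) + 1) ≤ Real.log (j + L + 1) :=
    Real.log_le_log (by positivity) (by linarith)
  have hlow : c / 4 * j ≤ h i := by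
    have h2 := hj1 j hj1'
    have h3 : C4 * (1 + Real.log (q + 1)) ≤ C4 * (1 + Real.log (j + L + 1)) :=
      mul_le_mul_of_nonneg_left (by linarith) hC
    have h4 := (abs_le.1 h1).1
    have h5 := mul_le_mul_of_nonneg_left hq2 hc.le
    linarith
  have hhi : 0 < h i := by
    have := t.lo i hiJ
    linarith [S.hq1]
  have hup : h i ≤ Cu * j := by
    have h4 := (abs_le.1 h1).2
    have h5 : Real.log ((j : ℝ) + L + 1) ≤ j + L := by
      have := Real.log_le_sub_one_of_pos (show (0 : ℝ) < j + L + 1 by positivity)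
      linarith
    have h6 : C4 * (1 + Real.log (q + 1)) ≤ C4 * (1 + (j + L)) :=
      mul_le_mul_of_nonneg_left (by linarith) hC
    have h7 := mul_le_mul_of_nonneg_left hq1 hc.le
    have h8 : L * 1 ≤ (L : ℝ) * j := mul_le_mul_of_nonneg_left hj1r hL0
    have h9 : H * 1 ≤ H * j := mul_le_mul_of_nonneg_left hj1r (by linarith)
    have h10 : C4 * (1 + (j + L)) ≤ C4 * ((L + 2) * j) :=
      mul_le_mul_of_nonneg_left (by nlinarith) hC
    have h11 : c * (j + L) ≤ c * j + c * (L * j) := by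
      have := mul_le_mul_of_nonneg_left h8 hc.le
      nlinarith
    rw [hCu]
    nlinarith
  have hlog : |Real.log (h i) - Real.log j| ≤ B2 := by
    have a1 : Real.log (h i) ≤ Real.log Cu + Real.log j := by
      rw [← Real.log_mul hCu0.ne' hj0.ne']
      exact Real.log_le_log hhi hup
    have a2 : Real.log (c / 4) + Real.log j ≤ Real.log (h i) := by
      rw [← Real.log_mul (by positivity) hj0.ne']
      exact Real.log_le_log (by positivity) hlow
    have b1 := le_abs_self (Real.log Cu)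
    have b2 := neg_abs_le (Real.log (c / 4))
    have b3 := abs_nonneg (Real.log Cu)
    have b4 := abs_nonneg (Real.log (c / 4))
    rw [hB2, abs_le]
    constructor <;> linarith
  refine ⟨hiJ, hlow, ?_⟩
  have hp := t.ps i q hqJ.symm
  have hT := TJ.time S t
  rw [← hB1] at hT
  have hp' : |PsiT c b (h i) - T + i| ≤ C4 := by
    refine hp.trans ?_
    exact div_le_self hC (by linarith)
  have e1 : PsiT c b (h i) - j = (PsiT c b (h i) - T + i) + (T - J) + ((J : ℝ) - i - j) := by ring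
  have hJr : |(J : ℝ) - i - j| ≤ L := by
    have a1 : (J : ℝ) ≤ i + j + L := by exact_mod_cast hJi
    have a2 : (i : ℝ) + j ≤ J + L := by exact_mod_cast hij
    rw [abs_le]
    constructor <;> linarith
  have hps : |PsiT c b (h i) - j| ≤ C4 + B1 + L := by
    rw [e1]
    exact (abs_add_le _ _).trans (add_le_add ((abs_add_le _ _).trans (add_le_add hp' hT)) hJr)
  have e2 : h i - (c * j - b / c * Real.log j) = c * (PsiT c b (h i) - j) -
      b / c * (Real.log (h i) - Real.log j) := by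
    unfold PsiT
    field_simp
    ring
  rw [e2]
  refine (abs_sub _ _).trans ?_
  rw [abs_mul, abs_of_pos hc, abs_mul, abs_div, abs_of_pos hc]
  exact add_le_add (mul_le_mul_of_nonneg_left hps hc.le)
    (mul_le_mul_of_nonneg_left hlog (by positivity))

/-- asymptotic freedom to two loops at a fixed distance from the given scale -/
lemma af_bound3 (S : Cst D P c b A R H C4 K hq) (L : ℕ) :
    ∃ (j0 : ℕ) (C6 : ℝ), L ≤ j0 ∧ 1 ≤ j0 ∧ 0 ≤ C6 ∧
      ∀ Z T J h ρ, TJ μ χ D P c b A R H C4 K hq Z T J h ρ → ∀ i j : ℕ, j0 ≤ j → i + j ≤ J + L →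
        J ≤ i + j + L → |1 - WW μ χ (TTn μ Z i) - A / (c * j - b / c * Real.log j)| ≤
          C6 / j ^ 2 + C6 * (1 / 4) ^ i := by
  have hC := S.C_nn
  have hc := S.c_pos
  have hA := S.A_nn
  have hR := S.R_nn
  have hb := S.b_np
  obtain ⟨j0, B, hj0L, hB, hdev⟩ := TJ.dev (μ := μ) (χ := χ) S L
  have hL0 : (0 : ℝ) ≤ L := Nat.cast_nonneg L
  obtain ⟨C6, hC6⟩ : ∃ C6 : ℝ, C6 = A * B * (4 / c) / c +
    C4 * (C4 + 4 / c) * (4 / c) * (L + 1) + C4 * R * (4 / c) := ⟨_, rfl⟩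
  have hC60 : 0 ≤ C6 := by rw [hC6]; positivity
  refine ⟨j0, C6, by omega, by omega, hC60, fun Z T J h ρ t i j hj hij hJi => ?_⟩
  obtain ⟨hiJ, hlow, hd⟩ := hdev Z T J h ρ t i j hj hij hJi
  obtain ⟨q, hqJ⟩ := Nat.exists_eq_add_of_le hiJ
  have hjq : j ≤ q + L := by omega
  have hj0 : (0 : ℝ) < j := by exact_mod_cast (by omega : 0 < j)
  have hj1r : (1 : ℝ) ≤ j := by exact_mod_cast (by omega : 1 ≤ j)
  have hq2 : (j : ℝ) ≤ q + L := by exact_mod_cast hjq
  have hq0' : (0 : ℝ) ≤ q := Nat.cast_nonneg q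
  have hlj : 0 ≤ Real.log j := Real.log_nonneg hj1r
  have hhi : 0 < h i := by
    have := t.lo i hiJ
    linarith [S.hq1]
  obtain ⟨y, hy⟩ : ∃ y : ℝ, y = c * j - b / c * Real.log j := ⟨_, rfl⟩
  have hyj : c * j ≤ y := by
    have : 0 ≤ -b / c * Real.log j := mul_nonneg (div_nonneg (by linarith) hc.le) hlj
    have e : -b / c * Real.log j = -(b / c * Real.log j) := by ring
    rw [hy]
    linarith
  have hy0 : 0 < y := lt_of_lt_of_le (by positivity) hyj
  rw [← hy] at hd ⊢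
  have hinv : 1 / h i ≤ 4 / c * (1 / j) := by
    have h2 : (0 : ℝ) < c / 4 * j := by positivity
    refine (one_div_le_one_div_of_le h2 hlow).trans (le_of_eq ?_)
    field_simp
  have hinv0 : 0 ≤ 1 / h i := by positivity
  have hyinv : 1 / y ≤ 1 / (c * j) := one_div_le_one_div_of_le (by positivity) hyj
  have hw := t.w1 i hiJ
  have hra := t.ra i q hqJ.symm
  have e1 : 1 - WW μ χ (TTn μ Z i) - A / y =
      (1 - WW μ χ (TTn μ Z i) - A / h i) + A * (y - h i) * (1 / h i) * (1 / y) := by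
    field_simp
    ring
  rw [e1]
  refine (abs_add_le _ _).trans ?_
  have t1 : |A * (y - h i) * (1 / h i) * (1 / y)| ≤ A * B * (4 / c) / c * (1 / (j : ℝ) ^ 2) := by
    rw [abs_mul, abs_mul, abs_mul, abs_of_nonneg hA, abs_of_nonneg hinv0,
      abs_of_nonneg (by positivity : 0 ≤ 1 / y), abs_sub_comm]
    have h2 : A * |h i - y| * (1 / h i) ≤ A * B * (4 / c * (1 / j)) :=
      mul_le_mul (mul_le_mul_of_nonneg_left hd hA) hinv hinv0 (by positivity)
    have h3 := mul_le_mul h2 hyinv (by positivity : 0 ≤ 1 / y) (by positivity)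
    refine h3.trans (le_of_eq ?_)
    field_simp
  have t2 : C4 * (ρ i + 1 / h i) / h i ≤
      C4 * (C4 + 4 / c) * (4 / c) * (L + 1) * (1 / (j : ℝ) ^ 2) +
        C4 * R * (4 / c) * (1 / 4) ^ i := by
    have h2 : 1 / ((q : ℝ) + 1) ≤ (L + 1) * (1 / j) := by
      rw [mul_one_div, div_le_div_iff₀ (by positivity) hj0]
      nlinarith [mul_nonneg hL0 hq0']
    have h3 : ρ i + 1 / h i ≤ (1 / 4) ^ i * R + (C4 + 4 / c) * ((L + 1) * (1 / j)) := by
      have h4 : C4 / (q + 1) ≤ C4 * ((L + 1) * (1 / j)) := by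
        rw [← mul_one_div]
        exact mul_le_mul_of_nonneg_left h2 hC
      have h5 : 4 / c * (1 / j) ≤ 4 / c * ((L + 1) * (1 / j)) := by
        refine mul_le_mul_of_nonneg_left ?_ (by positivity)
        have : (0 : ℝ) ≤ 1 / j := by positivity
        nlinarith
      nlinarith
    have h5 : C4 * (ρ i + 1 / h i) / h i = C4 * (ρ i + 1 / h i) * (1 / h i) := by ring
    rw [h5]
    have h6 : C4 * (ρ i + 1 / h i) * (1 / h i) ≤
        C4 * ((1 / 4) ^ i * R + (C4 + 4 / c) * ((L + 1) * (1 / j))) * (4 / c * (1 / j)) :=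
      mul_le_mul (mul_le_mul_of_nonneg_left h3 hC) hinv hinv0 (by positivity)
    refine h6.trans ?_
    have h7 : C4 * ((1 / 4) ^ i * R + (C4 + 4 / c) * ((L + 1) * (1 / j))) * (4 / c * (1 / j)) =
        C4 * (C4 + 4 / c) * (4 / c) * (L + 1) * (1 / (j : ℝ) ^ 2) +
          C4 * R * (4 / c) * (1 / 4) ^ i * (1 / j) := by
      field_simp
      ring
    rw [h7]
    refine add_le_add le_rfl ?_
    have h8 : (1 : ℝ) / j ≤ 1 := by
      rw [div_le_one hj0]; exact hj1r
    have h9 : 0 ≤ C4 * R * (4 / c) * (1 / 4 : ℝ) ^ i := by positivity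
    nlinarith
  have t3 : C4 * (ρ i + 1 / h i) / h i + A * B * (4 / c) / c * (1 / (j : ℝ) ^ 2) ≤
      C6 / j ^ 2 + C6 * (1 / 4) ^ i := by
    have h2 : 0 ≤ (1 : ℝ) / (j : ℝ) ^ 2 := by positivity
    have h3 : (0 : ℝ) ≤ (1 / 4) ^ i := by positivity
    have h4 : 0 ≤ A * B * (4 / c) / c := by positivity
    have h5 : 0 ≤ C4 * (C4 + 4 / c) * (4 / c) * (L + 1) := by positivity
    have h6 : 0 ≤ C4 * R * (4 / c) := by positivity
    have e2 : C6 / j ^ 2 + C6 * (1 / 4) ^ i =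
        A * B * (4 / c) / c * (1 / (j : ℝ) ^ 2) +
        C4 * (C4 + 4 / c) * (4 / c) * (L + 1) * (1 / (j : ℝ) ^ 2) +
        C4 * R * (4 / c) * (1 / 4) ^ i + (C4 * R * (4 / c) * (1 / (j : ℝ) ^ 2) +
          (A * B * (4 / c) / c + C4 * (C4 + 4 / c) * (4 / c) * (L + 1)) * (1 / 4) ^ i) := by
      rw [hC6]; ring
    rw [e2]
    have h7 := mul_nonneg h6 h2
    have h8 := mul_nonneg (add_nonneg h4 h5) h3
    linarith
  linarith

/-- **The limit along a subsequence** -/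
theorem compact3 (S : Cst D P c b A R H C4 K hq) (ho : Obs μ χ) {m : ℕ} (hg : Gen D m 1)
    (hnb : ∀ δ : ℝ, 0 < δ → {g : G | ∃ X, qf X ≤ δ ∧ g = D.E X} ∈ 𝓝 (1 : G))
    {Zs : ℕ → G → ℝ} {lv : ℕ → ℕ} {L : ℕ} (hadm : ∀ i, Adm (Zs i))
    (hl : Tendsto lv atTop atTop) (htj : ∀ᶠ i in atTop, ∃ T J h ρ,
      TJ μ χ D P c b A R H C4 K hq (Zs i) T J h ρ ∧ lv i ≤ J + L ∧ J ≤ lv i + L) :
    ∃ (φ : ℕ → ℕ) (Fk : ℤ → G → ℝ), StrictMono φ ∧ LimP μ χ D c b A Fk ∧
      ∀ k : ℤ, UT (fun i x => nrm μ (TTn μ (Zs (φ i)) ((lv (φ i) : ℤ) + k).toNat) x) (Fk k) := by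
  have hC := S.C_nn
  have hc := S.c_pos
  have hA := S.A_nn
  have hR := S.R_nn
  have hb := S.b_np
  obtain ⟨N0, hN0⟩ := eventually_atTop.1 htj
  have hpk : ∀ i, ∃ T J h ρ, TJ μ χ D P c b A R H C4 K hq (Zs (N0 + i)) T J h ρ ∧
      lv (N0 + i) ≤ J + L ∧ J ≤ lv (N0 + i) + L := fun i => hN0 (N0 + i) (by omega)
  choose T J h ρ pk hL1 hL2 using hpk
  choose Kf hKf0 hKf using fun i => unif_SC3 (μ := μ) (χ := χ) S hg i
  -- the sequence of the functions
  set idx : ℕ → ℤ → ℕ := fun i k => ((lv (N0 + i) : ℤ) + k).toNat with hidx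
  set Z : ℕ → ℤ → G → ℝ := fun i k => TTn μ (Zs (N0 + i)) (idx i k) with hZ
  have hZA : ∀ i k, Adm (Z i k) := fun i k => (hadm _).TTn _
  set Fn : ℕ → ℤ → (G →ᵇ ℝ) := fun i k =>
    if 0 ≤ (lv (N0 + i) : ℤ) + k then mkOfCompact ⟨nrm μ (Z i k), (hZA i k).nrm.cont⟩
    else BoundedContinuousFunction.const G 1 with hFn
  have hFn1 : ∀ i k, 0 ≤ (lv (N0 + i) : ℤ) + k → ((Fn i k : G →ᵇ ℝ) : G → ℝ) = nrm μ (Z i k) := by
    intro i k hik
    rw [hFn]
    simp only [hik, if_true]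
    rfl
  have hSCZ : ∀ i k, 0 ≤ (lv (N0 + i) : ℤ) + k → SC D (Kf (L + k.natAbs)) (Z i k) := by
    intro i k hik
    refine hKf (L + k.natAbs) _ _ _ _ _ (hadm _) (pk i) _ ?_
    have h1 := hL2 i
    have h2 : (idx i k : ℤ) = (lv (N0 + i) : ℤ) + k := Int.toNat_of_nonneg hik
    omega
  have hmem : ∀ i k, Fn i k ∈ SS μ D (Kf (L + k.natAbs)) := by
    intro i k
    by_cases hik : 0 ≤ (lv (N0 + i) : ℤ) + k
    · have h1 := hFn1 i k hik
      refine ⟨?_, ?_, ?_⟩
      · rw [h1]; exact (hZA i k).nrm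
      · rw [h1]
        exact SC.smul (inv_pos.2 (hZA i k).ipos) (hZA i k).pos (hSCZ i k hik)
      · rw [h1]; exact int_nrm (hZA i k)
    · have h1 : ((Fn i k : G →ᵇ ℝ) : G → ℝ) = fun _ => 1 := by
        rw [hFn]
        simp only [hik, if_false]
        rfl
      refine ⟨?_, ?_, ?_⟩
      · rw [h1]
        exact ⟨continuous_const, fun _ => one_pos, fun _ _ => rfl, fun _ => rfl⟩
      · rw [h1]
        intro X x
        have := mul_nonneg (hKf0 (L + k.natAbs)) (qf_nonneg X)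
        simp only [Real.log_one]
        linarith
      · rw [h1]; simp
  -- compactness
  have hcomp : IsCompact (Set.pi Set.univ fun k : ℤ => closure (SS μ D (Kf (L + k.natAbs)))) :=
    isCompact_univ_pi fun k => SS_compact hg hnb (hKf0 _)
  obtain ⟨x, -, φ0, hφ0, hlim⟩ := hcomp.tendsto_subseq (x := Fn)
    (fun i k _ => subset_closure (hmem i k))
  have hlimk : ∀ k, Tendsto (fun i => Fn (φ0 i) k) atTop (𝓝 (x k)) := fun k =>
    (tendsto_pi_nhds.1 hlim) k
  have hxS : ∀ k, x k ∈ SS μ D (Kf (L + k.natAbs)) := fun k =>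
    SS_limit hg (hKf0 _) (Eventually.of_forall fun i => hmem _ k) (hlimk k)
  have hφt : Tendsto (fun i => lv (N0 + φ0 i)) atTop atTop :=
    hl.comp (tendsto_atTop_mono (fun i => Nat.le_add_left (φ0 i) N0) hφ0.tendsto_atTop)
  have hevk : ∀ k : ℤ, ∀ᶠ i in atTop, 0 ≤ (lv (N0 + φ0 i) : ℤ) + k := by
    intro k
    filter_upwards [hφt.eventually (eventually_ge_atTop k.natAbs)] with i hi
    omega
  have hLm : ∀ k, Lm (Real.exp (2 ^ m * Kf (L + k.natAbs))) (fun i => (Fn (φ0 i) k : G → ℝ))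
      (x k) := by
    intro k
    refine ⟨fun i => (Fn _ k).continuous, fun i y => ?_, (x k).continuous, fun y => ?_⟩
    · have h1 := hmem (φ0 i) k
      rw [abs_of_pos (h1.1.pos y)]
      exact (SS_bounds (μ := μ) hg (hKf0 _) h1.1 h1.2.1 h1.2.2 y).2
    · exact (BoundedContinuousFunction.tendsto_iff_tendstoUniformly.1 (hlimk k)).tendsto_at y
  have hWlim : ∀ k, Tendsto (fun i => WW μ χ (Fn (φ0 i) k)) atTop (𝓝 (WW μ χ (x k))) := fun k =>
    (hLm k).WW ho (by rw [(hxS k).2.2]; norm_num)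
  have hWZ : ∀ k, ∀ᶠ i in atTop, WW μ χ (Fn (φ0 i) k) = WW μ χ (Z (φ0 i) k) := by
    intro k
    filter_upwards [hevk k] with i hi
    rw [hFn1 _ _ hi, WW_nrm (hZA _ _)]
  have hWlimZ : ∀ k, Tendsto (fun i => WW μ χ (Z (φ0 i) k)) atTop (𝓝 (WW μ χ (x k))) := fun k =>
    (hWlim k).congr' (hWZ k)
  have hWpos : ∀ k, 0 < WW μ χ (x k) := by
    intro k
    obtain ⟨δ, hδ, hδ2⟩ := unif_W3 (μ := μ) (χ := χ) S ho hg (L + k.natAbs)
    refine hδ.trans_le (ge_of_tendsto (hWlimZ k) ?_)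
    filter_upwards [hevk k] with i hi
    refine hδ2 _ _ _ _ _ (hadm _) (pk (φ0 i)) _ ?_
    have h1 := hL1 (φ0 i)
    have h2 : (idx (φ0 i) k : ℤ) = (lv (N0 + φ0 i) : ℤ) + k := Int.toNat_of_nonneg hi
    omega
  refine ⟨fun i => N0 + φ0 i, fun k => x k, ?_, ⟨fun k => (hxS k).1, fun k => (hxS k).2.2,
    fun k => ?_, fun k => ⟨Kf (L + k.natAbs), hKf0 _, (hxS k).2.1⟩, fun k => ⟨hWpos k, ?_⟩, ?_⟩,
    fun k => ?_⟩
  · intro a b hab
    have := hφ0 hab
    show N0 + φ0 a < N0 + φ0 b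
    omega
  · funext y
    have h1 : Tendsto (fun i => nrm μ (TT μ (Fn (φ0 i) k)) y) atTop
        (𝓝 (nrm μ (TT μ (x k)) y)) := by
      have h2 := (hLm k).TT (μ := μ)
      have h3 := h2.int (μ := μ)
      have h4 : ∫ z, TT μ (x k) z ∂μ ≠ 0 := ((hxS k).1.TT (μ := μ)).ipos.ne'
      exact (h3.inv₀ h4).mul (h2.l y)
    have h2 : Tendsto (fun i => (Fn (φ0 i) (k + 1) : G → ℝ) y) atTop (𝓝 (x (k + 1) y)) :=
      (hLm (k + 1)).l y
    refine tendsto_nhds_unique h2 (h1.congr' ?_)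
    filter_upwards [hevk k, hevk (k + 1)] with i hi hi'
    rw [hFn1 _ _ hi, hFn1 _ _ hi', nrm_TT_nrm (hZA _ _)]
    have e : idx (φ0 i) (k + 1) = idx (φ0 i) k + 1 := by
      rw [hidx]
      beta_reduce
      omega
    have e2 : Z (φ0 i) (k + 1) = TT μ (Z (φ0 i) k) := by
      rw [hZ]
      beta_reduce
      rw [e]
      rfl
    rw [e2]
  · have h1 := (hxS k).1
    have h2 := (hxS k).2.1
    have h3 := WW_le_osc ho h1 (Λ := 2 ^ m * Kf (L + k.natAbs)) fun y z => by
      simpa using h2.osc zero_le_one hg (hKf0 _) h1.cont h1.pos y z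
    have := Real.exp_pos (-(2 ^ m * Kf (L + k.natAbs)))
    linarith
  · obtain ⟨j0, C6, hj0L, hj01, hC6, haf⟩ := af_bound3 (μ := μ) (χ := χ) S L
    have hlim1 : ∀ j : ℕ, j0 ≤ j →
        |1 - WW μ χ (x (-j)) - A / (c * j - b / c * Real.log j)| ≤ C6 / j ^ 2 := by
      intro j hj
      have h1 : Tendsto (fun i => |1 - WW μ χ (Z (φ0 i) (-j)) -
          A / (c * j - b / c * Real.log j)|) atTop
          (𝓝 |1 - WW μ χ (x (-j)) - A / (c * j - b / c * Real.log j)|) :=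
        ((hWlimZ (-j)).const_sub 1 |>.sub_const _).abs
      have h2 : Tendsto (fun i => C6 / (j : ℝ) ^ 2 +
          C6 * (1 / 4 : ℝ) ^ (idx (φ0 i) (-j))) atTop (𝓝 (C6 / (j : ℝ) ^ 2 + C6 * 0)) := by
        refine Tendsto.const_add _ (Tendsto.const_mul _ ?_)
        refine (tendsto_pow_atTop_nhds_zero_of_lt_one (by norm_num) (by norm_num)).comp ?_
        rw [tendsto_atTop]
        intro B
        filter_upwards [hφt.eventually (eventually_ge_atTop (B + j))] with i hi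
        rw [hidx]
        beta_reduce
        omega
      rw [mul_zero, add_zero] at h2
      refine le_of_tendsto_of_tendsto h1 h2 ?_
      filter_upwards [hevk (-j)] with i hi
      have h3 : (idx (φ0 i) (-j) : ℤ) = (lv (N0 + φ0 i) : ℤ) + (-j) := Int.toNat_of_nonneg hi
      have h4 := hL1 (φ0 i)
      have h5 := hL2 (φ0 i)
      exact haf _ _ _ _ _ (pk (φ0 i)) _ j hj (by omega) (by omega)
    refine ⟨C6 + (2 + A / c) * j0 ^ 2, by positivity, fun j hj => ?_⟩
    have hj1 : (1 : ℝ) ≤ j := by exact_mod_cast hj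
    have hlj : 0 ≤ Real.log j := Real.log_nonneg hj1
    have hj2 : (0 : ℝ) < j ^ 2 := by positivity
    rcases le_or_gt j0 j with h1 | h1
    · refine (hlim1 j h1).trans ?_
      refine div_le_div_of_nonneg_right ?_ hj2.le
      have : 0 ≤ (2 + A / c) * (j0 : ℝ) ^ 2 := by positivity
      linarith
    · have hW1 := WW_le_one ho (hxS (-j)).1
      have hW0 := (hWpos (-j)).le
      have hy : c * 1 ≤ c * j - b / c * Real.log j := by
        have a1 : 0 ≤ -b / c * Real.log j := mul_nonneg (div_nonneg (by linarith) hc.le) hlj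
        have e : -b / c * Real.log j = -(b / c * Real.log j) := by ring
        have a2 := mul_le_mul_of_nonneg_left hj1 hc.le
        linarith
      have h2 : |1 - WW μ χ (x (-j)) - A / (c * j - b / c * Real.log j)| ≤ 2 + A / c := by
        have hy0 : 0 < c * j - b / c * Real.log j := by linarith
        have h3 : 0 ≤ A / (c * j - b / c * Real.log j) := by positivity
        have h4 : A / (c * j - b / c * Real.log j) ≤ A / c := by
          refine div_le_div_of_nonneg_left hA hc ?_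
          linarith
        rw [abs_le]
        constructor <;> linarith
      refine h2.trans ?_
      rw [le_div_iff₀ hj2]
      have h3 : (j : ℝ) ^ 2 ≤ (j0 : ℝ) ^ 2 := by
        have : (j : ℝ) ≤ j0 := by exact_mod_cast h1.le
        exact pow_le_pow_left₀ (by positivity) this 2
      have h4 : 0 ≤ 2 + A / c := by positivity
      have h5 := mul_le_mul_of_nonneg_left h3 h4
      linarith
  · have h1 := BoundedContinuousFunction.tendsto_iff_tendstoUniformly.1 (hlimk k)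
    intro ε hε
    filter_upwards [hevk k, Metric.tendstoUniformly_iff.1 h1 ε hε] with i hi h2 y
    have h3 := h2 y
    beta_reduce at h3
    rw [hFn1 _ _ hi, dist_comm, Real.dist_eq] at h3
    exact h3

end

end Pool.Agent.N989.MK
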