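import Mathlib

/-!
# Growth of the difference of two trajectories (real sequences)
-/

open Finset

namespace Pool.Agent.N989.MK

noncomputable section

/-- the growth of the differences of the couplings `x` and of the remainders `l`, with
`E i = (ρ i + σ i + 1 / h i) / h i` -/
theorem pair_growth {C' hq : ℝ} (hC : 0 ≤ C') (hCq : 8 * C' ≤ hq) (hq0 : 0 < hq) {n : ℕ}
    {x l h e : ℕ → ℝ} (hx : ∀ i, 0 ≤ x i) (hl : ∀ i ≤ n, 0 ≤ l i)
    (he : ∀ i < n, 0 ≤ e i) (hh : ∀ i ≤ n, hq ≤ h i) (hst : ∀ i < n, 3 / 4 * h i ≤ h (i + 1))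
    (he1 : ∀ i < n, 1 / h i ≤ e i)
    (h1 : ∀ i < n, l (i + 1) ≤ l i / 4 + C' * (x i + l i) / h i)
    (h2 : ∀ i < n, x (i + 1) ≤ x i + C' * (x i * e i + l i) / h i) :
    ∀ i ≤ n, x i + 2 * C' * l i / h i ≤
      Real.exp ((C' + 4 * C' ^ 2) * ∑ j ∈ range i, e j / h j) * (x 0 + 2 * C' * l 0 / h 0) := by
  intro i
  induction i with
  | zero => intro _; simp
  | succ i ih =>
    intro hi
    have ih := ih (by omega)
    have hi' : i < n := by omega
    have a1 := hh i (by omega)
    have a2 := hh (i + 1) hi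
    have a3 := hst i hi'
    have p1 : 0 < h i := by linarith
    have p2 : 0 < h (i + 1) := by linarith
    have b1 := h1 i hi'
    have b2 := h2 i hi'
    have hxi := hx i
    have hli := hl i (by omega)
    have hei := he i hi'
    have hei1 := he1 i hi'
    obtain ⟨V, hV⟩ : ∃ V, V = x i + 2 * C' * l i / h i := ⟨_, rfl⟩
    have hV0 : 0 ≤ V := by rw [hV]; positivity
    -- the step
    have hinv : 1 / h (i + 1) ≤ 4 / 3 * (1 / h i) := by
      rw [div_le_iff₀ p2]
      have : 4 / 3 * (1 / h i) * h (i + 1) = 4 / 3 * h (i + 1) / h i := by ring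
      rw [this, le_div_iff₀ p1]
      linarith
    have hC8 : C' / h i ≤ 1 / 8 := by
      rw [div_le_iff₀ p1]
      linarith
    have c1 : l (i + 1) ≤ 3 / 8 * l i + C' / h i * x i := by
      have e1 : C' * (x i + l i) / h i = C' / h i * x i + C' / h i * l i := by ring
      rw [e1] at b1
      have := mul_le_mul_of_nonneg_right hC8 hli
      linarith
    have c2 : 2 * C' * l (i + 1) / h (i + 1) ≤
        2 * C' * (3 / 8 * l i + C' / h i * x i) * (4 / 3 * (1 / h i)) := by
      have e1 : 2 * C' * l (i + 1) / h (i + 1) = 2 * C' * l (i + 1) * (1 / h (i + 1)) := by ring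
      rw [e1]
      have hl1 := hl (i + 1) hi
      refine mul_le_mul (mul_le_mul_of_nonneg_left c1 (by positivity)) hinv (by positivity) ?_
      positivity
    have c3 : x (i + 1) + 2 * C' * l (i + 1) / h (i + 1) ≤
        x i + C' * (x i * e i + l i) / h i + 2 * C' * (3 / 8 * l i + C' / h i * x i) *
          (4 / 3 * (1 / h i)) := by linarith
    have c4 : x i + C' * (x i * e i + l i) / h i + 2 * C' * (3 / 8 * l i + C' / h i * x i) *
          (4 / 3 * (1 / h i)) = x i + 2 * C' * l i / h i + C' * (e i / h i) * x i +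
          8 / 3 * C' ^ 2 * (1 / h i) * (1 / h i) * x i := by
      field_simp
      ring
    have c5 : 8 / 3 * C' ^ 2 * (1 / h i) * (1 / h i) * x i ≤ 4 * C' ^ 2 * (e i / h i) * x i := by
      have e1 : e i / h i = e i * (1 / h i) := by ring
      rw [e1]
      have g1 : (1 / h i) * (1 / h i) ≤ e i * (1 / h i) :=
        mul_le_mul_of_nonneg_right hei1 (by positivity)
      have g2 : 0 ≤ C' ^ 2 * x i := by positivity
      have g3 := mul_le_mul_of_nonneg_left g1 g2
      have g4 : 0 ≤ C' ^ 2 * x i * (e i * (1 / h i)) := by positivity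
      nlinarith
    have c6 : x (i + 1) + 2 * C' * l (i + 1) / h (i + 1) ≤
        (1 + (C' + 4 * C' ^ 2) * (e i / h i)) * V := by
      have hxV : x i ≤ V := by
        rw [hV]
        have : 0 ≤ 2 * C' * l i / h i := by positivity
        linarith
      have g5 : (C' + 4 * C' ^ 2) * (e i / h i) * x i ≤ (C' + 4 * C' ^ 2) * (e i / h i) * V :=
        mul_le_mul_of_nonneg_left hxV (by positivity)
      rw [c4] at c3
      rw [← hV] at c3
      linarith
    have c7 : 1 + (C' + 4 * C' ^ 2) * (e i / h i) ≤ Real.exp ((C' + 4 * C' ^ 2) * (e i / h i)) := by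
      have := Real.add_one_le_exp ((C' + 4 * C' ^ 2) * (e i / h i))
      linarith
    have e5 : Real.exp ((C' + 4 * C' ^ 2) * ∑ j ∈ range (i + 1), e j / h j) =
        Real.exp ((C' + 4 * C' ^ 2) * ∑ j ∈ range i, e j / h j) *
          Real.exp ((C' + 4 * C' ^ 2) * (e i / h i)) := by
      rw [sum_range_succ, ← Real.exp_add]
      congr 1
      ring
    rw [e5]
    refine c6.trans ?_
    have c8 := mul_le_mul c7 ih (by rw [← hV]; exact hV0) (Real.exp_pos _).le
    rw [← hV] at c8
    refine c8.trans (le_of_eq ?_)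
    ring

/-- the decay of the remainders -/
theorem pair_decay {C' hq X : ℝ} (hC : 0 ≤ C') (hCq : 8 * C' ≤ hq) (hq0 : 0 < hq) {n : ℕ}
    {x l h : ℕ → ℝ} (hl : ∀ i ≤ n, 0 ≤ l i) (hh : ∀ i ≤ n, hq ≤ h i) (hX : ∀ i ≤ n, x i ≤ X)
    (hX0 : 0 ≤ X)
    (h1 : ∀ i < n, l (i + 1) ≤ l i / 4 + C' * (x i + l i) / h i) :
    ∀ i ≤ n, l i ≤ (3 / 8) ^ i * l 0 + X := by
  intro i
  induction i with
  | zero => intro _; simp; exact hX0
  | succ i ih =>
    intro hi
    have ih := ih (by omega)
    have a1 := hh i (by omega)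
    have p1 : 0 < h i := by linarith
    have b1 := h1 i (by omega)
    have hC8 : C' / h i ≤ 1 / 8 := by
      rw [div_le_iff₀ p1]
      linarith
    have hC0 : 0 ≤ C' / h i := by positivity
    have e1 : C' * (x i + l i) / h i = C' / h i * x i + C' / h i * l i := by ring
    rw [e1] at b1
    have g1 := mul_le_mul_of_nonneg_right hC8 (hl i (by omega))
    have g2 := mul_le_mul_of_nonneg_left (hX i (by omega)) hC0
    have g3 := mul_le_mul_of_nonneg_right hC8 hX0
    rw [pow_succ]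
    linarith

/-- the combined estimate of a pair of trajectories -/
theorem pair_real3 {C' hq C4 : ℝ} (hC : 0 ≤ C') (hCq : 8 * C' ≤ hq) (hq0 : 0 < hq) {n : ℕ}
    {h ρ k σ l : ℕ → ℝ} (hh : ∀ i ≤ n, hq ≤ h i) (hk : ∀ i ≤ n, hq ≤ k i)
    (hρ : ∀ i ≤ n, 0 ≤ ρ i) (hσ : ∀ i ≤ n, 0 ≤ σ i) (hl : ∀ i ≤ n, 0 ≤ l i)
    (hk2 : ∀ i ≤ n, k i ≤ 2 * h i) (hst : ∀ i < n, 3 / 4 * h i ≤ h (i + 1))
    (s1 : ∀ i ≤ n, ∑ j ∈ range i, (ρ j + 1 / h j) / h j ≤ C4)
    (s2 : ∀ i ≤ n, ∑ j ∈ range i, (σ j + 1 / k j) / k j ≤ C4)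
    (l3 : ∀ i < n, l (i + 1) ≤ l i / 4 + C' * (|h i - k i| + l i) / h i)
    (l4 : ∀ i < n, |(h (i + 1) - k (i + 1)) - (h i - k i)| ≤
        C' * (|h i - k i| * (ρ i + σ i + 1 / h i) + l i) / h i) :
    |h n - k n| + l n ≤ 2 * (Real.exp ((C' + 4 * C' ^ 2) * (3 * C4)) *
      (|h 0 - k 0| + 2 * C' * l 0 / h 0)) + (3 / 8) ^ n * l 0 := by
  obtain ⟨E, hE⟩ : ∃ E : ℝ, E = Real.exp ((C' + 4 * C' ^ 2) * (3 * C4)) := ⟨_, rfl⟩
  have hE0 : 0 < E := by rw [hE]; exact Real.exp_pos _
  obtain ⟨V, hV⟩ : ∃ V : ℝ, V = |h 0 - k 0| + 2 * C' * l 0 / h 0 := ⟨_, rfl⟩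
  have hh0 : 0 < h 0 := by linarith [hh 0 (by omega)]
  have hV0 : 0 ≤ V := by
    have := hl 0 (by omega)
    rw [hV]
    positivity
  have hgr := pair_growth (n := n) (x := fun i => |h i - k i|) (l := l) (h := h)
    (e := fun i => ρ i + σ i + 1 / h i) hC hCq hq0 (fun i => abs_nonneg _) hl
    (fun i hi => by
      have a1 := hρ i hi.le
      have a2 := hσ i hi.le
      have a3 : 0 < h i := by linarith [hh i hi.le]
      positivity) hh hst
    (fun i hi => by
      have a1 := hρ i hi.le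
      have a2 := hσ i hi.le
      show 1 / h i ≤ ρ i + σ i + 1 / h i
      linarith) l3
    (fun i hi => by
      have a1 := l4 i hi
      have a2 := abs_sub_abs_le_abs_sub (h (i + 1) - k (i + 1)) (h i - k i)
      show |h (i + 1) - k (i + 1)| ≤ |h i - k i| +
        C' * (|h i - k i| * (ρ i + σ i + 1 / h i) + l i) / h i
      linarith)
  have hsum : ∀ i ≤ n, ∑ j ∈ range i, (ρ j + σ j + 1 / h j) / h j ≤ 3 * C4 := by
    intro i hi
    have s5 : ∑ j ∈ range i, (ρ j + σ j + 1 / h j) / h j ≤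
        ∑ j ∈ range i, ((ρ j + 1 / h j) / h j + 2 * ((σ j + 1 / k j) / k j)) := by
      refine sum_le_sum fun j hj => ?_
      have hj' : j ≤ n := by have := mem_range.1 hj; omega
      have b1 := hh j hj'
      have b2 := hk j hj'
      have b3 := hσ j hj'
      have b5 := hk2 j hj'
      have b6 : 0 < h j := by linarith
      have b7 : 0 < k j := by linarith
      have b8 : σ j / h j ≤ 2 * (σ j / k j) := by
        rw [mul_div_assoc', div_le_div_iff₀ b6 b7]
        calc σ j * k j ≤ σ j * (2 * h j) := mul_le_mul_of_nonneg_left b5 b3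
          _ = 2 * σ j * h j := by ring
      have b9 : σ j / k j ≤ (σ j + 1 / k j) / k j := by
        refine div_le_div_of_nonneg_right ?_ b7.le
        have : 0 ≤ 1 / k j := by positivity
        linarith
      have e1 : (ρ j + σ j + 1 / h j) / h j = (ρ j + 1 / h j) / h j + σ j / h j := by ring
      rw [e1]
      linarith
    refine s5.trans ?_
    rw [sum_add_distrib, ← mul_sum]
    have := s1 i hi
    have := s2 i hi
    linarith
  have hxV : ∀ i ≤ n, |h i - k i| ≤ E * V := by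
    intro i hi
    have g1 := hgr i hi
    beta_reduce at g1
    rw [← hV] at g1
    have g2 : Real.exp ((C' + 4 * C' ^ 2) * ∑ j ∈ range i, (ρ j + σ j + 1 / h j) / h j) ≤ E := by
      rw [hE]
      exact Real.exp_le_exp.2 (mul_le_mul_of_nonneg_left (hsum i hi) (by positivity))
    have g3 : 0 ≤ 2 * C' * l i / h i := by
      have := hl i hi
      have : 0 < h i := by linarith [hh i hi]
      positivity
    have g4 := mul_le_mul_of_nonneg_right g2 hV0
    linarith
  have hdec := pair_decay (n := n) (x := fun i => |h i - k i|) (l := l) (h := h) (X := E * V)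
    hC hCq hq0 hl hh hxV (by positivity) l3 n le_rfl
  have hx := hxV n le_rfl
  rw [← hV, ← hE]
  linarith

end

end Pool.Agent.N989.MK
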