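import Mathlib
import Pool.Agent.N989.MK.Lim3
import Pool.Agent.N989.MK.PairG

/-!
# The comparison of two trajectories with almost the same time
-/

open MeasureTheory Pool.Agent.N991.MK Filter
open scoped Topology

namespace Pool.Agent.N989.MK

set_option linter.unusedSectionVars false

noncomputable section

variable {c b A R H C4 K hq : ℝ}

/-- the coupling is a Lipschitz function of the time -/
lemma psi_inv {q x y : ℝ} (hc : 0 < c) (hq0 : 0 < q) (hqb : 2 * |b| ≤ c * q) (hx : q ≤ x)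
    (hy : q ≤ y) : |x - y| ≤ 2 * c * |PsiT c b x - PsiT c b y| := by
  have hx0 : 0 < x := by linarith
  have hy0 : 0 < y := by linarith
  have h1 : |Real.log x - Real.log y| ≤ |x - y| / q := by
    have k1 : Real.log x - Real.log y = Real.log (x / y) := (Real.log_div hx0.ne' hy0.ne').symm
    have k2 := Real.log_le_sub_one_of_pos (show 0 < x / y by positivity)
    have k3 := Real.one_sub_inv_le_log_of_pos (show 0 < x / y by positivity)
    rw [inv_div] at k3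
    have a1 := neg_abs_le (x - y)
    have a2 := le_abs_self (x - y)
    have a0 := abs_nonneg (x - y)
    have k4 : x / y - 1 ≤ |x - y| / q := by
      have e : x / y - 1 = (x - y) / y := by field_simp
      rw [e]
      calc (x - y) / y ≤ |x - y| / y := div_le_div_of_nonneg_right a2 hy0.le
        _ ≤ |x - y| / q := div_le_div_of_nonneg_left a0 hq0 hy
    have k5 : -(|x - y| / q) ≤ 1 - y / x := by
      have e : 1 - y / x = (x - y) / x := by field_simp
      rw [e]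
      have h2 : |x - y| / x ≤ |x - y| / q := div_le_div_of_nonneg_left a0 hq0 hx
      have h3 : -(|x - y| / x) ≤ (x - y) / x := by
        rw [← neg_div]
        exact div_le_div_of_nonneg_right a1 hx0.le
      linarith
    rw [k1, abs_le]
    constructor <;> linarith
  have e : (x - y) / c = (PsiT c b x - PsiT c b y) - b / c ^ 2 * (Real.log x - Real.log y) := by
    unfold PsiT
    ring
  have h2 : |x - y| / c ≤ |PsiT c b x - PsiT c b y| + |b| / c ^ 2 * (|x - y| / q) := by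
    have h3 : |x - y| / c = |(x - y) / c| := by rw [abs_div, abs_of_pos hc]
    rw [h3, e]
    refine (abs_sub _ _).trans (add_le_add le_rfl ?_)
    rw [abs_mul, abs_div, abs_of_pos (by positivity : 0 < c ^ 2)]
    exact mul_le_mul_of_nonneg_left h1 (by positivity)
  have h4 : |b| / c ^ 2 * (|x - y| / q) ≤ |x - y| / (2 * c) := by
    have e2 : |b| / c ^ 2 * (|x - y| / q) = |b| / (c * q) * (|x - y| / c) := by
      field_simp
    have e3 : |x - y| / (2 * c) = 1 / 2 * (|x - y| / c) := by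
      field_simp
    rw [e2, e3]
    refine mul_le_mul_of_nonneg_right ?_ (by positivity)
    rw [div_le_iff₀ (by positivity)]
    linarith
  have h5 : |x - y| / (2 * c) ≤ |PsiT c b x - PsiT c b y| := by
    have e3 : |x - y| / c = |x - y| / (2 * c) + |x - y| / (2 * c) := by
      field_simp
      ring
    linarith
  rw [div_le_iff₀ (by positivity)] at h5
  linarith

variable {G : Type*} [Group G] [TopologicalSpace G] [IsTopologicalGroup G] [CompactSpace G]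
  [MeasurableSpace G] [BorelSpace G] [SecondCountableTopology G]
  {μ : Measure G} [IsProbabilityMeasure μ] [μ.IsHaarMeasure] [μ.IsMulRightInvariant]
  [μ.IsInvInvariant] {χ : G → ℝ} {n : ℕ} {D : ED G n}
  {P : (G → ℝ) → ℝ → ℝ → Prop} {Q : (G → ℝ) → (G → ℝ) → ℝ → ℝ → ℝ → Prop}
  {h1 ε C' c0 : ℝ} {Dm : ℕ}

/-- the sequence of the errors of a pair of trajectories -/
lemma pair_seq3 (PF : PairFlow3 μ χ P Q h1 ε C' c0 Dm) {F F' : ℕ → G → ℝ} {nn : ℕ}
    {h ρ k σ : ℕ → ℝ} (hF : ∀ i < nn, F (i + 1) = TT μ (F i))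
    (hF' : ∀ i < nn, F' (i + 1) = TT μ (F' i)) (p : ∀ i ≤ nn, P (F i) (h i) (ρ i))
    (p' : ∀ i ≤ nn, P (F' i) (k i) (σ i)) (hh : ∀ i ≤ nn, h1 ≤ h i) (hk : ∀ i ≤ nn, h1 ≤ k i)
    (hap : ∀ i ≤ nn, |h i - k i| ≤ ε * h i) :
    ∃ l : ℕ → ℝ, l 0 ≤ C' * (1 + ρ 0 * h 0 + σ 0 * k 0) ∧
      (∀ i ≤ nn, Q (F i) (F' i) (h i) (k i) (l i)) ∧
      (∀ i < nn, l (i + 1) ≤ l i / 4 + C' * (|h i - k i| + l i) / h i) ∧
      (∀ i < nn, |(h (i + 1) - k (i + 1)) - (h i - k i)| ≤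
        C' * (|h i - k i| * (ρ i + σ i + 1 / h i) + l i) / h i) := by
  have key : ∀ m ≤ nn, ∃ l : ℕ → ℝ, l 0 ≤ C' * (1 + ρ 0 * h 0 + σ 0 * k 0) ∧
      (∀ i ≤ m, Q (F i) (F' i) (h i) (k i) (l i)) ∧
      (∀ i < m, l (i + 1) ≤ l i / 4 + C' * (|h i - k i| + l i) / h i) ∧
      (∀ i < m, |(h (i + 1) - k (i + 1)) - (h i - k i)| ≤
        C' * (|h i - k i| * (ρ i + σ i + 1 / h i) + l i) / h i) := by
    intro m
    induction m with
    | zero =>
      intro _
      obtain ⟨l, hl1, hl2⟩ := PF.init _ _ _ _ _ _ (p 0 (by omega)) (p' 0 (by omega))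
        (hh 0 (by omega)) (hk 0 (by omega)) (hap 0 (by omega))
      refine ⟨fun _ => l, hl1, fun i hi => ?_,
        fun i hi => absurd hi (by omega), fun i hi => absurd hi (by omega)⟩
      obtain rfl : i = 0 := by omega
      exact hl2
    | succ m ih =>
      intro hm
      obtain ⟨l, l1, l2, l3, l4⟩ := ih (by omega)
      have q1 := p (m + 1) hm
      have q2 := p' (m + 1) hm
      rw [hF m (by omega)] at q1
      rw [hF' m (by omega)] at q2
      obtain ⟨l', b1, b2, b3⟩ := PF.step _ _ _ _ _ _ _ _ _ _ _ (p m (by omega))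
        (p' m (by omega)) q1 q2 (l2 m le_rfl) (hh m (by omega)) (hk m (by omega))
        (hap m (by omega))
      refine ⟨fun i => if i ≤ m then l i else l', by simp [l1], fun i hi => ?_, fun i hi => ?_,
        fun i hi => ?_⟩
      · by_cases h3 : i ≤ m
        · simp only [h3, if_true]; exact l2 i h3
        · obtain rfl : i = m + 1 := by omega
          simp only [h3, if_false]
          rw [hF m (by omega), hF' m (by omega)]
          exact b1
      · rcases (show i < m ∨ i = m by omega) with h3 | rfl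
        · simp only [show i ≤ m by omega, show i + 1 ≤ m by omega, if_true]
          exact l3 i h3
        · simp only [le_refl, show ¬ i + 1 ≤ i by omega, if_true, if_false]
          exact b2
      · rcases (show i < m ∨ i = m by omega) with h3 | rfl
        · simp only [show i ≤ m by omega, if_true]
          exact l4 i h3
        · simp only [le_refl, if_true]
          exact b3
  exact key nn le_rfl

/-- uniform data of the trajectories -/
lemma dep_data (S : Cst D P c b A R H C4 K hq) (L : ℕ) (hq2 : ℝ) :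
    ∃ (M0 : ℕ) (Cu : ℝ), L + 1 ≤ M0 ∧ 0 < Cu ∧
      ∀ Z T J h ρ, TJ μ χ D P c b A R H C4 K hq Z T J h ρ → ∀ l : ℕ, l ≤ J + L → J ≤ l + L →
        ∀ d, M0 ≤ d → d ≤ l → l - d ≤ J ∧ hq2 ≤ h (l - d) ∧ c / 4 * d ≤ h (l - d) ∧
          h (l - d) ≤ Cu * d ∧
          |PsiT c b (h (l - d)) - ((T - l) + d)| ≤ C4 * (L + 1) / d ∧
          ρ (l - d) ≤ (1 / 4) ^ (l - d) * R + C4 * (L + 1) / d := by
  have hC := S.C_nn
  have hc := S.c_pos
  obtain ⟨j0, B, hj0L, hB, hdev⟩ := TJ.dev (μ := μ) (χ := χ) S L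
  have hL0 : (0 : ℝ) ≤ L := Nat.cast_nonneg L
  obtain ⟨M1, hM1⟩ := exists_nat_gt (hq2 / (c / 4))
  refine ⟨max j0 (max M1 1), c + |b| / c + B, hj0L.trans (le_max_left _ _), by positivity,
    fun Z T J h ρ t l hl1 hl2 d hd hdl => ?_⟩
  have hdj : j0 ≤ d := (le_max_left _ _).trans hd
  have hdM : M1 ≤ d := ((le_max_left _ _).trans (le_max_right _ _)).trans hd
  have hd1 : 1 ≤ d := ((le_max_right _ _).trans (le_max_right _ _)).trans hd
  have hd1r : (1 : ℝ) ≤ d := by exact_mod_cast hd1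
  have hd0 : (0 : ℝ) < d := by linarith
  obtain ⟨g1, g2, g3⟩ := hdev Z T J h ρ t (l - d) d hdj (by omega) (by omega)
  obtain ⟨q, hq'⟩ := Nat.exists_eq_add_of_le g1
  have hqd : d ≤ q + L := by omega
  have hqr : (d : ℝ) ≤ q + L := by exact_mod_cast hqd
  have hq0 : (0 : ℝ) ≤ q := Nat.cast_nonneg q
  have hlog : Real.log d ≤ d := by
    have := Real.log_le_sub_one_of_pos hd0
    linarith
  have hlog0 : 0 ≤ Real.log d := Real.log_nonneg hd1r
  have hfr : C4 / ((q : ℝ) + 1) ≤ C4 * (L + 1) / d := by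
    rw [div_le_div_iff₀ (by positivity) hd0, mul_assoc]
    refine mul_le_mul_of_nonneg_left ?_ hC
    nlinarith [mul_nonneg hL0 hq0]
  refine ⟨g1, ?_, g2, ?_, ?_, ?_⟩
  · rw [div_lt_iff₀ (by positivity)] at hM1
    have : (M1 : ℝ) ≤ d := by exact_mod_cast hdM
    nlinarith
  · have h1 := (abs_le.1 g3).2
    have h2 : |b / c * Real.log d| ≤ |b| / c * d := by
      rw [abs_mul, abs_div, abs_of_pos hc, abs_of_nonneg hlog0]
      exact mul_le_mul_of_nonneg_left hlog (by positivity)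
    have h3 := neg_abs_le (b / c * Real.log d)
    have h4 : B * 1 ≤ B * d := mul_le_mul_of_nonneg_left hd1r hB
    have e : (c + |b| / c + B) * d = c * d + |b| / c * d + B * d := by ring
    rw [e]
    linarith
  · have h1 := t.ps (l - d) q hq'.symm
    have e : PsiT c b (h (l - d)) - ((T - l) + d) =
        PsiT c b (h (l - d)) - T + ((l - d : ℕ) : ℝ) := by
      rw [Nat.cast_sub hdl]
      ring
    rw [e]
    exact h1.trans hfr
  · have h1 := t.ra (l - d) q hq'.symm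
    linarith

/-- two trajectories with almost the same time, from the depth `m1` to the depth `m` -/
lemma pair_cmp (PF : PairFlow3 μ χ P Q h1 ε C' c0 Dm) {ε1 q Cu Λ δ B1 : ℝ} (hc : 0 < c)
    (hε1 : 0 < ε1) (hε11 : ε1 ≤ 1) (hε1ε : ε1 ≤ ε) (hq0 : 0 < q) (q1 : h1 ≤ q)
    (q2 : 8 * C' ≤ q) (q6 : 2 * |b| ≤ c * q) (q3 : 2 * c * (1 + 2 * B1) ≤ ε1 * q)
    (hδ1 : δ ≤ 1) (hB1 : 0 ≤ B1)
    {F F' : ℕ → G → ℝ} {nn d : ℕ} {h ρ k σ : ℕ → ℝ} (hd : nn < d)
    (hF : ∀ i < nn, F (i + 1) = TT μ (F i)) (hF' : ∀ i < nn, F' (i + 1) = TT μ (F' i))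
    (p : ∀ i ≤ nn, P (F i) (h i) (ρ i)) (p' : ∀ i ≤ nn, P (F' i) (k i) (σ i))
    (hh : ∀ i ≤ nn, q ≤ h i) (hk : ∀ i ≤ nn, q ≤ k i)
    (hρ : ∀ i ≤ nn, 0 ≤ ρ i) (hσ : ∀ i ≤ nn, 0 ≤ σ i)
    (hst : ∀ i < nn, 3 / 4 * h i ≤ h (i + 1))
    (s1 : ∀ i ≤ nn, ∑ j ∈ Finset.range i, (ρ j + 1 / h j) / h j ≤ C4)
    (s2 : ∀ i ≤ nn, ∑ j ∈ Finset.range i, (σ j + 1 / k j) / k j ≤ C4)
    (hpsi : ∀ i ≤ nn, |PsiT c b (h i) - PsiT c b (k i)| ≤ δ + 2 * (B1 / ((d : ℝ) - i)))
    (h0 : c / 4 * d ≤ h 0) (hup : h nn ≤ Cu) (hCu : 0 ≤ Cu)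
    (hl0 : C' * (1 + ρ 0 * h 0 + σ 0 * k 0) ≤ Λ) (x : G) :
    |nrm μ (F nn) x - nrm μ (F' nn) x| ≤ C' * Cu ^ Dm *
      (2 * (Real.exp ((C' + 4 * C' ^ 2) * (3 * C4)) *
        (2 * c * (δ + 2 * (B1 / d)) + 8 * C' * Λ / c / d)) + (3 / 8) ^ nn * Λ) := by
  have hC' := PF.C_nn
  have hnd : ∀ i ≤ nn, (1 : ℝ) ≤ (d : ℝ) - i := by
    intro i hi
    have : (i : ℝ) + 1 ≤ d := by exact_mod_cast (by omega : i + 1 ≤ d)
    linarith
  have hfr : ∀ i ≤ nn, B1 / ((d : ℝ) - i) ≤ B1 := fun i hi => div_le_self hB1 (hnd i hi)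
  have hd0 : (0 : ℝ) < d := by
    have := hnd 0 (by omega)
    simp only [Nat.cast_zero, sub_zero] at this
    linarith
  have hx : ∀ i ≤ nn, |h i - k i| ≤ 2 * c * (δ + 2 * (B1 / ((d : ℝ) - i))) := fun i hi =>
    (psi_inv hc hq0 q6 (hh i hi) (hk i hi)).trans
      (mul_le_mul_of_nonneg_left (hpsi i hi) (by positivity))
  have hap : ∀ i ≤ nn, |h i - k i| ≤ ε1 * h i := by
    intro i hi
    have h2 : 2 * c * (δ + 2 * (B1 / ((d : ℝ) - i))) ≤ 2 * c * (1 + 2 * B1) := by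
      refine mul_le_mul_of_nonneg_left ?_ (by positivity)
      have := hfr i hi
      linarith
    exact (hx i hi).trans (h2.trans (q3.trans (mul_le_mul_of_nonneg_left (hh i hi) hε1.le)))
  have hap2 : ∀ i ≤ nn, |h i - k i| ≤ ε * h i := fun i hi =>
    (hap i hi).trans (mul_le_mul_of_nonneg_right hε1ε (by linarith [hh i hi]))
  obtain ⟨ll, l1, l2, l3, l4⟩ := pair_seq3 (nn := nn) PF hF hF' p p'
    (fun i hi => q1.trans (hh i hi)) (fun i hi => q1.trans (hk i hi)) hap2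
  have hln : ∀ i ≤ nn, 0 ≤ ll i := fun i hi => PF.nn _ _ _ _ _ (l2 i hi)
  have hk2 : ∀ i ≤ nn, k i ≤ 2 * h i := by
    intro i hi
    have c1 := (abs_le.1 (hap i hi)).1
    have c2 : ε1 * h i ≤ 1 * h i := mul_le_mul_of_nonneg_right hε11 (by linarith [hh i hi])
    linarith
  have hr := pair_real3 hC' q2 hq0 hh hk hρ hσ hln hk2 hst s1 s2 l3 l4
  have hcl := PF.close _ _ _ _ _ _ _ (p nn le_rfl) (p' nn le_rfl) (l2 nn le_rfl)
    (q1.trans (hh nn le_rfl)) (q1.trans (hk nn le_rfl)) (hap2 nn le_rfl) x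
  refine hcl.trans ?_
  have hl0' : ll 0 ≤ Λ := l1.trans hl0
  have hln0 := hln 0 (by omega)
  have hh0 : 0 < h 0 := by linarith [hh 0 (by omega)]
  have g1 : C' * h nn ^ Dm ≤ C' * Cu ^ Dm :=
    mul_le_mul_of_nonneg_left (pow_le_pow_left₀ (by linarith [hh nn le_rfl]) hup _) hC'
  have g2 : 2 * C' * ll 0 / h 0 ≤ 8 * C' * Λ / c / d := by
    rw [div_div, div_le_div_iff₀ hh0 (by positivity)]
    have g3 : 2 * C' * ll 0 ≤ 2 * C' * Λ := mul_le_mul_of_nonneg_left hl0' (by positivity)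
    have hΛ0 : 0 ≤ Λ := hln0.trans hl0'
    calc 2 * C' * ll 0 * (c * d) ≤ 2 * C' * Λ * (c * d) :=
          mul_le_mul_of_nonneg_right g3 (by positivity)
      _ = 8 * C' * Λ * (c / 4 * d) := by ring
      _ ≤ 8 * C' * Λ * h 0 := mul_le_mul_of_nonneg_left h0 (by positivity)
  have g3 := hx 0 (by omega)
  simp only [Nat.cast_zero, sub_zero] at g3
  have g4 := mul_le_mul_of_nonneg_left (add_le_add g3 g2)
    (Real.exp_pos ((C' + 4 * C' ^ 2) * (3 * C4))).le
  have g5 := mul_le_mul_of_nonneg_left hl0' (show (0 : ℝ) ≤ (3 / 8 : ℝ) ^ nn by positivity)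
  refine mul_le_mul g1 ?_ (add_nonneg (abs_nonneg _) (hln nn le_rfl)) (by positivity)
  linarith

/-- **two trajectories with almost the same time are close** -/
theorem pair_close (S : Cst D P c b A R H C4 K hq) (PF : PairFlow3 μ χ P Q h1 ε C' c0 Dm)
    (L : ℕ) : ∃ M0 : ℕ, ∀ m, M0 ≤ m → ∀ e : ℝ, 0 < e → ∃ (δ : ℝ) (n0 : ℕ), 0 < δ ∧ m ≤ n0 ∧
      ∀ Z T J h ρ Z' T' J' h' ρ', TJ μ χ D P c b A R H C4 K hq Z T J h ρ →
        TJ μ χ D P c b A R H C4 K hq Z' T' J' h' ρ' → ∀ l l' : ℕ, n0 ≤ l → n0 ≤ l' →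
        l ≤ J + L → J ≤ l + L → l' ≤ J' + L → J' ≤ l' + L → |(T - l) - (T' - l')| ≤ δ →
        ∀ x, |nrm μ (TTn μ Z (l - m)) x - nrm μ (TTn μ Z' (l' - m)) x| ≤ e := by
  have hC := S.C_nn
  have hc := S.c_pos
  have hR := S.R_nn
  have hC' := PF.C_nn
  have hε := PF.e_pos
  have hL0 : (0 : ℝ) ≤ L := Nat.cast_nonneg L
  obtain ⟨ε1, hε1⟩ : ∃ ε1 : ℝ, ε1 = min ε 1 := ⟨_, rfl⟩
  have hε10 : 0 < ε1 := by rw [hε1]; exact lt_min hε one_pos
  have hε11 : ε1 ≤ 1 := by rw [hε1]; exact min_le_right _ _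
  have hε1ε : ε1 ≤ ε := by rw [hε1]; exact min_le_left _ _
  obtain ⟨B1, hB1⟩ : ∃ B1 : ℝ, B1 = C4 * (L + 1) := ⟨_, rfl⟩
  have hB10 : 0 ≤ B1 := by rw [hB1]; positivity
  -- the lower bound of the couplings
  obtain ⟨q, hqd⟩ : ∃ q : ℝ, q = |h1| + 8 * C' + 2 * c * (1 + 2 * B1) / ε1 +
    4 * (c + C4 * (R + B1 + 1)) + 1 + 2 * |b| / c := ⟨_, rfl⟩
  have p1 := abs_nonneg h1
  have p2 : 0 ≤ 8 * C' := by positivity
  have p3 : 0 ≤ 2 * c * (1 + 2 * B1) / ε1 := by positivity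
  have p4 : 0 ≤ 4 * (c + C4 * (R + B1 + 1)) := by positivity
  have p5 : 0 ≤ 2 * |b| / c := by positivity
  have q1 : h1 ≤ q := by have := le_abs_self h1; linarith
  have q2 : 8 * C' ≤ q := by linarith
  have q3 : 2 * c * (1 + 2 * B1) ≤ ε1 * q := by
    have h2 : 2 * c * (1 + 2 * B1) / ε1 ≤ q := by linarith
    rw [div_le_iff₀ hε10] at h2
    linarith
  have q4 : 4 * (c + C4 * (R + B1 + 1)) ≤ q := by linarith
  have q5 : 1 ≤ q := by linarith
  have q6 : 2 * |b| ≤ c * q := by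
    have h2 : 2 * |b| / c ≤ q := by linarith
    rw [div_le_iff₀ hc] at h2
    linarith
  have q0 : 0 < q := by linarith
  clear hqd p1 p2 p3 p4 p5
  obtain ⟨M0, Cu, hM0, hCu, hdep⟩ := dep_data (μ := μ) (χ := χ) S L q
  refine ⟨M0, fun m hm e he => ?_⟩
  have hm1 : 1 ≤ m := by omega
  have hm0 : (0 : ℝ) < m := by exact_mod_cast hm1
  -- the constants
  obtain ⟨Λ, hΛ⟩ : ∃ Λ : ℝ, Λ = C' * (1 + 2 * (1 + B1 * Cu)) := ⟨_, rfl⟩
  have hΛ0 : 0 ≤ Λ := by rw [hΛ]; positivity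
  obtain ⟨E, hE⟩ : ∃ E : ℝ, E = Real.exp ((C' + 4 * C' ^ 2) * (3 * C4)) := ⟨_, rfl⟩
  have hE0 : 0 < E := by rw [hE]; exact Real.exp_pos _
  obtain ⟨U, hU⟩ : ∃ U : ℝ, U = C' * (Cu * m) ^ Dm := ⟨_, rfl⟩
  have hU0 : 0 ≤ U := by rw [hU]; positivity
  obtain ⟨W, hW⟩ : ∃ W : ℝ, W = 4 * c * B1 + 8 * C' * Λ / c := ⟨_, rfl⟩
  have hW0 : 0 ≤ W := by rw [hW]; positivity
  obtain ⟨X, hX⟩ : ∃ X : ℝ, X = U * (4 * c * E) := ⟨_, rfl⟩
  have hX0 : 0 ≤ X := by rw [hX]; positivity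
  obtain ⟨δ, hδ⟩ : ∃ δ : ℝ, δ = min 1 (e / (2 * (X + 1))) := ⟨_, rfl⟩
  have hδ0 : 0 < δ := by
    rw [hδ]
    exact lt_min one_pos (by positivity)
  have hδ1 : δ ≤ 1 := by rw [hδ]; exact min_le_left _ _
  have hδe : X * δ ≤ e / 2 := by
    have h2 : δ ≤ e / (2 * (X + 1)) := by rw [hδ]; exact min_le_right _ _
    rw [le_div_iff₀ (by positivity)] at h2
    have e1 : X * δ = δ * (2 * (X + 1)) / 2 - δ := by ring
    linarith
  -- the starting depth
  obtain ⟨m1, hm1m, hm1e⟩ : ∃ m1 : ℕ, m ≤ m1 ∧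
      U * (2 * E * W) / m1 + U * Λ * (3 / 8 : ℝ) ^ (m1 - m) ≤ e / 2 := by
    have t1 : Tendsto (fun k : ℕ => U * (2 * E * W) / ((m + k : ℕ) : ℝ) +
        U * Λ * (3 / 8 : ℝ) ^ k) atTop (𝓝 (0 + U * Λ * 0)) := by
      refine Tendsto.add ?_ (Tendsto.const_mul _
        (tendsto_pow_atTop_nhds_zero_of_lt_one (by norm_num) (by norm_num)))
      exact (tendsto_const_div_atTop_nhds_zero_nat (U * (2 * E * W))).comp
        (tendsto_atTop_mono (fun k => Nat.le_add_left k m) tendsto_id)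
    rw [mul_zero, add_zero] at t1
    obtain ⟨k, hk⟩ := (t1.eventually (gt_mem_nhds (half_pos he))).exists
    refine ⟨m + k, by omega, ?_⟩
    rw [Nat.add_sub_cancel_left]
    exact hk.le
  have hm1M : M0 ≤ m1 := hm.trans hm1m
  have hm10 : (0 : ℝ) < m1 := by exact_mod_cast (by omega : 0 < m1)
  -- the lower bound of the level
  obtain ⟨k0, hk0⟩ : ∃ k0 : ℕ, (1 / 4 : ℝ) ^ k0 * R * (Cu * m1) ≤ 1 := by
    have t1 : Tendsto (fun k : ℕ => (1 / 4 : ℝ) ^ k * R * (Cu * m1)) atTop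
        (𝓝 (0 * R * (Cu * m1))) :=
      ((tendsto_pow_atTop_nhds_zero_of_lt_one (by norm_num) (by norm_num)).mul_const _).mul_const _
    rw [zero_mul, zero_mul] at t1
    obtain ⟨k, hk⟩ := (t1.eventually (gt_mem_nhds one_pos)).exists
    exact ⟨k, hk.le⟩
  -- the initial error
  have hstart : ∀ (r x : ℝ) (i : ℕ), k0 ≤ i → 0 ≤ r → 0 < x → x ≤ Cu * m1 →
      r ≤ (1 / 4) ^ i * R + B1 / m1 → r * x ≤ 1 + B1 * Cu := by
    intro r x i hi hr hx hxu hrr
    have h5 : (1 / 4 : ℝ) ^ i ≤ (1 / 4) ^ k0 := pow_le_pow_of_le_one (by norm_num) (by norm_num) hi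
    have h6 : r ≤ (1 / 4) ^ k0 * R + B1 / m1 := by
      have := mul_le_mul_of_nonneg_right h5 hR
      linarith
    have h7 : r * x ≤ ((1 / 4) ^ k0 * R + B1 / m1) * (Cu * m1) :=
      mul_le_mul h6 hxu hx.le (by positivity)
    have e1 : ((1 / 4) ^ k0 * R + B1 / m1) * (Cu * m1) =
        (1 / 4 : ℝ) ^ k0 * R * (Cu * m1) + B1 * Cu := by
      field_simp
    rw [e1] at h7
    linarith
  -- the data of one trajectory from the depth `m1`
  have data : ∀ Z T J h ρ, TJ μ χ D P c b A R H C4 K hq Z T J h ρ → ∀ l : ℕ, m1 + k0 ≤ l →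
      l ≤ J + L → J ≤ l + L → ∀ a, a = l - m1 →
      (∀ i ≤ m1 - m, P (TTn μ Z (a + i)) (h (a + i)) (ρ (a + i)) ∧ q ≤ h (a + i) ∧
        0 ≤ ρ (a + i) ∧ |PsiT c b (h (a + i)) - ((T - l) + ((m1 : ℝ) - i))| ≤
          B1 / ((m1 : ℝ) - i) ∧
        ∑ j ∈ Finset.range i, (ρ (a + j) + 1 / h (a + j)) / h (a + j) ≤ C4) ∧
      (∀ i < m1 - m, 3 / 4 * h (a + i) ≤ h (a + (i + 1))) ∧
      c / 4 * m1 ≤ h a ∧ h (a + (m1 - m)) ≤ Cu * m ∧ ρ a * h a ≤ 1 + B1 * Cu := by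
    intro Z T J h ρ t l hl w1 w2 a ha
    have dd : ∀ i ≤ m1 - m, a + i = l - (m1 - i) := fun i hi => by omega
    have key := fun i (hi : i ≤ m1 - m) => hdep Z T J h ρ t l w1 w2 (m1 - i) (by omega) (by omega)
    have cst : ∀ i ≤ m1 - m, ((m1 - i : ℕ) : ℝ) = (m1 : ℝ) - i := fun i hi =>
      Nat.cast_sub (by omega)
    have hJ : ∀ i ≤ m1 - m, a + i ≤ J := fun i hi => by rw [dd i hi]; exact (key i hi).1
    have hfr : ∀ i ≤ m1 - m, B1 / ((m1 : ℝ) - i) ≤ B1 := fun i hi => by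
      rw [← cst i hi]
      exact div_le_self hB10 (by exact_mod_cast (by omega : 1 ≤ m1 - i))
    have hr : ∀ i ≤ m1 - m, ρ (a + i) ≤ (1 / 4) ^ (a + i) * R + B1 / ((m1 : ℝ) - i) :=
      fun i hi => by
        have := (key i hi).2.2.2.2.2
        rwa [← dd i hi, cst i hi, ← hB1] at this
    have hq' : ∀ i ≤ m1 - m, q ≤ h (a + i) := fun i hi => by
      have := (key i hi).2.1
      rwa [← dd i hi] at this
    refine ⟨fun i hi => ⟨t.p _ (hJ i hi), hq' i hi, t.nn _ (hJ i hi), ?_, ?_⟩, fun i hi => ?_,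
      ?_, ?_, ?_⟩
    · have := (key i hi).2.2.2.2.1
      rwa [← dd i hi, cst i hi, ← hB1] at this
    · have s1 : ∑ j ∈ Finset.range i, (ρ (a + j) + 1 / h (a + j)) / h (a + j) ≤
          ∑ j ∈ Finset.range (a + i), (ρ j + 1 / h j) / h j := by
        rw [Finset.sum_range_add (fun j => (ρ j + 1 / h j) / h j)]
        have : 0 ≤ ∑ j ∈ Finset.range a, (ρ j + 1 / h j) / h j :=
          Finset.sum_nonneg fun j hj => by
            have b0 := Finset.mem_range.1 hj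
            have b00 := hJ i hi
            have b1 := t.nn j (by omega)
            have b2 := t.lo j (by omega)
            have b3 : 0 < h j := by linarith [S.hq1]
            positivity
        linarith
      obtain ⟨w, hw⟩ := Nat.exists_eq_add_of_le (hJ i hi)
      have s3 := t.sm (a + i) w hw.symm
      have s4 : C4 / ((w : ℝ) + 1) ≤ C4 := div_le_self hC (by
        have : (0 : ℝ) ≤ w := Nat.cast_nonneg w
        linarith)
      linarith
    · have a1 := t.st (a + i) (by have := hJ (i + 1) (by omega); omega)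
      have a2 := hq' i hi.le
      have a3 : 1 / h (a + i) ≤ 1 := by
        rw [div_le_one (by linarith)]
        linarith
      have a4 : ρ (a + i) ≤ R + B1 := by
        have b1 := hr i hi.le
        have b2 := hfr i hi.le
        have b4 : (1 / 4 : ℝ) ^ (a + i) ≤ 1 := pow_le_one₀ (by norm_num) (by norm_num)
        have b3 := mul_le_mul_of_nonneg_right b4 hR
        linarith
      have a5 : C4 * (ρ (a + i) + 1 / h (a + i)) ≤ C4 * (R + B1 + 1) :=
        mul_le_mul_of_nonneg_left (by linarith) hC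
      have a6 := (abs_le.1 a1).1
      rw [← add_assoc]
      linarith
    · have k3 := (key 0 (by omega)).2.2.1
      rw [← dd 0 (by omega), Nat.sub_zero] at k3
      exact k3
    · have := (key (m1 - m) le_rfl).2.2.2.1
      rwa [← dd _ le_rfl, show m1 - (m1 - m) = m by omega] at this
    · have k1 := hr 0 (by omega)
      have k4 := (key 0 (by omega)).2.2.2.1
      rw [← dd 0 (by omega), Nat.sub_zero] at k4
      simp only [add_zero, Nat.cast_zero, sub_zero] at k1 k4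
      have k2 := hq' 0 (by omega)
      rw [add_zero] at k2
      refine hstart (ρ a) (h a) a (by omega) (t.nn _ ?_) (by linarith) k4 k1
      have := hJ 0 (by omega)
      rwa [add_zero] at this
  clear hdep hstart hk0
  refine ⟨δ, m1 + k0, hδ0, by omega,
    fun Z T J h ρ Z' T' J' h' ρ' t t' l l' hl hl' w1 w2 w1' w2' hT x => ?_⟩
  obtain ⟨a, ha⟩ : ∃ a, a = l - m1 := ⟨_, rfl⟩
  obtain ⟨a', ha'⟩ : ∃ a', a' = l' - m1 := ⟨_, rfl⟩
  obtain ⟨d1, d2, d3, d4, d5⟩ := data Z T J h ρ t l hl w1 w2 a ha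
  obtain ⟨d1', d2', d3', d4', d5'⟩ := data Z' T' J' h' ρ' t' l' hl' w1' w2' a' ha'
  have hfin := pair_cmp (nn := m1 - m) (d := m1) (F := fun i => TTn μ Z (a + i))
    (F' := fun i => TTn μ Z' (a' + i)) (h := fun i => h (a + i)) (ρ := fun i => ρ (a + i))
    (k := fun i => h' (a' + i)) (σ := fun i => ρ' (a' + i)) PF (Cu := Cu * m) (Λ := Λ) hc hε10
    hε11 hε1ε q0 q1 q2 q6 q3 hδ1 hB10 (by omega) (fun i _ => rfl) (fun i _ => rfl)
    (fun i hi => (d1 i hi).1) (fun i hi => (d1' i hi).1) (fun i hi => (d1 i hi).2.1)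
    (fun i hi => (d1' i hi).2.1) (fun i hi => (d1 i hi).2.2.1) (fun i hi => (d1' i hi).2.2.1)
    d2 (fun i hi => (d1 i hi).2.2.2.2) (fun i hi => (d1' i hi).2.2.2.2)
    (fun i hi => by
      have k1 := (d1 i hi).2.2.2.1
      have k2 := (d1' i hi).2.2.2.1
      have e1 : PsiT c b (h (a + i)) - PsiT c b (h' (a' + i)) =
          (PsiT c b (h (a + i)) - ((T - l) + ((m1 : ℝ) - i))) -
          (PsiT c b (h' (a' + i)) - ((T' - l') + ((m1 : ℝ) - i))) +
          ((T - l) - (T' - l')) := by ring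
      show |PsiT c b (h (a + i)) - PsiT c b (h' (a' + i))| ≤ δ + 2 * (B1 / ((m1 : ℝ) - i))
      rw [e1]
      refine (abs_add_le _ _).trans ?_
      have := abs_sub (PsiT c b (h (a + i)) - ((T - l) + ((m1 : ℝ) - i)))
        (PsiT c b (h' (a' + i)) - ((T' - l') + ((m1 : ℝ) - i)))
      linarith)
    d3 d4 (by positivity)
    (by
      rw [hΛ]
      refine mul_le_mul_of_nonneg_left ?_ hC'
      show 1 + ρ (a + 0) * h (a + 0) + ρ' (a' + 0) * h' (a' + 0) ≤ 1 + 2 * (1 + B1 * Cu)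
      rw [add_zero, add_zero]
      linarith) x
  have em : a + (m1 - m) = l - m := by omega
  have em' : a' + (m1 - m) = l' - m := by omega
  beta_reduce at hfin
  rw [em, em', ← hE, ← hU] at hfin
  refine hfin.trans ?_
  have e1 : U * (2 * (E * (2 * c * (δ + 2 * (B1 / m1)) + 8 * C' * Λ / c / m1)) +
      (3 / 8 : ℝ) ^ (m1 - m) * Λ) =
      X * δ + (U * (2 * E * W) / m1 + U * Λ * (3 / 8 : ℝ) ^ (m1 - m)) := by
    rw [hX, hW]
    ring
  rw [e1]
  linarith

end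

end Pool.Agent.N989.MK
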