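import Mathlib
import Pool.Agent.N989.MK.Pair3

/-!
# The one-parameter family of the continuum limits
-/

open MeasureTheory Pool.Agent.N991.MK Filter
open scoped Topology

namespace Pool.Agent.N989.MK

set_option linter.unusedSectionVars false

noncomputable section

variable {G : Type*} [Group G] [TopologicalSpace G] [IsTopologicalGroup G] [CompactSpace G]
  [MeasurableSpace G] [BorelSpace G] [SecondCountableTopology G]
  {μ : Measure G} [IsProbabilityMeasure μ] [μ.IsHaarMeasure] [μ.IsMulRightInvariant]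
  [μ.IsInvInvariant] {χ : G → ℝ} {n : ℕ} {D : ED G n}
  {P : (G → ℝ) → ℝ → ℝ → Prop} {Q : (G → ℝ) → (G → ℝ) → ℝ → ℝ → ℝ → Prop}
  {h1 ε C' c0 : ℝ} {Dm : ℕ} {c b A R H C4 K hq τ : ℝ}

/-- the theories with the weights `Zs i`, with the unit of length at the level `lv i`, converge -/
def CT (μ : Measure G) (Zs : ℕ → G → ℝ) (lv : ℕ → ℕ) (Fk : ℤ → G → ℝ) : Prop :=
  ∀ k : ℤ, UT (fun i x => nrm μ (TTn μ (Zs i) ((lv i : ℤ) + k).toNat) x) (Fk k)

/-- a stopped trajectory exists -/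
def HT (μ : Measure G) (χ : G → ℝ) (D : ED G n) (P : (G → ℝ) → ℝ → ℝ → Prop)
    (c b A R H C4 K hq : ℝ) (Z : G → ℝ) (T : ℝ) : Prop :=
  ∃ J h ρ, TJ μ χ D P c b A R H C4 K hq Z T J h ρ

lemma UT.unique {f : ℕ → G → ℝ} {F F' : G → ℝ} (h : UT f F) (h' : UT f F') : F = F' := by
  funext x
  by_contra hne
  have hpos : 0 < |F x - F' x| := abs_pos.2 (sub_ne_zero.2 hne)
  obtain ⟨i, a1, a2⟩ := ((h _ (half_pos hpos)).and (h' _ (half_pos hpos))).exists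
  have b1 := a1 x
  have b2 := a2 x
  have b3 := abs_sub_le (F x) (f i x) (F' x)
  rw [abs_sub_comm (F x) (f i x)] at b3
  linarith

lemma UT.sub {f : ℕ → G → ℝ} {F : G → ℝ} (h : UT f F) {φ : ℕ → ℕ} (hφ : Tendsto φ atTop atTop) :
    UT (fun i => f (φ i)) F := fun ε hε => hφ.eventually (h ε hε)

lemma CT.sub {Zs : ℕ → G → ℝ} {lv : ℕ → ℕ} {Fk : ℤ → G → ℝ} (h : CT μ Zs lv Fk) {φ : ℕ → ℕ}
    (hφ : Tendsto φ atTop atTop) : CT μ (fun i => Zs (φ i)) (fun i => lv (φ i)) Fk :=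
  fun k ε hε => hφ.eventually (h k ε hε)

lemma CT.unique {Zs : ℕ → G → ℝ} {lv : ℕ → ℕ} {Fk Fk' : ℤ → G → ℝ} (h : CT μ Zs lv Fk)
    (h' : CT μ Zs lv Fk') : Fk = Fk' := funext fun k => UT.unique (h k) (h' k)

/-- the mean is continuous for the uniform convergence -/
lemma UT.W {f : ℕ → G → ℝ} {F : G → ℝ} (ho : Obs μ χ) (hf : ∀ i, Continuous (f i)) (hF : Adm F)
    (h : UT f F) : Tendsto (fun i => WW μ χ (f i)) atTop (𝓝 (WW μ χ F)) := by
  unfold WW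
  refine Tendsto.div ?_ (UT.int hf hF.cont h) hF.ipos.ne'
  refine UT.int (fun i => (hf i).mul ho.cont) (hF.cont.mul ho.cont) fun ε hε => ?_
  filter_upwards [h ε hε] with i hi x
  rw [← sub_mul, abs_mul]
  exact (mul_le_of_le_one_right (abs_nonneg _) (ho.le x)).trans_lt (hi x)

/-- the convergence at the negative scales implies the convergence at all scales -/
lemma conv_all3 {Zs : ℕ → G → ℝ} {Fk : ℤ → G → ℝ} (hadm : ∀ i, Adm (Zs i)) (hA : ∀ k, Adm (Fk k))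
    (h1 : ∀ k, ∫ x, Fk k x ∂μ = 1) (hr : ∀ k, Fk (k + 1) = nrm μ (TT μ (Fk k)))
    {l : ℕ → ℕ} (hl : Tendsto l atTop atTop) {M0 : ℕ}
    (hneg : ∀ m : ℕ, M0 ≤ m → UT (fun i x => nrm μ (TTn μ (Zs i) (l i - m)) x) (Fk (-m))) :
    CT μ Zs l Fk := by
  intro k
  rcases le_or_gt k (-(M0 : ℤ)) with hk | hk
  · obtain ⟨m, rfl⟩ : ∃ m : ℕ, k = -m := ⟨k.natAbs, by omega⟩
    intro ε hε
    filter_upwards [hneg m (by omega) ε hε, hl.eventually (eventually_ge_atTop m)] with i a1 a2 x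
    have e : (((l i : ℤ) + -(m : ℤ)).toNat) = l i - m := by omega
    rw [e]
    exact a1 x
  · obtain ⟨j, rfl⟩ : ∃ j : ℕ, k = -(M0 : ℤ) + j := ⟨(k + M0).toNat, by omega⟩
    have hA1 : ∀ i, Adm (nrm μ (TTn μ (Zs i) (l i - M0))) := fun i => ((hadm i).TTn _).nrm
    have h0 : UT (fun i => nrm μ (TTn μ (Zs i) (l i - M0))) (Fk (-M0)) := hneg M0 le_rfl
    have h1' := UT.nrm (μ := μ) (fun i => (hA1 i).TTn (μ := μ) j) ((hA (-M0)).TTn (μ := μ) j)
      (UT.TTn (μ := μ) hA1 (hA (-M0)) h0 j)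
    have h2 : nrm μ (TTn μ (Fk (-M0)) j) = Fk (-M0 + j) := by
      clear h1' hk
      induction j with
      | zero =>
        have e : TTn μ (Fk (-M0)) 0 = Fk (-M0) := rfl
        rw [e]
        unfold Pool.Agent.N989.MK.nrm
        rw [h1]
        funext x
        simp
      | succ j ih =>
        have e : TTn μ (Fk (-M0)) (j + 1) = TT μ (TTn μ (Fk (-M0)) j) := rfl
        rw [e, ← nrm_TT_nrm ((hA (-M0)).TTn j), ih, ← hr]
        congr 1
        push_cast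
        ring
    rw [h2] at h1'
    intro ε hε
    filter_upwards [h1' ε hε, hl.eventually (eventually_ge_atTop M0)] with i a1 a2 x
    have b1 := a1 x
    rw [nrm_TTn_nrm ((hadm i).TTn _), ← TTn_add] at b1
    have e : (((l i : ℤ) + (-(M0 : ℤ) + (j : ℤ))).toNat) = l i - M0 + j := by omega
    rw [e]
    exact b1

/-- the window of the levels with a bounded time -/
lemma win_of_time (S : Cst D P c b A R H C4 K hq) {B : ℝ} : ∃ L : ℕ, ∀ Z T J h ρ,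
    TJ μ χ D P c b A R H C4 K hq Z T J h ρ → ∀ l : ℕ, |T - l| ≤ B → l ≤ J + L ∧ J ≤ l + L := by
  obtain ⟨L, hL⟩ := exists_nat_gt (B + (C4 + (H / c + |b| / c ^ 2 * Real.log H)))
  refine ⟨L, fun Z T J h ρ t l hl => ?_⟩
  have h1 := abs_le.1 (TJ.time S t)
  have h2 := abs_le.1 hl
  constructor
  · have : (l : ℝ) ≤ J + L := by linarith
    exact_mod_cast this
  · have : (J : ℝ) ≤ l + L := by linarith
    exact_mod_cast this

/-- **sequences with the same time have the same limit** -/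
theorem same_limit (S : Cst D P c b A R H C4 K hq) (PF : PairFlow3 μ χ P Q h1 ε C' c0 Dm)
    {Zs Zs' : ℕ → G → ℝ} {Ts Ts' : ℕ → ℝ} {lv lv' : ℕ → ℕ} {tt : ℝ} {Fk : ℤ → G → ℝ}
    (hadm' : ∀ i, Adm (Zs' i)) (hl : Tendsto lv atTop atTop) (hl' : Tendsto lv' atTop atTop)
    (htj : ∀ᶠ i in atTop, HT μ χ D P c b A R H C4 K hq (Zs i) (Ts i))
    (htj' : ∀ᶠ i in atTop, HT μ χ D P c b A R H C4 K hq (Zs' i) (Ts' i))
    (hT : Tendsto (fun i => Ts i - lv i) atTop (𝓝 tt))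
    (hT' : Tendsto (fun i => Ts' i - lv' i) atTop (𝓝 tt)) (hF : LimP μ χ D c b A Fk)
    (hU : CT μ Zs lv Fk) : CT μ Zs' lv' Fk := by
  obtain ⟨L, hL⟩ := win_of_time (μ := μ) (χ := χ) S (B := |tt| + 1)
  obtain ⟨M0, hM0⟩ := pair_close S PF L
  have hb : ∀ {T : ℕ → ℝ} {l : ℕ → ℕ}, Tendsto (fun i => T i - l i) atTop (𝓝 tt) →
      ∀ᶠ i in atTop, |T i - l i| ≤ |tt| + 1 := by
    intro T l h
    have h2 := h.abs.eventually (gt_mem_nhds (show |tt| < |tt| + 1 by linarith))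
    exact h2.mono fun i hi => hi.le
  refine conv_all3 hadm' hF.adm hF.one hF.step hl' (M0 := M0) fun m hm e he => ?_
  obtain ⟨δ, n0, hδ, hn0, hclose⟩ := hM0 m hm (e / 2) (half_pos he)
  have hd := ((hT.sub hT').abs).eventually (gt_mem_nhds (show |tt - tt| < δ by simpa using hδ))
  filter_upwards [htj, htj', hb hT, hb hT', hd, hU (-m) (e / 2) (half_pos he),
    hl.eventually (eventually_ge_atTop n0), hl'.eventually (eventually_ge_atTop n0)] with i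
    ⟨J, h, ρ, t⟩ ⟨J', h', ρ', t'⟩ b1 b2 b3 b4 b5 b6 x
  obtain ⟨w1, w2⟩ := hL _ _ _ _ _ t _ b1
  obtain ⟨w1', w2'⟩ := hL _ _ _ _ _ t' _ b2
  have g1 := hclose _ _ _ _ _ _ _ _ _ _ t t' _ _ b5 b6 w1 w2 w1' w2' b3.le x
  have g2 := b4 x
  have e1 : (((lv i : ℤ) + -(m : ℤ)).toNat) = lv i - m := by omega
  rw [e1] at g2
  have g3 := abs_sub_le (nrm μ (TTn μ (Zs' i) (lv' i - m)) x)
    (nrm μ (TTn μ (Zs i) (lv i - m)) x) (Fk (-m) x)
  rw [abs_sub_comm] at g1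
  linarith

/-- **existence of the limit of every sequence with convergent time** -/
theorem exists_limit (S : Cst D P c b A R H C4 K hq) (PF : PairFlow3 μ χ P Q h1 ε C' c0 Dm)
    (ho : Obs μ χ) {m : ℕ} (hg : Gen D m 1)
    (hnb : ∀ δ : ℝ, 0 < δ → {g : G | ∃ X, qf X ≤ δ ∧ g = D.E X} ∈ 𝓝 (1 : G))
    {Zs : ℕ → G → ℝ} {Ts : ℕ → ℝ} {lv : ℕ → ℕ} {tt : ℝ} (hadm : ∀ i, Adm (Zs i))
    (hl : Tendsto lv atTop atTop)
    (htj : ∀ᶠ i in atTop, HT μ χ D P c b A R H C4 K hq (Zs i) (Ts i))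
    (hT : Tendsto (fun i => Ts i - lv i) atTop (𝓝 tt)) :
    ∃ Fk : ℤ → G → ℝ, LimP μ χ D c b A Fk ∧ CT μ Zs lv Fk := by
  obtain ⟨L, hL⟩ := win_of_time (μ := μ) (χ := χ) S (B := |tt| + 1)
  have hb := (hT.abs.eventually (gt_mem_nhds (show |tt| < |tt| + 1 by linarith))).mono
    fun i hi => hi.le
  obtain ⟨φ, Fk, hφ, hF, hU⟩ := compact3 (L := L) S ho hg hnb hadm hl (by
    filter_upwards [htj, hb] with i ⟨J, h, ρ, t⟩ b1
    obtain ⟨w1, w2⟩ := hL _ _ _ _ _ t _ b1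
    exact ⟨_, J, h, ρ, t, w1, w2⟩)
  refine ⟨Fk, hF, ?_⟩
  have hφt := hφ.tendsto_atTop
  exact same_limit (Zs := fun i => Zs (φ i)) (Ts := fun i => Ts (φ i)) (lv := fun i => lv (φ i))
    S PF hadm (hl.comp hφt) hl (hφt.eventually htj) htj (hT.comp hφt) hT hF hU

/-- **the limits with different times are different** -/
theorem time_unique (S : Cst D P c b A R H C4 K hq) (PF : PairFlow3 μ χ P Q h1 ε C' c0 Dm)
    (ho : Obs μ χ) {Zs Zs' : ℕ → G → ℝ} {Ts Ts' : ℕ → ℝ} {lv lv' : ℕ → ℕ} {tt tt' : ℝ}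
    {Fk : ℤ → G → ℝ} (hadm : ∀ i, Adm (Zs i)) (hadm' : ∀ i, Adm (Zs' i))
    (hl : Tendsto lv atTop atTop) (hl' : Tendsto lv' atTop atTop)
    (htj : ∀ᶠ i in atTop, HT μ χ D P c b A R H C4 K hq (Zs i) (Ts i))
    (htj' : ∀ᶠ i in atTop, HT μ χ D P c b A R H C4 K hq (Zs' i) (Ts' i))
    (hT : Tendsto (fun i => Ts i - lv i) atTop (𝓝 tt))
    (hT' : Tendsto (fun i => Ts' i - lv' i) atTop (𝓝 tt')) (hF : LimP μ χ D c b A Fk)
    (hU : CT μ Zs lv Fk) (hU' : CT μ Zs' lv' Fk) : tt = tt' := by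
  by_contra hne
  have hC := S.C_nn
  have hc := S.c_pos
  have hR := S.R_nn
  have hC' := PF.C_nn
  have hε := PF.e_pos
  have hc0 := PF.c0_pos
  obtain ⟨Δ, hΔ⟩ : ∃ Δ, Δ = |tt - tt'| := ⟨_, rfl⟩
  have hΔ0 : 0 < Δ := by rw [hΔ]; exact abs_pos.2 (sub_ne_zero.2 hne)
  obtain ⟨L, hL⟩ := win_of_time (μ := μ) (χ := χ) S (B := |tt| + |tt'| + 1)
  obtain ⟨B1, hB1⟩ : ∃ B1 : ℝ, B1 = C4 * (L + 1) := ⟨_, rfl⟩
  have hB10 : 0 ≤ B1 := by rw [hB1]; positivity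
  obtain ⟨q, hqd⟩ : ∃ q : ℝ, q = |h1| + 2 * c * (2 * Δ + 2 * B1) / ε + 1 + 2 * |b| / c := ⟨_, rfl⟩
  have p1 := abs_nonneg h1
  have p3 : 0 ≤ 2 * c * (2 * Δ + 2 * B1) / ε := by positivity
  have p5 : 0 ≤ 2 * |b| / c := by positivity
  have q1 : h1 ≤ q := by have := le_abs_self h1; linarith
  have q3 : 2 * c * (2 * Δ + 2 * B1) ≤ ε * q := by
    have h2 : 2 * c * (2 * Δ + 2 * B1) / ε ≤ q := by linarith
    rw [div_le_iff₀ hε] at h2
    linarith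
  have q5 : 1 ≤ q := by linarith
  have q6 : 2 * |b| ≤ c * q := by
    have h2 : 2 * |b| / c ≤ q := by linarith
    rw [div_le_iff₀ hc] at h2
    linarith
  have q0 : 0 < q := by linarith
  clear hqd p1 p3 p5
  obtain ⟨M0, Cu, hM0, hCu, hdep⟩ := dep_data (μ := μ) (χ := χ) S L q
  obtain ⟨κ, hκ⟩ : ∃ κ : ℝ, κ = 1 / c + |b| / c ^ 2 := ⟨_, rfl⟩
  have hκ0 : 0 < κ := by rw [hκ]; positivity
  obtain ⟨Λ, hΛ⟩ : ∃ Λ : ℝ, Λ = C' * (1 + 2 * (1 + B1 * Cu)) := ⟨_, rfl⟩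
  have hΛ0 : 0 ≤ Λ := by rw [hΛ]; positivity
  -- the depth
  obtain ⟨d, hd0, hd1, hd2⟩ : ∃ d : ℕ, M0 ≤ d ∧ 2 * (B1 / d) < Δ / 4 ∧
      κ * (C' * Λ * (4 / c)) / c0 / d < Δ / 4 := by
    have t1 := (tendsto_const_div_atTop_nhds_zero_nat B1).const_mul 2
    rw [mul_zero] at t1
    have t2 := tendsto_const_div_atTop_nhds_zero_nat (κ * (C' * Λ * (4 / c)) / c0)
    obtain ⟨d, a1, a2, a3⟩ := ((eventually_ge_atTop M0).and
      ((t1.eventually (gt_mem_nhds (show 0 < Δ / 4 by positivity))).and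
      (t2.eventually (gt_mem_nhds (show 0 < Δ / 4 by positivity))))).exists
    exact ⟨d, a1, a2, a3⟩
  have hdr : (0 : ℝ) < d := by
    have : 0 < d := by omega
    exact_mod_cast this
  -- the lower bound of the level
  obtain ⟨k0, hk0⟩ : ∃ k0 : ℕ, (1 / 4 : ℝ) ^ k0 * R * (Cu * d) ≤ 1 := by
    have t1 : Tendsto (fun k : ℕ => (1 / 4 : ℝ) ^ k * R * (Cu * d)) atTop
        (𝓝 (0 * R * (Cu * d))) :=
      ((tendsto_pow_atTop_nhds_zero_of_lt_one (by norm_num) (by norm_num)).mul_const _).mul_const _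
    rw [zero_mul, zero_mul] at t1
    obtain ⟨k, hk⟩ := (t1.eventually (gt_mem_nhds one_pos)).exists
    exact ⟨k, hk.le⟩
  have hstart : ∀ (r x : ℝ) (i : ℕ), k0 ≤ i → 0 ≤ r → 0 < x → x ≤ Cu * d →
      r ≤ (1 / 4) ^ i * R + B1 / d → r * x ≤ 1 + B1 * Cu := by
    intro r x i hi hr hx hxu hrr
    have h5 : (1 / 4 : ℝ) ^ i ≤ (1 / 4) ^ k0 := pow_le_pow_of_le_one (by norm_num) (by norm_num) hi
    have h6 : r ≤ (1 / 4) ^ k0 * R + B1 / d := by
      have := mul_le_mul_of_nonneg_right h5 hR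
      linarith
    have h7 : r * x ≤ ((1 / 4) ^ k0 * R + B1 / d) * (Cu * d) :=
      mul_le_mul h6 hxu hx.le (by positivity)
    have e1 : ((1 / 4) ^ k0 * R + B1 / d) * (Cu * d) =
        (1 / 4 : ℝ) ^ k0 * R * (Cu * d) + B1 * Cu := by
      field_simp
    rw [e1] at h7
    linarith
  -- the means at the depth `d`
  have hW : ∀ {Y : ℕ → G → ℝ} {l : ℕ → ℕ}, (∀ i, Adm (Y i)) → CT μ Y l Fk →
      Tendsto (fun i => WW μ χ (TTn μ (Y i) ((l i : ℤ) + -(d : ℤ)).toNat)) atTop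
        (𝓝 (WW μ χ (Fk (-d)))) := by
    intro Y l hY hU
    have h2 := UT.W ho (fun i => ((hY i).TTn (μ := μ) ((l i : ℤ) + -(d : ℤ)).toNat).nrm.cont)
      (hF.adm (-d)) (hU (-d))
    simpa only [WW_nrm ((hY _).TTn (μ := μ) _)] using h2
  have hWd := ((hW hadm hU).sub (hW hadm' hU')).abs
  rw [sub_self, abs_zero] at hWd
  have hWe := hWd.eventually (gt_mem_nhds
    (show 0 < c0 * (Δ / 4) / (κ * (Cu * d) ^ 2) by positivity))
  have hTT := ((hT.sub hT').abs)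
  rw [← hΔ] at hTT
  have hTe1 := hTT.eventually (lt_mem_nhds (show Δ * (3 / 4) < Δ by linarith))
  have hTe2 := hTT.eventually (gt_mem_nhds (show Δ < 2 * Δ by linarith))
  have hb1 := (hT.abs.eventually (gt_mem_nhds (show |tt| < |tt| + 1 by linarith)))
  have hb2 := (hT'.abs.eventually (gt_mem_nhds (show |tt'| < |tt'| + 1 by linarith)))
  obtain ⟨i, ⟨J, h, ρ, t⟩, ⟨J', h', ρ', t'⟩, b1, b2, b3, b4, b5, b6, b7⟩ :=
    (htj.and (htj'.and (hb1.and (hb2.and (hTe1.and (hTe2.and (hWe.and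
      ((hl.eventually (eventually_ge_atTop (d + k0))).and
        (hl'.eventually (eventually_ge_atTop (d + k0))))))))))).exists
  have n1 := abs_nonneg tt
  have n2 := abs_nonneg tt'
  obtain ⟨w1, w2⟩ := hL _ _ _ _ _ t (lv i) (by linarith)
  obtain ⟨w1', w2'⟩ := hL _ _ _ _ _ t' (lv' i) (by linarith)
  obtain ⟨g1, g2, g3, g4, g5, g6⟩ := hdep _ _ _ _ _ t _ w1 w2 d hd0 (by omega)
  obtain ⟨g1', g2', g3', g4', g5', g6'⟩ := hdep _ _ _ _ _ t' _ w1' w2' d hd0 (by omega)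
  have e1 : ((lv i : ℤ) + -(d : ℤ)).toNat = lv i - d := by omega
  have e2 : ((lv' i : ℤ) + -(d : ℤ)).toNat = lv' i - d := by omega
  rw [e1, e2] at b5
  rw [← hB1] at g5 g6 g5' g6'
  obtain ⟨x, hx⟩ : ∃ x, x = h (lv i - d) := ⟨_, rfl⟩
  obtain ⟨y, hy⟩ : ∃ y, y = h' (lv' i - d) := ⟨_, rfl⟩
  have hp := t.p _ g1
  have hp' := t'.p _ g1'
  have hn := t.nn _ g1
  have hn' := t'.nn _ g1'
  rw [← hx] at g2 g3 g4 g5 hp
  rw [← hy] at g2' g3' g4' g5' hp'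
  have hx0 : 0 < x := by linarith
  have hy0 : 0 < y := by linarith
  have g5a := abs_le.1 g5
  have g5b := abs_le.1 g5'
  have hup : |PsiT c b x - PsiT c b y| ≤ 2 * Δ + 2 * B1 := by
    have hB : B1 / d ≤ B1 := div_le_self hB10 (by
      have : 1 ≤ d := by omega
      exact_mod_cast this)
    have := abs_le.1 b4.le
    rw [abs_le]
    constructor <;> linarith
  have hlow : Δ / 2 ≤ |PsiT c b x - PsiT c b y| := by
    have e3 : (Ts i - lv i) - (Ts' i - lv' i) = (PsiT c b x - PsiT c b y) -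
        ((PsiT c b x - ((Ts i - lv i) + d)) - (PsiT c b y - ((Ts' i - lv' i) + d))) := by ring
    have h3 := abs_sub (PsiT c b x - PsiT c b y)
      ((PsiT c b x - ((Ts i - lv i) + d)) - (PsiT c b y - ((Ts' i - lv' i) + d)))
    rw [← e3] at h3
    have h4 := abs_sub (PsiT c b x - ((Ts i - lv i) + d)) (PsiT c b y - ((Ts' i - lv' i) + d))
    linarith
  have hclose : |x - y| ≤ ε * x := by
    refine (psi_inv hc q0 q6 g2 g2').trans ?_
    refine (mul_le_mul_of_nonneg_left hup (by positivity)).trans ?_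
    exact q3.trans (mul_le_mul_of_nonneg_left g2 hε.le)
  have hxy : Δ / 2 ≤ κ * |x - y| := by
    have h3 := psi_lip (b := b) hc (show 1 ≤ x by linarith) (show 1 ≤ y by linarith)
    rw [← hκ] at h3
    linarith
  obtain ⟨l, hl1, hl2⟩ := PF.init _ _ _ _ _ _ hp hp' (q1.trans g2) (q1.trans g2') hclose
  have hlΛ : l ≤ Λ := by
    refine hl1.trans ?_
    rw [hΛ]
    refine mul_le_mul_of_nonneg_left ?_ hC'
    have k1 := hstart _ x (lv i - d) (by omega) hn hx0 g4 g6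
    have k2 := hstart _ y (lv' i - d) (by omega) hn' hy0 g4' g6'
    linarith
  have hw := PF.wil _ _ _ _ _ _ _ hp hp' hl2 (q1.trans g2) (q1.trans g2') hclose
  -- multiply by `κ * x ^ 2`
  have k1 : c0 * |x - y| ≤ x ^ 2 * |WW μ χ (TTn μ (Zs i) (lv i - d)) -
      WW μ χ (TTn μ (Zs' i) (lv' i - d))| + C' * l / x := by
    have h3 := mul_le_mul_of_nonneg_left hw (show 0 ≤ x ^ 2 by positivity)
    have e3 : x ^ 2 * (c0 * |x - y| / x ^ 2) = c0 * |x - y| := by field_simp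
    have e4 : x ^ 2 * (|WW μ χ (TTn μ (Zs i) (lv i - d)) -
        WW μ χ (TTn μ (Zs' i) (lv' i - d))| + C' * l / x ^ 3) = x ^ 2 *
        |WW μ χ (TTn μ (Zs i) (lv i - d)) - WW μ χ (TTn μ (Zs' i) (lv' i - d))| +
        C' * l / x := by field_simp
    rw [e3, e4] at h3
    exact h3
  have k2 : x ^ 2 * |WW μ χ (TTn μ (Zs i) (lv i - d)) -
      WW μ χ (TTn μ (Zs' i) (lv' i - d))| ≤ c0 * (Δ / 4) / κ := by
    have h3 : x ^ 2 ≤ (Cu * d) ^ 2 := pow_le_pow_left₀ hx0.le g4 2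
    have h4 := mul_le_mul h3 b5.le (abs_nonneg _) (by positivity : 0 ≤ (Cu * (d : ℝ)) ^ 2)
    refine h4.trans (le_of_eq ?_)
    field_simp
  have k3 : C' * l / x ≤ C' * Λ * (4 / c) / d := by
    rw [div_le_div_iff₀ hx0 hdr]
    have h3 : C' * l ≤ C' * Λ := mul_le_mul_of_nonneg_left hlΛ hC'
    calc C' * l * d ≤ C' * Λ * d := mul_le_mul_of_nonneg_right h3 hdr.le
      _ = C' * Λ * (4 / c) * (c / 4 * d) := by field_simp
      _ ≤ C' * Λ * (4 / c) * x := mul_le_mul_of_nonneg_left g3 (by positivity)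
  have k4 : κ * (c0 * |x - y|) ≤ κ * (c0 * (Δ / 4) / κ + C' * Λ * (4 / c) / d) :=
    mul_le_mul_of_nonneg_left (by linarith) hκ0.le
  have e5 : κ * (c0 * (Δ / 4) / κ + C' * Λ * (4 / c) / d) =
      c0 * (Δ / 4 + κ * (C' * Λ * (4 / c)) / c0 / d) := by
    field_simp
  rw [e5] at k4
  have k5 : c0 * (Δ / 2) ≤ c0 * (κ * |x - y|) := mul_le_mul_of_nonneg_left hxy hc0.le
  have k6 : c0 * (Δ / 4 + κ * (C' * Λ * (4 / c)) / c0 / d) < c0 * (Δ / 4 + Δ / 4) :=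
    mul_lt_mul_of_pos_left (by linarith) hc0
  have e6 : κ * (c0 * |x - y|) = c0 * (κ * |x - y|) := by ring
  rw [e6] at k4
  have e7 : c0 * (Δ / 4 + Δ / 4) = c0 * (Δ / 2) := by ring
  linarith

end

end Pool.Agent.N989.MK
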