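import Mathlib
import Pool.Agent.N989.MK.Fam3

/-!
# The one-parameter family of the continuum limits: construction and properties
-/

open MeasureTheory Pool.Agent.N991.MK Filter
open scoped Topology

namespace Pool.Agent.N989.MK

set_option linter.unusedSectionVars false

noncomputable section

/-- the logarithm is small compared to the identity -/
lemma log_div_tendsto {l : ℕ → ℕ} (hl : Tendsto l atTop atTop) :
    Tendsto (fun i => Real.log (l i) / (l i : ℝ)) atTop (𝓝 0) := by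
  have h1 : Tendsto (fun x : ℝ => Real.log x / x) atTop (𝓝 0) :=
    Real.isLittleO_log_id_atTop.tendsto_div_nhds_zero
  exact h1.comp (tendsto_natCast_atTop_atTop.comp hl)

/-- the time of the sequences of couplings with a given asymptotics -/
lemma time_lim {c b s : ℝ} (hc : 0 < c) {β : ℕ → ℝ} {l : ℕ → ℕ} (hl : Tendsto l atTop atTop)
    (hs : Tendsto (fun i => β i - c * l i + b / c * Real.log (l i)) atTop (𝓝 s)) (τ : ℝ) :
    Tendsto β atTop atTop ∧
      Tendsto (fun i => PsiT c b (β i + τ) - l i) atTop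
        (𝓝 ((s + τ + b / c * Real.log c) / c)) := by
  have hlr : Tendsto (fun i => (l i : ℝ)) atTop atTop := tendsto_natCast_atTop_atTop.comp hl
  have hl0 : ∀ᶠ i in atTop, (0 : ℝ) < l i := hlr.eventually (eventually_gt_atTop 0)
  have h1 := log_div_tendsto hl
  have h2 : Tendsto (fun i => (β i - c * l i + b / c * Real.log (l i)) / (l i : ℝ)) atTop (𝓝 0) :=
    hs.div_atTop hlr
  have hq : ∀ t : ℝ, Tendsto (fun i => (β i + t) / (l i : ℝ)) atTop (𝓝 c) := by
    intro t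
    have h3 : Tendsto (fun i => t / (l i : ℝ)) atTop (𝓝 0) :=
      tendsto_const_nhds.div_atTop hlr
    have h4 := ((h2.add_const c).sub (h1.const_mul (b / c))).add h3
    rw [mul_zero, sub_zero, zero_add, add_zero] at h4
    refine h4.congr' ?_
    filter_upwards [hl0] with i hi
    field_simp
    ring
  have hβ : Tendsto β atTop atTop := by
    have h3 := (hq 0).pos_mul_atTop hc hlr
    refine h3.congr' ?_
    filter_upwards [hl0] with i hi
    rw [add_zero]
    field_simp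
  refine ⟨hβ, ?_⟩
  have h5 : Tendsto (fun i => Real.log ((β i + τ) / (l i : ℝ))) atTop (𝓝 (Real.log c)) :=
    (Real.continuousAt_log hc.ne').tendsto.comp (hq τ)
  have h6 := ((hs.add_const τ).add (h5.const_mul (b / c))).div_const c
  refine h6.congr' ?_
  filter_upwards [hl0, hβ.eventually (eventually_gt_atTop (-τ))] with i hi hi2
  have hp : 0 < β i + τ := by linarith
  rw [Real.log_div hp.ne' hi.ne']
  unfold PsiT
  field_simp
  ring

/-- a sequence of couplings with a given asymptotics -/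
def bref (c b s : ℝ) (i : ℕ) : ℝ := c * ((i + 1 : ℕ) : ℝ) - b / c * Real.log ((i + 1 : ℕ) : ℝ) + s

lemma bref_lim (c b s : ℝ) :
    Tendsto (fun i => bref c b s i - c * ((i + 1 : ℕ) : ℝ) + b / c * Real.log ((i + 1 : ℕ) : ℝ))
      atTop (𝓝 s) := by
  have : (fun i => bref c b s i - c * ((i + 1 : ℕ) : ℝ) + b / c * Real.log ((i + 1 : ℕ) : ℝ)) =
      fun _ => s := by
    funext i
    unfold bref
    ring
  rw [this]
  exact tendsto_const_nhds

variable {G : Type*} [Group G] [TopologicalSpace G] [IsTopologicalGroup G] [CompactSpace G]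
  [MeasurableSpace G] [BorelSpace G] [SecondCountableTopology G]
  {μ : Measure G} [IsProbabilityMeasure μ] [μ.IsHaarMeasure] [μ.IsMulRightInvariant]
  [μ.IsInvInvariant] {χ : G → ℝ} {n : ℕ} {D : ED G n}
  {P : (G → ℝ) → ℝ → ℝ → Prop} {Q : (G → ℝ) → (G → ℝ) → ℝ → ℝ → ℝ → Prop}
  {h1 ε C' c0 : ℝ} {Dm : ℕ} {c b A R H C4 K hq τ : ℝ} {Zb : ℝ → G → ℝ}

/-- a family of plaquette weights with stopped trajectories -/
structure Ent3 (μ : Measure G) (χ : G → ℝ) (D : ED G n) (P : (G → ℝ) → ℝ → ℝ → Prop)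
    (c b A R H C4 K hq τ : ℝ) (Zb : ℝ → G → ℝ) : Prop where
  adm : ∀ β, Adm (Zb β)
  tj : ∀ β, H ≤ β → HT μ χ D P c b A R H C4 K hq (Zb β) (PsiT c b (β + τ))

/-- the limit along the sequences of couplings with the parameter `s` -/
def Lt (μ : Measure G) (c b : ℝ) (Zb : ℝ → G → ℝ) (s : ℝ) (Fk : ℤ → G → ℝ) : Prop :=
  ∀ (β : ℕ → ℝ) (l : ℕ → ℕ), Tendsto l atTop atTop →
    Tendsto (fun i => β i - c * l i + b / c * Real.log (l i)) atTop (𝓝 s) →
    CT μ (fun i => Zb (β i)) l Fk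

lemma succ_tendsto : Tendsto (fun i : ℕ => i + 1) atTop atTop := tendsto_add_atTop_nat 1

lemma Lt.ref {s : ℝ} {Fk : ℤ → G → ℝ} (h : Lt μ c b Zb s Fk) :
    CT μ (fun i => Zb (bref c b s i)) (fun i => i + 1) Fk :=
  h _ _ succ_tendsto (bref_lim c b s)

lemma Lt.unique {s : ℝ} {Fk Fk' : ℤ → G → ℝ} (h : Lt μ c b Zb s Fk) (h' : Lt μ c b Zb s Fk') :
    Fk = Fk' := CT.unique h.ref h'.ref

lemma Ent3.ev (E : Ent3 μ χ D P c b A R H C4 K hq τ Zb) {β : ℕ → ℝ}
    (hβ : Tendsto β atTop atTop) : ∀ᶠ i in atTop,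
      HT μ χ D P c b A R H C4 K hq (Zb (β i)) (PsiT c b (β i + τ)) := by
  filter_upwards [hβ.eventually (eventually_ge_atTop H)] with i hi
  exact E.tj _ hi

/-- **the limit exists for every parameter** -/
theorem exists_Lt (S : Cst D P c b A R H C4 K hq) (PF : PairFlow3 μ χ P Q h1 ε C' c0 Dm)
    (ho : Obs μ χ) {m : ℕ} (hg : Gen D m 1)
    (hnb : ∀ δ : ℝ, 0 < δ → {g : G | ∃ X, qf X ≤ δ ∧ g = D.E X} ∈ 𝓝 (1 : G))
    (E : Ent3 μ χ D P c b A R H C4 K hq τ Zb) (s : ℝ) :
    ∃ Fk : ℤ → G → ℝ, LimP μ χ D c b A Fk ∧ Lt μ c b Zb s Fk := by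
  have hc := S.c_pos
  obtain ⟨t1, t2⟩ := time_lim hc succ_tendsto (bref_lim c b s) τ
  obtain ⟨Fk, hF, hU⟩ := exists_limit S PF ho hg hnb (Zs := fun i => Zb (bref c b s i))
    (fun i => E.adm _) succ_tendsto (E.ev t1) t2
  refine ⟨Fk, hF, fun β l hl hs => ?_⟩
  obtain ⟨t1', t2'⟩ := time_lim hc hl hs τ
  exact same_limit S PF (fun i => E.adm _) succ_tendsto hl (E.ev t1) (E.ev t1') t2 t2' hF hU

/-- **universality** -/
theorem Lt.univ (S : Cst D P c b A R H C4 K hq) (PF : PairFlow3 μ χ P Q h1 ε C' c0 Dm)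
    {Zb' : ℝ → G → ℝ} {τ' : ℝ} (E : Ent3 μ χ D P c b A R H C4 K hq τ Zb)
    (E' : Ent3 μ χ D P c b A R H C4 K hq τ' Zb') {s : ℝ} {Fk : ℤ → G → ℝ}
    (hF : LimP μ χ D c b A Fk) (h : Lt μ c b Zb s Fk) : Lt μ c b Zb' (s + (τ - τ')) Fk := by
  intro β l hl hs
  have hc := S.c_pos
  obtain ⟨t1, t2⟩ := time_lim hc succ_tendsto (bref_lim c b s) τ
  obtain ⟨t1', t2'⟩ := time_lim hc hl hs τ'
  have e : s + (τ - τ') + τ' = s + τ := by ring
  rw [e] at t2'
  exact same_limit S PF (fun i => E'.adm _) succ_tendsto hl (E.ev t1) (E'.ev t1') t2 t2' hF h.ref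

/-- **different parameters give different limits** -/
theorem Lt.inj (S : Cst D P c b A R H C4 K hq) (PF : PairFlow3 μ χ P Q h1 ε C' c0 Dm)
    (ho : Obs μ χ) (E : Ent3 μ χ D P c b A R H C4 K hq τ Zb) {s s' : ℝ} {Fk : ℤ → G → ℝ}
    (hF : LimP μ χ D c b A Fk) (h : Lt μ c b Zb s Fk) (h' : Lt μ c b Zb s' Fk) : s = s' := by
  have hc := S.c_pos
  obtain ⟨t1, t2⟩ := time_lim hc succ_tendsto (bref_lim c b s) τ
  obtain ⟨t1', t2'⟩ := time_lim hc succ_tendsto (bref_lim c b s') τ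
  have h2 := time_unique S PF ho (fun i => E.adm _) (fun i => E.adm _) succ_tendsto succ_tendsto
    (E.ev t1) (E.ev t1') t2 t2' hF h.ref h'.ref
  rw [div_left_inj' hc.ne'] at h2
  linarith

/-- **the change of the unit of length** -/
theorem Lt.shift {s : ℝ} {Fk : ℤ → G → ℝ} (h : Lt μ c b Zb s Fk) :
    Lt μ c b Zb (s - c) (fun k => Fk (k + 1)) := by
  intro β l hl hs
  -- the level `l - 1` has the parameter `s`
  have hl' : Tendsto (fun i => l i - 1) atTop atTop := (tendsto_sub_atTop_nat 1).comp hl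
  have hlr : Tendsto (fun i => (l i : ℝ)) atTop atTop := tendsto_natCast_atTop_atTop.comp hl
  have h1 : Tendsto (fun i => Real.log (((l i - 1 : ℕ) : ℝ) / (l i : ℝ))) atTop (𝓝 0) := by
    have h2 : Tendsto (fun i => 1 - 1 / (l i : ℝ)) atTop (𝓝 (1 - 0)) :=
      (tendsto_const_nhds.div_atTop hlr).const_sub 1
    rw [sub_zero] at h2
    have h3 : Tendsto (fun i => Real.log (1 - 1 / (l i : ℝ))) atTop (𝓝 (Real.log 1)) :=
      (Real.continuousAt_log one_ne_zero).tendsto.comp h2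
    rw [Real.log_one] at h3
    refine h3.congr' ?_
    filter_upwards [hl.eventually (eventually_ge_atTop 1)] with i hi
    have hi0 : (0 : ℝ) < l i := by exact_mod_cast (by omega : 0 < l i)
    rw [Nat.cast_sub hi]
    congr 1
    field_simp
    simp
  have h2 : Tendsto (fun i => β i - c * ((l i - 1 : ℕ) : ℝ) +
      b / c * Real.log ((l i - 1 : ℕ) : ℝ)) atTop (𝓝 s) := by
    have h3 := (hs.add_const c).add (h1.const_mul (b / c))
    rw [mul_zero, add_zero, sub_add_cancel] at h3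
    refine h3.congr' ?_
    filter_upwards [hl.eventually (eventually_ge_atTop 2)] with i hi
    have hi0 : (0 : ℝ) < l i := by exact_mod_cast (by omega : 0 < l i)
    have hi1 : (0 : ℝ) < ((l i - 1 : ℕ) : ℝ) := by exact_mod_cast (by omega : 0 < l i - 1)
    rw [Real.log_div hi1.ne' hi0.ne', Nat.cast_sub (by omega : 1 ≤ l i)]
    push_cast
    ring
  have h3 := h β (fun i => l i - 1) hl' h2
  intro k e he
  filter_upwards [h3 (k + 1) e he, hl.eventually (eventually_ge_atTop 1)] with i a1 a2 x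
  have b1 := a1 x
  have e1 : (((l i - 1 : ℕ) : ℤ) + (k + 1)).toNat = ((l i : ℤ) + k).toNat := by omega
  rw [e1] at b1
  exact b1

section

variable {F : ℝ → ℤ → G → ℝ}

lemma shift_one (hL : ∀ s, Lt μ c b Zb s (F s)) (s : ℝ) (k : ℤ) : F (s - c) k = F s (k + 1) :=
  congrFun ((hL (s - c)).unique (hL s).shift) k

lemma shift_nat (hL : ∀ s, Lt μ c b Zb s (F s)) (s : ℝ) (k : ℤ) (j : ℕ) :
    F (s - c * j) k = F s (k + j) := by
  induction j generalizing k with
  | zero => simp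
  | succ j ih =>
    have e : s - c * ((j + 1 : ℕ) : ℝ) = s - c * j - c := by push_cast; ring
    rw [e, shift_one hL, ih]
    congr 1
    push_cast
    ring

lemma shift_nat' (hL : ∀ s, Lt μ c b Zb s (F s)) (s : ℝ) (k : ℤ) (j : ℕ) :
    F (s + c * j) k = F s (k - j) := by
  have h := shift_nat hL (s + c * j) (k - j) j
  rw [show s + c * j - c * j = s by ring, sub_add_cancel] at h
  exact h.symm

/-- **the limit depends continuously on the parameter** -/
theorem cont_seq (hL : ∀ s, Lt μ c b Zb s (F s)) {sq : ℕ → ℝ} {s : ℝ}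
    (hs : Tendsto sq atTop (𝓝 s)) (k : ℤ) : UT (fun i => F (sq i) k) (F s k) := by
  have hex : ∀ i : ℕ, ∃ j, i ≤ j ∧ ∀ k ∈ Finset.Icc (-(i : ℤ)) i, ∀ x,
      |nrm μ (TTn μ (Zb (bref c b (sq i) j)) (((j + 1 : ℕ) : ℤ) + k).toNat) x - F (sq i) k x| <
        1 / ((i : ℝ) + 1) := by
    intro i
    have h1 : ∀ᶠ j in atTop, ∀ k ∈ Finset.Icc (-(i : ℤ)) i, ∀ x,
        |nrm μ (TTn μ (Zb (bref c b (sq i) j)) (((j + 1 : ℕ) : ℤ) + k).toNat) x -
          F (sq i) k x| < 1 / ((i : ℝ) + 1) := by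
      rw [Filter.eventually_all_finset]
      intro k _
      exact (hL (sq i)).ref k _ (by positivity)
    exact ((eventually_ge_atTop i).and h1).exists
  choose j hj1 hj2 using hex
  have hjt : Tendsto (fun i => j i + 1) atTop atTop :=
    tendsto_atTop_mono (fun i => (hj1 i).trans (Nat.le_succ _)) tendsto_id
  have h1 := hL s (fun i => bref c b (sq i) (j i)) (fun i => j i + 1) hjt (by
    refine hs.congr fun i => ?_
    unfold bref
    ring)
  intro e he
  have h2 : Tendsto (fun i : ℕ => 1 / ((i : ℝ) + 1)) atTop (𝓝 0) :=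
    tendsto_one_div_add_atTop_nhds_zero_nat
  filter_upwards [h1 k (e / 2) (half_pos he), h2.eventually (gt_mem_nhds (half_pos he)),
    eventually_ge_atTop k.natAbs] with i a1 a2 a3 x
  have b1 := a1 x
  have b2 := hj2 i k (Finset.mem_Icc.2 ⟨by omega, by omega⟩) x
  have b3 := abs_sub_le (F (sq i) k x)
    (nrm μ (TTn μ (Zb (bref c b (sq i) (j i))) (((j i + 1 : ℕ) : ℤ) + k).toNat) x) (F s k x)
  rw [abs_sub_comm] at b2
  linarith

/-- joint continuity -/
theorem cont_joint (hL : ∀ s, Lt μ c b Zb s (F s)) (hA : ∀ s k, Adm (F s k)) (k : ℤ) :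
    Continuous fun p : ℝ × G => F p.1 k p.2 := by
  rw [continuous_iff_continuousAt]
  rintro ⟨s, x⟩
  have h1 : ∀ e : ℝ, 0 < e → ∀ᶠ s' in 𝓝 s, ∀ y, |F s' k y - F s k y| < e := by
    intro e he
    by_contra hcon
    rw [Filter.not_eventually] at hcon
    obtain ⟨sq, hsq, hbad⟩ := Filter.exists_seq_forall_of_frequently hcon
    obtain ⟨i, hi⟩ := (cont_seq hL hsq k e he).exists
    exact hbad i hi
  rw [ContinuousAt, Metric.tendsto_nhds]
  intro e he
  have h2 := h1 (e / 2) (half_pos he)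
  have h3 := (hA s k).cont.continuousAt (x := x)
  rw [ContinuousAt, Metric.tendsto_nhds] at h3
  have h4 := h3 (e / 2) (half_pos he)
  rw [nhds_prod_eq]
  filter_upwards [h2.prod_inl (𝓝 x), h4.prod_inr (𝓝 s)] with p a1 a2
  have b1 := a1 p.2
  rw [Real.dist_eq] at a2 ⊢
  have := abs_sub_le (F p.1 k p.2) (F s k p.2) (F s k x)
  linarith

lemma cont_W (ho : Obs μ χ) (hL : ∀ s, Lt μ c b Zb s (F s)) (hA : ∀ s k, Adm (F s k)) (k : ℤ) :
    Continuous fun s => WW μ χ (F s k) := by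
  refine SeqContinuous.continuous fun sq s hs => ?_
  exact UT.W ho (fun i => (hA _ k).cont) (hA s k) (cont_seq hL hs k)

/-- **all values of the mean are attained** -/
theorem W_onto (S : Cst D P c b A R H C4 K hq) (ho : Obs μ χ) {m : ℕ} (hg : Gen D m 1)
    (hL : ∀ s, Lt μ c b Zb s (F s)) (hF : ∀ s, LimP μ χ D c b A (F s)) {u : ℝ} (hu0 : 0 < u)
    (hu1 : u < 1) : ∃ s, WW μ χ (F s 0) = u := by
  have hc := S.c_pos
  have hA0 := S.A_nn
  have hb := S.b_np
  have hA : ∀ s k, Adm (F s k) := fun s k => (hF s).adm k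
  -- the mean tends to one at the small scales
  obtain ⟨j1, hj1⟩ : ∃ j : ℕ, u < WW μ χ (F (0 + c * j) 0) := by
    obtain ⟨C5, hC5, haf⟩ := (hF 0).af
    have h1 : Tendsto (fun j : ℕ => (A / c + C5) / (j : ℝ)) atTop (𝓝 0) :=
      tendsto_const_div_atTop_nhds_zero_nat _
    obtain ⟨j, a1, a2⟩ := ((h1.eventually (gt_mem_nhds (show 0 < 1 - u by linarith))).and
      (eventually_ge_atTop 1)).exists
    refine ⟨j, ?_⟩
    rw [shift_nat' hL, zero_sub]
    have hj : (1 : ℝ) ≤ j := by exact_mod_cast a2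
    have hj0 : (0 : ℝ) < j := by linarith
    have h2 := (abs_le.1 (haf j a2)).2
    have hlj : 0 ≤ Real.log j := Real.log_nonneg hj
    have h3 : c * j ≤ c * j - b / c * Real.log j := by
      have : 0 ≤ -b / c * Real.log j := mul_nonneg (div_nonneg (by linarith) hc.le) hlj
      have e : -b / c * Real.log j = -(b / c * Real.log j) := by ring
      linarith
    have h4 : A / (c * j - b / c * Real.log j) ≤ A / (c * j) :=
      div_le_div_of_nonneg_left hA0 (by positivity) h3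
    have h5 : C5 / (j : ℝ) ^ 2 ≤ C5 / j := by
      refine div_le_div_of_nonneg_left hC5 hj0 ?_
      nlinarith
    have e : (A / c + C5) / (j : ℝ) = A / (c * j) + C5 / j := by
      field_simp
    rw [e] at a1
    linarith
  -- the mean tends to zero at the large scales
  obtain ⟨j2, hj2⟩ : ∃ j : ℕ, WW μ χ (F (0 - c * j) 0) < u := by
    obtain ⟨K', hK', hsc⟩ := (hF 0).sc 0
    obtain ⟨σ, s1, s2⟩ := ho.tension hg hK' (hA 0 0) hsc ((hF 0).w 0).1
    have h1 : Tendsto (fun k : ℕ => (4 : ℝ) ^ k) atTop atTop :=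
      tendsto_pow_atTop_atTop_of_one_lt (by norm_num)
    have h2 := s2.pos_mul_atTop s1 h1
    obtain ⟨j, hj⟩ := (h2.eventually (eventually_gt_atTop (-Real.log u))).exists
    refine ⟨j, ?_⟩
    rw [shift_nat hL, zero_add]
    unfold al wl at hj
    rw [div_mul_cancel₀ _ (by positivity)] at hj
    have h3 : ∀ j : ℕ, nrm μ (TTn μ (F 0 0) j) = F 0 j := by
      intro j
      induction j with
      | zero =>
        have e : TTn μ (F 0 0) 0 = F 0 0 := rfl
        rw [e]
        unfold Pool.Agent.N989.MK.nrm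
        rw [(hF 0).one]
        funext x
        simp
      | succ j ih =>
        have e : TTn μ (F 0 0) (j + 1) = TT μ (TTn μ (F 0 0) j) := rfl
        rw [e, ← nrm_TT_nrm ((hA 0 0).TTn j), ih, ← (hF 0).step]
        congr 1
    have h4 : WW μ χ (TTn μ (F 0 0) j) = WW μ χ (F 0 j) := by
      rw [← h3 j, WW_nrm ((hA 0 0).TTn j)]
    rw [h4] at hj
    have h5 := ((hF 0).w j).1
    exact (Real.log_lt_log_iff h5 hu0).1 (by linarith)
  have hcW := cont_W ho hL hA 0
  have h12 : (0 : ℝ) - c * j2 ≤ 0 + c * j1 := by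
    have : 0 ≤ c * (j2 : ℝ) := by positivity
    have : 0 ≤ c * (j1 : ℝ) := by positivity
    linarith
  obtain ⟨s, -, hs⟩ := intermediate_value_Icc h12 hcW.continuousOn ⟨hj2.le, hj1.le⟩
  exact ⟨s, hs⟩

/-- **every sequence with a convergent mean has its limit points in the family** -/
theorem conv_of_W (S : Cst D P c b A R H C4 K hq) (PF : PairFlow3 μ χ P Q h1 ε C' c0 Dm)
    (ho : Obs μ χ) {m : ℕ} (hg : Gen D m 1) {Zb' : ℝ → G → ℝ} {τ' : ℝ}
    (E : Ent3 μ χ D P c b A R H C4 K hq τ Zb) (E' : Ent3 μ χ D P c b A R H C4 K hq τ' Zb')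
    (Fm : FamG D Zb') (hL : ∀ s, Lt μ c b Zb s (F s)) (hF : ∀ s, LimP μ χ D c b A (F s))
    {u : ℝ} (hu0 : 0 < u) (hu1 : u < 1) {β : ℕ → ℝ} {l : ℕ → ℕ} (hβ : ∀ i, 0 ≤ β i)
    (hl : Tendsto l atTop atTop)
    (hW : Tendsto (fun i => WW μ χ (TTn μ (Zb' (β i)) (l i))) atTop (𝓝 u)) :
    ∃ (φ : ℕ → ℕ) (s : ℝ), StrictMono φ ∧ WW μ χ (F s 0) = u ∧
      CT μ (fun i => Zb' (β (φ i))) (fun i => l (φ i)) (F s) := by
  have hc := S.c_pos
  have hβt : Tendsto β atTop atTop := by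
    rw [tendsto_atTop]
    intro B
    obtain ⟨n0, hn0⟩ := Fm.far ho hg (half_pos hu0) B
    filter_upwards [hl.eventually (eventually_ge_atTop n0),
      hW.eventually (lt_mem_nhds (show u / 2 < u by linarith))] with i hi h2
    by_contra hcon
    push Not at hcon
    have := hn0 (l i) hi (β i) (hβ i) hcon.le
    exact lt_irrefl _ (this.trans h2)
  obtain ⟨L, hLw⟩ := window3 (u1 := u / 2) (u2 := (1 + u) / 2) S ho hg (half_pos hu0) (by linarith)
  have hEv := E'.ev hβt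
  obtain ⟨B, hB⟩ : ∃ B : ℝ, B = C4 + (H / c + |b| / c ^ 2 * Real.log H) + L := ⟨_, rfl⟩
  have hbd : ∀ᶠ i in atTop, PsiT c b (β i + τ') - l i ∈ Set.Icc (-B) B := by
    filter_upwards [hEv, hW.eventually (lt_mem_nhds (show u / 2 < u by linarith)),
      hW.eventually (gt_mem_nhds (show u < (1 + u) / 2 by linarith))] with i ⟨J, h, ρ, t⟩ a1 a2
    obtain ⟨w1, w2⟩ := hLw _ _ _ _ _ (E'.adm _) t _ a1.le a2.le
    have h1 := abs_le.1 (TJ.time S t)
    have w1' : (l i : ℝ) ≤ J + L := by exact_mod_cast w1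
    have w2' : (J : ℝ) ≤ l i + L := by exact_mod_cast w2
    rw [hB, Set.mem_Icc]
    constructor <;> linarith
  obtain ⟨tt, -, φ, hφ, hφt⟩ := isCompact_Icc.tendsto_subseq' hbd.frequently
  have hφa := hφ.tendsto_atTop
  obtain ⟨s, hs⟩ : ∃ s : ℝ, s = c * tt - τ - b / c * Real.log c := ⟨_, rfl⟩
  obtain ⟨t1, t2⟩ := time_lim hc succ_tendsto (bref_lim c b s) τ
  have e1 : (s + τ + b / c * Real.log c) / c = tt := by
    rw [hs]
    field_simp
    ring
  rw [e1] at t2
  have hct := same_limit (Zs' := fun i => Zb' (β (φ i))) (Ts' := fun i => PsiT c b (β (φ i) + τ'))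
    (lv' := fun i => l (φ i)) S PF (fun i => E'.adm _) succ_tendsto (hl.comp hφa) (E.ev t1)
    (hφa.eventually hEv) t2 hφt (hF s) (hL s).ref
  refine ⟨φ, s, hφ, ?_, hct⟩
  have h3 := UT.W ho (fun i => ((E'.adm (β (φ i))).TTn (μ := μ)
    (((l (φ i) : ℕ) : ℤ) + 0).toNat).nrm.cont) ((hF s).adm 0) (hct 0)
  have h4 := hW.comp hφa
  refine tendsto_nhds_unique h3 (h4.congr fun i => ?_)
  rw [WW_nrm ((E'.adm _).TTn (μ := μ) _)]
  have e2 : (((l (φ i) : ℕ) : ℤ) + 0).toNat = l (φ i) := by omega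
  rw [e2]
  rfl

end

end

end Pool.Agent.N989.MK
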