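import Mathlib
import Pool.Agent.N989.MK.Fam4

/-!
# The two extreme regimes
-/

open MeasureTheory Pool.Agent.N991.MK Filter
open scoped Topology

namespace Pool.Agent.N989.MK

set_option linter.unusedSectionVars false

noncomputable section

variable {G : Type*} [Group G] [TopologicalSpace G] [IsTopologicalGroup G] [CompactSpace G]
  [MeasurableSpace G] [BorelSpace G] [SecondCountableTopology G]
  {μ : Measure G} [IsProbabilityMeasure μ] [μ.IsHaarMeasure] [μ.IsMulRightInvariant]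
  [μ.IsInvInvariant] {χ : G → ℝ} {n : ℕ} {D : ED G n}
  {P : (G → ℝ) → ℝ → ℝ → Prop} {c b A R H C4 K hq τ : ℝ} {Zb : ℝ → G → ℝ}

/-- uniform approach to the infinite temperature fixed point -/
lemma unif_small {m : ℕ} (hg : Gen D m 1) {K : ℝ} (hK : 0 ≤ K) {e : ℝ} (he : 0 < e) :
    ∃ M : ℕ, ∀ Z : G → ℝ, Adm Z → SC D K Z → ∀ j ≥ M, ∀ x, |nrm μ (TTn μ Z j) x - 1| < e := by
  obtain ⟨k0, hk0⟩ := exists_small (μ := μ) hg hK
  have h1 : Tendsto (fun l : ℕ => 10 / 21 * (21 / 100 : ℝ) ^ 4 ^ l) atTop (𝓝 (10 / 21 * 0)) :=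
    ((tendsto_pow_atTop_nhds_zero_of_lt_one (by norm_num) (by norm_num)).comp
      (tendsto_pow_atTop_atTop_of_one_lt (by norm_num))).const_mul _
  rw [mul_zero] at h1
  obtain ⟨l0, hl0⟩ := eventually_atTop.1 (h1.eventually (gt_mem_nhds he))
  refine ⟨k0 + l0, fun Z hZ hs j hj x => ?_⟩
  obtain ⟨l, rfl⟩ := Nat.exists_eq_add_of_le hj
  have h2 := (hk0 Z hZ hs).TTn (hZ.TTn k0) (l0 + l) x
  rw [← TTn_add, ← add_assoc] at h2
  have hI := (hZ.TTn (μ := μ) (k0 + l0 + l)).ipos (μ := μ)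
  have e1 : nrm μ (TTn μ Z (k0 + l0 + l)) x - 1 = (TTn μ Z (k0 + l0 + l) x -
      ∫ y, TTn μ Z (k0 + l0 + l) y ∂μ) / ∫ y, TTn μ Z (k0 + l0 + l) y ∂μ := by
    unfold Pool.Agent.N989.MK.nrm
    field_simp
  rw [e1, abs_div, abs_of_pos hI, div_lt_iff₀ hI]
  refine h2.trans_lt (mul_lt_mul_of_pos_right ?_ hI)
  exact hl0 (l0 + l) (by omega)

/-- **the strong coupling regime**: the parameter tends to `-∞` -/
theorem lim_strong (S : Cst D P c b A R H C4 K hq) {m : ℕ} (hg : Gen D m 1)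
    (E : Ent3 μ χ D P c b A R H C4 K hq τ Zb) (Fm : FamG D Zb) {β : ℕ → ℝ} {l : ℕ → ℕ}
    (hβ : ∀ i, 0 ≤ β i) (hl : Tendsto l atTop atTop)
    (hs : Tendsto (fun i => β i - c * l i + b / c * Real.log (l i)) atTop atBot) :
    CT μ (fun i => Zb (β i)) l (fun _ _ => 1) := by
  have hc := S.c_pos
  have hb := S.b_np
  have hC := S.C_nn
  obtain ⟨K1, hK1, hsc⟩ := Fm.scb
  have hH : 1 ≤ H := S.H1
  -- the constant below which nothing is needed
  obtain ⟨H', hH'⟩ : ∃ H' : ℝ, H' = H + |τ| + 1 := ⟨_, rfl⟩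
  have hτ0 := abs_nonneg τ
  have hτ1 := neg_abs_le τ
  have hτ2 := le_abs_self τ
  have hH'0 : 0 ≤ H' := by rw [hH']; positivity
  intro k e he
  obtain ⟨M1, hM1⟩ := unif_small (μ := μ) hg (mul_nonneg hK1 hH'0) he
  obtain ⟨M2, hM2⟩ := unif_small (μ := μ) hg S.K_nn he
  obtain ⟨B, hB⟩ : ∃ B : ℝ, B = C4 + (H / c + |b| / c ^ 2 * Real.log H) := ⟨_, rfl⟩
  -- the large distance from the stopping time
  obtain ⟨Y, hY⟩ : ∃ Y : ℝ, Y = c * (B + M2 + k.natAbs) := ⟨_, rfl⟩
  have hlr : Tendsto (fun i => (l i : ℝ)) atTop atTop := tendsto_natCast_atTop_atTop.comp hl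
  filter_upwards [hl.eventually (eventually_ge_atTop (M1 + k.natAbs)),
    hlr.eventually (eventually_ge_atTop (2 * Y / c)),
    hs.eventually (eventually_le_atBot (-(Y + |τ| + |b| / c * |Real.log (c / 2)|))),
    hl.eventually (eventually_ge_atTop 1)] with i a1 a2 a3 a4 x
  have hli : (1 : ℝ) ≤ l i := by exact_mod_cast a4
  have hli0 : (0 : ℝ) < l i := by linarith
  rcases le_or_gt (β i) H' with h1 | h1
  · refine hM1 _ (E.adm _) (SC.mono (mul_le_mul_of_nonneg_left h1 hK1) (hsc _ (hβ i))) _ ?_ x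
    omega
  · obtain ⟨J, h, ρ, t⟩ := E.tj (β i) (by linarith)
    have hT := abs_le.1 (TJ.time S t)
    rw [← hB] at hT
    have hx1 : 1 ≤ β i + τ := by linarith
    have hx0 : 0 < β i + τ := by linarith
    have hlogx : 0 ≤ Real.log (β i + τ) := Real.log_nonneg hx1
    have hbc : b / c ≤ 0 := div_nonpos_of_nonpos_of_nonneg hb hc.le
    have hPsi : c * (PsiT c b (β i + τ) - l i) ≤ -Y := by
      have e1 : c * (PsiT c b (β i + τ) - l i) =
          (β i - c * l i + b / c * Real.log (l i)) + τ +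
            b / c * (Real.log (β i + τ) - Real.log (l i)) := by
        unfold PsiT
        field_simp
        ring
      rcases le_or_gt (c / 2 * l i) (β i + τ) with h2 | h2
      · have h3 : Real.log (c / 2) ≤ Real.log (β i + τ) - Real.log (l i) := by
          rw [← Real.log_div hx0.ne' hli0.ne']
          exact Real.log_le_log (by positivity) (by rwa [le_div_iff₀ hli0])
        have h4 : b / c * (Real.log (β i + τ) - Real.log (l i)) ≤ b / c * Real.log (c / 2) :=
          mul_le_mul_of_nonpos_left h3 hbc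
        have h5 : b / c * Real.log (c / 2) ≤ |b| / c * |Real.log (c / 2)| := by
          have h6 := le_abs_self (b / c * Real.log (c / 2))
          rwa [abs_mul, abs_div, abs_of_pos hc] at h6
        rw [e1]
        linarith
      · have e2 : c * (PsiT c b (β i + τ) - l i) = (β i + τ) - c * l i +
            b / c * Real.log (β i + τ) := by
          unfold PsiT
          field_simp
          ring
        have h3 : b / c * Real.log (β i + τ) ≤ 0 := mul_nonpos_of_nonpos_of_nonneg hbc hlogx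
        have h4 : Y ≤ c / 2 * l i := by
          rw [div_le_iff₀ hc] at a2
          linarith
        rw [e2]
        linarith
    have hJ : (J : ℝ) + M2 + k.natAbs ≤ l i := by
      have h2 : c * (J : ℝ) ≤ c * (l i - M2 - k.natAbs) := by
        have h3 : c * (J : ℝ) ≤ c * (PsiT c b (β i + τ) + B) :=
          mul_le_mul_of_nonneg_left (by linarith) hc.le
        have e3 : c * (PsiT c b (β i + τ) + B) = c * (PsiT c b (β i + τ) - l i) + c * l i +
          c * B := by ring
        rw [e3] at h3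
        rw [hY] at hPsi
        linarith
      have := le_of_mul_le_mul_left h2 hc
      linarith
    have hJn : J + M2 + k.natAbs ≤ l i := by exact_mod_cast hJ
    obtain ⟨j, hj⟩ : ∃ j : ℕ, ((l i : ℤ) + k).toNat = J + j :=
      ⟨((l i : ℤ) + k).toNat - J, by omega⟩
    rw [hj, TTn_add]
    exact hM2 _ ((E.adm _).TTn _) t.sc j (by omega) x

/-- **the weak coupling regime**: the parameter tends to `∞` -/
theorem lim_weak (S : Cst D P c b A R H C4 K hq) (ho : Obs μ χ)
    (E : Ent3 μ χ D P c b A R H C4 K hq τ Zb) {β : ℕ → ℝ} {l : ℕ → ℕ}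
    (hl : Tendsto l atTop atTop)
    (hs : Tendsto (fun i => β i - c * l i + b / c * Real.log (l i)) atTop atTop) (k : ℤ) :
    Tendsto (fun i => WW μ χ (TTn μ (Zb (β i)) ((l i : ℤ) + k).toNat)) atTop (𝓝 1) := by
  have hc := S.c_pos
  have hb := S.b_np
  have hC := S.C_nn
  have hlr : Tendsto (fun i => (l i : ℝ)) atTop atTop := tendsto_natCast_atTop_atTop.comp hl
  rw [Metric.tendsto_atTop']
  intro e he
  -- the depth
  have hgr := grow hc hC H
  obtain ⟨m0, hm0⟩ := eventually_atTop.1 (hgr.eventually (eventually_gt_atTop (C4 / e)))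
  obtain ⟨B, hB⟩ : ∃ B : ℝ, B = C4 + (H / c + |b| / c ^ 2 * Real.log H) := ⟨_, rfl⟩
  obtain ⟨Y, hY⟩ : ∃ Y : ℝ, Y = c * (B + m0 + k.natAbs) := ⟨_, rfl⟩
  have hlogH : 0 ≤ Real.log H := Real.log_nonneg S.H1
  have hB0 : 0 ≤ B := by
    have := S.H1
    rw [hB]
    positivity
  have hY0 : 0 ≤ Y := by rw [hY]; positivity
  -- the bound of the parameter
  obtain ⟨q0, hq0⟩ : ∃ q0 : ℝ, q0 = c + |b| / c + 1 := ⟨_, rfl⟩
  have hbc0 : 0 ≤ |b| / c := by positivity
  have hq01 : 1 ≤ q0 := by rw [hq0]; linarith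
  have hlq0 : 0 ≤ Real.log q0 := Real.log_nonneg hq01
  obtain ⟨M', hM'⟩ : ∃ M' : ℝ, M' = Y + |b| / c * Real.log q0 := ⟨_, rfl⟩
  have hM'0 : 0 ≤ M' := by rw [hM']; positivity
  obtain ⟨n0, hn0⟩ := eventually_atTop.1
    ((hs.eventually (eventually_ge_atTop (M' + |τ|))).and
      ((hlr.eventually (eventually_ge_atTop (M' + 1))).and
      ((hlr.eventually (eventually_ge_atTop ((H + |τ| + |b| / c) / c))).and
      (hl.eventually (eventually_ge_atTop (k.natAbs + 1))))))
  refine ⟨n0, fun i hi => ?_⟩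
  obtain ⟨a1, a2, a3, a4⟩ := hn0 i hi.le
  have hτ0 := abs_nonneg τ
  have hτ1 := neg_abs_le τ
  have hτ2 := le_abs_self τ
  have hbc : b / c ≤ 0 := div_nonpos_of_nonpos_of_nonneg hb hc.le
  have hbabs : |b| / c = -(b / c) := by rw [abs_of_nonpos hb]; ring
  have hli : (1 : ℝ) ≤ l i := by linarith
  have hli0 : (0 : ℝ) < l i := by linarith
  have hll : 0 ≤ Real.log (l i) := Real.log_nonneg hli
  have hll2 : Real.log (l i) ≤ l i := by
    have := Real.log_le_sub_one_of_pos hli0
    linarith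
  -- the coupling is above `x0`
  obtain ⟨x0, hx0⟩ : ∃ x0 : ℝ, x0 = c * l i + |b| / c * Real.log (l i) + M' := ⟨_, rfl⟩
  have hxx : x0 ≤ β i + τ := by
    have e1 : b / c * Real.log (l i) = -(|b| / c * Real.log (l i)) := by rw [hbabs]; ring
    rw [hx0]
    linarith
  have hp1 : 0 ≤ |b| / c * Real.log (l i) := by positivity
  have hx0c : c * l i ≤ x0 := by rw [hx0]; linarith
  have hx0pos : 0 < x0 := lt_of_lt_of_le (by positivity) hx0c
  have hbig : H + |τ| + |b| / c ≤ c * l i := by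
    rw [div_le_iff₀ hc] at a3
    linarith
  have hx0up : x0 ≤ q0 * l i := by
    have h2 := mul_le_mul_of_nonneg_left hll2 hbc0
    rw [hx0, hq0]
    linarith
  -- monotonicity
  have hmono : x0 - |b| / c * Real.log x0 ≤ (β i + τ) - |b| / c * Real.log (β i + τ) := by
    have hy0 : 0 < β i + τ := hx0pos.trans_le hxx
    have h2 : Real.log (β i + τ) - Real.log x0 ≤ (β i + τ - x0) / x0 := by
      rw [← Real.log_div hy0.ne' hx0pos.ne']
      have h3 := Real.log_le_sub_one_of_pos (div_pos hy0 hx0pos)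
      have e1 : (β i + τ) / x0 - 1 = (β i + τ - x0) / x0 := by field_simp
      linarith
    have h3 : |b| / c * ((β i + τ - x0) / x0) ≤ β i + τ - x0 := by
      rw [mul_div_assoc', div_le_iff₀ hx0pos]
      have h4 : |b| / c ≤ x0 := by linarith [S.H1]
      have h5 := mul_le_mul_of_nonneg_right h4 (show 0 ≤ β i + τ - x0 by linarith)
      linarith
    have h4 := mul_le_mul_of_nonneg_left h2 hbc0
    linarith
  have hlow : c * l i + Y ≤ x0 - |b| / c * Real.log x0 := by
    have h2 : Real.log x0 ≤ Real.log q0 + Real.log (l i) := by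
      rw [← Real.log_mul (by positivity) hli0.ne']
      exact Real.log_le_log hx0pos hx0up
    have h3 := mul_le_mul_of_nonneg_left h2 hbc0
    rw [hx0] at h3 ⊢
    linarith
  have hβH : H ≤ β i := by linarith
  obtain ⟨J, h, ρ, t⟩ := E.tj (β i) hβH
  have hT := abs_le.1 (TJ.time S t)
  rw [← hB] at hT
  have e2 : c * PsiT c b (β i + τ) = (β i + τ) - |b| / c * Real.log (β i + τ) := by
    rw [hbabs]
    unfold PsiT
    field_simp
    ring
  have hJ : (l i : ℝ) + m0 + k.natAbs ≤ J := by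
    have h2 : c * (l i + m0 + k.natAbs) ≤ c * (J : ℝ) := by
      have h3 : c * (PsiT c b (β i + τ) - B) ≤ c * (J : ℝ) :=
        mul_le_mul_of_nonneg_left (by linarith) hc.le
      have e3 : c * (PsiT c b (β i + τ) - B) = c * PsiT c b (β i + τ) - c * B := by ring
      rw [e3, e2] at h3
      rw [hY] at hlow
      linarith
    exact le_of_mul_le_mul_left h2 hc
  have hJn : l i + m0 + k.natAbs ≤ J := by exact_mod_cast hJ
  obtain ⟨j, hj⟩ : ∃ j : ℕ, j = ((l i : ℤ) + k).toNat := ⟨_, rfl⟩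
  rw [← hj]
  obtain ⟨q, hqJ⟩ := Nat.exists_eq_add_of_le (show j ≤ J by omega)
  have h1 := t.as j q hqJ.symm
  have h2 := hm0 q (by omega)
  have h3 : C4 / e < h j := by linarith [(abs_le.1 h1).1]
  have hhj : 0 < h j := by linarith [t.lo j (by omega), S.hq1]
  have h4 := t.w2 j (by omega)
  have h5 : C4 / h j < e := by
    rw [div_lt_iff₀ hhj]
    rw [div_lt_iff₀ he] at h3
    linarith
  have h6 := WW_le_one ho ((E.adm (β i)).TTn (μ := μ) j)
  rw [Real.dist_eq, abs_sub_comm, abs_of_nonneg (by linarith)]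
  linarith

end

end Pool.Agent.N989.MK
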