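import Mathlib
import Pool.Agent.N989.MK.Fam5

/-!
# All convergent sequences of theories
-/

open MeasureTheory Pool.Agent.N991.MK Filter
open scoped Topology

namespace Pool.Agent.N989.MK

set_option linter.unusedSectionVars false

noncomputable section

/-- the cluster points of a real sequence in the extended line -/
lemma cluster3 (x : ℕ → ℝ) : ∃ φ : ℕ → ℕ, StrictMono φ ∧
    (Tendsto (fun i => x (φ i)) atTop atBot ∨ (∃ s, Tendsto (fun i => x (φ i)) atTop (𝓝 s)) ∨
      Tendsto (fun i => x (φ i)) atTop atTop) := by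
  obtain ⟨y, φ, hφ, hy⟩ := CompactSpace.tendsto_subseq (fun i => (x i : EReal))
  refine ⟨φ, hφ, ?_⟩
  have hy' : Tendsto (fun i => (x (φ i) : EReal)) atTop (𝓝 y) := hy
  rcases eq_or_ne y ⊥ with h | h
  · left
    rw [h, EReal.tendsto_nhds_bot_iff_real] at hy'
    rw [tendsto_atBot]
    intro b
    filter_upwards [hy' b] with i hi
    exact (EReal.coe_lt_coe_iff.1 hi).le
  · rcases eq_or_ne y ⊤ with h' | h'
    · right
      right
      rw [h', EReal.tendsto_nhds_top_iff_real] at hy'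
      rw [tendsto_atTop]
      intro b
      filter_upwards [hy' b] with i hi
      exact (EReal.coe_lt_coe_iff.1 hi).le
    · right
      left
      refine ⟨y.toReal, ?_⟩
      rw [← EReal.coe_toReal h' h] at hy'
      exact EReal.tendsto_coe.1 hy'

variable {G : Type*} [Group G] [TopologicalSpace G] [IsTopologicalGroup G] [CompactSpace G]
  [MeasurableSpace G] [BorelSpace G] [SecondCountableTopology G]
  {μ : Measure G} [IsProbabilityMeasure μ] [μ.IsHaarMeasure] [μ.IsMulRightInvariant]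
  [μ.IsInvInvariant] {χ : G → ℝ} {n : ℕ} {D : ED G n}
  {P : (G → ℝ) → ℝ → ℝ → Prop} {Q : (G → ℝ) → (G → ℝ) → ℝ → ℝ → ℝ → Prop}
  {h1 ε C' c0 : ℝ} {Dm : ℕ} {c b A R H C4 K hq τ τ' : ℝ} {Zb Zb' : ℝ → G → ℝ}
  {F : ℝ → ℤ → G → ℝ}

/-- uniform limits of continuous functions are continuous -/
lemma UT.cont {f : ℕ → G → ℝ} {F : G → ℝ} (hf : ∀ i, Continuous (f i)) (h : UT f F) :
    Continuous F := by
  have h1 : TendstoUniformly f F atTop := by
    rw [Metric.tendstoUniformly_iff]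
    intro ε hε
    filter_upwards [h ε hε] with i hi x
    rw [dist_comm, Real.dist_eq]
    exact hi x
  exact h1.continuous (Frequently.of_forall hf)

/-- **the sequences which converge to a given limit theory** -/
theorem CT_iff (S : Cst D P c b A R H C4 K hq) (PF : PairFlow3 μ χ P Q h1 ε C' c0 Dm)
    (ho : Obs μ χ) {m : ℕ} (hg : Gen D m 1) (E : Ent3 μ χ D P c b A R H C4 K hq τ Zb)
    (E' : Ent3 μ χ D P c b A R H C4 K hq τ' Zb') (Fm : FamG D Zb')
    (hL : ∀ s, Lt μ c b Zb s (F s)) (hF : ∀ s, LimP μ χ D c b A (F s)) {β : ℕ → ℝ} {l : ℕ → ℕ}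
    (hβ : ∀ i, 0 ≤ β i) (hl : Tendsto l atTop atTop) (s : ℝ) :
    CT μ (fun i => Zb' (β i)) l (F s) ↔
      Tendsto (fun i => β i - c * l i + b / c * Real.log (l i)) atTop (𝓝 (s + (τ - τ'))) := by
  constructor
  · intro h
    refine tendsto_of_subseq_tendsto fun ns hns => ?_
    obtain ⟨φ, hφ, hc3⟩ := cluster3
      (fun i => β (ns i) - c * l (ns i) + b / c * Real.log (l (ns i)))
    have hsub : Tendsto (fun i => ns (φ i)) atTop atTop := hns.comp hφ.tendsto_atTop
    have h2 := h.sub hsub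
    have hl2 : Tendsto (fun i => l (ns (φ i))) atTop atTop := hl.comp hsub
    refine ⟨φ, ?_⟩
    rcases hc3 with h3 | ⟨y, h3⟩ | h3
    · exfalso
      have h4 := lim_strong S hg E' Fm (β := fun i => β (ns (φ i)))
        (l := fun i => l (ns (φ i))) (fun i => hβ _) hl2 h3
      have h5 : F s = fun _ _ => 1 := CT.unique h2 h4
      have h6 := (hL s).shift
      rw [h5] at h6
      have h7 := hL s
      rw [h5] at h7
      have h8 : LimP μ χ D c b A (fun _ _ => 1) := by
        rw [← h5]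
        exact hF s
      have h9 := Lt.inj S PF ho E h8 h7 h6
      have := S.c_pos
      linarith
    · have h4 := Lt.univ S PF E E' (hF (y - (τ - τ'))) (hL (y - (τ - τ')))
      rw [sub_add_cancel] at h4
      have h5 : F s = F (y - (τ - τ')) := CT.unique h2 (h4 (fun i => β (ns (φ i))) _ hl2 h3)
      have h6 := hL (y - (τ - τ'))
      rw [← h5] at h6
      have h7 := Lt.inj S PF ho E (hF s) (hL s) h6
      rw [h7, sub_add_cancel]
      exact h3
    · exfalso
      have h4 := lim_weak S ho E' (β := fun i => β (ns (φ i))) (l := fun i => l (ns (φ i)))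
        hl2 h3 0
      have h5 := UT.W ho (fun i => ((E'.adm _).TTn (μ := μ) _).nrm.cont) ((hF s).adm 0) (h2 0)
      have h6 : (fun i => WW μ χ (fun x => nrm μ (TTn μ (Zb' (β (ns (φ i))))
          (((l (ns (φ i)) : ℕ) : ℤ) + 0).toNat) x)) = fun i => WW μ χ (TTn μ (Zb' (β (ns (φ i))))
          (((l (ns (φ i)) : ℕ) : ℤ) + 0).toNat) := by
        funext i
        exact WW_nrm ((E'.adm _).TTn (μ := μ) _)
      rw [h6] at h5
      have h7 := tendsto_nhds_unique h4 h5
      have h8 := ((hF s).w 0).2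
      linarith
  · intro h
    exact Lt.univ S PF E E' (hF s) (hL s) _ _ hl h

/-- the limit theories are not trivial -/
lemma ne_one (S : Cst D P c b A R H C4 K hq) (PF : PairFlow3 μ χ P Q h1 ε C' c0 Dm)
    (ho : Obs μ χ) (E : Ent3 μ χ D P c b A R H C4 K hq τ Zb)
    (hL : ∀ s, Lt μ c b Zb s (F s)) (hF : ∀ s, LimP μ χ D c b A (F s)) (s : ℝ) :
    F s ≠ fun _ _ => 1 := by
  intro h5
  have h6 := (hL s).shift
  rw [h5] at h6
  have h7 := hL s
  rw [h5] at h7
  have h8 : LimP μ χ D c b A (fun _ _ => 1) := by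
    rw [← h5]
    exact hF s
  have h9 := Lt.inj S PF ho E h8 h7 h6
  have := S.c_pos
  linarith

lemma adm_one : Adm (fun _ : G => (1 : ℝ)) :=
  ⟨continuous_const, fun _ => one_pos, fun _ _ => rfl, fun _ => rfl⟩

lemma WW_one (ho : Obs μ χ) : WW μ χ (fun _ => 1) = 0 := by
  unfold WW
  simp only [one_mul]
  rw [ho.mean, zero_div]

/-- the means of the observable along a convergent sequence -/
lemma CT.W (ho : Obs μ χ) {Zs : ℕ → G → ℝ} {lv : ℕ → ℕ} {Fk : ℤ → G → ℝ} (hZ : ∀ i, Adm (Zs i))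
    (hF : Adm (Fk 0)) (h : CT μ Zs lv Fk) :
    Tendsto (fun i => WW μ χ (TTn μ (Zs i) (((lv i : ℤ) + 0).toNat))) atTop
      (𝓝 (WW μ χ (Fk 0))) := by
  have h5 := UT.W ho (fun i => ((hZ i).TTn (μ := μ) _).nrm.cont) hF (h 0)
  refine h5.congr fun i => ?_
  exact WW_nrm ((hZ i).TTn (μ := μ) _)

/-- **the sequences which converge to the trivial theory** -/
theorem CT_one_iff (S : Cst D P c b A R H C4 K hq) (PF : PairFlow3 μ χ P Q h1 ε C' c0 Dm)
    (ho : Obs μ χ) {m : ℕ} (hg : Gen D m 1) (E : Ent3 μ χ D P c b A R H C4 K hq τ Zb)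
    (E' : Ent3 μ χ D P c b A R H C4 K hq τ' Zb') (Fm : FamG D Zb')
    (hL : ∀ s, Lt μ c b Zb s (F s)) (hF : ∀ s, LimP μ χ D c b A (F s)) {β : ℕ → ℝ} {l : ℕ → ℕ}
    (hβ : ∀ i, 0 ≤ β i) (hl : Tendsto l atTop atTop) :
    CT μ (fun i => Zb' (β i)) l (fun _ _ => 1) ↔
      Tendsto (fun i => β i - c * l i + b / c * Real.log (l i)) atTop atBot := by
  refine ⟨fun h => ?_, lim_strong S hg E' Fm hβ hl⟩
  refine tendsto_of_subseq_tendsto fun ns hns => ?_
  obtain ⟨φ, hφ, hc3⟩ := cluster3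
    (fun i => β (ns i) - c * l (ns i) + b / c * Real.log (l (ns i)))
  have hsub : Tendsto (fun i => ns (φ i)) atTop atTop := hns.comp hφ.tendsto_atTop
  have h2 := h.sub hsub
  have hl2 : Tendsto (fun i => l (ns (φ i))) atTop atTop := hl.comp hsub
  refine ⟨φ, ?_⟩
  rcases hc3 with h3 | ⟨y, h3⟩ | h3
  · exact h3
  · exfalso
    have h4 := Lt.univ S PF E E' (hF (y - (τ - τ'))) (hL (y - (τ - τ')))
    rw [sub_add_cancel] at h4
    exact ne_one S PF ho E hL hF _
      (CT.unique (h4 (fun i => β (ns (φ i))) _ hl2 h3) h2)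
  · exfalso
    have h4 := lim_weak S ho E' (β := fun i => β (ns (φ i))) (l := fun i => l (ns (φ i)))
      hl2 h3 0
    have h5 := CT.W ho (fun i => E'.adm _) adm_one h2
    rw [WW_one ho] at h5
    exact zero_ne_one (tendsto_nhds_unique h5 h4)

/-- **the sequences for which the mean tends to one** -/
theorem W_one_iff (S : Cst D P c b A R H C4 K hq) (PF : PairFlow3 μ χ P Q h1 ε C' c0 Dm)
    (ho : Obs μ χ) {m : ℕ} (hg : Gen D m 1) (E : Ent3 μ χ D P c b A R H C4 K hq τ Zb)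
    (E' : Ent3 μ χ D P c b A R H C4 K hq τ' Zb') (Fm : FamG D Zb')
    (hL : ∀ s, Lt μ c b Zb s (F s)) (hF : ∀ s, LimP μ χ D c b A (F s)) {β : ℕ → ℝ} {l : ℕ → ℕ}
    (hβ : ∀ i, 0 ≤ β i) (hl : Tendsto l atTop atTop)
    (h : Tendsto (fun i => WW μ χ (TTn μ (Zb' (β i)) (((l i : ℤ) + 0).toNat))) atTop (𝓝 1)) :
    Tendsto (fun i => β i - c * l i + b / c * Real.log (l i)) atTop atTop := by
  refine tendsto_of_subseq_tendsto fun ns hns => ?_
  obtain ⟨φ, hφ, hc3⟩ := cluster3
    (fun i => β (ns i) - c * l (ns i) + b / c * Real.log (l (ns i)))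
  have hsub : Tendsto (fun i => ns (φ i)) atTop atTop := hns.comp hφ.tendsto_atTop
  have h2 := h.comp hsub
  have hl2 : Tendsto (fun i => l (ns (φ i))) atTop atTop := hl.comp hsub
  refine ⟨φ, ?_⟩
  rcases hc3 with h3 | ⟨y, h3⟩ | h3
  · exfalso
    have h4 := lim_strong S hg E' Fm (β := fun i => β (ns (φ i)))
      (l := fun i => l (ns (φ i))) (fun i => hβ _) hl2 h3
    have h5 := CT.W ho (fun i => E'.adm _) adm_one h4
    rw [WW_one ho] at h5
    exact zero_ne_one (tendsto_nhds_unique h5 h2)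
  · exfalso
    have h4 := Lt.univ S PF E E' (hF (y - (τ - τ'))) (hL (y - (τ - τ')))
    rw [sub_add_cancel] at h4
    have h5 := CT.W ho (fun i => E'.adm _) ((hF (y - (τ - τ'))).adm 0)
      (h4 (fun i => β (ns (φ i))) _ hl2 h3)
    have h6 := tendsto_nhds_unique h5 h2
    have h7 := ((hF (y - (τ - τ'))).w 0).2
    linarith
  · exact h3

/-- **all convergent sequences** -/
theorem CT_class (S : Cst D P c b A R H C4 K hq) (PF : PairFlow3 μ χ P Q h1 ε C' c0 Dm)
    (ho : Obs μ χ) {m : ℕ} (hg : Gen D m 1) (hχ : ∀ U : Set G, IsOpen U → U.Nonempty →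
      ∃ x ∈ U, χ x < 1) (E : Ent3 μ χ D P c b A R H C4 K hq τ Zb)
    (E' : Ent3 μ χ D P c b A R H C4 K hq τ' Zb') (Fm : FamG D Zb')
    (hL : ∀ s, Lt μ c b Zb s (F s)) (hF : ∀ s, LimP μ χ D c b A (F s)) {β : ℕ → ℝ} {l : ℕ → ℕ}
    (hβ : ∀ i, 0 ≤ β i) (hl : Tendsto l atTop atTop) {F' : ℤ → G → ℝ}
    (h : CT μ (fun i => Zb' (β i)) l F') : F' = (fun _ _ => 1) ∨ ∃ s, F' = F s := by
  obtain ⟨φ, hφ, hc3⟩ := cluster3 (fun i => β i - c * l i + b / c * Real.log (l i))
  have h2 := h.sub hφ.tendsto_atTop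
  have hl2 : Tendsto (fun i => l (φ i)) atTop atTop := hl.comp hφ.tendsto_atTop
  rcases hc3 with h3 | ⟨y, h3⟩ | h3
  · left
    exact CT.unique h2 (lim_strong S hg E' Fm (fun i => hβ _) hl2 h3)
  · right
    have h4 := Lt.univ S PF E E' (hF (y - (τ - τ'))) (hL (y - (τ - τ')))
    rw [sub_add_cancel] at h4
    exact ⟨y - (τ - τ'), CT.unique h2 (h4 (fun i => β (φ i)) _ hl2 h3)⟩
  · exfalso
    have h4 := lim_weak S ho E' (β := fun i => β (φ i)) (l := fun i => l (φ i)) hl2 h3 0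
    obtain ⟨g, hgd⟩ : ∃ g : ℕ → G → ℝ, g = fun i x => nrm μ (TTn μ (Zb' (β (φ i)))
      ((l (φ i) : ℤ) + 0).toNat) x := ⟨_, rfl⟩
    have hgA : ∀ i, Adm (g i) := fun i => by
      rw [hgd]
      exact ((E'.adm _).TTn (μ := μ) _).nrm
    have hgU : UT g (F' 0) := by
      rw [hgd]
      exact h2 0
    have hgW : Tendsto (fun i => WW μ χ (g i)) atTop (𝓝 1) := by
      refine h4.congr fun i => ?_
      rw [hgd]
      exact (WW_nrm ((E'.adm _).TTn (μ := μ) _)).symm
    have hg1 : ∀ i, ∫ x, g i x ∂μ = 1 := fun i => by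
      rw [hgd]
      exact int_nrm ((E'.adm _).TTn (μ := μ) _)
    have hc0 : Continuous (F' 0) := hgU.cont fun i => (hgA i).cont
    have h5 : Tendsto (fun i => ∫ x, g i x * χ x ∂μ) atTop (𝓝 (∫ x, F' 0 x * χ x ∂μ)) := by
      refine UT.int (fun i => (hgA i).cont.mul ho.cont) (hc0.mul ho.cont) fun ε hε => ?_
      filter_upwards [hgU ε hε] with i hi x
      rw [← sub_mul, abs_mul]
      exact (mul_le_of_le_one_right (abs_nonneg _) (ho.le x)).trans_lt (hi x)
    have h6 : Tendsto (fun i => ∫ x, g i x ∂μ) atTop (𝓝 (∫ x, F' 0 x ∂μ)) :=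
      UT.int (fun i => (hgA i).cont) hc0 hgU
    simp only [hg1] at h6
    have h7 : ∫ x, F' 0 x ∂μ = 1 := tendsto_nhds_unique h6 tendsto_const_nhds
    have h8 : ∫ x, F' 0 x * χ x ∂μ = 1 := by
      refine tendsto_nhds_unique h5 (hgW.congr fun i => ?_)
      unfold WW
      rw [hg1, div_one]
    have hnn : ∀ x, 0 ≤ F' 0 x := by
      intro x
      by_contra hneg
      push Not at hneg
      obtain ⟨i, hi⟩ := (hgU (-(F' 0 x)) (by linarith)).exists
      have b1 := (abs_lt.1 (hi x)).2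
      have b2 := (hgA i).pos x
      linarith
    have h9 : ∫ x, F' 0 x * (1 - χ x) ∂μ = 0 := by
      have e : (fun x => F' 0 x * (1 - χ x)) = fun x => F' 0 x - F' 0 x * χ x := by
        funext x
        ring
      have i1 : Integrable (fun x => F' 0 x * χ x) μ := integrable_of_cont (hc0.mul ho.cont)
      rw [e, integral_sub (integrable_of_cont hc0) i1, h7, h8, sub_self]
    have hnn2 : ∀ x, 0 ≤ F' 0 x * (1 - χ x) := fun x =>
      mul_nonneg (hnn x) (sub_nonneg.2 (abs_le.1 (ho.le x)).2)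
    have hc2 : Continuous fun x => F' 0 x * (1 - χ x) := hc0.mul (continuous_const.sub ho.cont)
    have h10 := (integral_eq_zero_iff_of_nonneg hnn2 (integrable_of_cont hc2)).1 h9
    have h11 : (fun x => F' 0 x * (1 - χ x)) = fun _ => 0 :=
      (hc2.ae_eq_iff_eq μ continuous_const).1 h10
    have h12 : ∃ x, F' 0 x ≠ 0 := by
      by_contra hall
      push Not at hall
      have : ∫ x, F' 0 x ∂μ = 0 := by simp [hall]
      rw [h7] at this
      exact one_ne_zero this
    obtain ⟨x, hx⟩ := h12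
    obtain ⟨y, hy1, hy2⟩ := hχ {x | F' 0 x ≠ 0} (isOpen_ne_fun hc0 continuous_const) ⟨x, hx⟩
    have h13 := congrFun h11 y
    rcases mul_eq_zero.1 h13 with h14 | h14
    · exact hy1 h14
    · linarith

end

end Pool.Agent.N989.MK
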