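import Mathlib
import Pool.Agent.N988.MK.CharP
import Pool.Agent.N988.MK.S4
import Pool.Agent.N989.MK.Bare
import Pool.Agent.N989.MK.MainA
import Pool.Agent.N989.MK.Setup
import Pool.Agent.N991.MK.Log2
import Pool.Agent.N991.MK.TwoMain

/-!
# The two-loop law of the string tension
-/

open MeasureTheory Matrix Filter Pool.Agent.N991.MK Pool.Agent.N988.MK
open scoped Matrix.Norms.Frobenius Topology
open Pool.Agent.H906R3.YM Pool.Agent.W793.YM Pool.Agent.TH618.YM Pool.Agent.N984.TW

namespace Pool.Agent.N989.MK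

set_option linter.unusedSectionVars false

noncomputable section

variable {N n : ℕ} {G : Subgroup (UN N)} [MeasurableSpace G] [BorelSpace G] {μ : Measure G}
  [IsProbabilityMeasure μ] [μ.IsHaarMeasure]

lemma bw_adm [CompactSpace G] {S : G → ℝ} (hS : BareAction G S) (hc : Continuous S) (β : ℝ) :
    Adm (bw S β) :=
  ⟨Real.continuous_exp.comp (continuous_const.mul hc), fun _ => Real.exp_pos _,
    fun g x => by unfold bw; rw [hS.cls], fun x => by unfold bw; rw [hS.sym]⟩

/-- the mean is positive at weak coupling -/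
lemma Flow2.wpos {G : Type*} [Group G] [TopologicalSpace G] [IsTopologicalGroup G]
    [CompactSpace G] [MeasurableSpace G] [BorelSpace G] [SecondCountableTopology G] {n : ℕ}
    {μ : Measure G} {χ : G → ℝ} {D : ED G n} {Zb : ℝ → G → ℝ} {P : (G → ℝ) → ℝ → ℝ → Prop}
    {c b h0 C A R : ℝ} (F : Flow2 μ χ D Zb P c b h0 C A R) :
    ∃ β1 : ℝ, ∀ β, β1 ≤ β → 0 < WW μ χ (Zb β) := by
  have hR := F.R_nn
  have hC := F.C_nn
  have hA := F.A_nn
  have h00 := F.h0_pos
  refine ⟨h0 + R + 1 + 2 * (A + C * (R + 1)), fun β hβ => ?_⟩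
  have hX : 0 ≤ A + C * (R + 1) := by positivity
  obtain ⟨h, ρ, a1, a2, a3⟩ := F.start β (by linarith)
  have a1' := abs_le.1 a1
  have hh : h0 ≤ h := by linarith
  have hh1 : 1 ≤ h := by linarith
  have hh2 : 2 * (A + C * (R + 1)) < h := by linarith
  have hh0 : 0 < h := by linarith
  have hw := (abs_le.1 (F.wil _ _ _ a3 hh)).2
  have h1 : 1 / h ≤ 1 := by rw [div_le_one hh0]; exact hh1
  have h2 : C * (ρ + 1 / h) / h ≤ C * (R + 1) / h :=
    div_le_div_of_nonneg_right (mul_le_mul_of_nonneg_left (by linarith) hC) hh0.le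
  have h3 : A / h + C * (R + 1) / h < 1 := by
    rw [← add_div, div_lt_one hh0]
    linarith
  linarith

/-- **Main theorem on the string tension** -/
theorem two_main (hG : SimpleGroup G) {X : Fin n → Matrix (Fin N) (Fin N) ℂ}
    (hX : LieBasis G X) {P : Matrix (Fin N) (Fin N) ℂ} (hP : Constituent G P) :
    ∃ cA : ℝ, 0 < cA ∧
      (∀ c, ∑ a, (trace ((X c * X a - X a * X c)ᴴ * (X c * X a - X a * X c))).re = cA) ∧
      ∀ S : G → ℝ, BareAction G S → ∃ κ : ℝ, 0 < κ ∧ Curv X S κ ∧
        ∃ (β₀ C : ℝ) (σ : ℝ → ℝ), ∀ β, β₀ ≤ β → 0 < σ β ∧ (∀ k, 0 < wloop μ P (bw S β) k) ∧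
          Tendsto (fun k : ℕ => -Real.log (wloop μ P (bw S β) k) / 4 ^ k) atTop (𝓝 (σ β)) ∧
          |Real.log (σ β) + 16 * Real.log 2 / cA * κ * β -
            8 * Real.log 2 / 15 * Real.log β| ≤ C := by
  have hGc : IsClosed (G : Set (UN N)) := hG.closed
  have : CompactSpace G := isCompact_iff_compactSpace.1 hGc.isCompact
  have : ConnectedSpace G := isConnected_iff_connectedSpace.1 hG.connected
  have := haar_right μ
  have := haar_inv μ
  obtain ⟨B, rfl⟩ := exists_frame_of X hX.mem hX.orth hX.full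
  have hI : IrC G P := ⟨⟨hP.herm, hP.idem, hP.comm⟩, hP.ne, hP.irr, hP.nontriv⟩
  have hP0 : 0 < (trace P).re := hI.tr_pos
  have ho : Obs μ (chiP P : G → ℝ) := obs_chiP hI
  have hIs : IsoG B := isoG_of_simple B hGc hG.nonabelian hG.simple
  have hn : 0 < n := frame_pos B hGc hG.nonabelian
  obtain ⟨cA, hcA, hcas, hflow⟩ := weak_flow_two B hGc μ hG.nonabelian hG.simple
    ⟨hP.herm, hP.idem, hP.comm⟩ hP0
  obtain ⟨m, hg⟩ := exists_gen B hGc hG.connected
  refine ⟨cA, hcA, fun c => ?_, fun S hS => ?_⟩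
  · have h2 := hcas (Pi.single c 1)
    have e1 : LX B (Pi.single c (1 : ℝ)) = B.X c := LX_single B c
    rw [e1] at h2
    have e2 : ∑ a, (Pi.single c (1 : ℝ) : Fin n → ℝ) a ^ 2 = 1 := by
      rw [Finset.sum_eq_single c]
      · simp
      · intro b _ hb
        simp [hb]
      · intro h
        exact absurd (Finset.mem_univ _) h
    rw [e2, mul_one] at h2
    rw [← h2]
    refine Finset.sum_congr rfl fun a _ => ?_
    rw [sq_ip]
  · obtain ⟨κ, W, mw, r0, CW, Λ, K, hκ, hK, hE, hsc, hct, hhess⟩ := ent_pol (B := B) hGc hIs hn μ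
      (S := S) hS.poly (fun g h => hS.cls h g) hS.sym hS.max
    obtain ⟨St, h0, C, R, Fl⟩ := hflow hE
    have hadm : ∀ β, Adm (wS S κ β) := fun β =>
      ⟨hct.comp (continuous_const.prodMk continuous_id), fun _ => Real.exp_pos _,
        fun g x => by unfold wS; rw [hS.cls], fun x => by unfold wS; rw [hS.sym]⟩
    have hbw : ∀ β, bw S β = wS S κ (κ * β) := by
      intro β
      funext g
      unfold bw wS
      congr 1
      field_simp
    obtain ⟨β1, C5, hβ1, hC5, hsc5⟩ := scaling2 Fl ho hg hadm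
    obtain ⟨β2, hβ2⟩ := Fl.wpos
    choose! σ hσ using hsc5
    refine ⟨κ, hκ, hhess, max (max β1 β2 / κ) 1, C5 + |8 * Real.log 2 / 15 * Real.log κ|,
      fun β => σ (κ * β), fun β hβ => ?_⟩
    have hβ' : max β1 β2 / κ ≤ β := (le_max_left _ _).trans hβ
    have hβ1' : 1 ≤ β := (le_max_right _ _).trans hβ
    rw [div_le_iff₀ hκ, mul_comm] at hβ'
    have hb1 : β1 ≤ κ * β := (le_max_left _ _).trans hβ'
    have hb2 : β2 ≤ κ * β := (le_max_right _ _).trans hβ'
    obtain ⟨s1, s2, s3⟩ := hσ (κ * β) hb1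
    have hw : ∀ k, wloop μ P (bw S β) k = WW μ (chiP P) (TTn μ (wS S κ (κ * β)) k) := by
      intro k
      rw [hbw]
      exact Ex_WW ho.cont (hadm _) k
    refine ⟨s1, fun k => ?_, ?_, ?_⟩
    · rw [hw]
      exact ho.pos (hadm _) (hβ2 _ hb2) k
    · simp only [hw]
      exact s2
    · have e1 : Real.log 4 / (cA / 8) = 16 * Real.log 2 / cA := by
        rw [show (4 : ℝ) = 2 ^ 2 by norm_num, Real.log_pow]
        push_cast
        field_simp
        ring
      have e2 : Real.log 4 * -(cA ^ 2 / 240) / (cA / 8) ^ 2 = -(8 * Real.log 2 / 15) := by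
        rw [show (4 : ℝ) = 2 ^ 2 by norm_num, Real.log_pow]
        push_cast
        field_simp
        ring
      rw [e1, e2, Real.log_mul hκ.ne' (by linarith)] at s3
      have e3 : Real.log (σ (κ * β)) + 16 * Real.log 2 / cA * κ * β -
          8 * Real.log 2 / 15 * Real.log β =
          (Real.log (σ (κ * β)) + 16 * Real.log 2 / cA * (κ * β) +
            -(8 * Real.log 2 / 15) * (Real.log κ + Real.log β)) +
            8 * Real.log 2 / 15 * Real.log κ := by ring
      rw [e3]
      exact (abs_add_le _ _).trans (add_le_add s3 le_rfl)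

end

end Pool.Agent.N989.MK
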