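import Mathlib
import Pool.Agent.N989.MK.Main2
import Pool.Agent.N989.MK.TwoM

/-!
# The main theorem with the two-loop law of the string tension
-/

open MeasureTheory Matrix Filter Pool.Agent.N991.MK Pool.Agent.N988.MK
open scoped Matrix.Norms.Frobenius Topology
open Pool.Agent.H906R3.YM Pool.Agent.W793.YM Pool.Agent.TH618.YM Pool.Agent.N984.TW

namespace Pool.Agent.N989.MK

set_option linter.unusedSectionVars false

noncomputable section

variable {N n : ℕ} {G : Subgroup (UN N)} [MeasurableSpace G] [BorelSpace G] {μ : Measure G}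
  [IsProbabilityMeasure μ] [μ.IsHaarMeasure]

/-- **Main theorem** -/
theorem hier_main2 (hG : SimpleGroup G) {X : Fin n → Matrix (Fin N) (Fin N) ℂ}
    (hX : LieBasis G X) {P : Matrix (Fin N) (Fin N) ℂ} (hP : Constituent G P) :
    ∃ cA : ℝ, 0 < cA ∧
      (∀ c, ∑ a, (trace ((X c * X a - X a * X c)ᴴ * (X c * X a - X a * X c))).re = cA) ∧
      (∀ S : G → ℝ, BareAction G S → ∃ κ : ℝ, 0 < κ ∧ Curv X S κ ∧
        ∃ (β₀ C : ℝ) (σ : ℝ → ℝ), ∀ β, β₀ ≤ β → 0 < σ β ∧ (∀ k, 0 < wloop μ P (bw S β) k) ∧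
          Tendsto (fun k : ℕ => -Real.log (wloop μ P (bw S β) k) / 4 ^ k) atTop (𝓝 (σ β)) ∧
          |Real.log (σ β) + 16 * Real.log 2 / cA * κ * β -
            8 * Real.log 2 / 15 * Real.log β| ≤ C) ∧
      (∀ β, 0 < β → ∃ σ : ℝ, 0 < σ ∧ (∀ k, 0 < wloop μ P (act G β) k) ∧
        Tendsto (fun k : ℕ => -Real.log (wloop μ P (act G β) k) / 4 ^ k) atTop (𝓝 σ)) ∧
      (∀ β, 0 < β → ∃ C c : ℝ, 0 < c ∧ ∀ (k : ℕ) (p q : Pq k) (f g : G → ℝ),
        Continuous f → (∀ h x, f (h * x * h⁻¹) = f x) → (∀ x, |f x| ≤ 1) →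
        Continuous g → (∀ h x, g (h * x * h⁻¹) = g x) → (∀ x, |g x| ≤ 1) →
        |Cv μ (act G β) k p q f g| ≤ C * Real.exp (-(c * 4 ^ anc k p q))) ∧
      ∃ u₀ : ℝ, u₀ < 1 ∧ ∀ u : ℝ, 0 < u → u < 1 → ∃ F : ℤ → G → ℝ, LimitTheory μ X P cA u F ∧
        (∃ (β : ℕ → ℝ) (φ : ℕ → ℕ), (∀ i, 0 < β i ∧ wloop μ P (act G (β i)) i = u) ∧
          Tendsto β atTop atTop ∧ StrictMono φ ∧ ConvTo μ (fun i => β (φ i)) φ F) ∧
        (u₀ < u → ∀ (β : ℕ → ℝ) (l : ℕ → ℕ), (∀ i, 0 < β i) → Tendsto l atTop atTop →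
          Tendsto (fun i => wloop μ P (act G (β i)) (l i)) atTop (𝓝 u) → ConvTo μ β l F) := by
  obtain ⟨cA, hcA, h2, ⟨σ, h3, -⟩, h5, h6⟩ := hier_main (μ := μ) hG hX hP
  obtain ⟨cA', hcA', h2', h4⟩ := two_main (μ := μ) hG hX hP
  have hGc : IsClosed (G : Set (UN N)) := hG.closed
  have : CompactSpace G := isCompact_iff_compactSpace.1 hGc.isCompact
  have : ConnectedSpace G := isConnected_iff_connectedSpace.1 hG.connected
  obtain ⟨B, rfl⟩ := exists_frame_of X hX.mem hX.orth hX.full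
  have hn : 0 < n := frame_pos B hGc hG.nonabelian
  have e : cA' = cA := (h2' ⟨0, hn⟩).symm.trans (h2 ⟨0, hn⟩)
  subst e
  exact ⟨cA', hcA, h2, h4, fun β hβ => ⟨σ β, h3 β hβ⟩, h5, h6⟩

end

end Pool.Agent.N989.MK
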