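import Mathlib
import Pool.Agent.N838.T3.CovF
import Pool.Agent.N991.MK.Sig1

/-!
# A lower bound of the correlations in the strong coupling region
-/

open MeasureTheory Pool.Agent.N991.MK Pool.Agent.N681.MK Pool.Agent.N838.T3 Filter
open Pool.Agent.N109.T3 (Sep)
open scoped Topology

namespace Pool.Agent.N989.MK

set_option linter.unusedSectionVars false

noncomputable section

/-- there are plaquettes in different sheets of a square of level one -/
lemma exists_sep : ∀ n : ℕ, 1 ≤ n → ∃ p q : Pq n, Sep p q ∧ anc n p q = 1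
  | 0, h => absurd h (by norm_num)
  | 1, _ => by
    refine ⟨((0 : Fin 4), (0 : Fin 4), ()), ((1 : Fin 4), (0 : Fin 4), ()), Or.inl ?_, ?_⟩
    · decide
    · show (if (0 : Fin 4) = 1 ∧ (0 : Fin 4) = 0 then anc 0 () () else 0 + 1) = 1
      simp
  | n + 2, _ => by
    obtain ⟨p, q, h1, h2⟩ := exists_sep (n + 1) (by omega)
    refine ⟨((0 : Fin 4), (0 : Fin 4), p), ((0 : Fin 4), (0 : Fin 4), q), Or.inr ⟨rfl, h1⟩, ?_⟩
    show (if (0 : Fin 4) = 0 ∧ (0 : Fin 4) = 0 then anc (n + 1) p q else n + 1 + 1) = 1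
    simp [h2]

variable {G : Type*} [Group G] [TopologicalSpace G] [IsTopologicalGroup G] [CompactSpace G]
  [MeasurableSpace G] [BorelSpace G] [SecondCountableTopology G]
  {μ : Measure G} [IsProbabilityMeasure μ] [μ.IsHaarMeasure] [μ.IsMulRightInvariant]
  [μ.IsInvInvariant] {χ : G → ℝ}

/-- the convolution with a constant -/
lemma conv_one_l (v : G → ℝ) (x : G) : ∫ y, v (y⁻¹ * x) ∂μ = ∫ y, v y ∂μ := by
  rw [← integral_inv_eq_self (μ := μ) (fun y => v (y⁻¹ * x))]
  simp only [inv_inv]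
  exact integral_mul_right_eq_self v x

/-- bounds of a convolution -/
lemma conv_bd {u v : G → ℝ} (hu : Continuous u) (hv : Continuous v) (v0 : ∀ x, 0 ≤ v x) {a b : ℝ}
    (ha : ∀ x, a ≤ u x) (hb : ∀ x, u x ≤ b) (x : G) :
    a * ∫ y, v y ∂μ ≤ conv μ u v x ∧ conv μ u v x ≤ b * ∫ y, v y ∂μ := by
  have h1 := conv_one_l (μ := μ) v x
  unfold Pool.Agent.N991.MK.conv
  constructor
  · rw [← h1, ← integral_const_mul]
    exact integral_mono (integrable_of_cont (by fun_prop)) (integrable_of_cont (by fun_prop))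
      fun y => mul_le_mul_of_nonneg_right (ha y) (v0 _)
  · rw [← h1, ← integral_const_mul]
    exact integral_mono (integrable_of_cont (by fun_prop)) (integrable_of_cont (by fun_prop))
      fun y => mul_le_mul_of_nonneg_right (hb y) (v0 _)

/-- the convolution with `1 + u` -/
lemma conv_add1 {u B : G → ℝ} (hu : Continuous u) (hB : Continuous B) (x : G) :
    conv μ (fun y => 1 + u y) B x = ∫ y, B y ∂μ + conv μ u B x := by
  have h1 := conv_one_l (μ := μ) B x
  rw [← h1]
  unfold Pool.Agent.N991.MK.conv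
  rw [← integral_add (integrable_of_cont (by fun_prop)) (integrable_of_cont (by fun_prop))]
  refine integral_congr_ae (Eventually.of_forall fun y => ?_)
  beta_reduce
  ring

/-- the convolution square of `1 + u` -/
lemma conv_sq1 {u : G → ℝ} (hu : Continuous u) (hc : Cls u) (h0 : ∫ y, u y ∂μ = 0) :
    conv μ (fun y => 1 + u y) (fun y => 1 + u y) = fun x => 1 + conv μ u u x := by
  have hc1 : Cls (fun y => 1 + u y) := fun g x => by
    beta_reduce
    rw [hc]
  have h1 : ∫ y, (1 + u y) ∂μ = 1 := by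
    rw [integral_add (integrable_const _) (integrable_of_cont hu), h0]
    simp
  have hc2 : Continuous (fun y => 1 + u y) := continuous_const.add hu
  funext x
  rw [conv_add1 hu hc2, h1, conv_comm hc hc1, conv_add1 hu hu, h0, zero_add]

/-- the environment is almost constant -/
lemma env_ratio {f : G → ℝ} (hf : Adm f) (h1 : ∀ x, 0.999 ≤ TTn μ f 1 x)
    (h2 : ∀ x, TTn μ f 1 x ≤ 1.001) (d : ℕ) (x y : G) :
    0.99 * env μ f 1 d y ≤ env μ f 1 d x := by
  cases d with
  | zero =>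
    show (0.99 : ℝ) * 1 ≤ 1
    norm_num
  | succ d =>
    show 0.99 * envS μ (TTn μ f 1) (env μ f 2 d) y ≤ envS μ (TTn μ f 1) (env μ f 2 d) x
    unfold Pool.Agent.N838.T3.envS
    have hF : Adm (TTn μ f 1) := hf.TTn 1
    have hE : Adm (env μ f 2 d) := adm_env hf 2 d
    obtain ⟨J, hJ⟩ : ∃ J : G → ℝ, J = fun x => H4 μ (TTn μ f 1) x ^ 3 * env μ f 2 d x := ⟨_, rfl⟩
    rw [← hJ]
    have hJc : Continuous J := by
      rw [hJ]
      exact ((hF.H4 (μ := μ)).cont.pow 3).mul hE.cont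
    have hJ0 : ∀ x, 0 < J x := fun x => by
      rw [hJ]
      exact mul_pos (pow_pos ((hF.H4 (μ := μ)).pos x) 3) (hE.pos x)
    have hI : 0 < ∫ x, J x ∂μ := int_pos hJc hJ0
    have hIF : 0.999 ≤ ∫ x, TTn μ f 1 x ∂μ ∧ ∫ x, TTn μ f 1 x ∂μ ≤ 1.001 := by
      have i1 : Integrable (TTn μ f 1) μ := integrable_of_cont hF.cont
      constructor
      · have := integral_mono (μ := μ) (integrable_const (0.999 : ℝ)) i1 h1
        simpa using this
      · have := integral_mono (μ := μ) i1 (integrable_const (1.001 : ℝ)) h2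
        simpa using this
    have c2 : Continuous (conv μ (TTn μ f 1) (TTn μ f 1)) := cont_conv hF.cont hF.cont
    have p2 : ∀ x, 0 < conv μ (TTn μ f 1) (TTn μ f 1) x :=
      conv_pos hF.cont hF.cont hF.pos hF.pos
    have b2 : ∀ x, 0.998 ≤ conv μ (TTn μ f 1) (TTn μ f 1) x ∧
        conv μ (TTn μ f 1) (TTn μ f 1) x ≤ 1.0021 := fun x => by
      have h3 := conv_bd (μ := μ) hF.cont hF.cont (fun x => (hF.pos x).le) h1 h2 x
      constructor
      · refine le_trans ?_ h3.1
        have := mul_le_mul_of_nonneg_left hIF.1 (by norm_num : (0 : ℝ) ≤ 0.999)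
        norm_num at this ⊢
        linarith
      · refine h3.2.trans ?_
        have := mul_le_mul_of_nonneg_left hIF.2 (by norm_num : (0 : ℝ) ≤ 1.001)
        norm_num at this ⊢
        linarith
    have hI2 : 0.998 ≤ ∫ x, conv μ (TTn μ f 1) (TTn μ f 1) x ∂μ ∧
        ∫ x, conv μ (TTn μ f 1) (TTn μ f 1) x ∂μ ≤ 1.0021 := by
      have i1 : Integrable (conv μ (TTn μ f 1) (TTn μ f 1)) μ := integrable_of_cont c2
      constructor
      · have := integral_mono (μ := μ) (integrable_const (0.998 : ℝ)) i1 fun x => (b2 x).1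
        simpa using this
      · have := integral_mono (μ := μ) i1 (integrable_const (1.0021 : ℝ)) fun x => (b2 x).2
        simpa using this
    have c3 : Continuous (conv μ (TTn μ f 1) (conv μ (TTn μ f 1) (TTn μ f 1))) :=
      cont_conv hF.cont c2
    have b3 : ∀ x, 0.996 ≤ conv μ (TTn μ f 1) (conv μ (TTn μ f 1) (TTn μ f 1)) x ∧
        conv μ (TTn μ f 1) (conv μ (TTn μ f 1) (TTn μ f 1)) x ≤ 1.004 := fun x => by
      have h3 := conv_bd (μ := μ) hF.cont c2 (fun x => (p2 x).le) h1 h2 x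
      constructor
      · refine le_trans ?_ h3.1
        have := mul_le_mul_of_nonneg_left hI2.1 (by norm_num : (0 : ℝ) ≤ 0.999)
        norm_num at this ⊢
        linarith
      · refine h3.2.trans ?_
        have := mul_le_mul_of_nonneg_left hI2.2 (by norm_num : (0 : ℝ) ≤ 1.001)
        norm_num at this ⊢
        linarith
    have h4 := (conv_bd (μ := μ) c3 hJc (fun x => (hJ0 x).le) (fun x => (b3 x).1)
      (fun x => (b3 x).2) x).1
    have h5 := (conv_bd (μ := μ) c3 hJc (fun x => (hJ0 x).le) (fun x => (b3 x).1)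
      (fun x => (b3 x).2) y).2
    have h6 : 0.99 * (1.004 * ∫ y, J y ∂μ) ≤ 0.996 * ∫ y, J y ∂μ := by
      norm_num
      linarith
    exact (mul_le_mul_of_nonneg_left h5 (by norm_num)).trans (h6.trans h4)

/-- **the lower bound of the covariance** -/
theorem cov_lower (ho : Obs μ χ) {f : G → ℝ} (hf : Adm f) (hp : PDf f) (h1 : ∫ x, f x ∂μ = 1)
    (hs : f 1 - 1 ≤ 1 / 10) {n : ℕ} {p q : Pq n} (hpq : Sep p q) (ha : anc n p q = 1) :
    1 / 2 * (∫ x, f x * χ x ∂μ) ^ 8 ≤ Cv μ f n p q (fun x => f x - 1) (fun x => f x - 1) := by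
  obtain ⟨g, hg⟩ : ∃ g : G → ℝ, g = fun x => f x - 1 := ⟨_, rfl⟩
  have pf : Pc f := ⟨hf.cont, hf.cls, hp⟩
  have pg : Pc g := by
    have h := pf.mean (μ := μ)
    rw [h1] at h
    rw [hg]
    exact h
  have hf1 : f = fun x => 1 + g x := by
    funext x
    rw [hg]
    ring
  have hg0 : ∫ x, g x ∂μ = 0 := by
    rw [hg, integral_sub hf.integrable (integrable_const _), h1]
    simp
  have hg1 : g 1 ≤ 1 / 10 := by rw [hg]; exact hs
  have hg10 := pg.one_nonneg
  -- the square and its products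
  obtain ⟨g2, hg2⟩ : ∃ g2 : G → ℝ, g2 = conv μ g g := ⟨_, rfl⟩
  have p2 : Pc g2 := by rw [hg2]; exact pg.conv pg
  have i2 : ∫ x, g2 x ∂μ = 0 := by rw [hg2, int_conv pg.cont pg.cont, hg0, zero_mul]
  obtain ⟨Q, hQ⟩ : ∃ Q : G → ℝ, Q = conv μ g2 g2 := ⟨_, rfl⟩
  have pQ : Pc Q := by rw [hQ]; exact p2.conv p2
  have iQ : ∫ x, Q x ∂μ = 0 := by rw [hQ, int_conv p2.cont p2.cont, i2, zero_mul]
  have pgg : Pc (fun x => g x ^ 2) := pg.pow 2
  obtain ⟨s, hsd⟩ : ∃ s : ℝ, s = ∫ x, g x ^ 2 ∂μ := ⟨_, rfl⟩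
  have hs0 : 0 ≤ s := by rw [hsd]; exact pgg.int
  have hs1 : s ≤ 1 / 100 := by
    rw [hsd]
    refine pgg.int_le.trans ?_
    nlinarith
  have pgk : Pc (conv μ g (fun x => g x ^ 2)) := pg.conv pgg
  obtain ⟨K, hK⟩ : ∃ K : G → ℝ, K = conv μ g2 (conv μ g (fun x => g x ^ 2)) := ⟨_, rfl⟩
  have pK : Pc K := by rw [hK]; exact p2.conv pgk
  have iK : ∫ x, K x ∂μ = 0 := by rw [hK, int_conv p2.cont pgk.cont, i2, zero_mul]
  -- the size of `Q`
  have hg21 : g2 1 ≤ 1 / 100 := by
    rw [hg2]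
    refine (pg.conv_one pg).trans ?_
    nlinarith
  have hQ1 : Q 1 ≤ 1 / 10000 := by
    rw [hQ]
    refine (p2.conv_one p2).trans ?_
    have := p2.one_nonneg
    nlinarith
  have hQb : ∀ x, |Q x| ≤ 1 / 10000 := fun x => (pQ.abs x).trans hQ1
  -- the weights
  have hcc : conv μ f f = fun x => 1 + g2 x := by
    rw [hf1, conv_sq1 pg.cont pg.cls hg0, hg2]
  have hH4 : H4 μ f = fun x => 1 + Q x := by
    unfold Pool.Agent.N989.MK.H4
    rw [hcc, conv_sq1 p2.cont p2.cls i2, hQ]
  have hF : TTn μ f 1 = fun x => (1 + Q x) ^ 4 := by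
    show TT μ f = _
    unfold Pool.Agent.N989.MK.TT
    rw [hH4]
  have hFb : ∀ x, 0.999 ≤ TTn μ f 1 x ∧ TTn μ f 1 x ≤ 1.001 := fun x => by
    rw [hF]
    have h3 := abs_le.1 (hQb x)
    constructor
    · have h4 : (0.9999 : ℝ) ≤ 1 + Q x := by norm_num; linarith
      calc (0.999 : ℝ) ≤ 0.9999 ^ 4 := by norm_num
        _ ≤ (1 + Q x) ^ 4 := pow_le_pow_left₀ (by norm_num) h4 4
    · have h4 : 1 + Q x ≤ (1.0001 : ℝ) := by norm_num; linarith
      have h5 : (0 : ℝ) ≤ 1 + Q x := by linarith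
      calc (1 + Q x) ^ 4 ≤ 1.0001 ^ 4 := pow_le_pow_left₀ h5 h4 4
        _ ≤ 1.001 := by norm_num
  -- the tangent vector
  obtain ⟨k, hk⟩ : ∃ k : G → ℝ, k = fun x => g x + g x ^ 2 := ⟨_, rfl⟩
  have pk : Pc k := by rw [hk]; exact pg.add pgg
  have ik : ∫ x, k x ∂μ = s := by
    rw [hk, integral_add (integrable_of_cont pg.cont) (integrable_of_cont pgg.cont), hg0,
      ← hsd, zero_add]
  have hgk : Pc (conv μ g k) := pg.conv pk
  have hdcv : dcv μ f k = fun x => 2 * (s + conv μ g k x) := by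
    funext x
    unfold Pool.Agent.N681.MK.dcv
    rw [conv_comm pk.cls hf.cls, hf1, conv_add1 pg.cont pk.cont, ik]
    ring
  have hB : Continuous (fun x => 2 * (s + conv μ g k x)) :=
    continuous_const.mul (continuous_const.add hgk.cont)
  have hBc : Cls (fun x => 2 * (s + conv μ g k x)) := fun a x => by
    beta_reduce
    rw [hgk.cls]
  have iB : ∫ x, 2 * (s + conv μ g k x) ∂μ = 2 * s := by
    rw [integral_const_mul, integral_add (integrable_const _) (integrable_of_cont hgk.cont),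
      int_conv pg.cont pk.cont, hg0, zero_mul]
    simp
  have hgk2 : conv μ g2 (conv μ g k) = fun x => Q x + K x := by
    have e1 : conv μ g k = fun x => g2 x + conv μ g (fun x => g x ^ 2) x := by
      funext x
      rw [hk, conv_add_r pg.cont pg.cont pgg.cont, hg2]
    funext x
    rw [e1, conv_add_r p2.cont p2.cont pgk.cont, hQ, hK]
  have hdH : dH4 μ f k = fun x => 4 * (s + (Q x + K x)) := by
    funext x
    unfold Pool.Agent.N681.MK.dH4
    rw [hcc, hdcv]
    unfold Pool.Agent.N681.MK.dcv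
    have h3 : Cls (fun x => 1 + g2 x) := fun a x => by
      beta_reduce
      rw [p2.cls]
    rw [conv_comm hBc h3, conv_add1 p2.cont hB, iB]
    have h4 : conv μ g2 (fun x => 2 * (s + conv μ g k x)) x = 2 * (Q x + K x) := by
      rw [conv_smul_r, conv_add_r p2.cont continuous_const hgk.cont, congrFun hgk2 x]
      have h5 : conv μ g2 (fun _ => s) x = 0 := by
        unfold Pool.Agent.N991.MK.conv
        rw [integral_mul_const, i2, zero_mul]
      rw [h5, zero_add]
    rw [h4]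
    ring
  have hOf : (fun x => g x * f x) = k := by
    funext x
    rw [hk, hf1]
    ring
  obtain ⟨M, hM⟩ : ∃ M : G → ℝ, M = fun x => (1 - s) * Q x + K x := ⟨_, rfl⟩
  have pM : Pc M := by rw [hM]; exact (pQ.smul (by linarith)).add pK
  have iM : ∫ x, M x ∂μ = 0 := by
    rw [hM, integral_add ((integrable_of_cont pQ.cont).const_mul _) (integrable_of_cont pK.cont),
      integral_const_mul, iQ, iK]
    ring
  have hdT : (fun x => dTn μ f k 1 x - 16 * s * TTn μ f 1 x) =
      fun x => 16 * (1 + Q x) ^ 3 * M x := by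
    funext x
    show dTT μ f k x - 16 * s * TTn μ f 1 x = _
    unfold Pool.Agent.N681.MK.dTT
    rw [hH4, hdH, hF, hM]
    ring
  -- the covariance
  have hCv := Cv_sep (μ := μ) hf (h := g) pg.cont pg.cls p q hpq
  rw [ha, hOf] at hCv
  rw [← hg, hCv]
  have hE : Adm (env μ f 1 (n - 1)) := adm_env hf 1 (n - 1)
  obtain ⟨E, hEd⟩ : ∃ E : G → ℝ, E = env μ f 1 (n - 1) := ⟨_, rfl⟩
  rw [← hEd] at hE ⊢
  have hEr : ∀ x y, 0.99 * E y ≤ E x := fun x y => by
    rw [hEd]
    exact env_ratio hf (fun x => (hFb x).1) (fun x => (hFb x).2) _ x y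
  have hFA : Adm (TTn μ f 1) := hf.TTn 1
  rw [← vr_shift hFA (cont_dTn hf.cont pk.cont 1) hE.cont hE.pos (16 * s), hdT]
  obtain ⟨I, hI⟩ : ∃ I : ℝ, I = ∫ z, TTn μ f 1 z * E z ∂μ := ⟨_, rfl⟩
  have hcFE : Continuous fun z => TTn μ f 1 z * E z := hFA.cont.mul hE.cont
  have hI0 : 0 < I := by
    rw [hI]
    exact int_pos hcFE fun x => mul_pos (hFA.pos x) (hE.pos x)
  -- the density
  have hden : ∀ x, 0.98 * I ≤ TTn μ f 1 x * E x := by
    intro x
    have h3 : ∀ z, TTn μ f 1 z * E z ≤ 1.001 * (E x / 0.99) := fun z => by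
      refine mul_le_mul (hFb z).2 ?_ (hE.pos z).le (by norm_num)
      rw [le_div_iff₀ (by norm_num)]
      linarith [hEr x z]
    have h4 : I ≤ 1.001 * (E x / 0.99) := by
      rw [hI]
      have := integral_mono (μ := μ) (integrable_of_cont hcFE)
        (integrable_const (1.001 * (E x / 0.99))) h3
      simpa using this
    have h5 : 0.999 * E x ≤ TTn μ f 1 x * E x :=
      mul_le_mul_of_nonneg_right (hFb x).1 (hE.pos x).le
    refine le_trans ?_ h5
    have h6 := hE.pos x
    have h7 : (0.98 : ℝ) * (1.001 * (E x / 0.99)) ≤ 0.999 * E x := by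
      rw [show (0.98 : ℝ) * (1.001 * (E x / 0.99)) = 0.98 * 1.001 / 0.99 * E x by ring]
      refine mul_le_mul_of_nonneg_right (by norm_num) h6.le
    exact (mul_le_mul_of_nonneg_left h4 (by norm_num)).trans h7
  -- the variance
  obtain ⟨m, hm⟩ : ∃ m : ℝ, m = (∫ z, 16 * (1 + Q z) ^ 3 * M z * E z ∂μ) / I := ⟨_, rfl⟩
  have hQc := pQ.cont
  have hMc := pM.cont
  have hEc := hE.cont
  have h1Q : ∀ z, 0 < 1 + Q z := fun z => by linarith [(abs_le.1 (hQb z)).1]
  have hvr : vr μ (TTn μ f 1) (fun x => 16 * (1 + Q x) ^ 3 * M x) E =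
      (∫ z, (16 * M z / (1 + Q z) - m) ^ 2 * (TTn μ f 1 z * E z) ∂μ) / I := by
    unfold Pool.Agent.N838.T3.vr
    rw [← hI, ← hm]
    have e1 : (fun z => (16 * M z / (1 + Q z) - m) ^ 2 * (TTn μ f 1 z * E z)) =
        fun z => ((16 * (1 + Q z) ^ 3 * M z) ^ 2 / TTn μ f 1 z * E z -
          2 * m * (16 * (1 + Q z) ^ 3 * M z * E z)) + m ^ 2 * (TTn μ f 1 z * E z) := by
      funext z
      have h3 := h1Q z
      rw [hF]
      field_simp
      ring
    have j1 : Integrable (fun z => (16 * (1 + Q z) ^ 3 * M z) ^ 2 / TTn μ f 1 z * E z) μ := by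
      refine integrable_of_cont (Continuous.mul (Continuous.div (by fun_prop) hFA.cont
        fun z => (hFA.pos z).ne') hEc)
    have j2 : Integrable (fun z => 2 * m * (16 * (1 + Q z) ^ 3 * M z * E z)) μ :=
      integrable_of_cont (by fun_prop)
    have j3 : Integrable (fun z => m ^ 2 * (TTn μ f 1 z * E z)) μ :=
      integrable_of_cont (continuous_const.mul hcFE)
    have j12 : Integrable (fun z => (16 * (1 + Q z) ^ 3 * M z) ^ 2 / TTn μ f 1 z * E z -
        2 * m * (16 * (1 + Q z) ^ 3 * M z * E z)) μ := j1.sub j2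
    rw [e1, integral_add j12 j3, integral_sub j1 j2, integral_const_mul,
      integral_const_mul, ← hI]
    have e2 : ∫ z, 16 * (1 + Q z) ^ 3 * M z * E z ∂μ = m * I := by
      rw [hm]
      field_simp
    rw [e2]
    field_simp
    ring
  -- the lower bound of the variance
  have hM2 : 0 ≤ ∫ z, M z ^ 2 ∂μ := integral_nonneg fun z => sq_nonneg _
  have hlow : 0.98 * (253 * ∫ z, M z ^ 2 ∂μ) ≤
      vr μ (TTn μ f 1) (fun x => 16 * (1 + Q x) ^ 3 * M x) E := by
    rw [hvr, le_div_iff₀ hI0]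
    have hpt : ∀ z, 0.98 * I * (253 * M z ^ 2 - 32 * m * M z) ≤
        (16 * M z / (1 + Q z) - m) ^ 2 * (TTn μ f 1 z * E z) := by
      intro z
      have h3 := h1Q z
      have h4 : 253 * M z ^ 2 - 32 * m * M z ≤ (16 * M z / (1 + Q z) - m) ^ 2 := by
        obtain ⟨w, hw⟩ : ∃ w : ℝ, w = M z / (1 + Q z) := ⟨_, rfl⟩
        have h5 : M z = w * (1 + Q z) := by
          rw [hw]
          field_simp
        have h6 : 16 * M z / (1 + Q z) = 16 * w := by rw [hw]; ring
        have h7 : 0 ≤ (16 * w - m - 16 * M z) ^ 2 := sq_nonneg _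
        have h8 := abs_le.1 (hQb z)
        have h9 : w * M z ≥ M z ^ 2 * 0.9998 := by
          have e3 : w * M z = w ^ 2 * (1 + Q z) := by rw [h5]; ring
          have e4 : M z ^ 2 = w ^ 2 * (1 + Q z) ^ 2 := by rw [h5]; ring
          have e5 : (1 + Q z) * 0.9998 ≤ 1 := by
            have : 1 + Q z ≤ 1 + 1 / 10000 := by linarith
            calc (1 + Q z) * 0.9998 ≤ (1 + 1 / 10000) * 0.9998 :=
                  mul_le_mul_of_nonneg_right this (by norm_num)
              _ ≤ 1 := by norm_num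
          rw [e3, e4]
          have e6 : 0 ≤ w ^ 2 * (1 + Q z) := mul_nonneg (sq_nonneg _) h3.le
          have e7 := mul_le_mul_of_nonneg_left e5 e6
          calc w ^ 2 * (1 + Q z) ^ 2 * 0.9998 = w ^ 2 * (1 + Q z) * ((1 + Q z) * 0.9998) := by ring
            _ ≤ w ^ 2 * (1 + Q z) * 1 := e7
            _ = w ^ 2 * (1 + Q z) := mul_one _
        rw [h6]
        have h10 : 0 ≤ M z ^ 2 := sq_nonneg _
        nlinarith
      have h5 : 0 ≤ (16 * M z / (1 + Q z) - m) ^ 2 := sq_nonneg _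
      calc 0.98 * I * (253 * M z ^ 2 - 32 * m * M z)
          ≤ 0.98 * I * (16 * M z / (1 + Q z) - m) ^ 2 :=
            mul_le_mul_of_nonneg_left h4 (mul_nonneg (by norm_num) hI0.le)
        _ ≤ TTn μ f 1 z * E z * (16 * M z / (1 + Q z) - m) ^ 2 :=
            mul_le_mul_of_nonneg_right (hden z) h5
        _ = _ := mul_comm _ _
    have k1 : Integrable (fun z => 0.98 * I * (253 * M z ^ 2 - 32 * m * M z)) μ :=
      integrable_of_cont (by fun_prop)
    have k2 : Integrable (fun z => (16 * M z / (1 + Q z) - m) ^ 2 * (TTn μ f 1 z * E z)) μ := by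
      refine integrable_of_cont (Continuous.mul (Continuous.pow (Continuous.sub
        (Continuous.div (by fun_prop) (by fun_prop) fun z => (h1Q z).ne') continuous_const) 2) hcFE)
    have h3 := integral_mono k1 k2 hpt
    refine le_trans (le_of_eq ?_) h3
    have k3 : Integrable (fun z => 253 * M z ^ 2) μ := integrable_of_cont (by fun_prop)
    have k4 : Integrable (fun z => 32 * m * M z) μ := integrable_of_cont (by fun_prop)
    rw [integral_const_mul, integral_sub k3 k4, integral_const_mul, integral_const_mul, iM]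
    ring
  -- the norm of `M`
  obtain ⟨T, hT⟩ : ∃ T : ℝ, T = ∫ x, f x * χ x ∂μ := ⟨_, rfl⟩
  have hTg : ∫ x, g x * χ x ∂μ = T := by
    have e : (fun x => g x * χ x) = fun x => f x * χ x - χ x := by
      funext x
      rw [hg]
      ring
    rw [e, integral_sub (ho.int hf.cont) (integrable_of_cont ho.cont), ho.mean, sub_zero, hT]
  have hTQ : ∫ x, Q x * χ x ∂μ = T ^ 4 := by
    rw [hQ, ho.mul g2 g2 p2.cont p2.cont p2.cls p2.cls p2.sy p2.sy, hg2,
      ho.mul g g pg.cont pg.cont pg.cls pg.cls pg.sy pg.sy, hTg]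
    ring
  have hQQ : T ^ 8 ≤ ∫ x, Q x ^ 2 ∂μ := by
    have h3 : ∀ x, 2 * T ^ 4 * (Q x * χ x) - T ^ 8 ≤ Q x ^ 2 := by
      intro x
      have h4 : χ x ^ 2 ≤ 1 := by
        have := ho.le x
        rw [← sq_abs]
        exact pow_le_one₀ (abs_nonneg _) this
      have h5 : 0 ≤ (Q x - T ^ 4 * χ x) ^ 2 := sq_nonneg _
      have h6 : (T ^ 4) ^ 2 * χ x ^ 2 ≤ (T ^ 4) ^ 2 * 1 :=
        mul_le_mul_of_nonneg_left h4 (sq_nonneg _)
      nlinarith
    have k1 : Integrable (fun x => 2 * T ^ 4 * (Q x * χ x) - T ^ 8) μ :=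
      ((ho.int pQ.cont).const_mul _).sub (integrable_const _)
    have k2 : Integrable (fun x => Q x ^ 2) μ := integrable_of_cont (by fun_prop)
    have h4 := integral_mono k1 k2 h3
    rw [integral_sub ((ho.int pQ.cont).const_mul _) (integrable_const _), integral_const_mul,
      hTQ] at h4
    simp only [integral_const, probReal_univ, smul_eq_mul, one_mul] at h4
    refine le_trans (le_of_eq ?_) h4
    ring
  have hMM : (1 - s) ^ 2 * T ^ 8 ≤ ∫ x, M x ^ 2 ∂μ := by
    have hQK : 0 ≤ ∫ x, Q x * K x ∂μ := (pQ.mul pK).int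
    have hKc := pK.cont
    have h3 : ∀ x, (1 - s) ^ 2 * Q x ^ 2 + 2 * (1 - s) * (Q x * K x) ≤ M x ^ 2 := fun x => by
      rw [hM]
      have := sq_nonneg (K x)
      nlinarith
    have k1 : Integrable (fun x => (1 - s) ^ 2 * Q x ^ 2 + 2 * (1 - s) * (Q x * K x)) μ :=
      integrable_of_cont (by fun_prop)
    have k2 : Integrable (fun x => M x ^ 2) μ := integrable_of_cont (by fun_prop)
    have h4 := integral_mono k1 k2 h3
    have k3 : Integrable (fun x => (1 - s) ^ 2 * Q x ^ 2) μ := integrable_of_cont (by fun_prop)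
    have k4 : Integrable (fun x => 2 * (1 - s) * (Q x * K x)) μ :=
      integrable_of_cont (by fun_prop)
    rw [integral_add k3 k4, integral_const_mul, integral_const_mul] at h4
    have h5 : 0 ≤ 2 * (1 - s) * ∫ x, Q x * K x ∂μ := mul_nonneg (by linarith) hQK
    have h6 := mul_le_mul_of_nonneg_left hQQ (sq_nonneg (1 - s))
    linarith
  have hT8 : 0 ≤ T ^ 8 := by positivity
  have hs2 : (0.98 : ℝ) ≤ (1 - s) ^ 2 := by nlinarith
  rw [← hT]
  have h3 : 0.98 * T ^ 8 ≤ ∫ x, M x ^ 2 ∂μ :=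
    (mul_le_mul_of_nonneg_right hs2 hT8).trans hMM
  have h4 := mul_le_mul_of_nonneg_left hlow (by norm_num : (0 : ℝ) ≤ (1 / 16) ^ (2 * 1))
  refine le_trans ?_ h4
  norm_num
  norm_num at h3
  linarith

end

end Pool.Agent.N989.MK
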