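import Mathlib
import Pool.Agent.N989.MK.Bare
import Pool.Agent.N991.MK.GapDefs
import Pool.Agent.N991.MK.CnsDefs
import Pool.Agent.N109.RP.Defs
import Pool.Agent.N109.RP.Defs2

/-!
# The limit theories
-/

open MeasureTheory Matrix Filter Pool.Agent.N991.MK Pool.Agent.N109.RP
open scoped Topology

namespace Pool.Agent.N989.MK

noncomputable section

variable {N n : ℕ} {G : Subgroup (unitaryGroup (Fin N) ℂ)}

/-- `q` is the quartic part of the action `S` with the curvature `κ`: `S (exp Y)` is
`S 1 - κ / 2 * |Y| ^ 2 + q y` up to higher order, for `Y = ∑ a, y a • X a`. -/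
def Quart (X : Fin n → Matrix (Fin N) (Fin N) ℂ) (S : G → ℝ) (κ : ℝ)
    (q : (Fin n → ℝ) → ℝ) : Prop :=
  ∀ (y : Fin n → ℝ) (γ : ℝ → G), (∀ t, mx (γ t) = NormedSpace.exp (t • ∑ a, y a • X a)) →
    Tendsto (fun t => (S (γ t) - S 1 + κ / 2 * (∑ a, y a ^ 2) * t ^ 2) / t ^ 4) (𝓝[≠] 0)
      (𝓝 (q y))

/-- Half the bilaplacian of the quartic form `q`. -/
def lap2 (q : (Fin n → ℝ) → ℝ) : ℝ :=
  ∑ a : Fin n, ∑ c : Fin n, (q (Pi.single a 1 + Pi.single c 1) +
    q (Pi.single a 1 - Pi.single c 1) - 2 * q (Pi.single a 1) - 2 * q (Pi.single c 1))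

variable [MeasurableSpace G]

/-- The expectation of `O` in the gauge theory with plaquette weight `w` on the square of level `n`
with the values `V` of the field on the boundary. -/
def Eb (μ : Measure G) (w : G → ℝ) (n : ℕ) (V : BE n → G) (O : (Ed n → G) → ℝ) : ℝ :=
  (∫ I : IE n → G, O (Sum.elim V I) * wt w (Sum.elim V I) ∂(Measure.pi fun _ => μ)) /
    Zb μ w n V

/-- The lattice theories with the plaquette action `S` at the inverse couplings `β i`, with
`2 ^ l i` lattice units as unit of length, converge to the family `F`: for every scale `2 ^ k`, the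
normalised partition functions of the square with this side, as functions of the field on the
boundary, converge uniformly to `F k`. -/
def ConvS (μ : Measure G) (S : G → ℝ) (β : ℕ → ℝ) (l : ℕ → ℕ) (F : ℤ → G → ℝ) : Prop :=
  ∀ (k : ℤ) (ε : ℝ), 0 < ε → ∀ᶠ i in atTop, ∀ V : BE (((l i : ℤ) + k).toNat) → G,
    |Zb μ (bw S (β i)) (((l i : ℤ) + k).toNat) V / Zt μ (bw S (β i)) (((l i : ℤ) + k).toNat) -
      F k (lp V)| < ε

/-- The lattice theories with the plaquette action `S` at the inverse couplings `β i`, with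
`2 ^ l i` lattice units as unit of length, converge in law to the family `F`: for every scale
`2 ^ k`, the expectations of the functions of the coarse field, which is made of the products of the
variables along the edges of length `2 ^ k`, converge. For the gauge invariant functions of the
coarse field in a square `γ` of side `2 ^ (k + n)` the convergence is uniform in the volume. -/
structure ConvE (μ : Measure G) (S : G → ℝ) (β : ℕ → ℝ) (l : ℕ → ℕ) (F : ℤ → G → ℝ) : Prop where
  law : ∀ (k : ℤ) (n : ℕ) (O : (Ed n → G) → ℝ), Continuous O →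
    Tendsto (fun i => Ex μ (bw S (β i)) (((l i : ℤ) + k).toNat + n) fun U => O (crs U)) atTop
      (𝓝 (Ex μ (F k) n O))
  vol : ∀ (k : ℤ) (n : ℕ) (A : (Ed n → G) → ℝ), Continuous A → GaugeInv A →
    ∀ ε : ℝ, 0 < ε → ∀ᶠ i in atTop, ∀ (d : ℕ) (γ : Pq d),
      |Ex μ (bw S (β i)) (((l i : ℤ) + k).toNat + (n + d))
        (fun U => A (fun e => crs U (blk γ e))) -
        Ex μ (F k) (n + d) (fun U => A (fun e => U (blk γ e)))| < ε

/-- The parameter of the theories with the curvature `κ` of the action at the inverse couplings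
`β i`, with `2 ^ l i` lattice units as unit of length. -/
def par (cA κ : ℝ) (β : ℕ → ℝ) (l : ℕ → ℕ) (i : ℕ) : ℝ :=
  κ * β i - cA / 8 * l i - cA / 30 * Real.log (l i)

/-- The properties of the limit theories `F`: `F k` is the effective weight of the plaquettes with
side `2 ^ k`, for all integers `k`. -/
structure Theory (μ : Measure G) (F : ℤ → G → ℝ) : Prop where
  cont : ∀ k, Continuous (F k)
  pos : ∀ k x, 0 < F k x
  cls : ∀ k g x, F k (g * x * g⁻¹) = F k x
  sym : ∀ k x, F k x⁻¹ = F k x
  int_one : ∀ k, ∫ x, F k x ∂μ = 1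
  /-- Positivity in the sense of positive definite functions. -/
  posdef : ∀ (k : ℤ) (m : ℕ) (x : Fin m → G),
    (Matrix.of fun i j => F k ((x i)⁻¹ * x j)).PosSemidef
  /-- Reflection positivity: the mirror is the boundary of a square `β` of side `2 ^ (k + m + 1)`,
  and the reflection exchanges its sheets `0`, `1` with its sheets `2`, `3`. -/
  rp : ∀ (k : ℤ) (m d : ℕ) (β : Pq d) (O : (Sh m → G) × (Sh m → G) → ℝ), Continuous O →
    0 ≤ Ex μ (F k) (m + 1 + d) (fun U => O (shf β 0 U, shf β 1 U) * O (shf β 2 U, shf β 3 U))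
  /-- Reflection positivity: the mirror is the vertical middle line of the square of side
  `2 ^ (k + n + 1)`, in all its sheets, the reflection exchanges the left quarters `0`, `2` with the
  right quarters `1`, `3` and reverses the horizontal edges. -/
  rp_mid : ∀ (k : ℤ) (n : ℕ) (O : (Fin 4 → Fin 2 → Ed n → G) → ℝ), Continuous O →
    0 ≤ Ex μ (F k) (n + 1) (fun U =>
      O (fun s b e => U (emb s ((![0, 2] : Fin 2 → Fin 4) b) e)) *
        O (fun s b => rfu fun e => U (emb s ((![1, 3] : Fin 2 → Fin 4) b) e)))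
  /-- The theory with the cutoff `2 ^ k` has the effective weights `F (k + j)`. -/
  consistent : ∀ (k : ℤ) (j : ℕ) (V : BE j → G),
    Zb μ (F k) j V / Zt μ (F k) j = F (k + j) (lp V)
  /-- The law of the coarse field, which is made of the products of the variables along the edges
  of length `2 ^ (k + m)`, of the theory with the cutoff `2 ^ k` is the theory with the cutoff
  `2 ^ (k + m)`. -/
  law : ∀ (k : ℤ) (m n : ℕ) (O : (Ed n → G) → ℝ), Continuous O →
    Ex μ (F k) (m + n) (fun U => O (crs U)) = Ex μ (F (k + m)) n O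
  /-- Infinite volume limit: the expectations of the gauge invariant functions `A` of the field in
  a square `β` of side `2 ^ (k + m)`, in the large squares of side `2 ^ (k + m + d)` with free
  boundary or with any boundary values `V`, converge to the same limit, with the same rate at all
  cutoffs `2 ^ k`. -/
  vol : ∃ C c : ℝ, 0 < c ∧ ∀ (k : ℤ) (m : ℕ) (A : (Ed m → G) → ℝ), Continuous A → GaugeInv A →
    (∀ U, |A U| ≤ 1) → ∃ L : ℝ, ∀ (d : ℕ) (β : Pq d),
      |Ex μ (F k) (m + d) (fun U => A (fun e => U (blk β e))) - L| ≤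
        C * Real.exp (-(c * (4 : ℝ) ^ (k + m + d))) ∧
      (1 ≤ d → ∀ V : BE (m + d) → G,
        |Eb μ (F k) (m + d) V (fun U => A (fun e => U (blk β e))) - L| ≤
          C * Real.exp (-(c * (4 : ℝ) ^ (k + m + d))))
  /-- Mass gap: the correlations of gauge invariant functions `A`, `B` of the fields in two
  disjoint squares `α`, `β` of side `2 ^ (k + m)` decay exponentially in the square of the
  distance, with the same rate at all cutoffs `2 ^ k`. -/
  gap : ∃ C c : ℝ, 0 < c ∧ ∀ (k : ℤ) (m j : ℕ) (α β : Pq j) (A B : (Ed m → G) → ℝ), α ≠ β →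
    Continuous A → GaugeInv A → (∀ U, |A U| ≤ 1) → Continuous B → GaugeInv B → (∀ U, |B U| ≤ 1) →
    |Ex μ (F k) (m + j) (fun U => A (fun e => U (blk α e)) * B (fun e => U (blk β e))) -
      Ex μ (F k) (m + j) (fun U => A (fun e => U (blk α e))) *
        Ex μ (F k) (m + j) (fun U => B (fun e => U (blk β e)))| ≤
      C * Real.exp (-(c * (4 : ℝ) ^ (k + m + anc j α β)))
  /-- The rate of the mass gap is optimal: the correlations of class functions of the plaquettes of
  side `2 ^ k` at the distance `2 ^ (k + 1)`, in all volumes, do not decay faster. -/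
  mass : ∃ (k₀ : ℕ) (C : ℝ), ∀ k : ℕ, k₀ ≤ k → ∃ f : G → ℝ, Continuous f ∧
    (∀ h x, f (h * x * h⁻¹) = f x) ∧ (∀ x, |f x| ≤ 1) ∧ ∀ i : ℕ, 1 ≤ i → ∃ p q : Pq i,
      anc i p q = 1 ∧ Real.exp (-(C * (4 : ℝ) ^ (k + 1))) ≤ Cv μ (F k) i p q f f

/-- The properties of the Wilson loops, in the constituent `P`, of the limit theories `F`. -/
structure Loops (μ : Measure G) (X : Fin n → Matrix (Fin N) (Fin N) ℂ)
    (P : Matrix (Fin N) (Fin N) ℂ) (cA : ℝ) (F : ℤ → G → ℝ) : Prop where
  wilson : ∀ k, 0 < ∫ x, chr P x * F k x ∂μ ∧ ∫ x, chr P x * F k x ∂μ < 1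
  /-- Asymptotic freedom: the coupling read off from small Wilson loops, to two loops. -/
  free : ∃ C : ℝ, ∀ j : ℕ, 1 ≤ j → |1 - (∫ x, chr P x * F (-j) x ∂μ) -
    4 * ((∑ a, (trace ((P * X a)ᴴ * (P * X a))).re) / (trace P).re) /
      (cA * (j + 4 / 15 * Real.log j))| ≤ C / j ^ 2
  /-- Confinement: the area law. -/
  area : ∃ σ : ℝ, 0 < σ ∧
    Tendsto (fun k : ℕ => -Real.log (∫ x, chr P x * F k x ∂μ) / 4 ^ k) atTop (𝓝 σ)

end

end Pool.Agent.N989.MK
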