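import Mathlib
import Pool.Agent.N989.MK.Model3
import Pool.Agent.N991.MK.Shp5
import Pool.Agent.N988.MK.M4b
import Pool.Agent.N989.MK.Setup

/-!
# The shift of the coupling in terms of the quartic part of the action
-/

open MeasureTheory Matrix Filter Pool.Agent.N991.MK Pool.Agent.N988.MK
open scoped Matrix.Norms.Frobenius Topology
open Pool.Agent.H906R3.YM Pool.Agent.W793.YM Pool.Agent.TH618.YM Pool.Agent.N984.TW

namespace Pool.Agent.N989.MK

set_option linter.unusedSectionVars false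

noncomputable section

variable {N n : ℕ} {G : Subgroup (UN N)}

/-- the quartic part of the action is given by its state -/
lemma quart_of_ent (hn : 0 < n) (B : Frame G n) (hGc : IsClosed (G : Set (UN N))) {S : G → ℝ}
    {κ : ℝ} (hκ : 0 < κ)
    {W : ℝ → (Mat N)ˣ → ℂ} {mw : ℝ → (Fin n → ℂ) → ℂ} {r₀ CW Λ : ℝ}
    (hE : Ent B (wS S κ) W mw r₀ CW Λ) :
    ∃ q : (Fin n → ℝ) → ℝ, Quart B.X S κ q ∧
      48 / 5 * qb n (mw 1) = -(4 / (5 * n * κ)) * lap2 q := by
  have hst := hE.st r₀ hE.r_pos le_rfl 1 zero_le_one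
  have hcf := hE.cf 1 zero_le_one
  have hr := hE.r_pos
  have h1 : W 1 1 = ((wS S κ 1 1 : ℝ) : ℂ) := by
    rw [← hcf.res 1]
    congr 1
    exact Units.ext rfl
  have h10 : W 1 1 ≠ 0 := by
    rw [h1]
    exact_mod_cast (hE.pos 1 1).ne'
  -- the action near the identity
  have hS : ∀ v : Fin n → ℝ, nE v < r₀ →
      S (Eg B hGc v) - S 1 = -κ / 2 * nE v ^ 2 - κ * (mw 1 (rl v)).re := by
    intro v hv
    have h2 := hst.eq (rl v) (by rw [Pool.Agent.N988.MK.nC_rl]; exact hv)
    rw [uE_rl B hGc, hcf.res, h1, Pool.Agent.N988.MK.qC_rl] at h2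
    have h3 := congrArg norm h2
    rw [norm_mul, Complex.norm_exp, Complex.norm_real, Complex.norm_real, Real.norm_eq_abs,
      Real.norm_eq_abs, abs_of_pos (hE.pos 1 _), abs_of_pos (hE.pos 1 _)] at h3
    unfold wS at h3
    rw [← Real.exp_add] at h3
    have h4 := Real.exp_injective h3
    have e1 : (-(((1 : ℝ) : ℂ) / 2) * ((nE v ^ 2 : ℝ) : ℂ) - mw 1 (rl v)).re =
        -(1 / 2) * nE v ^ 2 - (mw 1 (rl v)).re := by
      rw [Complex.sub_re]
      congr 1
      rw [show -(((1 : ℝ) : ℂ) / 2) * ((nE v ^ 2 : ℝ) : ℂ) = ((-(1 / 2) * nE v ^ 2 : ℝ) : ℂ) by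
        push_cast; ring, Complex.ofReal_re]
    rw [e1] at h4
    have h5 := congrArg (fun z => κ * z) h4
    field_simp at h5
    linarith
  refine ⟨fun y => -κ * (m4 (mw 1) (rl y)).re, ?_, ?_⟩
  · intro y γ hγ
    have hγ2 : ∀ t, γ t = Eg B hGc (t • y) := by
      intro t
      apply mt_inj
      have h2 : mt (γ t) = _ := hγ t
      rw [h2, mt_Eg]
      unfold EM
      rw [LX_smul]
      rfl
    have key : ∀ t : ℝ, |t| * nE y < r₀ → |S (γ t) - S 1 + κ / 2 * (∑ a, y a ^ 2) * t ^ 2 -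
        t ^ 4 * (-κ * (m4 (mw 1) (rl y)).re)| ≤ κ * (2 * CW * nE y ^ 6 / r₀ ^ 2) * t ^ 6 := by
      intro t ht
      have hv : nE (t • y) < r₀ := by rwa [Pool.Agent.N988.MK.nE_smul]
      have h2 := hS (t • y) hv
      rw [← hγ2, Pool.Agent.N988.MK.nE_smul] at h2
      have h3 := (hst.m4_near hcf.hol h10 hr (x := rl (t • y))
        (by rw [Pool.Agent.N988.MK.nC_rl]; exact hv)).1
      have e2 : rl (t • y) = (t : ℂ) • rl y := by
        funext a
        simp [rl]
      have e3 : m4 (mw 1) (rl (t • y)) = ((t ^ 4 : ℝ) : ℂ) * m4 (mw 1) (rl y) := by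
        rw [e2, m4_smul]
        push_cast
        ring
      rw [e3, Pool.Agent.N988.MK.nC_rl, Pool.Agent.N988.MK.nE_smul, mul_one] at h3
      have h4 := (Complex.abs_re_le_norm _).trans h3
      rw [Complex.sub_re, Complex.re_ofReal_mul] at h4
      have h5 : S (γ t) - S 1 + κ / 2 * (∑ a, y a ^ 2) * t ^ 2 -
          t ^ 4 * (-κ * (m4 (mw 1) (rl y)).re) =
          -κ * ((mw 1 (rl (t • y))).re - t ^ 4 * (m4 (mw 1) (rl y)).re) := by
        rw [h2, ← Pool.Agent.N991.MK.nE_sq, mul_pow, sq_abs]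
        ring
      rw [h5, abs_mul, abs_neg, abs_of_pos hκ, mul_assoc κ]
      refine mul_le_mul_of_nonneg_left (h4.trans (le_of_eq ?_)) hκ.le
      rw [mul_pow, show |t| ^ 6 = t ^ 6 by
        rw [show (6 : ℕ) = 2 * 3 by norm_num, pow_mul, pow_mul, sq_abs]]
      ring
    rw [tendsto_iff_norm_sub_tendsto_zero]
    have h2 : Tendsto (fun t : ℝ => κ * (2 * CW * nE y ^ 6 / r₀ ^ 2) * t ^ 2) (𝓝[≠] 0)
        (𝓝 0) := by
      have h3 : Continuous fun t : ℝ => κ * (2 * CW * nE y ^ 6 / r₀ ^ 2) * t ^ 2 := by fun_prop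
      have h4 := h3.tendsto 0
      rw [zero_pow (by norm_num), mul_zero] at h4
      exact h4.mono_left nhdsWithin_le_nhds
    refine squeeze_zero' (Eventually.of_forall fun t => norm_nonneg _) ?_ h2
    have h5 : ∀ᶠ t : ℝ in 𝓝[≠] 0, |t| * nE y < r₀ := by
      have : ∀ᶠ t : ℝ in 𝓝 0, |t| * nE y < r₀ := by
        have h6 : Continuous fun t : ℝ => |t| * nE y := by fun_prop
        have h7 := h6.tendsto 0
        rw [abs_zero, zero_mul] at h7
        exact h7.eventually (gt_mem_nhds hr)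
      exact this.filter_mono nhdsWithin_le_nhds
    filter_upwards [h5, self_mem_nhdsWithin] with t ht ht0
    have ht0' : t ≠ 0 := ht0
    have h6 := key t ht
    have h7 : (S (γ t) - S 1 + κ / 2 * (∑ a, y a ^ 2) * t ^ 2) / t ^ 4 -
        -κ * (m4 (mw 1) (rl y)).re =
        (S (γ t) - S 1 + κ / 2 * (∑ a, y a ^ 2) * t ^ 2 -
          t ^ 4 * (-κ * (m4 (mw 1) (rl y)).re)) / t ^ 4 := by
      field_simp
    have ht4 : 0 < t ^ 4 := by positivity
    rw [Real.norm_eq_abs, h7, abs_div, abs_of_pos ht4, div_le_iff₀ ht4]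
    calc _ ≤ κ * (2 * CW * nE y ^ 6 / r₀ ^ 2) * t ^ 6 := h6
      _ = _ := by ring
  · unfold qb lap2
    have hn' : (n : ℝ) ≠ 0 := by positivity
    have e : ∀ a c : Fin n, (Pool.Agent.N988.MK.T4 (mw 1) (Pi.single a 1) (Pi.single c 1)).re =
        -(1 / κ) * (-κ * (m4 (mw 1) (rl (Pi.single a 1 + Pi.single c 1))).re +
          -κ * (m4 (mw 1) (rl (Pi.single a 1 - Pi.single c 1))).re -
          2 * (-κ * (m4 (mw 1) (rl (Pi.single a 1))).re) -
          2 * (-κ * (m4 (mw 1) (rl (Pi.single c 1))).re)) := by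
      intro a c
      have e1 : rl (Pi.single a (1 : ℝ) + Pi.single c 1) =
          (Pi.single a (1 : ℂ) + Pi.single c 1 : Fin n → ℂ) := by
        rw [← rl_single a, ← rl_single c]
        funext i
        simp [rl]
      have e2 : rl (Pi.single a (1 : ℝ) - Pi.single c 1) =
          (Pi.single a (1 : ℂ) - Pi.single c 1 : Fin n → ℂ) := by
        rw [← rl_single a, ← rl_single c]
        funext i
        simp [rl]
      unfold Pool.Agent.N988.MK.T4
      rw [e1, e2, rl_single, rl_single]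
      simp only [Complex.sub_re, Complex.add_re, Complex.mul_re, Complex.re_ofNat,
        Complex.im_ofNat, zero_mul, sub_zero]
      field_simp
      ring
    simp only [e, ← Finset.mul_sum]
    field_simp
    ring

end

end Pool.Agent.N989.MK
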