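import Mathlib
import Pool.Agent.N989.MK.Model3
import Pool.Agent.N989.MK.Aux4
import Pool.Agent.N989.MK.Cls3
import Pool.Agent.N989.MK.Tau
import Pool.Agent.N989.MK.Mass
import Pool.Agent.N989.MK.Main2c
import Pool.Agent.N991.MK.Shp5
import Pool.Agent.N991.MK.Gap5
import Pool.Agent.N991.MK.Cvg2
import Pool.Agent.N991.MK.Cvg3
import Pool.Agent.N109.RP.Main
import Pool.Agent.N109.RP.Geo
import Pool.Agent.N565.MK.Const
import Pool.Agent.N988.MK.Sup3
import Pool.Agent.N988.MK.CharP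
import Pool.Agent.N989.MK.Setup
import Pool.Agent.N991.MK.Iso
import Pool.Agent.N991.MK.TwoMain
import Pool.Agent.N988.MK.S4

/-!
# The classification of the continuum limits
-/

open MeasureTheory Matrix Filter Pool.Agent.N991.MK Pool.Agent.N988.MK
open scoped Matrix.Norms.Frobenius Topology
open Pool.Agent.H906R3.YM Pool.Agent.W793.YM Pool.Agent.TH618.YM Pool.Agent.N984.TW

namespace Pool.Agent.N989.MK

set_option linter.unusedSectionVars false

noncomputable section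

variable {N n : ℕ} {G : Subgroup (UN N)} [MeasurableSpace G] [BorelSpace G] {μ : Measure G}
  [IsProbabilityMeasure μ] [μ.IsHaarMeasure]

lemma wS_adm {S : G → ℝ} (hS : BareAction G S) {κ : ℝ}
    (hct : Continuous fun p : ℝ × G => wS S κ p.1 p.2) (β : ℝ) : Adm (wS S κ β) :=
  ⟨hct.comp (continuous_const.prodMk continuous_id), fun _ => Real.exp_pos _,
    fun g x => by unfold wS; rw [hS.cls], fun x => by unfold wS; rw [hS.sym]⟩

lemma bw_wS (S : G → ℝ) {κ : ℝ} (hκ : 0 < κ) (β : ℝ) : bw S β = wS S κ (κ * β) := by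
  funext g
  unfold bw wS
  congr 1
  field_simp

section
variable [CompactSpace G] [SecondCountableTopology G] [μ.IsMulRightInvariant] [μ.IsInvInvariant]

/-- the convergence of the theories in terms of the effective weights -/
lemma convS_iff {S : G → ℝ} {β : ℕ → ℝ} {l : ℕ → ℕ} {F : ℤ → G → ℝ}
    (hA : ∀ i, Adm (bw S (β i))) : ConvS μ S β l F ↔ CT μ (fun i => bw S (β i)) l F := by
  constructor
  · intro h k ε hε
    filter_upwards [h k ε hε] with i hi x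
    obtain ⟨V, rfl⟩ := lp_surj (((l i : ℤ) + k).toNat) x
    have h3 := hi V
    rw [Zb_TTn (hA i), Zt_TTn (hA i)] at h3
    unfold nrm
    rwa [inv_mul_eq_div]
  · intro h k ε hε
    filter_upwards [h k ε hε] with i hi V
    have h3 := hi (lp V)
    rw [Zb_TTn (hA i), Zt_TTn (hA i)]
    unfold nrm at h3
    rwa [inv_mul_eq_div] at h3

lemma int_chr {P : Matrix (Fin N) (Fin N) ℂ} (F : G → ℝ) (h1 : ∫ x, F x ∂μ = 1) :
    ∫ x, chr P x * F x ∂μ = WW μ (chiP P) F := by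
  unfold WW
  rw [h1, div_one]
  refine integral_congr_ae (Eventually.of_forall fun x => ?_)
  exact mul_comm _ _

lemma pdf_step {f : G → ℝ} (h : Adm f) : PDf (nrm μ (TT μ f)) := by
  have h1 : PDf (H4 μ f) := PDf.conv (μ := μ) (h.conv (μ := μ)).cont (h.conv (μ := μ)).sy
  have h2 := h1.pow 4
  have hI : 0 ≤ (∫ y, TT μ f y ∂μ)⁻¹ := (inv_pos.2 (h.TT (μ := μ)).ipos).le
  intro k x
  have h3 := (h2 k x).smul hI
  have e : (Matrix.of fun i j => nrm μ (TT μ f) ((x i)⁻¹ * x j)) =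
      (∫ y, TT μ f y ∂μ)⁻¹ • (Matrix.of fun i j => (fun x => H4 μ f x ^ 4) ((x i)⁻¹ * x j)) := by
    ext i j
    rfl
  rw [e]
  exact h3

/-- the mass is finite -/
lemma mass_of {B : Frame G n} {hGc : IsClosed (G : Set (UN N))}
    {χ : G → ℝ} (ho : Obs μ χ) {m : ℕ} (hg : Gen (EDG B hGc) m 1) {c b A : ℝ} {Fk : ℤ → G → ℝ}
    (hF : LimP μ χ (EDG B hGc) c b A Fk) :
    ∃ (k₀ : ℕ) (C : ℝ), ∀ k : ℕ, k₀ ≤ k → ∃ f : G → ℝ, Continuous f ∧
      (∀ h x, f (h * x * h⁻¹) = f x) ∧ (∀ x, |f x| ≤ 1) ∧ ∀ i : ℕ, 1 ≤ i → ∃ p q : Pq i,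
        anc i p q = 1 ∧ Real.exp (-(C * (4 : ℝ) ^ (k + 1))) ≤ Cv μ (Fk k) i p q f f := by
  have hA := hF.adm
  have h1 := hF.one
  have hr := hF.step
  obtain ⟨K, hK, hKs⟩ := hF.sc 0
  obtain ⟨M, hM⟩ := unif_small (μ := μ) hg hK (e := 1 / 10) (by norm_num)
  obtain ⟨σ, s1, s2⟩ := ho.tension hg hK (hA 0) hKs (hF.w 0).1
  obtain ⟨k1, hk1⟩ := eventually_atTop.1 (s2.eventually (gt_mem_nhds (show σ < σ + 1 by linarith)))
  refine ⟨max M k1, 2 * (σ + 1) + 1, fun k hk => ⟨fun x => Fk k x - 1,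
    (hA k).cont.sub continuous_const, fun h x => congrArg (· - 1) ((hA k).cls h x), fun x => ?_,
    fun i hi => ?_⟩⟩
  · have h2 := traj_iter hA hr h1 0 k
    rw [zero_add] at h2
    have h3 := hM _ (hA 0) hKs k (le_of_max_le_left hk) x
    rw [h2] at h3
    linarith
  · obtain ⟨p, q, hpq, ha⟩ := exists_sep i hi
    refine ⟨p, q, ha, ?_⟩
    have h2 := traj_iter hA hr h1 0 k
    rw [zero_add] at h2
    have h3 := hM _ (hA 0) hKs k (le_of_max_le_left hk) 1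
    rw [h2] at h3
    have hp : PDf (Fk k) := by
      have h4 := pdf_step (μ := μ) (hA (k - 1))
      rw [← hr, sub_add_cancel] at h4
      exact h4
    have h5 := cov_lower ho (hA k) hp (h1 k) (by linarith [(abs_lt.1 h3).2]) hpq ha
    refine le_trans ?_ h5
    have h6 := hk1 k (le_of_max_le_right hk)
    have hw : WW μ χ (TTn μ (Fk 0) k) = ∫ x, Fk k x * χ x ∂μ := by
      rw [← WW_nrm ((hA 0).TTn k), h2]
      unfold WW
      rw [h1, div_one]
    unfold al wl at h6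
    rw [hw] at h6
    have hw0 : 0 < ∫ x, Fk k x * χ x ∂μ := by
      have h7 := (hF.w k).1
      unfold WW at h7
      rwa [h1, div_one] at h7
    have h4k : (1 : ℝ) ≤ 4 ^ k := one_le_pow₀ (by norm_num)
    rw [div_lt_iff₀ (by positivity)] at h6
    have h8 : Real.exp (-((σ + 1) * 4 ^ k)) ≤ ∫ x, Fk k x * χ x ∂μ := by
      rw [← Real.exp_log hw0]
      exact Real.exp_le_exp.2 (by linarith)
    have h9 : Real.exp (-((σ + 1) * 4 ^ k)) ^ 8 ≤ (∫ x, Fk k x * χ x ∂μ) ^ 8 :=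
      pow_le_pow_left₀ (Real.exp_pos _).le h8 8
    rw [← Real.exp_nat_mul] at h9
    have h10 : Real.exp (-1) ≤ 1 / 2 := by
      have h11 := Real.add_one_le_exp (1 : ℝ)
      rw [Real.exp_neg, one_div]
      exact inv_anti₀ (by norm_num) (by linarith)
    calc Real.exp (-((2 * (σ + 1) + 1) * (4 : ℝ) ^ (k + 1)))
        ≤ Real.exp (-1 + ((8 : ℕ) : ℝ) * -((σ + 1) * 4 ^ k)) := by
          refine Real.exp_le_exp.2 ?_
          rw [pow_succ]
          push_cast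
          linarith
      _ = Real.exp (-1) * Real.exp (((8 : ℕ) : ℝ) * -((σ + 1) * 4 ^ k)) := Real.exp_add _ _
      _ ≤ 1 / 2 * (∫ x, Fk k x * χ x ∂μ) ^ 8 :=
          mul_le_mul h10 h9 (Real.exp_pos _).le (by norm_num)

/-- the properties of the limits -/
lemma theory_of {B : Frame G n} {hGc : IsClosed (G : Set (UN N))}
    {χ : G → ℝ} (ho : Obs μ χ) {m : ℕ} (hg : Gen (EDG B hGc) m 1) {c b A : ℝ}
    {Fk : ℤ → G → ℝ} (hF : LimP μ χ (EDG B hGc) c b A Fk) : Theory μ Fk := by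
  have hA := hF.adm
  have h1 := hF.one
  have hr := hF.step
  obtain ⟨K, hK, hKs⟩ := hF.sc 0
  refine ⟨fun k => (hA k).cont, fun k => (hA k).pos, fun k => (hA k).cls,
    fun k => (hA k).sy, h1, fun k => ?_, fun k m' d' β' O hO =>
      Pool.Agent.N109.RP.rp_weight (hA k).cont (fun x => ((hA k).pos x).le) m' d' β' hO,
    fun k n' O hO => Pool.Agent.N109.RP.rp_geo (hA k).cont (fun x => ((hA k).pos x).le)
      (fun g x => (hA k).cls g x) (fun x => (hA k).sy x) n' hO, ?_,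
    fun k m' n' O hO => cons_traj hA (fun k j => traj_iter hA hr h1 k j) k m' n' O hO,
    theory_bd hg hA h1 (fun k j => traj_iter hA hr h1 k j) hK hKs, ?_, ?_⟩
  · have h2 := pdf_step (μ := μ) (hA (k - 1))
    rw [← hr, sub_add_cancel] at h2
    exact h2
  · intro k j V
    rw [Zb_TTn (hA k), Zt_TTn (hA k), ← traj_iter hA hr h1 k j]
    unfold nrm
    rw [inv_mul_eq_div]
  · obtain ⟨c, hc, h2⟩ := clustering_traj (μ := μ) hg hA h1 hr hK hKs
    exact ⟨18, c, hc, fun k m j α β A B hαβ h3 h4 h5 h6 h7 h8 =>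
      gap_blk hA (fun k j => traj_iter hA hr h1 k j) h2 k m j α β A B hαβ h3 h4 h5 h6 h7 h8⟩
  · exact mass_of ho hg hF

/-- the convergence in law -/
lemma convE_of {B : Frame G n} {hGc : IsClosed (G : Set (UN N))} {χ : G → ℝ} {m : ℕ}
    (hg : Gen (EDG B hGc) m 1) {c b A : ℝ} {Fk : ℤ → G → ℝ}
    (hF : LimP μ χ (EDG B hGc) c b A Fk) {S : G → ℝ} {β : ℕ → ℝ} {l : ℕ → ℕ}
    (hbA : ∀ i, Adm (bw S (β i))) (hl : Tendsto l atTop atTop)
    (h : CT μ (fun i => bw S (β i)) l Fk) : ConvE μ S β l Fk := by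
  have hA := hF.adm
  have h1 := hF.one
  have hr := fun k j => traj_iter hA hF.step h1 k j
  obtain ⟨K, hK, hKs⟩ := hF.sc 0
  obtain ⟨M, hM⟩ := sm_large hg hA h1 hr hK hKs (e := 1 / 20) (by norm_num)
  exact ⟨fun k n' O hO => cvg_law hbA hA h k n' O hO,
    fun k n' A' cA gA ε hε => cvg_vol' hbA hA hr hl h
      (fun k => ⟨((M : ℤ) - k).toNat, hM _ (by omega)⟩) k n' A' cA gA ε hε⟩

/-- the properties of the Wilson loops of the limits -/
lemma loops_of {B : Frame G n} {hGc : IsClosed (G : Set (UN N))}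
    {P : Matrix (Fin N) (Fin N) ℂ} (ho : Obs μ (chiP P : G → ℝ)) {m : ℕ}
    (hg : Gen (EDG B hGc) m 1) {cA : ℝ} (hcA : 0 < cA) {Fk : ℤ → G → ℝ}
    (hF : LimP μ (chiP P) (EDG B hGc) (cA / 8) (-(cA ^ 2 / 240))
      ((∑ a, ‖P * B.X a‖ ^ 2) / (2 * (trace P).re)) Fk) : Loops μ B.X P cA Fk := by
  have hA := hF.adm
  have h1 := hF.one
  have hr := hF.step
  obtain ⟨K, hK, hKs⟩ := hF.sc 0
  obtain ⟨C5, hC5, g8⟩ := hF.af
  refine ⟨fun k => ?_, ?_, ?_⟩
  · rw [int_chr _ (h1 k)]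
    exact hF.w k
  · refine ⟨C5, fun j hj => ?_⟩
    rw [int_chr _ (h1 _)]
    have hj0 : (0 : ℝ) < j := by exact_mod_cast (by omega : 0 < j)
    have hj1 : (1 : ℝ) ≤ j := by exact_mod_cast hj
    have hlj : 0 ≤ Real.log j := Real.log_nonneg hj1
    have e : (∑ a, ‖P * B.X a‖ ^ 2) / (2 * (trace P).re) /
        (cA / 8 * j - -(cA ^ 2 / 240) / (cA / 8) * Real.log j) =
        4 * ((∑ a, (trace ((P * B.X a)ᴴ * (P * B.X a))).re) / (trace P).re) /
          (cA * (j + 4 / 15 * Real.log j)) := by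
      simp only [← sq_ip]
      have e1 : cA / 8 * j - -(cA ^ 2 / 240) / (cA / 8) * Real.log j =
          cA * (j + 4 / 15 * Real.log j) / 8 := by
        field_simp
        ring
      rw [e1]
      field_simp
      ring
    have h2 := g8 j hj
    rwa [e] at h2
  · obtain ⟨σ, s1, s2⟩ := ho.tension hg hK (hA 0) hKs (hF.w 0).1
    refine ⟨σ, s1, s2.congr fun k => ?_⟩
    have h2 := traj_iter hA hr h1 0 k
    unfold al wl
    rw [int_chr _ (h1 _), ← WW_nrm ((hA 0).TTn k), h2, zero_add]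

end

lemma casimir_unique {B : Frame G n} (hn : 0 < n) {cA cA' : ℝ}
    (h : ∀ x : Fin n → ℝ, ∑ a, ‖LX B x * B.X a - B.X a * LX B x‖ ^ 2 = cA * ∑ a, x a ^ 2)
    (h' : ∀ x : Fin n → ℝ, ∑ a, ‖LX B x * B.X a - B.X a * LX B x‖ ^ 2 = cA' * ∑ a, x a ^ 2) :
    cA = cA' := by
  have h1 := (h (Pi.single ⟨0, hn⟩ 1)).symm.trans (h' (Pi.single ⟨0, hn⟩ 1))
  have e2 : ∑ a, (Pi.single ⟨0, hn⟩ (1 : ℝ) : Fin n → ℝ) a ^ 2 = 1 := by
    rw [Finset.sum_eq_single ⟨0, hn⟩]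
    · simp
    · intro b _ hb
      simp [hb]
    · intro h
      exact absurd (Finset.mem_univ _) h
  rwa [e2, mul_one, mul_one] at h1

/-- the structures for two actions -/
lemma key3 [CompactSpace G] [ConnectedSpace G] [SecondCountableTopology G]
    [μ.IsMulRightInvariant] [μ.IsInvInvariant] (hG : SimpleGroup G) (B : Frame G n)
    (hGc : IsClosed (G : Set (UN N)))
    {P : Matrix (Fin N) (Fin N) ℂ} (hP : Constituent G P) {cA : ℝ} (hcA : 0 < cA)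
    (hcas : ∀ x : Fin n → ℝ, ∑ a, ‖LX B x * B.X a - B.X a * LX B x‖ ^ 2 = cA * ∑ a, x a ^ 2)
    {S S' : G → ℝ} {κ κ' τ τ' r0 r0' CW CW' Λ Λ' : ℝ}
    {W W' : ℝ → (Mat N)ˣ → ℂ} {mw mw' : ℝ → (Fin n → ℂ) → ℂ}
    (hadm : ∀ β, Adm (wS S κ β)) (hadm' : ∀ β, Adm (wS S' κ' β))
    (hE : Ent B (wS S κ) W mw r0 CW Λ) (hE' : Ent B (wS S' κ') W' mw' r0' CW' Λ')
    (hτ : ∀ β : ℝ, 0 < β → 48 / 5 * qb n (mw β) / β = τ)
    (hτ' : ∀ β : ℝ, 0 < β → 48 / 5 * qb n (mw' β) / β = τ') :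
    ∃ (St : (G → ℝ) → ℝ → ℝ → Prop) (Q : (G → ℝ) → (G → ℝ) → ℝ → ℝ → ℝ → Prop)
      (h1 ε C' c0 R H C4 K hq : ℝ) (Dm : ℕ),
      Cst (EDG B hGc) St (cA / 8) (-(cA ^ 2 / 240))
        ((∑ a, ‖P * B.X a‖ ^ 2) / (2 * (trace P).re)) R H C4 K hq ∧
      PairFlow3 μ (chiP P : G → ℝ) St Q h1 ε C' c0 Dm ∧
      Ent3 μ (chiP P : G → ℝ) (EDG B hGc) St (cA / 8) (-(cA ^ 2 / 240))
        ((∑ a, ‖P * B.X a‖ ^ 2) / (2 * (trace P).re)) R H C4 K hq τ (wS S κ) ∧
      Ent3 μ (chiP P : G → ℝ) (EDG B hGc) St (cA / 8) (-(cA ^ 2 / 240))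
        ((∑ a, ‖P * B.X a‖ ^ 2) / (2 * (trace P).re)) R H C4 K hq τ' (wS S' κ') := by
  have hI : IrC G P := ⟨⟨hP.herm, hP.idem, hP.comm⟩, hP.ne, hP.irr, hP.nontriv⟩
  have hP0 : 0 < (trace P).re := hI.tr_pos
  have hn : 0 < n := frame_pos B hGc hG.nonabelian
  obtain ⟨cA', hcA', hcas', hflow⟩ := weak_flow3 B hGc μ hG.nonabelian hG.simple
    ⟨hP.herm, hP.idem, hP.comm⟩ hP0 hP.nontriv
  obtain rfl := casimir_unique hn hcas hcas'
  obtain ⟨A, hAd⟩ : ∃ A : ℝ, A = (∑ a, ‖P * B.X a‖ ^ 2) / (2 * (trace P).re) := ⟨_, rfl⟩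
  have hA0 : 0 ≤ A := by
    rw [hAd]
    positivity
  have hb : -(cA ^ 2 / 240) ≤ 0 := by
    have : 0 ≤ cA ^ 2 / 240 := by positivity
    linarith
  have hc8 : 0 < cA / 8 := by positivity
  obtain ⟨St, Q, h0, C, R, h1, ε, C', c0, Dm, hfl, hPF⟩ := hflow (min r0 r0') (max CW CW')
    (max Λ Λ') 0 (lt_min hE.r_pos hE'.r_pos) (hE.C_nn.trans (le_max_left _ _)) le_rfl
  have F1 := hfl (wS S κ) W mw τ (hE.mono (lt_min hE.r_pos hE'.r_pos) (min_le_left _ _)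
    (le_max_left _ _) (le_max_left _ _)) (fun β hβ => by
      rw [hτ β (by linarith)]
      simp)
  have F2 := hfl (wS S' κ') W' mw' τ' (hE'.mono (lt_min hE.r_pos hE'.r_pos) (min_le_right _ _)
    (le_max_right _ _) (le_max_right _ _)) (fun β hβ => by
      rw [hτ' β (by linarith)]
      simp)
  rw [← hAd] at F1 F2 ⊢
  obtain ⟨hq, H, C4, K, g1, g2, g3, g4, g5, g6, g7⟩ := stopJ μ (chiP P : G → ℝ) (EDG B hGc)
    (P := St) F1.c_pos F1.C_nn F1.A_nn F1.R_nn F1.h0_pos (-(cA ^ 2 / 240)) F1.ent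
    (Tb := max |τ| |τ'|) ((abs_nonneg τ).trans (le_max_left _ _)) 0
  refine ⟨St, Q, h1, ε, C', c0, R, H, C4, K, hq, Dm, ⟨hc8, hb, hA0, F1.R_nn, g5, g6, g2, g4,
    fun H' => ?_⟩, hPF, ⟨hadm, fun β hβ => g7 F1 (le_max_left _ _) β hβ⟩,
    ⟨hadm', fun β hβ => g7 F2 (le_max_right _ _) β hβ⟩⟩
  obtain ⟨K', k1, k2⟩ := F1.ent H'
  exact ⟨K', k1, fun f h ρ hp hh hh' => k2 f h ρ hp (g1.trans hh) hh'⟩

/-- **The classification of the continuum limits** -/
theorem class_main (hG : SimpleGroup G) {X : Fin n → Matrix (Fin N) (Fin N) ℂ}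
    (hX : LieBasis G X) :
    ∃ (cA : ℝ) (F : ℝ → ℤ → G → ℝ), 0 < cA ∧
      (∀ c, ∑ a, (trace ((X c * X a - X a * X c)ᴴ * (X c * X a - X a * X c))).re = cA) ∧
      (∀ s, Theory μ (F s)) ∧
      (∀ P, Constituent G P → (∀ s, Loops μ X P cA (F s)) ∧
        (∀ u, 0 < u → u < 1 → ∃ s, ∫ x, chr P x * F s 0 x ∂μ = u) ∧
        ∃ u₀ : ℝ, u₀ < 1 ∧ ∀ s s', u₀ < ∫ x, chr P x * F s 0 x ∂μ →
          ∫ x, chr P x * F s 0 x ∂μ = ∫ x, chr P x * F s' 0 x ∂μ → s = s') ∧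
      (∀ k, Continuous fun p : ℝ × G => F p.1 k p.2) ∧
      Function.Injective F ∧
      (∀ s k, F s (k + 1) = F (s - cA / 8) k) ∧
      ∃ q₀ : (Fin n → ℝ) → ℝ, Quart X (fun g : G => (trace (mx g)).re) 1 q₀ ∧
      ∀ S : G → ℝ, BareAction G S → ∃ (κ : ℝ) (q : (Fin n → ℝ) → ℝ), 0 < κ ∧ Curv X S κ ∧
        Quart X S κ q ∧
        (∀ (β : ℕ → ℝ) (l : ℕ → ℕ), (∀ i, 0 < β i) → Tendsto l atTop atTop →
          (∀ s, ConvS μ S β l (F s) ↔ Tendsto (par cA κ β l) atTop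
            (𝓝 (s + 4 / (5 * n) * (lap2 q / κ - lap2 q₀)))) ∧
          (ConvS μ S β l (fun _ _ => 1) ↔ Tendsto (par cA κ β l) atTop atBot) ∧
          ((∀ P, Constituent G P → ∀ k : ℤ,
            Tendsto (fun i => wloop μ P (bw S (β i)) (((l i : ℤ) + k).toNat)) atTop (𝓝 1)) ↔
              Tendsto (par cA κ β l) atTop atTop) ∧
          ∀ F' : ℤ → G → ℝ, ConvS μ S β l F' →
            ConvE μ S β l F' ∧ (F' = (fun _ _ => 1) ∨ ∃ s, F' = F s)) ∧
        ∀ β, 0 < β → ∃ C c : ℝ, 0 < c ∧ ∀ (k : ℕ) (p q : Pq k) (f g : G → ℝ),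
          Continuous f → (∀ h x, f (h * x * h⁻¹) = f x) → (∀ x, |f x| ≤ 1) →
          Continuous g → (∀ h x, g (h * x * h⁻¹) = g x) → (∀ x, |g x| ≤ 1) →
          |Cv μ (bw S β) k p q f g| ≤ C * Real.exp (-(c * 4 ^ anc k p q)) := by
  have hX0 := hX
  have hGc : IsClosed (G : Set (UN N)) := hG.closed
  have : CompactSpace G := isCompact_iff_compactSpace.1 hGc.isCompact
  have : ConnectedSpace G := isConnected_iff_connectedSpace.1 hG.connected
  have := haar_right μ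
  have := haar_inv μ
  obtain ⟨B, rfl⟩ := exists_frame_of X hX.mem hX.orth hX.full
  have hIs : IsoG B := isoG_of_simple B hGc hG.nonabelian hG.simple
  have hn : 0 < n := frame_pos B hGc hG.nonabelian
  obtain ⟨m, hg⟩ := exists_gen B hGc hG.connected
  obtain ⟨cA, hcA, hcas⟩ := exists_cA B hGc hG.nonabelian hG.simple
  obtain ⟨P₀, hP₀⟩ := Pool.Agent.N565.MK.exists_constituent hG
  have hobs : ∀ P, Constituent G P → Obs μ (chiP P : G → ℝ) := fun P hP =>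
    obs_chiP ⟨⟨hP.herm, hP.idem, hP.comm⟩, hP.ne, hP.irr, hP.nontriv⟩
  have ho := hobs P₀ hP₀
  -- Wilson's action
  obtain ⟨S₀, hS₀d⟩ : ∃ S₀ : G → ℝ, S₀ = fun g => (trace (mx g)).re := ⟨_, rfl⟩
  have hS₀ : BareAction G S₀ := by
    rw [hS₀d]
    exact bare_tr
  obtain ⟨κ₀, τ₀, W₀, mw₀, r₀, CW₀, Λ₀, K₀, hκ₀, hK₀, hE₀, hsc₀, hct₀, hτ₀, hess₀⟩ :=
    ent_pol3 (hG := hGc) B hIs hn μ (S := S₀) hS₀.poly (fun g h => hS₀.cls h g) hS₀.sym hS₀.max
  have hκ1 : κ₀ = 1 := by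
    refine curv_unique hn hX0.mem (S := S₀) hess₀ ?_
    rw [hS₀d]
    exact curv_tr B hGc
  have hadm₀ : ∀ β, Adm (wS S₀ κ₀ β) := wS_adm hS₀ hct₀
  -- the family
  have hfam : ∀ P, Constituent G P → ∀ s : ℝ, ∃ Fk : ℤ → G → ℝ,
      LimP μ (chiP P) (EDG B hGc) (cA / 8) (-(cA ^ 2 / 240))
        ((∑ a, ‖P * B.X a‖ ^ 2) / (2 * (trace P).re)) Fk ∧
      Lt μ (cA / 8) (-(cA ^ 2 / 240)) (wS S₀ κ₀) s Fk := by
    intro P hP
    obtain ⟨St, Q, h1, ε, C', c0, R, H, C4, K, hq, Dm, hS, hPF, hE1, -⟩ :=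
      key3 (μ := μ) hG B hGc hP hcA hcas hadm₀ hadm₀ hE₀ hE₀ hτ₀ hτ₀
    exact fun s => exists_Lt hS hPF (hobs P hP) hg (exp_nhds B hGc) hE1 s
  choose F hF hL using hfam P₀ hP₀
  have hFP : ∀ P, Constituent G P → ∀ s, LimP μ (chiP P) (EDG B hGc) (cA / 8) (-(cA ^ 2 / 240))
      ((∑ a, ‖P * B.X a‖ ^ 2) / (2 * (trace P).re)) (F s) := by
    intro P hP s
    obtain ⟨Fk, g1, g2⟩ := hfam P hP s
    rwa [Lt.unique g2 (hL s)] at g1
  have hpar : ∀ (β : ℕ → ℝ) (l : ℕ → ℕ) (κ : ℝ),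
      (fun i => κ * β i - cA / 8 * l i + -(cA ^ 2 / 240) / (cA / 8) * Real.log (l i)) =
      par cA κ β l := by
    intro β l κ
    funext i
    unfold par
    field_simp
    ring
  have hinj : ∀ s s', F s = F s' → s = s' := by
    intro s s' hss
    obtain ⟨St, Q, h1, ε, C', c0, R, H, C4, K, hq, Dm, hS, hPF, hE1, -⟩ :=
      key3 (μ := μ) hG B hGc hP₀ hcA hcas hadm₀ hadm₀ hE₀ hE₀ hτ₀ hτ₀
    have h2 := hL s'
    rw [← hss] at h2
    exact Lt.inj hS hPF ho hE1 (hF s) (hL s) h2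
  obtain ⟨q₀, hq₀, hqb₀⟩ := quart_of_ent hn B hGc hκ₀ hE₀
  have hτq₀ : τ₀ = -(4 / (5 * n * κ₀)) * lap2 q₀ := by
    rw [← hqb₀, ← hτ₀ 1 one_pos, div_one]
  refine ⟨cA, F, hcA, fun c => ?_, fun s => theory_of ho hg (hF s),
    fun P hP => ⟨fun s => loops_of (hobs P hP) hg hcA (hFP P hP s), fun u hu0 hu1 => ?_, ?_⟩,
    fun k => cont_joint hL (fun s k => (hF s).adm k) k, fun s s' => hinj s s',
    fun s k => (shift_one hL s k).symm, q₀, by rw [hκ1, hS₀d] at hq₀; exact hq₀,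
    fun S hS => ?_⟩
  · have h2 := hcas (Pi.single c 1)
    have e1 : LX B (Pi.single c (1 : ℝ)) = B.X c := LX_single B c
    rw [e1] at h2
    have e2 : ∑ a, (Pi.single c (1 : ℝ) : Fin n → ℝ) a ^ 2 = 1 := by
      rw [Finset.sum_eq_single c]
      · simp
      · intro b _ hb
        simp [hb]
      · intro h
        exact absurd (Finset.mem_univ _) h
    rw [e2, mul_one] at h2
    rw [← h2]
    refine Finset.sum_congr rfl fun a _ => ?_
    rw [sq_ip]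
  · obtain ⟨St, Q, h1, ε, C', c0, R, H, C4, K, hq, Dm, hS, hPF, hE1, -⟩ :=
      key3 (μ := μ) hG B hGc hP hcA hcas hadm₀ hadm₀ hE₀ hE₀ hτ₀ hτ₀
    obtain ⟨s, hs⟩ := W_onto hS (hobs P hP) hg hL (hFP P hP) hu0 hu1
    exact ⟨s, by rw [int_chr _ ((hF s).one 0)]; exact hs⟩
  · -- uniqueness for the large values of the Wilson loop
    obtain ⟨cA2, -, -, -, -, -, u₀, hu₀, hun⟩ := hier_main2 (μ := μ) hG hX0 hP
    refine ⟨u₀, hu₀, fun s s' hs hss => hinj s s' ?_⟩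
    obtain ⟨u, hu⟩ : ∃ u : ℝ, u = ∫ x, chr P x * F s 0 x ∂μ := ⟨_, rfl⟩
    have hwp := (hFP P hP s).w 0
    rw [← int_chr _ ((hF s).one 0), ← hu] at hwp
    obtain ⟨F', -, -, hF'⟩ := hun u hwp.1 hwp.2
    rw [← hu] at hs hss
    have huniq : ∀ t, u = ∫ x, chr P x * F t 0 x ∂μ → F t = F' := by
      intro t ht
      -- the reference sequence, from the index where the couplings are positive
      have hbpos : ∀ᶠ i in atTop, 0 < bref (cA / 8) (-(cA ^ 2 / 240)) t i :=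
        (time_lim (by positivity : 0 < cA / 8) succ_tendsto
          (bref_lim (cA / 8) (-(cA ^ 2 / 240)) t) 0).1.eventually (eventually_gt_atTop 0)
      obtain ⟨n0, hn0⟩ := eventually_atTop.1 hbpos
      have hsh : Tendsto (fun i : ℕ => i + n0) atTop atTop := tendsto_add_atTop_nat n0
      have hct : CT μ (fun i => wS S₀ κ₀ (bref (cA / 8) (-(cA ^ 2 / 240)) t (i + n0)))
          (fun i => i + n0 + 1) (F t) := (hL t).ref.sub hsh
      have hact : ∀ β, wS S₀ κ₀ β = act G β := by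
        intro β
        have h3 := bw_wS S₀ hκ₀ β
        rw [hκ1, one_mul] at h3
        rw [hκ1, ← h3, hS₀d]
        rfl
      have h4 := hF' hs (fun i => bref (cA / 8) (-(cA ^ 2 / 240)) t (i + n0))
        (fun i => i + n0 + 1) (fun i => hn0 _ (by omega)) (succ_tendsto.comp hsh) ?_
      · have h5 : ConvS μ S₀ (fun i => bref (cA / 8) (-(cA ^ 2 / 240)) t (i + n0))
            (fun i => i + n0 + 1) F' := by
          rw [hS₀d]
          exact h4
        have h6 : ∀ β, Adm (bw S₀ β) := fun β => by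
          rw [bw_wS S₀ hκ₀]
          exact hadm₀ _
        have h7 := (convS_iff fun i => h6 _).1 h5
        refine CT.unique hct ?_
        have e : (fun i => wS S₀ κ₀ (bref (cA / 8) (-(cA ^ 2 / 240)) t (i + n0))) =
            fun i => bw S₀ (bref (cA / 8) (-(cA ^ 2 / 240)) t (i + n0)) := by
          funext i
          rw [bw_wS S₀ hκ₀, hκ1, one_mul]
        rw [e]
        exact h7
      · have h5 := UT.W (hobs P hP) (fun i => ((hadm₀ _).TTn (μ := μ) _).nrm.cont)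
          ((hF t).adm 0) (hct 0)
        rw [← int_chr _ ((hF t).one 0), ← ht] at h5
        refine h5.congr fun i => ?_
        have h6 : WW μ (chiP P) (fun x => nrm μ (TTn μ
            (wS S₀ κ₀ (bref (cA / 8) (-(cA ^ 2 / 240)) t (i + n0)))
              ((((i + n0 + 1 : ℕ) : ℤ) + 0).toNat)) x) = _ := WW_nrm ((hadm₀ _).TTn (μ := μ) _)
        rw [h6, add_zero, Int.toNat_natCast, hact]
        exact (Ex_WW (hobs P hP).cont (wz_adm _) _).symm
    rw [huniq s hu, huniq s' hss]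
  · obtain ⟨κ, τ, W, mw, r, CW, Λ, K, hκ, hK, hE, hsc, hct, hτ, hess⟩ :=
      ent_pol3 (hG := hGc) B hIs hn μ (S := S) hS.poly (fun g h => hS.cls h g) hS.sym hS.max
    have hadm : ∀ β, Adm (wS S κ β) := wS_adm hS hct
    have Fm : FamG (EDG B hGc) (wS S κ) := ⟨hadm, hct, K, hK, hsc⟩
    obtain ⟨St, Q, h1, ε, C', c0, R, H, C4, K', hq, Dm, hCst, hPF, hE1, hE2⟩ :=
      key3 (μ := μ) hG B hGc hP₀ hcA hcas hadm₀ hadm hE₀ hE hτ₀ hτ
    have hbA : ∀ β, Adm (bw S β) := fun β => by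
      rw [bw_wS S hκ]
      exact hadm _
    have hiff : ∀ (β : ℕ → ℝ) (l : ℕ → ℕ) (F' : ℤ → G → ℝ), ConvS μ S β l F' ↔
        CT μ (fun i => wS S κ (κ * β i)) l F' := by
      intro β l F'
      rw [convS_iff fun i => hbA _]
      simp only [bw_wS S hκ]
    obtain ⟨q, hq', hqb⟩ := quart_of_ent hn B hGc hκ hE
    have hτq : τ = -(4 / (5 * n * κ)) * lap2 q := by
      rw [← hqb, ← hτ 1 one_pos, div_one]
    have hττ : 4 / (5 * n) * (lap2 q / κ - lap2 q₀) = τ₀ - τ := by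
      have hn' : (n : ℝ) ≠ 0 := by positivity
      rw [hτq, hτq₀, hκ1]
      field_simp
      ring
    refine ⟨κ, q, hκ, hess, hq', fun β l hβ hl => ⟨fun s => ?_, ?_,
      ⟨fun h => ?_, fun h P hP k => ?_⟩, fun F' h => ?_⟩, ?_⟩
    · rw [hiff, CT_iff hCst hPF ho hg hE1 hE2 Fm hL hF (fun i => (mul_pos hκ (hβ i)).le) hl,
        hpar, hττ]
    · rw [hiff, CT_one_iff hCst hPF ho hg hE1 hE2 Fm hL hF (fun i => (mul_pos hκ (hβ i)).le) hl,
        hpar]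
    · rw [← hpar]
      refine W_one_iff hCst hPF ho hg hE1 hE2 Fm hL hF (β := fun i => κ * β i)
        (fun i => (mul_pos hκ (hβ i)).le) hl ?_
      refine (h P₀ hP₀ 0).congr fun i => ?_
      rw [← bw_wS S hκ]
      exact Ex_WW ho.cont (hbA _) _
    · obtain ⟨St', Q', h1', ε', C'', c0', R', H', C4', K'', hq', Dm', hCst', hPF', hE1', hE2'⟩ :=
        key3 (μ := μ) hG B hGc hP hcA hcas hadm₀ hadm hE₀ hE hτ₀ hτ
      have h2 := lim_weak hCst' (hobs P hP) hE2' (β := fun i => κ * β i) hl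
        (by rw [hpar]; exact h) k
      refine h2.congr fun i => ?_
      rw [← bw_wS S hκ]
      exact (Ex_WW (hobs P hP).cont (hbA _) _).symm
    · have hcl := CT_class hCst hPF ho hg (chr_dense hP₀) hE1 hE2 Fm hL hF
        (fun i => (mul_pos hκ (hβ i)).le) hl ((hiff β l F').1 h)
      refine ⟨?_, hcl⟩
      have hct' : CT μ (fun i => bw S (β i)) l F' := (convS_iff fun i => hbA _).1 h
      rcases hcl with rfl | ⟨s, rfl⟩
      · exact ⟨fun k n' O hO => cvg_law (fun i => hbA _) (fun _ => adm_one) hct' k n' O hO,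
          fun k n' A cA gA ε hε => cvg_vol_one (fun i => hbA _) hl (fun k => hct' k) k n' A cA gA
            ε hε⟩
      · exact convE_of hg (hF s) (fun i => hbA _) hl hct'
    · exact Pool.Agent.N988.MK.Sup.gap_main hG hX0 S hS

end

end Pool.Agent.N989.MK
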