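import Mathlib
import Pool.Agent.N989.MK.Main3

/-!
# The convergence in law
-/

open MeasureTheory Matrix Filter Pool.Agent.N991.MK Pool.Agent.N988.MK
open scoped Matrix.Norms.Frobenius Topology
open Pool.Agent.H906R3.YM Pool.Agent.W793.YM Pool.Agent.TH618.YM Pool.Agent.N984.TW

namespace Pool.Agent.N989.MK

set_option linter.unusedSectionVars false

noncomputable section

variable {N n : ℕ} {G : Subgroup (UN N)} [MeasurableSpace G] [BorelSpace G] {μ : Measure G}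
  [IsProbabilityMeasure μ] [μ.IsHaarMeasure]

/-- the law of the loops -/
def LL (μ : Measure G) (S : G → ℝ) (β : ℕ → ℝ) (l : ℕ → ℕ) (k : ℤ) (φ : G → ℝ) (i : ℕ) : ℝ :=
  Ex μ (bw S (β i)) (((l i : ℤ) + k).toNat) fun U => φ (lp fun e => U (.inl e))

lemma bare_cont {S : G → ℝ} (hS : BareAction G S) : Continuous S := by
  obtain ⟨p, hp⟩ := hS.poly
  have h0 : Continuous fun g : G => mx g :=
    continuous_subtype_val.comp continuous_subtype_val
  have h1 : Continuous fun g : G => entries g := by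
    refine continuous_pi fun i => ?_
    rcases i with i | i
    · exact Complex.continuous_re.comp (h0.matrix_elem i.1 i.2)
    · exact Complex.continuous_im.comp (h0.matrix_elem i.1 i.2)
  have h2 : S = fun g => MvPolynomial.eval (entries g) p := funext hp
  rw [h2]
  exact (MvPolynomial.continuous_eval p).comp h1

section
variable [CompactSpace G] [SecondCountableTopology G] [μ.IsMulRightInvariant] [μ.IsInvInvariant]

lemma theory_adm {F : ℤ → G → ℝ} (h : Theory μ F) (k : ℤ) : Adm (F k) :=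
  ⟨h.cont k, h.pos k, h.cls k, h.sym k⟩

/-- the loops in terms of the effective weight -/
lemma LL_eq {S : G → ℝ} (hA : ∀ b, Adm (bw S b)) (β : ℕ → ℝ) (l : ℕ → ℕ) (k : ℤ) {φ : G → ℝ}
    (hφ : Continuous φ) (i : ℕ) : LL μ S β l k φ i =
      Ex μ (TTn μ (bw S (β i)) ((l i : ℤ) + k).toNat) 0 (fun U => φ (lp fun e => U (.inl e))) := by
  unfold LL
  rw [Ex_lp (hA _) _ hφ, Ex_lp ((hA _).TTn _) 0 hφ]
  rfl

lemma lp_cont0 : Continuous fun U : Ed 0 → G => lp fun e : BE 0 => U (.inl e) :=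
  lp_cont.comp (continuous_pi fun _ => continuous_apply _)

/-- the loops converge in law -/
lemma LL_tendsto {S : G → ℝ} (hA : ∀ b, Adm (bw S b)) {β : ℕ → ℝ} {l : ℕ → ℕ} {F : ℤ → G → ℝ}
    (hF : ∀ k, Adm (F k)) (h1 : ∀ k, ∫ x, F k x ∂μ = 1) (h : ConvE μ S β l F) (k : ℤ) {φ : G → ℝ}
    (hφ : Continuous φ) : Tendsto (LL μ S β l k φ) atTop (𝓝 (∫ x, φ x * F k x ∂μ)) := by
  have hO : Continuous fun U : Ed 0 → G => φ (lp fun e : BE 0 => U (.inl e)) :=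
    hφ.comp lp_cont0
  have h2 := h.law k 0 _ hO
  have h3 : Ex μ (F k) 0 (fun U => φ (lp fun e => U (.inl e))) = ∫ x, φ x * F k x ∂μ := by
    rw [Ex_lp (hF k) 0 hφ]
    have e : TTn μ (F k) 0 = F k := rfl
    rw [e, h1, div_one]
  rw [h3] at h2
  refine h2.congr fun i => ?_
  rw [LL_eq hA β l k hφ]
  exact Ex_crs (hA _) (n := 0) (O := fun U => φ (lp fun e => U (.inl e))) hO

lemma eq_of_int {f g : G → ℝ} (hf : Continuous f) (hg : Continuous g)
    (h : ∫ x, (f x - g x) * f x ∂μ = ∫ x, (f x - g x) * g x ∂μ) : f = g := by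
  have hc : Continuous fun x => (f x - g x) * (f x - g x) := by fun_prop
  have h1 : ∫ x, (f x - g x) * (f x - g x) ∂μ = 0 := by
    have e : (fun x => (f x - g x) * (f x - g x)) =
        fun x => (f x - g x) * f x - (f x - g x) * g x := by
      funext x
      ring
    rw [e, integral_sub (integrable_of_cont (by fun_prop)) (integrable_of_cont (by fun_prop)), h,
      sub_self]
  have h2 := (integral_eq_zero_iff_of_nonneg (μ := μ) (fun x => mul_self_nonneg (f x - g x))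
    (integrable_of_cont hc)).1 h1
  have h3 := (hc.ae_eq_iff_eq μ continuous_zero).1 h2
  funext x
  have h4 : (f x - g x) * (f x - g x) = 0 := congrFun h3 x
  have h5 := mul_self_eq_zero.1 h4
  linarith

/-- the classification of the limits in terms of the partition functions, for the action `S` -/
structure Cl (μ : Measure G) (S : G → ℝ) (cA κ τ : ℝ) (F : ℝ → ℤ → G → ℝ) : Prop where
  th : ∀ s, Theory μ (F s)
  inj : Function.Injective F
  adm : ∀ b, Adm (bw S b)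
  conv : ∀ (β : ℕ → ℝ) (l : ℕ → ℕ), (∀ i, 0 < β i) → Tendsto l atTop atTop →
    ∀ s, ConvS μ S β l (F s) ↔ Tendsto (par cA κ β l) atTop (𝓝 (s + τ))
  one : ∀ (β : ℕ → ℝ) (l : ℕ → ℕ), (∀ i, 0 < β i) → Tendsto l atTop atTop →
    (ConvS μ S β l (fun _ _ => 1) ↔ Tendsto (par cA κ β l) atTop atBot)
  top : ∀ (β : ℕ → ℝ) (l : ℕ → ℕ), (∀ i, 0 < β i) → Tendsto l atTop atTop →
    ((∀ P, Constituent G P → ∀ k : ℤ,
      Tendsto (fun i => wloop μ P (bw S (β i)) (((l i : ℤ) + k).toNat)) atTop (𝓝 1)) ↔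
        Tendsto (par cA κ β l) atTop atTop)
  cls : ∀ (β : ℕ → ℝ) (l : ℕ → ℕ), (∀ i, 0 < β i) → Tendsto l atTop atTop →
    ∀ F' : ℤ → G → ℝ, ConvS μ S β l F' → ConvE μ S β l F'

variable {S : G → ℝ} {cA κ τ : ℝ} {F : ℝ → ℤ → G → ℝ} {P₀ : Matrix (Fin N) (Fin N) ℂ}

/-- the limits of the loops along a subsequence -/
lemma sub_lim (C : Cl μ S cA κ τ F) (hP₀ : Constituent G P₀) {β : ℕ → ℝ} {l : ℕ → ℕ}
    (hβ : ∀ i, 0 < β i) (hl : Tendsto l atTop atTop) {σ : ℕ → ℕ} (hσ : Tendsto σ atTop atTop)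
    {T : EReal} (hT : Tendsto (fun i => ((par cA κ β l (σ i) : ℝ) : EReal)) atTop (𝓝 T)) :
    (∃ t : ℝ, T = t ∧ ∀ (k : ℤ) (φ : G → ℝ), Continuous φ →
      Tendsto (fun i => LL μ S β l k φ (σ i)) atTop (𝓝 (∫ x, φ x * F (t - τ) k x ∂μ))) ∨
    (T = ⊥ ∧ ∀ (k : ℤ) (φ : G → ℝ), Continuous φ →
      Tendsto (fun i => LL μ S β l k φ (σ i)) atTop (𝓝 (∫ x, φ x ∂μ))) ∨
    (T = ⊤ ∧ Tendsto (fun i => LL μ S β l 0 (chr P₀) (σ i)) atTop (𝓝 1)) := by
  have hβ' : ∀ i, 0 < (β ∘ σ) i := fun i => hβ _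
  have hl' : Tendsto (l ∘ σ) atTop atTop := hl.comp hσ
  have hpar : ∀ i, par cA κ (β ∘ σ) (l ∘ σ) i = par cA κ β l (σ i) := fun i => rfl
  have hLL : ∀ k φ i, LL μ S (β ∘ σ) (l ∘ σ) k φ i = LL μ S β l k φ (σ i) := fun k φ i => rfl
  induction T with
  | bot =>
    refine Or.inr (Or.inl ⟨rfl, fun k φ hφ => ?_⟩)
    have h1 : Tendsto (par cA κ (β ∘ σ) (l ∘ σ)) atTop atBot :=
      EReal.tendsto_coe_nhds_bot_iff.1 hT
    have h2 := C.cls _ _ hβ' hl' _ ((C.one _ _ hβ' hl').2 h1)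
    have h3 := LL_tendsto C.adm (fun _ => adm_one) (fun _ => by simp) h2 k hφ
    simp only [mul_one] at h3
    exact h3
  | coe t =>
    refine Or.inl ⟨t, rfl, fun k φ hφ => ?_⟩
    have h1 : Tendsto (par cA κ (β ∘ σ) (l ∘ σ)) atTop (𝓝 t) := EReal.tendsto_coe.1 hT
    have h2 := C.cls _ _ hβ' hl' _ ((C.conv _ _ hβ' hl' (t - τ)).2 (by rwa [sub_add_cancel]))
    exact LL_tendsto C.adm (theory_adm (C.th _)) (C.th _).int_one h2 k hφ
  | top =>
    refine Or.inr (Or.inr ⟨rfl, ?_⟩)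
    have h1 : Tendsto (par cA κ (β ∘ σ) (l ∘ σ)) atTop atTop :=
      EReal.tendsto_coe_nhds_top_iff.1 hT
    exact (C.top _ _ hβ' hl').2 h1 P₀ hP₀ 0

/-- **There are no other limits of the laws of the loops** -/
theorem law_class (C : Cl μ S cA κ τ F) (hP₀ : Constituent G P₀) (ho : Obs μ (chiP P₀ : G → ℝ))
    (hw : ∀ s, 0 < ∫ x, chr P₀ x * F s 0 x ∂μ ∧ ∫ x, chr P₀ x * F s 0 x ∂μ < 1)
    {β : ℕ → ℝ} {l : ℕ → ℕ} (hβ : ∀ i, 0 < β i) (hl : Tendsto l atTop atTop)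
    (h : ∀ (k : ℤ) (φ : G → ℝ), Continuous φ → (∀ g x, φ (g * x * g⁻¹) = φ x) →
      ∃ L : ℝ, Tendsto (LL μ S β l k φ) atTop (𝓝 L)) :
    (∃ t, Tendsto (par cA κ β l) atTop (𝓝 t)) ∨ Tendsto (par cA κ β l) atTop atBot ∨
      Tendsto (par cA κ β l) atTop atTop := by
  have hm : ∫ x, chr P₀ x ∂μ = 0 := ho.mean
  obtain ⟨L₀, hL₀⟩ := h 0 (chr P₀) ho.cont ho.cls
  -- the values of the loop tell the three cases apart, and the laws tell the finite values apart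
  have huniq : ∀ (σ σ' : ℕ → ℕ) (T T' : EReal), Tendsto σ atTop atTop → Tendsto σ' atTop atTop →
      Tendsto (fun i => ((par cA κ β l (σ i) : ℝ) : EReal)) atTop (𝓝 T) →
      Tendsto (fun i => ((par cA κ β l (σ' i) : ℝ) : EReal)) atTop (𝓝 T') → T = T' := by
    intro σ σ' T T' hσ hσ' hT hT'
    have hv : ∀ (ρ : ℕ → ℕ) (v : ℝ), Tendsto ρ atTop atTop →
        Tendsto (fun i => LL μ S β l 0 (chr P₀) (ρ i)) atTop (𝓝 v) → v = L₀ :=
      fun ρ v hρ hv => tendsto_nhds_unique hv (hL₀.comp hρ)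
    rcases sub_lim C hP₀ hβ hl hσ hT with ⟨t, rfl, h1⟩ | ⟨rfl, h1⟩ | ⟨rfl, h1⟩ <;>
      rcases sub_lim C hP₀ hβ hl hσ' hT' with ⟨t', rfl, h2⟩ | ⟨rfl, h2⟩ | ⟨rfl, h2⟩
    · have h3 : F (t - τ) = F (t' - τ) := by
        funext k
        refine eq_of_int (μ := μ) ((C.th _).cont k) ((C.th _).cont k) ?_
        have hc : Continuous fun x => F (t - τ) k x - F (t' - τ) k x :=
          ((C.th _).cont k).sub ((C.th _).cont k)
        obtain ⟨L, hL⟩ := h k (fun x => F (t - τ) k x - F (t' - τ) k x) hc fun g x => by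
          rw [(C.th _).cls, (C.th _).cls]
        rw [tendsto_nhds_unique (h1 k _ hc) (hL.comp hσ),
          tendsto_nhds_unique (h2 k _ hc) (hL.comp hσ')]
      have h4 := C.inj h3
      have h5 : t = t' := by linarith
      rw [h5]
    · have e1 := hv σ _ hσ (h1 0 _ ho.cont)
      have e2 := hv σ' _ hσ' (h2 0 _ ho.cont)
      have e3 : ∫ x, chr P₀ x * F (t - τ) 0 x ∂μ = L₀ := e1
      have e4 : ∫ x, chr P₀ x ∂μ = L₀ := e2
      have := (hw (t - τ)).1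
      linarith
    · have e1 := hv σ _ hσ (h1 0 _ ho.cont)
      have e2 := hv σ' _ hσ' h2
      have e3 : ∫ x, chr P₀ x * F (t - τ) 0 x ∂μ = L₀ := e1
      have := (hw (t - τ)).2
      linarith
    · have e1 := hv σ _ hσ (h1 0 _ ho.cont)
      have e2 := hv σ' _ hσ' (h2 0 _ ho.cont)
      have e3 : ∫ x, chr P₀ x ∂μ = L₀ := e1
      have e4 : ∫ x, chr P₀ x * F (t' - τ) 0 x ∂μ = L₀ := e2
      have := (hw (t' - τ)).1
      linarith
    · rfl
    · have e1 := hv σ _ hσ (h1 0 _ ho.cont)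
      have e2 := hv σ' _ hσ' h2
      have e3 : ∫ x, chr P₀ x ∂μ = L₀ := e1
      linarith
    · have e1 := hv σ _ hσ h1
      have e2 := hv σ' _ hσ' (h2 0 _ ho.cont)
      have e4 : ∫ x, chr P₀ x * F (t' - τ) 0 x ∂μ = L₀ := e2
      have := (hw (t' - τ)).2
      linarith
    · have e1 := hv σ _ hσ h1
      have e2 := hv σ' _ hσ' (h2 0 _ ho.cont)
      have e4 : ∫ x, chr P₀ x ∂μ = L₀ := e2
      linarith
    · rfl
  obtain ⟨T, σ, hσ, hT⟩ := CompactSpace.tendsto_subseq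
    (fun i => ((par cA κ β l i : ℝ) : EReal))
  have hlim : Tendsto (fun i => ((par cA κ β l i : ℝ) : EReal)) atTop (𝓝 T) := by
    refine tendsto_of_subseq_tendsto fun ns hns => ?_
    obtain ⟨T', ms, hms, hT'⟩ := CompactSpace.tendsto_subseq
      (fun i => ((par cA κ β l (ns i) : ℝ) : EReal))
    refine ⟨ms, ?_⟩
    have e : T = T' := huniq σ (ns ∘ ms) T T' hσ.tendsto_atTop
      (hns.comp hms.tendsto_atTop) hT hT'
    rw [e]
    exact hT'
  induction T with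
  | bot => exact Or.inr (Or.inl (EReal.tendsto_coe_nhds_bot_iff.1 hlim))
  | coe t => exact Or.inl ⟨t, EReal.tendsto_coe.1 hlim⟩
  | top => exact Or.inr (Or.inr (EReal.tendsto_coe_nhds_top_iff.1 hlim))

/-- the convergence in law to one of the theories -/
theorem convE_iff (C : Cl μ S cA κ τ F) (hP₀ : Constituent G P₀) (ho : Obs μ (chiP P₀ : G → ℝ))
    (hw : ∀ s, 0 < ∫ x, chr P₀ x * F s 0 x ∂μ ∧ ∫ x, chr P₀ x * F s 0 x ∂μ < 1)
    {β : ℕ → ℝ} {l : ℕ → ℕ} (hβ : ∀ i, 0 < β i) (hl : Tendsto l atTop atTop) (s : ℝ) :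
    ConvE μ S β l (F s) ↔ ConvS μ S β l (F s) := by
  refine ⟨fun h => ?_, fun h => C.cls _ _ hβ hl _ h⟩
  have hLL : ∀ (k : ℤ) (φ : G → ℝ), Continuous φ →
      Tendsto (LL μ S β l k φ) atTop (𝓝 (∫ x, φ x * F s k x ∂μ)) := fun k φ hφ =>
    LL_tendsto C.adm (theory_adm (C.th s)) (C.th s).int_one h k hφ
  rcases law_class C hP₀ ho hw hβ hl fun k φ hφ _ => ⟨_, hLL k φ hφ⟩ with ⟨t, ht⟩ | ht | ht
  · have h1 := (C.conv _ _ hβ hl (t - τ)).2 (by rwa [sub_add_cancel])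
    have h2 : F s = F (t - τ) := by
      funext k
      refine eq_of_int (μ := μ) ((C.th _).cont k) ((C.th _).cont k) ?_
      have hc : Continuous fun x => F s k x - F (t - τ) k x :=
        ((C.th _).cont k).sub ((C.th _).cont k)
      exact tendsto_nhds_unique (hLL k _ hc) (LL_tendsto C.adm (theory_adm (C.th _))
        (C.th _).int_one (C.cls _ _ hβ hl _ h1) k hc)
    rw [h2]
    exact h1
  · have h1 := LL_tendsto C.adm (fun _ => adm_one) (fun _ => by simp)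
      (C.cls _ _ hβ hl _ ((C.one _ _ hβ hl).2 ht)) 0 ho.cont
    simp only [mul_one] at h1
    have h2 := tendsto_nhds_unique (hLL 0 _ ho.cont) h1
    rw [ho.mean] at h2
    exact absurd h2 (hw s).1.ne'
  · have h1 := (C.top _ _ hβ hl).2 ht P₀ hP₀ 0
    have h2 := tendsto_nhds_unique (hLL 0 _ ho.cont) h1
    exact absurd h2 (hw s).2.ne

/-- the convergence in law to the theory at infinite temperature -/
theorem convE_one_iff (C : Cl μ S cA κ τ F) (hP₀ : Constituent G P₀)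
    (ho : Obs μ (chiP P₀ : G → ℝ))
    (hw : ∀ s, 0 < ∫ x, chr P₀ x * F s 0 x ∂μ ∧ ∫ x, chr P₀ x * F s 0 x ∂μ < 1)
    {β : ℕ → ℝ} {l : ℕ → ℕ} (hβ : ∀ i, 0 < β i) (hl : Tendsto l atTop atTop) :
    ConvE μ S β l (fun _ _ => 1) ↔ ConvS μ S β l (fun _ _ => 1) := by
  refine ⟨fun h => ?_, fun h => C.cls _ _ hβ hl _ h⟩
  have hLL : ∀ (k : ℤ) (φ : G → ℝ), Continuous φ →
      Tendsto (LL μ S β l k φ) atTop (𝓝 (∫ x, φ x * 1 ∂μ)) := fun k φ hφ =>
    LL_tendsto C.adm (F := fun _ _ => 1) (fun _ => adm_one) (fun _ => by simp) h k hφ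
  simp only [mul_one] at hLL
  rcases law_class C hP₀ ho hw hβ hl fun k φ hφ _ => ⟨_, hLL k φ hφ⟩ with ⟨t, ht⟩ | ht | ht
  · have h1 := (C.conv _ _ hβ hl (t - τ)).2 (by rwa [sub_add_cancel])
    have h2 := tendsto_nhds_unique (hLL 0 _ ho.cont) (LL_tendsto C.adm (theory_adm (C.th _))
      (C.th _).int_one (C.cls _ _ hβ hl _ h1) 0 ho.cont)
    rw [ho.mean] at h2
    exact absurd h2 (hw _).1.ne
  · exact (C.one _ _ hβ hl).2 ht
  · have h1 := (C.top _ _ hβ hl).2 ht P₀ hP₀ 0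
    have h2 := tendsto_nhds_unique (hLL 0 _ ho.cont) h1
    rw [ho.mean] at h2
    exact absurd h2 zero_ne_one

end

/-- **The classification of the continuum limits**, with the convergence in law -/
theorem class_law (hG : SimpleGroup G) {X : Fin n → Matrix (Fin N) (Fin N) ℂ}
    (hX : LieBasis G X) :
    ∃ (cA : ℝ) (F : ℝ → ℤ → G → ℝ), 0 < cA ∧
      (∀ c, ∑ a, (trace ((X c * X a - X a * X c)ᴴ * (X c * X a - X a * X c))).re = cA) ∧
      (∀ s, Theory μ (F s)) ∧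
      (∀ P, Constituent G P → (∀ s, Loops μ X P cA (F s)) ∧
        (∀ u, 0 < u → u < 1 → ∃ s, ∫ x, chr P x * F s 0 x ∂μ = u) ∧
        ∃ u₀ : ℝ, u₀ < 1 ∧ ∀ s s', u₀ < ∫ x, chr P x * F s 0 x ∂μ →
          ∫ x, chr P x * F s 0 x ∂μ = ∫ x, chr P x * F s' 0 x ∂μ → s = s') ∧
      (∀ k, Continuous fun p : ℝ × G => F p.1 k p.2) ∧
      Function.Injective F ∧
      (∀ s k, F s (k + 1) = F (s - cA / 8) k) ∧
      ∃ q₀ : (Fin n → ℝ) → ℝ, Quart X (fun g : G => (trace (mx g)).re) 1 q₀ ∧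
      ∀ S : G → ℝ, BareAction G S → ∃ (κ : ℝ) (q : (Fin n → ℝ) → ℝ), 0 < κ ∧ Curv X S κ ∧
        Quart X S κ q ∧
        ∀ (β : ℕ → ℝ) (l : ℕ → ℕ), (∀ i, 0 < β i) → Tendsto l atTop atTop →
          (∀ s, (ConvS μ S β l (F s) ↔ Tendsto (par cA κ β l) atTop
              (𝓝 (s + 4 / (5 * n) * (lap2 q / κ - lap2 q₀)))) ∧
            (ConvE μ S β l (F s) ↔ ConvS μ S β l (F s))) ∧
          ((ConvS μ S β l (fun _ _ => 1) ↔ Tendsto (par cA κ β l) atTop atBot) ∧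
            (ConvE μ S β l (fun _ _ => 1) ↔ ConvS μ S β l (fun _ _ => 1))) ∧
          ((∀ P, Constituent G P → ∀ k : ℤ,
            Tendsto (fun i => wloop μ P (bw S (β i)) (((l i : ℤ) + k).toNat)) atTop (𝓝 1)) ↔
              Tendsto (par cA κ β l) atTop atTop) ∧
          (∀ F' : ℤ → G → ℝ, ConvS μ S β l F' → F' = (fun _ _ => 1) ∨ ∃ s, F' = F s) ∧
          ((∀ (k : ℤ) (φ : G → ℝ), Continuous φ → (∀ g x, φ (g * x * g⁻¹) = φ x) → ∃ L : ℝ,
            Tendsto (fun i => Ex μ (bw S (β i)) (((l i : ℤ) + k).toNat)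
              fun U => φ (lp fun e => U (.inl e))) atTop (𝓝 L)) →
            (∃ t, Tendsto (par cA κ β l) atTop (𝓝 t)) ∨ Tendsto (par cA κ β l) atTop atBot ∨
              Tendsto (par cA κ β l) atTop atTop) := by
  have hGc : IsClosed (G : Set (UN N)) := hG.closed
  have : CompactSpace G := isCompact_iff_compactSpace.1 hGc.isCompact
  have := haar_right μ
  have := haar_inv μ
  obtain ⟨P₀, hP₀⟩ := Pool.Agent.N565.MK.exists_constituent hG
  have ho : Obs μ (chiP P₀ : G → ℝ) :=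
    obs_chiP ⟨⟨hP₀.herm, hP₀.idem, hP₀.comm⟩, hP₀.ne, hP₀.irr, hP₀.nontriv⟩
  obtain ⟨cA, F, h1, h2, h3, h4, h5, h6, h7, q₀, h8, h9⟩ := class_main (μ := μ) hG hX
  refine ⟨cA, F, h1, h2, h3, h4, h5, h6, h7, q₀, h8, fun S hS => ?_⟩
  obtain ⟨κ, q, g1, g2, g3, g4, -⟩ := h9 S hS
  have C : Cl μ S cA κ (4 / (5 * n) * (lap2 q / κ - lap2 q₀)) F :=
    ⟨h3, h6, fun b => bw_adm hS (bare_cont hS) b, fun β l hβ hl => (g4 β l hβ hl).1,
      fun β l hβ hl => (g4 β l hβ hl).2.1, fun β l hβ hl => (g4 β l hβ hl).2.2.1,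
      fun β l hβ hl F' h => ((g4 β l hβ hl).2.2.2 F' h).1⟩
  have hw : ∀ s, 0 < ∫ x, chr P₀ x * F s 0 x ∂μ ∧ ∫ x, chr P₀ x * F s 0 x ∂μ < 1 :=
    fun s => ((h4 P₀ hP₀).1 s).wilson 0
  refine ⟨κ, q, g1, g2, g3, fun β l hβ hl => ⟨fun s => ⟨C.conv β l hβ hl s,
    convE_iff C hP₀ ho hw hβ hl s⟩, ⟨C.one β l hβ hl, convE_one_iff C hP₀ ho hw hβ hl⟩,
    C.top β l hβ hl, fun F' h => ((g4 β l hβ hl).2.2.2 F' h).2,
    fun h => law_class C hP₀ ho hw hβ hl h⟩⟩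

end

end Pool.Agent.N989.MK
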